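import Mathlib

/-!
# Cusp forms on `GL_n` and Hecke operators (MP_7742d9_nt, helper74)

Definitions for the statement.  A cuspidal automorphic representation of `GL_n` over `ℚ` whose
central character is trivial on the positive real numbers gives such functions: restrict a vector
which is the newvector at the finite places and smooth at the infinite place to the real matrices
of positive determinant (conjugated by the long Weyl element, so that the level condition concerns
the first row).
-/

set_option autoImplicit false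

noncomputable section

namespace Pool.Agent.GLForm74

open MeasureTheory ComplexConjugate

variable {n : ℕ}

/-- The unipotent matrix with the entries of `B` in the lower left block: row index `≥ k`, column
index `< k`. -/
def block (k : ℕ) (B : Fin n → Fin n → ℝ) : Matrix (Fin n) (Fin n) ℝ :=
  Matrix.of fun i j => if i = j then 1 else if (j : ℕ) < k ∧ k ≤ (i : ℕ) then B i j else 0

/-- Cusp forms on `GL_n (ℝ)⁺` of level `N` and character `χ`. -/
structure IsCuspForm (N : ℕ) (χ : DirichletCharacter ℂ N)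
    (f : Matrix (Fin n) (Fin n) ℝ → ℂ) : Prop where
  /-- `f` is bounded -/
  bounded : ∃ C : ℝ, ∀ g, 0 < g.det → ‖f g‖ ≤ C
  /-- `|f (g x) - f (g)| ≤ C |x - 1|` -/
  lipschitz : ∃ C : ℝ, ∀ g x, 0 < g.det → 0 < x.det →
    ‖f (g * x) - f g‖ ≤ C * ∑ i, ∑ j, |x i j - (1 : Matrix (Fin n) (Fin n) ℝ) i j|
  /-- `f (t g) = f (g)` for `t > 0` -/
  scale : ∀ (t : ℝ) g, 0 < t → 0 < g.det → f (t • g) = f g
  /-- `f (γ g) = χ (γ_00) f (g)` for the integral matrices `γ` of determinant `1` with first row
  congruent to `(γ_00, 0, ..., 0)` modulo `N` -/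
  automorphic : ∀ γ : Matrix (Fin n) (Fin n) ℤ, γ.det = 1 →
    (∀ i j : Fin n, (i : ℕ) = 0 → (j : ℕ) ≠ 0 → (N : ℤ) ∣ γ i j) →
    ∀ i : Fin n, (i : ℕ) = 0 → ∀ g, 0 < g.det →
      f (γ.map (fun a : ℤ => (a : ℝ)) * g) = χ ((γ i i : ℤ) : ZMod N) * f g
  /-- the constant terms along the maximal parabolic subgroups vanish -/
  cuspidal : ∀ k : ℕ, 0 < k → k < n → ∀ g, 0 < g.det →
    ∫ B in Set.Icc (0 : Fin n → Fin n → ℝ) 1, f (block k B * g) = 0

/-- The lower triangular matrix with the diagonal entries `p` for the indices in `S` and `1`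
otherwise, and the entries `b` off the diagonal. -/
def heckeMatrix (p : ℕ) (S : Finset (Fin n)) (b : Fin n → Fin n → ℕ) :
    Matrix (Fin n) (Fin n) ℝ :=
  Matrix.of fun i j => if i = j then (if i ∈ S then (p : ℝ) else 1) else (b i j : ℝ)

/-- The off-diagonal entries: `0 ≤ b i j < p` if `j < i`, `j ∈ S` and `i ∉ S`, otherwise
`b i j = 0`. -/
def heckeEntries (p : ℕ) (S : Finset (Fin n)) : Finset (Fin n → Fin n → ℕ) :=
  Fintype.piFinset fun i => Fintype.piFinset fun j =>
    if j < i ∧ j ∈ S ∧ i ∉ S then Finset.range p else {0}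

open Classical in
/-- The Hecke operator `T_{p,k}`: the sum over the representatives `δ` of the elementary divisor
type `(1, ..., 1, p, ..., p)` (`k` times `p`) of `conj χ(δ_00) f (δ g)`. -/
def hecke {N : ℕ} (χ : DirichletCharacter ℂ N) (p k : ℕ) (f : Matrix (Fin n) (Fin n) ℝ → ℂ)
    (g : Matrix (Fin n) (Fin n) ℝ) : ℂ :=
  ∑ S ∈ Finset.powersetCard k (Finset.univ : Finset (Fin n)),
    (if ∃ i ∈ S, (i : ℕ) = 0 then conj (χ p) else 1) *
      ∑ b ∈ heckeEntries p S, f (heckeMatrix p S b * g)

/-- There is a nonzero cusp form of level `N` and some character with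
`T_{p,k} f = p^(k(n-k)/2) e_k (A p) f` for all primes `p` not dividing `N` and `1 ≤ k ≤ n`, where
`e_k (A p)` is the `k`-th elementary symmetric function of the eigenvalues of `A p` (given by the
coefficients of its characteristic polynomial `P p`). -/
def IsCuspidalSystem (N : ℕ) (P : ℕ → Polynomial ℂ) (n : ℕ) : Prop :=
  ∃ (χ : DirichletCharacter ℂ N) (f : Matrix (Fin n) (Fin n) ℝ → ℂ), IsCuspForm N χ f ∧
    (∃ g, 0 < g.det ∧ f g ≠ 0) ∧
    ∀ p : ℕ, p.Prime → ¬ p ∣ N → ∀ k : ℕ, 1 ≤ k → k ≤ n → ∀ g, 0 < g.det →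
      hecke χ p k f g = (Real.sqrt p : ℂ) ^ (k * (n - k)) * ((-1) ^ k * (P p).coeff (n - k)) * f g

end Pool.Agent.GLForm74
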