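import Pool.Agent.W_7742x_h74.PLrg

/-! # Extension of the integral

`IA σ` is the sum of the integrals over `|dt g| ≤ 1` (`small_det`) and `1 < |dt g|` (`large_det`,
`analytic_lap` on `(a, b)` for every `a`).  It is not `0` if `φ ≠ 0`: `φ` is continuous where
`dt g ≠ 0`, in fact the set `U = {φ ≠ 0}` has positive measure (`hpos`), and if `IA σ = 0` then
`wT T g = 0` for almost all `g ∈ U` (`thN s N g > 0` because `e_0 ∈ MN`, `|dt g|^(..) > 0`); `U` is
invariant under `G0`, so `∑_γ wT T (γ g) = 0` for almost all `g ∈ U`, contradiction. -/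

set_option autoImplicit false

noncomputable section

namespace Pool.Agent.GL74

open MeasureTheory Set
open scoped ENNReal MatrixGroups

theorem PExt_meas_thN (s N : ℕ) : Measurable (thN s N : X (s + 2) → ℝ≥0∞) := by
  unfold thN
  refine Measurable.ennreal_tsum fun v => ?_
  unfold gs rv
  fun_prop

theorem PExt_meas_wT {n : ℕ} (T : Finset SL(n, ℤ)) : Measurable (wT T : X n → ℝ≥0∞) := by
  have h : (wT T : X n → ℝ≥0∞) = fun g => ∑ δ ∈ T, wt n (sl δ g) := rfl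
  rw [h]
  exact Finset.measurable_fun_sum T fun δ _ =>
    (isWt_wt n).meas.comp (measurePreserving_sl δ).measurable

theorem PExt_thN_pos {s N : ℕ} (g : X (s + 2)) : thN s N g ≠ 0 := by
  have hm : (fun i : Fin (s + 2) => if i = 0 then (1 : ℤ) else 0) ≠ 0 ∧
      IsCoprime ((fun i : Fin (s + 2) => if i = 0 then (1 : ℤ) else 0) 0) (N : ℤ) ∧
      ∀ j, j ≠ 0 → (N : ℤ) ∣ (fun i : Fin (s + 2) => if i = 0 then (1 : ℤ) else 0) j := by
    refine ⟨fun h => ?_, ?_, fun j hj => ?_⟩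
    · have := congrFun h 0
      simp at this
    · simp [isCoprime_one_left]
    · simp [hj]
  have h1 : ENNReal.ofReal (gs (rv (zr fun i : Fin (s + 2) => if i = 0 then (1 : ℤ) else 0) g)) ≤
      thN s N g :=
    ENNReal.le_tsum (f := fun v : MN s N => ENNReal.ofReal (gs (rv (zr v.1) g))) ⟨_, hm⟩
  intro h0
  rw [h0] at h1
  have h2 : 0 < ENNReal.ofReal
      (gs (rv (zr fun i : Fin (s + 2) => if i = 0 then (1 : ℤ) else 0) g)) :=
    ENNReal.ofReal_pos.2 (Real.exp_pos _)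
  exact absurd h1 (not_le.2 h2)

theorem PExt_meas {s N : ℕ} (T : Finset SL(s + 2, ℤ)) {φ : X (s + 2) → ℂ} (hφ : Measurable φ)
    (σ : ℝ) : Measurable fun g : X (s + 2) => wT T g * (‖φ g‖ₑ ^ 2 *
      (ENNReal.ofReal (|dt g| ^ σ) * thN s N g)) := by
  have h1 := PExt_meas_wT T
  have h2 := PExt_meas_thN s N
  have h3 : Measurable (dt : X (s + 2) → ℝ) := measurable_dt
  have h4 : Measurable fun g : X (s + 2) => ENNReal.ofReal (|dt g| ^ σ) := by
    have h5 : Measurable fun g : X (s + 2) => |dt g| := measurable_norm.comp h3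
    exact (h5.pow_const σ).ennreal_ofReal
  exact h1.mul ((hφ.enorm.pow_const 2).mul (h4.mul h2))

theorem iA_ne_zero {s N : ℕ} {T : Finset SL(s + 2, ℤ)} {φ : X (s + 2) → ℂ} (h : IsLvl N T φ)
    (hpos : volume {g : X (s + 2) | φ g ≠ 0} ≠ 0) (σ : ℝ) : IA N T φ σ ≠ 0 := by
  intro h0
  unfold IA at h0
  rw [lintegral_eq_zero_iff (PExt_meas T h.isP.meas _)] at h0
  have h1 : ∀ᵐ g : X (s + 2), φ g ≠ 0 → wT T g = 0 := by
    filter_upwards [h0, ae_dt_ne_zero] with g hg hd hφ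
    have hg' : wT T g * (‖φ g‖ₑ ^ 2 *
      (ENNReal.ofReal (|dt g| ^ (σ - (s + 2))) * thN s N g)) = 0 := hg
    rcases mul_eq_zero.1 hg' with h2 | h2
    · exact h2
    · exfalso
      rcases mul_eq_zero.1 h2 with h3 | h3
      · exact hφ (enorm_eq_zero.1 (eq_zero_of_pow_eq_zero h3))
      · rcases mul_eq_zero.1 h3 with h4 | h4
        · rw [ENNReal.ofReal_eq_zero] at h4
          exact absurd h4 (not_le.2 (Real.rpow_pos_of_pos (abs_pos.2 hd) _))
        · exact PExt_thN_pos g h4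
  have hc : Countable SL(s + 2, ℤ) := countable_sl (s + 2)
  have h2 : ∀ γ : G0 (s + 1) N, ∀ᵐ g : X (s + 2), φ (sl γ.1 g) ≠ 0 → wT T (sl γ.1 g) = 0 :=
    fun γ => (measurePreserving_sl γ.1).quasiMeasurePreserving.ae h1
  have hcG : Countable (G0 (s + 1) N) := Subtype.countable
  have h3 := ae_all_iff.2 h2
  have h4 : ∀ᵐ g : X (s + 2), φ g = 0 := by
    filter_upwards [h3, h.sum] with g hg hs
    by_contra hne
    have h5 : ∀ γ : G0 (s + 1) N, wT T (sl γ.1 g) = 0 := fun γ => hg γ (by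
      rw [← norm_ne_zero_iff, h.inv γ.1 γ.2 g]
      exact norm_ne_zero_iff.2 hne)
    simp only [h5, tsum_zero] at hs
    exact zero_ne_one hs
  rw [ae_iff] at h4
  exact hpos h4

theorem iA_ext {s N : ℕ} {T : Finset SL(s + 2, ℤ)} {φ : X (s + 2) → ℂ} (h : IsLvl N T φ) :
    ∃ b : ℝ, 1 < b ∧ ∃ G : ℝ → ℝ, (∀ σ ∈ Ioo 0 b, AnalyticAt ℝ G σ) ∧
      ∀ σ ∈ Ioo 1 b, IA N T φ σ ≠ ∞ ∧ G σ = (σ - 1) * (IA N T φ σ).toReal := by
  obtain ⟨C, hC⟩ := h.isP.bdd
  obtain ⟨G1, hG1, hG1'⟩ := small_det h.pos T h.isP.meas hC h.scale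
  obtain ⟨b, hb, hlarge⟩ := large_det h
  obtain ⟨D, hD⟩ : ∃ D : Set (X (s + 2)), D = {g : X (s + 2) | 1 < |dt g|} := ⟨_, rfl⟩
  have hDm : MeasurableSet D := by
    rw [hD]
    exact measurableSet_lt measurable_const (measurable_norm.comp measurable_dt)
  have hDc : Dᶜ = {g : X (s + 2) | |dt g| ≤ 1} := by
    rw [hD]
    ext g
    simp
  obtain ⟨u, hu⟩ : ∃ u : X (s + 2) → ℝ≥0∞, u = D.indicator fun g => wT T g * (‖φ g‖ₑ ^ 2 *
      (ENNReal.ofReal (|dt g| ^ (-((s : ℝ) + 2))) * thN s N g)) := ⟨_, rfl⟩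
  have hum : Measurable u := by
    rw [hu]
    exact (PExt_meas T h.isP.meas _).indicator hDm
  have hL : ∀ σ : ℝ, ∫⁻ g, u g * ENNReal.ofReal (|dt g| ^ σ) =
      ∫⁻ g in {g : X (s + 2) | 1 < |dt g|}, wT T g * (‖φ g‖ₑ ^ 2 *
        (ENNReal.ofReal (|dt g| ^ (σ - (s + 2))) * thN s N g)) := by
    intro σ
    rw [← hD, ← lintegral_indicator hDm]
    apply lintegral_congr
    intro g
    rw [hu]
    by_cases hg : g ∈ D
    · rw [Set.indicator_of_mem hg, Set.indicator_of_mem hg]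
      have hg1 : 0 < |dt g| := by
        rw [hD] at hg
        exact lt_trans one_pos hg
      have h1 : ENNReal.ofReal (|dt g| ^ (σ - (s + 2))) =
          ENNReal.ofReal (|dt g| ^ (-((s : ℝ) + 2))) * ENNReal.ofReal (|dt g| ^ σ) := by
        rw [← ENNReal.ofReal_mul (Real.rpow_nonneg hg1.le _), ← Real.rpow_add hg1]
        congr 2
        ring
      rw [h1]
      ring
    · rw [Set.indicator_of_notMem hg, Set.indicator_of_notMem hg, zero_mul]
  have hA := analytic_lap hum (a := 0) (b := b) fun σ hσ => by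
    rw [hL σ]
    exact hlarge σ hσ.2
  refine ⟨b, hb, fun σ => G1 σ + (σ - 1) *
    (∫⁻ g, u g * ENNReal.ofReal (|dt g| ^ σ)).toReal, ?_, ?_⟩
  · intro σ hσ
    have h1 : AnalyticAt ℝ (fun σ : ℝ => σ - 1) σ := analyticAt_id.sub analyticAt_const
    exact (hG1 σ hσ.1).add (h1.mul (hA σ hσ))
  · intro σ hσ
    obtain ⟨h1, h2⟩ := hG1' σ hσ.1
    have h3 := hlarge σ hσ.2
    have h4 : IA N T φ σ = (∫⁻ g in {g : X (s + 2) | 1 < |dt g|}, wT T g * (‖φ g‖ₑ ^ 2 *
        (ENNReal.ofReal (|dt g| ^ (σ - (s + 2))) * thN s N g))) +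
        ∫⁻ g in {g : X (s + 2) | |dt g| ≤ 1}, wT T g * (‖φ g‖ₑ ^ 2 *
        (ENNReal.ofReal (|dt g| ^ (σ - (s + 2))) * thN s N g)) := by
      rw [← hDc, ← hD]
      exact (lintegral_add_compl _ hDm).symm
    rw [h4]
    refine ⟨ENNReal.add_ne_top.2 ⟨h3, h1⟩, ?_⟩
    rw [ENNReal.toReal_add h3 h1]
    show G1 σ + (σ - 1) * (∫⁻ g, u g * ENNReal.ofReal (|dt g| ^ σ)).toReal = _
    rw [h2, hL σ]
    ring

end Pool.Agent.GL74
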