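import Pool.Agent.W_7742x_h74.LPrd
import Pool.Agent.W_7742c_h74.Zeta

/-! # The Euler product with the contribution of the bad primes

Let `I = ∑_m JJ φ σ m` be finite and nonzero, `σ > 1`, `Ibad = ∑_{m ∈ MZ {p | good p}} JJ φ σ m`.

1. `Ibad ≠ 0`: some `JJ φ σ m ≠ 0`, `m` with nonzero entries (`JJ_zero`).  Let `Q` be the set of
   the good primes which divide some entry (finite).  Write `m i = m' i ∏_{p ∈ Q} p^{a_p i}`;
   `JJ_pow` for the primes in `Q` one after the other shows that `JJ φ σ m` is a multiple of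
   `JJ φ σ m'`, and `m' ∈ MZ {good}`.
2. For finite sets `Q` of good primes, `∑_{MZ Q} JJ ≥ Ibad > 0`, so by `sum_prod` all
   `locF (B p) (p^{-σ})` are finite and `∏_Q locF ≤ I / Ibad`.  (`‖det (B p)‖ = 1`: `IsEig` for
   `k = r` says `ξ φ (p g) = det B φ g`, `φ ≠ 0`, and `φ (p g) = φ g`; `emx_last`.)
   By `locF_eq`, `locF (B p) (p^{-σ}) = (1 - p^{-nσ}) exp (D p)`,
   `D p = ∑_k ‖tr (B p)⁻¹^{k+1}‖² p^{-(k+1)σ}/(k+1)`.
3. The series `∑_p p^{-nσ}` converges (`nσ > 1`), so `∏_Q (1 - p^{-nσ})⁻¹` is bounded, and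
   `exp (∑_Q D p)` is bounded: `∑_p D p < ∞`.
4. `∑_{MZ Q} JJ → Ibad` as `Q` increases to the set of all good primes (the complements of the sets
   `MZ Q` in `MZ ∅` increase to the complement of `MZ {good}`; the total sum is finite), so
   `I = (∏_p (1 - p^{-nσ})) exp (∑_p D p) Ibad`, and
   `∏_p (1 - p^{-nσ})⁻¹ = ∑_t t^{-nσ}` over the positive integers `t` which are products of good
   primes (Euler product). -/

set_option autoImplicit false

noncomputable section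

namespace Pool.Agent.GL74

open MeasureTheory
open scoped ENNReal
open Pool.Agent.H74E (pk)

open Classical in
/-- The coefficients of the logarithm of the Rankin-Selberg `L`-function (of the contragredient). -/
def TT {n : ℕ} (good : ℕ → Prop) (B : ℕ → Matrix (Fin n) (Fin n) ℂ) (x : Nat.Primes × ℕ) : ℝ :=
  if good x.1 then ‖((B x.1)⁻¹ ^ (x.2 + 1)).trace‖ ^ 2 else 0

/-- The contribution of the bad primes. -/
def Ibad {r : ℕ} (φ : X (r + 1) → ℂ) (good : ℕ → Prop) (σ : ℝ) : ℝ≥0∞ :=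
  ∑' m : MZ r {p | good p}, JJ φ σ m.1

/-- Removing the primes of a finite set from the entries of `m`. -/
theorem LBad_remove {r : ℕ} {φ : X (r + 1) → ℂ} {good : ℕ → Prop} {ξ : ℕ → ℂ}
    {B : ℕ → Matrix (Fin (r + 1)) (Fin (r + 1)) ℂ} (h : IsHeckeForm φ good ξ B) (σ : ℝ)
    (Q : Finset ℕ) (hQ : ∀ q ∈ Q, good q) {m : Fin r → ℤ} (hm : ∀ i, m i ≠ 0)
    (hJ : JJ φ σ m ≠ 0) : ∃ m' : Fin r → ℤ, (∀ i, m' i ∣ m i) ∧ (∀ i, ∀ q ∈ Q, ¬ (q : ℤ) ∣ m' i) ∧
      JJ φ σ m' ≠ 0 := by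
  classical
  induction Q using Finset.induction_on with
  | empty => exact ⟨m, fun i => dvd_rfl, fun i q hq => by simp at hq, hJ⟩
  | insert p Q hpQ ih =>
    obtain ⟨m', h1, h2, h3⟩ := ih fun q hq => hQ q (Finset.mem_insert_of_mem hq)
    have hgp := hQ p (Finset.mem_insert_self _ _)
    have hp := h.prime p hgp
    have h0 : ∀ i, m' i ≠ 0 := fun i h' => hm i (by
      have := h1 i
      rw [h', zero_dvd_iff] at this
      exact this)
    have h4 : ∀ i, ∃ c : ℤ, m' i = (p : ℤ) ^ multiplicity (p : ℤ) (m' i) * c ∧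
        ¬ (p : ℤ) ∣ c := by
      intro i
      refine FiniteMultiplicity.exists_eq_pow_mul_and_not_dvd ?_
      rw [Int.finiteMultiplicity_iff]
      refine ⟨?_, h0 i⟩
      rw [Int.natAbs_natCast]
      exact hp.one_lt.ne'
    choose c hc hc' using h4
    have h5 : ∀ i, c i ∣ m' i := fun i => by
      conv_rhs => rw [hc i]
      exact Dvd.intro_left _ rfl
    refine ⟨c, fun i => (h5 i).trans (h1 i), fun i q hq hd => ?_, fun h6 => h3 ?_⟩
    · rw [Finset.mem_insert] at hq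
      rcases hq with rfl | hq
      · exact hc' i hd
      · exact h2 i q hq (hd.trans (h5 i))
    · have h7 := JJ_pow h.isP h.scale hp (h.norm_xi p hgp) (h.eig p hgp) σ hc'
        (fun i => multiplicity (p : ℤ) (m' i))
      have h8 : (fun i => c i * (p : ℤ) ^ multiplicity (p : ℤ) (m' i)) = m' := by
        funext i
        rw [mul_comm]
        exact (hc i).symm
      rw [h8, h6, mul_zero] at h7
      exact h7

theorem ibad_ne_zero {r : ℕ} {φ : X (r + 1) → ℂ} {good : ℕ → Prop} {ξ : ℕ → ℂ}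
    {B : ℕ → Matrix (Fin (r + 1)) (Fin (r + 1)) ℂ} (h : IsHeckeForm φ good ξ B) {σ : ℝ}
    (h0 : ∑' m : Fin r → ℤ, JJ φ σ m ≠ 0) : Ibad φ good σ ≠ 0 := by
  classical
  rw [Ne, ENNReal.tsum_eq_zero, not_forall] at h0
  obtain ⟨m, hm⟩ := h0
  have hm0 : ∀ i, m i ≠ 0 := fun i hi => hm (JJ_zero h.isP h.cusp σ hi)
  set Q : Finset ℕ := (Finset.univ.biUnion fun i => (m i).natAbs.primeFactors).filter good with hQ
  obtain ⟨m', h1, h2, h3⟩ := LBad_remove h σ Q (fun q hq => (Finset.mem_filter.1 hq).2) hm0 hm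
  unfold Ibad
  rw [Ne, ENNReal.tsum_eq_zero, not_forall]
  refine ⟨⟨m', fun i => ⟨fun h' => hm0 i ?_, fun p hp hd => h2 i p ?_ hd⟩⟩, h3⟩
  · have := h1 i
    rw [h', zero_dvd_iff] at this
    exact this
  · rw [hQ, Finset.mem_filter, Finset.mem_biUnion]
    refine ⟨⟨i, Finset.mem_univ _, ?_⟩, hp⟩
    rw [Nat.mem_primeFactors]
    refine ⟨h.prime p hp, ?_, Int.natAbs_ne_zero.2 (hm0 i)⟩
    rw [← Int.natCast_dvd]
    exact hd.trans (h1 i)

theorem LBad_bs {n : ℕ} (p : ℕ) : bs p (Finset.univ : Finset (Fin n)) = {0} := by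
  unfold bs
  ext b
  rw [Fintype.mem_piFinset, Finset.mem_singleton]
  constructor
  · intro hb
    funext i j
    have h1 := Fintype.mem_piFinset.1 (hb i) j
    rw [if_neg (by simp), Finset.mem_singleton] at h1
    exact h1
  · rintro rfl i
    rw [Fintype.mem_piFinset]
    intro j
    rw [if_neg (by simp), Finset.mem_singleton]
    rfl

theorem LBad_lm {n : ℕ} (p : ℕ) (g : X n) : lm (dl p Finset.univ 0) g = (p : ℝ) • g := by
  funext i j
  show ∑ k, (Matrix.of fun i j => if i = j then (if i ∈ Finset.univ then (p : ℝ) else 1)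
    else (((0 : Fin n → Fin n → ℕ) i j : ℕ) : ℝ)) i k * g k j = p * g i j
  rw [Finset.sum_eq_single i]
  · simp
  · intro k _ hk
    rw [Matrix.of_apply, if_neg (Ne.symm hk)]
    simp
  · intro h
    exact absurd (Finset.mem_univ _) h

theorem norm_det {r : ℕ} {φ : X (r + 1) → ℂ} {good : ℕ → Prop} {ξ : ℕ → ℂ}
    {B : ℕ → Matrix (Fin (r + 1)) (Fin (r + 1)) ℂ} (h : IsHeckeForm φ good ξ B)
    (hne : ∃ g, φ g ≠ 0) {p : ℕ} (hp : good p) : ‖(B p).det‖ = 1 := by
  obtain ⟨g, hg⟩ := hne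
  have h1 := h.eig p hp (Fin.last r) g
  have hpp := h.prime p hp
  have h2 : Finset.powersetCard (r + 1) (Finset.univ : Finset (Fin (r + 1))) =
      {Finset.univ} := by
    have h2 := Finset.powersetCard_self (Finset.univ : Finset (Fin (r + 1)))
    rwa [Finset.card_univ, Fintype.card_fin] at h2
  rw [Fin.val_last, h2, Finset.sum_singleton, if_pos (Finset.mem_univ _), Hk, LBad_bs,
    Finset.sum_singleton, LBad_lm, h.scale _ (by exact_mod_cast hpp.pos), Nat.sub_self, mul_zero,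
    pow_zero, one_mul, emx_last] at h1
  rw [← mul_right_cancel₀ hg h1]
  exact h.norm_xi p hp

/-- The integers which are products of good primes. -/
def Zgood (good : ℕ → Prop) (x : ℝ) : ℝ≥0∞ :=
  ∑' t : {t : ℕ // t ≠ 0 ∧ ∀ p : ℕ, p.Prime → p ∣ t → good p}, ENNReal.ofReal ((t.1 : ℝ) ^ (-x))

/-- The finite set of natural numbers given by the good primes of a finite set. -/
def LBad_Q (good : ℕ → Prop) (s : Finset Nat.Primes) : Finset ℕ :=
  open Classical in (s.filter fun p : Nat.Primes => good (p : ℕ)).map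
    ⟨fun p : Nat.Primes => (p : ℕ), Nat.Primes.coe_nat_injective⟩

theorem LBad_mem {good : ℕ → Prop} {s : Finset Nat.Primes} {q : ℕ} :
    q ∈ LBad_Q good s ↔ good q ∧ ∃ hq : q.Prime, (⟨q, hq⟩ : Nat.Primes) ∈ s := by
  classical
  unfold LBad_Q
  rw [Finset.mem_map]
  constructor
  · rintro ⟨p, hp, rfl⟩
    rw [Finset.mem_filter] at hp
    exact ⟨hp.2, p.2, hp.1⟩
  · rintro ⟨h1, h2, h3⟩
    refine ⟨⟨q, h2⟩, ?_, rfl⟩
    rw [Finset.mem_filter]
    exact ⟨h3, h1⟩

/-- Sums over decreasing or increasing families of subtypes converge. -/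
theorem LBad_lim {α : Type} {f : α → ℝ≥0∞} (hf : ∑' a, f a ≠ ∞) {A : Finset Nat.Primes → Set α}
    {A₀ : Set α} (hA : ∀ a, ∀ᶠ s in Filter.atTop, (a ∈ A s ↔ a ∈ A₀)) :
    Filter.Tendsto (fun s => ∑' a : A s, f a) Filter.atTop (nhds (∑' a : A₀, f a)) := by
  classical
  have hfa : ∀ a, f a ≠ ∞ := fun a => ENNReal.ne_top_of_tsum_ne_top hf a
  have key : ∀ C : Set α, ∑' a : C, f a = ENNReal.ofReal (∑' a, C.indicator (fun a => (f a).toReal) a) := by
    intro C
    have h1 : ∑' a : C, f a ≤ ∑' a, f a := ENNReal.tsum_comp_le_tsum_of_injective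
      Subtype.val_injective f
    have h2 : ∑' a : C, f a ≠ ∞ := ne_top_of_le_ne_top hf h1
    rw [← ENNReal.ofReal_toReal h2]
    congr 1
    exact (ENNReal.tsum_toReal_eq (fun a : C => hfa a)).trans
      (tsum_subtype C (fun a => (f a).toReal))
  simp only [key]
  refine (ENNReal.continuous_ofReal.tendsto _).comp ?_
  refine tendsto_tsum_of_dominated_convergence (bound := fun a => (f a).toReal)
    (ENNReal.summable_toReal hf) (fun a => ?_) (Filter.Eventually.of_forall fun s a => ?_)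
  · refine tendsto_const_nhds.congr' ?_
    filter_upwards [hA a] with s hs
    unfold Set.indicator
    by_cases h : a ∈ A₀
    · rw [if_pos h, if_pos (hs.2 h)]
    · rw [if_neg h, if_neg fun h' => h (hs.1 h')]
  · rw [Real.norm_eq_abs]
    unfold Set.indicator
    split_ifs
    · rw [abs_of_nonneg ENNReal.toReal_nonneg]
    · rw [abs_zero]
      exact ENNReal.toReal_nonneg

/-- The Euler product over finite sets of good primes. -/
theorem LBad_euler {x : ℝ} (hx : 1 < x) (Q : Finset ℕ) (hQ : ∀ q ∈ Q, q.Prime) :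
    ∑' t : {t : ℕ | t ≠ 0 ∧ ∀ p : ℕ, p.Prime → p ∣ t → p ∈ Q}, ENNReal.ofReal ((t.1 : ℝ) ^ (-x)) =
      ∏ p ∈ Q, ENNReal.ofReal ((1 - (p : ℝ) ^ (-x))⁻¹) := by
  classical
  let f : ℕ →* ℝ :=
    { toFun := fun t => (t : ℝ) ^ (-x)
      map_one' := by simp
      map_mul' := fun a b => by
        rw [Nat.cast_mul, Real.mul_rpow (Nat.cast_nonneg _) (Nat.cast_nonneg _)] }
  have hf : ∀ t, f t = (t : ℝ) ^ (-x) := fun t => rfl
  have h1 : ∀ {p : ℕ}, p.Prime → (p : ℝ) ^ (-x) < 1 := fun {p} hp =>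
    Real.rpow_lt_one_of_one_lt_of_neg (by exact_mod_cast hp.one_lt) (by linarith)
  have h2 : ∀ {p : ℕ}, p.Prime → ‖f p‖ < 1 := fun {p} hp => by
    rw [hf, Real.norm_eq_abs, abs_of_nonneg (by positivity)]
    exact h1 hp
  obtain ⟨h3, h4⟩ := EulerProduct.summable_and_hasSum_factoredNumbers_prod_filter_prime_geometric
    h2 Q
  have h5 : {t : ℕ | t ≠ 0 ∧ ∀ p : ℕ, p.Prime → p ∣ t → p ∈ Q} = Nat.factoredNumbers Q := by
    ext t
    rw [Set.mem_ofPred_eq, Nat.mem_factoredNumbers]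
    refine and_congr_right fun ht => ?_
    constructor
    · intro h p hp
      exact h p (Nat.prime_of_mem_primeFactorsList hp) (Nat.dvd_of_mem_primeFactorsList hp)
    · intro h p hp hpt
      exact h p ((Nat.mem_primeFactorsList ht).2 ⟨hp, hpt⟩)
  rw [h5]
  have h6 : Q.filter Nat.Prime = Q := Finset.filter_true_of_mem hQ
  rw [h6] at h4
  rw [← ENNReal.ofReal_prod_of_nonneg fun p hp => by
    have := h1 (hQ p hp)
    exact inv_nonneg.2 (by linarith)]
  have h7 : ∏ p ∈ Q, (1 - (p : ℝ) ^ (-x))⁻¹ = ∑' m : Nat.factoredNumbers Q, f m := h4.tsum_eq.symm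
  rw [h7, ENNReal.ofReal_tsum_of_nonneg (fun t => by rw [hf]; positivity) h4.summable]
  rfl

/-- The logarithm of the local factor. -/
def LBad_E {r : ℕ} (good : ℕ → Prop) (B : ℕ → Matrix (Fin (r + 1)) (Fin (r + 1)) ℂ) (σ : ℝ)
    (p : Nat.Primes) : ℝ := ∑' k : ℕ, TT good B (p, k) * pk σ (p, k)

theorem LBad_pk (σ : ℝ) (p : Nat.Primes) (k : ℕ) :
    pk σ (p, k) = (((p : ℕ) : ℝ) ^ (-σ)) ^ (k + 1) / ((k : ℝ) + 1) := by
  have hp0 : (0 : ℝ) < (p : ℕ) := by exact_mod_cast p.2.pos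
  unfold pk
  rw [Real.rpow_def_of_pos hp0, ← Real.exp_nat_mul, div_eq_inv_mul]
  congr 2
  push_cast
  ring

theorem TT_nonneg {r : ℕ} (good : ℕ → Prop) (B : ℕ → Matrix (Fin (r + 1)) (Fin (r + 1)) ℂ)
    (x : Nat.Primes × ℕ) : 0 ≤ TT good B x := by
  unfold TT
  split_ifs <;> positivity

theorem LBad_loc {r : ℕ} {φ : X (r + 1) → ℂ} {good : ℕ → Prop} {ξ : ℕ → ℂ}
    {B : ℕ → Matrix (Fin (r + 1)) (Fin (r + 1)) ℂ} (h : IsHeckeForm φ good ξ B)
    (hne : ∃ g, φ g ≠ 0) {σ : ℝ} (hσ : 1 < σ) (h0 : ∑' m : Fin r → ℤ, JJ φ σ m ≠ 0)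
    (hfin : ∑' m : Fin r → ℤ, JJ φ σ m ≠ ∞) {p : Nat.Primes} (hp : good p) :
    (Summable fun k : ℕ => TT good B (p, k) * pk σ (p, k)) ∧
      locF (B p) (((p : ℕ) : ℝ) ^ (-σ)) = ENNReal.ofReal (1 - ((p : ℕ) : ℝ) ^ (-((r + 1 : ℕ) * σ))) *
        ENNReal.ofReal (Real.exp (LBad_E good B σ p)) := by
  classical
  have hp1 : (1 : ℝ) < (p : ℕ) := by exact_mod_cast p.2.one_lt
  have hx0 : 0 < ((p : ℕ) : ℝ) ^ (-σ) := by positivity
  have hx1 : ((p : ℕ) : ℝ) ^ (-σ) < 1 := Real.rpow_lt_one_of_one_lt_of_neg hp1 (by linarith)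
  have h1 := sum_prod h σ {(p : ℕ)} (fun q hq => by
    rw [Finset.mem_singleton] at hq
    rw [hq]
    exact hp)
  rw [Finset.prod_singleton] at h1
  have h2 : ∑' m : MZ r (({(p : ℕ)} : Finset ℕ) : Set ℕ), JJ φ σ m.1 ≠ 0 := by
    intro h'
    rw [h', mul_zero] at h1
    exact h0 h1
  have h3 : locF (B p) (((p : ℕ) : ℝ) ^ (-σ)) ≠ ∞ := by
    intro h'
    rw [h', ENNReal.top_mul h2] at h1
    exact hfin h1
  obtain ⟨h4, h5⟩ := locF_eq (B p) (norm_det h hne hp) hx0 hx1 h3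
  have h6 : ∀ k : ℕ, ‖((B p)⁻¹ ^ (k + 1)).trace‖ ^ 2 * (((p : ℕ) : ℝ) ^ (-σ)) ^ (k + 1) /
      ((k : ℝ) + 1) = TT good B (p, k) * pk σ (p, k) := by
    intro k
    rw [LBad_pk, TT, if_pos hp]
    ring
  simp only [h6] at h4 h5
  refine ⟨h4, ?_⟩
  rw [h5, ENNReal.ofReal_mul (by
    have h7 : (((p : ℕ) : ℝ) ^ (-σ)) ^ (r + 1) < 1 := pow_lt_one₀ hx0.le hx1 (Nat.succ_ne_zero r)
    linarith)]
  congr 3
  rw [← Real.rpow_natCast, ← Real.rpow_mul (by positivity)]
  congr 1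
  push_cast
  ring

theorem euler_bad {r : ℕ} {φ : X (r + 1) → ℂ} {good : ℕ → Prop} {ξ : ℕ → ℂ}
    {B : ℕ → Matrix (Fin (r + 1)) (Fin (r + 1)) ℂ} (h : IsHeckeForm φ good ξ B)
    (hne : ∃ g, φ g ≠ 0) {σ : ℝ} (hσ : 1 < σ) (h0 : ∑' m : Fin r → ℤ, JJ φ σ m ≠ 0)
    (hfin : ∑' m : Fin r → ℤ, JJ φ σ m ≠ ∞) :
    (Summable fun x => TT good B x * pk σ x) ∧
      Zgood good ((r + 1 : ℕ) * σ) * ∑' m : Fin r → ℤ, JJ φ σ m =
        ENNReal.ofReal (Real.exp (∑' x, TT good B x * pk σ x)) * Ibad φ good σ := by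
  classical
  set I := ∑' m : Fin r → ℤ, JJ φ σ m with hI
  have hx : (1 : ℝ) < (r + 1 : ℕ) * σ := by
    have : (1 : ℝ) ≤ ((r + 1 : ℕ) : ℝ) := by exact_mod_cast Nat.succ_le_succ (Nat.zero_le r)
    nlinarith
  set x : ℝ := (r + 1 : ℕ) * σ with hxd
  set S : Finset Nat.Primes → ℝ≥0∞ := fun s =>
    ∑' m : MZ r (LBad_Q good s : Set ℕ), JJ φ σ m.1 with hS
  set Z : Finset Nat.Primes → ℝ≥0∞ := fun s =>
    ∏ p ∈ LBad_Q good s, ENNReal.ofReal ((1 - (p : ℝ) ^ (-x))⁻¹) with hZ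
  have hQg : ∀ s, ∀ q ∈ LBad_Q good s, good q := fun s q hq => (LBad_mem.1 hq).1
  have hQp : ∀ s, ∀ q ∈ LBad_Q good s, q.Prime := fun s q hq => (LBad_mem.1 hq).2.1
  have hE0 : ∀ p, 0 ≤ LBad_E good B σ p := fun p =>
    tsum_nonneg fun k => mul_nonneg (TT_nonneg _ _ _) (Pool.Agent.H74E.pk_nonneg _ _)
  -- the relation for finite sets
  have hrel : ∀ s, Z s * I = ENNReal.ofReal (Real.exp (∑ p ∈ s, LBad_E good B σ p)) * S s := by
    intro s
    rw [hI, sum_prod h σ (LBad_Q good s) (hQg s), ← mul_assoc, hZ]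
    simp only
    rw [← Finset.prod_mul_distrib]
    congr 1
    unfold LBad_Q
    rw [Finset.prod_map]
    simp only [Function.Embedding.coeFn_mk]
    rw [Real.exp_sum, ENNReal.ofReal_prod_of_nonneg fun p _ => (Real.exp_pos _).le,
      ← Finset.prod_filter_mul_prod_filter_not s (fun p : Nat.Primes => good p) (fun p =>
        ENNReal.ofReal (Real.exp (LBad_E good B σ p)))]
    have h1 : ∏ p ∈ s.filter (fun p : Nat.Primes => ¬ good p),
        ENNReal.ofReal (Real.exp (LBad_E good B σ p)) = 1 := by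
      refine Finset.prod_eq_one fun p hp => ?_
      have h2 := (Finset.mem_filter.1 hp).2
      have h3 : LBad_E good B σ p = 0 := by
        unfold LBad_E
        have h4 : ∀ k : ℕ, TT good B (p, k) * pk σ (p, k) = 0 := by
          intro k
          rw [TT, if_neg h2, zero_mul]
        simp only [h4, tsum_zero]
      rw [h3, Real.exp_zero, ENNReal.ofReal_one]
    rw [h1, mul_one]
    refine Finset.prod_congr rfl fun p hp => ?_
    have h2 := (Finset.mem_filter.1 hp).2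
    rw [(LBad_loc h hne hσ h0 hfin h2).2, ← mul_assoc]
    have hp1 : (1 : ℝ) < (p : ℕ) := by exact_mod_cast p.2.one_lt
    have h3 : ((p : ℕ) : ℝ) ^ (-x) < 1 :=
      Real.rpow_lt_one_of_one_lt_of_neg hp1 (by linarith)
    rw [← ENNReal.ofReal_mul (inv_nonneg.2 (by linarith)), inv_mul_cancel₀ (by linarith),
      ENNReal.ofReal_one, one_mul]
  -- convergence of `Z`
  have hZs : ∀ s, Z s = ∑' t : {t : ℕ | t ≠ 0 ∧ ∀ p : ℕ, p.Prime → p ∣ t → p ∈ LBad_Q good s},
      ENNReal.ofReal ((t.1 : ℝ) ^ (-x)) := fun s => (LBad_euler hx _ (hQp s)).symm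
  have hZfin : ∑' t : ℕ, ENNReal.ofReal ((t : ℝ) ^ (-x)) ≠ ∞ := by
    rw [← ENNReal.ofReal_tsum_of_nonneg (fun t => by positivity)
      (Real.summable_nat_rpow.2 (by linarith))]
    exact ENNReal.ofReal_ne_top
  have hZlim : Filter.Tendsto Z Filter.atTop (nhds (Zgood good x)) := by
    have h1 := LBad_lim (f := fun t : ℕ => ENNReal.ofReal ((t : ℝ) ^ (-x))) hZfin
      (A := fun s => {t : ℕ | t ≠ 0 ∧ ∀ p : ℕ, p.Prime → p ∣ t → p ∈ LBad_Q good s})
      (A₀ := {t : ℕ | t ≠ 0 ∧ ∀ p : ℕ, p.Prime → p ∣ t → good p}) (fun t => by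
        by_cases ht : t = 0
        · refine Filter.Eventually.of_forall fun s => ?_
          simp [ht]
        · filter_upwards [Filter.eventually_ge_atTop
            ((t.primeFactors.attach.image fun q : t.primeFactors =>
              (⟨q.1, Nat.prime_of_mem_primeFactors q.2⟩ : Nat.Primes)))] with s hs
          refine and_congr_right fun _ => forall_congr' fun p => forall_congr' fun hp =>
            forall_congr' fun hpt => ?_
          rw [LBad_mem]
          refine ⟨fun h' => h'.1, fun h' => ⟨h', hp, hs ?_⟩⟩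
          rw [Finset.mem_image]
          exact ⟨⟨p, Nat.mem_primeFactors.2 ⟨hp, hpt, ht⟩⟩, Finset.mem_attach _ _, rfl⟩)
    refine h1.congr fun s => ?_
    exact (hZs s).symm
  have hSlim : Filter.Tendsto S Filter.atTop (nhds (Ibad φ good σ)) := by
    refine LBad_lim (f := fun m : Fin r → ℤ => JJ φ σ m) hfin
      (A := fun s => {m : Fin r → ℤ | ∀ i, m i ≠ 0 ∧ ∀ p ∈ (LBad_Q good s : Set ℕ),
        ¬ (p : ℤ) ∣ m i})
      (A₀ := {m : Fin r → ℤ | ∀ i, m i ≠ 0 ∧ ∀ p ∈ {p | good p}, ¬ (p : ℤ) ∣ m i}) (fun m => ?_)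
    by_cases hm : ∀ i, m i ≠ 0 ∧ ∀ p ∈ {p | good p}, ¬ (p : ℤ) ∣ m i
    · refine Filter.Eventually.of_forall fun s => ?_
      refine ⟨fun _ => hm, fun _ i => ⟨(hm i).1, fun p hp => (hm i).2 p ?_⟩⟩
      exact hQg s p (by exact_mod_cast hp)
    · by_cases hm0 : ∀ i, m i ≠ 0
      · obtain ⟨i, p, hp, hd⟩ : ∃ i, ∃ p, good p ∧ (p : ℤ) ∣ m i := by
          by_contra hcon
          push Not at hcon
          exact hm fun i => ⟨hm0 i, fun p hp => hcon i p hp⟩
        filter_upwards [Filter.eventually_ge_atTop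
          ({(⟨p, h.prime p hp⟩ : Nat.Primes)} : Finset Nat.Primes)] with s hs
        refine ⟨fun h' => absurd hd ((h' i).2 p ?_), fun h' => absurd h' hm⟩
        have : p ∈ LBad_Q good s := LBad_mem.2 ⟨hp, h.prime p hp, hs (Finset.mem_singleton_self _)⟩
        exact_mod_cast this
      · push Not at hm0
        obtain ⟨i, hi⟩ := hm0
        refine Filter.Eventually.of_forall fun s => ?_
        exact ⟨fun h' => absurd hi (h' i).1, fun h' => absurd h' hm⟩
  -- the sum over the primes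
  have hIb := ibad_ne_zero h h0
  have hIbS : ∀ s, Ibad φ good σ ≤ S s := by
    intro s
    have h1 : ∀ m : MZ r {p | good p}, ∀ i, m.1 i ≠ 0 ∧ ∀ p ∈ (LBad_Q good s : Set ℕ),
        ¬ (p : ℤ) ∣ m.1 i := fun m i => ⟨(m.2 i).1, fun p hp => (m.2 i).2 p
          (hQg s p (by exact_mod_cast hp))⟩
    exact ENNReal.tsum_comp_le_tsum_of_injective
      (f := fun m : MZ r {p | good p} => (⟨m.1, h1 m⟩ : MZ r (LBad_Q good s : Set ℕ)))
      (fun a b hab => by
        have h2 := congrArg Subtype.val hab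
        exact Subtype.ext h2)
      (fun m : MZ r (LBad_Q good s : Set ℕ) => JJ φ σ m.1)
  have hZle : ∀ s, Z s ≤ Zgood good x := by
    intro s
    rw [hZs]
    have h1 : ∀ t : {t : ℕ | t ≠ 0 ∧ ∀ p : ℕ, p.Prime → p ∣ t → p ∈ LBad_Q good s},
        t.1 ≠ 0 ∧ ∀ p : ℕ, p.Prime → p ∣ t.1 → good p := fun t =>
      ⟨t.2.1, fun p hp hpt => hQg s p (t.2.2 p hp hpt)⟩
    exact ENNReal.tsum_comp_le_tsum_of_injective
      (f := fun t : {t : ℕ | t ≠ 0 ∧ ∀ p : ℕ, p.Prime → p ∣ t → p ∈ LBad_Q good s} =>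
        (⟨t.1, h1 t⟩ : {t : ℕ // t ≠ 0 ∧ ∀ p : ℕ, p.Prime → p ∣ t → good p}))
      (fun a b hab => by
        have h2 := congrArg Subtype.val hab
        exact Subtype.ext h2)
      (fun t => ENNReal.ofReal ((t.1 : ℝ) ^ (-x)))
  have hZgfin : Zgood good x ≠ ∞ := ne_top_of_le_ne_top hZfin
    (ENNReal.tsum_comp_le_tsum_of_injective Subtype.val_injective
      (fun t : ℕ => ENNReal.ofReal ((t : ℝ) ^ (-x))))
  have hIbfin : Ibad φ good σ ≠ ∞ := ne_top_of_le_ne_top hfin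
    (ENNReal.tsum_comp_le_tsum_of_injective Subtype.val_injective
      (fun m : Fin r → ℤ => JJ φ σ m))
  have hsumE : Summable (LBad_E good B σ) := by
    refine summable_of_sum_le (c := (Zgood good x * I / Ibad φ good σ).toReal) hE0 fun s => ?_
    have h1 : ENNReal.ofReal (Real.exp (∑ p ∈ s, LBad_E good B σ p)) ≤
        Zgood good x * I / Ibad φ good σ := by
      rw [ENNReal.le_div_iff_mul_le (Or.inl hIb) (Or.inl hIbfin)]
      calc _ ≤ ENNReal.ofReal (Real.exp (∑ p ∈ s, LBad_E good B σ p)) * S s := by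
            gcongr
            exact hIbS s
        _ = Z s * I := (hrel s).symm
        _ ≤ _ := by
            gcongr
            exact hZle s
    have h2 : Zgood good x * I / Ibad φ good σ ≠ ∞ :=
      ENNReal.div_ne_top (ENNReal.mul_ne_top hZgfin hfin) hIb
    have h3 := (ENNReal.ofReal_le_iff_le_toReal h2).1 h1
    have h4 := Real.add_one_le_exp (∑ p ∈ s, LBad_E good B σ p)
    linarith
  have hsum : Summable fun x => TT good B x * pk σ x := by
    rw [summable_prod_of_nonneg (fun y => mul_nonneg (TT_nonneg _ _ _)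
      (Pool.Agent.H74E.pk_nonneg _ _))]
    refine ⟨fun p => ?_, hsumE⟩
    by_cases hp : good p
    · exact (LBad_loc h hne hσ h0 hfin hp).1
    · have h1 : ∀ k : ℕ, TT good B (p, k) * pk σ (p, k) = 0 := by
        intro k
        rw [TT, if_neg hp, zero_mul]
      simp only [h1]
      exact summable_zero
  refine ⟨hsum, ?_⟩
  have hexp : Filter.Tendsto (fun s : Finset Nat.Primes =>
      ENNReal.ofReal (Real.exp (∑ p ∈ s, LBad_E good B σ p))) Filter.atTop
      (nhds (ENNReal.ofReal (Real.exp (∑' x, TT good B x * pk σ x)))) := by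
    rw [hsum.tsum_prod]
    exact (ENNReal.continuous_ofReal.tendsto _).comp
      ((Real.continuous_exp.tendsto _).comp hsumE.hasSum)
  have hL : Filter.Tendsto (fun s => Z s * I) Filter.atTop (nhds (Zgood good x * I)) :=
    ENNReal.Tendsto.mul_const hZlim (Or.inr hfin)
  have hR : Filter.Tendsto (fun s => Z s * I) Filter.atTop
      (nhds (ENNReal.ofReal (Real.exp (∑' x, TT good B x * pk σ x)) * Ibad φ good σ)) := by
    simp only [hrel]
    exact ENNReal.Tendsto.mul hexp (Or.inr hIbfin) hSlim (Or.inr ENNReal.ofReal_ne_top)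
  exact tendsto_nhds_unique hL hR

theorem LBad_dt (n : ℕ) : ∀ᵐ t ∂(fl n), dt t ≠ 0 := by
  filter_upwards [ae_diag n, ae_upper n] with t h1 h2
  have h3 : (Matrix.of t).BlockTriangular id := fun i j hij => h2 i j hij
  have h4 : dt t = ∏ i, t i i := Matrix.det_of_isUpperTriangular h3
  rw [h4]
  exact Finset.prod_ne_zero_iff.2 fun i _ => h1 i

/-- The contribution of the bad primes is a Laplace transform. -/
theorem exists_measure_bad {r : ℕ} {φ : X (r + 1) → ℂ} (hφ : IsP φ) (good : ℕ → Prop) :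
    ∃ μ : Measure ℝ, SFinite μ ∧
      ∀ σ : ℝ, ∫⁻ x, ENNReal.ofReal (Real.exp (σ * x)) ∂μ = Ibad φ good σ := by
  have hW : ∀ m : ℕ → ℤ, Measurable fun t : X (r + 1) => Wh (r + 1) φ m t := by
    intro m
    have h2 := measurable_Wh (s := r + 1) (A := Unit) (φ := fun _ => φ)
      (hφ.meas.comp measurable_snd) m
    exact h2.comp (f := fun t : X (r + 1) => ((), t)) (measurable_const.prodMk measurable_id)
  have hg : Measurable fun t : X (r + 1) => gs (t 0) := by
    unfold gs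
    fun_prop
  have hl : Measurable fun t : X (r + 1) => Real.log |dt t| := measurable_dt.abs.log
  set w : MZ r {p | good p} → X (r + 1) → ℝ≥0∞ := fun m t =>
    ‖Wh (r + 1) φ (ext m.1) t‖ₑ ^ 2 * (ENNReal.ofReal (gs (t 0)) *
      ENNReal.ofReal (Real.exp (-(r + 1) * Real.log |dt t|))) with hw
  have hwm : ∀ m, Measurable (w m) := fun m =>
    ((hW _).enorm.pow_const 2).mul (hg.ennreal_ofReal.mul
      (Real.measurable_exp.comp (hl.const_mul _)).ennreal_ofReal)
  refine ⟨Measure.sum fun m : MZ r {p | good p} =>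
    ((fl (r + 1)).withDensity (w m)).map fun t => Real.log |dt t|, inferInstance, fun σ => ?_⟩
  have he : Measurable fun x : ℝ => ENNReal.ofReal (Real.exp (σ * x)) := by fun_prop
  rw [lintegral_sum_measure, Ibad]
  refine tsum_congr fun m => ?_
  have hel : Measurable fun t : X (r + 1) => ENNReal.ofReal (Real.exp (σ * Real.log |dt t|)) :=
    he.comp hl
  rw [lintegral_map he hl, lintegral_withDensity_eq_lintegral_mul _ (hwm m) hel, JJ]
  refine lintegral_congr_ae ?_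
  filter_upwards [LBad_dt (r + 1)] with t ht
  have hpos : 0 < |dt t| := abs_pos.2 ht
  show w m t * ENNReal.ofReal (Real.exp (σ * Real.log |dt t|)) = _
  rw [hw]
  simp only
  rw [mul_assoc, mul_assoc, ← ENNReal.ofReal_mul (Real.exp_pos _).le, ← Real.exp_add,
    Real.rpow_def_of_pos hpos]
  congr 4
  ring

end Pool.Agent.GL74
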