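import Pool.Agent.W_7742x_h74.PLrg
import Pool.Agent.W_7742x_h74.LBad

/-! # The integral of a cusp form against a theta series in terms of its Whittaker functions -/

set_option autoImplicit false

noncomputable section

namespace Pool.Agent.GL74

open MeasureTheory Set
open scoped ENNReal MatrixGroups

theorem PLrg_cop {N t : ℕ} : (0 < t ∧ t.Coprime N) ↔
    (t ≠ 0 ∧ ∀ p : ℕ, p.Prime → p ∣ t → (p.Prime ∧ ¬ p ∣ N)) := by
  constructor
  · rintro ⟨h1, h2⟩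
    refine ⟨h1.ne', fun p hp hpt => ⟨hp, fun hpN => ?_⟩⟩
    have h3 : p ∣ Nat.gcd t N := Nat.dvd_gcd hpt hpN
    rw [h2] at h3
    exact hp.one_lt.ne' (Nat.dvd_one.1 h3)
  · rintro ⟨h1, h2⟩
    exact ⟨Nat.pos_of_ne_zero h1, Nat.coprime_of_dvd fun p hp hpt hpN => (h2 p hp hpt).2 hpN⟩

theorem integral_eq {s N : ℕ} {T : Finset SL(s + 2, ℤ)} {φ : X (s + 2) → ℂ}
    (h : IsLvl N T φ) (σ : ℝ) :
    IA N T φ σ = Zgood (fun p => p.Prime ∧ ¬ p ∣ N) ((s + 2 : ℕ) * σ) *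
      (kap (s + 1) * ∑' m : Fin (s + 1) → ℤ, JJ φ σ m) := by
  have hK : Measurable fun x : ℝ => ENNReal.ofReal (x ^ (σ - ((s : ℝ) + 2))) :=
    ENNReal.measurable_ofReal.comp (measurable_id.pow_const _)
  unfold IA
  rw [unfold_theta h hK]
  have e1 : ∀ t : {t : ℕ // 0 < t ∧ t.Coprime N}, ∫⁻ g, wP (wt (s + 1)) g * (‖φ g‖ₑ ^ 2 *
        (ENNReal.ofReal (|dt g| ^ (σ - ((s : ℝ) + 2))) *
          ENNReal.ofReal (gs ((t.1 : ℝ) • g 0)))) =
      ENNReal.ofReal ((t.1 : ℝ) ^ (-(((s + 2 : ℕ) : ℝ) * σ))) *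
        ∫⁻ g, wP (wt (s + 1)) g * (‖φ g‖ₑ ^ 2 *
          (ENNReal.ofReal (gs (g 0)) * ENNReal.ofReal (|dt g| ^ (σ - (s + 2))))) :=
    fun t => PLrg_scale h σ (by exact_mod_cast t.2.1)
  rw [tsum_congr e1, ENNReal.tsum_mul_right]
  congr 1
  · unfold Zgood
    exact (Equiv.subtypeEquivRight fun t => PLrg_cop (N := N) (t := t)).tsum_eq
      (fun t : {t : ℕ // t ≠ 0 ∧ ∀ p : ℕ, p.Prime → p ∣ t → (p.Prime ∧ ¬ p ∣ N)} =>
        ENNReal.ofReal ((t.1 : ℝ) ^ (-(((s + 2 : ℕ) : ℝ) * σ))))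
  · have h1 := unfold (s + 1) φ h.isP h.cusp
      (fun v d => ENNReal.ofReal (gs v) * ENNReal.ofReal (|d| ^ (σ - (s + 2)))) (by
        refine (ENNReal.measurable_ofReal.comp (PLrg_gs.comp measurable_fst)).mul ?_
        exact ENNReal.measurable_ofReal.comp (measurable_snd.abs.pow_const _))
    rw [h1]
    congr 1
    refine tsum_congr fun m => ?_
    unfold JJ
    have h2 : (((s + 1 : ℕ) : ℝ) + 1) = (s : ℝ) + 2 := by
      push_cast
      ring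
    rw [h2]

end Pool.Agent.GL74
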