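import Pool.Agent.W_7742c_h74.Pos

/-! # The Rankin-Selberg property for real variables, up to an unknown Laplace transform -/

set_option autoImplicit false

noncomputable section

namespace Pool.Agent.GL74

open MeasureTheory Set Filter
open scoped Topology
open Pool.Agent.H74E (pk pk_nonneg pk_anti continuous_pk)

/-- The series converges for `σ > 1`, and `(σ - 1) M(σ) L(σ)` extends to a real analytic function
on `(0, b)`, where `M` is the Laplace transform of a nonzero measure. -/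
def WeakRS (T : Nat.Primes × ℕ → ℝ) : Prop :=
  ∃ b : ℝ, 1 < b ∧ ∃ μ : Measure ℝ, SFinite μ ∧ μ ≠ 0 ∧ ∃ G : ℝ → ℝ,
    (∀ σ ∈ Ioo 0 b, AnalyticAt ℝ G σ) ∧ ∀ σ ∈ Ioo 1 b,
      (Summable fun x => T x * pk σ x) ∧ Integrable (fun x => Real.exp (σ * x)) μ ∧
      G σ = (σ - 1) * (∫ x, Real.exp (σ * x) ∂μ) * Real.exp (∑' x, T x * pk σ x)

variable {T : Nat.Primes × ℕ → ℝ}

theorem WeakRS.summable (hT : ∀ x, 0 ≤ T x) (h : WeakRS T) {s : ℝ} (hs : 1 < s) :
    Summable fun x => T x * pk s x := by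
  obtain ⟨b, hb, μ, -, -, G, -, h2⟩ := h
  obtain ⟨r, hr1, hr2⟩ := exists_between (lt_min hs hb)
  refine Summable.of_nonneg_of_le (fun x => mul_nonneg (hT x) (pk_nonneg s x)) (fun x =>
    mul_le_mul_of_nonneg_left (pk_anti (hr2.le.trans (min_le_left _ _)) x) (hT x))
    (h2 r ⟨hr1, hr2.trans_le (min_le_right _ _)⟩).1

/-- The bound `O (1 / (s - 1))`. -/
theorem WeakRS.bound (hT : ∀ x, 0 ≤ T x) (h : WeakRS T) : ∃ C : ℝ, ∀ s : ℝ, 1 < s → s ≤ 2 →
    (s - 1) * Real.exp (∑' x, T x * pk s x) ≤ C := by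
  have hsum := fun {s : ℝ} (hs : 1 < s) => h.summable hT hs
  obtain ⟨b, hb, μ, hμs, hμ, G, hG, h2⟩ := h
  obtain ⟨r, hr1, hr2⟩ := exists_between (lt_min hb one_lt_two)
  have hrb : r < b := hr2.trans_le (min_le_left _ _)
  have hr2' : r < 2 := hr2.trans_le (min_le_right _ _)
  -- `G` is bounded on `[1, r]`
  have hcont : ContinuousOn G (Icc 1 r) := fun s hs =>
    (hG s ⟨by linarith [hs.1], hs.2.trans_lt hrb⟩).continuousAt.continuousWithinAt
  obtain ⟨B, hB⟩ := isCompact_Icc.exists_bound_of_continuousOn hcont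
  -- a lower bound for the Laplace transform
  set φ : ℝ → ℝ := fun x => min (Real.exp (1 * x)) (Real.exp (r * x)) with hφ
  have hφpos : ∀ x, 0 < φ x := fun x => lt_min (Real.exp_pos _) (Real.exp_pos _)
  have hφle : ∀ s, 1 ≤ s → s ≤ r → ∀ x, φ x ≤ Real.exp (s * x) := by
    intro s hs hs' x
    rcases le_total 0 x with hx | hx
    · exact (min_le_left _ _).trans (Real.exp_le_exp.2 (mul_le_mul_of_nonneg_right hs hx))
    · exact (min_le_right _ _).trans (Real.exp_le_exp.2 (mul_le_mul_of_nonpos_right hs' hx))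
  have hφi : Integrable φ μ := by
    refine (h2 r ⟨hr1, hrb⟩).2.1.mono' ?_ (Eventually.of_forall fun x => ?_)
    · exact (by fun_prop : Measurable φ).aestronglyMeasurable
    · rw [Real.norm_of_nonneg (hφpos x).le]
      exact hφle r hr1.le le_rfl x
  have hδ : 0 < ∫ x, φ x ∂μ := by
    rw [integral_pos_iff_support_of_nonneg (fun x => (hφpos x).le) hφi]
    have : Function.support φ = univ := by
      ext x
      simp [(hφpos x).ne']
    rw [this]
    exact Measure.measure_univ_pos.2 hμ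
  set δ : ℝ := ∫ x, φ x ∂μ with hδe
  have hB0 : 0 ≤ B := (norm_nonneg _).trans (hB 1 ⟨le_rfl, hr1.le⟩)
  have key : ∀ s, 1 < s → s ≤ r → (s - 1) * Real.exp (∑' x, T x * pk s x) ≤ B / δ := by
    intro s hs hsr
    obtain ⟨-, hi, he⟩ := h2 s ⟨hs, hsr.trans_lt hrb⟩
    have h3 : δ ≤ ∫ x, Real.exp (s * x) ∂μ := integral_mono hφi hi (hφle s hs.le hsr)
    have h4 : G s ≤ B := (le_abs_self _).trans (hB s ⟨hs.le, hsr⟩)
    rw [le_div_iff₀ hδ]
    have h5 : 0 ≤ (s - 1) * Real.exp (∑' x, T x * pk s x) :=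
      mul_nonneg (by linarith) (Real.exp_pos _).le
    calc (s - 1) * Real.exp (∑' x, T x * pk s x) * δ
        ≤ (s - 1) * Real.exp (∑' x, T x * pk s x) * ∫ x, Real.exp (s * x) ∂μ :=
          mul_le_mul_of_nonneg_left h3 h5
      _ = G s := by rw [he]; ring
      _ ≤ B := h4
  refine ⟨max (B / δ) (Real.exp (∑' x, T x * pk r x)), fun s hs hs2 => ?_⟩
  rcases le_total s r with hsr | hsr
  · exact (key s hs hsr).trans (le_max_left _ _)
  · refine le_trans ?_ (le_max_right _ _)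
    have h3 : ∑' x, T x * pk s x ≤ ∑' x, T x * pk r x :=
      (hsum hs).tsum_le_tsum (fun x => mul_le_mul_of_nonneg_left (pk_anti hsr x) (hT x)) (hsum hr1)
    have h4 := Real.exp_le_exp.2 h3
    calc (s - 1) * Real.exp (∑' x, T x * pk s x) ≤ 1 * Real.exp (∑' x, T x * pk s x) :=
          mul_le_mul_of_nonneg_right (by linarith) (Real.exp_pos _).le
      _ ≤ _ := by rw [one_mul]; exact h4

/-- The bound for the logarithm. -/
theorem WeakRS.log_le (hT : ∀ x, 0 ≤ T x) (h : WeakRS T) : ∃ C : ℝ, ∀ s : ℝ, 1 < s → s ≤ 2 →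
    ∑' x, T x * pk s x ≤ Real.log (1 / (s - 1)) + C := by
  obtain ⟨C, hC⟩ := h.bound hT
  refine ⟨Real.log (max C 1), fun s hs hs2 => ?_⟩
  have h1 : 0 < s - 1 := by linarith
  have h2 : (s - 1) * Real.exp (∑' x, T x * pk s x) ≤ max C 1 := (hC s hs hs2).trans (le_max_left _ _)
  have h3 : 0 < max C 1 := lt_max_of_lt_right one_pos
  have h4 : Real.exp (∑' x, T x * pk s x) ≤ 1 / (s - 1) * max C 1 := by
    rw [one_div, inv_mul_eq_div, le_div_iff₀ h1, mul_comm]
    exact h2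
  have h5 := Real.log_le_log (Real.exp_pos _) h4
  rwa [Real.log_exp, Real.log_mul (by positivity) h3.ne'] at h5

theorem weakRS_of_analytic {g : ℝ → ℝ} (hg : ∀ s, 0 < s → AnalyticAt ℝ g s)
    (hs : ∀ s : ℝ, 1 < s → Summable fun x => T x * pk s x)
    (he : ∀ s : ℝ, 1 < s → g s = (s - 1) * Real.exp (∑' x, T x * pk s x)) : WeakRS T := by
  refine ⟨2, one_lt_two, Measure.dirac 0, inferInstance, ?_, g, fun s h => hg s h.1, fun s h =>
    ⟨hs s h.1, ?_, ?_⟩⟩
  · intro h0
    have := congrArg (fun μ : Measure ℝ => μ univ) h0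
    simp at this
  · exact integrable_dirac (by simp [enorm])
  · rw [he s h.1]
    simp

end Pool.Agent.GL74
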