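import Pool.Agent.W_7742x_h74.UAdj
import Pool.Agent.W_7742x_h74.PExt
import Pool.Agent.W_7742x_h74.PInt
import Pool.Agent.W_7742x_h74.ZDef
import Pool.Agent.W_7742v_h74.Stmt
/-! # Rankin-Selberg for cusp forms on `GL_n`: the result for real variables -/

set_option autoImplicit false

noncomputable section

namespace Pool.Agent.GL74

open MeasureTheory ComplexConjugate Set
open scoped ENNReal MatrixGroups
open Pool.Agent.GLForm74
open Pool.Agent.H74E (pk)

/-- The Hecke form of a cusp form. -/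
theorem isHeckeForm {s N : ℕ} (hN : 0 < N) {χ : DirichletCharacter ℂ N}
    {f : Matrix (Fin (s + 2)) (Fin (s + 2)) ℝ → ℂ} (hf : IsCuspForm N χ f)
    {B : ℕ → Matrix (Fin (s + 2)) (Fin (s + 2)) ℂ}
    (he : ∀ p : ℕ, p.Prime → ¬ p ∣ N → ∀ k : ℕ, 1 ≤ k → k ≤ s + 2 → ∀ g, 0 < g.det →
      hecke χ p k f g =
        (Real.sqrt p : ℂ) ^ (k * (s + 2 - k)) * ((-1) ^ k * (B p).charpoly.coeff (s + 2 - k)) * f g) :
    IsHeckeForm (tof f) (fun p => p.Prime ∧ ¬ p ∣ N) (fun p => conj (χ p)) B where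
  isP := isP_tof hf
  scale := fun t ht g => scale_tof hf ht g
  cusp := cusp_of_bl _ _ (isP_tof hf) (bl_tof hf)
  prime := fun p hp => hp.1
  norm_xi := fun p hp => by
    have hu : IsUnit ((p : ℕ) : ZMod N) := (ZMod.isUnit_iff_coprime p N).2
      ((Nat.Prime.coprime_iff_not_dvd hp.1).2 hp.2)
    obtain ⟨u, hu⟩ := hu
    rw [← hu, Complex.norm_conj]
    exact DirichletCharacter.unit_norm_eq_one χ u
  eig := fun p hp => eig_tof (fun k h1 h2 g hg => he p hp.1 hp.2 k h1 h2 g hg) hp.1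

/-- The level structure of a cusp form. -/
theorem exists_isLvl {s N : ℕ} (hN : 0 < N) {χ : DirichletCharacter ℂ N}
    {f : Matrix (Fin (s + 2)) (Fin (s + 2)) ℝ → ℂ} (hf : IsCuspForm N χ f) :
    ∃ T : Finset SL(s + 2, ℤ), IsLvl N T (tof f) := by
  obtain ⟨T, hT⟩ := exists_wtN (s := s + 1) hN (isWt_wt (s + 2))
  exact ⟨T, hN, isP_tof hf, fun t ht g => scale_tof hf ht g,
    cusp_of_bl _ _ (isP_tof hf) (bl_tof hf),
    fun γ hγ g => by rw [sl_tof hf hγ, norm_mul, norm_chi χ hγ, one_mul], lip_tof hf, hT⟩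

theorem weakRS {s N : ℕ} (hN : 0 < N) {χ : DirichletCharacter ℂ N}
    {f : Matrix (Fin (s + 2)) (Fin (s + 2)) ℝ → ℂ} (hf : IsCuspForm N χ f)
    (hne : ∃ g, 0 < g.det ∧ f g ≠ 0)
    {B : ℕ → Matrix (Fin (s + 2)) (Fin (s + 2)) ℂ}
    (he : ∀ p : ℕ, p.Prime → ¬ p ∣ N → ∀ k : ℕ, 1 ≤ k → k ≤ s + 2 → ∀ g, 0 < g.det →
      hecke χ p k f g =
        (Real.sqrt p : ℂ) ^ (k * (s + 2 - k)) * ((-1) ^ k * (B p).charpoly.coeff (s + 2 - k)) * f g) :
    WeakRS (TT (fun p => p.Prime ∧ ¬ p ∣ N) B) := by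
  classical
  set good : ℕ → Prop := fun p => p.Prime ∧ ¬ p ∣ N with hgood
  have hH := isHeckeForm hN hf he
  obtain ⟨T, hL⟩ := exists_isLvl hN hf
  have hv := volume_tof hf hne
  have hne' : ∃ g, tof f g ≠ 0 := by
    by_contra hcon
    push Not at hcon
    apply hv
    have : {g : X (s + 2) | tof f g ≠ 0} = ∅ := by
      ext g
      simp [hcon g]
    rw [this, measure_empty]
  obtain ⟨b, hb, G, hG1, hG2⟩ := iA_ext hL
  obtain ⟨μ, hμs, hμ⟩ := exists_measure_bad (isP_tof hf) good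
  have hkap := kap_ne_zero (s + 1)
  -- the sum of the Whittaker integrals
  have hI0 : ∀ σ : ℝ, ∑' m : Fin (s + 1) → ℤ, JJ (tof f) σ m ≠ 0 := by
    intro σ h0
    have h1 := iA_ne_zero hL hv σ
    rw [integral_eq hL σ, h0, mul_zero, mul_zero] at h1
    exact h1 rfl
  have hZ0 : ∀ x : ℝ, Zgood good x ≠ 0 := by
    intro x h0
    unfold Zgood at h0
    rw [ENNReal.tsum_eq_zero] at h0
    have h1 := h0 ⟨1, one_ne_zero, fun p hp h => absurd (Nat.dvd_one.1 h) hp.one_lt.ne'⟩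
    simp at h1
  have hIfin : ∀ σ ∈ Ioo 1 b, ∑' m : Fin (s + 1) → ℤ, JJ (tof f) σ m ≠ ∞ := by
    intro σ hσ h0
    have h1 := (hG2 σ hσ).1
    rw [integral_eq hL σ, h0, ENNReal.mul_top hkap.1, ENNReal.mul_top (hZ0 _)] at h1
    exact h1 rfl
  have hbad0 : ∀ σ : ℝ, Ibad (tof f) good σ ≠ 0 := fun σ => ibad_ne_zero hH (hI0 σ)
  have hbadfin : ∀ σ ∈ Ioo 1 b, Ibad (tof f) good σ ≠ ∞ := by
    intro σ hσ
    refine ne_top_of_le_ne_top (hIfin σ hσ) ?_
    unfold Ibad
    exact ENNReal.tsum_comp_le_tsum_of_injective (f := fun m : MZ (s + 1) {p | good p} => m.1)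
      Subtype.val_injective (fun m => JJ (tof f) σ m)
  have hμint : ∀ σ ∈ Ioo 1 b, Integrable (fun x => Real.exp (σ * x)) μ := by
    intro σ hσ
    refine ⟨by fun_prop, ?_⟩
    rw [hasFiniteIntegral_iff_ofReal (by filter_upwards with x using (Real.exp_pos _).le), hμ σ]
    exact lt_top_iff_ne_top.2 (hbadfin σ hσ)
  have hμval : ∀ σ ∈ Ioo 1 b, ∫ x, Real.exp (σ * x) ∂μ = (Ibad (tof f) good σ).toReal := by
    intro σ hσ
    rw [integral_eq_lintegral_of_nonneg_ae (by filter_upwards with x using (Real.exp_pos _).le)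
      (hμint σ hσ).1, hμ σ]
  -- rescale the measure by `kap`
  set c : ℝ≥0∞ := kap (s + 1) with hc
  refine ⟨b, hb, c • μ, inferInstance, ?_, G, hG1, ?_⟩
  · intro h0
    have h1 : μ = 0 := by
      ext A hA
      have := congrArg (fun ν : Measure ℝ => ν A) h0
      simp only [Measure.smul_apply, smul_eq_mul, Measure.coe_zero, Pi.zero_apply,
        mul_eq_zero] at this
      simpa using this.resolve_left hkap.1
    have h2 := hμ 2
    rw [h1, lintegral_zero_measure] at h2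
    exact hbad0 2 h2.symm
  · intro σ hσ
    obtain ⟨h1, h2⟩ := euler_bad hH hne' hσ.1 (hI0 σ) (hIfin σ hσ)
    refine ⟨h1, (hμint σ hσ).smul_measure hkap.2, ?_⟩
    rw [integral_smul_measure, hμval σ hσ, (hG2 σ hσ).2]
    have h3 : IA N T (tof f) σ = c * (ENNReal.ofReal (Real.exp (∑' x, TT good B x * pk σ x)) *
        Ibad (tof f) good σ) := by
      rw [integral_eq hL σ, ← h2]
      ring
    rw [h3, ENNReal.toReal_mul, ENNReal.toReal_mul, ENNReal.toReal_ofReal (Real.exp_pos _).le,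
      smul_eq_mul]
    ring

/-! ## Systems of Satake classes of cusp forms on `GL_n` -/

variable {K : Type} [Field K] [NumberField K] {n : ℕ}

omit [NumberField K] in
theorem map_inv_of_det {A : Matrix (Fin n) (Fin n) K} (hA : A.det ≠ 0) (σ : K →+* ℂ) :
    A⁻¹.map σ = (A.map σ)⁻¹ := by
  symm
  apply Matrix.inv_eq_left_inv
  rw [← Matrix.map_mul, Matrix.nonsing_inv_mul A (isUnit_iff_ne_zero.2 hA)]
  exact Matrix.map_one σ (map_zero σ) (map_one σ)

omit [NumberField K] in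
theorem map_trace_pow (A : Matrix (Fin n) (Fin n) K) (σ : K →+* ℂ) (k : ℕ) :
    σ (A ^ k).trace = ((A.map σ) ^ k).trace := by
  have h := map_pow (RingHom.mapMatrix (m := Fin n) σ) A k
  simp only [RingHom.mapMatrix_apply] at h
  rw [← h, Matrix.trace, Matrix.trace, map_sum]
  rfl

/-- The weak Rankin-Selberg property and unitarity for cusp forms. -/
theorem cuspidal_main (hn : 2 ≤ n) {π : H74V.SatakeSystem K n} {σ : K →+* ℂ}
    (h : π.IsCuspidal σ) : π.Unitary σ ∧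
      ∀ T : Nat.Primes × ℕ → ℝ, (∀ x : Nat.Primes × ℕ, π.Good x.1 →
        T x = ‖σ (π.A x.1 ^ (x.2 + 1)).trace‖ ^ 2) → (∀ x : Nat.Primes × ℕ, ¬ π.Good x.1 → T x = 0) →
        WeakRS T := by
  classical
  obtain ⟨s, rfl⟩ : ∃ s, n = s + 2 := ⟨n - 2, by omega⟩
  obtain ⟨χ, f, hf, hne, he⟩ := h
  set B : ℕ → Matrix (Fin (s + 2)) (Fin (s + 2)) ℂ := fun p => (π.A p).map σ with hB
  have hBp : ∀ p, (B p).charpoly = (π.A p).charpoly.map σ := fun p => Matrix.charpoly_map _ _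
  have hu : π.Unitary σ := by
    intro p hp k
    obtain ⟨h1, h2⟩ := adj_rel π.level_pos hf hne hp.1 hp.2
      (fun k => (-1) ^ k * ((π.A p).charpoly.map σ).coeff (s + 2 - k)) (he p hp.1 hp.2)
    have hξ : ‖conj (χ p)‖ = 1 := by
      have hu : IsUnit ((p : ℕ) : ZMod π.level) := (ZMod.isUnit_iff_coprime p _).2
        ((Nat.Prime.coprime_iff_not_dvd hp.1).2 hp.2)
      obtain ⟨u, hu⟩ := hu
      rw [← hu, Complex.norm_conj]
      exact DirichletCharacter.unit_norm_eq_one χ u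
    have h3 := unitary_trace (B := B p) hξ (by
      unfold emx
      rw [hBp, ← h1]
      simp) (fun i => by
      have h4 := h2 ((i : ℕ) + 1) (by omega) (by omega)
      unfold emx
      rw [hBp]
      have e1 : ((i.rev.castSucc : Fin (s + 2)) : ℕ) + 1 = s + 2 - ((i : ℕ) + 1) := by
        rw [Fin.val_castSucc, Fin.val_rev]
        omega
      rw [e1, Fin.val_castSucc]
      exact h4) k
    rw [map_trace_pow _ σ, map_trace_pow _ σ, map_inv_of_det (π.det_ne_zero p hp.1 hp.2) σ]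
    exact h3
  refine ⟨hu, fun T hT1 hT2 => ?_⟩
  have key := weakRS π.level_pos hf hne (B := B) (fun p hp hpN k hk1 hk2 g hg => by
    rw [hBp]
    exact he p hp hpN k hk1 hk2 g hg)
  have hTT : T = TT (fun p => p.Prime ∧ ¬ p ∣ π.level) B := by
    funext x
    unfold TT
    by_cases hx : π.Good x.1
    · rw [if_pos (show ((x.1 : ℕ).Prime ∧ ¬ (x.1 : ℕ) ∣ π.level) from hx), hT1 x hx,
        ← Complex.norm_conj (σ _), hu x.1 hx, map_trace_pow _ σ,
        map_inv_of_det (π.det_ne_zero x.1 hx.1 hx.2) σ]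
    · rw [if_neg (show ¬ ((x.1 : ℕ).Prime ∧ ¬ (x.1 : ℕ) ∣ π.level) from hx), hT2 x hx]
  rw [hTT]
  exact key

end Pool.Agent.GL74
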