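import Mathlib

/-! # Products of Laplace transforms

`exp (s (x + y)) = exp (s x) exp (s y)` and `Measure.conv` is the image of the product measure under
addition (`Integrable.mul_prod`, `integral_prod_mul`, `integral_map`; `lintegral_conv`).
* `conv_left`: if `∫⁻∫⁻ exp(sx) exp(sy) < ∞` and `∫⁻ exp(sx) dμ > 0` (because `μ ≠ 0`), then
  `∫⁻ exp(sy) dν < ∞`.
* `conv_ne_zero`: `(μ ∗ ν) univ = μ univ * ν univ`.
* `exists_prod`: induction on the finite set (`Measure.dirac 0` for the empty set). -/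

set_option autoImplicit false

noncomputable section

namespace Pool.Agent.GL74

open MeasureTheory Set
open scoped ENNReal

theorem NCon_exp (s x y : ℝ) : Real.exp (s * (x + y)) = Real.exp (s * x) * Real.exp (s * y) := by
  rw [mul_add, Real.exp_add]

theorem NCon_meas (s : ℝ) : Measurable (fun x : ℝ => Real.exp (s * x)) := by fun_prop

theorem NCon_iff {μ ν : Measure ℝ} [SFinite μ] [SFinite ν] {s : ℝ} :
    Integrable (fun x => Real.exp (s * x)) (μ ∗ ν) ↔
      Integrable (fun p : ℝ × ℝ => Real.exp (s * p.1) * Real.exp (s * p.2)) (μ.prod ν) := by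
  unfold Measure.conv
  rw [integrable_map_measure (NCon_meas s).aestronglyMeasurable (by fun_prop)]
  have : (fun x : ℝ => Real.exp (s * x)) ∘ (fun x : ℝ × ℝ => x.1 + x.2) =
      fun p : ℝ × ℝ => Real.exp (s * p.1) * Real.exp (s * p.2) := by
    funext p
    exact NCon_exp s p.1 p.2
  rw [this]

theorem integrable_conv {μ ν : Measure ℝ} [SFinite μ] [SFinite ν] {s : ℝ}
    (h1 : Integrable (fun x => Real.exp (s * x)) μ)
    (h2 : Integrable (fun x => Real.exp (s * x)) ν) :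
    Integrable (fun x => Real.exp (s * x)) (μ ∗ ν) ∧
      ∫ x, Real.exp (s * x) ∂(μ ∗ ν) =
        (∫ x, Real.exp (s * x) ∂μ) * ∫ x, Real.exp (s * x) ∂ν := by
  refine ⟨NCon_iff.2 (h1.mul_prod h2), ?_⟩
  unfold Measure.conv
  rw [integral_map (by fun_prop) (NCon_meas s).aestronglyMeasurable]
  rw [← integral_prod_mul]
  exact integral_congr_ae (Filter.Eventually.of_forall fun p => NCon_exp s p.1 p.2)

theorem conv_left {μ ν : Measure ℝ} [SFinite μ] [SFinite ν] (hμ : μ ≠ 0) {s : ℝ}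
    (h : Integrable (fun x => Real.exp (s * x)) (μ ∗ ν)) :
    Integrable (fun x => Real.exp (s * x)) ν := by
  have h1 := (NCon_iff.1 h).prod_right_ae
  haveI : (ae μ).NeBot := ae_neBot.2 hμ
  obtain ⟨x, hx⟩ := h1.exists
  have h2 := hx.const_mul (Real.exp (s * x))⁻¹
  refine h2.congr (Filter.Eventually.of_forall fun y => ?_)
  simp only
  rw [← mul_assoc, inv_mul_cancel₀ (Real.exp_pos _).ne', one_mul]

theorem NCon_ne {μ ν : Measure ℝ} [SFinite μ] [SFinite ν] (hμ : μ ≠ 0) (hν : ν ≠ 0) :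
    μ ∗ ν ≠ 0 := by
  intro h
  have h1 : (μ ∗ ν) univ = μ univ * ν univ := by
    unfold Measure.conv
    rw [Measure.map_apply (by fun_prop) MeasurableSet.univ, preimage_univ, ← univ_prod_univ,
      Measure.prod_prod]
  rw [h, Measure.coe_zero, Pi.zero_apply, eq_comm, mul_eq_zero, Measure.measure_univ_eq_zero,
    Measure.measure_univ_eq_zero] at h1
  exact h1.elim hμ hν

theorem exists_prod {ι : Type} [Fintype ι] (μ : ι → Measure ℝ) (hf : ∀ i, SFinite (μ i))
    (h0 : ∀ i, μ i ≠ 0) : ∃ ρ : Measure ℝ, SFinite ρ ∧ ρ ≠ 0 ∧ ∀ s : ℝ,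
      (∀ i, Integrable (fun x => Real.exp (s * x)) (μ i)) →
      Integrable (fun x => Real.exp (s * x)) ρ ∧
        ∫ x, Real.exp (s * x) ∂ρ = ∏ i, ∫ x, Real.exp (s * x) ∂(μ i) := by
  classical
  suffices H : ∀ t : Finset ι, ∃ ρ : Measure ℝ, SFinite ρ ∧ ρ ≠ 0 ∧ ∀ s : ℝ,
      (∀ i, Integrable (fun x => Real.exp (s * x)) (μ i)) →
      Integrable (fun x => Real.exp (s * x)) ρ ∧
        ∫ x, Real.exp (s * x) ∂ρ = ∏ i ∈ t, ∫ x, Real.exp (s * x) ∂(μ i) from H Finset.univ
  intro t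
  induction t using Finset.induction_on with
  | empty =>
    refine ⟨Measure.dirac 0, inferInstance, ?_, fun s _ => ⟨?_, ?_⟩⟩
    · exact NeZero.ne _
    · exact integrable_dirac (by simp)
    · simp
  | insert a t ha ih =>
    obtain ⟨ρ, h1, h2, h3⟩ := ih
    haveI := h1
    haveI := hf a
    refine ⟨μ a ∗ ρ, inferInstance, NCon_ne (h0 a) h2, fun s hs => ?_⟩
    obtain ⟨h4, h5⟩ := h3 s hs
    obtain ⟨h6, h7⟩ := integrable_conv (hs a) h4
    exact ⟨h6, by rw [h7, h5, Finset.prod_insert ha]⟩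

end Pool.Agent.GL74
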