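import Mathlib

/-! # The exponential of a general Dirichlet series is a Laplace transform

For `w j ≥ 0` (`j` in a countable type) let `ν` be the sum over the lists `L` of elements of `J` of
the point masses at `∑_{j ∈ L} l j` with weights `∏_{j ∈ L} w j / (length L)!`
(`Measure.sum`, or the image of a weighted counting measure on `List J`, a countable type).  Then
in `[0, ∞]`, `∫⁻ exp (s x) dν = ∑_L ∏ (w j exp (s l j)) / (length L)! =
∑_k (1/k!) (∑_j w j exp (s l j))^k` (the lists of length `k` are the functions `Fin k → J`, and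
`∑_{f : Fin k → J} ∏ u (f i) = (∑ u)^k`: induction on `k`), which is finite if and only if
`D = ∑_j w j exp (s l j)` is (look at the term `k = 1`), and then it is `exp D`. -/

set_option autoImplicit false

noncomputable section

namespace Pool.Agent.GL74

open MeasureTheory Set
open scoped ENNReal

/-- `∑_{f : Fin k → J} ∏ u (f i) = (∑ u)^k` -/
theorem NExp_tsum_pow {J : Type} (u : J → ℝ≥0∞) (k : ℕ) :
    ∑' f : Fin k → J, ∏ m, u (f m) = (∑' j, u j) ^ k := by
  induction k with
  | zero =>
    rw [pow_zero, tsum_eq_single (fun i : Fin 0 => i.elim0)]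
    · simp
    · intro f hf
      exact absurd (Subsingleton.elim _ _) hf
  | succ k ih =>
    rw [← (Fin.consEquiv (fun _ : Fin (k + 1) => J)).tsum_eq]
    have h1 : ∀ q : J × (Fin k → J), ∏ m, u ((Fin.consEquiv (fun _ : Fin (k + 1) => J)) q m)
        = u q.1 * ∏ m, u (q.2 m) := by
      intro q
      rw [Fin.prod_univ_succ]
      simp [Fin.consEquiv]
    rw [tsum_congr h1, ENNReal.tsum_prod']
    simp only [ENNReal.tsum_mul_left]
    rw [ih, ENNReal.tsum_mul_right, pow_succ, mul_comm]

/-- the measure -/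
def NExp_nu {J : Type} (w l : J → ℝ) : Measure ℝ :=
  Measure.sum (fun q : (Σ k : ℕ, (Fin k → J)) =>
    (ENNReal.ofReal ((∏ m, w (q.2 m)) / (q.1.factorial : ℝ))) •
      Measure.dirac (∑ m, l (q.2 m)))

instance {J : Type} [Countable J] (w l : J → ℝ) : SFinite (NExp_nu w l) := by
  unfold NExp_nu
  have h : ∀ q : (Σ k : ℕ, (Fin k → J)), IsFiniteMeasure
      ((ENNReal.ofReal ((∏ m, w (q.2 m)) / (q.1.factorial : ℝ))) •
      Measure.dirac (∑ m, l (q.2 m))) := fun q =>
    Measure.smul_finite _ ENNReal.ofReal_ne_top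
  infer_instance

theorem NExp_lintegral {J : Type} [Countable J] (w : J → ℝ) (hw : ∀ j, 0 ≤ w j) (l : J → ℝ)
    (s : ℝ) :
    ∫⁻ x, ENNReal.ofReal (Real.exp (s * x)) ∂(NExp_nu w l) =
      ∑' k : ℕ, ENNReal.ofReal ((k.factorial : ℝ)⁻¹) *
        (∑' j, ENNReal.ofReal (w j * Real.exp (s * l j))) ^ k := by
  unfold NExp_nu
  rw [lintegral_sum_measure]
  have h1 : ∀ q : (Σ k : ℕ, (Fin k → J)),
      ∫⁻ x, ENNReal.ofReal (Real.exp (s * x)) ∂((ENNReal.ofReal ((∏ m, w (q.2 m)) /
        (q.1.factorial : ℝ))) • Measure.dirac (∑ m, l (q.2 m))) =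
      ENNReal.ofReal ((q.1.factorial : ℝ)⁻¹) *
        ∏ m, ENNReal.ofReal (w (q.2 m) * Real.exp (s * l (q.2 m))) := by
    intro q
    rw [lintegral_smul_measure, lintegral_dirac, smul_eq_mul,
      ← ENNReal.ofReal_mul (div_nonneg (Finset.prod_nonneg fun m _ => hw _) (by positivity)),
      ← ENNReal.ofReal_prod_of_nonneg (fun m _ => mul_nonneg (hw _) (Real.exp_pos _).le),
      ← ENNReal.ofReal_mul (by positivity), Finset.prod_mul_distrib, Finset.mul_sum,
      Real.exp_sum]
    congr 1
    ring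
  rw [tsum_congr h1, ENNReal.tsum_sigma']
  refine tsum_congr fun k => ?_
  change (∑' b : Fin k → J, ENNReal.ofReal ((k.factorial : ℝ)⁻¹) *
    ∏ m, ENNReal.ofReal (w (b m) * Real.exp (s * l (b m)))) = _
  rw [ENNReal.tsum_mul_left]
  exact congrArg _ (NExp_tsum_pow (fun j => ENNReal.ofReal (w j * Real.exp (s * l j))) k)

theorem exists_exp_measure {J : Type} [Countable J] (w : J → ℝ) (hw : ∀ j, 0 ≤ w j) (l : J → ℝ) :
    ∃ ν : Measure ℝ, SFinite ν ∧ ∀ s : ℝ,
      ((Summable fun j => w j * Real.exp (s * l j)) ↔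
        Integrable (fun x => Real.exp (s * x)) ν) ∧
      ((Summable fun j => w j * Real.exp (s * l j)) →
        ∫ x, Real.exp (s * x) ∂ν = Real.exp (∑' j, w j * Real.exp (s * l j))) := by
  refine ⟨NExp_nu w l, inferInstance, fun s => ?_⟩
  have hL := NExp_lintegral w hw l s
  have hnn : ∀ j, 0 ≤ w j * Real.exp (s * l j) := fun j => mul_nonneg (hw j) (Real.exp_pos _).le
  have hmeas : AEStronglyMeasurable (fun x => Real.exp (s * x)) (NExp_nu w l) :=
    (by fun_prop : Measurable fun x => Real.exp (s * x)).aestronglyMeasurable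
  have hfin : (Summable fun j => w j * Real.exp (s * l j)) →
      ∫⁻ x, ENNReal.ofReal (Real.exp (s * x)) ∂(NExp_nu w l) =
        ENNReal.ofReal (Real.exp (∑' j, w j * Real.exp (s * l j))) := by
    intro hs
    rw [hL, ← ENNReal.ofReal_tsum_of_nonneg hnn hs]
    have hD : 0 ≤ ∑' j, w j * Real.exp (s * l j) := tsum_nonneg hnn
    have h2 : Real.exp (∑' j, w j * Real.exp (s * l j)) =
        ∑' k : ℕ, (k.factorial : ℝ)⁻¹ * (∑' j, w j * Real.exp (s * l j)) ^ k := by
      rw [Real.exp_eq_exp_ℝ, NormedSpace.exp_eq_tsum (𝕂 := ℝ)]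
      simp only [smul_eq_mul]
    have h3 : Summable fun k : ℕ => (k.factorial : ℝ)⁻¹ * (∑' j, w j * Real.exp (s * l j)) ^ k := by
      have := NormedSpace.expSeries_summable' (𝕂 := ℝ) (∑' j, w j * Real.exp (s * l j))
      simpa only [smul_eq_mul] using this
    rw [h2, ENNReal.ofReal_tsum_of_nonneg (fun k => by positivity) h3]
    refine tsum_congr fun k => ?_
    rw [ENNReal.ofReal_mul (by positivity), ENNReal.ofReal_pow hD]
  constructor
  · constructor
    · intro hs
      refine ⟨hmeas, ?_⟩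
      rw [hasFiniteIntegral_iff_ofReal (Filter.Eventually.of_forall fun x => (Real.exp_pos _).le),
        hfin hs]
      exact ENNReal.ofReal_lt_top
    · intro hi
      have h1 := (hasFiniteIntegral_iff_ofReal
        (Filter.Eventually.of_forall fun x => (Real.exp_pos _).le)).1 hi.2
      rw [hL] at h1
      have h2 : ENNReal.ofReal (((1 : ℕ).factorial : ℝ)⁻¹) *
          (∑' j, ENNReal.ofReal (w j * Real.exp (s * l j))) ^ 1 < ⊤ :=
        lt_of_le_of_lt (ENNReal.le_tsum 1) h1
      have h3 : ∑' j, ENNReal.ofReal (w j * Real.exp (s * l j)) ≠ ⊤ := by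
        simpa using h2.ne
      have h4 := ENNReal.summable_toReal h3
      refine h4.congr fun j => ?_
      rw [ENNReal.toReal_ofReal (hnn j)]
  · intro hs
    rw [integral_eq_lintegral_of_nonneg_ae (Filter.Eventually.of_forall fun x =>
      (Real.exp_pos _).le) hmeas, hfin hs, ENNReal.toReal_ofReal (Real.exp_pos _).le]

end Pool.Agent.GL74
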