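import Pool.Agent.W_7742x_h74.NLan
import Pool.Agent.W_7742x_h74.NCon
import Pool.Agent.W_7742x_h74.NExp
import Pool.Agent.W_7742c_h74.Pos

/-! # The positivity theorem with an unknown positive factor

Adapt `positivity` and `positivity_closed` of `W_7742c_h74/Pos.lean`; there the conclusion comes
from `landau_series`; here there is an additional factor `M s = ∫ exp (s x) dμ`.

1. `positivity_lap`: for `s ∈ (1, b)` put
   `E s = g s / z1 s ^ d * exp (d ∑' bb pk s)`, analytic on `(σ0, b)` (see `positivity`), equal to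
   `M s * exp (∑' c pk s)` on `(1, b)`.  By `exists_exp_measure` (index type `Nat.Primes × ℕ`,
   `w = c x / (x.2 + 1)`, `l = -((x.2 + 1) log x.1)`, `mul_pk`) `exp (∑' c pk s) = ∫ exp (s x) dν`,
   so `E s = ∫ exp (s x) d(μ ∗ ν)` for `s ∈ (1, b)` (`integrable_conv`); `landau_two` (with `a = 1`)
   and `conv_left` give the summability of `c x pk s x` for `s ∈ (σ0, b)`; for larger `s` it
   follows from `hcs`, or by `pk_anti`.  Moreover `E s = M' s * exp (∑' c pk s)` with
   `M' s = ∫ exp (s x) dμ < ∞` for `s ∈ (σ0, b)` (`conv_left` with the roles exchanged: `ν ≠ 0`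
   since its transform is positive; commutativity of the convolution).
2. `positivity_lap_closed`: the end point `σ0 > 0`: as in `positivity_closed`: `E` is bounded near
   `σ0` (it is analytic at `σ0 ∈ (0, b)`), `M' s` is bounded below by a positive constant for
   `s ∈ (σ0, 1]` (`μ ≠ 0`: there is `R` with `μ (-R, R) > 0`, and `M' s ≥ exp (-|s| R) μ (-R,R)`),
   so `exp (∑' c pk s)` is bounded as `s → σ0+`, hence all finite partial sums of `c pk σ0` are
   bounded. -/

set_option autoImplicit false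

noncomputable section

namespace Pool.Agent.GL74

open MeasureTheory Set Filter
open scoped Topology ENNReal
open Pool.Agent.H74E (pk pk_nonneg z1)

theorem positivity_lap {σ0 b : ℝ} (h0 : 0 ≤ σ0) (h1 : σ0 ≤ 1) (hb1 : 1 < b) (d : ℕ)
    (c bb : Nat.Primes × ℕ → ℝ) (hc : ∀ x, 0 ≤ c x) (hb : ∀ x, 0 ≤ bb x)
    (hbs : ∀ s, σ0 < s → Summable fun x => bb x * pk s x)
    (hcs : ∀ s, 1 < s → Summable fun x => c x * pk s x)
    (μ : Measure ℝ) [SFinite μ] (hμ : μ ≠ 0)
    (hμi : ∀ s ∈ Ioo 1 b, Integrable (fun x => Real.exp (s * x)) μ)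
    (g : ℝ → ℝ) (hg : ∀ s ∈ Ioo σ0 b, AnalyticAt ℝ g s)
    (hgs : ∀ s ∈ Ioo 1 b, g s = (s - 1) ^ d * (∫ x, Real.exp (s * x) ∂μ) *
      Real.exp (∑' x, (c x + d - d * bb x) * pk s x)) :
    ∀ s, σ0 < s → Summable (fun x => c x * pk s x) ∧ (s < b →
      Integrable (fun x => Real.exp (s * x)) μ ∧
      g s / z1 s ^ d * Real.exp (d * ∑' x, bb x * pk s x) =
        (∫ x, Real.exp (s * x) ∂μ) * Real.exp (∑' x, c x * pk s x)) := by
  have hBan : ∀ s, σ0 < s → AnalyticAt ℝ (fun s => ∑' x, bb x * pk s x) s := by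
    intro s hs
    simp only [Pool.Agent.H74E.mul_pk]
    refine Pool.Agent.H74E.dirichlet_analytic _
      (fun x => mul_nonneg (hb x) (by positivity)) _ σ0 ?_ s hs
    intro τ hτ
    have := hbs τ hτ
    simpa only [Pool.Agent.H74E.mul_pk] using this
  set E : ℝ → ℝ := fun s => g s / z1 s ^ d * Real.exp (d * ∑' x, bb x * pk s x) with hE
  have hEan : ∀ s ∈ Ioo σ0 b, AnalyticAt ℝ E s := by
    intro s hs
    have hs0 : 0 < s := h0.trans_lt hs.1
    have hz := (Pool.Agent.H74E.z1_analytic hs0).pow d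
    exact ((hg s hs).div hz (pow_ne_zero _ (Pool.Agent.H74E.z1_pos hs0).ne')).mul
      ((analyticAt_const.mul (hBan s hs.1)).rexp)
  obtain ⟨ν, hνf, hν⟩ := exists_exp_measure (fun x : Nat.Primes × ℕ => c x * ((x.2 : ℝ) + 1)⁻¹)
    (fun x => mul_nonneg (hc x) (by positivity))
    (fun x => -(((x.2 : ℝ) + 1) * Real.log x.1))
  have hfun : ∀ s : ℝ, (fun x : Nat.Primes × ℕ => c x * ((x.2 : ℝ) + 1)⁻¹ *
      Real.exp (s * -(((x.2 : ℝ) + 1) * Real.log x.1))) = fun x => c x * pk s x := by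
    intro s
    funext x
    rw [Pool.Agent.H74E.mul_pk, mul_neg]
  have hν1 : ∀ s : ℝ, (Summable fun x => c x * pk s x) ↔
      Integrable (fun x => Real.exp (s * x)) ν := by
    intro s
    have := (hν s).1
    rwa [hfun s] at this
  have hν2 : ∀ s : ℝ, (Summable fun x => c x * pk s x) →
      ∫ x, Real.exp (s * x) ∂ν = Real.exp (∑' x, c x * pk s x) := by
    intro s
    have := (hν s).2
    rwa [hfun s] at this
  have hν0 : ν ≠ 0 := by
    intro h
    have h2 := hν2 2 (hcs 2 (by norm_num))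
    rw [h, integral_zero_measure] at h2
    exact (Real.exp_pos _).ne h2
  have hE1 : ∀ s ∈ Ioo 1 b, E s = (∫ x, Real.exp (s * x) ∂μ) * Real.exp (∑' x, c x * pk s x) := by
    intro s hs
    have e1 := hcs s hs.1
    have e2 := hbs s (h1.trans_lt hs.1)
    have e3 := Pool.Agent.H74E.summable_pk hs.1
    have hsum : ∑' x, (c x + d - d * bb x) * pk s x =
        ∑' x, c x * pk s x + d * ∑' x, pk s x - d * ∑' x, bb x * pk s x := by
      rw [← tsum_mul_left, ← tsum_mul_left, ← e1.tsum_add (e3.mul_left _),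
        ← (e1.add (e3.mul_left _)).tsum_sub (e2.mul_left _)]
      refine tsum_congr fun x => ?_
      ring
    rw [hE]
    simp only
    rw [hgs s hs, hsum, Pool.Agent.H74E.z1_pk hs.1, mul_pow, ← Real.exp_nat_mul]
    have hne : (s - 1) ^ d ≠ 0 := pow_ne_zero _ (sub_ne_zero.2 hs.1.ne')
    rw [mul_assoc, mul_div_mul_left _ _ hne, mul_div_assoc, ← Real.exp_sub, mul_assoc,
      ← Real.exp_add]
    congr 2
    ring
  have hE2 : ∀ s ∈ Ioo 1 b, Integrable (fun x => Real.exp (s * x)) (μ ∗ ν) ∧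
      E s = ∫ x, Real.exp (s * x) ∂(μ ∗ ν) := by
    intro s hs
    obtain ⟨k1, k2⟩ := integrable_conv (hμi s hs) ((hν1 s).1 (hcs s hs.1))
    exact ⟨k1, by rw [k2, hE1 s hs, hν2 s (hcs s hs.1)]⟩
  have key := landau_two (μ ∗ ν) h1 hb1 E hEan (fun s hs => (hE2 s hs).1)
    (fun s hs => (hE2 s hs).2)
  intro s hs
  rcases lt_or_ge s b with hsb | hsb
  · obtain ⟨k1, k2⟩ := key s ⟨hs, hsb⟩
    have k3 : Integrable (fun x => Real.exp (s * x)) ν := conv_left hμ k1
    have k4 : Integrable (fun x => Real.exp (s * x)) μ := by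
      refine conv_left hν0 (μ := ν) ?_
      rw [Measure.conv_comm]
      exact k1
    have k5 := (hν1 s).2 k3
    refine ⟨k5, fun _ => ⟨k4, ?_⟩⟩
    have k6 := (integrable_conv k4 k3).2
    rw [← k2, hν2 s k5] at k6
    exact k6
  · exact ⟨hcs s (hb1.trans_le hsb), fun h => absurd h (not_lt.2 hsb)⟩

theorem positivity_lap_closed {σ0 b : ℝ} (h0 : 0 < σ0) (h1 : σ0 ≤ 1) (hb1 : 1 < b) (d : ℕ)
    (c bb : Nat.Primes × ℕ → ℝ) (hc : ∀ x, 0 ≤ c x) (hb : ∀ x, 0 ≤ bb x)
    (hbs : ∀ s, σ0 ≤ s → Summable fun x => bb x * pk s x)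
    (hcs : ∀ s, 1 < s → Summable fun x => c x * pk s x)
    (μ : Measure ℝ) [SFinite μ] (hμ : μ ≠ 0)
    (hμi : ∀ s ∈ Ioo 1 b, Integrable (fun x => Real.exp (s * x)) μ)
    (g : ℝ → ℝ) (hg : ∀ s ∈ Ioo 0 b, AnalyticAt ℝ g s)
    (hgs : ∀ s ∈ Ioo 1 b, g s = (s - 1) ^ d * (∫ x, Real.exp (s * x) ∂μ) *
      Real.exp (∑' x, (c x + d - d * bb x) * pk s x)) :
    ∀ s, σ0 ≤ s → Summable fun x => c x * pk s x := by
  have key := positivity_lap h0.le h1 hb1 d c bb hc hb (fun s hs => hbs s hs.le) hcs μ hμ hμi g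
    (fun s hs => hg s ⟨h0.trans hs.1, hs.2⟩) hgs
  have hσb : σ0 < b := h1.trans_lt hb1
  -- a lower bound for the unknown factor
  obtain ⟨s1, hs1, hs1b⟩ := exists_between hσb
  set φ : ℝ → ℝ := fun x => min (Real.exp (σ0 * x)) (Real.exp (s1 * x)) with hφ
  have hφpos : ∀ x, 0 < φ x := fun x => lt_min (Real.exp_pos _) (Real.exp_pos _)
  have hφle : ∀ s, σ0 ≤ s → s ≤ s1 → ∀ x, φ x ≤ Real.exp (s * x) := by
    intro s hs hs' x
    rcases le_total 0 x with hx | hx
    · exact (min_le_left _ _).trans (Real.exp_le_exp.2 (mul_le_mul_of_nonneg_right hs hx))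
    · exact (min_le_right _ _).trans (Real.exp_le_exp.2 (mul_le_mul_of_nonpos_right hs' hx))
  have hφi : Integrable φ μ := by
    have h2 := ((key s1 hs1).2 hs1b).1
    refine h2.mono' ?_ (Filter.Eventually.of_forall fun x => ?_)
    · exact (by fun_prop : Measurable φ).aestronglyMeasurable
    · rw [Real.norm_of_nonneg (hφpos x).le]
      exact hφle s1 hs1.le le_rfl x
  have hδ : 0 < ∫ x, φ x ∂μ := by
    rw [integral_pos_iff_support_of_nonneg (fun x => (hφpos x).le) hφi]
    have : Function.support φ = univ := by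
      ext x
      simp [(hφpos x).ne']
    rw [this]
    exact Measure.measure_univ_pos.2 hμ
  obtain ⟨δ, hδe⟩ : ∃ δ, δ = ∫ x, φ x ∂μ := ⟨_, rfl⟩
  rw [← hδe] at hδ
  have hend : Summable fun x => c x * pk σ0 x := by
    -- a bound near the end point
    have hcont : ContinuousAt (fun s => g s / z1 s ^ d) σ0 :=
      ((hg σ0 ⟨h0, hσb⟩).div ((Pool.Agent.H74E.z1_analytic h0).pow d)
        (pow_ne_zero _ (Pool.Agent.H74E.z1_pos h0).ne')).continuousAt
    have hlim : Tendsto (fun s => g s / z1 s ^ d) (𝓝[>] σ0) (𝓝 (g σ0 / z1 σ0 ^ d)) :=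
      hcont.tendsto.mono_left nhdsWithin_le_nhds
    set A : ℝ := |g σ0 / z1 σ0 ^ d| + 1 with hA
    have hApos : 0 < A := by positivity
    have hev : ∀ᶠ s in 𝓝[>] σ0, g s / z1 s ^ d < A :=
      hlim.eventually_lt_const (by rw [hA]; linarith [le_abs_self (g σ0 / z1 σ0 ^ d)])
    have hev1 : ∀ᶠ s in 𝓝[>] σ0, s < s1 :=
      (Iio_mem_nhds hs1 |> fun h => nhdsWithin_le_nhds h)
    set B : ℝ := ∑' x, bb x * pk σ0 x with hB
    have hbound : ∀ᶠ s in 𝓝[>] σ0, ∑' x, c x * pk s x ≤ Real.log (A / δ) + d * B := by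
      filter_upwards [hev, hev1, self_mem_nhdsWithin] with s hs1' hs3 hs2
      have hs2' : σ0 < s := hs2
      obtain ⟨k2, k3⟩ := (key s hs2').2 (hs3.trans hs1b)
      have hBs : ∑' x, bb x * pk s x ≤ B :=
        (hbs s hs2'.le).tsum_le_tsum (fun x => mul_le_mul_of_nonneg_left
          (Pool.Agent.H74E.pk_anti hs2'.le x) (hb x)) (hbs σ0 le_rfl)
      have hδM : δ ≤ ∫ x, Real.exp (s * x) ∂μ := by
        rw [hδe]
        exact integral_mono hφi k2 (hφle s hs2'.le hs3.le)
      have hE := Real.exp_le_exp.2 (mul_le_mul_of_nonneg_left hBs (Nat.cast_nonneg d))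
      have hle1 : δ * Real.exp (∑' x, c x * pk s x) ≤ A * Real.exp (d * B) :=
        calc δ * Real.exp (∑' x, c x * pk s x)
            ≤ (∫ x, Real.exp (s * x) ∂μ) * Real.exp (∑' x, c x * pk s x) :=
              mul_le_mul_of_nonneg_right hδM (Real.exp_pos _).le
          _ = g s / z1 s ^ d * Real.exp (d * ∑' x, bb x * pk s x) := k3.symm
          _ ≤ A * Real.exp (d * ∑' x, bb x * pk s x) :=
              mul_le_mul_of_nonneg_right hs1'.le (Real.exp_pos _).le
          _ ≤ A * Real.exp (d * B) := mul_le_mul_of_nonneg_left hE hApos.le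
      have hle : Real.exp (∑' x, c x * pk s x) ≤ Real.exp (Real.log (A / δ) + d * B) := by
        rw [Real.exp_add, Real.exp_log (div_pos hApos hδ), div_mul_eq_mul_div, le_div_iff₀ hδ,
          mul_comm _ δ]
        exact hle1
      exact Real.exp_le_exp.1 hle
    refine summable_of_sum_le (c := Real.log (A / δ) + d * B)
      (fun x => mul_nonneg (hc x) (pk_nonneg _ _)) fun F => ?_
    have hcontF : Tendsto (fun s => ∑ x ∈ F, c x * pk s x) (𝓝[>] σ0)
        (𝓝 (∑ x ∈ F, c x * pk σ0 x)) := by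
      have : Continuous fun s => ∑ x ∈ F, c x * pk s x :=
        continuous_finsetSum _ fun x _ => continuous_const.mul (Pool.Agent.H74E.continuous_pk x)
      exact (this.tendsto σ0).mono_left nhdsWithin_le_nhds
    refine le_of_tendsto hcontF ?_
    filter_upwards [hbound, self_mem_nhdsWithin] with s hs1' hs2
    refine le_trans ?_ hs1'
    exact (key s hs2).1.sum_le_tsum F fun x _ => mul_nonneg (hc x) (pk_nonneg _ _)
  intro s hs
  rcases hs.eq_or_lt with rfl | hlt
  · exact hend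
  · exact (key s hlt).1

end Pool.Agent.GL74
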