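import Pool.Agent.W_7742x_h74.ZDef
import Pool.Agent.W_7742x_h74.NPos
import Pool.Agent.W_7742c_h74.Burnside

/-! # The positivity theorem for systems with the weak Rankin-Selberg property -/

set_option autoImplicit false

noncomputable section

namespace Pool.Agent.GL74

open MeasureTheory Set Filter
open scoped Topology
open Pool.Agent.H74E (pk pk_nonneg)
open Pool.Agent.H74E.SatakeSystem

variable {K : Type} [Field K] [NumberField K] {n : ℕ}

theorem posC_of_weakRS {π : H74E.SatakeSystem K n} (h : ∀ σ : K →+* ℂ, WeakRS (π.T σ)) :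
    π.PosC where
  one := fun s hs => summable_c_of fun σ => (h σ).summable (T_nonneg σ) hs
  closed := by
    intro σ0 h0 h1 hbs
    have hT : ∀ σ : K →+* ℂ, ∀ s : ℝ, 1 < s → Summable fun x => π.T σ x * pk s x :=
      fun σ s hs => (h σ).summable (T_nonneg σ) hs
    choose b hb μ hμs hμ G hG h2 using h
    obtain ⟨b0, hb01, hb0⟩ : ∃ b0, 1 < b0 ∧ ∀ σ : K →+* ℂ, b0 ≤ b σ := by
      refine ⟨Finset.univ.inf' Finset.univ_nonempty b, ?_, fun σ => Finset.inf'_le _ (Finset.mem_univ σ)⟩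
      rw [Finset.lt_inf'_iff]
      exact fun σ _ => hb σ
    obtain ⟨ρ, hρs, hρ, hρe⟩ := exists_prod μ hμs hμ
    have hmem : ∀ {s : ℝ}, s ∈ Ioo 1 b0 → ∀ σ, s ∈ Ioo 1 (b σ) :=
      fun hs σ => ⟨hs.1, hs.2.trans_le (hb0 σ)⟩
    have hint : ∀ {s : ℝ}, s ∈ Ioo 1 b0 → ∀ σ, Integrable (fun x => Real.exp (s * x)) (μ σ) :=
      fun hs σ => (h2 σ _ (hmem hs σ)).2.1
    refine positivity_lap_closed h0 h1 hb01 (Fintype.card (K →+* ℂ)) π.c π.b c_nonneg b_nonneg hbs
      (fun s hs => summable_c_of fun σ => hT σ s hs) ρ hρ (fun s hs => (hρe s (hint hs)).1)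
      (fun s => ∏ σ, G σ s) ?_ ?_
    · intro s hs
      have : AnalyticAt ℝ (∏ σ : K →+* ℂ, G σ) s :=
        Finset.analyticAt_prod _ fun σ _ => hG σ s ⟨hs.1, hs.2.trans_le (hb0 σ)⟩
      refine this.congr ?_
      filter_upwards with τ
      rw [Finset.prod_apply]
    · intro s hs
      have e1 : ∀ σ : K →+* ℂ, G σ s = (s - 1) * (∫ x, Real.exp (s * x) ∂(μ σ)) *
          Real.exp (∑' x, π.T σ x * pk s x) := fun σ => (h2 σ s (hmem hs σ)).2.2
      simp only [e1]
      rw [Finset.prod_mul_distrib, Finset.prod_mul_distrib, Finset.prod_const, Finset.card_univ,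
        ← Real.exp_sum, ← Summable.tsum_finsetSum fun σ _ => hT σ s hs.1, (hρe s (hint hs)).2]
      congr 2
      refine tsum_congr fun x => ?_
      rw [← Finset.sum_mul, sum_T]

end Pool.Agent.GL74
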