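import Mathlib

/-! # Weights for groups: the unfolding lemma

`G` is a countable group acting on `(Y, μ)` by measure preserving maps `a g`; `H` is a countable set
of maps `b h`, `r : C → G`, and `(h, c) ↦ E (h, c)` is a bijection `H × C ≃ G` with
`a (E (h, c)) = b h ∘ a (r c)` (`H` is a subgroup and `r` are representatives of the right cosets).
`ωG` and `ωH` are weights.  Then for `F ≥ 0` invariant under `H`

`∫ ωH F = ∑_g ∫ ωH(x) F(x) ωG(a g x) = ∑_g ∫ ωH(a g⁻¹ y) F(a g⁻¹ y) ωG(y)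
 = ∫ ωG(y) ∑_g ωH(a g y) F(a g y) = ∫ ωG(y) ∑_c ∑_h ωH(b h (a (r c) y)) F(b h (a (r c) y))
 = ∫ ωG(y) ∑_c F(a (r c) y)`

(the sums over `g` and `g⁻¹` are the same; `hH1` and `hFb` hold at `a (r c) y` for almost all
`y`). -/

set_option autoImplicit false

noncomputable section

namespace Pool.Agent.GL74

open MeasureTheory
open scoped ENNReal

theorem unfold_abstract {Y G H C : Type} [MeasurableSpace Y] (μ : Measure Y) [Group G]
    [Countable G] [Countable H] [Countable C] (a : G → Y → Y) (ha1 : ∀ x, a 1 x = x)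
    (ham : ∀ g h x, a (g * h) x = a g (a h x)) (hμ : ∀ g, MeasurePreserving (a g) μ μ)
    (b : H → Y → Y) (r : C → G) (E : H × C ≃ G) (hE : ∀ h c x, a (E (h, c)) x = b h (a (r c) x))
    (ωG ωH F : Y → ℝ≥0∞) (hG : Measurable ωG) (hH : Measurable ωH) (hF : Measurable F)
    (hG1 : ∀ᵐ x ∂μ, ∑' g, ωG (a g x) = 1) (hH1 : ∀ᵐ x ∂μ, ∑' h, ωH (b h x) = 1)
    (hFb : ∀ h, ∀ᵐ x ∂μ, F (b h x) = F x) :
    ∫⁻ x, ωH x * F x ∂μ = ∫⁻ x, ωG x * ∑' c, F (a (r c) x) ∂μ := by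
  have hma : ∀ g, Measurable (a g) := fun g => (hμ g).measurable
  have e1 : ∫⁻ x, ωH x * F x ∂μ = ∫⁻ x, ∑' g, ωG (a g x) * (ωH x * F x) ∂μ := by
    apply lintegral_congr_ae
    filter_upwards [hG1] with x hx
    rw [ENNReal.tsum_mul_right, hx, one_mul]
  have e2 : ∫⁻ x, ∑' g, ωG (a g x) * (ωH x * F x) ∂μ
      = ∑' g, ∫⁻ x, ωG (a g x) * (ωH x * F x) ∂μ := by
    apply lintegral_tsum
    intro g
    exact ((hG.comp (hma g)).mul (hH.mul hF)).aemeasurable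
  have e3 : ∀ g : G, ∫⁻ x, ωG (a g x) * (ωH x * F x) ∂μ
      = ∫⁻ y, ωG y * (ωH (a g⁻¹ y) * F (a g⁻¹ y)) ∂μ := by
    intro g
    have hm : Measurable fun y => ωG y * (ωH (a g⁻¹ y) * F (a g⁻¹ y)) :=
      hG.mul ((hH.comp (hma g⁻¹)).mul (hF.comp (hma g⁻¹)))
    rw [← (hμ g).lintegral_comp hm]
    apply lintegral_congr
    intro x
    have hx : a g⁻¹ (a g x) = x := by rw [← ham, inv_mul_cancel, ha1]
    rw [hx]
  have e4 : ∑' g : G, ∫⁻ y, ωG y * (ωH (a g⁻¹ y) * F (a g⁻¹ y)) ∂μ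
      = ∑' g : G, ∫⁻ y, ωG y * (ωH (a g y) * F (a g y)) ∂μ :=
    (Equiv.inv G).tsum_eq (fun g => ∫⁻ y, ωG y * (ωH (a g y) * F (a g y)) ∂μ)
  have e5 : ∑' g : G, ∫⁻ y, ωG y * (ωH (a g y) * F (a g y)) ∂μ
      = ∫⁻ y, ∑' g : G, ωG y * (ωH (a g y) * F (a g y)) ∂μ := by
    symm
    apply lintegral_tsum
    intro g
    exact (hG.mul ((hH.comp (hma g)).mul (hF.comp (hma g)))).aemeasurable
  rw [e1, e2, tsum_congr e3, e4, e5]
  have q1 : ∀ c, ∀ᵐ y ∂μ, ∑' h, ωH (b h (a (r c) y)) = 1 := fun c =>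
    (hμ (r c)).quasiMeasurePreserving.ae hH1
  have q2 : ∀ c h, ∀ᵐ y ∂μ, F (b h (a (r c) y)) = F (a (r c) y) := fun c h =>
    (hμ (r c)).quasiMeasurePreserving.ae (hFb h)
  have q1' : ∀ᵐ y ∂μ, ∀ c, ∑' h, ωH (b h (a (r c) y)) = 1 := ae_all_iff.2 q1
  have q2' : ∀ᵐ y ∂μ, ∀ c h, F (b h (a (r c) y)) = F (a (r c) y) :=
    ae_all_iff.2 fun c => ae_all_iff.2 fun h => q2 c h
  apply lintegral_congr_ae
  filter_upwards [q1', q2'] with y h1 h2
  rw [ENNReal.tsum_mul_left]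
  congr 1
  rw [← E.tsum_eq (fun g => ωH (a g y) * F (a g y)), ENNReal.tsum_prod', ENNReal.tsum_comm]
  apply tsum_congr
  intro c
  have : ∀ h, ωH (a (E (h, c)) y) * F (a (E (h, c)) y)
      = ωH (b h (a (r c) y)) * F (a (r c) y) := by
    intro h
    rw [hE, h2 c h]
  rw [tsum_congr this, ENNReal.tsum_mul_right, h1 c, one_mul]

/-- Two weights for the same group. -/
theorem weight_indep {Y G : Type} [MeasurableSpace Y] (μ : Measure Y) [Group G]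
    [Countable G] (a : G → Y → Y) (ha1 : ∀ x, a 1 x = x)
    (ham : ∀ g h x, a (g * h) x = a g (a h x)) (hμ : ∀ g, MeasurePreserving (a g) μ μ)
    (ω ω' F : Y → ℝ≥0∞) (hG : Measurable ω) (hH : Measurable ω') (hF : Measurable F)
    (h1 : ∀ᵐ x ∂μ, ∑' g, ω (a g x) = 1) (h2 : ∀ᵐ x ∂μ, ∑' g, ω' (a g x) = 1)
    (hFa : ∀ g, ∀ᵐ x ∂μ, F (a g x) = F x) :
    ∫⁻ x, ω x * F x ∂μ = ∫⁻ x, ω' x * F x ∂μ := by
  have h := unfold_abstract (C := Unit) μ a ha1 ham hμ a (fun _ => 1)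
    (Equiv.prodPUnit G) (fun h c x => by rw [ha1]; rfl) ω' ω F hH hG hF h2 h1 hFa
  rw [h]
  apply lintegral_congr
  intro x
  rw [tsum_fintype]
  simp [ha1]

end Pool.Agent.GL74
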