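import Pool.Agent.W_7742x_h74.XGlu

/-! # Primitive vectors and cosets

* `exists_row`: `SL_n (ℤ)` (`n ≥ 2`) acts transitively on primitive vectors (Euclidean algorithm:
  by induction on `∑ |v i|` multiply `v` from the right by elementary matrices until it is
  `± e_i`, then by a signed permutation of determinant one until it is `e_0`; or extend `v` to a
  basis of `ℤ^n`, as `ℤ^n = ℤ v ⊕ ker u`, and correct the determinant by a sign in another row).
* `bij_pm`: the first row of `pm ℓ γ * δ` is the first row of `δ`; conversely if `δ` and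
  `rowOf v` have the same first row `v`, `δ * (rowOf v)⁻¹` has the first row `e_0`, so it is
  `pm ℓ γ` (`exists_pm`); injectivity from `pm_injective`.
* `prim_decomp`: divide by the gcd of the entries (Bezout: `Finset.gcd`, an integral linear
  combination of the entries is the gcd). -/

set_option autoImplicit false

noncomputable section

namespace Pool.Agent.GL74

open scoped MatrixGroups

theorem countable_sl (n : ℕ) : Countable SL(n, ℤ) := by
  have h : Countable (Matrix (Fin n) (Fin n) ℤ) :=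
    inferInstanceAs (Countable (Fin n → Fin n → ℤ))
  exact inferInstanceAs (Countable {A : Matrix (Fin n) (Fin n) ℤ // A.det = 1})

/-- Division by the gcd. -/
theorem WPrm_gcd {n : ℕ} {w : Fin n → ℤ} (hw : w ≠ 0) :
    ∃ (d : ℤ) (v : Fin n → ℤ), 0 < d ∧ IsPrim v ∧ ∀ i, w i = d * v i := by
  obtain ⟨d, hd⟩ := (IsPrincipalIdealRing.principal (Ideal.span (Set.range w))).principal
  have h1 : ∀ i, d ∣ w i := by
    intro i
    have h2 : w i ∈ Ideal.span (Set.range w) := Ideal.subset_span ⟨i, rfl⟩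
    rw [hd] at h2
    exact Ideal.mem_span_singleton.1 h2
  have h3 : d ∈ Ideal.span (Set.range w) := by
    rw [hd]
    exact Ideal.mem_span_singleton_self d
  obtain ⟨u, hu⟩ := Ideal.mem_span_range_iff_exists_fun.1 h3
  have hd0 : d ≠ 0 := by
    rintro rfl
    exact hw (funext fun i => by simpa using h1 i)
  choose v hv using h1
  have h4 : ∑ i, u i * v i = 1 := by
    have h5 : d * ∑ i, u i * v i = d * 1 := by
      rw [mul_one, Finset.mul_sum]
      refine Eq.trans ?_ hu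
      refine Finset.sum_congr rfl fun i _ => ?_
      rw [hv i]
      ring
    exact mul_left_cancel₀ hd0 h5
  rcases lt_or_gt_of_ne hd0 with h6 | h6
  · refine ⟨-d, fun i => -v i, by omega, ⟨fun i => -u i, ?_⟩, fun i => ?_⟩
    · rw [← h4]
      exact Finset.sum_congr rfl fun i _ => by ring
    · rw [hv i]
      ring
  · exact ⟨d, v, h6, ⟨u, h4⟩, hv⟩

theorem WPrm_gcd' {n : ℕ} (w : Fin (n + 1) → ℤ) :
    ∃ (d : ℤ) (v : Fin (n + 1) → ℤ), IsPrim v ∧ ∀ i, w i = d * v i := by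
  by_cases hw : w = 0
  · refine ⟨0, fun i => if i = 0 then 1 else 0, ⟨fun i => if i = 0 then 1 else 0, ?_⟩,
      fun i => ?_⟩
    · simp
    · rw [hw]
      simp
  · obtain ⟨d, v, _, h1, h2⟩ := WPrm_gcd hw
    exact ⟨d, v, h1, h2⟩

theorem WPrm_det1 {k : ℕ} (x : ℤ) : (Matrix.of (Fin.cons (Fin.cons x 0 : Fin (k + 1) → ℤ)
    (fun i : Fin k => (Fin.cons 0 ((1 : Matrix (Fin k) (Fin k) ℤ) i) : Fin (k + 1) → ℤ))
      : Fin (k + 1) → Fin (k + 1) → ℤ) : Matrix (Fin (k + 1)) (Fin (k + 1)) ℤ).det = x := by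
  rw [Matrix.det_succ_row_zero, Fin.sum_univ_succ]
  have h1 : ∀ i : Fin k, (Matrix.of (Fin.cons (Fin.cons x 0 : Fin (k + 1) → ℤ)
    (fun i : Fin k => (Fin.cons 0 ((1 : Matrix (Fin k) (Fin k) ℤ) i) : Fin (k + 1) → ℤ))
      : Fin (k + 1) → Fin (k + 1) → ℤ) : Matrix (Fin (k + 1)) (Fin (k + 1)) ℤ) 0 i.succ = 0 := by
    intro i
    simp
  rw [Finset.sum_eq_zero fun i _ => by rw [h1 i]; ring, add_zero]
  have h2 : ((Matrix.of (Fin.cons (Fin.cons x 0 : Fin (k + 1) → ℤ)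
    (fun i : Fin k => (Fin.cons 0 ((1 : Matrix (Fin k) (Fin k) ℤ) i) : Fin (k + 1) → ℤ))
      : Fin (k + 1) → Fin (k + 1) → ℤ) : Matrix (Fin (k + 1)) (Fin (k + 1)) ℤ)).submatrix
        Fin.succ (Fin.succAbove 0) = 1 := by
    ext i j
    simp
  rw [h2]
  simp

/-- The matrix `(x y 0; z t 0; 0 0 1)`. -/
def WPrm_C {k : ℕ} (x y z t : ℤ) : Matrix (Fin (k + 2)) (Fin (k + 2)) ℤ :=
  Matrix.of (Fin.cons (Fin.cons x (Fin.cons y 0)) (Fin.cons (Fin.cons z (Fin.cons t 0))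
    fun i => Fin.cons 0 (Fin.cons 0 ((1 : Matrix (Fin k) (Fin k) ℤ) i))))

theorem WPrm_detC {k : ℕ} (x y z t : ℤ) : (WPrm_C (k := k) x y z t).det = x * t - y * z := by
  rw [Matrix.det_succ_row_zero, Fin.sum_univ_succ, Fin.sum_univ_succ]
  have h1 : ∀ i : Fin k, WPrm_C (k := k) x y z t 0 i.succ.succ = 0 := by
    intro i
    simp [WPrm_C]
  rw [Finset.sum_eq_zero fun i _ => by rw [h1 i]; ring, add_zero]
  have h2 : (WPrm_C (k := k) x y z t).submatrix Fin.succ (Fin.succAbove 0) =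
      (Matrix.of (Fin.cons (Fin.cons t 0 : Fin (k + 1) → ℤ)
    (fun i : Fin k => (Fin.cons 0 ((1 : Matrix (Fin k) (Fin k) ℤ) i) : Fin (k + 1) → ℤ))
      : Fin (k + 1) → Fin (k + 1) → ℤ) : Matrix (Fin (k + 1)) (Fin (k + 1)) ℤ) := by
    ext i j
    refine Fin.cases ?_ (fun i => ?_) i
    · simp [WPrm_C]
    · simp [WPrm_C]
  have h3 : (WPrm_C (k := k) x y z t).submatrix Fin.succ
        (Fin.succAbove (Fin.succ (0 : Fin (k + 1)))) =
      (Matrix.of (Fin.cons (Fin.cons z 0 : Fin (k + 1) → ℤ)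
    (fun i : Fin k => (Fin.cons 0 ((1 : Matrix (Fin k) (Fin k) ℤ) i) : Fin (k + 1) → ℤ))
      : Fin (k + 1) → Fin (k + 1) → ℤ) : Matrix (Fin (k + 1)) (Fin (k + 1)) ℤ) := by
    ext i j
    refine Fin.cases ?_ (fun i => ?_) i
    · refine Fin.cases ?_ (fun j => ?_) j
      · simp [WPrm_C]
      · simp [WPrm_C]
    · refine Fin.cases ?_ (fun j => ?_) j
      · simp [WPrm_C]
      · simp [WPrm_C]
  rw [h2, h3, WPrm_det1, WPrm_det1]
  simp [WPrm_C]
  ring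

theorem WPrm_rowC {k : ℕ} (x y z t : ℤ) (ρ : Matrix (Fin (k + 2)) (Fin (k + 2)) ℤ)
    (j : Fin (k + 2)) : (WPrm_C (k := k) x y z t * ρ) 0 j = x * ρ 0 j + y * ρ 1 j := by
  rw [Matrix.mul_apply, Fin.sum_univ_succ, Fin.sum_univ_succ]
  have h1 : ∀ i : Fin k, WPrm_C (k := k) x y z t 0 i.succ.succ = 0 := by
    intro i
    simp [WPrm_C]
  rw [Finset.sum_eq_zero fun i _ => by rw [h1 i]; ring, add_zero]
  simp [WPrm_C]

theorem exists_row {s : ℕ} {v : Fin (s + 2) → ℤ} (hv : IsPrim v) :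
    ∃ γ : SL(s + 2, ℤ), ∀ j, γ.1 0 j = v j := by
  induction s with
  | zero =>
    obtain ⟨u, hu⟩ := hv
    rw [Fin.sum_univ_two] at hu
    refine ⟨⟨WPrm_C (v 0) (v 1) (-u 1) (u 0), ?_⟩, fun j => ?_⟩
    · rw [WPrm_detC]
      linarith
    · fin_cases j
      · rfl
      · rfl
  | succ s ih =>
    obtain ⟨d, v', hv', hd⟩ := WPrm_gcd' (fun i : Fin (s + 2) => v i.succ)
    obtain ⟨γ', hγ'⟩ := ih hv'
    obtain ⟨u, hu⟩ := hv
    rw [Fin.sum_univ_succ] at hu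
    have h1 : ∑ i : Fin (s + 2), u i.succ * v i.succ = (∑ i : Fin (s + 2), u i.succ * v' i) * d := by
      rw [Finset.sum_mul]
      refine Finset.sum_congr rfl fun i _ => ?_
      rw [hd i]
      ring
    rw [h1] at hu
    refine ⟨⟨WPrm_C (v 0) d (-(∑ i : Fin (s + 2), u i.succ * v' i)) (u 0) *
      pmM 0 γ', ?_⟩, fun j => ?_⟩
    · rw [Matrix.det_mul, WPrm_detC, det_pmM]
      linarith
    · show (WPrm_C (v 0) d (-(∑ i : Fin (s + 2), u i.succ * v' i)) (u 0) *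
        pmM 0 γ' : Matrix (Fin (s + 3)) (Fin (s + 3)) ℤ) 0 j = v j
      rw [WPrm_rowC]
      refine Fin.cases ?_ (fun j => ?_) j
      · simp [pmM]
      · have h2 : (pmM (0 : Fin (s + 2) → ℤ) γ') 0 j.succ = 0 := by simp [pmM]
        have h3 : (pmM (0 : Fin (s + 2) → ℤ) γ') 1 j.succ = γ'.1 0 j := rfl
        rw [h2, h3, hγ', hd j]
        ring

theorem isPrim_row {s : ℕ} (γ : SL(s + 1, ℤ)) : IsPrim fun j => γ.1 0 j := by
  refine ⟨fun i => (γ⁻¹).1 i 0, ?_⟩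
  have h1 : (γ * γ⁻¹).1 0 0 = 1 := by
    rw [mul_inv_cancel]
    rfl
  have h2 : (γ * γ⁻¹).1 = γ.1 * (γ⁻¹).1 := rfl
  rw [h2, Matrix.mul_apply] at h1
  refine Eq.trans ?_ h1
  exact Finset.sum_congr rfl fun i _ => mul_comm _ _

theorem WPrm_row {s : ℕ} (ℓ : Fin s → ℤ) (γ : SL(s, ℤ)) (δ : SL(s + 1, ℤ)) (j : Fin (s + 1)) :
    (pm ℓ γ * δ).1 0 j = δ.1 0 j := by
  have h2 : (pm ℓ γ * δ).1 = pmM ℓ γ * δ.1 := rfl
  rw [h2, Matrix.mul_apply, Fin.sum_univ_succ]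
  have h1 : ∀ i : Fin s, pmM ℓ γ 0 i.succ = 0 := fun i => by simp [pmM]
  rw [Finset.sum_eq_zero fun i _ => by rw [h1 i]; ring, add_zero]
  have h3 : pmM ℓ γ 0 0 = 1 := by simp [pmM]
  rw [h3, one_mul]

/-- A matrix with a given first row. -/
def rowOf {s : ℕ} (v : {v : Fin (s + 2) → ℤ // IsPrim v}) : SL(s + 2, ℤ) :=
  (exists_row v.2).choose

theorem rowOf_spec {s : ℕ} (v : {v : Fin (s + 2) → ℤ // IsPrim v}) (j : Fin (s + 2)) :
    (rowOf v).1 0 j = v.1 j :=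
  (exists_row v.2).choose_spec j

theorem bij_pm {s : ℕ} : Function.Bijective
    fun q : ((Fin (s + 1) → ℤ) × SL(s + 1, ℤ)) × {v : Fin (s + 2) → ℤ // IsPrim v} =>
      pm q.1.1 q.1.2 * rowOf q.2 := by
  constructor
  · rintro ⟨⟨ℓ, γ⟩, v⟩ ⟨⟨ℓ', γ'⟩, v'⟩ h
    replace h : pm ℓ γ * rowOf v = pm ℓ' γ' * rowOf v' := h
    have h1 : v = v' := by
      refine Subtype.ext (funext fun j => ?_)
      rw [← rowOf_spec v j, ← rowOf_spec v' j, ← WPrm_row ℓ γ (rowOf v) j,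
        ← WPrm_row ℓ' γ' (rowOf v') j, h]
    subst h1
    have h2 : pm ℓ γ = pm ℓ' γ' := mul_right_cancel h
    have h3 := pm_injective (a₁ := (ℓ, γ)) (a₂ := (ℓ', γ')) h2
    rw [h3]
  · intro δ
    have hv := isPrim_row δ
    have h1 : ∀ j, (δ * (rowOf ⟨_, hv⟩)⁻¹).1 0 j = if j = 0 then 1 else 0 := by
      intro j
      have h2 : (δ * (rowOf ⟨_, hv⟩)⁻¹).1 = δ.1 * ((rowOf ⟨_, hv⟩)⁻¹).1 := rfl
      have h3 : (rowOf ⟨_, hv⟩ * (rowOf ⟨_, hv⟩)⁻¹).1 =
        (rowOf ⟨_, hv⟩).1 * ((rowOf ⟨_, hv⟩)⁻¹).1 := rfl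
      rw [mul_inv_cancel] at h3
      have h4 := congrFun (congrFun h3 0) j
      rw [h2, Matrix.mul_apply]
      rw [Matrix.mul_apply] at h4
      have h5 : (1 : SL(s + 2, ℤ)).1 0 j = if j = 0 then 1 else 0 := by
        show (1 : Matrix (Fin (s + 2)) (Fin (s + 2)) ℤ) 0 j = _
        rw [Matrix.one_apply]
        exact if_congr eq_comm rfl rfl
      rw [← h5, h4]
      refine Finset.sum_congr rfl fun i _ => ?_
      rw [rowOf_spec]
    obtain ⟨ℓ, γ, h⟩ := exists_pm _ h1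
    refine ⟨((ℓ, γ), ⟨_, hv⟩), ?_⟩
    show pm ℓ γ * rowOf ⟨_, hv⟩ = δ
    rw [← h, inv_mul_cancel_right]

theorem prim_ne_zero {n : ℕ} (m : ℕ+) {v : Fin n → ℤ} (hv : IsPrim v) :
    (fun i => (m : ℤ) * v i) ≠ 0 := by
  intro h
  obtain ⟨u, hu⟩ := hv
  have hm : (m : ℤ) ≠ 0 := by
    have := m.pos
    positivity
  have h1 : ∀ i, v i = 0 := by
    intro i
    have h2 : (m : ℤ) * v i = 0 := congrFun h i
    exact (mul_eq_zero.1 h2).resolve_left hm
  rw [Finset.sum_eq_zero fun i _ => by rw [h1 i, mul_zero]] at hu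
  exact zero_ne_one hu

theorem WPrm_dvd {n : ℕ} {a b : ℤ} {v w : Fin n → ℤ} (hv : IsPrim v)
    (h : ∀ i, a * v i = b * w i) : b ∣ a := by
  obtain ⟨u, hu⟩ := hv
  refine ⟨∑ i, u i * w i, ?_⟩
  calc a = a * ∑ i, u i * v i := by rw [hu, mul_one]
    _ = ∑ i, u i * (a * v i) := by
      rw [Finset.mul_sum]
      exact Finset.sum_congr rfl fun i _ => by ring
    _ = ∑ i, u i * (b * w i) := Finset.sum_congr rfl fun i _ => by rw [h i]
    _ = b * ∑ i, u i * w i := by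
      rw [Finset.mul_sum]
      exact Finset.sum_congr rfl fun i _ => by ring

theorem prim_decomp {n : ℕ} : Function.Bijective
    fun q : ℕ+ × {v : Fin n → ℤ // IsPrim v} =>
      (⟨fun i => (q.1 : ℤ) * q.2.1 i, prim_ne_zero q.1 q.2.2⟩ : {w : Fin n → ℤ // w ≠ 0}) := by
  constructor
  · rintro ⟨m, v⟩ ⟨m', v'⟩ h
    have h1 : ∀ i, (m : ℤ) * v.1 i = (m' : ℤ) * v'.1 i := fun i =>
      congrFun (congrArg Subtype.val h) i
    have h2 : (m' : ℤ) ∣ m := WPrm_dvd v.2 h1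
    have h3 : (m : ℤ) ∣ m' := WPrm_dvd v'.2 fun i => (h1 i).symm
    have h4 : m = m' := by
      have h5 : (m : ℕ) ∣ m' := by exact_mod_cast h3
      have h6 : (m' : ℕ) ∣ m := by exact_mod_cast h2
      exact PNat.eq (Nat.dvd_antisymm h5 h6)
    subst h4
    have hm : (m : ℤ) ≠ 0 := by
      have := m.pos
      positivity
    have h5 : v = v' := Subtype.ext (funext fun i => mul_left_cancel₀ hm (h1 i))
    rw [h5]
  · rintro ⟨w, hw⟩
    obtain ⟨d, v, hd, hv, h⟩ := WPrm_gcd hw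
    refine ⟨(⟨d.toNat, by omega⟩, ⟨v, hv⟩), Subtype.ext (funext fun i => ?_)⟩
    show ((d.toNat : ℕ) : ℤ) * v i = w i
    rw [h i, Int.toNat_of_nonneg hd.le]

end Pool.Agent.GL74
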