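import Pool.Agent.W_7742x_h74.WPro
import Pool.Agent.W_7742x_h74.WPrm
import Pool.Agent.W_7742x_h74.WAbs

/-! # Sums over integral vectors as sums over orbits

`sum_orbits` (`n = s + 2`): nonzero `w` are the `m v`, `m ≥ 1`, `v` primitive (`prim_decomp`), and
`G (m v) h = G (rw' (E m) (rowOf v)) h = G (E m) (sl (rowOf v) h)` (a.e.), so by `unfold_prim`
`∫ ω(h) ∑_{w ≠ 0} G w h = ∑_{m ≥ 1} ∫ wP ω1(h) G (E m) h`; here `G (E m)` is invariant under
`pm ℓ γ` because `rw' (E m) (pm ℓ γ) = E m`.  Moreover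
`∫ wP ω1 G (E (-m)) = ∫ wP ω1 G (E m)`: with `G' w = G (-w)` the left hand side of the formula is
the same for each `m` separately (apply `unfold_prim` to `G (E m)` and to `G (E (-m))` and
substitute `v ↦ -v` in the sum over primitive `v`).  So the sum over all `m ∈ ℤ` is twice the sum
over `m ≥ 1` (`G 0 = 0` almost everywhere).

`sum_orbits_one` (`n = 1`): a weight on `X 1` is `1` almost everywhere, `E 1` is a bijection
`ℤ ≃ (Fin 1 → ℤ)` and `wP ω0 = ω0 = 1` on `X 1` almost everywhere for a weight `ω0` on `X 0`. -/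

set_option autoImplicit false

noncomputable section

namespace Pool.Agent.GL74

open MeasureTheory
open scoped ENNReal MatrixGroups

theorem rw_E {s : ℕ} (m : ℤ) (γ : SL(s + 1, ℤ)) :
    rw' (E (s + 1) m) γ = fun j => m * γ.1 0 j := by
  funext j
  unfold rw' E
  rw [Fin.sum_univ_succ]
  simp

theorem rw_E_pm {s : ℕ} (m : ℤ) (ℓ : Fin s → ℤ) (γ : SL(s, ℤ)) :
    rw' (E (s + 1) m) (pm ℓ γ) = E (s + 1) m := by
  rw [rw_E]
  funext j
  have h : (pm ℓ γ).1 0 j = if (j : ℕ) = 0 then 1 else 0 := by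
    show pmM ℓ γ 0 j = _
    unfold pmM
    rw [Matrix.of_apply, Fin.cons_zero]
    refine Fin.cases ?_ (fun i => ?_) j
    · simp
    · simp
  rw [h]
  unfold E
  split <;> simp

/-- Negation of primitive vectors. -/
def negPrim {n : ℕ} : {v : Fin n → ℤ // IsPrim v} ≃ {v : Fin n → ℤ // IsPrim v} where
  toFun v := ⟨fun i => -v.1 i, by
    obtain ⟨u, hu⟩ := v.2
    exact ⟨fun i => -u i, by simpa using hu⟩⟩
  invFun v := ⟨fun i => -v.1 i, by
    obtain ⟨u, hu⟩ := v.2
    exact ⟨fun i => -u i, by simpa using hu⟩⟩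
  left_inv v := by
    apply Subtype.ext
    funext i
    simp
  right_inv v := by
    apply Subtype.ext
    funext i
    simp

instance countablePrim {n : ℕ} : Countable {v : Fin n → ℤ // IsPrim v} := inferInstance

/-- The integral for one `m`. -/
theorem orb_m {s : ℕ} {ω : X (s + 2) → ℝ≥0∞} (hω : IsWt ω) {ω1 : X (s + 1) → ℝ≥0∞}
    (hω1 : IsWt ω1) (G : (Fin (s + 2) → ℤ) → X (s + 2) → ℝ≥0∞) (hG : ∀ w, Measurable (G w))
    (hγ : ∀ w γ, ∀ᵐ h, G w (sl γ h) = G (rw' w γ) h) (m : ℤ) :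
    ∫⁻ h, wP ω1 h * G (E (s + 2) m) h =
      ∫⁻ h, ω h * ∑' v : {v : Fin (s + 2) → ℤ // IsPrim v}, G (fun j => m * v.1 j) h := by
  rw [unfold_prim hω hω1 (hG (E (s + 2) m))]
  · apply lintegral_congr_ae
    have h1 : ∀ v : {v : Fin (s + 2) → ℤ // IsPrim v}, ∀ᵐ h,
        G (E (s + 2) m) (sl (rowOf v) h) = G (fun j => m * v.1 j) h := by
      intro v
      have h2 := hγ (E (s + 2) m) (rowOf v)
      rw [rw_E] at h2
      have h3 : (fun j => m * (rowOf v).1 0 j) = fun j => m * v.1 j := by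
        funext j
        rw [rowOf_spec]
      rw [h3] at h2
      exact h2
    filter_upwards [ae_all_iff.2 h1] with h hh
    congr 1
    exact tsum_congr fun v => hh v
  · intro ℓ γ
    have h2 := hγ (E (s + 2) m) (pm ℓ γ)
    rw [rw_E_pm] at h2
    exact h2

theorem sum_orbits {s : ℕ} {ω : X (s + 2) → ℝ≥0∞} (hω : IsWt ω) {ω1 : X (s + 1) → ℝ≥0∞}
    (hω1 : IsWt ω1) (G : (Fin (s + 2) → ℤ) → X (s + 2) → ℝ≥0∞) (hG : ∀ w, Measurable (G w))
    (hγ : ∀ w γ, ∀ᵐ h, G w (sl γ h) = G (rw' w γ) h) (h0 : ∀ᵐ h, G 0 h = 0) :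
    ∫⁻ h, ω h * ∑' w, G w h = 2⁻¹ * ∑' m : ℤ, ∫⁻ h, wP ω1 h * G (E (s + 2) m) h := by
  have horb := orb_m hω hω1 G hG hγ
  -- the left hand side
  have e1 : ∫⁻ h, ω h * ∑' w, G w h = ∫⁻ h, ∑' m : ℕ+, ω h *
      ∑' v : {v : Fin (s + 2) → ℤ // IsPrim v}, G (fun j => (m : ℤ) * v.1 j) h := by
    apply lintegral_congr_ae
    filter_upwards [h0] with h hh
    rw [ENNReal.tsum_mul_left]
    congr 1
    have a1 : ∑' w : {w : Fin (s + 2) → ℤ // w ≠ 0}, G w.1 h = ∑' w, G w h := by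
      refine tsum_subtype_eq_of_support_subset (f := fun w => G w h)
        (s := {w : Fin (s + 2) → ℤ | w ≠ 0}) ?_
      intro w hw
      rw [Function.mem_support] at hw
      intro hw0
      rw [hw0] at hw
      exact hw hh
    rw [← a1, ← (Equiv.ofBijective _ (prim_decomp (n := s + 2))).tsum_eq, ENNReal.tsum_prod']
    rfl
  have e2 : ∫⁻ h, ∑' m : ℕ+, ω h *
      ∑' v : {v : Fin (s + 2) → ℤ // IsPrim v}, G (fun j => (m : ℤ) * v.1 j) h =
      ∑' m : ℕ+, ∫⁻ h, wP ω1 h * G (E (s + 2) (m : ℤ)) h := by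
    rw [lintegral_tsum]
    · apply tsum_congr
      intro m
      rw [horb]
    · intro m
      exact (hω.meas.mul (Measurable.tsum fun v => hG _)).aemeasurable
  set A : ℤ → ℝ≥0∞ := fun m => ∫⁻ h, wP ω1 h * G (E (s + 2) m) h with hA
  have hneg : ∀ m, A (-m) = A m := by
    intro m
    simp only [hA]
    rw [horb, horb]
    apply lintegral_congr
    intro h
    congr 1
    rw [← negPrim.tsum_eq]
    apply tsum_congr
    intro v
    congr 1
    funext j
    show -m * -v.1 j = m * v.1 j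
    ring
  have hzero : A 0 = 0 := by
    simp only [hA]
    have : E (s + 2) 0 = 0 := by
      funext i
      simp [E]
    rw [this, lintegral_eq_zero_iff' ]
    · filter_upwards [h0] with h hh
      simp [hh]
    · exact ((measurable_wP hω1.meas).mul (hG 0)).aemeasurable
  have hpn : ∑' m : ℕ+, A (m : ℤ) = ∑' n : ℕ, A ((n : ℤ) + 1) := by
    rw [← Equiv.pnatEquivNat.symm.tsum_eq]
    apply tsum_congr
    intro n
    congr 1
  have hZ : ∑' m : ℤ, A m = 2 * ∑' n : ℕ, A ((n : ℤ) + 1) := by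
    rw [tsum_of_add_one_of_neg_add_one ENNReal.summable ENNReal.summable, hzero, add_zero, two_mul]
    congr 1
    apply tsum_congr
    intro n
    exact hneg _
  rw [e1, e2]
  change ∑' m : ℕ+, A (m : ℤ) = 2⁻¹ * ∑' m : ℤ, A m
  rw [hpn, hZ, ← mul_assoc, ENNReal.inv_mul_cancel (by norm_num) (by norm_num), one_mul]

theorem wt_zero {ω0 : X 0 → ℝ≥0∞} (hω0 : IsWt ω0) (g : X 0) : ω0 g = 1 := by
  have h := hω0.sum
  have h1 : ∀ᶠ g : X 0 in ae volume, ω0 g = 1 := by
    filter_upwards [h] with g hg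
    have hs : Subsingleton SL(0, ℤ) := inferInstance
    rw [tsum_eq_single (1 : SL(0, ℤ)) (fun γ hγ => absurd (Subsingleton.elim γ 1) hγ), sl_one] at hg
    exact hg
  obtain ⟨g', hg'⟩ := h1.exists
  rw [Subsingleton.elim g g']
  exact hg'

theorem sum_orbits_one {ω : X 1 → ℝ≥0∞} (hω : IsWt ω) {ω0 : X 0 → ℝ≥0∞}
    (hω0 : IsWt ω0) (G : (Fin 1 → ℤ) → X 1 → ℝ≥0∞) (hG : ∀ w, Measurable (G w)) :
    ∫⁻ h, ω h * ∑' w, G w h = ∑' m : ℤ, ∫⁻ h, wP ω0 h * G (E 1 m) h := by
  have hw : ∀ h : X 1, wP ω0 h = 1 := by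
    intro h
    unfold wP
    rw [if_pos fun i => i.elim0]
    exact wt_zero hω0 _
  have h1 : ∀ᵐ g : X 1, ω g = 1 := by
    filter_upwards [hω.sum] with g hg
    have hs : Subsingleton SL(1, ℤ) := inferInstance
    rw [tsum_eq_single (1 : SL(1, ℤ)) (fun γ hγ => absurd (Subsingleton.elim γ 1) hγ), sl_one] at hg
    exact hg
  have e1 : ∫⁻ h, ω h * ∑' w, G w h = ∫⁻ h, ∑' w, G w h := by
    apply lintegral_congr_ae
    filter_upwards [h1] with h hh
    rw [hh, one_mul]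
  rw [e1, lintegral_tsum fun w => (hG w).aemeasurable]
  have hE : Function.Bijective (E 1) := by
    constructor
    · intro a b hab
      have := congrFun hab 0
      simpa [E] using this
    · intro w
      refine ⟨w 0, ?_⟩
      funext i
      rw [Subsingleton.elim i 0]
      simp [E]
  rw [← (Equiv.ofBijective _ hE).tsum_eq]
  apply tsum_congr
  intro m
  apply lintegral_congr
  intro h
  rw [hw, one_mul]
  rfl

end Pool.Agent.GL74
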