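import Pool.Agent.W_7742x_h74.XGlu

/-! # Minkowski's theorem

* `minkowski`: the lattice spanned by the rows of `g` has covolume `|dt g|`, the cube
  `|x_j| ≤ 2 D`, `D = |dt g|^{1/n}`, contains the open cube `|x_j| < 2 D` of volume
  `(4 D)^n = 4^n |dt g| > 2^n |dt g|`.  Minkowski's convex body theorem
  (`MeasureTheory.exists_ne_zero_mem_lattice_of_measure_mul_two_pow_lt_measure`, for the lattice
  `ℤ^n` and the preimage of the cube under `x ↦ x g`, a convex symmetric set of volume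
  `(4 D)^n / |dt g| > 2^n`) gives a nonzero `w ∈ ℤ^n` with `|(w g)_j| ≤ 2 D`; divide `w` by the gcd
  of its entries.
* `finite_short`: `v = (v g) g⁻¹` is bounded. -/

set_option autoImplicit false

noncomputable section

namespace Pool.Agent.GL74

theorem WMin_prim {n : ℕ} {v : Fin n → ℤ} (hv : v ≠ 0) :
    ∃ (d : ℤ) (w : Fin n → ℤ), d ≠ 0 ∧ IsPrim w ∧ ∀ i, v i = d * w i := by
  obtain ⟨d, hd⟩ := (IsPrincipalIdealRing.principal (Ideal.span (Set.range v))).principal
  have h1 : ∀ i, d ∣ v i := by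
    intro i
    have h2 : v i ∈ Ideal.span (Set.range v) := Ideal.subset_span ⟨i, rfl⟩
    rw [hd] at h2
    exact Ideal.mem_span_singleton.1 h2
  choose w hw using h1
  have hd0 : d ≠ 0 := by
    rintro rfl
    apply hv
    funext i
    rw [hw i, zero_mul]
    rfl
  have h3 : d ∈ Ideal.span (Set.range v) := by
    rw [hd]
    exact Ideal.mem_span_singleton_self d
  obtain ⟨u, hu⟩ := (Submodule.mem_span_range_iff_exists_fun ℤ).1 h3
  refine ⟨d, w, hd0, ⟨u, ?_⟩, hw⟩
  have h4 : d * ∑ i, u i * w i = d * 1 := by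
    rw [mul_one]
    conv_rhs => rw [← hu]
    rw [Finset.mul_sum]
    refine Finset.sum_congr rfl fun i _ => ?_
    rw [smul_eq_mul, hw i]
    ring
  exact mul_left_cancel₀ hd0 h4

theorem WMin_inv {n : ℕ} {g : X n} (hg : dt g ≠ 0) (v : Fin n → ℝ) (i : Fin n) :
    v i = ∑ j, rv v g j * (Matrix.of g)⁻¹ j i := by
  have h : Matrix.vecMul (Matrix.vecMul v (Matrix.of g)) (Matrix.of g)⁻¹ = v := by
    rw [Matrix.vecMul_vecMul, Matrix.mul_nonsing_inv _ (isUnit_iff_ne_zero.2 hg),
      Matrix.vecMul_one]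
  exact (congrFun h i).symm

theorem minkowski {n : ℕ} (hn : 0 < n) {g : X n} (hg : dt g ≠ 0) :
    ∃ v : Fin n → ℤ, IsPrim v ∧ ∀ j, |rv (zr v) g j| ≤ 2 * |dt g| ^ (1 / (n : ℝ)) := by
  have : Nonempty (Fin n) := ⟨⟨0, hn⟩⟩
  set D := |dt g| ^ (1 / (n : ℝ)) with hD
  have hdt : 0 < |dt g| := abs_pos.2 hg
  have hD0 : 0 < D := Real.rpow_pos_of_pos hdt _
  have hDn : D ^ n = |dt g| := by
    rw [hD, ← Real.rpow_natCast, ← Real.rpow_mul hdt.le, one_div,
      inv_mul_cancel₀ (by exact_mod_cast hn.ne'), Real.rpow_one]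
  have hli : LinearIndependent ℝ (Matrix.of g).row :=
    Matrix.linearIndependent_rows_iff_isUnit.2
      ((Matrix.isUnit_iff_isUnit_det _).2 (isUnit_iff_ne_zero.2 hg))
  let b := basisOfLinearIndependentOfCardEqFinrank hli (by simp)
  have hb : ∀ i j, b i j = g i j := by
    intro i j
    have h1 : (b : Fin n → Fin n → ℝ) = (Matrix.of g).row :=
      coe_basisOfLinearIndependentOfCardEqFinrank _ _
    rw [h1]
    rfl
  have hvol : MeasureTheory.volume (ZSpan.fundamentalDomain b) = ENNReal.ofReal |dt g| := by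
    rw [ZSpan.volume_fundamentalDomain]
    have h1 : Matrix.of (b : Fin n → Fin n → ℝ) = Matrix.of g := by
      ext i j
      exact hb i j
    rw [h1]
    rfl
  have hfund := ZSpan.isAddFundamentalDomain' b (MeasureTheory.volume : MeasureTheory.Measure (Fin n → ℝ))
  have : Countable (Submodule.span ℤ (Set.range b)).toAddSubgroup :=
    inferInstanceAs (Countable (Submodule.span ℤ (Set.range b)))
  obtain ⟨x, hx0, hx⟩ := MeasureTheory.exists_ne_zero_mem_lattice_of_measure_mul_two_pow_lt_measure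
    (s := Metric.closedBall (0 : Fin n → ℝ) (2 * D)) hfund
    (fun x hx => by simpa using hx) (convex_closedBall _ _) (by
      rw [hvol, Real.volume_pi_closedBall _ (by positivity), Module.finrank_fin_fun,
        Fintype.card_fin]
      have h1 : (2 : ENNReal) ^ n = ENNReal.ofReal (2 ^ n) := by
        rw [ENNReal.ofReal_pow (by norm_num)]
        norm_num
      rw [h1, ← ENNReal.ofReal_mul hdt.le]
      apply (ENNReal.ofReal_lt_ofReal_iff (by positivity)).2
      have h2 : (2 * (2 * D)) ^ n = |dt g| * (2 ^ n * 2 ^ n) := by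
        rw [mul_pow, mul_pow, hDn]
        ring
      rw [h2]
      have h3 : (1 : ℝ) < 2 ^ n := one_lt_pow₀ (by norm_num) hn.ne'
      have h4 : (0 : ℝ) < 2 ^ n := by positivity
      have h5 : (2 : ℝ) ^ n < 2 ^ n * 2 ^ n := by nlinarith
      exact mul_lt_mul_of_pos_left h5 hdt)
  obtain ⟨v, hv⟩ := (Submodule.mem_span_range_iff_exists_fun ℤ).1 x.2
  have hxj : ∀ j, rv (zr v) g j = (x : Fin n → ℝ) j := by
    intro j
    rw [← hv, Finset.sum_apply]
    refine Finset.sum_congr rfl fun i _ => ?_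
    rw [Pi.smul_apply, hb, zsmul_eq_mul]
    rfl
  have hv0 : v ≠ 0 := by
    rintro rfl
    apply hx0
    apply Subtype.ext
    rw [← hv]
    simp
  obtain ⟨d, w, hd, hw, hvw⟩ := WMin_prim hv0
  refine ⟨w, hw, fun j => ?_⟩
  have h1 : rv (zr v) g j = d * rv (zr w) g j := by
    unfold rv zr
    rw [Finset.mul_sum]
    refine Finset.sum_congr rfl fun i _ => ?_
    rw [hvw i]
    push_cast
    ring
  have h2 : |(x : Fin n → ℝ) j| ≤ 2 * D := by
    have h3 := norm_le_pi_norm (x : Fin n → ℝ) j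
    rw [Metric.mem_closedBall, dist_zero_right] at hx
    exact h3.trans hx
  rw [← hxj j, h1, abs_mul] at h2
  have h3 : (1 : ℝ) ≤ |(d : ℝ)| := by
    have := Int.one_le_abs hd
    exact_mod_cast this
  have h4 := abs_nonneg (rv (zr w) g j)
  nlinarith

theorem finite_short {n : ℕ} {g : X n} (hg : dt g ≠ 0) (R : ℝ) :
    {v : Fin n → ℤ | ∀ j, |rv (zr v) g j| ≤ R}.Finite := by
  set K : Fin n → ℤ := fun i => ⌈∑ j, R * |(Matrix.of g)⁻¹ j i|⌉ with hK
  refine (Set.finite_Icc (fun i => -K i) K).subset fun v hv => ?_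
  have h1 : ∀ i, |(v i : ℝ)| ≤ K i := by
    intro i
    have h2 : (v i : ℝ) = ∑ j, rv (zr v) g j * (Matrix.of g)⁻¹ j i := WMin_inv hg (zr v) i
    have h3 : |(v i : ℝ)| ≤ ∑ j, R * |(Matrix.of g)⁻¹ j i| := by
      rw [h2]
      refine (Finset.abs_sum_le_sum_abs _ _).trans (Finset.sum_le_sum fun j _ => ?_)
      rw [abs_mul]
      exact mul_le_mul_of_nonneg_right (hv j) (abs_nonneg _)
    exact h3.trans (Int.le_ceil _)
  rw [Set.mem_Icc]
  constructor
  · intro i
    have h2 := (abs_le.1 (h1 i)).1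
    have h3 : ((-K i : ℤ) : ℝ) ≤ v i := by
      push_cast
      exact h2
    exact_mod_cast h3
  · intro i
    have h2 := (abs_le.1 (h1 i)).2
    exact_mod_cast h2

end Pool.Agent.GL74
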