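import Pool.Agent.W_7742x_h74.XMea

/-! # The distribution of the determinant with respect to a weight

* `lintegral_wt_le`: substitute `g = β^{1/n} g'` (`lintegral_smul_X`, `dt_smul`): the Jacobian is
  `(β^{1/n})^{n²} = β^n`, `ω` is scale invariant.
* `lintegral_wt_dt`: the image of the measure `ω(g) dg` under `|dt g|` is a measure on `[0, ∞)`
  whose value on `[0, β]` is `β^n V`, `V = ∫_{|dt g| ≤ 1} ω`; the measure
  `n V x^{n-1} dx` on `(0, ∞)` has the same values (`MeasureTheory.Measure.ext_of_Iic` or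
  `ext_of_Icc`, finite on bounded intervals), so the two are equal; integrate `H`. -/

set_option autoImplicit false

noncomputable section

namespace Pool.Agent.GL74

open MeasureTheory
open scoped ENNReal

/-- The mass of a weight. -/
def mass {n : ℕ} (ω : X n → ℝ≥0∞) : ℝ≥0∞ := ∫⁻ g in {g : X n | |dt g| ≤ 1}, ω g

theorem lintegral_wt_le {n : ℕ} (hn : 0 < n) {ω : X n → ℝ≥0∞} (hω : IsWt ω) {β : ℝ}
    (hβ : 0 < β) :
    ∫⁻ g in {g : X n | |dt g| ≤ β}, ω g = ENNReal.ofReal (β ^ n) * mass ω := by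
  have hm : ∀ b : ℝ, MeasurableSet {g : X n | |dt g| ≤ b} := fun b =>
    measurableSet_le (_root_.continuous_abs.measurable.comp measurable_dt) measurable_const
  set t : ℝ := β ^ ((n : ℝ)⁻¹) with ht
  have ht0 : 0 < t := Real.rpow_pos_of_pos hβ _
  have htn : t ^ n = β := by
    rw [ht, Real.rpow_inv_natCast_pow hβ.le hn.ne']
  have h1 := lintegral_smul_X (n := n) ht0
    (F := fun g => Set.indicator {g : X n | |dt g| ≤ β} ω g) (hω.meas.indicator (hm β))
  have h2 : ∀ g : X n, Set.indicator {g : X n | |dt g| ≤ β} ω (t • g) =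
      Set.indicator {g : X n | |dt g| ≤ 1} ω g := by
    intro g
    have h3 : (t • g ∈ {g : X n | |dt g| ≤ β}) ↔ (g ∈ {g : X n | |dt g| ≤ 1}) := by
      show |dt (t • g)| ≤ β ↔ |dt g| ≤ 1
      rw [dt_smul, htn, abs_mul, abs_of_pos hβ]
      exact mul_le_iff_le_one_right hβ
    by_cases h4 : g ∈ {g : X n | |dt g| ≤ 1}
    · rw [Set.indicator_of_mem h4, Set.indicator_of_mem (h3.2 h4), hω.scale t ht0]
    · rw [Set.indicator_of_notMem h4, Set.indicator_of_notMem fun h5 => h4 (h3.1 h5)]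
  simp only [h2] at h1
  rw [lintegral_indicator (hm 1), lintegral_indicator (hm β)] at h1
  unfold mass
  rw [h1, ← mul_assoc, ← ENNReal.ofReal_mul (by positivity)]
  have h5 : β ^ n * t⁻¹ ^ (n * n) = 1 := by
    rw [pow_mul, ← mul_pow, inv_pow, htn, mul_inv_cancel₀ hβ.ne', one_pow]
  rw [h5, ENNReal.ofReal_one, one_mul]

/-- The integral of a power. -/
theorem WSca_pow {n : ℕ} (hn : 0 < n) {β : ℝ} (hβ : 0 < β) :
    (n : ℝ≥0∞) * ∫⁻ x in Set.Ioc (0 : ℝ) β, ENNReal.ofReal (x ^ (n - 1)) =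
      ENNReal.ofReal (β ^ n) := by
  have hi : IntegrableOn (fun x : ℝ => x ^ (n - 1)) (Set.Ioc 0 β) :=
    ((continuous_pow (n - 1)).integrableOn_Icc).mono_set Set.Ioc_subset_Icc_self
  rw [← ofReal_integral_eq_lintegral_ofReal hi ?_, ← intervalIntegral.integral_of_le hβ.le,
    integral_pow]
  · have h1 : n - 1 + 1 = n := Nat.sub_add_cancel hn
    have h2 : (((n - 1 : ℕ) : ℝ) + 1) = n := by exact_mod_cast h1
    rw [h1, h2, zero_pow hn.ne', sub_zero]
    have h3 : (n : ℝ≥0∞) = ENNReal.ofReal n := (ENNReal.ofReal_natCast n).symm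
    rw [h3, ← ENNReal.ofReal_mul (Nat.cast_nonneg n)]
    congr 1
    have : (n : ℝ) ≠ 0 := by exact_mod_cast hn.ne'
    field_simp
  · filter_upwards [ae_restrict_mem measurableSet_Ioc] with x hx
    exact pow_nonneg hx.1.le _

theorem lintegral_wt_dt {n : ℕ} (hn : 0 < n) {ω : X n → ℝ≥0∞} (hω : IsWt ω) {H : ℝ → ℝ≥0∞}
    (hH : Measurable H) :
    ∫⁻ g, ω g * H |dt g| =
      n * mass ω * ∫⁻ x in Set.Ioi (0 : ℝ), H x * ENNReal.ofReal (x ^ (n - 1)) := by
  have hd : Measurable fun g : X n => |dt g| := _root_.continuous_abs.measurable.comp measurable_dt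
  have hp : Measurable fun x : ℝ => ENNReal.ofReal (x ^ (n - 1)) :=
    (measurable_id.pow_const _).ennreal_ofReal
  set ν : Measure ℝ := Measure.map (fun g : X n => |dt g|) ((volume : Measure (X n)).withDensity ω)
    with hν
  set ρ : Measure ℝ := (n * mass ω) •
    (((volume : Measure ℝ).restrict (Set.Ioi 0)).withDensity fun x => ENNReal.ofReal (x ^ (n - 1)))
    with hρ
  have hνI : ∀ β : ℝ, ν (Set.Iic β) = ∫⁻ g in {g : X n | |dt g| ≤ β}, ω g := by
    intro β
    rw [hν, Measure.map_apply hd measurableSet_Iic]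
    exact withDensity_apply _ (measurableSet_le hd measurable_const)
  have hρI : ∀ β : ℝ, ρ (Set.Iic β) =
      (n * mass ω) * ∫⁻ x in Set.Ioc (0 : ℝ) β, ENNReal.ofReal (x ^ (n - 1)) := by
    intro β
    rw [hρ, Measure.smul_apply, smul_eq_mul, withDensity_apply _ measurableSet_Iic,
      Measure.restrict_restrict measurableSet_Iic, Set.inter_comm, Set.Ioi_inter_Iic]
  have heq : ∀ β : ℝ, ν (Set.Iic β) = ρ (Set.Iic β) := by
    intro β
    rcases lt_or_ge 0 β with hβ | hβ
    · rw [hνI, hρI, lintegral_wt_le hn hω hβ, mul_comm (n : ℝ≥0∞) (mass ω), mul_assoc,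
        WSca_pow hn hβ, mul_comm]
    · rw [hνI, hρI, Set.Ioc_eq_empty (not_lt.2 hβ)]
      simp only [Measure.restrict_empty, lintegral_zero_measure, mul_zero]
      have h0 : (volume : Measure (X n)) {g : X n | |dt g| ≤ β} = 0 := by
        have h1 := (ae_iff (p := fun g : X n => dt g ≠ 0)).1 ae_dt_ne_zero
        refine measure_mono_null ?_ h1
        intro g hg
        have hg' : |dt g| ≤ β := hg
        show ¬ dt g ≠ 0
        rw [not_not]
        exact abs_eq_zero.1 (le_antisymm (hg'.trans hβ) (abs_nonneg _))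
      rw [Measure.restrict_eq_zero.2 h0, lintegral_zero_measure]
  have hνρ : ν = ρ := by
    refine Measure.ext_of_generateFrom_of_iUnion (Set.range Set.Iic) (fun i : ℕ => Set.Iic (i : ℝ))
      ?_ isPiSystem_Iic ?_ (fun i => ⟨_, rfl⟩) ?_ ?_
    · rw [BorelSpace.measurable_eq (α := ℝ), borel_eq_generateFrom_Iic ℝ]
    · rw [Set.eq_univ_iff_forall]
      intro x
      obtain ⟨i, hi⟩ := exists_nat_ge x
      exact Set.mem_iUnion.2 ⟨i, hi⟩
    · intro i
      have h1 : ν (Set.Iic (i : ℝ)) ≤ ν (Set.Iic ((i : ℝ) + 1)) :=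
        measure_mono (Set.Iic_subset_Iic.2 (by linarith))
      refine ne_top_of_le_ne_top ?_ h1
      rw [hνI, lintegral_wt_le hn hω (by positivity)]
      exact ENNReal.mul_ne_top ENNReal.ofReal_ne_top hω.fin
    · rintro _ ⟨β, rfl⟩
      exact heq β
  calc ∫⁻ g, ω g * H |dt g| = ∫⁻ g, H |dt g| ∂((volume : Measure (X n)).withDensity ω) := by
        have h9 := lintegral_withDensity_eq_lintegral_mul (volume : Measure (X n)) hω.meas
          (hH.comp hd)
        exact h9.symm
    _ = ∫⁻ x, H x ∂ν := by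
        rw [hν, lintegral_map hH hd]
    _ = ∫⁻ x, H x ∂ρ := by rw [hνρ]
    _ = n * mass ω * ∫⁻ x in Set.Ioi (0 : ℝ), H x * ENNReal.ofReal (x ^ (n - 1)) := by
        rw [hρ, lintegral_smul_measure, lintegral_withDensity_eq_lintegral_mul _ hp hH, smul_eq_mul]
        congr 1
        apply lintegral_congr
        intro x
        simp only [Pi.mul_apply]
        rw [mul_comm]

end Pool.Agent.GL74
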