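import Pool.Agent.W_7742x_h74.WPro
import Pool.Agent.W_7742x_h74.WMin
import Pool.Agent.W_7742x_h74.WSca

/-! # Existence of weights

`exists_wt_succ`: let `n = s + 2`, `Ω` the set of the `g` with `dt g ≠ 0` and
`|g 0 j| ≤ 2 |dt g|^{1/n}` for all `j`, `N g` the number (in `[0, ∞]`) of the primitive `v` with
`|(v g)_j| ≤ 2 |dt g|^{1/n}` for all `j`; for `dt g ≠ 0`, `1 ≤ N g < ∞` (`minkowski`,
`finite_short`), and `N` is invariant under `SL_n (ℤ)` (`rv_sl`) and scaling.  Put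
`ω' = 1_Ω * wP ω / N`.
* sum: every element of `SL_n (ℤ)` is uniquely `pm q * rowOf v` (`bij_pm`), the first row of
  `pm q * rowOf v * g` is `v g`, so `∑_δ ω' (δ g) =
  (1/N g) ∑_v 1[v g short] ∑_q wP ω (pm q (rowOf v g)) = 1` for almost all `g` (`sum_wP` at
  `rowOf v g`, `measurePreserving_sl`).
* mass: `∫_{|dt g| ≤ 1} ω' ≤ ∫ wP ω(g) 1[|g 0 j| ≤ 2] 1[|dt g| ≤ 1] =
  ∫_{|v j| ≤ 2} |v 0|^{s+1} ∫_{|dt h| ≤ 1/|v 0|} ω(h) dh dv = ∫_{|v j| ≤ 2} mass ω dv < ∞`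
  (`lintegral_wP`, `dt_glue`, `lintegral_wt_le`).
`exists_wt`: `ω = 1` for `n = 0, 1` (`SL(0, ℤ)`, `SL(1, ℤ)` are trivial). -/

set_option autoImplicit false

noncomputable section

namespace Pool.Agent.GL74

open MeasureTheory
open scoped ENNReal MatrixGroups

/-- The entries of `r` are at most `2 |d|^{1/n}`. -/
def WExi_S (n : ℕ) (d : ℝ) (r : Fin n → ℝ) : Prop := ∀ j, |r j| ≤ 2 * |d| ^ (1 / (n : ℝ))

theorem WExi_S_smul {n : ℕ} (hn : 0 < n) {t : ℝ} (ht : 0 < t) (d : ℝ) (r : Fin n → ℝ) :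
    WExi_S n (t ^ n * d) (t • r) ↔ WExi_S n d r := by
  unfold WExi_S
  have h1 : |t ^ n * d| ^ (1 / (n : ℝ)) = t * |d| ^ (1 / (n : ℝ)) := by
    rw [abs_mul, abs_of_pos (pow_pos ht n), Real.mul_rpow (pow_pos ht n).le (abs_nonneg d),
      one_div, Real.pow_rpow_inv_natCast ht.le hn.ne']
  rw [h1]
  apply forall_congr'
  intro j
  rw [Pi.smul_apply, smul_eq_mul, abs_mul, abs_of_pos ht]
  have h2 : 2 * (t * |d| ^ (1 / (n : ℝ))) = t * (2 * |d| ^ (1 / (n : ℝ))) := by ring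
  rw [h2]
  exact mul_le_mul_iff_right₀ ht

theorem WExi_measurable_rv {n : ℕ} (v : Fin n → ℝ) (j : Fin n) :
    Measurable fun g : X n => rv v g j := by
  unfold rv
  fun_prop

theorem WExi_meas_S {n : ℕ} {f : X n → Fin n → ℝ} (hf : ∀ j, Measurable fun g => f g j) :
    MeasurableSet {g : X n | WExi_S n (dt g) (f g)} := by
  have h : {g : X n | WExi_S n (dt g) (f g)} =
      ⋂ j, {g : X n | |f g j| ≤ 2 * |dt g| ^ (1 / (n : ℝ))} := by
    ext g
    simp [WExi_S]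
  rw [h]
  refine MeasurableSet.iInter fun j => measurableSet_le ?_ ?_
  · have := (hf j).norm
    exact this
  · have h2 : Measurable fun g : X n => |dt g| := measurable_dt.norm
    exact (h2.pow_const _).const_mul 2

open Classical in
/-- The number of the primitive vectors `v` with `v g` short. -/
def WExi_N {n : ℕ} (g : X n) : ℝ≥0∞ :=
  ∑' v : {v : Fin n → ℤ // IsPrim v}, if WExi_S n (dt g) (rv (zr v.1) g) then 1 else 0

theorem WExi_meas_N {n : ℕ} : Measurable (WExi_N : X n → ℝ≥0∞) := by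
  classical
  unfold WExi_N
  refine Measurable.tsum fun v => ?_
  exact Measurable.ite (WExi_meas_S fun j => WExi_measurable_rv _ j) measurable_const
    measurable_const

theorem WExi_N_smul {n : ℕ} (hn : 0 < n) {t : ℝ} (ht : 0 < t) (g : X n) :
    WExi_N (t • g) = WExi_N g := by
  classical
  unfold WExi_N
  apply tsum_congr
  intro v
  have h1 : rv (zr v.1) (t • g) = t • rv (zr v.1) g := by
    funext j
    simp only [rv, Pi.smul_apply, smul_eq_mul, Finset.mul_sum]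
    exact Finset.sum_congr rfl fun k _ => by ring
  rw [h1, dt_smul]
  simp only [WExi_S_smul hn ht]

theorem WExi_rw {n : ℕ} (v : Fin n → ℤ) (γ : SL(n, ℤ)) : rw' v γ = Matrix.vecMul v γ.1 := by
  funext j
  simp [rw', Matrix.vecMul, dotProduct]

theorem WExi_rw_rw {n : ℕ} (v : Fin n → ℤ) (γ δ : SL(n, ℤ)) :
    rw' (rw' v γ) δ = rw' v (γ * δ) := by
  rw [WExi_rw, WExi_rw, WExi_rw, Matrix.vecMul_vecMul]
  rfl

theorem WExi_prim {n : ℕ} {v : Fin n → ℤ} (hv : IsPrim v) (γ : SL(n, ℤ)) :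
    IsPrim (rw' v γ) := by
  obtain ⟨u, hu⟩ := hv
  refine ⟨(γ⁻¹).1.mulVec u, ?_⟩
  have h1 : ∑ i, (γ⁻¹).1.mulVec u i * rw' v γ i = dotProduct (rw' v γ) ((γ⁻¹).1.mulVec u) := by
    rw [dotProduct_comm]
    rfl
  rw [h1, WExi_rw, ← Matrix.dotProduct_mulVec, Matrix.mulVec_mulVec]
  have h2 : γ.1 * (γ⁻¹).1 = 1 := by
    have h3 : (γ * γ⁻¹).1 = 1 := by rw [mul_inv_cancel]; rfl
    exact h3
  rw [h2, Matrix.one_mulVec, dotProduct_comm]
  exact hu

theorem WExi_rw_one {n : ℕ} (v : Fin n → ℤ) : rw' v (1 : SL(n, ℤ)) = v := by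
  rw [WExi_rw]
  exact Matrix.vecMul_one v

/-- Right multiplication on primitive vectors. -/
def WExi_eq {n : ℕ} (γ : SL(n, ℤ)) :
    {v : Fin n → ℤ // IsPrim v} ≃ {v : Fin n → ℤ // IsPrim v} where
  toFun v := ⟨rw' v.1 γ, WExi_prim v.2 γ⟩
  invFun v := ⟨rw' v.1 γ⁻¹, WExi_prim v.2 γ⁻¹⟩
  left_inv v := by
    apply Subtype.ext
    show rw' (rw' v.1 γ) γ⁻¹ = v.1
    rw [WExi_rw_rw, mul_inv_cancel, WExi_rw_one]
  right_inv v := by
    apply Subtype.ext
    show rw' (rw' v.1 γ⁻¹) γ = v.1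
    rw [WExi_rw_rw, inv_mul_cancel, WExi_rw_one]

theorem WExi_N_sl {n : ℕ} (γ : SL(n, ℤ)) (g : X n) : WExi_N (sl γ g) = WExi_N g := by
  classical
  unfold WExi_N
  rw [← (WExi_eq γ).tsum_eq
    (fun v : {v : Fin n → ℤ // IsPrim v} =>
      (if WExi_S n (dt g) (rv (zr v.1) g) then 1 else 0 : ℝ≥0∞))]
  apply tsum_congr
  intro v
  rw [dt_sl, rv_sl]
  rfl

theorem WExi_N_one {n : ℕ} (hn : 0 < n) {g : X n} (hg : dt g ≠ 0) : 1 ≤ WExi_N g := by
  classical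
  obtain ⟨v, hv, hj⟩ := minkowski hn hg
  unfold WExi_N
  refine le_trans ?_ (ENNReal.le_tsum (⟨v, hv⟩ : {v : Fin n → ℤ // IsPrim v}))
  have h : WExi_S n (dt g) (rv (zr v) g) := hj
  simp only [if_pos h, le_refl]

theorem WExi_N_top {n : ℕ} {g : X n} (hg : dt g ≠ 0) : WExi_N g ≠ ∞ := by
  classical
  have hT := finite_short hg (2 * |dt g| ^ (1 / (n : ℝ)))
  have hf : {v : {v : Fin n → ℤ // IsPrim v} | WExi_S n (dt g) (rv (zr v.1) g)}.Finite :=
    hT.preimage Subtype.val_injective.injOn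
  unfold WExi_N
  rw [tsum_eq_sum (s := hf.toFinset) (fun v hv => by
    rw [Set.Finite.mem_toFinset] at hv
    exact if_neg hv)]
  refine (ENNReal.sum_lt_top.2 fun v _ => ?_).ne
  split_ifs
  · exact ENNReal.one_lt_top
  · exact ENNReal.zero_lt_top

open Classical in
/-- The weight. -/
def WExi_w {s : ℕ} (ω : X (s + 1) → ℝ≥0∞) (g : X (s + 2)) : ℝ≥0∞ :=
  if dt g ≠ 0 ∧ WExi_S (s + 2) (dt g) (g 0) then wP ω g / WExi_N g else 0

theorem WExi_meas_w {s : ℕ} {ω : X (s + 1) → ℝ≥0∞} (hω : Measurable ω) :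
    Measurable (WExi_w ω) := by
  classical
  unfold WExi_w
  refine Measurable.ite ?_ ((measurable_wP hω).div WExi_meas_N) measurable_const
  refine MeasurableSet.inter ?_ ?_
  · exact (measurable_dt (measurableSet_singleton 0)).compl
  · refine WExi_meas_S (f := fun g => g 0) fun j => ?_
    fun_prop

theorem WExi_scale {s : ℕ} {ω : X (s + 1) → ℝ≥0∞} (hω : IsWt ω) {t : ℝ} (ht : 0 < t)
    (g : X (s + 2)) : WExi_w ω (t • g) = WExi_w ω g := by
  classical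
  unfold WExi_w
  have h1 : (dt (t • g) ≠ 0 ∧ WExi_S (s + 2) (dt (t • g)) ((t • g) 0)) ↔
      (dt g ≠ 0 ∧ WExi_S (s + 2) (dt g) (g 0)) := by
    rw [dt_smul]
    refine and_congr ?_ ?_
    · rw [mul_ne_zero_iff, and_iff_right (pow_ne_zero _ ht.ne')]
    · exact WExi_S_smul (by omega) ht _ _
  simp only [h1]
  rw [wP_smul hω.scale ht, WExi_N_smul (by omega) ht]

theorem WExi_pm_row {s : ℕ} (ℓ : Fin s → ℤ) (γ : SL(s, ℤ)) (δ : SL(s + 1, ℤ))
    (j : Fin (s + 1)) : (pm ℓ γ * δ).1 0 j = δ.1 0 j := by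
  have h1 : (pm ℓ γ * δ).1 0 j = ∑ k, pmM ℓ γ 0 k * δ.1 k j := by
    show ((pm ℓ γ).1 * δ.1) 0 j = _
    rw [Matrix.mul_apply]
    rfl
  rw [h1, Fin.sum_univ_succ]
  simp [pmM]

open Classical in
theorem WExi_w_pm {s : ℕ} (ω : X (s + 1) → ℝ≥0∞) {g : X (s + 2)} (hg : dt g ≠ 0)
    (v : {v : Fin (s + 2) → ℤ // IsPrim v}) (q : (Fin (s + 1) → ℤ) × SL(s + 1, ℤ)) :
    WExi_w ω (sl (pm q.1 q.2 * rowOf v) g) =
      (if WExi_S (s + 2) (dt g) (rv (zr v.1) g) then 1 else 0) *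
        (wP ω (sl (pm q.1 q.2) (sl (rowOf v) g)) * (WExi_N g)⁻¹) := by
  unfold WExi_w
  have h1 : sl (pm q.1 q.2 * rowOf v) g 0 = rv (zr v.1) g := by
    rw [sl_row_zero]
    congr 2
    funext j
    rw [WExi_pm_row, rowOf_spec]
  rw [h1, dt_sl, WExi_N_sl, ← sl_mul]
  by_cases h : WExi_S (s + 2) (dt g) (rv (zr v.1) g)
  · rw [if_pos ⟨hg, h⟩, if_pos h, one_mul, div_eq_mul_inv]
  · rw [if_neg (fun h2 => h h2.2), if_neg h, zero_mul]

theorem WExi_sum {s : ℕ} {ω : X (s + 1) → ℝ≥0∞} (hω : IsWt ω) :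
    ∀ᵐ g : X (s + 2), ∑' γ : SL(s + 2, ℤ), WExi_w ω (sl γ g) = 1 := by
  classical
  have h1 : ∀ v : {v : Fin (s + 2) → ℤ // IsPrim v}, ∀ᵐ g : X (s + 2),
      ∑' q : (Fin (s + 1) → ℤ) × SL(s + 1, ℤ), wP ω (sl (pm q.1 q.2) (sl (rowOf v) g)) = 1 :=
    fun v => (measurePreserving_sl (rowOf v)).quasiMeasurePreserving.ae (sum_wP hω)
  have h2 := ae_all_iff.2 h1
  filter_upwards [h2, ae_dt_ne_zero] with g hg hd
  have e1 : ∑' γ : SL(s + 2, ℤ), WExi_w ω (sl γ g) =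
      ∑' q : ((Fin (s + 1) → ℤ) × SL(s + 1, ℤ)) × {v : Fin (s + 2) → ℤ // IsPrim v},
        WExi_w ω (sl (pm q.1.1 q.1.2 * rowOf q.2) g) :=
    ((Equiv.ofBijective _ (bij_pm (s := s))).tsum_eq
      (fun γ : SL(s + 2, ℤ) => WExi_w ω (sl γ g))).symm
  rw [e1, ENNReal.tsum_prod', ENNReal.tsum_comm]
  have e2 : ∀ v : {v : Fin (s + 2) → ℤ // IsPrim v},
      ∑' q : (Fin (s + 1) → ℤ) × SL(s + 1, ℤ), WExi_w ω (sl (pm q.1 q.2 * rowOf v) g) =
        (if WExi_S (s + 2) (dt g) (rv (zr v.1) g) then 1 else 0) * (WExi_N g)⁻¹ := by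
    intro v
    rw [tsum_congr fun q => WExi_w_pm ω hd v q, ENNReal.tsum_mul_left, ENNReal.tsum_mul_right,
      hg v, one_mul]
  have e3 : ∑' (v : {v : Fin (s + 2) → ℤ // IsPrim v})
      (q : (Fin (s + 1) → ℤ) × SL(s + 1, ℤ)), WExi_w ω (sl (pm q.1 q.2 * rowOf v) g) =
      ∑' v : {v : Fin (s + 2) → ℤ // IsPrim v},
        (if WExi_S (s + 2) (dt g) (rv (zr v.1) g) then 1 else 0) * (WExi_N g)⁻¹ :=
    tsum_congr e2
  refine e3.trans ?_
  rw [ENNReal.tsum_mul_right]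
  refine ENNReal.mul_inv_cancel ?_ (WExi_N_top hd)
  have h3 := WExi_N_one (by omega) hd
  intro h0
  unfold WExi_N at h3
  rw [h0] at h3
  exact absurd h3 (by norm_num)

/-- The indicator of the bounded part. -/
def WExi_F {s : ℕ} (g : X (s + 2)) : ℝ≥0∞ :=
  Set.indicator {g : X (s + 2) | |dt g| ≤ 1 ∧ ∀ j, |g 0 j| ≤ 2} 1 g

theorem WExi_meas_F {s : ℕ} : Measurable (WExi_F : X (s + 2) → ℝ≥0∞) := by
  unfold WExi_F
  refine measurable_one.indicator ?_
  refine MeasurableSet.inter ?_ ?_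
  · exact measurableSet_le measurable_dt.norm measurable_const
  · have h : {g : X (s + 2) | ∀ j, |g 0 j| ≤ 2} = ⋂ j, {g : X (s + 2) | |g 0 j| ≤ 2} := by
      ext g
      simp
    have h2 : MeasurableSet {g : X (s + 2) | ∀ j, |g 0 j| ≤ 2} := by
      rw [h]
      refine MeasurableSet.iInter fun j => measurableSet_le ?_ measurable_const
      have h3 : Measurable fun g : X (s + 2) => g 0 j := by fun_prop
      exact h3.norm
    exact h2

theorem WExi_le {s : ℕ} (ω : X (s + 1) → ℝ≥0∞) {g : X (s + 2)} (hg : |dt g| ≤ 1) :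
    WExi_w ω g ≤ wP ω g * WExi_F g := by
  classical
  unfold WExi_w
  split_ifs with h
  · have h1 : WExi_F g = 1 := by
      unfold WExi_F
      rw [Set.indicator_of_mem]
      · rfl
      · refine ⟨hg, fun j => (h.2 j).trans ?_⟩
        have h2 : |dt g| ^ (1 / ((s + 2 : ℕ) : ℝ)) ≤ 1 :=
          Real.rpow_le_one (abs_nonneg _) hg (by positivity)
        linarith
    rw [h1, mul_one]
    refine ENNReal.div_le_of_le_mul ?_
    have h3 := WExi_N_one (by omega) h.1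
    calc wP ω g = wP ω g * 1 := (mul_one _).symm
      _ ≤ wP ω g * WExi_N g := by gcongr
  · exact zero_le

theorem WExi_inner {s : ℕ} {ω : X (s + 1) → ℝ≥0∞} (hω : IsWt ω) {v : Fin (s + 2) → ℝ}
    (hv : v 0 ≠ 0) :
    ENNReal.ofReal (|v 0| ^ (s + 1)) * ∫⁻ h : X (s + 1), ω h *
      ∫⁻ θ in Set.Icc (0 : Fin (s + 1) → ℝ) 1, WExi_F (glue h (v 0 • θ) v) ≤
        Set.indicator {v : Fin (s + 2) → ℝ | ∀ j, |v j| ≤ 2} (fun _ => mass ω) v := by
  classical
  have h1 : ∀ (h : X (s + 1)) (θ : Fin (s + 1) → ℝ), WExi_F (glue h (v 0 • θ) v) =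
      Set.indicator {h : X (s + 1) | |v 0 * dt h| ≤ 1 ∧ ∀ j, |v j| ≤ 2} 1 h := by
    intro h θ
    unfold WExi_F
    simp only [Set.indicator, Set.mem_ofPred_eq, dt_glue _ _ hv, glue_row, Pi.one_apply]
  have h2 : ∀ h : X (s + 1), ∫⁻ θ in Set.Icc (0 : Fin (s + 1) → ℝ) 1,
      WExi_F (glue h (v 0 • θ) v) =
        Set.indicator {h : X (s + 1) | |v 0 * dt h| ≤ 1 ∧ ∀ j, |v j| ≤ 2} 1 h := by
    intro h
    simp only [h1]
    rw [setLIntegral_const, Real.volume_Icc_pi]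
    simp
  simp only [h2]
  by_cases hb : ∀ j, |v j| ≤ 2
  · rw [Set.indicator_of_mem (by exact hb)]
    have h3 : ∫⁻ h : X (s + 1), ω h *
        Set.indicator {h : X (s + 1) | |v 0 * dt h| ≤ 1 ∧ ∀ j, |v j| ≤ 2} 1 h =
          ∫⁻ h in {h : X (s + 1) | |dt h| ≤ |v 0|⁻¹}, ω h := by
      rw [← lintegral_indicator (by
        exact measurableSet_le measurable_dt.norm measurable_const)]
      apply lintegral_congr
      intro h
      have h4 : h ∈ {h : X (s + 1) | |v 0 * dt h| ≤ 1 ∧ ∀ j, |v j| ≤ 2} ↔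
          h ∈ {h : X (s + 1) | |dt h| ≤ |v 0|⁻¹} := by
        refine (and_iff_left hb).trans ?_
        show |v 0 * dt h| ≤ 1 ↔ |dt h| ≤ |v 0|⁻¹
        rw [abs_mul, inv_eq_one_div, le_div_iff₀ (abs_pos.2 hv), mul_comm]
      by_cases h5 : h ∈ {h : X (s + 1) | |dt h| ≤ |v 0|⁻¹}
      · rw [Set.indicator_of_mem (h4.2 h5), Set.indicator_of_mem h5, Pi.one_apply, mul_one]
      · rw [Set.indicator_of_notMem (fun h6 => h5 (h4.1 h6)), Set.indicator_of_notMem h5,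
          mul_zero]
    rw [h3, lintegral_wt_le (by omega) hω (inv_pos.2 (abs_pos.2 hv)), ← mul_assoc,
      ← ENNReal.ofReal_mul (by positivity), ← mul_pow, mul_inv_cancel₀ (abs_ne_zero.2 hv), one_pow,
      ENNReal.ofReal_one, one_mul]
  · have h3 : ∀ h : X (s + 1),
        Set.indicator {h : X (s + 1) | |v 0 * dt h| ≤ 1 ∧ ∀ j, |v j| ≤ 2} (1 : X (s + 1) → ℝ≥0∞)
          h = 0 := by
      intro h
      rw [Set.indicator_of_notMem]
      exact fun h4 => hb h4.2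
    simp only [h3, mul_zero, lintegral_zero]
    exact zero_le

theorem WExi_fin {s : ℕ} {ω : X (s + 1) → ℝ≥0∞} (hω : IsWt ω) :
    ∫⁻ g in {g : X (s + 2) | |dt g| ≤ 1}, WExi_w ω g ≠ ∞ := by
  have hm : MeasurableSet {g : X (s + 2) | |dt g| ≤ 1} :=
    measurableSet_le measurable_dt.norm measurable_const
  have h1 : ∫⁻ g in {g : X (s + 2) | |dt g| ≤ 1}, WExi_w ω g ≤ ∫⁻ g, wP ω g * WExi_F g := by
    rw [← lintegral_indicator hm]
    apply lintegral_mono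
    intro g
    by_cases hg : g ∈ {g : X (s + 2) | |dt g| ≤ 1}
    · rw [Set.indicator_of_mem hg]
      exact WExi_le ω hg
    · rw [Set.indicator_of_notMem hg]
      exact zero_le
  have h2 := lintegral_wP hω.meas (WExi_meas_F (s := s))
  have h3 : ∫⁻ v : Fin (s + 2) → ℝ, ENNReal.ofReal (|v 0| ^ (s + 1)) *
      ∫⁻ h : X (s + 1), ω h * ∫⁻ θ in Set.Icc (0 : Fin (s + 1) → ℝ) 1,
        WExi_F (glue h (v 0 • θ) v) ≤
      ∫⁻ v : Fin (s + 2) → ℝ,
        Set.indicator {v : Fin (s + 2) → ℝ | ∀ j, |v j| ≤ 2} (fun _ => mass ω) v := by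
    apply lintegral_mono_ae
    filter_upwards [ae_ne_zero (s + 1)] with v hv
    exact WExi_inner hω hv
  have hb : MeasurableSet {v : Fin (s + 2) → ℝ | ∀ j, |v j| ≤ 2} := by
    have h : {v : Fin (s + 2) → ℝ | ∀ j, |v j| ≤ 2} = ⋂ j, {v : Fin (s + 2) → ℝ | |v j| ≤ 2} := by
      ext g
      simp
    rw [h]
    refine MeasurableSet.iInter fun j => measurableSet_le ?_ measurable_const
    exact (measurable_pi_apply j).norm
  have h4 : ∫⁻ v : Fin (s + 2) → ℝ,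
      Set.indicator {v : Fin (s + 2) → ℝ | ∀ j, |v j| ≤ 2} (fun _ => mass ω) v < ∞ := by
    rw [lintegral_indicator hb, setLIntegral_const]
    refine ENNReal.mul_lt_top (lt_top_iff_ne_top.2 hω.fin) ?_
    refine lt_of_le_of_lt (measure_mono (t := Metric.closedBall (0 : Fin (s + 2) → ℝ) 2) ?_)
      measure_closedBall_lt_top
    intro v hv
    rw [mem_closedBall_zero_iff, pi_norm_le_iff_of_nonneg (by norm_num)]
    exact fun j => hv j
  exact (lt_of_le_of_lt (h1.trans (h2.le.trans h3)) h4).ne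

theorem exists_wt_succ {s : ℕ} {ω : X (s + 1) → ℝ≥0∞} (hω : IsWt ω) :
    ∃ ω' : X (s + 2) → ℝ≥0∞, IsWt ω' :=
  ⟨WExi_w ω, WExi_meas_w hω.meas, fun _ ht g => WExi_scale hω ht g, WExi_sum hω, WExi_fin hω⟩

theorem exists_wt_zero : ∃ ω : X 0 → ℝ≥0∞, IsWt ω := by
  refine ⟨fun _ => 1, measurable_const, fun _ _ _ => rfl, ?_, ?_⟩
  · refine Filter.Eventually.of_forall fun g => ?_
    have h : ∀ γ : SL(0, ℤ), γ = 1 := fun γ => Subsingleton.elim _ _
    rw [tsum_eq_single 1 (fun b hb => absurd (h b) hb)]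
  · rw [setLIntegral_one]
    refine (lt_of_le_of_lt (measure_mono (Set.subset_univ _)) ?_).ne
    exact isCompact_univ.measure_lt_top

theorem exists_wt_one : ∃ ω : X 1 → ℝ≥0∞, IsWt ω := by
  refine ⟨fun _ => 1, measurable_const, fun _ _ _ => rfl, ?_, ?_⟩
  · refine Filter.Eventually.of_forall fun g => ?_
    have h : ∀ γ : SL(1, ℤ), γ = 1 := fun γ => Subsingleton.elim _ _
    rw [tsum_eq_single 1 (fun b hb => absurd (h b) hb)]
  · rw [setLIntegral_one]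
    refine (lt_of_le_of_lt (measure_mono (t := Metric.closedBall (0 : X 1) 1) ?_)
      measure_closedBall_lt_top).ne
    intro g hg
    rw [mem_closedBall_zero_iff, pi_norm_le_iff_of_nonneg (by norm_num)]
    intro i
    rw [pi_norm_le_iff_of_nonneg (by norm_num)]
    intro j
    have h1 : dt g = g i j := by
      unfold dt
      rw [Matrix.det_fin_one]
      fin_cases i
      fin_cases j
      rfl
    have h2 : |dt g| ≤ 1 := hg
    rw [h1] at h2
    exact h2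

theorem exists_wt (n : ℕ) : ∃ ω : X n → ℝ≥0∞, IsWt ω := by
  induction n with
  | zero => exact exists_wt_zero
  | succ k ih =>
    cases k with
    | zero => exact exists_wt_one
    | succ s =>
      obtain ⟨ω, hω⟩ := ih
      exact exists_wt_succ hω

/-- A weight for every `n`. -/
def wt (n : ℕ) : X n → ℝ≥0∞ := (exists_wt n).choose

theorem isWt_wt (n : ℕ) : IsWt (wt n) := (exists_wt n).choose_spec

end Pool.Agent.GL74
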