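import Pool.Agent.W_7742x_h74.FCoe
import Pool.Agent.W_7742x_h74.FOrb
import Pool.Agent.W_7742x_h74.WExi

/-! # The unfolding theorem

By induction on `s` (the size is `s + 1`), for all `φ` and all weight functions `θ`.

`s = 0`: `X 1`, `wP (ω 0) = 1` almost everywhere, `Wh 1 φ m t = φ t` (`coef` over the point
`Fin 0 → ℝ`, `glue h c v = v` up to the identification), `fl 1` is Lebesgue measure.

Step `s → s + 1` (size `s + 2`): by `lintegral_wP` and `dt_glue`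
`LHS = ∫_v |v 0|^{s+1} ∫_h ω (s+1) h * θ (v) (v 0 dt h) * ∫_θ ‖φ (glue h (v 0 θ) v)‖²
 = ∫_v |v 0|^{s+1} ∫_h ω (s+1) h * ∑_w ‖coef w φ v h‖² θ (v) (v 0 dt h)` (`parseval_coef`); for
fixed `v` with `v 0 ≠ 0` apply `sum_orbits` (or `sum_orbits_one` if `s + 1 = 1`) to
`G w h = ‖coef w φ v h‖² θ (v) (v 0 dt h)` (`coef_sl`, `dt_sl`, `G 0 = 0` by `Cusp`): the inner
integral is `κ' ∑_m ∫ wP (ω s) h * ‖coef (E (s+1) m) φ v h‖² θ (v) (v 0 dt h)`, and the induction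
hypothesis for `coef (E (s+1) m) φ v` (`isP_coef`, `Cusp`) and `θ' r d = θ v (v 0 d)` gives
`κ' κ_s ∑_m ∑_{m'} ∫ ‖Wh (s+1) (coef (E m) φ v) (ext m') t'‖² θ (v) (v 0 dt t') d fl (s+1)`.
With `t = glue t' 0 v` (`lr_glue_zero`, `glue_row`, `dt_glue`) and the definition of `fl (s+2)`,
`Wh (s+2)` this is the right hand side (`Fin.cons` decomposition of `m`; `ext (Fin.cons m m')` is
`m` at `0` and `ext m'` shifted). -/

set_option autoImplicit false

noncomputable section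

namespace Pool.Agent.GL74

open MeasureTheory
open scoped ENNReal MatrixGroups

/-- The constants. -/
def kap : ℕ → ℝ≥0∞
  | 0 => 1
  | 1 => 1
  | s + 2 => 2⁻¹ * kap (s + 1)

theorem kap_ne_zero (s : ℕ) : kap s ≠ 0 ∧ kap s ≠ ∞ := by
  induction s with
  | zero => exact ⟨one_ne_zero, ENNReal.one_ne_top⟩
  | succ s ih =>
    cases s with
    | zero => exact ⟨one_ne_zero, ENNReal.one_ne_top⟩
    | succ s =>
      show (2⁻¹ * kap (s + 1) ≠ 0) ∧ (2⁻¹ * kap (s + 1) ≠ ∞)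
      exact ⟨mul_ne_zero (by simp) ih.1, ENNReal.mul_ne_top (by simp) ih.2⟩

theorem FUnf_meas_Wh {s : ℕ} {φ : X s → ℂ} (hφ : Measurable φ) (m : ℕ → ℤ) :
    Measurable (Wh s φ m) := by
  have h := measurable_Wh (A := Unit) (φ := fun _ => φ) (hφ.comp measurable_snd) m
  exact h.comp (measurable_const (a := ()).prodMk measurable_id)

/-- The left hand side. -/
theorem FUnf_left {s : ℕ} (φ : X (s + 1) → ℂ) (hφ : IsP φ)
    (θ : (Fin (s + 1) → ℝ) → ℝ → ℝ≥0∞)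
    (hθ : Measurable fun q : (Fin (s + 1) → ℝ) × ℝ => θ q.1 q.2) :
    ∫⁻ g, wP (wt s) g * (‖φ g‖ₑ ^ 2 * θ (g 0) (dt g)) =
      ∫⁻ v : Fin (s + 1) → ℝ, ENNReal.ofReal (|v 0| ^ s) *
        ∫⁻ h : X s, wt s h * ∑' w : Fin s → ℤ, ‖coef w φ v h‖ₑ ^ 2 * θ v (v 0 * dt h) := by
  have hF : Measurable fun g : X (s + 1) => ‖φ g‖ₑ ^ 2 * θ (g 0) (dt g) := by
    refine (hφ.meas.enorm.pow_const 2).mul ?_
    exact hθ.comp ((measurable_pi_apply 0).prodMk measurable_dt)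
  rw [lintegral_wP (isWt_wt s).meas hF]
  apply lintegral_congr_ae
  filter_upwards [ae_ne_zero s] with v hv
  congr 1
  apply lintegral_congr
  intro h
  congr 1
  have h1 : ∀ θ' : Fin s → ℝ, ‖φ (glue h (v 0 • θ') v)‖ₑ ^ 2 *
      θ (glue h (v 0 • θ') v 0) (dt (glue h (v 0 • θ') v)) =
      ‖φ (glue h (v 0 • θ') v)‖ₑ ^ 2 * θ v (v 0 * dt h) := by
    intro θ'
    rw [dt_glue h _ hv, glue_row]
  have hm : Measurable fun θ' : Fin s → ℝ => ‖φ (glue h (v 0 • θ') v)‖ₑ ^ 2 := by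
    refine (hφ.meas.comp ?_).enorm.pow_const 2
    refine measurable_glue.comp (g := fun q : (X s × (Fin s → ℝ)) × (Fin (s + 1) → ℝ) =>
      glue q.1.1 q.1.2 q.2) (f := fun θ' : Fin s → ℝ => ((h, v 0 • θ'), v)) ?_
    fun_prop
  simp only [h1]
  rw [lintegral_mul_const _ hm, parseval_coef hφ hv h, ENNReal.tsum_mul_right]

/-- The factor of one step. -/
def FUnf_k : ℕ → ℝ≥0∞
  | 0 => 1
  | _ + 1 => 2⁻¹

theorem FUnf_kap (s : ℕ) : kap (s + 1) = FUnf_k s * kap s := by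
  cases s with
  | zero => exact (one_mul _).symm
  | succ s => rfl

/-- Sum over the orbits, for all sizes. -/
theorem FUnf_orb (s : ℕ) (G : (Fin (s + 1) → ℤ) → X (s + 1) → ℝ≥0∞) (hG : ∀ w, Measurable (G w))
    (hγ : ∀ w γ, ∀ᵐ h, G w (sl γ h) = G (rw' w γ) h) (h0 : ∀ᵐ h, G 0 h = 0) :
    ∫⁻ h, wt (s + 1) h * ∑' w, G w h =
      FUnf_k s * ∑' m : ℤ, ∫⁻ h, wP (wt s) h * G (E (s + 1) m) h := by
  cases s with
  | zero =>
    rw [sum_orbits_one (isWt_wt 1) (isWt_wt 0) G hG]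
    exact (one_mul _).symm
  | succ s => exact sum_orbits (isWt_wt (s + 2)) (isWt_wt (s + 1)) G hG hγ h0

/-- The right hand side. -/
theorem FUnf_right {s : ℕ} (φ : X (s + 2) → ℂ) (hφ : IsP φ)
    (θ : (Fin (s + 2) → ℝ) → ℝ → ℝ≥0∞)
    (hθ : Measurable fun q : (Fin (s + 2) → ℝ) × ℝ => θ q.1 q.2) (C : ℝ≥0∞) :
    C * ∑' m : Fin (s + 1) → ℤ,
        ∫⁻ t, ‖Wh (s + 2) φ (ext m) t‖ₑ ^ 2 * θ (t 0) (dt t) ∂(fl (s + 2)) =
      ∫⁻ v : Fin (s + 2) → ℝ, ENNReal.ofReal (|v 0| ^ (s + 1)) *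
        (C * ∑' m : ℤ, ∑' m' : Fin s → ℤ,
          ∫⁻ t, ‖Wh (s + 1) (coef (E (s + 1) m) φ v) (ext m') t‖ₑ ^ 2 *
            θ v (v 0 * dt t) ∂(fl (s + 1))) := by
  have hF : ∀ m : Fin (s + 1) → ℤ, Measurable fun t : X (s + 2) =>
      ‖Wh (s + 2) φ (ext m) t‖ₑ ^ 2 * θ (t 0) (dt t) := by
    intro m
    refine ((FUnf_meas_Wh hφ.meas (ext m)).enorm.pow_const 2).mul ?_
    exact hθ.comp ((measurable_pi_apply 0).prodMk measurable_dt)
  have h1 : ∀ m : Fin (s + 1) → ℤ,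
      ∫⁻ t, ‖Wh (s + 2) φ (ext m) t‖ₑ ^ 2 * θ (t 0) (dt t) ∂(fl (s + 2)) =
      ∫⁻ v : Fin (s + 2) → ℝ, ENNReal.ofReal (|v 0| ^ (s + 1)) *
        ∫⁻ t, (‖Wh (s + 2) φ (ext m) (glue t 0 v)‖ₑ ^ 2 *
          θ (glue t 0 v 0) (dt (glue t 0 v))) ∂(fl (s + 1)) := fun m => lintegral_fl_succ (hF m)
  have hd : Measurable fun v : Fin (s + 2) → ℝ => ENNReal.ofReal (|v 0| ^ (s + 1)) := by
    fun_prop
  have hM : ∀ m : Fin (s + 1) → ℤ, Measurable fun v : Fin (s + 2) → ℝ =>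
      ENNReal.ofReal (|v 0| ^ (s + 1)) *
        ∫⁻ t, (‖Wh (s + 2) φ (ext m) (glue t 0 v)‖ₑ ^ 2 *
          θ (glue t 0 v 0) (dt (glue t 0 v))) ∂(fl (s + 1)) := by
    intro m
    refine hd.mul ?_
    exact ((hF m).comp FUnf_meas_glue).lintegral_prod_right'
  have h2 : ∑' m : Fin (s + 1) → ℤ,
        ∫⁻ t, ‖Wh (s + 2) φ (ext m) t‖ₑ ^ 2 * θ (t 0) (dt t) ∂(fl (s + 2)) =
      ∫⁻ v : Fin (s + 2) → ℝ, ∑' m : Fin (s + 1) → ℤ, ENNReal.ofReal (|v 0| ^ (s + 1)) *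
        ∫⁻ t, (‖Wh (s + 2) φ (ext m) (glue t 0 v)‖ₑ ^ 2 *
          θ (glue t 0 v 0) (dt (glue t 0 v))) ∂(fl (s + 1)) := by
    rw [lintegral_tsum fun m => (hM m).aemeasurable]
    exact tsum_congr h1
  rw [h2, ← lintegral_const_mul _ (Measurable.tsum hM)]
  apply lintegral_congr_ae
  filter_upwards [ae_ne_zero (s + 1)] with v hv
  rw [ENNReal.tsum_mul_left, mul_left_comm]
  congr 2
  have h3 : ∀ (m : Fin (s + 1) → ℤ) (t : X (s + 1)),
      ‖Wh (s + 2) φ (ext m) (glue t 0 v)‖ₑ ^ 2 * θ (glue t 0 v 0) (dt (glue t 0 v)) =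
      ‖Wh (s + 1) (coef (E (s + 1) (m 0)) φ v) (ext fun i : Fin s => m i.succ) t‖ₑ ^ 2 *
        θ v (v 0 * dt t) := by
    intro m t
    have e1 : Wh (s + 2) φ (ext m) (glue t 0 v) =
        Wh (s + 1) (coef (E (s + 1) (ext m 0)) φ (glue t 0 v 0)) (fun i => ext m (i + 1))
          (lr (glue t 0 v)) := rfl
    have e2 : ext m 0 = m 0 := by
      unfold ext
      rw [dif_pos (Nat.succ_pos s)]
      rfl
    have e3 : (fun i => ext m (i + 1)) = ext fun i : Fin s => m i.succ := by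
      funext i
      unfold ext
      by_cases hi : i < s
      · rw [dif_pos (Nat.succ_lt_succ hi), dif_pos hi]
        rfl
      · rw [dif_neg (fun h => hi (Nat.lt_of_succ_lt_succ h)), dif_neg hi]
    rw [e1, e2, e3, lr_glue_zero, dt_glue t 0 hv, glue_row]
  simp only [h3]
  rw [← (Fin.consEquiv (fun _ : Fin (s + 1) => ℤ)).tsum_eq]
  exact ENNReal.tsum_prod (f := fun (m : ℤ) (m' : Fin s → ℤ) =>
    ∫⁻ t, ‖Wh (s + 1) (coef (E (s + 1) m) φ v) (ext m') t‖ₑ ^ 2 *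
      θ v (v 0 * dt t) ∂(fl (s + 1)))

/-- **The unfolding theorem.** -/
theorem unfold (s : ℕ) (φ : X (s + 1) → ℂ) (hφ : IsP φ) (hc : Cusp s φ)
    (θ : (Fin (s + 1) → ℝ) → ℝ → ℝ≥0∞)
    (hθ : Measurable fun q : (Fin (s + 1) → ℝ) × ℝ => θ q.1 q.2) :
    ∫⁻ g, wP (wt s) g * (‖φ g‖ₑ ^ 2 * θ (g 0) (dt g)) =
      kap s * ∑' m : Fin s → ℤ,
        ∫⁻ t, ‖Wh (s + 1) φ (ext m) t‖ₑ ^ 2 * θ (t 0) (dt t) ∂(fl (s + 1)) := by
  induction s with
  | zero =>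
    rw [FUnf_left φ hφ θ hθ]
    have hF : ∀ m : Fin 0 → ℤ, Measurable fun t : X 1 =>
        ‖Wh 1 φ (ext m) t‖ₑ ^ 2 * θ (t 0) (dt t) := by
      intro m
      refine ((FUnf_meas_Wh hφ.meas (ext m)).enorm.pow_const 2).mul ?_
      exact hθ.comp ((measurable_pi_apply 0).prodMk measurable_dt)
    have hk : kap 0 = 1 := rfl
    rw [hk, one_mul, tsum_eq_single (0 : Fin 0 → ℤ)
      (fun b hb => absurd (Subsingleton.elim b 0) hb), lintegral_fl_succ (hF 0)]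
    apply lintegral_congr_ae
    filter_upwards [ae_ne_zero 0] with v hv
    congr 1
    have hfl : fl 0 = Measure.dirac (0 : X 0) := rfl
    rw [hfl, lintegral_dirac]
    have hvol : (volume : Measure (X 0)) = Measure.dirac (0 : X 0) :=
      Measure.volume_pi_eq_dirac (0 : X 0)
    have hwt : wt 0 (0 : X 0) = 1 := by
      have h1 := (isWt_wt 0).sum
      rw [hvol, ae_dirac_eq] at h1
      have h2 : ∑' γ : SL(0, ℤ), wt 0 (sl γ (0 : X 0)) = 1 := Filter.eventually_pure.1 h1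
      rw [tsum_eq_single 1 (fun b hb => absurd (Subsingleton.elim b 1) hb), sl_one] at h2
      exact h2
    rw [hvol, lintegral_dirac, hwt, one_mul, tsum_eq_single (0 : Fin 0 → ℤ)
      (fun b hb => absurd (Subsingleton.elim b 0) hb), dt_glue 0 0 hv, glue_row]
    congr 3
    have e1 : Wh 1 φ (ext (0 : Fin 0 → ℤ)) (glue 0 0 v) =
      coef (E 0 (ext (0 : Fin 0 → ℤ) 0)) φ (glue 0 0 v 0) (lr (glue 0 0 v)) := rfl
    rw [e1, lr_glue_zero, glue_row]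
    congr 1
    exact Subsingleton.elim _ _
  | succ s ih =>
    rw [FUnf_left φ hφ θ hθ, FUnf_right φ hφ θ hθ]
    apply lintegral_congr_ae
    filter_upwards [ae_ne_zero (s + 1)] with v hv
    congr 1
    have hco : ∀ w : Fin (s + 1) → ℤ, Measurable fun h : X (s + 1) => coef w φ v h := by
      intro w
      exact (measurable_coef hφ.meas w).comp (measurable_const.prodMk measurable_id)
    have hθv : Measurable fun h : X (s + 1) => θ v (v 0 * dt h) := by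
      refine hθ.comp (measurable_const.prodMk ?_)
      exact measurable_dt.const_mul _
    rw [FUnf_orb s (fun w h => ‖coef w φ v h‖ₑ ^ 2 * θ v (v 0 * dt h))
      (fun w => ((hco w).enorm.pow_const 2).mul hθv) ?_ ?_]
    · rw [FUnf_kap, mul_assoc]
      congr 1
      rw [← ENNReal.tsum_mul_left]
      refine tsum_congr fun m => ?_
      refine ih (coef (E (s + 1) m) φ v) (isP_coef hφ m hv) (hc.2 m v hv)
        (fun _ d => θ v (v 0 * d)) ?_
      refine hθ.comp (measurable_const.prodMk ?_)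
      exact measurable_snd.const_mul _
    · intro w γ
      refine Filter.Eventually.of_forall fun h => ?_
      show ‖coef w φ v (sl γ h)‖ₑ ^ 2 * θ v (v 0 * dt (sl γ h)) =
        ‖coef (rw' w γ) φ v h‖ₑ ^ 2 * θ v (v 0 * dt h)
      rw [coef_sl hφ w hv γ h, dt_sl]
    · refine Filter.Eventually.of_forall fun h => ?_
      show ‖coef 0 φ v h‖ₑ ^ 2 * θ v (v 0 * dt h) = 0
      rw [hc.1 v h hv]
      simp

end Pool.Agent.GL74
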