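import Pool.Agent.W_7742x_h74.XMea

/-! # Scaling of the measure on upper triangular matrices, absolute continuity

* `fl_scale`: for nonzero real `D_0, ..., D_{n-1}` the map `t ↦ D t` (row `i` multiplied by `D i`)
  satisfies `∫ F = ∏ |D j|^{2n-1-2j} ∫ F (D t)`; induction on `n` with `lintegral_fl_succ`:
  `D (glue t 0 v) = glue (D' t) 0 (D_0 • v)`, the substitution `v ↦ D_0 v` in `ℝ^{s+1}` gives
  `|D_0|^{s+1}` and the density `|v 0|^s` another `|D_0|^s`, `2 s + 1 = 2 n - 1` for `n = s + 1`.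
* `ae_diag`: almost all `t` have nonzero diagonal entries.
* `ae_upper`: almost all (all in the support) `t` are upper triangular, `dt t = ∏ t i i`. -/

set_option autoImplicit false

noncomputable section

namespace Pool.Agent.GL74

open MeasureTheory
open scoped ENNReal

theorem LSca_ae {s : ℕ} {p : X (s + 1) → Prop} (hp : MeasurableSet {t | p t})
    (h : ∀ᵐ v : Fin (s + 1) → ℝ, ∀ᵐ t ∂(fl s), p (glue t 0 v)) : ∀ᵐ t ∂(fl (s + 1)), p t := by
  have hm : MeasurableSet {t : X (s + 1) | ¬ p t} := hp.compl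
  rw [ae_iff, ← lintegral_indicator_one hm, lintegral_fl_succ (measurable_one.indicator hm)]
  have h0 : ∀ᵐ v : Fin (s + 1) → ℝ, ENNReal.ofReal (|v 0| ^ s) * ∫⁻ t,
      ({t : X (s + 1) | ¬ p t}.indicator 1 (glue t 0 v) : ℝ≥0∞) ∂(fl s) = 0 := by
    filter_upwards [h] with v hv
    have h1 : ∫⁻ t, ({t : X (s + 1) | ¬ p t}.indicator 1 (glue t 0 v) : ℝ≥0∞) ∂(fl s) = 0 := by
      rw [← lintegral_zero (μ := fl s)]
      apply lintegral_congr_ae
      filter_upwards [hv] with t ht
      rw [Set.indicator_of_notMem]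
      intro h2
      exact h2 ht
    rw [h1, mul_zero]
  rw [lintegral_congr_ae h0]
  simp

theorem LSca_smul {m : ℕ} {r : ℝ} (hr : r ≠ 0) {H : (Fin m → ℝ) → ℝ≥0∞} (hH : Measurable H) :
    ∫⁻ v, H v = ENNReal.ofReal (|r| ^ m) * ∫⁻ v, H (r • v) := by
  have hsm : Measurable fun c : Fin m → ℝ => r • c := measurable_const_smul _
  have e1 : ∫⁻ v, H (r • v) = ∫⁻ c, H c ∂(Measure.map (fun c : Fin m → ℝ => r • c) volume) :=
    (lintegral_map hH hsm).symm
  rw [e1, Measure.map_addHaar_smul _ hr, lintegral_smul_measure, smul_eq_mul, ← mul_assoc,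
    ← ENNReal.ofReal_mul (by positivity)]
  have e2 : |r| ^ m * |(r ^ Module.finrank ℝ (Fin m → ℝ))⁻¹| = 1 := by
    rw [Module.finrank_fin_fun, abs_inv, abs_pow]
    exact mul_inv_cancel₀ (pow_ne_zero _ (abs_ne_zero.2 hr))
  rw [e2, ENNReal.ofReal_one, one_mul]

theorem LSca_rows {s : ℕ} (D : Fin (s + 1) → ℝ) (hD : D 0 ≠ 0) (t : X s)
    (v : Fin (s + 1) → ℝ) :
    (fun i j => D i * glue t 0 v i j : X (s + 1)) =
      glue (fun i j => D i.succ * t i j) 0 (D 0 • v) := by
  funext i j
  refine Fin.cases ?_ (fun i => ?_) i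
  · rfl
  · refine Fin.cases ?_ (fun j => ?_) j
    · show D i.succ * (0 : ℝ) = 0
      ring
    · show D i.succ * (t i j + (0 : ℝ) * v j.succ / v 0) =
        D i.succ * t i j + (0 : ℝ) * (D 0 • v) j.succ / (D 0 • v) 0
      ring

theorem LSca_meas {s : ℕ} (D : Fin s → ℝ) :
    Measurable fun q : (Fin (s + 1) → ℝ) × X s => glue (fun i j => D i * q.2 i j) 0 q.1 := by
  refine measurable_glue.comp (g := fun q : (X s × (Fin s → ℝ)) × (Fin (s + 1) → ℝ) =>
    glue q.1.1 q.1.2 q.2) (f := fun q : (Fin (s + 1) → ℝ) × X s =>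
      (((fun i j => D i * q.2 i j : X s), (0 : Fin s → ℝ)), q.1)) ?_
  refine Measurable.prodMk (Measurable.prodMk ?_ measurable_const) measurable_fst
  refine measurable_pi_iff.2 fun i => measurable_pi_iff.2 fun j => ?_
  fun_prop

theorem LSca_measRow {n : ℕ} (D : Fin n → ℝ) :
    Measurable fun t : X n => (fun i j => D i * t i j : X n) := by
  refine measurable_pi_iff.2 fun i => measurable_pi_iff.2 fun j => ?_
  fun_prop

theorem fl_scale {n : ℕ} (D : Fin n → ℝ) (hD : ∀ i, D i ≠ 0) {F : X n → ℝ≥0∞}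
    (hF : Measurable F) :
    ∫⁻ t, F t ∂(fl n) = ENNReal.ofReal (∏ j : Fin n, |D j| ^ (2 * n - 1 - 2 * (j : ℕ))) *
      ∫⁻ t, F (fun i j => D i * t i j) ∂(fl n) := by
  induction n with
  | zero =>
    have h1 : ∀ t : X 0, F (fun i j => D i * t i j) = F t := fun t =>
      congrArg F (Subsingleton.elim _ _)
    simp only [h1]
    simp
  | succ s ih =>
    have hmG : Measurable fun q : (Fin (s + 1) → ℝ) × X s =>
        F (glue (fun i j => D i.succ * q.2 i j) 0 q.1) := hF.comp (LSca_meas fun i => D i.succ)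
    have hG : Measurable fun v : Fin (s + 1) → ℝ =>
        ∫⁻ t, F (glue (fun i j => D i.succ * t i j) 0 v) ∂(fl s) :=
      hmG.lintegral_prod_right'
    have hH : Measurable fun v : Fin (s + 1) → ℝ => ENNReal.ofReal (|v 0| ^ s) *
        ∫⁻ t, F (glue (fun i j => D i.succ * t i j) 0 v) ∂(fl s) := by
      refine Measurable.mul ?_ hG
      fun_prop
    have hpr : (∏ j : Fin (s + 1), |D j| ^ (2 * (s + 1) - 1 - 2 * (j : ℕ))) =
        |D 0| ^ (s + 1) * (|D 0| ^ s * ∏ j : Fin s, |D j.succ| ^ (2 * s - 1 - 2 * (j : ℕ))) := by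
      rw [Fin.prod_univ_succ, ← mul_assoc, ← pow_add]
      congr 1
      · congr 1
        rw [Fin.val_zero]
        omega
      · refine Finset.prod_congr rfl fun j _ => ?_
        congr 1
        rw [Fin.val_succ]
        omega
    have hFr : Measurable fun t : X (s + 1) => F (fun i j => D i * t i j) :=
      hF.comp (LSca_measRow D)
    rw [lintegral_fl_succ hF, lintegral_fl_succ hFr]
    have h2 : ∀ v : Fin (s + 1) → ℝ, ∫⁻ t, F (glue t 0 v) ∂(fl s) =
        ENNReal.ofReal (∏ j : Fin s, |D j.succ| ^ (2 * s - 1 - 2 * (j : ℕ))) *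
          ∫⁻ t, F (glue (fun i j => D i.succ * t i j) 0 v) ∂(fl s) := by
      intro v
      have hFv : Measurable fun t : X s => F (glue t 0 v) := by
        refine hF.comp (measurable_glue.comp
          (g := fun q : (X s × (Fin s → ℝ)) × (Fin (s + 1) → ℝ) => glue q.1.1 q.1.2 q.2)
          (f := fun t : X s => ((t, (0 : Fin s → ℝ)), v)) ?_)
        fun_prop
      exact ih (fun i => D i.succ) (fun i => hD i.succ) hFv
    have h3 : ∀ v : Fin (s + 1) → ℝ, ENNReal.ofReal (|v 0| ^ s) * ∫⁻ t, F (glue t 0 v) ∂(fl s) =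
        ENNReal.ofReal (∏ j : Fin s, |D j.succ| ^ (2 * s - 1 - 2 * (j : ℕ))) *
          (ENNReal.ofReal (|v 0| ^ s) *
            ∫⁻ t, F (glue (fun i j => D i.succ * t i j) 0 v) ∂(fl s)) := by
      intro v
      rw [h2 v, mul_left_comm]
    simp only [h3]
    rw [lintegral_const_mul _ hH, LSca_smul (hD 0) hH]
    have h4 : ∀ v : Fin (s + 1) → ℝ, ENNReal.ofReal (|(D 0 • v) 0| ^ s) *
        ∫⁻ t, F (glue (fun i j => D i.succ * t i j) 0 (D 0 • v)) ∂(fl s) =
        ENNReal.ofReal (|D 0| ^ s) * (ENNReal.ofReal (|v 0| ^ s) *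
          ∫⁻ t, F (fun i j => D i * glue t 0 v i j) ∂(fl s)) := by
      intro v
      have h5 : |(D 0 • v) 0| ^ s = |D 0| ^ s * |v 0| ^ s := by
        rw [Pi.smul_apply, smul_eq_mul, abs_mul, mul_pow]
      rw [h5, ENNReal.ofReal_mul (by positivity), mul_assoc]
      congr 2
      apply lintegral_congr
      intro t
      rw [LSca_rows D (hD 0) t v]
    simp only [h4]
    rw [lintegral_const_mul' _ _ ENNReal.ofReal_ne_top, hpr,
      ENNReal.ofReal_mul (by positivity), ENNReal.ofReal_mul (by positivity)]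
    ring

theorem ae_diag (n : ℕ) : ∀ᵐ t ∂(fl n), ∀ i, t i i ≠ 0 := by
  induction n with
  | zero => exact Filter.Eventually.of_forall fun t i => i.elim0
  | succ s ih =>
    refine LSca_ae ?_ ?_
    · rw [Set.setOf_forall]
      refine MeasurableSet.iInter fun i => ?_
      have hm : Measurable fun t : X (s + 1) => t i i := by fun_prop
      exact hm (measurableSet_singleton (0 : ℝ)).compl
    · filter_upwards [ae_ne_zero s] with v hv
      filter_upwards [ih] with t ht
      intro i
      refine Fin.cases ?_ (fun i => ?_) i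
      · exact hv
      · show t i i + (0 : ℝ) * v i.succ / v 0 ≠ 0
        rw [zero_mul, zero_div, add_zero]
        exact ht i

theorem ae_upper (n : ℕ) : ∀ᵐ t ∂(fl n), ∀ i j : Fin n, j < i → t i j = 0 := by
  induction n with
  | zero => exact Filter.Eventually.of_forall fun t i => i.elim0
  | succ s ih =>
    refine LSca_ae ?_ ?_
    · simp only [Set.setOf_forall]
      refine MeasurableSet.iInter fun i => MeasurableSet.iInter fun j =>
        MeasurableSet.iInter fun _ => ?_
      have hm : Measurable fun t : X (s + 1) => t i j := by fun_prop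
      exact hm (measurableSet_singleton (0 : ℝ))
    · filter_upwards with v
      filter_upwards [ih] with t ht
      intro i j
      refine Fin.cases ?_ (fun i => ?_) i
      · intro h
        exact absurd h (Fin.not_lt_zero j)
      · refine Fin.cases ?_ (fun j => ?_) j
        · intro _
          rfl
        · intro h
          show t i j + (0 : ℝ) * v j.succ / v 0 = 0
          rw [zero_mul, zero_div, add_zero]
          exact ht i j (Fin.succ_lt_succ_iff.1 h)

theorem dt_rows {n : ℕ} (D : Fin n → ℝ) (t : X n) :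
    dt (fun i j => D i * t i j) = (∏ i, D i) * dt t := by
  unfold dt
  exact Matrix.det_mul_column D (Matrix.of t)

end Pool.Agent.GL74
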