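import Pool.Agent.W_7742x_h74.FCoe

/-! # Cuspidality implies the vanishing of the constant terms in the recursion

`blk k B` is the identity plus the block of `B` with row index `≥ k` and column index `< k`.
`Bl φ`: all integrals of `φ (blk k B g)` over `B ∈ [0,1]^{n × n}`, `0 < k < n`, vanish.

* `coef_zero`: `glue h (v 0 θ) v = blk 1 B (glue h 0 v)` if `θ i = B (i+1) 0` (the other entries of
  `B` are integrated over without effect).
* `bl_coef`: fix `v`, `v 0 ≠ 0`, and `1 ≤ k < s + 1`.  For `h ∈ X (s+1)` and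
  `B ∈ [0,1]^{(s+1) × (s+1)}` one has with `g₀ = glue h 0 v`
  `glue (blk k B h) (v 0 θ) v = (1 0; θ 1) (1 0; 0 blk k B) g₀`, and the product of the two
  matrices has the first column `(1, θ)` and the block `B` in rows `> k`, columns `1..k`; it is
  `blk (k+1) B' * u(θ')`, where `θ' = (θ_i)_{i < k}`, `u(θ')` is the identity plus `θ'` in the first
  column (rows `1..k`), and `B'` has the columns `1..k` of `B` and the first column
  `θ_i - ∑_j B_ij θ'_j` (`i ≥ k`).  So
  `∫_B coef (E m) φ v (blk k B h) = ∫_{θ'} e (-m θ'_0) ∫_B ∫_{θ''} φ (blk (k+1) (θ'' - B θ' | B)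
  (u(θ') g₀))`, and by periodicity in `θ''` (`IsP.inv`, `ℓ` in the rows `> k`, `int_shift`) the
  shift by `B θ'` can be dropped; the remaining double integral over `θ''` and `B` is `0` by `Bl φ`
  for `k + 1`.  (`e` depends only on `θ_0`, and `0 < k`.) -/

set_option autoImplicit false

noncomputable section

namespace Pool.Agent.GL74

open MeasureTheory
open scoped ENNReal MatrixGroups

/-- The identity plus the block of `B` with row index `≥ k` and column index `< k`. -/
def blk {n : ℕ} (k : ℕ) (B : Fin n → Fin n → ℝ) : Matrix (Fin n) (Fin n) ℝ :=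
  Matrix.of fun i j => if i = j then 1 else if (j : ℕ) < k ∧ k ≤ (i : ℕ) then B i j else 0

/-- The vanishing of the block integrals. -/
def Bl {n : ℕ} (φ : X n → ℂ) : Prop :=
  ∀ k : ℕ, 0 < k → k < n → ∀ g, ∫ B in Set.Icc (0 : Fin n → Fin n → ℝ) 1, φ (lm (blk k B) g) = 0

/-! ## The cube -/

/-- Lebesgue measure on `[0,1]`. -/
def FCus_lam : Measure ℝ := (volume : Measure ℝ).restrict (Set.Icc 0 1)

instance FCus_isProb_lam : IsProbabilityMeasure FCus_lam := ⟨by simp [FCus_lam]⟩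

/-- Lebesgue measure on the cube. -/
def FCus_P1 (n : ℕ) : Measure (Fin n → ℝ) := Measure.pi fun _ => FCus_lam

instance FCus_isProb_P1 (n : ℕ) : IsProbabilityMeasure (FCus_P1 n) := by
  unfold FCus_P1
  infer_instance

/-- Lebesgue measure on the cube. -/
def FCus_P2 (n m : ℕ) : Measure (Fin n → Fin m → ℝ) := Measure.pi fun _ => FCus_P1 m

instance FCus_isProb_P2 (n m : ℕ) : IsProbabilityMeasure (FCus_P2 n m) := by
  unfold FCus_P2
  infer_instance

theorem FCus_restrict_P1 (n : ℕ) :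
    (volume : Measure (Fin n → ℝ)).restrict (Set.Icc 0 1) = FCus_P1 n := by
  have h : (Set.Icc 0 1 : Set (Fin n → ℝ)) = Set.pi Set.univ fun _ => Set.Icc (0 : ℝ) 1 := by
    rw [Set.pi_univ_Icc]
    rfl
  rw [h, volume_pi, Measure.restrict_pi_pi]
  rfl

theorem FCus_restrict_P2 (n m : ℕ) :
    (volume : Measure (Fin n → Fin m → ℝ)).restrict (Set.Icc 0 1) = FCus_P2 n m := by
  have h : (Set.Icc 0 1 : Set (Fin n → Fin m → ℝ)) =
      Set.pi Set.univ fun _ => Set.Icc (0 : Fin m → ℝ) 1 := by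
    rw [Set.pi_univ_Icc]
    rfl
  rw [h, volume_pi, Measure.restrict_pi_pi]
  simp only [FCus_restrict_P1]
  rfl

/-- Dropping the first row and splitting off the first column. -/
theorem FCus_mp_split (n : ℕ) : MeasurePreserving
    (fun B : X (n + 1) => ((fun i => B i.succ 0 : Fin n → ℝ),
      (fun i j => B i.succ j.succ : X n))) (FCus_P2 (n + 1) (n + 1)) ((FCus_P1 n).prod (FCus_P2 n n)) := by
  have h1 : MeasurePreserving (fun (B : X (n + 1)) (i : Fin n) => B i.succ)
      (FCus_P2 (n + 1) (n + 1)) (FCus_P2 n (n + 1)) :=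
    measurePreserving_snd.comp (measurePreserving_piFinSuccAbove (fun _ => FCus_P1 (n + 1)) 0)
  have h2 : MeasurePreserving
      (fun (B : Fin n → Fin (n + 1) → ℝ) (i : Fin n) => (B i 0, fun j : Fin n => B i j.succ))
      (FCus_P2 n (n + 1)) (Measure.pi fun _ => FCus_lam.prod (FCus_P1 n)) :=
    measurePreserving_pi _ _ fun _ => measurePreserving_piFinSuccAbove (fun _ => FCus_lam) 0
  have h3 := measurePreserving_arrowProdEquivProdArrow ℝ (Fin n → ℝ) (Fin n) (fun _ => FCus_lam)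
    (fun _ => FCus_P1 n)
  exact h3.comp (h2.comp h1)

theorem FCus_integral_split {n : ℕ} {G : (Fin n → ℝ) → X n → ℂ}
    (hG : Measurable fun q : (Fin n → ℝ) × X n => G q.1 q.2) {C : ℝ} (hC : ∀ x y, ‖G x y‖ ≤ C) :
    ∫ B, G (fun i => B i.succ 0) (fun i j => B i.succ j.succ) ∂(FCus_P2 (n + 1) (n + 1)) =
      ∫ τ, ∫ B, G τ B ∂(FCus_P2 n n) ∂(FCus_P1 n) := by
  have h := FCus_mp_split n
  rw [← integral_map (μ := FCus_P2 (n + 1) (n + 1)) h.measurable.aemeasurable
    (f := fun q : (Fin n → ℝ) × X n => G q.1 q.2) hG.aestronglyMeasurable, h.map_eq,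
    integral_prod]
  exact Integrable.of_bound hG.aestronglyMeasurable C (Filter.Eventually.of_forall fun q => hC _ _)

theorem FCus_integral_swap_bdd {α β : Type} [MeasurableSpace α] [MeasurableSpace β] {μ : Measure α}
    {ν : Measure β} [IsProbabilityMeasure μ] [IsProbabilityMeasure ν] {G : α → β → ℂ}
    (hG : Measurable fun q : α × β => G q.1 q.2) {C : ℝ} (hC : ∀ x y, ‖G x y‖ ≤ C) :
    ∫ x, ∫ y, G x y ∂ν ∂μ = ∫ y, ∫ x, G x y ∂μ ∂ν :=
  integral_integral_swap (Integrable.of_bound hG.aestronglyMeasurable C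
    (Filter.Eventually.of_forall fun _ => hC _ _))

theorem FCus_int_block {n : ℕ} {G : (Fin n → ℝ) → (Fin n → ℝ) → X n → ℂ}
    (hG : Measurable fun q : (Fin n → ℝ) × (Fin n → ℝ) × X n => G q.1 q.2.1 q.2.2) {C : ℝ}
    (hC : ∀ x y z, ‖G x y z‖ ≤ C) :
    ∫ B, ∫ θ, ∫ τ, G θ τ B ∂(FCus_P1 n) ∂(FCus_P1 n) ∂(FCus_P2 n n) =
      ∫ θ, ∫ B, G θ (fun i => B i.succ 0) (fun i j => B i.succ j.succ)
        ∂(FCus_P2 (n + 1) (n + 1)) ∂(FCus_P1 n) := by
  have m1 : Measurable fun q : (X n × (Fin n → ℝ)) × (Fin n → ℝ) => G q.1.2 q.2 q.1.1 :=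
    hG.comp (g := fun q : (Fin n → ℝ) × (Fin n → ℝ) × X n => G q.1 q.2.1 q.2.2)
      ((measurable_snd.comp measurable_fst).prodMk
        (measurable_snd.prodMk (measurable_fst.comp measurable_fst)))
  have m2 : Measurable fun q : X n × (Fin n → ℝ) => ∫ τ, G q.2 τ q.1 ∂(FCus_P1 n) :=
    (m1.stronglyMeasurable.integral_prod_right).measurable
  have b2 : ∀ (B : X n) (θ : Fin n → ℝ), ‖∫ τ, G θ τ B ∂(FCus_P1 n)‖ ≤ C := by
    intro B θ
    refine (norm_integral_le_of_norm_le_const (C := C)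
      (Filter.Eventually.of_forall fun τ => hC _ _ _)).trans ?_
    simp
  rw [FCus_integral_swap_bdd (G := fun B θ => ∫ τ, G θ τ B ∂(FCus_P1 n)) m2 b2]
  refine integral_congr_ae (Filter.Eventually.of_forall fun θ => ?_)
  have m3 : Measurable fun q : X n × (Fin n → ℝ) => G θ q.2 q.1 :=
    hG.comp (g := fun q : (Fin n → ℝ) × (Fin n → ℝ) × X n => G q.1 q.2.1 q.2.2)
      (measurable_const.prodMk (measurable_snd.prodMk measurable_fst))
  have m4 : Measurable fun q : (Fin n → ℝ) × X n => G θ q.1 q.2 :=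
    hG.comp (g := fun q : (Fin n → ℝ) × (Fin n → ℝ) × X n => G q.1 q.2.1 q.2.2)
      (measurable_const.prodMk (measurable_fst.prodMk measurable_snd))
  show ∫ B, ∫ τ, G θ τ B ∂(FCus_P1 n) ∂(FCus_P2 n n) = _
  rw [FCus_integral_swap_bdd (G := fun B τ => G θ τ B) m3 (fun B τ => hC _ _ _)]
  exact (FCus_integral_split m4 (hC θ)).symm

/-! ## The matrices -/

theorem FCus_measurable_lm_blk {n : ℕ} (k : ℕ) :
    Measurable fun q : X n × X n => lm (blk k q.1) q.2 := by
  refine measurable_pi_iff.2 fun i => measurable_pi_iff.2 fun j => ?_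
  unfold lm
  refine Finset.measurable_sum _ fun l _ => Measurable.mul ?_ (by fun_prop)
  unfold blk
  simp only [Matrix.of_apply]
  split_ifs
  · exact measurable_const
  · fun_prop
  · exact measurable_const

/-- The matrix with the given first column and lower right block (and first row zero). -/
def FCus_Bp {n : ℕ} (τ : Fin n → ℝ) (B : X n) : X (n + 1) :=
  Fin.cons 0 fun i => Fin.cons (τ i) (B i)

theorem FCus_measurable_Bp {n : ℕ} : Measurable fun q : (Fin n → ℝ) × X n => FCus_Bp q.1 q.2 := by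
  refine measurable_pi_iff.2 fun i => ?_
  refine Fin.cases ?_ (fun i => ?_) i
  · exact measurable_const
  · refine measurable_pi_iff.2 fun j => ?_
    refine Fin.cases ?_ (fun j => ?_) j
    · show Measurable fun q : (Fin n → ℝ) × X n => q.1 i
      fun_prop
    · show Measurable fun q : (Fin n → ℝ) × X n => q.2 i j
      fun_prop

theorem FCus_blk_Bp {n : ℕ} (k : ℕ) (B : X (n + 1)) :
    blk (k + 1) (FCus_Bp (fun i => B i.succ 0) (fun i j => B i.succ j.succ)) = blk (k + 1) B := by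
  ext i j
  refine Fin.cases ?_ (fun i => ?_) i
  · simp [blk]
  · refine Fin.cases ?_ (fun j => ?_) j
    · rfl
    · rfl

theorem FCus_blk_zero_row {n : ℕ} (k : ℕ) (B : X (n + 1)) (j : Fin (n + 1)) :
    blk (k + 1) B 0 j = if 0 = j then 1 else 0 := by
  unfold blk
  simp only [Matrix.of_apply]
  split_ifs <;> simp_all

theorem FCus_blk_row {n : ℕ} {k : ℕ} (B : X n) {i : Fin n} (hi : (i : ℕ) < k) (j : Fin n) :
    blk k B i j = if i = j then 1 else 0 := by
  unfold blk
  simp only [Matrix.of_apply]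
  split_ifs with h1 h2
  · rfl
  · omega
  · rfl

theorem FCus_lm_blk_glue {n : ℕ} (k : ℕ) (B : X n) (τ ρ : Fin n → ℝ) (h : X n) {v : Fin (n + 1) → ℝ}
    (hv : v 0 ≠ 0) :
    lm (blk (k + 1) (FCus_Bp τ B)) (glue h (v 0 • ρ) v) =
      glue (lm (blk k B) h)
        (v 0 • fun i : Fin n => (if k ≤ (i : ℕ) then τ i else 0) + ∑ l, blk k B i l * ρ l) v := by
  have hc : ∀ i : Fin n, blk (k + 1) (FCus_Bp τ B) i.succ 0 = if k ≤ (i : ℕ) then τ i else 0 := by
    intro i
    unfold blk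
    simp only [Matrix.of_apply, Fin.succ_ne_zero, if_false, Fin.val_zero, Fin.val_succ,
      Nat.zero_lt_succ, true_and, add_le_add_iff_right]
    rfl
  have hb : ∀ i l : Fin n, blk (k + 1) (FCus_Bp τ B) i.succ l.succ = blk k B i l := by
    intro i l
    unfold blk
    simp only [Matrix.of_apply, Fin.succ_inj, Fin.val_succ, add_le_add_iff_right,
      add_lt_add_iff_right]
    rfl
  funext i
  refine Fin.cases ?_ (fun i => ?_) i
  · funext j
    show ∑ l, blk (k + 1) (FCus_Bp τ B) 0 l * glue h (v 0 • ρ) v l j = v j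
    rw [Finset.sum_eq_single 0]
    · rw [FCus_blk_zero_row, if_pos rfl, one_mul]
      rfl
    · intro l _ hl
      rw [FCus_blk_zero_row, if_neg (Ne.symm hl), zero_mul]
    · simp
  · funext j
    show ∑ l, blk (k + 1) (FCus_Bp τ B) i.succ l * glue h (v 0 • ρ) v l j = _
    rw [Fin.sum_univ_succ, hc]
    simp only [hb]
    refine Fin.cases ?_ (fun j => ?_) j
    · show (if k ≤ (i : ℕ) then τ i else 0) * v 0 + ∑ l, blk k B i l * (v 0 * ρ l) =
        v 0 * ((if k ≤ (i : ℕ) then τ i else 0) + ∑ l, blk k B i l * ρ l)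
      rw [mul_add, Finset.mul_sum, mul_comm]
      congr 1
      exact Finset.sum_congr rfl fun l _ => by ring
    · show (if k ≤ (i : ℕ) then τ i else 0) * v j.succ +
          ∑ l, blk k B i l * (h l j + (v 0 * ρ l) * v j.succ / v 0) =
        (∑ l, blk k B i l * h l j) +
          v 0 * ((if k ≤ (i : ℕ) then τ i else 0) + ∑ l, blk k B i l * ρ l) * v j.succ / v 0
      have e1 : ∀ a b : ℝ, v 0 * a * b / v 0 = a * b := by
        intro a b
        field_simp
      rw [e1]
      have e2 : ∑ l, blk k B i l * (h l j + (v 0 * ρ l) * v j.succ / v 0) =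
          (∑ l, blk k B i l * h l j) + (∑ l, blk k B i l * ρ l) * v j.succ := by
        rw [Finset.sum_mul, ← Finset.sum_add_distrib]
        refine Finset.sum_congr rfl fun l _ => ?_
        rw [e1]
        ring
      rw [e2]
      ring

theorem coef_zero {s : ℕ} {φ : X (s + 2) → ℂ} (hφ : IsP φ) (hB : Bl φ) {v : Fin (s + 2) → ℝ}
    (hv : v 0 ≠ 0) (h : X (s + 1)) : coef 0 φ v h = 0 := by
  obtain ⟨C, hC⟩ := hφ.bdd
  have hm : Measurable fun θ : Fin (s + 1) → ℝ => φ (glue h (v 0 • θ) v) :=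
    (isPer_glue hφ h hv).meas
  have h1 := hB 1 one_pos (by omega) (glue h 0 v)
  rw [FCus_restrict_P2] at h1
  have h2 : ∀ B : X (s + 2), lm (blk 1 B) (glue h 0 v) =
      glue h (v 0 • fun i => B i.succ 0) v := by
    intro B
    have h3 := FCus_lm_blk_glue 0 (fun i j => B i.succ j.succ) (fun i => B i.succ 0) 0 h hv
    rw [FCus_blk_Bp, smul_zero, zero_add] at h3
    rw [h3]
    have h4 : blk 0 (fun i j => B i.succ j.succ : X (s + 1)) = 1 := by
      ext i j
      unfold blk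
      simp [Matrix.one_apply]
    rw [h4, lm_one]
    congr 2
    funext i
    simp
  simp only [h2] at h1
  rw [FCus_integral_split (G := fun τ _ => φ (glue h (v 0 • τ) v)) (hm.comp measurable_fst)
    (C := C) (fun _ _ => hC _)] at h1
  simp only [integral_const, probReal_univ, one_smul] at h1
  unfold coef
  rw [FCus_restrict_P1, ← h1]
  refine integral_congr_ae (Filter.Eventually.of_forall fun θ => ?_)
  simp [e]

/-- Replacing the coordinates `< k` by `0`. -/
def FCus_tp {n : ℕ} (k : ℕ) (τ : Fin n → ℝ) : Fin n → ℝ := fun i => if k ≤ (i : ℕ) then τ i else 0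

/-- Replacing the coordinates `≥ k` by `0`. -/
def FCus_hd {n : ℕ} (k : ℕ) (τ : Fin n → ℝ) : Fin n → ℝ := fun i => if k ≤ (i : ℕ) then 0 else τ i

theorem FCus_measurable_tp {n : ℕ} (k : ℕ) : Measurable (FCus_tp k : (Fin n → ℝ) → (Fin n → ℝ)) := by
  refine measurable_pi_iff.2 fun i => ?_
  unfold FCus_tp
  split_ifs <;> fun_prop

theorem FCus_measurable_hd {n : ℕ} (k : ℕ) : Measurable (FCus_hd k : (Fin n → ℝ) → (Fin n → ℝ)) := by
  refine measurable_pi_iff.2 fun i => ?_
  unfold FCus_hd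
  split_ifs <;> fun_prop

/-- Averaging over the last coordinates. -/
theorem FCus_int_avg {n : ℕ} {F : (Fin n → ℝ) → ℂ} (hF : IsPer F) (k : ℕ)
    {x : (Fin n → ℝ) → (Fin n → ℝ)} :
    ∫ θ, F θ ∂(FCus_P1 n) = ∫ θ, ∫ τ, F (θ + FCus_tp k (τ + x θ)) ∂(FCus_P1 n) ∂(FCus_P1 n) := by
  obtain ⟨C, hC⟩ := hF.bdd
  have h1 : ∀ θ : Fin n → ℝ, ∫ τ, F (θ + FCus_tp k (τ + x θ)) ∂(FCus_P1 n) =
      ∫ τ, F (θ + FCus_tp k τ) ∂(FCus_P1 n) := by
    intro θ
    have hper : IsPer fun τ => F (θ + FCus_tp k τ) := by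
      refine ⟨hF.meas.comp (measurable_const.add (FCus_measurable_tp k)), ⟨C, fun τ => hC _⟩, ?_⟩
      intro ℓ τ
      have e1 : θ + FCus_tp k (τ + zr ℓ) = (θ + FCus_tp k τ) + zr fun i => if k ≤ (i : ℕ) then ℓ i else 0 := by
        funext i
        simp only [FCus_tp, zr, Pi.add_apply]
        split_ifs <;> simp [add_assoc]
      show F (θ + FCus_tp k (τ + zr ℓ)) = F (θ + FCus_tp k τ)
      rw [e1, hF.per]
    have := int_shift hper (x θ)
    rw [FCus_restrict_P1] at this
    exact this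
  have h2 : ∀ τ : Fin n → ℝ, ∫ θ, F (θ + FCus_tp k τ) ∂(FCus_P1 n) = ∫ θ, F θ ∂(FCus_P1 n) := by
    intro τ
    have := int_shift hF (FCus_tp k τ)
    rw [FCus_restrict_P1] at this
    exact this
  simp only [h1]
  have hm : Measurable fun q : (Fin n → ℝ) × (Fin n → ℝ) => F (q.1 + FCus_tp k q.2) :=
    hF.meas.comp (measurable_fst.add ((FCus_measurable_tp k).comp measurable_snd))
  rw [FCus_integral_swap_bdd (G := fun θ τ => F (θ + FCus_tp k τ)) hm (C := C) (fun _ _ => hC _)]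
  simp only [h2, integral_const, probReal_univ, one_smul]

theorem bl_coef {s : ℕ} {φ : X (s + 2) → ℂ} (hφ : IsP φ) (hB : Bl φ) (m : ℤ)
    {v : Fin (s + 2) → ℝ} (hv : v 0 ≠ 0) : Bl (coef (E (s + 1) m) φ v) := by
  intro k hk hks h
  obtain ⟨C, hC⟩ := hφ.bdd
  set ψ : (Fin (s + 1) → ℝ) → ℂ := fun θ => e (-(∑ i, (E (s + 1) m i : ℝ) * θ i)) with hψ
  have hψm : Measurable ψ := by
    have hc : Continuous ψ := by
      rw [hψ]
      unfold e
      fun_prop
    exact hc.measurable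
  have hψn : ∀ θ, ‖ψ θ‖ = 1 := by
    intro θ
    show ‖Complex.exp (2 * Real.pi * Complex.I *
      ((-(∑ i, (E (s + 1) m i : ℝ) * θ i) : ℝ) : ℂ))‖ = 1
    rw [show (2 * Real.pi * Complex.I * ((-(∑ i, (E (s + 1) m i : ℝ) * θ i) : ℝ) : ℂ) : ℂ) =
      ((2 * Real.pi * (-(∑ i, (E (s + 1) m i : ℝ) * θ i)) : ℝ) : ℂ) * Complex.I by
        push_cast; ring]
    exact Complex.norm_exp_ofReal_mul_I _
  have hψt : ∀ θ y, ψ (θ + FCus_tp k y) = ψ θ := by
    intro θ y
    show e _ = e _
    congr 2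
    refine Finset.sum_congr rfl fun i _ => ?_
    by_cases hi : (i : ℕ) = 0
    · have : FCus_tp k y i = 0 := by
        unfold FCus_tp
        rw [if_neg (by omega)]
      rw [Pi.add_apply, this, add_zero]
    · have : E (s + 1) m i = 0 := by
        unfold E
        rw [if_neg hi]
      rw [this]
      simp
  -- the shift
  set x : X (s + 1) → (Fin (s + 1) → ℝ) → (Fin (s + 1) → ℝ) := fun B θ i =>
    (∑ l, blk k B i l * FCus_hd k θ l) - θ i with hx
  have key : ∀ (B : X (s + 1)) (θ τ : Fin (s + 1) → ℝ),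
      glue (lm (blk k B) h) (v 0 • (θ + FCus_tp k (τ + x B θ))) v =
        lm (blk (k + 1) (FCus_Bp τ B)) (glue h (v 0 • FCus_hd k θ) v) := by
    intro B θ τ
    rw [FCus_lm_blk_glue k B τ (FCus_hd k θ) h hv]
    congr 2
    funext i
    simp only [Pi.add_apply, FCus_tp, hx]
    by_cases hi : k ≤ (i : ℕ)
    · rw [if_pos hi, if_pos hi]
      ring
    · rw [if_neg hi, if_neg hi]
      have : ∀ l, blk k B i l * FCus_hd k θ l = if i = l then FCus_hd k θ l else 0 := by
        intro l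
        rw [FCus_blk_row B (by omega)]
        split_ifs <;> simp
      simp only [this, Finset.sum_ite_eq, Finset.mem_univ, if_true]
      unfold FCus_hd
      rw [if_neg hi]
      ring
  have step : ∀ B : X (s + 1), coef (E (s + 1) m) φ v (lm (blk k B) h) =
      ∫ θ, ∫ τ, ψ θ * φ (lm (blk (k + 1) (FCus_Bp τ B)) (glue h (v 0 • FCus_hd k θ) v))
        ∂(FCus_P1 (s + 1)) ∂(FCus_P1 (s + 1)) := by
    intro B
    have hper : IsPer fun θ => ψ θ * φ (glue (lm (blk k B) h) (v 0 • θ) v) :=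
      isPer_mul (isPer_glue hφ (lm (blk k B) h) hv) (E (s + 1) m)
    have h1 := FCus_int_avg hper k (x := x B)
    unfold coef
    rw [FCus_restrict_P1]
    refine h1.trans ?_
    simp only [hψt, key]
  set G : (Fin (s + 1) → ℝ) → (Fin (s + 1) → ℝ) → X (s + 1) → ℂ := fun θ τ B =>
    ψ θ * φ (lm (blk (k + 1) (FCus_Bp τ B)) (glue h (v 0 • FCus_hd k θ) v)) with hGdef
  have hmeas : Measurable fun q : (Fin (s + 1) → ℝ) × (Fin (s + 1) → ℝ) × X (s + 1) =>
      G q.1 q.2.1 q.2.2 := by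
    have h2 : Measurable fun q : (Fin (s + 1) → ℝ) × (Fin (s + 1) → ℝ) × X (s + 1) =>
        (((h, v 0 • FCus_hd k q.1), v) : (X (s + 1) × (Fin (s + 1) → ℝ)) × (Fin (s + 2) → ℝ)) :=
      (measurable_const.prodMk (((FCus_measurable_hd k).comp measurable_fst).const_smul
        (v 0))).prodMk measurable_const
    have h1 : Measurable fun q : (Fin (s + 1) → ℝ) × (Fin (s + 1) → ℝ) × X (s + 1) =>
        ((FCus_Bp q.2.1 q.2.2, glue h (v 0 • FCus_hd k q.1) v) : X (s + 2) × X (s + 2)) :=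
      (FCus_measurable_Bp.comp measurable_snd).prodMk (measurable_glue.comp h2)
    have h3 := (FCus_measurable_lm_blk (k + 1)).comp h1
    have h4 := hφ.meas.comp h3
    have h5 : Measurable fun q : (Fin (s + 1) → ℝ) × (Fin (s + 1) → ℝ) × X (s + 1) => ψ q.1 :=
      hψm.comp measurable_fst
    exact h5.mul h4
  have hbd : ∀ x y z, ‖G x y z‖ ≤ C := by
    intro x y z
    rw [hGdef]
    show ‖ψ x * φ _‖ ≤ C
    rw [norm_mul, hψn, one_mul]
    exact hC _
  have step' : ∀ B : X (s + 1), coef (E (s + 1) m) φ v (lm (blk k B) h) =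
      ∫ θ, ∫ τ, G θ τ B ∂(FCus_P1 (s + 1)) ∂(FCus_P1 (s + 1)) := step
  rw [FCus_restrict_P2]
  simp only [step']
  rw [FCus_int_block hmeas hbd]
  have hz : ∀ θ : Fin (s + 1) → ℝ, ∫ B : X (s + 2), G θ (fun i => B i.succ 0)
      (fun i j => B i.succ j.succ) ∂(FCus_P2 (s + 2) (s + 2)) = 0 := by
    intro θ
    have h3 : ∀ B : X (s + 2), G θ (fun i => B i.succ 0) (fun i j => B i.succ j.succ) =
        ψ θ * φ (lm (blk (k + 1) B) (glue h (v 0 • FCus_hd k θ) v)) := by
      intro B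
      show ψ θ * φ (lm (blk (k + 1) (FCus_Bp (fun i => B i.succ 0) (fun i j => B i.succ j.succ)))
        (glue h (v 0 • FCus_hd k θ) v)) = _
      rw [FCus_blk_Bp]
    simp only [h3]
    rw [integral_const_mul]
    have := hB (k + 1) (by omega) (by omega) (glue h (v 0 • FCus_hd k θ) v)
    rw [FCus_restrict_P2] at this
    rw [this, mul_zero]
  simp only [hz, integral_zero]

theorem cusp_of_bl : ∀ (s : ℕ) (φ : X (s + 1) → ℂ), IsP φ → Bl φ → Cusp s φ
  | 0, _, _, _ => trivial
  | s + 1, _, hφ, hB => ⟨fun _ h hv => coef_zero hφ hB hv h, fun m _ hv =>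
      cusp_of_bl s _ (isP_coef hφ m hv) (bl_coef hφ hB m hv)⟩

end Pool.Agent.GL74
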