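import Pool.Agent.W_7742x_h74.SMat

/-! # Duality of Schur polynomials

1. `sch_add_one`: the Pieri relation (`isPieri_sch`) for `k = n` (only `S = univ`):
   `sch e (ν + 1) = e_n sch e ν`.
2. `emx_inv`: the coefficients of the characteristic polynomial of `B⁻¹`:
   `e_k (B⁻¹) = e_{n-k}(B) / e_n(B)`, `e_n(B) = det B` (roots, or `Matrix.charpoly_inv`, or
   `esv`: with the roots `β_i` of `B`, the roots of `B⁻¹` are the `β_i⁻¹`).
3. `sch_dual`: put `d = det B = e_n(B)`, `e = emx B`, `e* = emx B⁻¹` and, for antitone `l`,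
   `u l = d ^ (l 0) * sch e* (fun j => l 0 - l (rev j))`, `u l = 0` otherwise.  Then `u` is a Pieri
   system for `e` with `u 0 = 1`, so `u l = sch e l` (`eq_sch`).  The Pieri relation: for `|S| = k`
   let `S'` be the set of the `j` with `rev j ∉ S`, `|S'| = n - k`.  If `0 ∈ S`
   (`l_0` goes up by one) the dual weight of `l + 1_S` is `l* + 1_{S'}`; if `0 ∉ S` it is
   `l* + 1_{S'} - 1` (`S'` contains the last index; if `l + 1_S` is not antitone, both sides are
   `0`), and `sch e* (μ + 1) = (1/d) sch e* μ`; in both cases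
   `u (l + 1_S) = d ^ (l_0 + 1) sch e* (l* + 1_{S'})`.  Summing over `S` gives
   `d ^ (l_0 + 1) e*_{n-k} sch e* l* = e_k u l` (for `k = n` the sum is the single term `S' = ∅`,
   `e*_0 = 1`). -/

set_option autoImplicit false

noncomputable section

namespace Pool.Agent.GL74

theorem sch_add_one {r : ℕ} (e : Fin (r + 1) → ℂ) (ν : Fin (r + 1) → ℕ) :
    sch e (ν + 1) = e (Fin.last r) * sch e ν := by
  by_cases h : Antitone ν
  · rw [(isPieri_sch e).rel ν h (Fin.last r), Fin.val_last]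
    have h1 : Finset.powersetCard (r + 1) (Finset.univ : Finset (Fin (r + 1))) =
        {Finset.univ} := by
      have h2 := Finset.powersetCard_self (Finset.univ : Finset (Fin (r + 1)))
      rwa [Finset.card_univ, Fintype.card_fin] at h2
    rw [h1, Finset.sum_singleton]
    congr 1
    funext i
    simp [ind]
  · rw [sch_eq_zero e h, mul_zero]
    refine sch_eq_zero e fun h' => h fun a b hab => ?_
    have := h' hab
    simpa using this

/-- `e_n = det`. -/
theorem emx_last {r : ℕ} (B : Matrix (Fin (r + 1)) (Fin (r + 1)) ℂ) :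
    emx B (Fin.last r) = B.det := by
  rw [Matrix.det_eq_sign_charpoly_coeff, emx, Fin.val_last, Nat.sub_self, Fintype.card_fin]

theorem emx_inv_last {r : ℕ} (B : Matrix (Fin (r + 1)) (Fin (r + 1)) ℂ) (hB : B.det ≠ 0) :
    emx B⁻¹ (Fin.last r) = B.det⁻¹ := by
  rw [emx_last, Matrix.det_nonsing_inv, Ring.inverse_eq_inv']

/-- `e_{i+1}(B⁻¹) = e_{r-i}(B) / det B` for `i < r` (`n = r + 1`). -/
theorem emx_inv {r : ℕ} (B : Matrix (Fin (r + 1)) (Fin (r + 1)) ℂ) (hB : B.det ≠ 0) (i : Fin r) :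
    emx B⁻¹ i.castSucc = emx B i.rev.castSucc / B.det := by
  have hu : IsUnit B := (Matrix.isUnit_iff_isUnit_det B).2 (isUnit_iff_ne_zero.2 hB)
  have hi := i.2
  have h1 : B.charpolyRev.coeff (r - (i : ℕ)) = B.charpoly.coeff ((i : ℕ) + 1) := by
    rw [← Matrix.reverse_charpoly, Polynomial.coeff_reverse, Matrix.charpoly_natDegree_eq_dim,
      Fintype.card_fin, Polynomial.revAt_le (by omega)]
    congr 1
    omega
  have h2 : r + 1 - ((i : ℕ) + 1) = r - i := by omega
  have h3 : r + 1 - (r - ((i : ℕ) + 1) + 1) = i + 1 := by omega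
  have h4 : r - ((i : ℕ) + 1) + 1 = r - i := by omega
  rw [emx, emx, Matrix.charpoly_inv B hu, Fin.val_castSucc, Fin.val_castSucc, Fin.val_rev, h2, h3,
    h4, Fintype.card_fin, Ring.inverse_eq_inv', mul_assoc]
  have h5 : ((-1 : Polynomial ℂ) ^ (r + 1) * (Polynomial.C B.det⁻¹ * B.charpolyRev)).coeff
      (r - (i : ℕ)) = (-1) ^ (r + 1) * (B.det⁻¹ * B.charpoly.coeff ((i : ℕ) + 1)) := by
    have h6 : ((-1 : Polynomial ℂ) ^ (r + 1)) = Polynomial.C ((-1 : ℂ) ^ (r + 1)) := by
      simp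
    rw [h6, Polynomial.coeff_C_mul, Polynomial.coeff_C_mul, h1]
  rw [h5]
  have h7 : (-1 : ℂ) ^ ((i : ℕ) + 1) * (-1) ^ (r + 1) = (-1) ^ (r - (i : ℕ)) := by
    rw [← pow_add]
    have h8 : (i : ℕ) + 1 + (r + 1) = (r - i) + 2 * (i + 1) := by omega
    rw [h8, pow_add, pow_mul]
    simp
  calc _ = ((-1 : ℂ) ^ ((i : ℕ) + 1) * (-1) ^ (r + 1)) *
        (B.det⁻¹ * B.charpoly.coeff ((i : ℕ) + 1)) := by ring
    _ = _ := by
        rw [h7, div_eq_mul_inv]
        ring

/-- The complement `N - m (rev j)`. -/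
def SDu_co {r : ℕ} (N : ℕ) (m : Fin (r + 1) → ℕ) : Fin (r + 1) → ℕ := fun j => N - m j.rev

theorem SDu_co_anti {r N : ℕ} {m : Fin (r + 1) → ℕ} (h : Antitone m) : Antitone (SDu_co N m) := by
  intro a b hab
  have h1 := h (Fin.rev_le_rev.2 hab)
  unfold SDu_co
  omega

theorem SDu_co_co {r N : ℕ} {m : Fin (r + 1) → ℕ} (h : ∀ i, m i ≤ N) :
    SDu_co N (SDu_co N m) = m := by
  funext i
  unfold SDu_co
  rw [Fin.rev_rev]
  have := h i
  omega

theorem SDu_co_iff {r N : ℕ} {m : Fin (r + 1) → ℕ} (h : ∀ i, m i ≤ N) :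
    Antitone (SDu_co N m) ↔ Antitone m := by
  constructor
  · intro h1
    rw [← SDu_co_co h]
    exact SDu_co_anti h1
  · exact SDu_co_anti

/-- The complementary set. -/
def SDu_c {r : ℕ} (S : Finset (Fin (r + 1))) : Finset (Fin (r + 1)) :=
  Finset.univ.filter fun j => j.rev ∉ S

theorem SDu_c_c {r : ℕ} (S : Finset (Fin (r + 1))) : SDu_c (SDu_c S) = S := by
  ext j
  simp [SDu_c]

theorem SDu_c_card {r : ℕ} (S : Finset (Fin (r + 1))) : (SDu_c S).card = r + 1 - S.card := by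
  have h1 : (SDu_c S).card = (Sᶜ).card := by
    refine Finset.card_nbij' Fin.rev Fin.rev ?_ ?_ ?_ ?_
    · intro j hj
      simpa [SDu_c] using hj
    · intro j hj
      simpa [SDu_c] using hj
    · intro j _
      exact Fin.rev_rev j
    · intro j _
      exact Fin.rev_rev j
  rw [h1, Finset.card_compl, Fintype.card_fin]

theorem SDu_c_ind {r : ℕ} {l : Fin (r + 1) → ℕ} (h : ∀ i, l i ≤ l 0) (S : Finset (Fin (r + 1))) :
    SDu_co (l 0) l + ind (SDu_c S) = SDu_co (l 0 + 1) (l + ind S) := by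
  funext j
  have h1 := h j.rev
  simp only [SDu_co, ind, SDu_c, Pi.add_apply, Finset.mem_filter, Finset.mem_univ, true_and]
  by_cases h2 : j.rev ∈ S
  · simp only [h2, not_true_eq_false, if_false, if_true]
    omega
  · simp only [h2, not_false_eq_true, if_false, if_true]
    omega

theorem SDu_sum {r k : ℕ} (hk : k ≤ r + 1) (f : Finset (Fin (r + 1)) → ℂ) :
    ∑ S ∈ Finset.powersetCard k Finset.univ, f (SDu_c S) =
      ∑ S ∈ Finset.powersetCard (r + 1 - k) Finset.univ, f S := by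
  refine Finset.sum_nbij' SDu_c SDu_c ?_ ?_ ?_ ?_ ?_
  · intro S hS
    rw [Finset.mem_powersetCard] at hS ⊢
    exact ⟨Finset.subset_univ _, by rw [SDu_c_card, hS.2]⟩
  · intro S hS
    rw [Finset.mem_powersetCard] at hS ⊢
    refine ⟨Finset.subset_univ _, ?_⟩
    rw [SDu_c_card, hS.2]
    omega
  · intro S _
    exact SDu_c_c S
  · intro S _
    exact SDu_c_c S
  · intro S _
    rfl

open Classical in
/-- The dual system. -/
def SDu_u {r : ℕ} (B : Matrix (Fin (r + 1)) (Fin (r + 1)) ℂ) (l : Fin (r + 1) → ℕ) : ℂ :=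
  if Antitone l then B.det ^ (l 0) * sch (emx B⁻¹) (SDu_co (l 0) l) else 0

theorem SDu_term {r : ℕ} (B : Matrix (Fin (r + 1)) (Fin (r + 1)) ℂ) (hB : B.det ≠ 0)
    {l : Fin (r + 1) → ℕ} (hl : Antitone l) (S : Finset (Fin (r + 1))) :
    SDu_u B (l + ind S) = B.det ^ (l 0 + 1) *
      sch (emx B⁻¹) (SDu_co (l 0) l + ind (SDu_c S)) := by
  have h0 : ∀ i, l i ≤ l 0 := fun i => hl (Fin.zero_le i)
  have hi : ∀ i, ind S i ≤ 1 := by
    intro i
    unfold ind
    split_ifs <;> omega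
  have h1 : ∀ i, (l + ind S) i ≤ l 0 + 1 := fun i => by
    have := h0 i
    have := hi i
    simp only [Pi.add_apply]
    omega
  rw [SDu_c_ind h0 S]
  by_cases ha : Antitone (l + ind S)
  · rw [SDu_u, if_pos ha]
    have h2 : (l + ind S) 0 = l 0 + ind S 0 := rfl
    have h3 := hi 0
    rcases Nat.lt_or_ge (ind S 0) 1 with h4 | h4
    · have h5 : (l + ind S) 0 = l 0 := by omega
      have h6 : SDu_co (l 0 + 1) (l + ind S) = SDu_co (l 0) (l + ind S) + 1 := by
        funext j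
        have h7 := ha (Fin.zero_le j.rev)
        simp only [SDu_co, Pi.add_apply, Pi.one_apply] at h7 ⊢
        omega
      rw [h6, sch_add_one, emx_inv_last B hB, h5, pow_succ]
      field_simp
    · have h5 : (l + ind S) 0 = l 0 + 1 := by omega
      rw [h5]
  · rw [SDu_u, if_neg ha, sch_eq_zero, mul_zero]
    rw [SDu_co_iff h1]
    exact ha

theorem SDu_pieri {r : ℕ} (B : Matrix (Fin (r + 1)) (Fin (r + 1)) ℂ) (hB : B.det ≠ 0) :
    IsPieri (emx B) (SDu_u B) := by
  refine ⟨fun ν hν => if_neg hν, fun l hl k => ?_⟩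
  rw [Finset.sum_congr rfl fun S _ => SDu_term B hB hl S, ← Finset.mul_sum,
    SDu_sum (by have := k.2; omega) fun S => sch (emx B⁻¹) (SDu_co (l 0) l + ind S), SDu_u,
    if_pos hl]
  induction k using Fin.lastCases with
  | last =>
    have h1 : r + 1 - ((Fin.last r : ℕ) + 1) = 0 := by
      rw [Fin.val_last]
      omega
    rw [h1, Finset.powersetCard_zero, Finset.sum_singleton, emx_last]
    have h2 : SDu_co (l 0) l + ind ∅ = SDu_co (l 0) l := by
      funext j
      simp [ind]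
    rw [h2, pow_succ]
    ring
  | cast i =>
    have h1 : r + 1 - ((i.castSucc : ℕ) + 1) = (i.rev.castSucc : ℕ) + 1 := by
      have := i.2
      rw [Fin.val_castSucc, Fin.val_castSucc, Fin.val_rev]
      omega
    rw [h1, ← (isPieri_sch (emx B⁻¹)).rel _ (SDu_co_anti hl) i.rev.castSucc, emx_inv B hB,
      Fin.rev_rev, pow_succ]
    field_simp

theorem sch_dual {r : ℕ} (B : Matrix (Fin (r + 1)) (Fin (r + 1)) ℂ) (hB : B.det ≠ 0)
    {l : Fin (r + 1) → ℕ} (hl : Antitone l) :
    sch (emx B) l = B.det ^ (l 0) * sch (emx B⁻¹) (fun j => l 0 - l j.rev) := by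
  have h1 := eq_sch (SDu_pieri B hB) l
  have h0 : SDu_u B 0 = 1 := by
    have ha : Antitone (0 : Fin (r + 1) → ℕ) := fun _ _ _ => le_rfl
    have h2 : SDu_co ((0 : Fin (r + 1) → ℕ) 0) (0 : Fin (r + 1) → ℕ) = 0 := by
      funext j
      simp [SDu_co]
    rw [SDu_u, if_pos ha, h2, sch_zero]
    simp
  rw [h0, mul_one] at h1
  rw [← h1, SDu_u, if_pos hl]
  rfl

end Pool.Agent.GL74
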