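import Pool.Agent.W_7742x_h74.SExp
import Pool.Agent.W_7742x_h74.SDu

/-! # The local factor

`lam a = (a_0 + ... + a_{r-1}, a_1 + ... + a_{r-1}, ..., a_{r-1}, 0)` are the antitone weights of
size `n = r + 1` with last entry `0`.  The dual weight `ν_j = l_0 - l_{rev j}` of `l = lam a` has
`|ν| = n l_0 - |l| = ∑_i (r - i) a_i` and last entry `0`, and `l ↦ ν` is a bijection of the
antitone weights with last entry `0`.  Every antitone `ν` is uniquely `ν' + k` with `ν'` antitone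
with last entry `0` and `k = ν_last`, `‖sch e (ν' + k)‖ = ‖sch e ν'‖` if `‖e_n‖ = 1`
(`sch_add_one`).  Hence with `e = emx B`, `e* = emx B⁻¹`, `‖det B‖ = 1`, `0 < x < 1`:

`∑_ν ‖sch e* ν‖² x^{|ν|} = ∑_k x^{nk} ∑_{ν last = 0} ‖sch e* ν‖² x^{|ν|}
 = (1 - x^n)⁻¹ ∑_a ‖sch e (lam a)‖² x^{∑ (r-i) a_i}` (`sch_dual`), and `sum_sch` for `B⁻¹`. -/

set_option autoImplicit false

noncomputable section

namespace Pool.Agent.GL74

open scoped ENNReal

/-- The weight with the differences `a`. -/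
def lam {r : ℕ} (a : Fin r → ℕ) : Fin (r + 1) → ℕ :=
  fun j => ∑ i ∈ Finset.univ.filter (fun i : Fin r => (j : ℕ) ≤ (i : ℕ)), a i

/-- The exponent of `x`. -/
def wexp {r : ℕ} (a : Fin r → ℕ) : ℕ := ∑ i : Fin r, (r - (i : ℕ)) * a i

/-- The local sum. -/
def locF {r : ℕ} (B : Matrix (Fin (r + 1)) (Fin (r + 1)) ℂ) (x : ℝ) : ℝ≥0∞ :=
  ∑' a : Fin r → ℕ, ENNReal.ofReal (‖sch (emx B) (lam a)‖ ^ 2 * x ^ wexp a)

/-- The dual weight. -/
def SLoc_M {r : ℕ} (a : Fin r → ℕ) (j : ℕ) : ℕ :=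
  ∑ i ∈ Finset.univ.filter (fun i : Fin r => (i : ℕ) + j < r), a i

theorem SLoc_M_last {r : ℕ} (a : Fin r → ℕ) : SLoc_M a r = 0 := by
  unfold SLoc_M
  refine Finset.sum_eq_zero fun i hi => ?_
  have := (Finset.mem_filter.1 hi).2
  omega

theorem SLoc_M_succ {r : ℕ} (a : Fin r → ℕ) {j : ℕ} (hj : j < r) :
    SLoc_M a j = SLoc_M a (j + 1) + a ⟨r - 1 - j, by omega⟩ := by
  classical
  unfold SLoc_M
  have h1 : Finset.univ.filter (fun i : Fin r => (i : ℕ) + j < r) =
      insert ⟨r - 1 - j, by omega⟩ (Finset.univ.filter (fun i : Fin r => (i : ℕ) + (j + 1) < r)) := by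
    ext i
    simp only [Finset.mem_filter, Finset.mem_univ, true_and, Finset.mem_insert, Fin.ext_iff]
    have := i.2
    omega
  rw [h1, Finset.sum_insert, add_comm]
  simp only [Finset.mem_filter, Finset.mem_univ, true_and]
  omega

theorem SLoc_M_lam {r : ℕ} (a : Fin r → ℕ) (j : Fin (r + 1)) :
    lam a 0 - lam a j.rev = SLoc_M a j := by
  have h1 : lam a 0 = SLoc_M a j + lam a j.rev := by
    unfold lam SLoc_M
    have h2 := Finset.sum_filter_add_sum_filter_not (Finset.univ : Finset (Fin r))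
      (fun i : Fin r => (i : ℕ) + (j : ℕ) < r) a
    have h3 : Finset.univ.filter (fun i : Fin r => ¬ ((i : ℕ) + (j : ℕ) < r)) =
        Finset.univ.filter (fun i : Fin r => (j.rev : ℕ) ≤ (i : ℕ)) := by
      ext i
      simp only [Finset.mem_filter, Finset.mem_univ, true_and, Fin.val_rev]
      have := j.2
      omega
    have h4 : Finset.univ.filter (fun i : Fin r => ((0 : Fin (r + 1)) : ℕ) ≤ (i : ℕ)) =
        Finset.univ := by
      ext i
      simp
    rw [h3] at h2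
    rw [h4, h2]
  omega

theorem SLoc_M_anti {r : ℕ} (a : Fin r → ℕ) {j j' : ℕ} (h : j ≤ j') :
    SLoc_M a j' ≤ SLoc_M a j := by
  unfold SLoc_M
  refine Finset.sum_le_sum_of_subset fun i hi => ?_
  simp only [Finset.mem_filter, Finset.mem_univ, true_and] at hi ⊢
  omega

theorem SLoc_M_sum {r : ℕ} (a : Fin r → ℕ) : ∑ j : Fin (r + 1), SLoc_M a j = wexp a := by
  unfold SLoc_M wexp
  simp only [Finset.sum_filter]
  rw [Finset.sum_comm]
  refine Finset.sum_congr rfl fun i _ => ?_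
  rw [← Finset.sum_filter, Finset.sum_const, smul_eq_mul]
  congr 1
  have hi := i.2
  have h1 : (Finset.univ.filter fun j : Fin (r + 1) => (i : ℕ) + (j : ℕ) < r) =
      Finset.Iio (⟨r - i, by omega⟩ : Fin (r + 1)) := by
    ext j
    simp only [Finset.mem_filter, Finset.mem_univ, true_and, Finset.mem_Iio, Fin.lt_def]
    omega
  rw [h1, Fin.card_Iio]

/-- The parametrisation of the antitone weights. -/
def SLoc_P {r : ℕ} (p : ℕ × (Fin r → ℕ)) : Fin (r + 1) → ℕ := fun j => SLoc_M p.2 j + p.1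

theorem SLoc_P_inj {r : ℕ} : Function.Injective (SLoc_P (r := r)) := by
  rintro ⟨k, a⟩ ⟨k', a'⟩ h
  have h1 : ∀ j : ℕ, j ≤ r → SLoc_M a j + k = SLoc_M a' j + k' := by
    intro j hj
    exact congrFun h ⟨j, by omega⟩
  have hk : k = k' := by
    have := h1 r le_rfl
    rwa [SLoc_M_last, SLoc_M_last, zero_add, zero_add] at this
  have ha : a = a' := by
    funext i
    have hi := i.2
    have h2 := h1 (r - 1 - i) (by omega)
    have h3 := h1 (r - 1 - i + 1) (by omega)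
    have h4 := SLoc_M_succ a (j := r - 1 - i) (by omega)
    have h5 := SLoc_M_succ a' (j := r - 1 - i) (by omega)
    have h6 : (⟨r - 1 - (r - 1 - (i : ℕ)), by omega⟩ : Fin r) = i := by
      apply Fin.ext
      simp only
      omega
    rw [h6] at h4 h5
    omega
  rw [hk, ha]

theorem SLoc_P_surj {r : ℕ} {ν : Fin (r + 1) → ℕ} (h : Antitone ν) :
    ν ∈ Set.range (SLoc_P (r := r)) := by
  refine ⟨(ν (Fin.last r), fun i => ν ⟨r - 1 - i, by omega⟩ - ν ⟨r - i, by omega⟩), ?_⟩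
  funext j
  have key : ∀ d : ℕ, d ≤ r → SLoc_M (fun i : Fin r => ν ⟨r - 1 - i, by omega⟩ -
      ν ⟨r - i, by omega⟩) (r - d) + ν (Fin.last r) = ν ⟨r - d, by omega⟩ := by
    intro d
    induction d with
    | zero =>
      intro _
      show SLoc_M _ r + ν (Fin.last r) = ν (Fin.last r)
      rw [SLoc_M_last, zero_add]
    | succ d ih =>
      intro hd
      have h1 := ih (by omega)
      rw [SLoc_M_succ _ (j := r - (d + 1)) (by omega)]
      have h2 : r - (d + 1) + 1 = r - d := by omega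
      rw [h2]
      simp only
      have h3 : (⟨r - 1 - (r - 1 - (r - (d + 1))), by omega⟩ : Fin (r + 1)) =
          ⟨r - (d + 1), by omega⟩ := by
        apply Fin.ext
        simp only
        omega
      have h4 : (⟨r - (r - 1 - (r - (d + 1))), by omega⟩ : Fin (r + 1)) =
          ⟨r - d, by omega⟩ := by
        apply Fin.ext
        simp only
        omega
      rw [h3, h4]
      have h5 : ν ⟨r - d, by omega⟩ ≤ ν ⟨r - (d + 1), by omega⟩ := by
        apply h
        rw [Fin.le_def]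
        simp only
        omega
      omega
  have hj := j.2
  have h1 := key (r - j) (by omega)
  have h2 : (⟨r - (r - (j : ℕ)), by omega⟩ : Fin (r + 1)) = j := by
    apply Fin.ext
    simp only
    omega
  have h3 : r - (r - (j : ℕ)) = j := by omega
  rw [h2, h3] at h1
  exact h1

theorem SLoc_sch_add {r : ℕ} (e : Fin (r + 1) → ℂ) (ν : Fin (r + 1) → ℕ) (k : ℕ) :
    sch e (fun j => ν j + k) = e (Fin.last r) ^ k * sch e ν := by
  induction k with
  | zero => simp
  | succ k ih =>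
    have h1 : (fun j => ν j + (k + 1)) = (fun j => ν j + k) + 1 := by
      funext j
      simp only [Pi.add_apply, Pi.one_apply]
      omega
    rw [h1, sch_add_one, ih, pow_succ]
    ring

theorem SLoc_term {r : ℕ} (B : Matrix (Fin (r + 1)) (Fin (r + 1)) ℂ) (hB : ‖B.det‖ = 1)
    {x : ℝ} (hx : 0 < x) (k : ℕ) (a : Fin r → ℕ) :
    ENNReal.ofReal (‖sch (emx B⁻¹) (SLoc_P (k, a))‖ ^ 2 * x ^ (∑ j, SLoc_P (k, a) j)) =
      ENNReal.ofReal (x ^ (r + 1)) ^ k *
        ENNReal.ofReal (‖sch (emx B) (lam a)‖ ^ 2 * x ^ wexp a) := by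
  have hB0 : B.det ≠ 0 := by
    intro h
    rw [h, norm_zero] at hB
    exact zero_ne_one hB
  have hl : Antitone (lam a) := by
    intro i j hij
    unfold lam
    refine Finset.sum_le_sum_of_subset fun m hm => ?_
    simp only [Finset.mem_filter, Finset.mem_univ, true_and] at hm ⊢
    have := Fin.le_def.1 hij
    omega
  have h1 : ‖sch (emx B⁻¹) (SLoc_P (k, a))‖ = ‖sch (emx B) (lam a)‖ := by
    have h2 : SLoc_P (k, a) = fun j : Fin (r + 1) => SLoc_M a (j : ℕ) + k := rfl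
    rw [h2, SLoc_sch_add (emx B⁻¹) (fun j : Fin (r + 1) => SLoc_M a (j : ℕ)) k, norm_mul, norm_pow,
      emx_inv_last B hB0, norm_inv, hB, inv_one, one_pow, one_mul, sch_dual B hB0 hl, norm_mul,
      norm_pow, hB, one_pow, one_mul]
    congr 2
    funext j
    exact (SLoc_M_lam a j).symm
  have h3 : ∑ j, SLoc_P (k, a) j = (r + 1) * k + wexp a := by
    unfold SLoc_P
    simp only
    rw [Finset.sum_add_distrib, SLoc_M_sum, Finset.sum_const, Finset.card_univ, Fintype.card_fin,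
      smul_eq_mul]
    ring
  rw [h1, h3, ← ENNReal.ofReal_pow (by positivity), ← ENNReal.ofReal_mul (by positivity)]
  congr 1
  rw [pow_add, pow_mul]
  ring

theorem locF_eq_tsum {r : ℕ} (B : Matrix (Fin (r + 1)) (Fin (r + 1)) ℂ) (hB : ‖B.det‖ = 1)
    {x : ℝ} (hx : 0 < x) (hx1 : x < 1) :
    ∑' ν : Fin (r + 1) → ℕ, ENNReal.ofReal (‖sch (emx B⁻¹) ν‖ ^ 2 * x ^ (∑ j, ν j)) =
      ENNReal.ofReal ((1 - x ^ (r + 1))⁻¹) * locF B x := by
  have hx2 : x ^ (r + 1) < 1 := pow_lt_one₀ hx.le hx1 (Nat.succ_ne_zero r)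
  have hx0 : 0 < x ^ (r + 1) := by positivity
  have hinj := (SLoc_P_inj (r := r)).tsum_eq (f := fun ν : Fin (r + 1) → ℕ =>
    ENNReal.ofReal (‖sch (emx B⁻¹) ν‖ ^ 2 * x ^ (∑ j, ν j))) (by
      intro ν hν
      by_contra hcon
      apply hν
      have h1 : ¬ Antitone ν := fun h => hcon (SLoc_P_surj h)
      simp [sch_eq_zero _ h1])
  rw [← hinj, ENNReal.tsum_prod']
  simp only [SLoc_term B hB hx]
  simp only [ENNReal.tsum_mul_left]
  rw [ENNReal.tsum_mul_right, ENNReal.tsum_geometric, locF]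
  congr 1
  rw [ENNReal.ofReal_inv_of_pos (by linarith), ENNReal.ofReal_sub _ hx0.le, ENNReal.ofReal_one]

theorem locF_eq {r : ℕ} (B : Matrix (Fin (r + 1)) (Fin (r + 1)) ℂ) (hB : ‖B.det‖ = 1)
    {x : ℝ} (hx : 0 < x) (hx1 : x < 1) (hfin : locF B x ≠ ∞) :
    (Summable fun k : ℕ => ‖(B⁻¹ ^ (k + 1)).trace‖ ^ 2 * x ^ (k + 1) / ((k : ℝ) + 1)) ∧
    locF B x = ENNReal.ofReal ((1 - x ^ (r + 1)) *
      Real.exp (∑' k : ℕ, ‖(B⁻¹ ^ (k + 1)).trace‖ ^ 2 * x ^ (k + 1) / ((k : ℝ) + 1))) := by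
  have hx2 : x ^ (r + 1) < 1 := pow_lt_one₀ hx.le hx1 (Nat.succ_ne_zero r)
  have h1 := locF_eq_tsum B hB hx hx1
  obtain ⟨h2, h3⟩ := sum_sch B⁻¹ hx (by
    rw [h1]
    exact ENNReal.mul_ne_top ENNReal.ofReal_ne_top hfin)
  refine ⟨h2, ?_⟩
  rw [h1] at h3
  have hpos : (0 : ℝ) < 1 - x ^ (r + 1) := by linarith
  rw [ENNReal.ofReal_mul hpos.le, ← h3, ← mul_assoc, ← ENNReal.ofReal_mul hpos.le,
    mul_inv_cancel₀ hpos.ne', ENNReal.ofReal_one, one_mul]

end Pool.Agent.GL74
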