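import Pool.Agent.W_7742x_h74.HInd
import Pool.Agent.W_7742x_h74.SLoc

/-! # The Whittaker function of a Hecke eigenform is a Pieri system

`IsEig φ p ξ ev`: `φ` is an eigenfunction of all Hecke operators at `p` (`n = r + 1`; the
operator of index `k + 1` has the eigenvalue `p^{(k+1)(r-k)/2} ev k`), `ξ` is the value of the
conjugate character.

Fix `m` with `p ∤ m i` for `i < r` and `t` with nonzero diagonal.  For antitone `ν` put
`m(ν)_i = m_i p^{ν_i - ν_{i+1}}`, `t(ν) = p^ν t` and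
`w(ν) = ξ^{ν_0} (√p)^{∑ ν_j (r - 2j)} Wh φ m(ν) t(ν)`, `w(ν) = 0` otherwise.

`isPieri_whit`: apply `Wh` to the eigenvalue equation (linearity of `Wh` in `φ`: sums of the
bounded measurable functions `Hk p S φ`), use `Wh_Hk` at `(m(ν), t(ν))`:
`(√p)^{(k+1)(r-k)} ev_k Wh φ m(ν) t(ν) = ∑_{|S| = k+1} ξ^{[0 ∈ S]} [okm] p^{cS S}
Wh φ (shm p S m(ν)) (dg p S t(ν))`.  If `ν + 1_S` is antitone, `okm` holds (for `i ∉ S`,
`i + 1 ∈ S` one has `ν_i > ν_{i+1}`) and `shm p S m(ν) = m(ν + 1_S)` (up to irrelevant entries, in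
fact equal), `dg p S t(ν) = t(ν + 1_S)`; if not, there is `i ∉ S`, `i + 1 ∈ S`, `ν_i = ν_{i+1}`,
and `p ∤ m(ν)_i = m_i`, so the term vanishes.  Finally
`2 cS S - ∑_{j ∈ S} (r - 2j) = (k+1)(r-k)` for `|S| = k + 1`
(`cS S = ∑_{j ∈ S} (r - j) - (k+1)k/2`).

`norm_whit`: `w ν = sch ev ν * w 0` (`eq_sch`), `‖ξ‖ = 1`. -/

set_option autoImplicit false

noncomputable section

namespace Pool.Agent.GL74

open MeasureTheory
open scoped ENNReal MatrixGroups

/-- Eigenfunctions of the Hecke operators at `p`. -/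
def IsEig {r : ℕ} (φ : X (r + 1) → ℂ) (p : ℕ) (ξ : ℂ) (ev : Fin (r + 1) → ℂ) : Prop :=
  ∀ (k : Fin (r + 1)) (g : X (r + 1)),
    ∑ S ∈ Finset.powersetCard ((k : ℕ) + 1) Finset.univ,
      (if (0 : Fin (r + 1)) ∈ S then ξ else 1) * Hk p S φ g =
    (Real.sqrt p : ℂ) ^ (((k : ℕ) + 1) * (r - k)) * ev k * φ g

/-- The parameters `m_i p^{ν_i - ν_{i+1}}`. -/
def mnu {r : ℕ} (p : ℕ) (m : ℕ → ℤ) (ν : Fin (r + 1) → ℕ) : ℕ → ℤ := fun i =>
  if h : i < r then m i * (p : ℤ) ^ (ν ⟨i, by omega⟩ - ν ⟨i + 1, by omega⟩) else m i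

/-- The rows multiplied by `p^{ν_i}`. -/
def tnu {r : ℕ} (p : ℕ) (t : X (r + 1)) (ν : Fin (r + 1) → ℕ) : X (r + 1) :=
  fun i j => (p : ℝ) ^ ν i * t i j

open Classical in
/-- The normalised Whittaker function. -/
def whit {r : ℕ} (φ : X (r + 1) → ℂ) (p : ℕ) (ξ : ℂ) (m : ℕ → ℤ) (t : X (r + 1))
    (ν : Fin (r + 1) → ℕ) : ℂ :=
  if Antitone ν then ξ ^ (ν 0) *
    (Real.sqrt p : ℂ) ^ (∑ j : Fin (r + 1), (ν j : ℤ) * ((r : ℤ) - 2 * (j : ℕ))) *
      Wh (r + 1) φ (mnu p m ν) (tnu p t ν)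
  else 0

/-! ### Linearity -/

/-- Bounded measurable functions. -/
def HPie_BM {s : ℕ} (φ : X s → ℂ) : Prop := Measurable φ ∧ ∃ C : ℝ, 0 ≤ C ∧ ∀ g, ‖φ g‖ ≤ C

theorem HPie_BM_of {s : ℕ} {φ : X (s + 1) → ℂ} (hφ : IsP φ) : HPie_BM φ := by
  obtain ⟨C, hC⟩ := hφ.bdd
  exact ⟨hφ.meas, max C 0, le_max_right _ _, fun g => (hC g).trans (le_max_left _ _)⟩

theorem HPie_BM_add {s : ℕ} {φ ψ : X s → ℂ} (hφ : HPie_BM φ) (hψ : HPie_BM ψ) :
    HPie_BM fun g => φ g + ψ g := by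
  obtain ⟨h1, C, hC, h2⟩ := hφ
  obtain ⟨h3, D, hD, h4⟩ := hψ
  exact ⟨h1.add h3, C + D, add_nonneg hC hD, fun g => (norm_add_le _ _).trans
    (add_le_add (h2 g) (h4 g))⟩

theorem HPie_BM_mul {s : ℕ} {φ : X s → ℂ} (c : ℂ) (hφ : HPie_BM φ) : HPie_BM fun g => c * φ g := by
  obtain ⟨h1, C, hC, h2⟩ := hφ
  exact ⟨h1.const_mul c, ‖c‖ * C, mul_nonneg (norm_nonneg _) hC, fun g => by
    rw [norm_mul]
    exact mul_le_mul_of_nonneg_left (h2 g) (norm_nonneg _)⟩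

theorem HPie_BM_zero {s : ℕ} : HPie_BM fun _ : X s => (0 : ℂ) :=
  ⟨measurable_const, 0, le_rfl, fun _ => by simp⟩

theorem HPie_BM_sum {s : ℕ} {ι : Type*} (I : Finset ι) (F : ι → X s → ℂ)
    (h : ∀ i ∈ I, HPie_BM (F i)) : HPie_BM fun g => ∑ i ∈ I, F i g := by
  classical
  induction I using Finset.induction_on with
  | empty =>
    simp only [Finset.sum_empty]
    exact HPie_BM_zero
  | insert a I ha ih =>
    simp only [Finset.sum_insert ha]
    exact HPie_BM_add (h a (Finset.mem_insert_self _ _))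
      (ih fun i hi => h i (Finset.mem_insert_of_mem hi))

theorem HPie_BM_Hk {s : ℕ} {φ : X s → ℂ} (hφ : HPie_BM φ) (p : ℕ) (S : Finset (Fin s)) :
    HPie_BM (Hk p S φ) := by
  refine HPie_BM_sum (bs p S) (fun b g => φ (lm (dl p S b) g)) fun b _ => ?_
  obtain ⟨h1, C, hC, h2⟩ := hφ
  exact ⟨h1.comp (measurable_lm _), C, hC, fun g => h2 _⟩

theorem HPie_BM_coef {s : ℕ} {φ : X (s + 1) → ℂ} (hφ : HPie_BM φ) (w : Fin s → ℤ)
    (v : Fin (s + 1) → ℝ) : HPie_BM (coef w φ v) := by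
  obtain ⟨h1, C, hC, h2⟩ := hφ
  exact ⟨(measurable_coef h1 w).comp (measurable_const.prodMk measurable_id), C, hC,
    fun g => norm_coef_le hC h2 _ _ _⟩

theorem HPie_int {s : ℕ} {φ : X (s + 1) → ℂ} (hφ : HPie_BM φ) (w : Fin s → ℤ)
    (v : Fin (s + 1) → ℝ) (h : X s) :
    Integrable (fun θ : Fin s → ℝ => e (-(∑ i, (w i : ℝ) * θ i)) * φ (glue h (v 0 • θ) v))
      (volume.restrict (Set.Icc (0 : Fin s → ℝ) 1)) := by
  obtain ⟨h1, C, hC, h2⟩ := hφ
  have : IsFiniteMeasure (volume.restrict (Set.Icc (0 : Fin s → ℝ) 1)) :=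
    ⟨by rw [Measure.restrict_apply_univ]; exact isCompact_Icc.measure_lt_top⟩
  have hg : Measurable fun θ : Fin s → ℝ => glue h (v 0 • θ) v :=
    measurable_glue.comp (g := fun q : (X s × (Fin s → ℝ)) × (Fin (s + 1) → ℝ) =>
      glue q.1.1 q.1.2 q.2) (f := fun θ : Fin s → ℝ => ((h, v 0 • θ), v)) (by fun_prop)
  have h3 : Measurable fun θ : Fin s → ℝ =>
      e (-(∑ i, (w i : ℝ) * θ i)) * φ (glue h (v 0 • θ) v) := by
    refine Measurable.mul (FCoe_e_meas.comp ?_) (h1.comp hg)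
    fun_prop
  refine Integrable.of_bound h3.aestronglyMeasurable C (Filter.Eventually.of_forall fun θ => ?_)
  rw [norm_mul, FCoe_norm_e, one_mul]
  exact h2 _

theorem HPie_coef_add {s : ℕ} {φ ψ : X (s + 1) → ℂ} (hφ : HPie_BM φ) (hψ : HPie_BM ψ)
    (w : Fin s → ℤ) (v : Fin (s + 1) → ℝ) :
    coef w (fun g => φ g + ψ g) v = fun h => coef w φ v h + coef w ψ v h := by
  funext h
  unfold coef
  rw [← integral_add (HPie_int hφ w v h) (HPie_int hψ w v h)]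
  congr 1
  funext θ
  ring

theorem HPie_Wh_add {s : ℕ} {φ ψ : X s → ℂ} (hφ : HPie_BM φ) (hψ : HPie_BM ψ) (m : ℕ → ℤ)
    (t : X s) : Wh s (fun g => φ g + ψ g) m t = Wh s φ m t + Wh s ψ m t := by
  induction s generalizing m with
  | zero => rfl
  | succ s ih =>
    rw [HInd_succ, HInd_succ, HInd_succ, HPie_coef_add hφ hψ]
    exact ih (HPie_BM_coef hφ _ _) (HPie_BM_coef hψ _ _) _ _

theorem HPie_Wh_sum {s : ℕ} {ι : Type*} (I : Finset ι) (F : ι → X s → ℂ)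
    (h : ∀ i ∈ I, HPie_BM (F i)) (m : ℕ → ℤ) (t : X s) :
    Wh s (fun g => ∑ i ∈ I, F i g) m t = ∑ i ∈ I, Wh s (F i) m t := by
  classical
  induction I using Finset.induction_on with
  | empty =>
    simp only [Finset.sum_empty]
    exact HInd_zero_fun m t
  | insert a I ha ih =>
    simp only [Finset.sum_insert ha]
    rw [HPie_Wh_add (h a (Finset.mem_insert_self _ _))
      (HPie_BM_sum I F fun i hi => h i (Finset.mem_insert_of_mem hi)),
      ih fun i hi => h i (Finset.mem_insert_of_mem hi)]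

/-! ### Combinatorics -/

theorem HPie_sum_tl {s : ℕ} (S : Finset (Fin (s + 1))) (f : Fin (s + 1) → ℤ) :
    ∑ j ∈ S, f j = (if (0 : Fin (s + 1)) ∈ S then f 0 else 0) + ∑ j ∈ tl S, f j.succ := by
  classical
  have h1 : ∑ j ∈ S, f j = ∑ j : Fin (s + 1), if j ∈ S then f j else 0 := by
    rw [Finset.sum_ite_mem, Finset.univ_inter]
  have h2 : ∑ j ∈ tl S, f j.succ = ∑ j : Fin s, if j.succ ∈ S then f j.succ else 0 := by
    unfold tl
    rw [Finset.sum_filter]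
  rw [h1, h2, Fin.sum_univ_succ]

theorem HPie_card_tl {s : ℕ} (S : Finset (Fin (s + 1))) :
    (S.card : ℤ) = (if (0 : Fin (s + 1)) ∈ S then 1 else 0) + ((tl S).card : ℤ) := by
  have := HPie_sum_tl S fun _ => 1
  simpa using this

theorem HPie_cS {n : ℕ} (S : Finset (Fin n)) :
    2 * (cS S : ℤ) = ∑ j ∈ S, ((n : ℤ) - 1 - 2 * (j : ℕ)) + S.card * ((n : ℤ) - S.card) := by
  induction n with
  | zero =>
    have hS : S = ∅ := by
      ext i
      exact i.elim0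
    subst hS
    simp [cS]
  | succ s ih =>
    have h1 := ih (tl S)
    have hc : (tl S).card ≤ s := by
      have := Finset.card_le_univ (tl S)
      simpa using this
    rw [HInd_cS, HPie_sum_tl, HPie_card_tl S]
    have h2 : ∑ j ∈ tl S, (((s + 1 : ℕ) : ℤ) - 1 - 2 * ((j.succ : Fin (s + 1)) : ℕ)) =
        ∑ j ∈ tl S, ((s : ℤ) - 1 - 2 * (j : ℕ)) - (tl S).card := by
      have h3 : ∀ j ∈ tl S, (((s + 1 : ℕ) : ℤ) - 1 - 2 * ((j.succ : Fin (s + 1)) : ℕ)) =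
          ((s : ℤ) - 1 - 2 * (j : ℕ)) - 1 := by
        intro j _
        rw [Fin.val_succ]
        push_cast
        ring
      rw [Finset.sum_congr rfl h3, Finset.sum_sub_distrib]
      simp
    rw [h2]
    push_cast
    split_ifs with h0
    · rw [Nat.cast_sub hc]
      simp only [Fin.val_zero]
      push_cast
      linarith
    · linarith

/-! ### Shifts of the parameters -/

theorem HPie_anti {n : ℕ} (ν : Fin (n + 1) → ℕ) :
    Antitone ν ↔ ∀ i (h : i < n), ν ⟨i + 1, by omega⟩ ≤ ν ⟨i, by omega⟩ := by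
  rw [Fin.antitone_iff_succ_le]
  constructor
  · intro h i hi
    exact h ⟨i, hi⟩
  · intro h i
    exact h i i.2

theorem HPie_okm {r : ℕ} {p : ℕ} (hp : p.Prime) {m : ℕ → ℤ} (hm : ∀ i, i < r → ¬ (p : ℤ) ∣ m i)
    {ν : Fin (r + 1) → ℕ} (hν : Antitone ν) (S : Finset (Fin (r + 1))) :
    okm p S (mnu p m ν) ↔ Antitone (ν + ind S) := by
  have hν' := (HPie_anti ν).1 hν
  have hpz : Prime (p : ℤ) := Nat.prime_iff_prime_int.1 hp
  rw [HPie_anti]
  constructor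
  · intro h i hi
    have h1 := h ⟨i, by omega⟩ ⟨i + 1, by omega⟩ rfl
    have h2 := hν' i hi
    simp only [Pi.add_apply, ind]
    by_cases ha : (⟨i, by omega⟩ : Fin (r + 1)) ∈ S
    · rw [if_pos ha]
      split_ifs <;> omega
    · by_cases hb : (⟨i + 1, by omega⟩ : Fin (r + 1)) ∈ S
      · rw [if_neg ha, if_pos hb]
        have h3 := h1 ha hb
        simp only [mnu, dif_pos hi] at h3
        rcases hpz.dvd_or_dvd h3 with h4 | h4
        · exact absurd h4 (hm i hi)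
        · by_contra hcon
          have h5 : ν ⟨i, by omega⟩ - ν ⟨i + 1, by omega⟩ = 0 := by omega
          rw [h5, pow_zero] at h4
          exact hpz.not_isUnit (isUnit_of_dvd_one h4)
      · rw [if_neg ha, if_neg hb]
        omega
  · intro h i j hij hi hj
    have hir : (i : ℕ) < r := by
      have := j.2
      omega
    have h1 := h i hir
    have e1 : (⟨(i : ℕ), by omega⟩ : Fin (r + 1)) = i := rfl
    have e2 : (⟨(i : ℕ) + 1, by omega⟩ : Fin (r + 1)) = j := Fin.ext hij.symm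
    simp only [Pi.add_apply, ind] at h1
    rw [e2, if_pos hj, if_neg hi] at h1
    simp only [mnu, dif_pos hir]
    rw [e2]
    refine Dvd.dvd.mul_left (dvd_pow_self _ ?_) _
    omega

theorem HPie_shm {r : ℕ} {p : ℕ} (hp : p.Prime) (m : ℕ → ℤ)
    {ν : Fin (r + 1) → ℕ} (hν : Antitone ν) {S : Finset (Fin (r + 1))}
    (hS : Antitone (ν + ind S)) : shm p S (mnu p m ν) = mnu p m (ν + ind S) := by
  have hν' := (HPie_anti ν).1 hν
  have hS' := (HPie_anti _).1 hS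
  have hp0 : (p : ℤ) ≠ 0 := by exact_mod_cast hp.ne_zero
  funext i
  unfold shm
  by_cases hi : i < r
  · rw [dif_pos (by omega)]
    have h2 := hν' i hi
    have h3 := hS' i hi
    simp only [mnu, dif_pos hi]
    simp only [Pi.add_apply, ind] at h3 ⊢
    by_cases ha : (⟨i, by omega⟩ : Fin (r + 1)) ∈ S
    · by_cases hb : (⟨i + 1, by omega⟩ : Fin (r + 1)) ∈ S
      · rw [if_pos ha, if_pos hb, if_pos ha, if_pos hb]
        congr 2
        omega
      · rw [if_pos ha, if_neg hb, if_pos ha, if_neg hb]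
        have e1 : ν ⟨i, by omega⟩ + 1 - (ν ⟨i + 1, by omega⟩ + 0) =
            ν ⟨i, by omega⟩ - ν ⟨i + 1, by omega⟩ + 1 := by omega
        rw [e1, pow_succ]
        ring
    · by_cases hb : (⟨i + 1, by omega⟩ : Fin (r + 1)) ∈ S
      · rw [if_neg ha, if_pos hb, if_neg ha, if_pos hb]
        rw [if_neg ha, if_pos hb] at h3
        have e1 : ν ⟨i, by omega⟩ - ν ⟨i + 1, by omega⟩ =
            ν ⟨i, by omega⟩ + 0 - (ν ⟨i + 1, by omega⟩ + 1) + 1 := by omega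
        rw [e1, pow_succ, ← mul_assoc]
        exact Int.mul_ediv_cancel _ hp0
      · rw [if_neg ha, if_neg hb, if_neg ha, if_neg hb]
        congr 2
  · rw [dif_neg (by omega)]
    simp only [mnu, dif_neg hi]

theorem HPie_dg {r : ℕ} (p : ℕ) (t : X (r + 1)) (ν : Fin (r + 1) → ℕ) (S : Finset (Fin (r + 1))) :
    dg p S (tnu p t ν) = tnu p t (ν + ind S) := by
  funext i j
  unfold dg tnu
  simp only [Pi.add_apply, ind]
  split_ifs
  · rw [pow_succ]
    ring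
  · rw [add_zero]

theorem isPieri_whit {r : ℕ} {φ : X (r + 1) → ℂ} (hφ : IsP φ) {p : ℕ} (hp : p.Prime) {ξ : ℂ}
    {ev : Fin (r + 1) → ℂ} (hE : IsEig φ p ξ ev) {m : ℕ → ℤ} (hm : ∀ i, i < r → ¬ (p : ℤ) ∣ m i)
    {t : X (r + 1)} (ht : ∀ i, t i i ≠ 0) : IsPieri ev (whit φ p ξ m t) := by
  refine ⟨fun ν hν => if_neg hν, fun ν hν k => ?_⟩
  have hp0 : (0 : ℝ) < p := by exact_mod_cast hp.pos
  set q : ℂ := (Real.sqrt p : ℂ) with hq
  have hq0 : q ≠ 0 := by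
    rw [hq]
    exact_mod_cast (Real.sqrt_pos.2 hp0).ne'
  have hq2 : q * q = (p : ℂ) := by
    rw [hq, ← Complex.ofReal_mul, Real.mul_self_sqrt hp0.le]
    simp
  have hBM := HPie_BM_of hφ
  set M := mnu p m ν with hM
  set U := tnu p t ν with hU
  have hUd : ∀ i, U i i ≠ 0 := fun i => mul_ne_zero (pow_ne_zero _ hp0.ne') (ht i)
  -- the eigenvalue equation
  have h1 : (fun g => ∑ S ∈ Finset.powersetCard ((k : ℕ) + 1) Finset.univ,
      (if (0 : Fin (r + 1)) ∈ S then ξ else 1) * Hk p S φ g) =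
      fun g => (q ^ (((k : ℕ) + 1) * (r - k)) * ev k) * φ g := funext fun g => hE k g
  have h2 : Wh (r + 1) (fun g => ∑ S ∈ Finset.powersetCard ((k : ℕ) + 1) Finset.univ,
      (if (0 : Fin (r + 1)) ∈ S then ξ else 1) * Hk p S φ g) M U =
      Wh (r + 1) (fun g => (q ^ (((k : ℕ) + 1) * (r - k)) * ev k) * φ g) M U := by rw [h1]
  rw [Wh_const_mul, HPie_Wh_sum _ (fun (S : Finset (Fin (r + 1))) g =>
    (if (0 : Fin (r + 1)) ∈ S then ξ else 1) * Hk p S φ g)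
    (fun S _ => HPie_BM_mul _ (HPie_BM_Hk hBM p S))] at h2
  have hk : (k : ℕ) ≤ r := by
    have := k.2
    omega
  have h3 : ∀ S ∈ Finset.powersetCard ((k : ℕ) + 1) (Finset.univ : Finset (Fin (r + 1))),
      whit φ p ξ m t (ν + ind S) = (ξ ^ (ν 0) *
        q ^ (∑ j : Fin (r + 1), (ν j : ℤ) * ((r : ℤ) - 2 * (j : ℕ))) *
        (q ^ (((k : ℕ) + 1) * (r - k)))⁻¹) *
      Wh (r + 1) (fun g => (if (0 : Fin (r + 1)) ∈ S then ξ else 1) * Hk p S φ g) M U := by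
    intro S hS
    have hcard := (Finset.mem_powersetCard.1 hS).2
    rw [Wh_const_mul, Wh_Hk hφ hp S M hUd]
    by_cases hA : Antitone (ν + ind S)
    · rw [if_pos ((HPie_okm hp hm hν S).2 hA), hM, HPie_shm hp m hν hA, hU, HPie_dg]
      unfold whit
      rw [if_pos hA]
      have e1 : ξ ^ ((ν + ind S) 0) = ξ ^ (ν 0) * (if (0 : Fin (r + 1)) ∈ S then ξ else 1) := by
        simp only [Pi.add_apply, ind]
        split_ifs
        · rw [pow_succ]
        · rw [add_zero, mul_one]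
      have e2 : (∑ j : Fin (r + 1), (((ν + ind S) j : ℕ) : ℤ) * ((r : ℤ) - 2 * (j : ℕ))) =
          (∑ j : Fin (r + 1), (ν j : ℤ) * ((r : ℤ) - 2 * (j : ℕ))) +
            ∑ j ∈ S, ((r : ℤ) - 2 * (j : ℕ)) := by
        have e3 : ∀ j : Fin (r + 1), (((ν + ind S) j : ℕ) : ℤ) * ((r : ℤ) - 2 * (j : ℕ)) =
            (ν j : ℤ) * ((r : ℤ) - 2 * (j : ℕ)) +
              (if j ∈ S then ((r : ℤ) - 2 * (j : ℕ)) else 0) := by
          intro j
          simp only [Pi.add_apply, ind]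
          split_ifs
          · push_cast
            ring
          · push_cast
            ring
        rw [Finset.sum_congr rfl fun j _ => e3 j, Finset.sum_add_distrib, Finset.sum_ite_mem,
          Finset.univ_inter]
      have e4 := HPie_cS S
      rw [hcard] at e4
      have e5 : ∑ j ∈ S, (((r + 1 : ℕ) : ℤ) - 1 - 2 * (j : ℕ)) =
          ∑ j ∈ S, ((r : ℤ) - 2 * (j : ℕ)) := by
        refine Finset.sum_congr rfl fun j _ => ?_
        push_cast
        ring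
      rw [e5] at e4
      have e6 : (p : ℂ) ^ cS S = q ^ (((k : ℕ) + 1) * (r - k)) *
          q ^ (∑ j ∈ S, ((r : ℤ) - 2 * (j : ℕ))) := by
        rw [← hq2, ← pow_two, ← pow_mul, ← zpow_natCast q (2 * cS S),
          ← zpow_natCast q (((k : ℕ) + 1) * (r - k)), ← zpow_add₀ hq0]
        congr 1
        have e7 : (((r - k : ℕ)) : ℤ) = (r : ℤ) - (k : ℕ) := Nat.cast_sub hk
        push_cast
        rw [e7]
        push_cast at e4
        linarith
      rw [e1, e2, e6, zpow_add₀ hq0]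
      have hqn : q ^ (((k : ℕ) + 1) * (r - k)) ≠ 0 := pow_ne_zero _ hq0
      field_simp
    · rw [if_neg (fun h => hA ((HPie_okm hp hm hν S).1 h)), mul_zero, mul_zero]
      exact if_neg hA
  rw [Finset.sum_congr rfl h3, ← Finset.mul_sum, h2]
  unfold whit
  rw [if_pos hν]
  have hqn : q ^ (((k : ℕ) + 1) * (r - k)) ≠ 0 := pow_ne_zero _ hq0
  field_simp
  rfl

theorem norm_whit {r : ℕ} {φ : X (r + 1) → ℂ} (hφ : IsP φ) {p : ℕ} (hp : p.Prime) {ξ : ℂ}
    (hξ : ‖ξ‖ = 1) {ev : Fin (r + 1) → ℂ} (hE : IsEig φ p ξ ev) {m : ℕ → ℤ}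
    (hm : ∀ i, i < r → ¬ (p : ℤ) ∣ m i) {t : X (r + 1)} (ht : ∀ i, t i i ≠ 0)
    {ν : Fin (r + 1) → ℕ} (hν : Antitone ν) :
    ‖Wh (r + 1) φ (mnu p m ν) (tnu p t ν)‖ ^ 2 =
      ‖sch ev ν‖ ^ 2 * (p : ℝ) ^ (-∑ j : Fin (r + 1), (ν j : ℤ) * ((r : ℤ) - 2 * (j : ℕ))) *
        ‖Wh (r + 1) φ m t‖ ^ 2 := by
  have hP := isPieri_whit hφ hp hE hm ht
  have h1 := eq_sch hP ν
  have hp0 : (0 : ℝ) < p := by exact_mod_cast hp.pos
  have h0 : whit φ p ξ m t 0 = Wh (r + 1) φ m t := by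
    have ha : Antitone (0 : Fin (r + 1) → ℕ) := fun _ _ _ => le_rfl
    unfold whit
    rw [if_pos ha]
    have e1 : mnu p m (0 : Fin (r + 1) → ℕ) = m := by
      funext i
      unfold mnu
      split_ifs
      · simp
      · rfl
    have e2 : tnu p t (0 : Fin (r + 1) → ℕ) = t := by
      funext i j
      simp [tnu]
    rw [e1, e2]
    simp
  rw [h0] at h1
  unfold whit at h1
  rw [if_pos hν] at h1
  have h2 := congrArg (fun z : ℂ => ‖z‖ ^ 2) h1
  simp only [norm_mul, norm_pow, hξ, one_pow, one_mul, norm_zpow, Complex.norm_real,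
    Real.norm_of_nonneg (Real.sqrt_nonneg (p : ℝ))] at h2
  set N : ℤ := ∑ j : Fin (r + 1), (ν j : ℤ) * ((r : ℤ) - 2 * (j : ℕ)) with hN
  have h3 : (Real.sqrt p ^ N) ^ 2 = (p : ℝ) ^ N := by
    rw [pow_two, ← mul_zpow, Real.mul_self_sqrt hp0.le]
  rw [mul_pow, mul_pow, h3] at h2
  rw [zpow_neg]
  have h4 : (p : ℝ) ^ N ≠ 0 := zpow_ne_zero _ hp0.ne'
  have h5 : ‖Wh (r + 1) φ (mnu p m ν) (tnu p t ν)‖ ^ 2 =
      ((p : ℝ) ^ N)⁻¹ * ((p : ℝ) ^ N * ‖Wh (r + 1) φ (mnu p m ν) (tnu p t ν)‖ ^ 2) := by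
    rw [← mul_assoc, inv_mul_cancel₀ h4, one_mul]
  rw [h5, h2]
  ring

end Pool.Agent.GL74
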