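import Pool.Agent.W_7742x_h74.XMea
import Pool.Agent.W_7742x_h74.WAbs
import Pool.Agent.W_7742x_h74.WPrm

/-! # The product weight for the mirabolic group

In the coordinates `g = glue h (v 0 • θ) v` (`v 0 ≠ 0`) the weight `wP ω g` is `ω h` if
`θ ∈ [0,1)^s` and `0` otherwise, and `pm ℓ γ` acts by `h ↦ γ h`, `θ ↦ γ θ + ℓ` (`sl_pm_glue`).

* `sum_wP`: `∑_γ ∑_ℓ 1[γ θ + ℓ ∈ [0,1)^s] ω (γ h) = ∑_γ ω (γ h) = 1` for almost all `h`
  (exactly one `ℓ` for every `γ`); transport the exceptional null set with `lintegral_glue`.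
* `lintegral_wP`: from `lintegral_glue'` (`[0,1)^s` and `[0,1]^s` differ by a null set). -/

set_option autoImplicit false

noncomputable section

namespace Pool.Agent.GL74

open MeasureTheory
open scoped ENNReal MatrixGroups

theorem WPro_set (s : ℕ) :
    MeasurableSet {g : X (s + 1) | ∀ i, cp g i / g 0 0 ∈ Set.Ico (0 : ℝ) 1} := by
  rw [Set.setOf_forall]
  refine MeasurableSet.iInter fun i => ?_
  have h : Measurable fun g : X (s + 1) => cp g i / g 0 0 := by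
    unfold cp
    fun_prop
  exact h measurableSet_Ico

theorem measurable_wP {s : ℕ} {ω : X s → ℝ≥0∞} (hω : Measurable ω) : Measurable (wP ω) := by
  classical
  unfold wP
  exact Measurable.ite (WPro_set s) (hω.comp measurable_hp) measurable_const

open Classical in
theorem wP_glue {s : ℕ} (ω : X s → ℝ≥0∞) (h : X s) (θ : Fin s → ℝ) {v : Fin (s + 1) → ℝ}
    (hv : v 0 ≠ 0) :
    wP ω (glue h (v 0 • θ) v) = if ∀ i, θ i ∈ Set.Ico (0 : ℝ) 1 then ω h else 0 := by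
  have h1 : ∀ i, cp (glue h (v 0 • θ) v) i / glue h (v 0 • θ) v 0 0 = θ i := by
    intro i
    rw [cp_glue, glue_row, Pi.smul_apply, smul_eq_mul]
    field_simp
  unfold wP
  simp only [h1, hp_glue]

theorem wP_smul {s : ℕ} {ω : X s → ℝ≥0∞} (hω : ∀ t : ℝ, 0 < t → ∀ g, ω (t • g) = ω g)
    {t : ℝ} (ht : 0 < t) (g : X (s + 1)) : wP ω (t • g) = wP ω g := by
  have h1 : ∀ i, cp (t • g) i / (t • g) 0 0 = cp g i / g 0 0 := by
    intro i
    unfold cp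
    simp only [Pi.smul_apply, smul_eq_mul]
    exact mul_div_mul_left _ _ ht.ne'
  have h2 : hp (t • g) = t • hp g := by
    funext i j
    unfold hp
    simp only [Pi.smul_apply, smul_eq_mul]
    have h3 : t * g i.succ 0 * (t * g 0 j.succ) / (t * g 0 0) =
        t * (g i.succ 0 * g 0 j.succ / g 0 0) := by
      rw [mul_assoc, mul_div_mul_left _ _ ht.ne']
      ring
    rw [h3]
    ring
  unfold wP
  simp only [h1, h2, hω t ht]

theorem WPro_floor (x : ℝ) (n : ℤ) : x + (n : ℝ) ∈ Set.Ico (0 : ℝ) 1 ↔ n = -⌊x⌋ := by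
  rw [Set.mem_Ico]
  constructor
  · rintro ⟨h1, h2⟩
    have h3 : ⌊x⌋ = -n := by
      rw [Int.floor_eq_iff]
      push_cast
      constructor <;> linarith
    omega
  · intro h
    have h1 := Int.floor_le x
    have h2 := Int.lt_floor_add_one x
    rw [h]
    push_cast
    constructor <;> linarith

theorem WPro_cv {s : ℕ} (γ : SL(s, ℤ)) (t : ℝ) (θ : Fin s → ℝ) : cv γ (t • θ) = t • cv γ θ := by
  funext i
  unfold cv
  simp only [Pi.smul_apply, smul_eq_mul, Finset.mul_sum]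
  exact Finset.sum_congr rfl fun j _ => by ring

theorem WPro_meas {s : ℕ} {ω : X s → ℝ≥0∞} (hω : Measurable ω) :
    Measurable fun g : X (s + 1) =>
      ∑' q : (Fin s → ℤ) × SL(s, ℤ), wP ω (sl (pm q.1 q.2) g) := by
  haveI := countable_sl s
  refine Measurable.ennreal_tsum fun q => ?_
  refine (measurable_wP hω).comp ?_
  exact measurable_lm _

/-- The sum for `v 0 ≠ 0`. -/
theorem WPro_sum {s : ℕ} (ω : X s → ℝ≥0∞) (h : X s) (c : Fin s → ℝ) {v : Fin (s + 1) → ℝ}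
    (hv : v 0 ≠ 0) :
    ∑' q : (Fin s → ℤ) × SL(s, ℤ), wP ω (sl (pm q.1 q.2) (glue h c v)) =
      ∑' γ : SL(s, ℤ), ω (sl γ h) := by
  classical
  obtain ⟨θ, rfl⟩ : ∃ θ : Fin s → ℝ, c = v 0 • θ :=
    ⟨(v 0)⁻¹ • c, by rw [smul_smul, mul_inv_cancel₀ hv, one_smul]⟩
  have h1 : ∀ q : (Fin s → ℤ) × SL(s, ℤ), wP ω (sl (pm q.1 q.2) (glue h (v 0 • θ) v)) =
      if ∀ i, cv q.2 θ i + (q.1 i : ℝ) ∈ Set.Ico (0 : ℝ) 1 then ω (sl q.2 h) else 0 := by
    intro q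
    rw [sl_pm_glue q.1 q.2 h _ hv, WPro_cv, ← smul_add, wP_glue ω _ _ hv]
    rfl
  simp only [h1]
  rw [ENNReal.tsum_prod (f := fun (ℓ : Fin s → ℤ) (γ : SL(s, ℤ)) =>
    if ∀ i, cv γ θ i + (ℓ i : ℝ) ∈ Set.Ico (0 : ℝ) 1 then ω (sl γ h) else 0), ENNReal.tsum_comm]
  apply tsum_congr
  intro γ
  rw [tsum_eq_single (fun i => -⌊cv γ θ i⌋)]
  · rw [if_pos]
    intro i
    exact (WPro_floor _ _).2 rfl
  · intro ℓ hℓ
    rw [if_neg]
    intro hc
    apply hℓ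
    funext i
    exact (WPro_floor _ _).1 (hc i)

theorem sum_wP {s : ℕ} {ω : X s → ℝ≥0∞} (hω : IsWt ω) :
    ∀ᵐ g : X (s + 1), ∑' q : (Fin s → ℤ) × SL(s, ℤ), wP ω (sl (pm q.1 q.2) g) = 1 := by
  have hm : MeasurableSet {g : X (s + 1) |
      ∑' q : (Fin s → ℤ) × SL(s, ℤ), wP ω (sl (pm q.1 q.2) g) = 1} :=
    WPro_meas hω.meas (measurableSet_singleton 1)
  have hm' := hm.compl
  rw [ae_iff]
  have hs : {g : X (s + 1) | ¬ ∑' q : (Fin s → ℤ) × SL(s, ℤ), wP ω (sl (pm q.1 q.2) g) = 1} =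
      {g : X (s + 1) | ∑' q : (Fin s → ℤ) × SL(s, ℤ), wP ω (sl (pm q.1 q.2) g) = 1}ᶜ := rfl
  rw [hs, ← lintegral_indicator_one hm', lintegral_glue (measurable_one.indicator hm')]
  have h0 : ∀ᵐ v : Fin (s + 1) → ℝ, ∫⁻ c : Fin s → ℝ, ∫⁻ h : X s,
      ({g : X (s + 1) | ∑' q : (Fin s → ℤ) × SL(s, ℤ),
        wP ω (sl (pm q.1 q.2) g) = 1}ᶜ.indicator 1 (glue h c v) : ℝ≥0∞) = 0 := by
    filter_upwards [ae_ne_zero s] with v hv
    have h1 : ∀ c : Fin s → ℝ, ∫⁻ h : X s,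
        ({g : X (s + 1) | ∑' q : (Fin s → ℤ) × SL(s, ℤ),
        wP ω (sl (pm q.1 q.2) g) = 1}ᶜ.indicator 1 (glue h c v) : ℝ≥0∞) = 0 := by
      intro c
      rw [← lintegral_zero (μ := (volume : Measure (X s)))]
      apply lintegral_congr_ae
      filter_upwards [hω.sum] with h hh
      rw [Set.indicator_of_notMem]
      intro hc
      apply hc
      show ∑' q : (Fin s → ℤ) × SL(s, ℤ), wP ω (sl (pm q.1 q.2) (glue h c v)) = 1
      rw [WPro_sum ω h c hv, hh]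
    simp_rw [h1]
    simp
  rw [lintegral_congr_ae h0]
  simp

theorem WPro_box (s : ℕ) :
    {θ : Fin s → ℝ | ∀ i, θ i ∈ Set.Ico (0 : ℝ) 1} =ᵐ[(volume : Measure (Fin s → ℝ))]
      Set.Icc (0 : Fin s → ℝ) 1 := by
  have h := Measure.univ_pi_Ico_ae_eq_Icc (μ := fun _ : Fin s => (volume : Measure ℝ))
    (f := (0 : Fin s → ℝ)) (g := (1 : Fin s → ℝ))
  have e : {θ : Fin s → ℝ | ∀ i, θ i ∈ Set.Ico (0 : ℝ) 1} =
      Set.univ.pi fun i => Set.Ico ((0 : Fin s → ℝ) i) ((1 : Fin s → ℝ) i) := by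
    ext θ
    simp
  rw [e, volume_pi]
  exact h

theorem WPro_boxm (s : ℕ) : MeasurableSet {θ : Fin s → ℝ | ∀ i, θ i ∈ Set.Ico (0 : ℝ) 1} := by
  rw [Set.setOf_forall]
  exact MeasurableSet.iInter fun i => measurable_pi_apply i measurableSet_Ico

theorem lintegral_wP {s : ℕ} {ω : X s → ℝ≥0∞} (hω : Measurable ω) {F : X (s + 1) → ℝ≥0∞}
    (hF : Measurable F) :
    ∫⁻ g, wP ω g * F g = ∫⁻ v : Fin (s + 1) → ℝ, ENNReal.ofReal (|v 0| ^ s) *
      ∫⁻ h : X s, ω h * ∫⁻ θ in Set.Icc (0 : Fin s → ℝ) 1, F (glue h (v 0 • θ) v) := by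
  classical
  rw [lintegral_glue' (F := fun g : X (s + 1) => wP ω g * F g) ((measurable_wP hω).mul hF)]
  apply lintegral_congr_ae
  filter_upwards [ae_ne_zero s] with v hv
  congr 1
  apply lintegral_congr
  intro h
  have hm : Measurable fun θ : Fin s → ℝ => F (glue h (v 0 • θ) v) := by
    refine hF.comp (measurable_glue.comp (g := fun q : (X s × (Fin s → ℝ)) × (Fin (s + 1) → ℝ) =>
      glue q.1.1 q.1.2 q.2) (f := fun θ : Fin s → ℝ => ((h, v 0 • θ), v)) ?_)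
    fun_prop
  have h1 : ∀ θ : Fin s → ℝ, wP ω (glue h (v 0 • θ) v) * F (glue h (v 0 • θ) v) =
      {θ : Fin s → ℝ | ∀ i, θ i ∈ Set.Ico (0 : ℝ) 1}.indicator
        (fun θ => ω h * F (glue h (v 0 • θ) v)) θ := by
    intro θ
    rw [wP_glue ω h θ hv]
    by_cases hc : ∀ i, θ i ∈ Set.Ico (0 : ℝ) 1
    · rw [if_pos hc, Set.indicator_of_mem (by exact hc)]
    · rw [if_neg hc, zero_mul, Set.indicator_of_notMem (by exact hc)]
  simp only [h1]
  rw [lintegral_indicator (WPro_boxm s), setLIntegral_congr (WPro_box s),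
    lintegral_const_mul _ hm]

theorem unfold_prim {s : ℕ} {ω : X (s + 2) → ℝ≥0∞} (hω : IsWt ω) {ω1 : X (s + 1) → ℝ≥0∞}
    (hω1 : IsWt ω1) {F : X (s + 2) → ℝ≥0∞} (hF : Measurable F)
    (hFi : ∀ ℓ γ, ∀ᵐ g, F (sl (pm ℓ γ) g) = F g) :
    ∫⁻ g, wP ω1 g * F g =
      ∫⁻ g, ω g * ∑' v : {v : Fin (s + 2) → ℤ // IsPrim v}, F (sl (rowOf v) g) := by
  have : Countable SL(s + 2, ℤ) := countable_sl _
  have : Countable SL(s + 1, ℤ) := countable_sl _
  exact unfold_abstract (G := SL(s + 2, ℤ)) (H := (Fin (s + 1) → ℤ) × SL(s + 1, ℤ))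
    (C := {v : Fin (s + 2) → ℤ // IsPrim v}) volume sl sl_one (fun g h x => sl_mul g h x)
    measurePreserving_sl (fun q => sl (pm q.1 q.2)) rowOf (Equiv.ofBijective _ bij_pm)
    (fun h c x => sl_mul _ _ _) ω (wP ω1) F hω.meas (measurable_wP hω1.meas) hF hω.sum
    (sum_wP hω1) (fun h => hFi h.1 h.2)

end Pool.Agent.GL74
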