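import Pool.Agent.W_7742x_h74.WAbs
import Pool.Agent.W_7742x_h74.WPro

/-! # The group of level `N`

`G0 s N` (size `s + 1`): the `γ ∈ SL_{s+1} (ℤ)` with first row `≡ (*, 0, ..., 0) mod N`.
* it is a subgroup (`first row of γ δ ≡ γ_00 (first row of δ)`; the inverse: `γ⁻¹` is the adjugate;
  or: it is the stabiliser of the line spanned by `e_0` modulo `N`) of finite index (it contains the
  kernel of the reduction `SL_{s+1} (ℤ) → SL_{s+1} (ℤ/N)`, a finite group).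
* `exists_wtN`: let `T` be a set of representatives of the left cosets `δ G0`, so that every
  element of `SL` is uniquely `δ γ`; `∑_γ ∑_δ ω(δ γ g) = ∑_{SL} ω = 1` (compare `coset_bij`,
  `exists_weight` in `W_7742m_h74/Wt.lean`).
* `bij_pmN`: restrict `bij_pm` (`pm ℓ γ * rowOf v` has first row `v`).
* `primN_decomp`: divide by the gcd `t` of the entries; if `v 0` is prime to `N`, so is `t`, and
  `N ∣ t v'_j` implies `N ∣ v'_j`. -/

set_option autoImplicit false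

noncomputable section

namespace Pool.Agent.GL74

open MeasureTheory
open scoped ENNReal MatrixGroups

/-- The congruence subgroup of level `N`. -/
def G0 (s N : ℕ) : Subgroup SL(s + 1, ℤ) where
  carrier := {γ | ∀ j : Fin (s + 1), j ≠ 0 → (N : ℤ) ∣ γ.1 0 j}
  mul_mem' := by
    intro a b ha hb j hj
    have h1 : (a * b).1 0 j = ∑ k, a.1 0 k * b.1 k j := by
      simp [Matrix.mul_apply]
    rw [h1]
    apply Finset.dvd_sum
    intro k _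
    rcases eq_or_ne k 0 with rfl | hk
    · exact Dvd.dvd.mul_left (hb j hj) _
    · exact Dvd.dvd.mul_right (ha k hk) _
  one_mem' := by
    intro j hj
    have h1 : (1 : SL(s + 1, ℤ)).1 0 j = 0 := by
      simp [Matrix.one_apply, hj.symm]
    rw [h1]
    exact dvd_zero _
  inv_mem' := by
    intro a ha j hj
    have h1 : ∀ i, ∑ k, a.1 0 k * a⁻¹.1 k i = (1 : Matrix (Fin (s + 1)) (Fin (s + 1)) ℤ) 0 i := by
      intro i
      have h2 : (a * a⁻¹).1 = 1 := by rw [mul_inv_cancel]; rfl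
      have h3 : a.1 * a⁻¹.1 = 1 := h2
      rw [← h3, Matrix.mul_apply]
    have h4 : ∀ i, (N : ℤ) ∣ (1 : Matrix (Fin (s + 1)) (Fin (s + 1)) ℤ) 0 i -
        a.1 0 0 * a⁻¹.1 0 i := by
      intro i
      rw [← h1 i, Fin.sum_univ_succ, add_sub_cancel_left]
      apply Finset.dvd_sum
      intro k _
      exact Dvd.dvd.mul_right (ha k.succ (Fin.succ_ne_zero k)) _
    have h5 := h4 0
    have h6 := h4 j
    rw [Matrix.one_apply_eq] at h5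
    rw [Matrix.one_apply_ne hj.symm] at h6
    have h7 : a⁻¹.1 0 j = a⁻¹.1 0 j * (1 - a.1 0 0 * a⁻¹.1 0 0) -
        a⁻¹.1 0 0 * (0 - a.1 0 0 * a⁻¹.1 0 j) := by ring
    rw [h7]
    exact dvd_sub (Dvd.dvd.mul_left h5 _) (Dvd.dvd.mul_left h6 _)

theorem mem_G0 {s N : ℕ} {γ : SL(s + 1, ℤ)} :
    γ ∈ G0 s N ↔ ∀ j : Fin (s + 1), j ≠ 0 → (N : ℤ) ∣ γ.1 0 j := Iff.rfl

theorem pm_mem_G0 {s N : ℕ} (ℓ : Fin s → ℤ) (γ : SL(s, ℤ)) : pm ℓ γ ∈ G0 s N := by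
  intro j hj
  have h1 : (pm ℓ γ).1 0 j = 0 := by
    show pmM ℓ γ 0 j = 0
    obtain ⟨k, rfl⟩ := Fin.exists_succ_eq.mpr hj
    simp [pmM]
  rw [h1]
  exact dvd_zero _

/-- The product of a representative of a left coset and an element of the subgroup. -/
theorem WSub_coset_bij {G : Type*} [Group G] (H : Subgroup G) :
    Function.Bijective (fun x : (G ⧸ H) × H => x.1.out * (x.2 : G)) := by
  constructor
  · rintro ⟨q, a⟩ ⟨r, b⟩ h
    have h0 : q.out * (a : G) = r.out * (b : G) := h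
    have hq : ((q.out * (a : G) : G) : G ⧸ H) = q := by
      rw [QuotientGroup.mk_mul_of_mem _ a.2]
      exact Quotient.out_eq' q
    have hr : ((r.out * (b : G) : G) : G ⧸ H) = r := by
      rw [QuotientGroup.mk_mul_of_mem _ b.2]
      exact Quotient.out_eq' r
    have hqr : q = r := by rw [← hq, ← hr, h0]
    subst hqr
    have hab : (a : G) = b := mul_left_cancel h0
    exact Prod.ext rfl (Subtype.ext hab)
  · intro g
    have hm : ((g : G ⧸ H)).out⁻¹ * g ∈ H := by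
      rw [← QuotientGroup.eq]
      exact Quotient.out_eq' _
    exact ⟨((g : G ⧸ H), ⟨_, hm⟩), by simp⟩

theorem WSub_finiteIndex {s N : ℕ} (hN : 0 < N) : (G0 s N).FiniteIndex := by
  have : NeZero N := ⟨hN.ne'⟩
  have hfin : Finite (Matrix.SpecialLinearGroup (Fin (s + 1)) (ZMod N)) := by
    have h0 : Finite (Matrix (Fin (s + 1)) (Fin (s + 1)) (ZMod N)) := inferInstance
    exact Finite.of_injective (fun A : Matrix.SpecialLinearGroup (Fin (s + 1)) (ZMod N) => A.1)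
      Subtype.val_injective
  have h1 : (Matrix.SpecialLinearGroup.map (n := Fin (s + 1))
      (Int.castRingHom (ZMod N))).ker.FiniteIndex := Subgroup.finiteIndex_ker _
  refine Subgroup.finiteIndex_of_le
    (H := (Matrix.SpecialLinearGroup.map (n := Fin (s + 1)) (Int.castRingHom (ZMod N))).ker) ?_
  intro γ hγ j hj
  rw [MonoidHom.mem_ker] at hγ
  have h2 : (Int.castRingHom (ZMod N)) (γ.1 0 j) =
      (1 : Matrix (Fin (s + 1)) (Fin (s + 1)) (ZMod N)) 0 j := by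
    have h3 := congrArg (fun A : Matrix.SpecialLinearGroup (Fin (s + 1)) (ZMod N) => A.1 0 j) hγ
    simpa using h3
  rw [Matrix.one_apply_ne hj.symm] at h2
  exact (ZMod.intCast_zmod_eq_zero_iff_dvd _ _).mp h2

theorem exists_wtN {s N : ℕ} (hN : 0 < N) {ω : X (s + 1) → ℝ≥0∞} (hω : IsWt ω) :
    ∃ T : Finset SL(s + 1, ℤ),
      ∀ᵐ g : X (s + 1), ∑' γ : G0 s N, ∑ δ ∈ T, ω (sl δ (sl γ.1 g)) = 1 := by
  classical
  have hfi : (G0 s N).FiniteIndex := WSub_finiteIndex hN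
  have hfin : Finite (SL(s + 1, ℤ) ⧸ G0 s N) := inferInstance
  let hft : Fintype (SL(s + 1, ℤ) ⧸ G0 s N) := Fintype.ofFinite _
  refine ⟨(Finset.univ : Finset (SL(s + 1, ℤ) ⧸ G0 s N)).map
    ⟨Quotient.out, Quotient.out_injective⟩, ?_⟩
  filter_upwards [hω.sum] with g hg
  have h2 : ∑' x : (SL(s + 1, ℤ) ⧸ G0 s N) × G0 s N, ω (sl (x.1.out * x.2.1) g) =
      ∑' γ : SL(s + 1, ℤ), ω (sl γ g) :=
    (Equiv.ofBijective _ (WSub_coset_bij (G0 s N))).tsum_eq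
      (fun γ : SL(s + 1, ℤ) => ω (sl γ g))
  have h3 : ∑' x : (SL(s + 1, ℤ) ⧸ G0 s N) × G0 s N, ω (sl (x.1.out * x.2.1) g) =
      ∑' (q : SL(s + 1, ℤ) ⧸ G0 s N) (γ : G0 s N), ω (sl (q.out * γ.1) g) :=
    ENNReal.tsum_prod (f := fun (q : SL(s + 1, ℤ) ⧸ G0 s N) (γ : G0 s N) =>
      ω (sl (q.out * γ.1) g))
  rw [← hg, ← h2, h3, ENNReal.tsum_comm]
  refine tsum_congr fun γ => ?_
  rw [tsum_fintype, Finset.sum_map]
  refine Finset.sum_congr rfl fun q _ => ?_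
  rw [sl_mul]
  rfl

/-- The first rows of the elements of `G0`. -/
abbrev PrimN (s N : ℕ) : Type :=
  {v : Fin (s + 2) → ℤ // IsPrim v ∧ ∀ j, j ≠ 0 → (N : ℤ) ∣ v j}

theorem rowN_mem {s N : ℕ} (ℓ : Fin (s + 1) → ℤ) (γ : SL(s + 1, ℤ)) (v : PrimN s N) :
    pm ℓ γ * rowOf ⟨v.1, v.2.1⟩ ∈ G0 (s + 1) N := by
  refine mul_mem (pm_mem_G0 ℓ γ) ?_
  intro j hj
  rw [rowOf_spec]
  exact v.2.2 j hj

theorem WSub_pm_row {s : ℕ} (ℓ : Fin s → ℤ) (γ : SL(s, ℤ)) (δ : SL(s + 1, ℤ))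
    (j : Fin (s + 1)) : (pm ℓ γ * δ).1 0 j = δ.1 0 j := by
  have h1 : (pm ℓ γ * δ).1 0 j = ∑ k, pmM ℓ γ 0 k * δ.1 k j := by
    show ((pm ℓ γ).1 * δ.1) 0 j = _
    rw [Matrix.mul_apply]
    rfl
  rw [h1, Fin.sum_univ_succ]
  simp [pmM]

theorem bij_pmN {s N : ℕ} : Function.Bijective
    fun q : ((Fin (s + 1) → ℤ) × SL(s + 1, ℤ)) × PrimN s N =>
      (⟨pm q.1.1 q.1.2 * rowOf ⟨q.2.1, q.2.2.1⟩, rowN_mem q.1.1 q.1.2 q.2⟩ : G0 (s + 1) N) := by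
  constructor
  · rintro ⟨⟨ℓ, γ⟩, v⟩ ⟨⟨ℓ', γ'⟩, v'⟩ h
    have h1 : pm ℓ γ * rowOf ⟨v.1, v.2.1⟩ = pm ℓ' γ' * rowOf ⟨v'.1, v'.2.1⟩ :=
      congrArg Subtype.val h
    have h2 := (bij_pm (s := s)).1 (a₁ := ((ℓ, γ), ⟨v.1, v.2.1⟩))
      (a₂ := ((ℓ', γ'), ⟨v'.1, v'.2.1⟩)) h1
    have h3 : (ℓ, γ) = (ℓ', γ') := congrArg Prod.fst h2
    have h4 : v.1 = v'.1 := congrArg (fun q => q.2.1) h2
    exact Prod.ext h3 (Subtype.ext h4)
  · rintro ⟨γ, hγ⟩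
    obtain ⟨⟨⟨ℓ, δ⟩, w⟩, hq⟩ := (bij_pm (s := s)).2 γ
    have hq' : pm ℓ δ * rowOf w = γ := hq
    have hw : ∀ j, w.1 j = γ.1 0 j := by
      intro j
      rw [← hq', WSub_pm_row, rowOf_spec]
    refine ⟨⟨⟨ℓ, δ⟩, ⟨w.1, w.2, ?_⟩⟩, ?_⟩
    · intro j hj
      rw [hw]
      exact hγ j hj
    · exact Subtype.ext hq'

/-- The nonzero vectors `(v_0, N v')` with `v_0` prime to `N`. -/
abbrev MN (s N : ℕ) : Type :=
  {v : Fin (s + 2) → ℤ // v ≠ 0 ∧ IsCoprime (v 0) (N : ℤ) ∧ ∀ j, j ≠ 0 → (N : ℤ) ∣ v j}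

theorem primN_mem {s N : ℕ} (t : {t : ℕ // 0 < t ∧ t.Coprime N}) (v : PrimN s N) :
    (fun i => (t.1 : ℤ) * v.1 i) ≠ 0 ∧ IsCoprime ((t.1 : ℤ) * v.1 0) (N : ℤ) ∧
      ∀ j, j ≠ 0 → (N : ℤ) ∣ (t.1 : ℤ) * v.1 j := by
  refine ⟨prim_ne_zero ⟨t.1, t.2.1⟩ v.2.1, ?_, fun j hj => Dvd.dvd.mul_left (v.2.2 j hj) _⟩
  refine IsCoprime.mul_left (Nat.isCoprime_iff_coprime.mpr t.2.2) ?_
  obtain ⟨u, hu⟩ := v.2.1
  rw [Fin.sum_univ_succ] at hu
  have h1 : (N : ℤ) ∣ ∑ i : Fin (s + 1), u i.succ * v.1 i.succ := by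
    apply Finset.dvd_sum
    intro k _
    exact Dvd.dvd.mul_left (v.2.2 k.succ (Fin.succ_ne_zero k)) _
  obtain ⟨c, hc⟩ := h1
  refine ⟨u 0, c, ?_⟩
  rw [← hu, hc]
  ring

theorem primN_decomp {s N : ℕ} (hN : 0 < N) : Function.Bijective
    fun q : {t : ℕ // 0 < t ∧ t.Coprime N} × PrimN s N =>
      (⟨fun i => (q.1.1 : ℤ) * q.2.1 i, primN_mem q.1 q.2⟩ : MN s N) := by
  constructor
  · rintro ⟨t, v⟩ ⟨t', v'⟩ h
    have h1 : (fun i => (t.1 : ℤ) * v.1 i) = fun i => (t'.1 : ℤ) * v'.1 i :=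
      congrArg Subtype.val h
    have h2 := (prim_decomp (n := s + 2)).1 (a₁ := (⟨t.1, t.2.1⟩, ⟨v.1, v.2.1⟩))
      (a₂ := (⟨t'.1, t'.2.1⟩, ⟨v'.1, v'.2.1⟩)) (Subtype.ext h1)
    have h3 : (⟨t.1, t.2.1⟩ : ℕ+) = ⟨t'.1, t'.2.1⟩ := congrArg Prod.fst h2
    have h4 : v.1 = v'.1 := congrArg (fun q => q.2.1) h2
    have h5 : t.1 = t'.1 := congrArg PNat.val h3
    exact Prod.ext (Subtype.ext h5) (Subtype.ext h4)
  · rintro ⟨w, hw0, hw1, hw2⟩
    obtain ⟨⟨m, v⟩, hq⟩ := (prim_decomp (n := s + 2)).2 ⟨w, hw0⟩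
    have hq' : (fun i => ((m : ℕ) : ℤ) * v.1 i) = w := congrArg Subtype.val hq
    have hm : IsCoprime ((m : ℕ) : ℤ) (N : ℤ) := by
      rw [← hq'] at hw1
      exact IsCoprime.of_mul_left_left hw1
    refine ⟨⟨⟨m, m.pos, Nat.isCoprime_iff_coprime.mp hm⟩, ⟨v.1, v.2, ?_⟩⟩, ?_⟩
    · intro j hj
      have h1 := hw2 j hj
      rw [← hq'] at h1
      exact hm.symm.dvd_of_dvd_mul_left h1
    · exact Subtype.ext hq'

end Pool.Agent.GL74
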