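import Pool.Agent.W_7742x_h74.QDef
import Pool.Agent.W_7742x_h74.FCus
import Pool.Agent.W_7742x_h74.WSub
import Pool.Agent.W_7742x_h74.HPie

/-! # From cusp forms to functions on `X n`

`tof f g = f (Matrix.of g)` if `0 < dt g`, `0` otherwise (`n = s + 2` or `s + 1`).

* `continuousOn`: from `lipschitz`: `f (g') - f (g) = f (g x) - f (g)` with `x = g⁻¹ g' → 1`,
  so `f` is continuous on `{0 < det}`, an open set; hence `tof f` is measurable.
* `isP_tof`: `inv`: `glue (sl γ h) (cv γ c + v 0 • ℓ) v = sl (pm ℓ γ) (glue h c v)`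
  (`sl_pm_glue`), `pm ℓ γ` has determinant one and first row `(1, 0, ..., 0)`; `χ 1 = 1`.
* `bl_tof`: `cuspidal`; for `dt g ≤ 0` the integrand is `0` (`det (blk k B) = 1`).
* `norm_sl_tof`: `automorphic`; `‖χ (γ_00)‖ = 1` because `γ_00` is prime to `N` (expand the
  determinant along the first row modulo `N`).
* `lip_tof`, `scale_tof`: clear.
* `eig_tof`: `hecke` is the sum of the `Hk`; `(-1)^{k+1} coeff (n-(k+1)) = emx B k`. -/

set_option autoImplicit false

noncomputable section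

namespace Pool.Agent.GL74

open MeasureTheory ComplexConjugate
open scoped ENNReal MatrixGroups
open Pool.Agent.GLForm74

open Classical in
/-- The extension of `f` by zero. -/
def tof {n : ℕ} (f : Matrix (Fin n) (Fin n) ℝ → ℂ) (g : X n) : ℂ :=
  if 0 < dt g then f (Matrix.of g) else 0

theorem QExt_pos {n : ℕ} (f : Matrix (Fin n) (Fin n) ℝ → ℂ) {g : X n} (hg : 0 < dt g) :
    tof f g = f (Matrix.of g) := if_pos hg

theorem QExt_neg {n : ℕ} (f : Matrix (Fin n) (Fin n) ℝ → ℂ) {g : X n} (hg : ¬ 0 < dt g) :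
    tof f g = 0 := if_neg hg

theorem QExt_continuous_dt {n : ℕ} : Continuous (dt : X n → ℝ) := by
  unfold dt
  simp only [Matrix.det_apply]
  refine continuous_finsetSum _ fun σ _ => ?_
  refine Continuous.const_smul ?_ _
  refine continuous_finsetProd _ fun i _ => ?_
  simp only [Matrix.of_apply]
  fun_prop

theorem QExt_open {n : ℕ} : IsOpen {g : X n | 0 < dt g} :=
  isOpen_lt continuous_const QExt_continuous_dt

theorem QExt_continuousOn {n N : ℕ} {χ : DirichletCharacter ℂ N}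
    {f : Matrix (Fin n) (Fin n) ℝ → ℂ} (hf : IsCuspForm N χ f) :
    ContinuousOn (fun g : X n => f (Matrix.of g)) {g : X n | 0 < dt g} := by
  obtain ⟨C, hC⟩ := hf.lipschitz
  intro g hg
  have hg' : 0 < (Matrix.of g).det := hg
  have hu : IsUnit (Matrix.of g).det := hg'.ne'.isUnit
  obtain ⟨R, hR⟩ : ∃ R : X n → ℝ, R = fun g' : X n => C * ∑ i, ∑ j,
      |(∑ k, (Matrix.of g)⁻¹ i k * g' k j) - (1 : Matrix (Fin n) (Fin n) ℝ) i j| := ⟨_, rfl⟩
  have hRc : Continuous R := by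
    rw [hR]
    fun_prop
  have hR0 : R g = 0 := by
    rw [hR]
    have h1 : ∀ i j, (∑ k, (Matrix.of g)⁻¹ i k * g k j) = (1 : Matrix (Fin n) (Fin n) ℝ) i j := by
      intro i j
      have h2 := Matrix.nonsing_inv_mul (Matrix.of g) hu
      rw [← h2, Matrix.mul_apply]
      rfl
    simp only [h1, sub_self, abs_zero, Finset.sum_const_zero, mul_zero]
  have hle : ∀ g' : X n, 0 < dt g' → ‖f (Matrix.of g') - f (Matrix.of g)‖ ≤ R g' := by
    intro g' hg2
    have h1 : Matrix.of g * ((Matrix.of g)⁻¹ * Matrix.of g') = Matrix.of g' := by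
      rw [← Matrix.mul_assoc, Matrix.mul_nonsing_inv _ hu, Matrix.one_mul]
    have h2 : 0 < ((Matrix.of g)⁻¹ * Matrix.of g').det := by
      rw [Matrix.det_mul, Matrix.det_nonsing_inv, Ring.inverse_eq_inv']
      exact mul_pos (inv_pos.2 hg') hg2
    have h3 := hC (Matrix.of g) ((Matrix.of g)⁻¹ * Matrix.of g') hg' h2
    rw [h1] at h3
    rw [hR]
    exact h3
  show Filter.Tendsto (fun g : X n => f (Matrix.of g)) (nhdsWithin g {g : X n | 0 < dt g})
    (nhds (f (Matrix.of g)))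
  rw [tendsto_iff_norm_sub_tendsto_zero]
  have h4 : Filter.Tendsto R (nhdsWithin g {g : X n | 0 < dt g}) (nhds 0) := by
    have h5 := (hRc.tendsto g)
    rw [hR0] at h5
    exact h5.mono_left nhdsWithin_le_nhds
  refine squeeze_zero' (Filter.Eventually.of_forall fun _ => norm_nonneg _) ?_ h4
  exact Filter.eventually_of_mem self_mem_nhdsWithin fun g' hg2 => hle g' hg2

theorem measurable_tof {n N : ℕ} {χ : DirichletCharacter ℂ N}
    {f : Matrix (Fin n) (Fin n) ℝ → ℂ} (hf : IsCuspForm N χ f) : Measurable (tof f) := by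
  classical
  have h1 := ContinuousOn.measurable_piecewise (QExt_continuousOn hf)
    (continuous_zero.continuousOn : ContinuousOn (fun _ : X n => (0 : ℂ)) _)
    QExt_open.measurableSet
  have h2 : tof f = Set.piecewise {g : X n | 0 < dt g} (fun g : X n => f (Matrix.of g))
      (fun _ : X n => (0 : ℂ)) := by
    funext g
    by_cases hg : 0 < dt g
    · have hg2 : g ∈ {g : X n | 0 < dt g} := hg
      rw [QExt_pos f hg, Set.piecewise_eq_of_mem _ _ _ hg2]
    · have hg2 : g ∉ {g : X n | 0 < dt g} := hg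
      rw [QExt_neg f hg, Set.piecewise_eq_of_notMem _ _ _ hg2]
  rw [h2]
  exact h1

theorem QExt_sl {s N : ℕ} {χ : DirichletCharacter ℂ N}
    {f : Matrix (Fin (s + 1)) (Fin (s + 1)) ℝ → ℂ} (hf : IsCuspForm N χ f)
    {γ : SL(s + 1, ℤ)} (hγ : γ ∈ G0 s N) (g : X (s + 1)) :
    tof f (sl γ g) = χ ((γ.1 0 0 : ℤ) : ZMod N) * tof f g := by
  by_cases hg : 0 < dt g
  · have hg2 : 0 < dt (sl γ g) := by rwa [dt_sl]
    rw [QExt_pos f hg, QExt_pos f hg2]
    have h1 : Matrix.of (sl γ g) = γ.1.map (fun a : ℤ => (a : ℝ)) * Matrix.of g := lm_eq _ g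
    rw [h1]
    refine hf.automorphic γ.1 γ.2 ?_ 0 rfl _ hg
    intro i j hi hj
    have hi0 : i = 0 := Fin.ext hi
    have hj0 : j ≠ 0 := fun h => hj (by rw [h]; rfl)
    rw [hi0]
    exact hγ j hj0
  · have hg2 : ¬ 0 < dt (sl γ g) := by rwa [dt_sl]
    rw [QExt_neg f hg, QExt_neg f hg2, mul_zero]

theorem isP_tof {s N : ℕ} {χ : DirichletCharacter ℂ N}
    {f : Matrix (Fin (s + 1)) (Fin (s + 1)) ℝ → ℂ} (hf : IsCuspForm N χ f) : IsP (tof f) := by
  refine ⟨measurable_tof hf, ?_, ?_⟩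
  · obtain ⟨C, hC⟩ := hf.bounded
    refine ⟨max C 0, fun g => ?_⟩
    by_cases hg : 0 < dt g
    · rw [QExt_pos f hg]
      exact (hC _ hg).trans (le_max_left _ _)
    · rw [QExt_neg f hg, norm_zero]
      exact le_max_right _ _
  · intro γ ℓ h c v hv
    rw [← sl_pm_glue ℓ γ h c hv]
    have hmem : pm ℓ γ ∈ G0 s N := by
      intro j hj
      obtain ⟨k, rfl⟩ := Fin.exists_succ_eq.2 hj
      have h1 : (pm ℓ γ).1 0 k.succ = 0 := rfl
      rw [h1]
      exact dvd_zero _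
    have h2 : (pm ℓ γ).1 0 0 = 1 := rfl
    rw [QExt_sl hf hmem, h2, Int.cast_one, map_one, one_mul]

theorem QExt_det_blk {n : ℕ} (k : ℕ) (B : Fin n → Fin n → ℝ) : (blk k B).det = 1 := by
  rw [Matrix.det_of_isLowerTriangular]
  · refine Finset.prod_eq_one fun i _ => ?_
    simp [blk]
  · intro i j hij
    have hij' : i < j := hij
    unfold blk
    rw [Matrix.of_apply, if_neg hij'.ne, if_neg]
    rintro ⟨h1, h2⟩
    have : (i : ℕ) < j := hij'
    omega

theorem bl_tof {n N : ℕ} {χ : DirichletCharacter ℂ N}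
    {f : Matrix (Fin n) (Fin n) ℝ → ℂ} (hf : IsCuspForm N χ f) : Bl (tof f) := by
  intro k hk hkn g
  have hd : ∀ B : Fin n → Fin n → ℝ, dt (lm (blk k B) g) = dt g := by
    intro B
    rw [dt_lm, QExt_det_blk, one_mul]
  by_cases hg : 0 < dt g
  · have h1 : ∀ B : Fin n → Fin n → ℝ, tof f (lm (blk k B) g) = f (block k B * Matrix.of g) := by
      intro B
      have hg2 : 0 < dt (lm (blk k B) g) := by rwa [hd]
      rw [QExt_pos f hg2, lm_eq]
      rfl
    simp only [h1]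
    exact hf.cuspidal k hk hkn (Matrix.of g) hg
  · have h1 : ∀ B : Fin n → Fin n → ℝ, tof f (lm (blk k B) g) = 0 := by
      intro B
      refine QExt_neg f ?_
      rwa [hd]
    simp only [h1, integral_zero]

theorem scale_tof {n N : ℕ} {χ : DirichletCharacter ℂ N}
    {f : Matrix (Fin n) (Fin n) ℝ → ℂ} (hf : IsCuspForm N χ f) {t : ℝ} (ht : 0 < t) (g : X n) :
    tof f (t • g) = tof f g := by
  have hd : 0 < dt (t • g) ↔ 0 < dt g := by
    rw [dt_smul]
    exact mul_pos_iff_of_pos_left (pow_pos ht n)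
  by_cases hg : 0 < dt g
  · rw [QExt_pos f hg, QExt_pos f (hd.2 hg)]
    exact hf.scale t (Matrix.of g) ht hg
  · rw [QExt_neg f hg, QExt_neg f fun h => hg (hd.1 h)]

theorem sl_tof {s N : ℕ} {χ : DirichletCharacter ℂ N}
    {f : Matrix (Fin (s + 1)) (Fin (s + 1)) ℝ → ℂ} (hf : IsCuspForm N χ f)
    {γ : SL(s + 1, ℤ)} (hγ : γ ∈ G0 s N) (g : X (s + 1)) :
    tof f (sl γ g) = χ ((γ.1 0 0 : ℤ) : ZMod N) * tof f g := QExt_sl hf hγ g

theorem norm_chi {s N : ℕ} (χ : DirichletCharacter ℂ N) {γ : SL(s + 1, ℤ)} (hγ : γ ∈ G0 s N) :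
    ‖χ ((γ.1 0 0 : ℤ) : ZMod N)‖ = 1 := by
  have h2 : (γ * γ⁻¹).1 = 1 := by rw [mul_inv_cancel]; rfl
  have h3 : γ.1 * γ⁻¹.1 = 1 := h2
  have h4 : ∑ k, γ.1 0 k * γ⁻¹.1 k 0 = 1 := by
    rw [← Matrix.mul_apply, h3, Matrix.one_apply_eq]
  rw [Fin.sum_univ_succ] at h4
  have h5 : ((γ.1 0 0 : ℤ) : ZMod N) * ((γ⁻¹.1 0 0 : ℤ) : ZMod N) = 1 := by
    have h6 := congrArg (fun z : ℤ => (z : ZMod N)) h4
    simp only [Int.cast_add, Int.cast_mul, Int.cast_sum, Int.cast_one] at h6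
    have h7 : ∀ k : Fin s, ((γ.1 0 k.succ : ℤ) : ZMod N) = 0 := fun k =>
      (ZMod.intCast_zmod_eq_zero_iff_dvd _ _).2 (hγ k.succ (Fin.succ_ne_zero k))
    simp only [h7, zero_mul, Finset.sum_const_zero, add_zero] at h6
    exact h6
  have h8 : IsUnit ((γ.1 0 0 : ℤ) : ZMod N) := IsUnit.of_mul_eq_one _ h5
  obtain ⟨u, hu⟩ := h8
  rw [← hu]
  exact DirichletCharacter.unit_norm_eq_one χ u

theorem lip_tof {n N : ℕ} {χ : DirichletCharacter ℂ N}
    {f : Matrix (Fin n) (Fin n) ℝ → ℂ} (hf : IsCuspForm N χ f) : ∃ C, IsLip C (tof f) := by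
  obtain ⟨C, hC⟩ := hf.lipschitz
  refine ⟨max C 0, fun g x hx => ?_⟩
  have h0 : 0 ≤ ∑ i, ∑ j, |x i j - (1 : Matrix (Fin n) (Fin n) ℝ) i j| :=
    Finset.sum_nonneg fun i _ => Finset.sum_nonneg fun j _ => abs_nonneg _
  have h1 : Matrix.of (rm g x) = Matrix.of g * x := by
    ext i j
    rw [Matrix.mul_apply]
    rfl
  have h2 : dt (rm g x) = dt g * x.det := by
    unfold dt
    rw [h1, Matrix.det_mul]
  by_cases hg : 0 < dt g
  · have hg2 : 0 < dt (rm g x) := by
      rw [h2]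
      exact mul_pos hg hx
    rw [QExt_pos f hg, QExt_pos f hg2, h1]
    exact (hC _ _ hg hx).trans (mul_le_mul_of_nonneg_right (le_max_left _ _) h0)
  · have hg2 : ¬ 0 < dt (rm g x) := by
      rw [h2]
      intro h3
      exact hg (pos_of_mul_pos_left h3 hx.le)
    rw [QExt_neg f hg, QExt_neg f hg2, sub_self, norm_zero]
    exact mul_nonneg (le_max_right _ _) h0

theorem QExt_det_dl {n p : ℕ} (hp : 0 < p) {S : Finset (Fin n)} {b : Fin n → Fin n → ℕ}
    (hb : b ∈ bs p S) : 0 < (dl p S b).det := by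
  rw [Matrix.det_of_isLowerTriangular]
  · refine Finset.prod_pos fun i _ => ?_
    unfold dl
    rw [Matrix.of_apply, if_pos rfl]
    split_ifs
    · exact_mod_cast hp
    · exact one_pos
  · intro i j hij
    have hij' : i < j := hij
    unfold bs at hb
    have h1 := Fintype.mem_piFinset.1 (Fintype.mem_piFinset.1 hb i) j
    rw [if_neg (by
      rintro ⟨h2, _⟩
      exact absurd h2 (not_lt.2 hij'.le))] at h1
    unfold dl
    rw [Matrix.of_apply, if_neg hij'.ne, Finset.mem_singleton.1 h1, Nat.cast_zero]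

theorem eig_tof {s N : ℕ} {χ : DirichletCharacter ℂ N}
    {f : Matrix (Fin (s + 1)) (Fin (s + 1)) ℝ → ℂ} {p : ℕ}
    {B : Matrix (Fin (s + 1)) (Fin (s + 1)) ℂ}
    (he : ∀ k : ℕ, 1 ≤ k → k ≤ s + 1 → ∀ g, 0 < g.det → hecke χ p k f g =
      (Real.sqrt p : ℂ) ^ (k * (s + 1 - k)) * ((-1) ^ k * B.charpoly.coeff (s + 1 - k)) * f g)
    (hp : p.Prime) : IsEig (tof f) p (conj (χ p)) (emx B) := by
  intro k g
  by_cases hg : 0 < dt g
  · have h1 := he ((k : ℕ) + 1) (by omega) (by omega) (Matrix.of g) hg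
    have h2 : ∀ S : Finset (Fin (s + 1)), Hk p S (tof f) g =
        ∑ b ∈ heckeEntries p S, f (heckeMatrix p S b * Matrix.of g) := by
      intro S
      unfold Hk
      refine Finset.sum_congr rfl fun b hb => ?_
      have hg2 : 0 < dt (lm (dl p S b) g) := by
        rw [dt_lm]
        exact mul_pos (QExt_det_dl hp.pos hb) hg
      rw [QExt_pos f hg2, lm_eq]
      rfl
    unfold emx
    rw [QExt_pos f hg]
    have h3 : s + 1 - ((k : ℕ) + 1) = s - k := by omega
    rw [h3] at h1 ⊢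
    rw [← h1]
    unfold hecke
    refine Finset.sum_congr rfl fun S _ => ?_
    rw [h2 S]
    congr 1
    have h4 : (0 : Fin (s + 1)) ∈ S ↔ ∃ i ∈ S, (i : ℕ) = 0 := by
      constructor
      · intro h
        exact ⟨0, h, rfl⟩
      · rintro ⟨i, hi, h0⟩
        have : i = 0 := Fin.ext h0
        rwa [← this]
    by_cases h5 : (0 : Fin (s + 1)) ∈ S
    · rw [if_pos h5, if_pos (h4.1 h5)]
    · rw [if_neg h5, if_neg fun h => h5 (h4.2 h)]
  · have h2 : ∀ S : Finset (Fin (s + 1)), Hk p S (tof f) g = 0 := by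
      intro S
      unfold Hk
      refine Finset.sum_eq_zero fun b hb => ?_
      refine QExt_neg f ?_
      rw [dt_lm]
      intro h3
      exact hg (pos_of_mul_pos_right h3 (QExt_det_dl hp.pos hb).le)
    simp only [h2, mul_zero, Finset.sum_const_zero, QExt_neg f hg]

theorem volume_tof {n N : ℕ} {χ : DirichletCharacter ℂ N}
    {f : Matrix (Fin n) (Fin n) ℝ → ℂ} (hf : IsCuspForm N χ f) (hne : ∃ g, 0 < g.det ∧ f g ≠ 0) :
    volume {g : X n | tof f g ≠ 0} ≠ 0 := by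
  obtain ⟨g, hg, hfg⟩ := hne
  obtain ⟨g', hgg⟩ : ∃ g' : X n, g = Matrix.of g' := ⟨fun i j => g i j, rfl⟩
  rw [hgg] at hg hfg
  have hg' : 0 < dt g' := hg
  have h1 : ContinuousAt (fun g : X n => f (Matrix.of g)) g' :=
    (QExt_continuousOn hf).continuousAt (QExt_open.mem_nhds hg')
  have h2 : {g : X n | tof f g ≠ 0} ∈ nhds g' := by
    filter_upwards [h1.eventually_ne hfg, QExt_open.mem_nhds hg'] with x hx hx2
    show tof f x ≠ 0
    rw [QExt_pos f hx2]
    exact hx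
  exact (Measure.measure_pos_of_mem_nhds volume h2).ne'

end Pool.Agent.GL74
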