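import Pool.Agent.W_7742x_h74.QRS

/-! # The Rankin-Selberg bound for the traces -/

set_option autoImplicit false

noncomputable section

namespace Pool.Agent.GL74

open MeasureTheory ComplexConjugate Set
open Pool.Agent.GLForm74
open Pool.Agent.H74E (pk pk_nonneg)

open Polynomial in
/-- A complex matrix with given coefficients of the characteristic polynomial. -/
theorem exists_charpoly (n : ℕ) (P : ℂ[X]) : ∃ B : Matrix (Fin n) (Fin n) ℂ,
    ∀ i, i < n → B.charpoly.coeff i = P.coeff i := by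
  set Q : ℂ[X] := Polynomial.X ^ n + ∑ i ∈ Finset.range n, Polynomial.C (P.coeff i) * Polynomial.X ^ i with hQ
  have hdeg : (∑ i ∈ Finset.range n, Polynomial.C (P.coeff i) * Polynomial.X ^ i : ℂ[X]).degree < n := by
    refine (Polynomial.degree_sum_le _ _).trans_lt ?_
    refine (Finset.sup_lt_iff (WithBot.bot_lt_coe n)).2 fun i hi => ?_
    refine (Polynomial.degree_C_mul_X_pow_le i _).trans_lt ?_
    exact Nat.cast_lt.2 (Finset.mem_range.1 hi)
  have hm : Q.Monic := Polynomial.monic_X_pow_add hdeg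
  have hn : Q.natDegree = n := by
    rw [hQ]
    refine Polynomial.natDegree_eq_of_degree_eq_some ?_
    rw [Polynomial.degree_add_eq_left_of_degree_lt, Polynomial.degree_X_pow]
    rwa [Polynomial.degree_X_pow]
  obtain ⟨β, hβ⟩ := exists_prod_roots Q hm hn
  refine ⟨Matrix.diagonal β, fun i hi => ?_⟩
  rw [Matrix.charpoly_diagonal, ← hβ, hQ, Polynomial.coeff_add, Polynomial.coeff_X_pow,
    if_neg hi.ne, zero_add, Polynomial.finsetSum_coeff]
  simp only [Polynomial.coeff_C_mul_X_pow]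
  rw [Finset.sum_ite_eq, if_pos (Finset.mem_range.2 hi)]

/-- The Rankin-Selberg bound for the traces of the Satake classes of a cusp form. -/
theorem cusp_log {n N : ℕ} (hn : 2 ≤ n) (hN : 0 < N) {P : ℕ → Polynomial ℂ}
    (h : IsCuspidalSystem N P n) : ∃ C : ℝ, ∀ s : ℝ, 1 < s → s ≤ 2 →
      (Summable fun p : Nat.Primes =>
        (if (p : ℕ) ∣ N then 0 else ‖(P p).coeff (n - 1)‖ ^ 2) * ((p : ℕ) : ℝ) ^ (-s)) ∧
      ∑' p : Nat.Primes, (if (p : ℕ) ∣ N then 0 else ‖(P p).coeff (n - 1)‖ ^ 2) *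
        ((p : ℕ) : ℝ) ^ (-s) ≤ Real.log (1 / (s - 1)) + C := by
  classical
  obtain ⟨s, rfl⟩ : ∃ s, n = s + 2 := ⟨n - 2, by omega⟩
  obtain ⟨χ, f, hf, hne, he⟩ := h
  choose B hB using fun p => exists_charpoly (s + 2) (P p)
  have he' : ∀ p : ℕ, p.Prime → ¬ p ∣ N → ∀ k : ℕ, 1 ≤ k → k ≤ s + 2 → ∀ g, 0 < g.det →
      hecke χ p k f g =
        (Real.sqrt p : ℂ) ^ (k * (s + 2 - k)) * ((-1) ^ k * (B p).charpoly.coeff (s + 2 - k)) *
          f g := by
    intro p hp hpN k hk1 hk2 g hg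
    rw [hB p (s + 2 - k) (by omega)]
    exact he p hp hpN k hk1 hk2 g hg
  have hu : ∀ p : ℕ, p.Prime → ¬ p ∣ N → ‖(P p).coeff (s + 2 - 1)‖ = ‖((B p)⁻¹).trace‖ := by
    intro p hp hpN
    obtain ⟨h1, h2⟩ := adj_rel hN hf hne hp hpN
      (fun k => (-1) ^ k * (B p).charpoly.coeff (s + 2 - k)) (he' p hp hpN)
    have hξ : ‖conj (χ p)‖ = 1 := by
      have hu : IsUnit ((p : ℕ) : ZMod N) := (ZMod.isUnit_iff_coprime p _).2
        ((Nat.Prime.coprime_iff_not_dvd hp).2 hpN)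
      obtain ⟨u, hu⟩ := hu
      rw [← hu, Complex.norm_conj]
      exact DirichletCharacter.unit_norm_eq_one χ u
    have h3 := unitary_trace (B := B p) hξ (by
      unfold emx
      rw [← h1]
      simp) (fun i => by
      have h4 := h2 ((i : ℕ) + 1) (by omega) (by omega)
      unfold emx
      have e1 : ((i.rev.castSucc : Fin (s + 2)) : ℕ) + 1 = s + 2 - ((i : ℕ) + 1) := by
        rw [Fin.val_castSucc, Fin.val_rev]
        omega
      rw [e1, Fin.val_castSucc]
      exact h4) 1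
    rw [pow_one, pow_one] at h3
    rw [← h3, Complex.norm_conj, ← hB p (s + 2 - 1) (by omega)]
    have h4 := Matrix.trace_eq_neg_charpoly_coeff (B p)
    rw [Fintype.card_fin] at h4
    rw [h4, norm_neg]
  have key := weakRS hN hf hne he'
  have hT : ∀ x, 0 ≤ TT (fun p => p.Prime ∧ ¬ p ∣ N) B x := by
    intro x
    unfold TT
    split_ifs <;> positivity
  obtain ⟨C, hC⟩ := key.log_le hT
  refine ⟨C, fun x hx hx2 => ?_⟩
  have hs := key.summable hT hx
  have hinj : Function.Injective fun p : Nat.Primes => ((p, 0) : Nat.Primes × ℕ) :=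
    fun p q hpq => (Prod.mk.inj hpq).1
  have e : ∀ p : Nat.Primes, (if (p : ℕ) ∣ N then 0 else ‖(P p).coeff (s + 2 - 1)‖ ^ 2) *
      ((p : ℕ) : ℝ) ^ (-x) = TT (fun p => p.Prime ∧ ¬ p ∣ N) B (p, 0) * pk x (p, 0) := by
    intro p
    have h1 : pk x (p, 0) = ((p : ℕ) : ℝ) ^ (-x) := by
      rw [Pool.Agent.H74E.pk_eq]
      simp
    rw [h1]
    unfold TT
    by_cases hp : (p : ℕ) ∣ N
    · rw [if_pos hp, if_neg (fun h => h.2 hp)]
    · rw [if_neg hp, if_pos ⟨p.2, hp⟩, hu p p.2 hp, zero_add, pow_one]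
  simp only [e]
  refine ⟨hs.comp_injective hinj, le_trans ?_ (hC x hx hx2)⟩
  exact (hs.comp_injective hinj).tsum_le_tsum_of_inj (fun p : Nat.Primes => (p, 0)) hinj
    (fun y _ => mul_nonneg (hT y) (pk_nonneg x y)) (fun p => le_rfl) hs

end Pool.Agent.GL74
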