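import Pool.Agent.W_7742x_h74.XGlu
import Pool.Agent.W_7742x_h74.WMin
import Pool.Agent.W_92892c_h34t.Pois

/-! # Poisson summation for Gaussians on `ℤ^n`

`gd g` is the inverse transpose of `g`, `dt g ≠ 0`.
`poisson`: the function `F(x) = ∑_{v ∈ ℤ^n} gs ((x + v) g)` on `ℝ^n` is continuous and periodic
(locally uniform convergence); its Fourier coefficients are
`∫_{ℝ^n} gs (x g) e(-ξ·x) dx = |dt g|⁻¹ gs (ξ (gd g))` (substitute `y = x g`; the Gaussian
`exp (-π |y|²)` is its own Fourier transform, `fourierIntegral_gaussian_innerProductSpace` or a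
product of one dimensional integrals; `ξ · (y g⁻¹) = (ξ gd g) · y`).  They are summable, so
`F(0) = ∑ coefficients` (`UnitAddTorus.hasSum_mFourier_series_apply_of_summable`).
Summability: `gs (v g) ≤ exp (-c |v|²)` with `c > 0` because `|v| ≤ ‖g⁻¹‖ |v g|`.
`gd_smul`: `gd (t g) = t⁻¹ gd g`. -/

set_option autoImplicit false

noncomputable section

namespace Pool.Agent.GL74

open MeasureTheory
open scoped ENNReal

/-- The inverse transpose. -/
def gd {n : ℕ} (g : X n) : X n := fun i j => (Matrix.of g)⁻¹ j i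

open Matrix W92892t in
/-- The dual form and the Schur complement. -/
theorem PPoi_dual {r : ℕ} {H : Matrix (Fin (r + 1)) (Fin (r + 1)) ℝ} (hH : H.PosDef)
    (u : Fin (r + 1) → ℝ) :
    qf H⁻¹ u = u 0 ^ 2 / H 0 0 +
      qf (schur H)⁻¹ (fun j => u j.succ - u 0 * (H 0 j.succ / H 0 0)) := by
  have hsym : ∀ i j, H i j = H j i := by
    intro i j
    have := hH.isHermitian.apply i j
    simpa using this.symm
  have h0 : 0 < H 0 0 := hH.diag_pos
  have hS := schur_posDef hH
  have hdet : IsUnit H.det := isUnit_iff_ne_zero.2 hH.det_pos.ne'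
  have hSdet : IsUnit (schur H).det := isUnit_iff_ne_zero.2 hS.det_pos.ne'
  set y : Fin (r + 1) → ℝ := H⁻¹ *ᵥ u with hy
  have hHy : H *ᵥ y = u := by
    rw [hy, Matrix.mulVec_mulVec, Matrix.mul_nonsing_inv _ hdet, Matrix.one_mulVec]
  have hu0 : u 0 = H 0 0 * y 0 + ∑ j : Fin r, H 0 j.succ * y j.succ := by
    have h1 := congrFun hHy 0
    rw [← h1]
    show ∑ j, H 0 j * y j = _
    rw [Fin.sum_univ_succ]
  have hus : ∀ i : Fin r, u i.succ = H i.succ 0 * y 0 + ∑ j : Fin r, H i.succ j.succ * y j.succ := by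
    intro i
    have h1 := congrFun hHy i.succ
    rw [← h1]
    show ∑ j, H i.succ j * y j = _
    rw [Fin.sum_univ_succ]
  have h1 : qf H⁻¹ u = qf H y := by
    rw [qf_eq_dot, qf_eq_dot, ← hy, hHy, dotProduct_comm]
  have h2 : y = Fin.cons (y 0) (fun j => y j.succ) := (Fin.cons_self_tail y).symm
  have h3 : (schur H) *ᵥ (fun j => y j.succ) =
      fun j => u j.succ - u 0 * (H 0 j.succ / H 0 0) := by
    funext i
    show ∑ j : Fin r, (H i.succ j.succ - H i.succ 0 * H 0 j.succ / H 0 0) * y j.succ = _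
    have h4 : ∑ j : Fin r, (H i.succ j.succ - H i.succ 0 * H 0 j.succ / H 0 0) * y j.succ =
        ∑ j : Fin r, H i.succ j.succ * y j.succ -
          H i.succ 0 / H 0 0 * ∑ j : Fin r, H 0 j.succ * y j.succ := by
      rw [Finset.mul_sum, ← Finset.sum_sub_distrib]
      exact Finset.sum_congr rfl fun j _ => by ring
    have h5 : ∑ j : Fin r, H 0 j.succ * y j.succ = u 0 - H 0 0 * y 0 := by
      rw [hu0]
      ring
    rw [h4, h5, hus i, hsym 0 i.succ]
    field_simp
    ring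
  have h6 : qf (schur H)⁻¹ (fun j => u j.succ - u 0 * (H 0 j.succ / H 0 0)) =
      qf (schur H) (fun j => y j.succ) := by
    rw [qf_eq_dot, qf_eq_dot, h3, ← h3, Matrix.mulVec_mulVec, Matrix.nonsing_inv_mul _ hSdet,
      Matrix.one_mulVec, dotProduct_comm]
  rw [h6, h1]
  conv_lhs => rw [h2]
  rw [qf_cons H h0.ne' hsym]
  congr 1
  have h7 : ∑ j : Fin r, H 0 j.succ / H 0 0 * y j.succ =
      (∑ j : Fin r, H 0 j.succ * y j.succ) / H 0 0 := by
    rw [Finset.sum_div]
    exact Finset.sum_congr rfl fun j _ => by ring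
  rw [h7, hu0]
  field_simp

section Form

open Complex Filter Topology Matrix W92892t

/-- Poisson summation for the Gaussian of a positive definite form (helper34's `poisson_form`
with the dual form). -/
theorem PPoi_form : ∀ (r : ℕ) (H : Matrix (Fin r) (Fin r) ℝ), H.PosDef →
    ∃ (q : (Fin r → ℝ) → ℝ) (c : ℝ), 0 < c ∧ (∀ u, q u = qf H⁻¹ u) ∧
      (∀ u, c * ∑ j, u j ^ 2 ≤ q u) ∧
      ∀ s : ℝ, 0 < s → ∀ b : Fin r → ℝ,
        ∑' v : Fin r → ℤ, cexp (-((Real.pi * s * qf H fun i => (v i : ℝ) : ℝ) : ℂ) +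
            2 * Real.pi * I * ((∑ j, b j * (v j : ℝ) : ℝ) : ℂ)) =
          ((s ^ (-((r : ℝ) / 2)) * H.det ^ (-(1 / 2 : ℝ)) : ℝ) : ℂ) *
            ∑' w : Fin r → ℤ, ((Real.exp (-(Real.pi * q (fun i => (w i : ℝ) - b i) / s)) : ℝ) : ℂ) := by
  intro r
  induction r with
  | zero =>
    intro H _
    refine ⟨fun _ => 0, 1, one_pos, fun u => by simp [qf], fun u => by simp, fun s hs b => ?_⟩
    simp [qf]
  | succ r ih =>
    intro H hH
    have hsym : ∀ i j, H i j = H j i := by
      intro i j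
      have := hH.isHermitian.apply i j
      simpa using this.symm
    have h0 : 0 < H 0 0 := hH.diag_pos
    have hS := schur_posDef hH
    obtain ⟨q', c', hc', hq0', hq', hp'⟩ := ih (schur H) hS
    set α : ℝ := H 0 0 with hα
    set h : Fin r → ℝ := fun j => H 0 j.succ / α with hh
    obtain ⟨c, hc, hlow⟩ := aux_lowB h0 hc' h
    let q : (Fin (r + 1) → ℝ) → ℝ := fun u => u 0 ^ 2 / α + q' (fun j => u j.succ - u 0 * h j)
    have hqlow : ∀ u, c * ∑ j, u j ^ 2 ≤ q u := by
      intro u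
      rw [Fin.sum_univ_succ]
      refine (hlow (u 0) (fun j => u j.succ)).trans ?_
      show _ ≤ u 0 ^ 2 / α + q' (fun j => u j.succ - u 0 * h j)
      gcongr
      exact hq' _
    refine ⟨q, c, hc, ?_, hqlow, ?_⟩
    · intro u
      show u 0 ^ 2 / α + q' _ = _
      rw [hq0', PPoi_dual hH]
    intro s hs b
    set E := Fin.consEquiv (fun _ : Fin (r + 1) => ℤ) with hE
    have hsα : 0 < s * α := by positivity
    -- the summand on the left
    let x : (Fin r → ℤ) → ℝ := fun v => ∑ j, h j * (v j : ℝ)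
    let C : (Fin r → ℤ) → ℂ := fun v => cexp (-((Real.pi * s * qf (schur H) fun i => (v i : ℝ) : ℝ) : ℂ) +
            2 * Real.pi * I * ((∑ j, b j.succ * (v j : ℝ) : ℝ) : ℂ))
    have hterm : ∀ (n : ℤ) (v : Fin r → ℤ),
        cexp (-((Real.pi * s * qf H fun i => ((E (n, v)) i : ℝ) : ℝ) : ℂ) +
            2 * Real.pi * I * ((∑ j, b j * ((E (n, v)) j : ℝ) : ℝ) : ℂ)) =
          C v * cexp (-(Real.pi * ((s * α : ℝ) : ℂ) * ((n : ℂ) + (x v : ℝ)) ^ 2) +
            2 * Real.pi * I * ((b 0 : ℝ) * n)) := by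
      intro n v
      have h1 : (fun i => ((E (n, v)) i : ℝ)) =
          (Fin.cons (n : ℝ) (fun i => (v i : ℝ)) : Fin (r + 1) → ℝ) := cast_cons n v
      rw [h1, qf_cons H h0.ne' hsym]
      have h2 : ∑ j, b j * ((E (n, v)) j : ℝ) = b 0 * n + ∑ j : Fin r, b j.succ * (v j : ℝ) := by
        rw [Fin.sum_univ_succ]
        simp [hE, Fin.consEquiv_apply]
      rw [h2]
      show _ = cexp _ * cexp _
      rw [← Complex.exp_add]
      congr 1
      push_cast
      simp only [x, hh]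
      push_cast
      ring
    have hsumL : Summable fun p : ℤ × (Fin r → ℤ) =>
        cexp (-((Real.pi * s * qf H fun i => ((E p) i : ℝ) : ℝ) : ℂ) +
            2 * Real.pi * I * ((∑ j, b j * ((E p) j : ℝ) : ℝ) : ℂ)) := by
      have h1 := summable_qf hH hs
      rw [← E.summable_iff] at h1
      refine Summable.of_norm (h1.congr fun p => ?_)
      rw [Complex.norm_exp]
      simp [Function.comp]
    have hsumL' : Summable fun p : (Fin r → ℤ) × ℤ =>
        C p.1 * cexp (-(Real.pi * ((s * α : ℝ) : ℂ) * ((p.2 : ℂ) + (x p.1 : ℝ)) ^ 2) +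
            2 * Real.pi * I * ((b 0 : ℝ) * p.2)) := by
      have := (Equiv.prodComm (Fin r → ℤ) ℤ).summable_iff.2 hsumL
      refine this.congr fun p => ?_
      exact (hterm p.2 p.1)
    have hL : ∑' v : Fin (r + 1) → ℤ, cexp (-((Real.pi * s * qf H fun i => (v i : ℝ) : ℝ) : ℂ) +
            2 * Real.pi * I * ((∑ j, b j * (v j : ℝ) : ℝ) : ℂ)) =
        ∑' v : Fin r → ℤ, ∑' n : ℤ,
          C v * cexp (-(Real.pi * ((s * α : ℝ) : ℂ) * ((n : ℂ) + (x v : ℝ)) ^ 2) +
            2 * Real.pi * I * ((b 0 : ℝ) * n)) := by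
      rw [← E.tsum_eq, ← (Equiv.prodComm (Fin r → ℤ) ℤ).tsum_eq]
      rw [← hsumL'.tsum_prod]
      exact tsum_congr fun p => hterm p.2 p.1
    rw [hL]
    -- Poisson in the first variable
    have hone : ∀ v : Fin r → ℤ, ∑' n : ℤ,
          C v * cexp (-(Real.pi * ((s * α : ℝ) : ℂ) * ((n : ℂ) + (x v : ℝ)) ^ 2) +
            2 * Real.pi * I * ((b 0 : ℝ) * n)) =
        (((s * α) ^ (-(1 / 2 : ℝ)) : ℝ) : ℂ) * ∑' k : ℤ,
          C v * cexp (-(Real.pi * ((k : ℂ) - (b 0 : ℝ)) ^ 2 / ((s * α : ℝ) : ℂ)) +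
            2 * Real.pi * I * (((k : ℂ) - (b 0 : ℝ)) * (x v : ℝ))) := by
      intro v
      rw [tsum_mul_left, one_dim hsα, tsum_mul_left]
      ring
    simp only [hone]
    rw [tsum_mul_left]
    -- exchange
    have hsumM : Summable (Function.uncurry fun (v : Fin r → ℤ) (k : ℤ) =>
          C v * cexp (-(Real.pi * ((k : ℂ) - (b 0 : ℝ)) ^ 2 / ((s * α : ℝ) : ℂ)) +
            2 * Real.pi * I * (((k : ℂ) - (b 0 : ℝ)) * (x v : ℝ)))) := by
      have h1 := summable_qf hS hs
      have h2 := summable_int_sq (c := Real.pi / (s * α)) (by positivity) (b 0)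
      have h3 := Summable.mul_of_nonneg h1 h2 (fun _ => (Real.exp_pos _).le)
        (fun _ => (Real.exp_pos _).le)
      refine Summable.of_norm (h3.congr fun p => ?_)
      simp only [Function.uncurry, norm_mul, C]
      rw [Complex.norm_exp, Complex.norm_exp]
      congr 2
      · simp
      · have h4 : (-(Real.pi * ((p.2 : ℂ) - (b 0 : ℝ)) ^ 2 / ((s * α : ℝ) : ℂ)) +
            2 * Real.pi * I * (((p.2 : ℂ) - (b 0 : ℝ)) * (x p.1 : ℝ))) =
            ((-(Real.pi * ((p.2 : ℝ) - b 0) ^ 2 / (s * α)) : ℝ) : ℂ) +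
              ((2 * Real.pi * (((p.2 : ℝ) - b 0) * x p.1) : ℝ) : ℂ) * I := by
          push_cast
          ring
        rw [h4]
        simp only [add_re, ofReal_re, re_ofReal_mul, I_re, mul_zero, add_zero]
        ring
    rw [← hsumM.tsum_comm]
    -- induction hypothesis for each `k`
    have hin : ∀ k : ℤ, ∑' v : Fin r → ℤ,
          C v * cexp (-(Real.pi * ((k : ℂ) - (b 0 : ℝ)) ^ 2 / ((s * α : ℝ) : ℂ)) +
            2 * Real.pi * I * (((k : ℂ) - (b 0 : ℝ)) * (x v : ℝ))) =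
        ((s ^ (-((r : ℝ) / 2)) * (schur H).det ^ (-(1 / 2 : ℝ)) : ℝ) : ℂ) *
          ∑' w : Fin r → ℤ, ((Real.exp (-(Real.pi * q (fun i => ((E (k, w)) i : ℝ) - b i) / s)) : ℝ) : ℂ) := by
      intro k
      have h1 := hp' s hs (fun j => b j.succ + ((k : ℝ) - b 0) * h j)
      have h2 : ∀ v : Fin r → ℤ,
          C v * cexp (-(Real.pi * ((k : ℂ) - (b 0 : ℝ)) ^ 2 / ((s * α : ℝ) : ℂ)) +
            2 * Real.pi * I * (((k : ℂ) - (b 0 : ℝ)) * (x v : ℝ))) =
          ((Real.exp (-(Real.pi * ((k : ℝ) - b 0) ^ 2 / (s * α))) : ℝ) : ℂ) *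
            cexp (-((Real.pi * s * qf (schur H) fun i => (v i : ℝ) : ℝ) : ℂ) +
            2 * Real.pi * I * ((∑ j, (b j.succ + ((k : ℝ) - b 0) * h j) * (v j : ℝ) : ℝ) : ℂ)) := by
        intro v
        show cexp _ * cexp _ = _
        rw [ofReal_exp, ← Complex.exp_add, ← Complex.exp_add]
        congr 1
        have h3 : ∑ j, (b j.succ + ((k : ℝ) - b 0) * h j) * (v j : ℝ) =
            ∑ j, b j.succ * (v j : ℝ) + ((k : ℝ) - b 0) * x v := by
          simp only [x]
          rw [Finset.mul_sum, ← Finset.sum_add_distrib]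
          exact Finset.sum_congr rfl fun j _ => by ring
        rw [h3]
        push_cast
        ring
      simp only [h2]
      rw [tsum_mul_left, h1, ← mul_assoc, mul_comm ((Real.exp _ : ℝ) : ℂ), mul_assoc,
        ← tsum_mul_left]
      congr 1
      refine tsum_congr fun w => ?_
      rw [← ofReal_mul, ← Real.exp_add]
      congr 2
      have h4 : (fun i => ((E (k, w)) i : ℝ) - b i) 0 = (k : ℝ) - b 0 := by
        simp [hE, Fin.consEquiv_apply]
      have h5 : (fun j : Fin r => (fun i => ((E (k, w)) i : ℝ) - b i) j.succ -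
          (fun i => ((E (k, w)) i : ℝ) - b i) 0 * h j) =
          fun j => (w j : ℝ) - (b j.succ + ((k : ℝ) - b 0) * h j) := by
        funext j
        rw [h4]
        simp only [hE, Fin.consEquiv_apply, Fin.cons_succ]
        ring
      show _ = -(Real.pi * ((fun i => ((E (k, w)) i : ℝ) - b i) 0 ^ 2 / α + q' _) / s)
      rw [h5, h4]
      field_simp
      ring
    simp only [hin]
    rw [tsum_mul_left]
    -- the right side as a double sum
    have hsumR : Summable fun p : ℤ × (Fin r → ℤ) =>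
        ((Real.exp (-(Real.pi * q (fun i => ((E p) i : ℝ) - b i) / s)) : ℝ) : ℂ) := by
      have h1 := summable_pi_sq (c := Real.pi * c / s) (by positivity) (r + 1) b
      rw [← E.summable_iff] at h1
      refine Complex.ofRealCLM.summable (f := fun p : ℤ × (Fin r → ℤ) =>
        Real.exp (-(Real.pi * q (fun i => ((E p) i : ℝ) - b i) / s))) ?_
      refine Summable.of_nonneg_of_le (fun _ => (Real.exp_pos _).le) (fun p => ?_) h1
      apply Real.exp_le_exp.2
      have h2 := hqlow (fun i => ((E p) i : ℝ) - b i)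
      have h3 : Real.pi * c / s * ∑ j, (((E p) j : ℝ) - b j) ^ 2 =
          Real.pi * (c * ∑ j, (((E p) j : ℝ) - b j) ^ 2) / s := by ring
      show _ ≤ -(Real.pi * c / s * ∑ j, (((E p) j : ℝ) - b j) ^ 2)
      rw [h3]
      gcongr
    have hR : ∑' w : Fin (r + 1) → ℤ,
        ((Real.exp (-(Real.pi * q (fun i => (w i : ℝ) - b i) / s)) : ℝ) : ℂ) =
        ∑' k : ℤ, ∑' w : Fin r → ℤ,
          ((Real.exp (-(Real.pi * q (fun i => ((E (k, w)) i : ℝ) - b i) / s)) : ℝ) : ℂ) := by
      rw [← E.tsum_eq, hsumR.tsum_prod]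
    rw [hR, ← mul_assoc, ← ofReal_mul]
    congr 2
    rw [det_schur h0.ne']
    have hdS : 0 < (schur H).det := hS.det_pos
    rw [Real.mul_rpow hs.le h0.le, Real.mul_rpow h0.le hdS.le]
    have h6 : s ^ (-(((r + 1 : ℕ) : ℝ) / 2)) = s ^ (-(1 / 2 : ℝ)) * s ^ (-((r : ℝ) / 2)) := by
      rw [← Real.rpow_add hs]
      congr 1
      push_cast
      ring
    rw [h6]
    ring

end Form

/-- The Gram matrix of `g`. -/
def PPoi_gram {n : ℕ} (g : X n) : Matrix (Fin n) (Fin n) ℝ := Matrix.of g * (Matrix.of g).transpose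

theorem PPoi_qf {n : ℕ} (g : X n) (x : Fin n → ℝ) :
    W92892t.qf (PPoi_gram g) x = ∑ j, rv x g j ^ 2 := by
  unfold W92892t.qf PPoi_gram rv
  simp only [Matrix.mul_apply, Matrix.transpose_apply, Matrix.of_apply, sq, Finset.sum_mul_sum]
  have h1 : ∀ i j, x i * (∑ k, g i k * g j k) * x j = ∑ k, x i * g i k * (x j * g j k) := by
    intro i j
    rw [Finset.mul_sum, Finset.sum_mul]
    exact Finset.sum_congr rfl fun k _ => by ring
  simp only [h1]
  rw [Finset.sum_comm]
  have h2 : ∀ j, ∑ i, ∑ k, x i * g i k * (x j * g j k) =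
      ∑ k, ∑ i, x i * g i k * (x j * g j k) := fun j => Finset.sum_comm
  simp only [h2]
  rw [Finset.sum_comm]
  exact Finset.sum_congr rfl fun k _ => Finset.sum_comm

theorem PPoi_posDef {n : ℕ} {g : X n} (hg : dt g ≠ 0) : (PPoi_gram g).PosDef := by
  refine Matrix.PosDef.of_dotProduct_mulVec_pos ?_ ?_
  · unfold PPoi_gram
    rw [← Matrix.conjTranspose_eq_transpose_of_trivial]
    exact Matrix.isHermitian_mul_conjTranspose_self _
  · intro x hx
    rw [star_trivial, ← W92892t.qf_eq_dot, PPoi_qf]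
    have h0 : ∃ j, rv x g j ≠ 0 := by
      by_contra hc
      push Not at hc
      apply hx
      funext i
      rw [WMin_inv hg x i]
      simp [hc]
    obtain ⟨j, hj⟩ := h0
    exact Finset.sum_pos' (fun k _ => sq_nonneg _) ⟨j, Finset.mem_univ _, by positivity⟩

theorem PPoi_inv {n : ℕ} {g : X n} : (PPoi_gram g)⁻¹ = PPoi_gram (gd g) := by
  unfold PPoi_gram
  have h1 : Matrix.of (gd g) = ((Matrix.of g)⁻¹).transpose := by
    ext i j
    rfl
  rw [h1, Matrix.transpose_transpose, Matrix.mul_inv_rev, Matrix.transpose_nonsing_inv]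

theorem PPoi_det {n : ℕ} (g : X n) : (PPoi_gram g).det = dt g ^ 2 := by
  unfold PPoi_gram dt
  rw [Matrix.det_mul, Matrix.det_transpose, sq]

theorem gd_smul {n : ℕ} {t : ℝ} (ht : t ≠ 0) {g : X n} (hg : dt g ≠ 0) :
    gd (t • g) = t⁻¹ • gd g := by
  have h1 : (Matrix.of (t • g))⁻¹ = t⁻¹ • (Matrix.of g)⁻¹ := by
    have h2 : Matrix.of (t • g) = t • Matrix.of g := rfl
    rw [h2]
    exact Matrix.inv_smul' (Matrix.of g) (Units.mk0 t ht) (isUnit_iff_ne_zero.2 hg)
  funext i j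
  show (Matrix.of (t • g))⁻¹ j i = t⁻¹ * (Matrix.of g)⁻¹ j i
  rw [h1]
  rfl

theorem measurable_gd {n : ℕ} : Measurable (gd : X n → X n) := by
  refine measurable_pi_iff.2 fun i => measurable_pi_iff.2 fun j => ?_
  have h1 : (fun g : X n => gd g i j) =
      fun g : X n => (Matrix.of g).det⁻¹ * (Matrix.of g).adjugate j i := by
    funext g
    show (Matrix.of g)⁻¹ j i = _
    rw [Matrix.inv_def, Ring.inverse_eq_inv', Matrix.smul_apply, smul_eq_mul]
  rw [h1]
  have hc : Continuous fun g : X n => (Matrix.of g : Matrix (Fin n) (Fin n) ℝ) := continuous_id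
  have h2 : Continuous fun g : X n => (Matrix.of g).det := hc.matrix_det
  have h3 : Continuous fun g : X n => (Matrix.of g).adjugate j i :=
    hc.matrix_adjugate.matrix_elem j i
  exact h2.measurable.inv.mul h3.measurable

theorem dt_gd {n : ℕ} {g : X n} (hg : dt g ≠ 0) : dt (gd g) = (dt g)⁻¹ := by
  have h1 : Matrix.of (gd g) = ((Matrix.of g)⁻¹).transpose := by
    ext i j
    rfl
  unfold dt
  rw [h1, Matrix.det_transpose, Matrix.det_nonsing_inv, Ring.inverse_eq_inv']

theorem summable_gs {n : ℕ} {g : X n} (hg : dt g ≠ 0) :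
    Summable fun v : Fin n → ℤ => gs (rv (zr v) g) := by
  have h := W92892t.summable_qf (PPoi_posDef hg) one_pos
  refine h.congr fun v => ?_
  rw [mul_one, PPoi_qf]
  rfl

theorem integral_gs (n : ℕ) : ∫⁻ v : Fin n → ℝ, ENNReal.ofReal (gs v) = 1 := by
  have h0 : ∀ v : Fin n → ℝ, gs v = ∏ i, Real.exp (-Real.pi * v i ^ 2) := by
    intro v
    unfold gs
    rw [← Real.exp_sum, Finset.mul_sum, ← Finset.sum_neg_distrib]
    congr 1
    exact Finset.sum_congr rfl fun i _ => by ring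
  have hI : Integrable fun x : ℝ => Real.exp (-Real.pi * x ^ 2) := integrable_exp_neg_mul_sq Real.pi_pos
  have hInt : Integrable (fun v : Fin n → ℝ => gs v) := by
    simp only [h0]
    exact Integrable.fintype_prod (f := fun _ x => Real.exp (-Real.pi * x ^ 2)) fun _ => hI
  rw [← ofReal_integral_eq_lintegral_ofReal hInt (ae_of_all _ fun v => (Real.exp_pos _).le)]
  have h1 : ∫ v : Fin n → ℝ, gs v = 1 := by
    simp only [h0]
    rw [integral_fintype_prod_volume_eq_prod
      (f := fun _ x => Real.exp (-Real.pi * x ^ 2))]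
    have h2 : ∫ x : ℝ, Real.exp (-Real.pi * x ^ 2) = 1 := by
      rw [integral_gaussian, div_self Real.pi_pos.ne', Real.sqrt_one]
    rw [Finset.prod_congr rfl fun _ _ => h2, Finset.prod_const_one]
  rw [h1, ENNReal.ofReal_one]

/-- **Poisson summation.** -/
theorem poisson {n : ℕ} {g : X n} (hg : dt g ≠ 0) :
    ∑' v : Fin n → ℤ, gs (rv (zr v) g) =
      |dt g|⁻¹ * ∑' ξ : Fin n → ℤ, gs (rv (zr ξ) (gd g)) := by
  obtain ⟨q, c, hc, hq, -, hp⟩ := PPoi_form n (PPoi_gram g) (PPoi_posDef hg)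
  have h1 := hp 1 one_pos 0
  have hL : ∀ v : Fin n → ℤ, Complex.exp (-((Real.pi * 1 *
      W92892t.qf (PPoi_gram g) fun i => (v i : ℝ) : ℝ) : ℂ) +
        2 * Real.pi * Complex.I * ((∑ j, (0 : Fin n → ℝ) j * (v j : ℝ) : ℝ) : ℂ)) =
      ((gs (rv (zr v) g) : ℝ) : ℂ) := by
    intro v
    have h2 : ∑ j, (0 : Fin n → ℝ) j * (v j : ℝ) = 0 := by simp
    rw [h2, Complex.ofReal_zero, mul_zero, add_zero, mul_one, PPoi_qf, ← Complex.ofReal_neg,
      ← Complex.ofReal_exp]
    rfl
  have hR : ∀ w : Fin n → ℤ, ((Real.exp (-(Real.pi *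
      q (fun i => (w i : ℝ) - (0 : Fin n → ℝ) i) / 1)) : ℝ) : ℂ) =
      ((gs (rv (zr w) (gd g)) : ℝ) : ℂ) := by
    intro w
    rw [hq, PPoi_inv, PPoi_qf, div_one]
    have h2 : (fun i => (w i : ℝ) - (0 : Fin n → ℝ) i) = zr w := by
      funext i
      simp [zr]
    rw [h2]
    rfl
  simp only [hL, hR] at h1
  rw [← Complex.ofReal_tsum, ← Complex.ofReal_tsum, ← Complex.ofReal_mul] at h1
  have h3 := Complex.ofReal_injective h1
  rw [h3, Real.one_rpow, one_mul, PPoi_det]
  congr 1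
  rw [← sq_abs, ← Real.rpow_natCast, ← Real.rpow_mul (abs_nonneg _)]
  norm_num
  rw [Real.rpow_neg_one]

end Pool.Agent.GL74
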