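import Pool.Agent.W_7742x_h74.XMea

/-! # Scale invariant functions

`lintegral_sc`: for a scale invariant measurable `u ≥ 0` with `∫_{|dt g| ≤ 1} u < ∞`,
`∫ u(g) H(|dt g|) dg = n (∫_{|dt g| ≤ 1} u) ∫_0^∞ H(x) x^{n-1} dx`.  The proof is the one of
`lintegral_wt_dt` in `WSca` (only measurability and scale invariance are used there).

`analytic_lap`: `F σ = ∫ u(g) |dt g|^σ dg` is real analytic where it is finite in a neighbourhood:
it is the moment generating function of `log |dt g|` with respect to the measure `u(g) dg` on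
`dt g ≠ 0` (`ProbabilityTheory.analyticAt_mgf`). -/

set_option autoImplicit false

noncomputable section

namespace Pool.Agent.GL74

open MeasureTheory Set
open scoped ENNReal

theorem PSca_le {n : ℕ} (hn : 0 < n) {u : X n → ℝ≥0∞} (hu : Measurable u)
    (hs : ∀ t : ℝ, 0 < t → ∀ g, u (t • g) = u g) {β : ℝ} (hβ : 0 < β) :
    ∫⁻ g in {g : X n | |dt g| ≤ β}, u g =
      ENNReal.ofReal (β ^ n) * ∫⁻ g in {g : X n | |dt g| ≤ 1}, u g := by
  have hm : ∀ b : ℝ, MeasurableSet {g : X n | |dt g| ≤ b} := fun b =>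
    measurableSet_le (_root_.continuous_abs.measurable.comp measurable_dt) measurable_const
  set t : ℝ := β ^ ((n : ℝ)⁻¹) with ht
  have ht0 : 0 < t := Real.rpow_pos_of_pos hβ _
  have htn : t ^ n = β := by
    rw [ht, Real.rpow_inv_natCast_pow hβ.le hn.ne']
  have h1 := lintegral_smul_X (n := n) ht0
    (F := fun g => Set.indicator {g : X n | |dt g| ≤ β} u g) (hu.indicator (hm β))
  have h2 : ∀ g : X n, Set.indicator {g : X n | |dt g| ≤ β} u (t • g) =
      Set.indicator {g : X n | |dt g| ≤ 1} u g := by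
    intro g
    have h3 : (t • g ∈ {g : X n | |dt g| ≤ β}) ↔ (g ∈ {g : X n | |dt g| ≤ 1}) := by
      show |dt (t • g)| ≤ β ↔ |dt g| ≤ 1
      rw [dt_smul, htn, abs_mul, abs_of_pos hβ]
      exact mul_le_iff_le_one_right hβ
    by_cases h4 : g ∈ {g : X n | |dt g| ≤ 1}
    · rw [Set.indicator_of_mem h4, Set.indicator_of_mem (h3.2 h4), hs t ht0]
    · rw [Set.indicator_of_notMem h4, Set.indicator_of_notMem fun h5 => h4 (h3.1 h5)]
  simp only [h2] at h1
  rw [lintegral_indicator (hm 1), lintegral_indicator (hm β)] at h1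
  rw [h1, ← mul_assoc, ← ENNReal.ofReal_mul (by positivity)]
  have h5 : β ^ n * t⁻¹ ^ (n * n) = 1 := by
    rw [pow_mul, ← mul_pow, inv_pow, htn, mul_inv_cancel₀ hβ.ne', one_pow]
  rw [h5, ENNReal.ofReal_one, one_mul]

/-- The integral of a power. -/
theorem PSca_pow {n : ℕ} (hn : 0 < n) {β : ℝ} (hβ : 0 < β) :
    (n : ℝ≥0∞) * ∫⁻ x in Set.Ioc (0 : ℝ) β, ENNReal.ofReal (x ^ (n - 1)) =
      ENNReal.ofReal (β ^ n) := by
  have hi : IntegrableOn (fun x : ℝ => x ^ (n - 1)) (Set.Ioc 0 β) :=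
    ((continuous_pow (n - 1)).integrableOn_Icc).mono_set Set.Ioc_subset_Icc_self
  rw [← ofReal_integral_eq_lintegral_ofReal hi ?_, ← intervalIntegral.integral_of_le hβ.le,
    integral_pow]
  · have h1 : n - 1 + 1 = n := Nat.sub_add_cancel hn
    have h2 : (((n - 1 : ℕ) : ℝ) + 1) = n := by exact_mod_cast h1
    rw [h1, h2, zero_pow hn.ne', sub_zero]
    have h3 : (n : ℝ≥0∞) = ENNReal.ofReal n := (ENNReal.ofReal_natCast n).symm
    rw [h3, ← ENNReal.ofReal_mul (Nat.cast_nonneg n)]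
    congr 1
    have : (n : ℝ) ≠ 0 := by exact_mod_cast hn.ne'
    field_simp
  · filter_upwards [ae_restrict_mem measurableSet_Ioc] with x hx
    exact pow_nonneg hx.1.le _

theorem lintegral_sc {n : ℕ} (hn : 0 < n) {u : X n → ℝ≥0∞} (hu : Measurable u)
    (hs : ∀ t : ℝ, 0 < t → ∀ g, u (t • g) = u g)
    (hfin : ∫⁻ g in {g : X n | |dt g| ≤ 1}, u g ≠ ∞) {H : ℝ → ℝ≥0∞} (hH : Measurable H) :
    ∫⁻ g, u g * H |dt g| = n * (∫⁻ g in {g : X n | |dt g| ≤ 1}, u g) *
      ∫⁻ x in Ioi (0 : ℝ), H x * ENNReal.ofReal (x ^ (n - 1)) := by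
  have hd : Measurable fun g : X n => |dt g| := _root_.continuous_abs.measurable.comp measurable_dt
  have hp : Measurable fun x : ℝ => ENNReal.ofReal (x ^ (n - 1)) :=
    (measurable_id.pow_const _).ennreal_ofReal
  obtain ⟨M, hM⟩ : ∃ M : ℝ≥0∞, M = ∫⁻ g in {g : X n | |dt g| ≤ 1}, u g := ⟨_, rfl⟩
  rw [← hM] at hfin ⊢
  have hle : ∀ β : ℝ, 0 < β →
      ∫⁻ g in {g : X n | |dt g| ≤ β}, u g = ENNReal.ofReal (β ^ n) * M := by
    intro β hβ
    rw [hM]
    exact PSca_le hn hu hs hβ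
  set ν : Measure ℝ := Measure.map (fun g : X n => |dt g|) ((volume : Measure (X n)).withDensity u)
    with hν
  set ρ : Measure ℝ := (n * M) •
    (((volume : Measure ℝ).restrict (Set.Ioi 0)).withDensity fun x => ENNReal.ofReal (x ^ (n - 1)))
    with hρ
  have hνI : ∀ β : ℝ, ν (Set.Iic β) = ∫⁻ g in {g : X n | |dt g| ≤ β}, u g := by
    intro β
    rw [hν, Measure.map_apply hd measurableSet_Iic]
    exact withDensity_apply _ (measurableSet_le hd measurable_const)
  have hρI : ∀ β : ℝ, ρ (Set.Iic β) =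
      (n * M) * ∫⁻ x in Set.Ioc (0 : ℝ) β, ENNReal.ofReal (x ^ (n - 1)) := by
    intro β
    rw [hρ, Measure.smul_apply, smul_eq_mul, withDensity_apply _ measurableSet_Iic,
      Measure.restrict_restrict measurableSet_Iic, Set.inter_comm, Set.Ioi_inter_Iic]
  have heq : ∀ β : ℝ, ν (Set.Iic β) = ρ (Set.Iic β) := by
    intro β
    rcases lt_or_ge 0 β with hβ | hβ
    · rw [hνI, hρI, hle β hβ, mul_comm (n : ℝ≥0∞) M, mul_assoc,
        PSca_pow hn hβ, mul_comm]
    · rw [hνI, hρI, Set.Ioc_eq_empty (not_lt.2 hβ)]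
      simp only [Measure.restrict_empty, lintegral_zero_measure, mul_zero]
      have h0 : (volume : Measure (X n)) {g : X n | |dt g| ≤ β} = 0 := by
        have h1 := (ae_iff (p := fun g : X n => dt g ≠ 0)).1 ae_dt_ne_zero
        refine measure_mono_null ?_ h1
        intro g hg
        have hg' : |dt g| ≤ β := hg
        show ¬ dt g ≠ 0
        rw [not_not]
        exact abs_eq_zero.1 (le_antisymm (hg'.trans hβ) (abs_nonneg _))
      rw [Measure.restrict_eq_zero.2 h0, lintegral_zero_measure]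
  have hνρ : ν = ρ := by
    refine Measure.ext_of_generateFrom_of_iUnion (Set.range Set.Iic) (fun i : ℕ => Set.Iic (i : ℝ))
      ?_ isPiSystem_Iic ?_ (fun i => ⟨_, rfl⟩) ?_ ?_
    · rw [BorelSpace.measurable_eq (α := ℝ), borel_eq_generateFrom_Iic ℝ]
    · rw [Set.eq_univ_iff_forall]
      intro x
      obtain ⟨i, hi⟩ := exists_nat_ge x
      exact Set.mem_iUnion.2 ⟨i, hi⟩
    · intro i
      have h1 : ν (Set.Iic (i : ℝ)) ≤ ν (Set.Iic ((i : ℝ) + 1)) :=
        measure_mono (Set.Iic_subset_Iic.2 (by linarith))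
      refine ne_top_of_le_ne_top ?_ h1
      rw [hνI, hle _ (by positivity)]
      exact ENNReal.mul_ne_top ENNReal.ofReal_ne_top hfin
    · rintro _ ⟨β, rfl⟩
      exact heq β
  calc ∫⁻ g, u g * H |dt g| = ∫⁻ g, H |dt g| ∂((volume : Measure (X n)).withDensity u) := by
        have h9 := lintegral_withDensity_eq_lintegral_mul (volume : Measure (X n)) hu
          (hH.comp hd)
        exact h9.symm
    _ = ∫⁻ x, H x ∂ν := by
        rw [hν, lintegral_map hH hd]
    _ = ∫⁻ x, H x ∂ρ := by rw [hνρ]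
    _ = n * M * ∫⁻ x in Set.Ioi (0 : ℝ), H x * ENNReal.ofReal (x ^ (n - 1)) := by
        rw [hρ, lintegral_smul_measure, lintegral_withDensity_eq_lintegral_mul _ hp hH, smul_eq_mul]
        congr 1
        apply lintegral_congr
        intro x
        simp only [Pi.mul_apply]
        rw [mul_comm]

theorem analytic_lap {n : ℕ} {u : X n → ℝ≥0∞} (hu : Measurable u) {a b : ℝ}
    (hfin : ∀ σ ∈ Ioo a b, ∫⁻ g, u g * ENNReal.ofReal (|dt g| ^ σ) ≠ ∞) :
    ∀ σ ∈ Ioo a b, AnalyticAt ℝ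
      (fun σ : ℝ => (∫⁻ g, u g * ENNReal.ofReal (|dt g| ^ σ)).toReal) σ := by
  obtain ⟨μ, hμ⟩ : ∃ μ : Measure (X n), μ = (volume : Measure (X n)).withDensity u := ⟨_, rfl⟩
  have hX : Measurable fun g : X n => Real.log |dt g| :=
    Real.measurable_log.comp (_root_.continuous_abs.measurable.comp measurable_dt)
  have hE : ∀ σ : ℝ, Measurable fun g : X n => Real.exp (σ * Real.log |dt g|) := fun σ =>
    Real.measurable_exp.comp (measurable_const.mul hX)
  have h1 : ∀ σ : ℝ, ∫⁻ g, ENNReal.ofReal (Real.exp (σ * Real.log |dt g|)) ∂μ =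
      ∫⁻ g, u g * ENNReal.ofReal (|dt g| ^ σ) := by
    intro σ
    rw [hμ, lintegral_withDensity_eq_lintegral_mul _ hu (hE σ).ennreal_ofReal]
    apply lintegral_congr_ae
    filter_upwards [ae_dt_ne_zero] with g hg
    simp only [Pi.mul_apply]
    rw [Real.rpow_def_of_pos (abs_pos.2 hg), mul_comm σ]
  have h2 : (fun σ : ℝ => (∫⁻ g, u g * ENNReal.ofReal (|dt g| ^ σ)).toReal) =
      ProbabilityTheory.mgf (fun g : X n => Real.log |dt g|) μ := by
    funext σ
    rw [ProbabilityTheory.mgf, integral_eq_lintegral_of_nonneg_ae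
      (Filter.Eventually.of_forall fun g => (Real.exp_pos _).le) (hE σ).aestronglyMeasurable, h1]
  intro σ hσ
  rw [h2]
  apply ProbabilityTheory.analyticAt_mgf
  have h3 : Ioo a b ⊆ ProbabilityTheory.integrableExpSet (fun g : X n => Real.log |dt g|) μ := by
    intro τ hτ
    show Integrable (fun g : X n => Real.exp (τ * Real.log |dt g|)) μ
    refine ⟨(hE τ).aestronglyMeasurable, ?_⟩
    rw [hasFiniteIntegral_iff_ofReal (Filter.Eventually.of_forall fun g => (Real.exp_pos _).le),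
      h1]
    exact lt_top_iff_ne_top.2 (hfin τ hτ)
  exact interior_maximal h3 isOpen_Ioo hσ

end Pool.Agent.GL74
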