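import Pool.Agent.W_7742x_h74.PMob
import Pool.Agent.W_7742x_h74.PSca

/-! # The part of the integral with small determinant

Let `n = s + 2`, `u(g) = wT T g ‖φ g‖²` (scale invariant, measurable,
`u ≤ C² wT T`, `∫_{|dt g| ≤ 1} wT T = |T| mass (wt n) < ∞` by invariance under `δ ∈ T`),
`M = n ∫_{|dt g| ≤ 1} u`.

`A2 σ = ∫_{|dt g| ≤ 1} u(g) |dt g|^{σ-n} ∑_{v ∈ MN} gs (v g) dg`.

* finite for `σ > 1`: `≤ C² ∑_{δ ∈ T} ∫_{|dt g| ≤ 1} wt(δ g) |dt g|^{σ-n} ∑_{v ≠ 0} gs (v g)`, the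
  sum over all `v ≠ 0` is invariant under `δ`, so by `siegel` it is at most
  `C² |T| c ∫_0^1 x^{σ-n} x^{n-2} dx < ∞`.
* for `σ > 1`, by `sum_MN`, `poisson`, `dt_dN`
  `∑_{v ∈ MN} gs (v g) = ∑_{d ∣ N} μ(d) (d N^{n-1} |dt g|)⁻¹ (1 + Sd (dN N d g)) - [N = 1]`, so
  `A2 σ = (∑ μ(d)/(d N^{n-1})) ∫_{|dt| ≤ 1} u |dt|^{σ-n-1} +
     ∑_d μ(d)/(d N^{n-1}) E_d σ - [N = 1] ∫_{|dt| ≤ 1} u |dt|^{σ-n}`,
  `E_d σ = ∫_{|dt| ≤ 1} u |dt|^{σ-n-1} Sd (dN N d g)`; by `lintegral_sc` the first integral is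
  `M ∫_0^1 x^{σ-2} dx = M/(σ-1)`, the last one `M/σ`.
* `E_d` is finite for `σ > 0`: `u ≤ C² wT T`, `Sd (dN N d g) ≤ Sd (N g)` is invariant under
  `SL_n (ℤ)` (`gd (δ g) = gd δ gd g` and `ξ ↦ ξ gd δ` is a bijection of `ℤ^n`), substitute
  `g ↦ N⁻¹ g`, and `dual_mean` with `H x = x^{σ-n-1}` for `x ≤ N^n`:
  `∫_0^{N^n} x^{σ-n-1} x^n dx < ∞`.  So `E_d` is real analytic for `σ > 0` (`analytic_lap` with the
  function `u |dt|^{-n-1} Sd (dN N d ·) 1_{|dt| ≤ 1}`).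
* So `G σ = (σ - 1) A2 σ` is given for `σ > 1` by an expression analytic for `σ > 0`. -/

set_option autoImplicit false

noncomputable section

namespace Pool.Agent.GL74

open MeasureTheory Set
open scoped ENNReal MatrixGroups

/-- The sum of the translates of the weight. -/
def wT {n : ℕ} (T : Finset SL(n, ℤ)) (g : X n) : ℝ≥0∞ := ∑ δ ∈ T, wt n (sl δ g)

/-- The theta sum of level `N`. -/
def thN (s N : ℕ) (g : X (s + 2)) : ℝ≥0∞ :=
  ∑' v : MN s N, ENNReal.ofReal (gs (rv (zr v.1) g))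

/-! ### Measurability -/

theorem PMai_meas_sl {n : ℕ} (δ : SL(n, ℤ)) : Measurable (sl δ : X n → X n) := measurable_lm _

theorem PMai_meas_wT {n : ℕ} (T : Finset SL(n, ℤ)) : Measurable (wT T : X n → ℝ≥0∞) := by
  unfold wT
  exact Finset.measurable_sum _ fun δ _ => (isWt_wt n).meas.comp (PMai_meas_sl δ)

theorem PMai_meas_gs {n : ℕ} : Measurable (gs : (Fin n → ℝ) → ℝ) := by
  unfold gs
  fun_prop

theorem PMai_meas_rv {n : ℕ} (v : Fin n → ℝ) : Measurable fun g : X n => rv v g := by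
  unfold rv
  fun_prop

theorem PMai_meas_thN (s N : ℕ) : Measurable (thN s N) := by
  unfold thN
  exact Measurable.tsum fun v =>
    (PMai_meas_gs.comp (PMai_meas_rv (zr v.1))).ennreal_ofReal

theorem PMai_meas_dN {s : ℕ} (N d : ℕ) : Measurable (dN N d : X (s + 1) → X (s + 1)) := by
  unfold dN
  fun_prop

theorem PMai_meas_pow {n : ℕ} (a : ℝ) :
    Measurable fun g : X n => ENNReal.ofReal (|dt g| ^ a) := by
  have h1 : Measurable fun g : X n => |dt g| := measurable_dt.norm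
  exact (h1.pow_const a).ennreal_ofReal

theorem PMai_set (n : ℕ) : MeasurableSet {g : X n | |dt g| ≤ 1} :=
  measurableSet_le measurable_dt.norm measurable_const

/-! ### The translates of the weight -/

theorem PMai_T {n : ℕ} (T : Finset SL(n, ℤ)) {K : X n → ℝ≥0∞} (hK : Measurable K)
    (hi : ∀ δ : SL(n, ℤ), ∀ g, K (sl δ g) = K g) :
    ∫⁻ g, wT T g * K g = T.card * ∫⁻ g, wt n g * K g := by
  unfold wT
  simp only [Finset.sum_mul]
  have h0 : ∀ δ ∈ T, Measurable fun g : X n => wt n (sl δ g) * K g := fun δ _ =>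
    ((isWt_wt n).meas.comp (PMai_meas_sl δ)).mul hK
  rw [lintegral_finsetSum _ h0]
  have h1 : ∀ δ ∈ T, ∫⁻ g, wt n (sl δ g) * K g = ∫⁻ g, wt n g * K g := by
    intro δ _
    have h2 : ∫⁻ g, wt n (sl δ g) * K g = ∫⁻ g, (fun g => wt n g * K g) (sl δ g) := by
      simp only [hi]
    rw [h2]
    exact (measurePreserving_sl δ).lintegral_comp ((isWt_wt n).meas.mul hK)
  rw [Finset.sum_congr rfl h1, Finset.sum_const, nsmul_eq_mul]

theorem PMai_wT_fin {n : ℕ} (T : Finset SL(n, ℤ)) :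
    ∫⁻ g in {g : X n | |dt g| ≤ 1}, wT T g ≠ ∞ := by
  classical
  have hD := PMai_set n
  have h1 : ∫⁻ g in {g : X n | |dt g| ≤ 1}, wT T g =
      ∫⁻ g, wT T g * ({g : X n | |dt g| ≤ 1} : Set (X n)).indicator 1 g := by
    rw [← lintegral_indicator hD]
    refine lintegral_congr fun g => ?_
    by_cases hg : g ∈ {g : X n | |dt g| ≤ 1}
    · rw [indicator_of_mem hg, indicator_of_mem hg, Pi.one_apply, mul_one]
    · rw [indicator_of_notMem hg, indicator_of_notMem hg, mul_zero]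
  have h2 : ∫⁻ g, wt n g * ({g : X n | |dt g| ≤ 1} : Set (X n)).indicator 1 g =
      ∫⁻ g in {g : X n | |dt g| ≤ 1}, wt n g := by
    rw [← lintegral_indicator hD]
    refine lintegral_congr fun g => ?_
    by_cases hg : g ∈ {g : X n | |dt g| ≤ 1}
    · rw [indicator_of_mem hg, indicator_of_mem hg, Pi.one_apply, mul_one]
    · rw [indicator_of_notMem hg, indicator_of_notMem hg, mul_zero]
  have h3 : ∀ δ : SL(n, ℤ), ∀ g : X n,
      ({g : X n | |dt g| ≤ 1} : Set (X n)).indicator (1 : X n → ℝ≥0∞) (sl δ g) =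
        ({g : X n | |dt g| ≤ 1} : Set (X n)).indicator 1 g := by
    intro δ g
    simp only [indicator, Set.mem_ofPred_eq, dt_sl, Pi.one_apply]
  rw [h1, PMai_T T (measurable_one.indicator hD) h3, h2]
  exact ENNReal.mul_ne_top (ENNReal.natCast_ne_top _) (isWt_wt n).fin

/-! ### The dual sum is invariant -/

/-- The columns of integral vectors. -/
def PMai_eq {n : ℕ} (δ : SL(n, ℤ)) : {ξ : Fin n → ℤ // ξ ≠ 0} ≃ {ξ : Fin n → ℤ // ξ ≠ 0} where
  toFun ξ := ⟨(δ⁻¹).1.mulVec ξ.1, fun h => ξ.2 (by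
    have h1 : δ.1.mulVec ((δ⁻¹).1.mulVec ξ.1) = ξ.1 := by
      rw [Matrix.mulVec_mulVec]
      have h2 : δ.1 * (δ⁻¹).1 = 1 := by
        have h3 : (δ * δ⁻¹).1 = 1 := by rw [mul_inv_cancel]; rfl
        exact h3
      rw [h2, Matrix.one_mulVec]
    rw [← h1, h, Matrix.mulVec_zero])⟩
  invFun ξ := ⟨δ.1.mulVec ξ.1, fun h => ξ.2 (by
    have h1 : (δ⁻¹).1.mulVec (δ.1.mulVec ξ.1) = ξ.1 := by
      rw [Matrix.mulVec_mulVec]
      have h2 : (δ⁻¹).1 * δ.1 = 1 := by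
        have h3 : (δ⁻¹ * δ).1 = 1 := by rw [inv_mul_cancel]; rfl
        exact h3
      rw [h2, Matrix.one_mulVec]
    rw [← h1, h, Matrix.mulVec_zero])⟩
  left_inv ξ := by
    apply Subtype.ext
    show δ.1.mulVec ((δ⁻¹).1.mulVec ξ.1) = ξ.1
    rw [Matrix.mulVec_mulVec]
    have h2 : δ.1 * (δ⁻¹).1 = 1 := by
      have h3 : (δ * δ⁻¹).1 = 1 := by rw [mul_inv_cancel]; rfl
      exact h3
    rw [h2, Matrix.one_mulVec]
  right_inv ξ := by
    apply Subtype.ext
    show (δ⁻¹).1.mulVec (δ.1.mulVec ξ.1) = ξ.1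
    rw [Matrix.mulVec_mulVec]
    have h2 : (δ⁻¹).1 * δ.1 = 1 := by
      have h3 : (δ⁻¹ * δ).1 = 1 := by rw [inv_mul_cancel]; rfl
      exact h3
    rw [h2, Matrix.one_mulVec]

theorem PMai_rv_gd {n : ℕ} (δ : SL(n, ℤ)) (ξ : Fin n → ℤ) (g : X n) :
    rv (zr ξ) (gd (sl δ g)) = rv (zr ((δ⁻¹).1.mulVec ξ)) (gd g) := by
  have hinv : (δ.1.map fun a : ℤ => (a : ℝ))⁻¹ = (δ⁻¹).1.map fun a : ℤ => (a : ℝ) := by
    apply Matrix.inv_eq_right_inv
    have h3 : (δ * δ⁻¹).1 = 1 := by rw [mul_inv_cancel]; rfl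
    have h4 : δ.1 * (δ⁻¹).1 = 1 := h3
    show δ.1.map (Int.castRingHom ℝ) * (δ⁻¹).1.map (Int.castRingHom ℝ) = 1
    rw [← Matrix.map_mul, h4]
    exact Matrix.map_one _ Int.cast_zero Int.cast_one
  have h1 : ∀ i j, gd (sl δ g) i j = ∑ k, ((δ⁻¹).1 k i : ℝ) * gd g k j := by
    intro i j
    unfold gd sl
    rw [lm_eq, Matrix.mul_inv_rev, hinv, Matrix.mul_apply]
    refine Finset.sum_congr rfl fun k _ => ?_
    rw [Matrix.map_apply]
    ring
  funext j
  unfold rv zr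
  simp only [h1, Finset.mul_sum]
  rw [Finset.sum_comm]
  refine Finset.sum_congr rfl fun k _ => ?_
  have h2 : (((δ⁻¹).1.mulVec ξ k : ℤ) : ℝ) = ∑ i, ((δ⁻¹).1 k i : ℝ) * (ξ i : ℝ) := by
    unfold Matrix.mulVec dotProduct
    push_cast
    rfl
  rw [h2, Finset.sum_mul]
  exact Finset.sum_congr rfl fun i _ => by ring

theorem PMai_Sd {n : ℕ} (δ : SL(n, ℤ)) (g : X n) : Sd (sl δ g) = Sd g := by
  unfold Sd
  simp only [PMai_rv_gd]
  exact (PMai_eq δ).tsum_eq fun ξ : {ξ : Fin n → ℤ // ξ ≠ 0} =>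
    ENNReal.ofReal (gs (rv (zr ξ.1) (gd g)))

/-! ### One dimensional integrals -/

theorem PMai_pow {b R : ℝ} (hb : -1 < b) (hR : 0 < R) :
    ∫⁻ x in Ioc (0 : ℝ) R, ENNReal.ofReal (x ^ b) = ENNReal.ofReal (R ^ (b + 1) / (b + 1)) := by
  have hi : IntegrableOn (fun x : ℝ => x ^ b) (Ioc 0 R) :=
    (intervalIntegrable_iff_integrableOn_Ioc_of_le hR.le).1
      (intervalIntegral.intervalIntegrable_rpow' hb)
  rw [← ofReal_integral_eq_lintegral_ofReal hi]
  · rw [← intervalIntegral.integral_of_le hR.le, integral_rpow (Or.inl hb),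
      Real.zero_rpow (by linarith), sub_zero]
  · filter_upwards [ae_restrict_mem measurableSet_Ioc] with x hx
    exact Real.rpow_nonneg hx.1.le _

theorem PMai_one {k : ℕ} {a R : ℝ} (ha : -1 < a + k) (hR : 0 < R) :
    ∫⁻ x in Ioi (0 : ℝ), (Iic R).indicator (fun x => ENNReal.ofReal (x ^ a)) x *
      ENNReal.ofReal (x ^ k) = ENNReal.ofReal (R ^ (a + k + 1) / (a + k + 1)) := by
  rw [← PMai_pow ha hR]
  have h1 : ∀ x : ℝ, (Ioi (0 : ℝ)).indicator (fun x =>
      (Iic R).indicator (fun x => ENNReal.ofReal (x ^ a)) x * ENNReal.ofReal (x ^ k)) x =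
      (Ioc (0 : ℝ) R).indicator (fun x => ENNReal.ofReal (x ^ (a + k))) x := by
    intro x
    by_cases hx : 0 < x
    · rw [indicator_of_mem (show x ∈ Ioi (0 : ℝ) from hx)]
      by_cases hx1 : x ≤ R
      · rw [indicator_of_mem (show x ∈ Iic R from hx1),
          indicator_of_mem (show x ∈ Ioc (0 : ℝ) R from ⟨hx, hx1⟩),
          ← ENNReal.ofReal_mul (Real.rpow_nonneg hx.le _), Real.rpow_add hx, Real.rpow_natCast]
      · rw [indicator_of_notMem (show x ∉ Iic R from hx1),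
          indicator_of_notMem (show x ∉ Ioc (0 : ℝ) R from fun h => hx1 h.2), zero_mul]
    · rw [indicator_of_notMem (show x ∉ Ioi (0 : ℝ) from hx),
        indicator_of_notMem (show x ∉ Ioc (0 : ℝ) R from fun h => hx h.1)]
  rw [← lintegral_indicator measurableSet_Ioi, ← lintegral_indicator measurableSet_Ioc]
  exact lintegral_congr h1

/-! ### The integrals over `|dt g| ≤ 1` -/

theorem PMai_scal {s : ℕ} {u : X (s + 2) → ℝ≥0∞} (hu : Measurable u)
    (hs : ∀ t : ℝ, 0 < t → ∀ g, u (t • g) = u g)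
    (hfin : ∫⁻ g in {g : X (s + 2) | |dt g| ≤ 1}, u g ≠ ∞) {a : ℝ} (ha : 0 < a + (s + 2)) :
    ∫⁻ g in {g : X (s + 2) | |dt g| ≤ 1}, u g * ENNReal.ofReal (|dt g| ^ a) =
      ((s + 2 : ℕ) : ℝ≥0∞) * (∫⁻ g in {g : X (s + 2) | |dt g| ≤ 1}, u g) *
        ENNReal.ofReal (1 / (a + (s + 2))) := by
  have hH : Measurable ((Iic (1 : ℝ)).indicator fun x => ENNReal.ofReal (x ^ a)) :=
    ((measurable_id.pow_const a).ennreal_ofReal).indicator measurableSet_Iic
  have h1 := lintegral_sc (n := s + 2) (by omega) hu hs hfin hH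
  have h2 : -1 < a + ((s + 1 : ℕ) : ℝ) := by
    push_cast
    linarith
  have h3 := PMai_one (k := s + 1) h2 one_pos
  have h4 : s + 2 - 1 = s + 1 := by omega
  rw [h4, h3, Real.one_rpow] at h1
  have h5 : a + ((s + 1 : ℕ) : ℝ) + 1 = a + (s + 2) := by
    push_cast
    ring
  rw [h5] at h1
  rw [← h1, ← lintegral_indicator (PMai_set _)]
  refine lintegral_congr fun g => ?_
  by_cases hg : |dt g| ≤ 1
  · rw [indicator_of_mem (show g ∈ {g : X (s + 2) | |dt g| ≤ 1} from hg),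
      indicator_of_mem (show |dt g| ∈ Iic (1 : ℝ) from hg)]
  · rw [indicator_of_notMem (show g ∉ {g : X (s + 2) | |dt g| ≤ 1} from hg),
      indicator_of_notMem (show |dt g| ∉ Iic (1 : ℝ) from hg), mul_zero]

theorem PMai_wt_fin {s : ℕ} {a R : ℝ} (ha : -1 < a + (s + 2)) (hR : 0 < R) :
    ∫⁻ g : X (s + 2), wt (s + 2) g *
      ((Iic R).indicator (fun x => ENNReal.ofReal (x ^ a)) |dt g| * Sd g) ≠ ∞ := by
  have hH : Measurable ((Iic R).indicator fun x => ENNReal.ofReal (x ^ a)) :=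
    ((measurable_id.pow_const a).ennreal_ofReal).indicator measurableSet_Iic
  rw [dual_mean (isWt_wt (s + 2)) hH]
  have h2 : -1 < a + ((s + 2 : ℕ) : ℝ) := by
    push_cast
    linarith
  rw [PMai_one (k := s + 2) h2 hR]
  refine ENNReal.mul_ne_top (ENNReal.mul_ne_top ?_ (isWt_wt (s + 2)).fin) ENNReal.ofReal_ne_top
  exact ENNReal.add_ne_top.2 ⟨ENNReal.natCast_ne_top s, ENNReal.ofNat_ne_top⟩

theorem PMai_wt_fin' {s N : ℕ} (hN : 0 < N) {a : ℝ} (ha : -1 < a + (s + 2)) :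
    ∫⁻ g : X (s + 2), wt (s + 2) g * ({g : X (s + 2) | |dt g| ≤ 1} : Set (X (s + 2))).indicator
      (fun g => ENNReal.ofReal (|dt g| ^ a) * Sd ((N : ℝ) • g)) g ≠ ∞ := by
  have hNR : (0 : ℝ) < N := by exact_mod_cast hN
  set R : ℝ := (N : ℝ) ^ (s + 2) with hR
  have hR0 : 0 < R := by positivity
  have h1 := PMai_wt_fin (s := s) ha hR0
  set F : X (s + 2) → ℝ≥0∞ := fun g => wt (s + 2) g *
      ((Iic R).indicator (fun x => ENNReal.ofReal (x ^ a)) |dt g| * Sd g) with hF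
  have hH : Measurable ((Iic R).indicator fun x => ENNReal.ofReal (x ^ a)) :=
    ((measurable_id.pow_const a).ennreal_ofReal).indicator measurableSet_Iic
  have hFm : Measurable F :=
    (isWt_wt (s + 2)).meas.mul ((hH.comp measurable_dt.norm).mul measurable_Sd)
  have h2 := lintegral_smul_X hNR hFm
  have h3 : ∫⁻ g : X (s + 2), F ((N : ℝ) • g) ≠ ∞ := by
    rw [h2]
    exact ENNReal.mul_ne_top ENNReal.ofReal_ne_top h1
  have h4 : ∀ g : X (s + 2), wt (s + 2) g *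
      ({g : X (s + 2) | |dt g| ≤ 1} : Set (X (s + 2))).indicator
        (fun g => ENNReal.ofReal (|dt g| ^ a) * Sd ((N : ℝ) • g)) g =
      ENNReal.ofReal (R ^ a)⁻¹ * F ((N : ℝ) • g) := by
    intro g
    have e1 : |dt ((N : ℝ) • g)| = R * |dt g| := by
      rw [dt_smul, abs_mul, abs_of_pos hR0]
    rw [hF]
    simp only
    rw [(isWt_wt (s + 2)).scale _ hNR, e1]
    by_cases hg : |dt g| ≤ 1
    · rw [indicator_of_mem (show g ∈ {g : X (s + 2) | |dt g| ≤ 1} from hg),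
        indicator_of_mem (show R * |dt g| ∈ Iic R from by
          show R * |dt g| ≤ R
          nlinarith), Real.mul_rpow hR0.le (abs_nonneg _),
        ENNReal.ofReal_mul (Real.rpow_nonneg hR0.le _)]
      have e2 : ENNReal.ofReal (R ^ a)⁻¹ * ENNReal.ofReal (R ^ a) = 1 := by
        rw [← ENNReal.ofReal_mul (inv_nonneg.2 (Real.rpow_nonneg hR0.le _)),
          inv_mul_cancel₀ (Real.rpow_pos_of_pos hR0 a).ne', ENNReal.ofReal_one]
      calc wt (s + 2) g * (ENNReal.ofReal (|dt g| ^ a) * Sd ((N : ℝ) • g))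
          = (ENNReal.ofReal (R ^ a)⁻¹ * ENNReal.ofReal (R ^ a)) *
            (wt (s + 2) g * (ENNReal.ofReal (|dt g| ^ a) * Sd ((N : ℝ) • g))) := by
            rw [e2, one_mul]
        _ = _ := by ring
    · rw [indicator_of_notMem (show g ∉ {g : X (s + 2) | |dt g| ≤ 1} from hg),
        indicator_of_notMem (show R * |dt g| ∉ Iic R from fun h => hg (by
          have h5 : R * |dt g| ≤ R := h
          by_contra hc
          push Not at hc
          nlinarith)), zero_mul, mul_zero, mul_zero]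
  rw [lintegral_congr h4, lintegral_const_mul' _ _ ENNReal.ofReal_ne_top]
  exact ENNReal.mul_ne_top ENNReal.ofReal_ne_top h3

theorem PMai_wT_Sd {s N : ℕ} (hN : 0 < N) (T : Finset SL(s + 2, ℤ)) {a : ℝ}
    (ha : -1 < a + (s + 2)) :
    ∫⁻ g in {g : X (s + 2) | |dt g| ≤ 1}, wT T g *
      (ENNReal.ofReal (|dt g| ^ a) * Sd ((N : ℝ) • g)) ≠ ∞ := by
  set K : X (s + 2) → ℝ≥0∞ := ({g : X (s + 2) | |dt g| ≤ 1} : Set (X (s + 2))).indicator
      (fun g => ENNReal.ofReal (|dt g| ^ a) * Sd ((N : ℝ) • g)) with hK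
  have hm : Measurable K := by
    refine Measurable.indicator ((PMai_meas_pow a).mul ?_) (PMai_set _)
    exact measurable_Sd.comp (measurable_const_smul (N : ℝ))
  have hi : ∀ δ : SL(s + 2, ℤ), ∀ g, K (sl δ g) = K g := by
    intro δ g
    rw [hK]
    simp only [indicator, Set.mem_ofPred_eq, dt_sl]
    rw [← sl_smul, PMai_Sd]
  have h1 := PMai_T T hm hi
  have h2 : ∫⁻ g in {g : X (s + 2) | |dt g| ≤ 1}, wT T g *
      (ENNReal.ofReal (|dt g| ^ a) * Sd ((N : ℝ) • g)) = ∫⁻ g, wT T g * K g := by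
    rw [← lintegral_indicator (PMai_set _)]
    refine lintegral_congr fun g => ?_
    rw [hK]
    by_cases hg : g ∈ {g : X (s + 2) | |dt g| ≤ 1}
    · rw [indicator_of_mem hg, indicator_of_mem hg]
    · rw [indicator_of_notMem hg, indicator_of_notMem hg, mul_zero]
  rw [h2, h1]
  exact ENNReal.mul_ne_top (ENNReal.natCast_ne_top _) (PMai_wt_fin' hN ha)

theorem PMai_Efin {s N d : ℕ} (hN : 0 < N) (hd : d ∣ N) (T : Finset SL(s + 2, ℤ))
    {φ : X (s + 2) → ℂ} {C : ℝ} (hC : ∀ g, ‖φ g‖ ≤ C) {a : ℝ} (ha : -1 < a + (s + 2)) :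
    ∫⁻ g in {g : X (s + 2) | |dt g| ≤ 1}, (wT T g * ‖φ g‖ₑ ^ 2) *
      (ENNReal.ofReal (|dt g| ^ a) * Sd (dN N d g)) ≠ ∞ := by
  have h1 : ∫⁻ g in {g : X (s + 2) | |dt g| ≤ 1}, (wT T g * ‖φ g‖ₑ ^ 2) *
      (ENNReal.ofReal (|dt g| ^ a) * Sd (dN N d g)) ≤
      ∫⁻ g in {g : X (s + 2) | |dt g| ≤ 1}, ENNReal.ofReal C ^ 2 * (wT T g *
        (ENNReal.ofReal (|dt g| ^ a) * Sd ((N : ℝ) • g))) := by
    refine lintegral_mono_ae (ae_restrict_of_ae ?_)
    filter_upwards [ae_dt_ne_zero] with g hg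
    have h2 : ‖φ g‖ₑ ≤ ENNReal.ofReal C := by
      rw [← ofReal_norm]
      exact ENNReal.ofReal_le_ofReal (hC g)
    calc (wT T g * ‖φ g‖ₑ ^ 2) * (ENNReal.ofReal (|dt g| ^ a) * Sd (dN N d g))
        ≤ (wT T g * ENNReal.ofReal C ^ 2) *
          (ENNReal.ofReal (|dt g| ^ a) * Sd ((N : ℝ) • g)) := by
          gcongr
          exact Sd_dN_le hN hd hg
      _ = _ := by ring
  refine ne_top_of_le_ne_top ?_ h1
  rw [lintegral_const_mul' _ _ (ENNReal.pow_ne_top ENNReal.ofReal_ne_top)]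
  exact ENNReal.mul_ne_top (ENNReal.pow_ne_top ENNReal.ofReal_ne_top) (PMai_wT_Sd hN T ha)

/-! ### The theta sum -/

theorem PMai_gs_nonneg {n : ℕ} (v : Fin n → ℝ) : 0 ≤ gs v := (Real.exp_pos _).le

theorem PMai_theta {n : ℕ} {g : X n} (hg : dt g ≠ 0) :
    ENNReal.ofReal (∑' v : Fin n → ℤ, gs (rv (zr v) g)) =
      ENNReal.ofReal |dt g|⁻¹ * (1 + Sd g) := by
  classical
  have hgd : dt (gd g) ≠ 0 := by
    rw [dt_gd hg]
    exact inv_ne_zero hg
  rw [poisson hg, ENNReal.ofReal_mul (inv_nonneg.2 (abs_nonneg _)),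
    ENNReal.ofReal_tsum_of_nonneg (fun v => PMai_gs_nonneg _) (summable_gs hgd),
    ENNReal.tsum_eq_add_tsum_ite 0]
  have h0 : gs (rv (zr (0 : Fin n → ℤ)) (gd g)) = 1 := by
    have h1 : rv (zr (0 : Fin n → ℤ)) (gd g) = 0 := by
      funext j
      unfold rv zr
      simp
    rw [h1]
    unfold gs
    simp
  rw [h0, ENNReal.ofReal_one]
  congr 2
  unfold Sd
  have h2 := tsum_subtype {ξ : Fin n → ℤ | ξ ≠ 0}
    (fun ξ => ENNReal.ofReal (gs (rv (zr ξ) (gd g))))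
  refine Eq.trans ?_ h2.symm
  refine tsum_congr fun ξ => ?_
  by_cases h : ξ = 0
  · rw [if_pos h, indicator_of_notMem
      (show ξ ∉ {ξ : Fin n → ℤ | ξ ≠ 0} from fun h1 => h1 h)]
  · rw [if_neg h, indicator_of_mem (show ξ ∈ {ξ : Fin n → ℤ | ξ ≠ 0} from h)]

/-- The coefficients. -/
def PMai_c (s N d : ℕ) : ℝ := ((d : ℝ) * (N : ℝ) ^ (s + 1))⁻¹

theorem PMai_c_nonneg (s N d : ℕ) : 0 ≤ PMai_c s N d := by
  unfold PMai_c
  positivity

theorem PMai_thd {s N d : ℕ} (hN : 0 < N) (hd : 0 < d) {g : X (s + 2)} (hg : dt g ≠ 0) :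
    ENNReal.ofReal (∑' v : Fin (s + 2) → ℤ, gs (rv (zr v) (dN N d g))) =
      ENNReal.ofReal (PMai_c s N d * |dt g|⁻¹) * (1 + Sd (dN N d g)) := by
  have hNR : (0 : ℝ) < N := by exact_mod_cast hN
  have hdR : (0 : ℝ) < d := by exact_mod_cast hd
  have h1 : dt (dN N d g) = ((d : ℝ) * (N : ℝ) ^ (s + 1)) * dt g := dt_dN N d g
  have h2 : dt (dN N d g) ≠ 0 := by
    rw [h1]
    positivity
  rw [PMai_theta h2, h1, abs_mul, abs_of_pos (by positivity : (0 : ℝ) < (d : ℝ) * (N : ℝ) ^ (s + 1)),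
    mul_inv]
  rfl

theorem PMai_id {s N : ℕ} (hN : 0 < N) {g : X (s + 2)} (hg : dt g ≠ 0) :
    thN s N g + (∑ d ∈ N.divisors, ENNReal.ofReal (max (-(ArithmeticFunction.moebius d : ℝ)) 0) *
        (ENNReal.ofReal (PMai_c s N d * |dt g|⁻¹) * (1 + Sd (dN N d g))) +
        (if N = 1 then 1 else 0)) =
      ∑ d ∈ N.divisors, ENNReal.ofReal (max (ArithmeticFunction.moebius d : ℝ) 0) *
        (ENNReal.ofReal (PMai_c s N d * |dt g|⁻¹) * (1 + Sd (dN N d g))) := by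
  set S : ℕ → ℝ := fun d => ∑' v : Fin (s + 2) → ℤ, gs (rv (zr v) (dN N d g)) with hS
  have hS0 : ∀ d, 0 ≤ S d := fun d => tsum_nonneg fun v => PMai_gs_nonneg _
  have hSd : ∀ d ∈ N.divisors,
      ENNReal.ofReal (PMai_c s N d * |dt g|⁻¹) * (1 + Sd (dN N d g)) = ENNReal.ofReal (S d) :=
    fun d hd => (PMai_thd hN (Nat.pos_of_mem_divisors hd) hg).symm
  have hsum : Summable fun v : MN s N => gs (rv (zr v.1) g) :=
    (summable_gs hg).subtype _
  have hth : thN s N g = ENNReal.ofReal (∑' v : MN s N, gs (rv (zr v.1) g)) :=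
    (ENNReal.ofReal_tsum_of_nonneg (fun v => PMai_gs_nonneg _) hsum).symm
  have hP0 : 0 ≤ ∑' v : MN s N, gs (rv (zr v.1) g) := tsum_nonneg fun v => PMai_gs_nonneg _
  have h1 := sum_MN hN hg
  have e1 : ∀ c : ℕ → ℝ, (∀ d, 0 ≤ c d) → ∑ d ∈ N.divisors, ENNReal.ofReal (c d) *
      (ENNReal.ofReal (PMai_c s N d * |dt g|⁻¹) * (1 + Sd (dN N d g))) =
      ENNReal.ofReal (∑ d ∈ N.divisors, c d * S d) := by
    intro c hc
    rw [ENNReal.ofReal_sum_of_nonneg fun d _ => mul_nonneg (hc d) (hS0 d)]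
    refine Finset.sum_congr rfl fun d hd => ?_
    rw [hSd d hd, ENNReal.ofReal_mul (hc d)]
  have e2 : (if N = 1 then (1 : ℝ≥0∞) else 0) = ENNReal.ofReal (if N = 1 then 1 else 0) := by
    split_ifs
    · exact ENNReal.ofReal_one.symm
    · exact ENNReal.ofReal_zero.symm
  have hc1 : ∀ d : ℕ, 0 ≤ max (-(ArithmeticFunction.moebius d : ℝ)) 0 := fun d => le_max_right _ _
  have hc2 : ∀ d : ℕ, 0 ≤ max (ArithmeticFunction.moebius d : ℝ) 0 := fun d => le_max_right _ _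
  have hite : (0 : ℝ) ≤ if N = 1 then 1 else 0 := by split_ifs <;> norm_num
  have hs1 : 0 ≤ ∑ d ∈ N.divisors, max (-(ArithmeticFunction.moebius d : ℝ)) 0 * S d :=
    Finset.sum_nonneg fun d _ => mul_nonneg (hc1 d) (hS0 d)
  rw [e1 _ hc1, e1 _ hc2, e2, hth, ← ENNReal.ofReal_add hs1 hite,
    ← ENNReal.ofReal_add hP0 (add_nonneg hs1 hite), h1]
  congr 1
  have e3 : ∑ d ∈ N.divisors, max (ArithmeticFunction.moebius d : ℝ) 0 * S d =
      ∑ d ∈ N.divisors, (ArithmeticFunction.moebius d : ℝ) * S d +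
        ∑ d ∈ N.divisors, max (-(ArithmeticFunction.moebius d : ℝ)) 0 * S d := by
    rw [← Finset.sum_add_distrib]
    refine Finset.sum_congr rfl fun d _ => ?_
    have h4 : max (ArithmeticFunction.moebius d : ℝ) 0 =
        (ArithmeticFunction.moebius d : ℝ) + max (-(ArithmeticFunction.moebius d : ℝ)) 0 := by
      rcases le_total (ArithmeticFunction.moebius d : ℝ) 0 with h | h
      · rw [max_eq_right h, max_eq_left (by linarith)]
        ring
      · rw [max_eq_left h, max_eq_right (by linarith)]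
        ring
    rw [h4]
    ring
  rw [e3]
  ring

/-! ### The integral identity -/

section Int

variable {s N : ℕ} (u : X (s + 2) → ℝ≥0∞)

/-- The error terms. -/
def PMai_E (N d : ℕ) (σ : ℝ) : ℝ≥0∞ :=
  ∫⁻ g in {g : X (s + 2) | |dt g| ≤ 1}, u g *
    (ENNReal.ofReal (|dt g| ^ (σ - (s + 2) - 1)) * Sd (dN N d g))

/-- The main terms. -/
def PMai_I (a : ℝ) : ℝ≥0∞ :=
  ∫⁻ g in {g : X (s + 2) | |dt g| ≤ 1}, u g * ENNReal.ofReal (|dt g| ^ a)

theorem PMai_B (hu : Measurable u) (N d : ℕ) (σ : ℝ) :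
    ∫⁻ g in {g : X (s + 2) | |dt g| ≤ 1}, u g * (ENNReal.ofReal (|dt g| ^ (σ - (s + 2))) *
      (ENNReal.ofReal (PMai_c s N d * |dt g|⁻¹) * (1 + Sd (dN N d g)))) =
      ENNReal.ofReal (PMai_c s N d) * (PMai_I u (σ - (s + 2) - 1) + PMai_E u N d σ) := by
  unfold PMai_I PMai_E
  have hm : Measurable fun g : X (s + 2) => u g *
      ENNReal.ofReal (|dt g| ^ (σ - (s + 2) - 1)) := hu.mul (PMai_meas_pow _)
  rw [← lintegral_add_left hm, ← lintegral_const_mul' _ _ ENNReal.ofReal_ne_top]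
  refine lintegral_congr_ae (ae_restrict_of_ae ?_)
  filter_upwards [ae_dt_ne_zero] with g hg
  have hpos : 0 < |dt g| := abs_pos.2 hg
  have h1 : ENNReal.ofReal (|dt g| ^ (σ - (s + 2))) * ENNReal.ofReal (PMai_c s N d * |dt g|⁻¹) =
      ENNReal.ofReal (PMai_c s N d) * ENNReal.ofReal (|dt g| ^ (σ - (s + 2) - 1)) := by
    rw [← ENNReal.ofReal_mul (Real.rpow_nonneg hpos.le _),
      ← ENNReal.ofReal_mul (PMai_c_nonneg s N d), Real.rpow_sub_one hpos.ne']
    congr 1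
    ring
  rw [← mul_assoc (ENNReal.ofReal (|dt g| ^ (σ - (s + 2)))), h1]
  ring

theorem PMai_A (hN : 0 < N) (hu : Measurable u) (σ : ℝ) :
    (∫⁻ g in {g : X (s + 2) | |dt g| ≤ 1}, u g *
        (ENNReal.ofReal (|dt g| ^ (σ - (s + 2))) * thN s N g)) +
      (∑ d ∈ N.divisors, ENNReal.ofReal (max (-(ArithmeticFunction.moebius d : ℝ)) 0) *
        (ENNReal.ofReal (PMai_c s N d) * (PMai_I u (σ - (s + 2) - 1) + PMai_E u N d σ)) +
        (if N = 1 then 1 else 0) * PMai_I u (σ - (s + 2))) =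
      ∑ d ∈ N.divisors, ENNReal.ofReal (max (ArithmeticFunction.moebius d : ℝ) 0) *
        (ENNReal.ofReal (PMai_c s N d) * (PMai_I u (σ - (s + 2) - 1) + PMai_E u N d σ)) := by
  simp only [← PMai_B u hu]
  unfold PMai_I
  have hc : (if N = 1 then (1 : ℝ≥0∞) else 0) ≠ ∞ := by
    split_ifs
    · exact ENNReal.one_ne_top
    · exact ENNReal.zero_ne_top
  have hm1 : ∀ d : ℕ, Measurable fun g : X (s + 2) => u g *
      (ENNReal.ofReal (|dt g| ^ (σ - (s + 2))) *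
      (ENNReal.ofReal (PMai_c s N d * |dt g|⁻¹) * (1 + Sd (dN N d g)))) := by
    intro d
    have h1 : Measurable fun g : X (s + 2) => ENNReal.ofReal (PMai_c s N d * |dt g|⁻¹) := by
      have h2 : Measurable fun g : X (s + 2) => |dt g| := measurable_dt.norm
      exact (h2.inv.const_mul _).ennreal_ofReal
    exact hu.mul ((PMai_meas_pow _).mul (h1.mul (measurable_const.add
      (measurable_Sd.comp (PMai_meas_dN N d)))))
  have hm2 : ∀ (c : ℕ → ℝ≥0∞) (d : ℕ), Measurable fun g : X (s + 2) => c d * (u g *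
      (ENNReal.ofReal (|dt g| ^ (σ - (s + 2))) *
      (ENNReal.ofReal (PMai_c s N d * |dt g|⁻¹) * (1 + Sd (dN N d g))))) := fun c d =>
    (hm1 d).const_mul _
  have hm3 : Measurable fun g : X (s + 2) => u g *
      (ENNReal.ofReal (|dt g| ^ (σ - (s + 2))) * thN s N g) :=
    hu.mul ((PMai_meas_pow _).mul (PMai_meas_thN s N))
  simp only [← lintegral_const_mul' _ _ ENNReal.ofReal_ne_top]
  rw [← lintegral_const_mul' _ _ hc,
    ← lintegral_finsetSum _ fun d _ => hm2 (fun d => ENNReal.ofReal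
      (max (-(ArithmeticFunction.moebius d : ℝ)) 0)) d,
    ← lintegral_finsetSum _ fun d _ => hm2 (fun d => ENNReal.ofReal
      (max (ArithmeticFunction.moebius d : ℝ) 0)) d,
    ← lintegral_add_left (Finset.measurable_sum _ fun d _ => hm2 (fun d => ENNReal.ofReal
      (max (-(ArithmeticFunction.moebius d : ℝ)) 0)) d),
    ← lintegral_add_left hm3]
  refine lintegral_congr_ae (ae_restrict_of_ae ?_)
  filter_upwards [ae_dt_ne_zero] with g hg
  have h1 := PMai_id hN hg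
  have h2 : ∀ c : ℕ → ℝ≥0∞, ∑ d ∈ N.divisors, c d * (u g *
      (ENNReal.ofReal (|dt g| ^ (σ - (s + 2))) *
      (ENNReal.ofReal (PMai_c s N d * |dt g|⁻¹) * (1 + Sd (dN N d g))))) =
      u g * (ENNReal.ofReal (|dt g| ^ (σ - (s + 2))) * ∑ d ∈ N.divisors, c d *
      (ENNReal.ofReal (PMai_c s N d * |dt g|⁻¹) * (1 + Sd (dN N d g)))) := by
    intro c
    rw [Finset.mul_sum, Finset.mul_sum]
    exact Finset.sum_congr rfl fun d _ => by ring
  rw [h2, h2, ← h1]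
  ring

end Int

theorem PMai_ana {s N d : ℕ} {u : X (s + 2) → ℝ≥0∞} (hu : Measurable u)
    (hfin : ∀ σ : ℝ, 0 < σ → PMai_E u N d σ ≠ ∞) {σ : ℝ} (hσ : 0 < σ) :
    AnalyticAt ℝ (fun σ : ℝ => (PMai_E u N d σ).toReal) σ := by
  set v : X (s + 2) → ℝ≥0∞ := ({g : X (s + 2) | |dt g| ≤ 1} : Set (X (s + 2))).indicator
    (fun g => u g * (ENNReal.ofReal (|dt g| ^ (-((s : ℝ) + 2) - 1)) * Sd (dN N d g))) with hv
  have hvm : Measurable v := by
    refine Measurable.indicator (hu.mul ((PMai_meas_pow _).mul ?_)) (PMai_set _)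
    exact measurable_Sd.comp (PMai_meas_dN N d)
  have h1 : ∀ σ : ℝ, ∫⁻ g, v g * ENNReal.ofReal (|dt g| ^ σ) = PMai_E u N d σ := by
    intro σ
    unfold PMai_E
    rw [← lintegral_indicator (PMai_set _)]
    refine lintegral_congr_ae ?_
    filter_upwards [ae_dt_ne_zero] with g hg
    have hpos : 0 < |dt g| := abs_pos.2 hg
    rw [hv]
    by_cases hg1 : g ∈ {g : X (s + 2) | |dt g| ≤ 1}
    · rw [indicator_of_mem hg1, indicator_of_mem hg1]
      have h2 : ENNReal.ofReal (|dt g| ^ (σ - (s + 2) - 1)) =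
          ENNReal.ofReal (|dt g| ^ (-((s : ℝ) + 2) - 1)) * ENNReal.ofReal (|dt g| ^ σ) := by
        rw [← ENNReal.ofReal_mul (Real.rpow_nonneg hpos.le _), ← Real.rpow_add hpos]
        congr 2
        ring
      rw [h2]
      ring
    · rw [indicator_of_notMem hg1, indicator_of_notMem hg1, zero_mul]
  have h2 := analytic_lap hvm (a := 0) (b := σ + 1) (fun τ hτ => by
    rw [h1 τ]
    exact hfin τ hτ.1) σ ⟨hσ, by linarith⟩
  simp only [h1] at h2
  exact h2

theorem small_det {s N : ℕ} (hN : 0 < N) (T : Finset SL(s + 2, ℤ)) {φ : X (s + 2) → ℂ}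
    (hφ : Measurable φ) {C : ℝ} (hC : ∀ g, ‖φ g‖ ≤ C)
    (hs : ∀ t : ℝ, 0 < t → ∀ g, φ (t • g) = φ g) :
    ∃ G : ℝ → ℝ, (∀ σ, 0 < σ → AnalyticAt ℝ G σ) ∧ ∀ σ : ℝ, 1 < σ →
      ∫⁻ g in {g : X (s + 2) | |dt g| ≤ 1}, wT T g * (‖φ g‖ₑ ^ 2 *
        (ENNReal.ofReal (|dt g| ^ (σ - (s + 2))) * thN s N g)) ≠ ∞ ∧
      G σ = (σ - 1) * (∫⁻ g in {g : X (s + 2) | |dt g| ≤ 1}, wT T g * (‖φ g‖ₑ ^ 2 *
        (ENNReal.ofReal (|dt g| ^ (σ - (s + 2))) * thN s N g))).toReal := by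
  set u : X (s + 2) → ℝ≥0∞ := fun g => wT T g * ‖φ g‖ₑ ^ 2 with hu
  have hum : Measurable u := (PMai_meas_wT T).mul (hφ.enorm.pow_const 2)
  have hus : ∀ t : ℝ, 0 < t → ∀ g, u (t • g) = u g := by
    intro t ht g
    rw [hu]
    simp only [hs t ht g]
    congr 1
    unfold wT
    refine Finset.sum_congr rfl fun δ _ => ?_
    rw [sl_smul, (isWt_wt (s + 2)).scale t ht]
  have hufin : ∫⁻ g in {g : X (s + 2) | |dt g| ≤ 1}, u g ≠ ∞ := by
    have h1 : ∫⁻ g in {g : X (s + 2) | |dt g| ≤ 1}, u g ≤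
        ∫⁻ g in {g : X (s + 2) | |dt g| ≤ 1}, ENNReal.ofReal C ^ 2 * wT T g := by
      refine lintegral_mono fun g => ?_
      have h2 : ‖φ g‖ₑ ≤ ENNReal.ofReal C := by
        rw [← ofReal_norm]
        exact ENNReal.ofReal_le_ofReal (hC g)
      rw [mul_comm]
      show wT T g * ‖φ g‖ₑ ^ 2 ≤ wT T g * ENNReal.ofReal C ^ 2
      gcongr
    refine ne_top_of_le_ne_top ?_ h1
    rw [lintegral_const_mul' _ _ (ENNReal.pow_ne_top ENNReal.ofReal_ne_top)]
    exact ENNReal.mul_ne_top (ENNReal.pow_ne_top ENNReal.ofReal_ne_top) (PMai_wT_fin T)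
  have hE : ∀ d ∈ N.divisors, ∀ σ : ℝ, 0 < σ → PMai_E u N d σ ≠ ∞ := by
    intro d hd σ hσ
    exact PMai_Efin hN (Nat.dvd_of_mem_divisors hd) T hC (by linarith)
  set m : ℝ≥0∞ := ((s + 2 : ℕ) : ℝ≥0∞) * ∫⁻ g in {g : X (s + 2) | |dt g| ≤ 1}, u g with hm
  have hmt : m ≠ ∞ := ENNReal.mul_ne_top (ENNReal.natCast_ne_top _) hufin
  have hI : ∀ a : ℝ, 0 < a + (s + 2) → PMai_I u a = m * ENNReal.ofReal (1 / (a + (s + 2))) :=
    fun a ha => PMai_scal hum hus hufin ha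
  have hA2 : ∀ σ : ℝ, ∫⁻ g in {g : X (s + 2) | |dt g| ≤ 1}, wT T g * (‖φ g‖ₑ ^ 2 *
        (ENNReal.ofReal (|dt g| ^ (σ - (s + 2))) * thN s N g)) =
      ∫⁻ g in {g : X (s + 2) | |dt g| ≤ 1}, u g *
        (ENNReal.ofReal (|dt g| ^ (σ - (s + 2))) * thN s N g) := fun σ =>
    lintegral_congr fun g => (mul_assoc _ _ _).symm
  refine ⟨fun σ => (∑ d ∈ N.divisors, (ArithmeticFunction.moebius d : ℝ) * PMai_c s N d) *
      m.toReal + (σ - 1) * (∑ d ∈ N.divisors, (ArithmeticFunction.moebius d : ℝ) * PMai_c s N d *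
        (PMai_E u N d σ).toReal) - (if N = 1 then 1 else 0) * ((σ - 1) * (m.toReal * σ⁻¹)),
    ?_, ?_⟩
  · intro σ hσ
    have h1 : AnalyticAt ℝ (fun σ : ℝ => ∑ d ∈ N.divisors,
        (ArithmeticFunction.moebius d : ℝ) * PMai_c s N d * (PMai_E u N d σ).toReal) σ :=
      Finset.analyticAt_fun_sum _ fun d hd =>
        analyticAt_const.mul (PMai_ana hum (hE d hd) hσ)
    have h2 : AnalyticAt ℝ (fun σ : ℝ => σ⁻¹) σ := analyticAt_id.inv hσ.ne'
    have h3 : AnalyticAt ℝ (fun σ : ℝ => σ - 1) σ := analyticAt_id.sub analyticAt_const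
    exact (analyticAt_const.add (h3.mul h1)).sub
      (analyticAt_const.mul (h3.mul (analyticAt_const.mul h2)))
  · intro σ hσ
    rw [hA2 σ]
    have hid := PMai_A (N := N) u hN hum σ
    have e1 : PMai_I u (σ - (s + 2) - 1) = m * ENNReal.ofReal (1 / (σ - 1)) := by
      rw [hI _ (by linarith)]
      congr 3
      ring
    have e0 : PMai_I u (σ - (s + 2)) = m * ENNReal.ofReal (1 / σ) := by
      rw [hI _ (by linarith)]
      congr 3
      ring
    rw [e1, e0] at hid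
    have hI1 : m * ENNReal.ofReal (1 / (σ - 1)) ≠ ∞ :=
      ENNReal.mul_ne_top hmt ENNReal.ofReal_ne_top
    have hI0 : m * ENNReal.ofReal (1 / σ) ≠ ∞ := ENNReal.mul_ne_top hmt ENNReal.ofReal_ne_top
    have hB : ∀ (c : ℕ → ℝ), ∀ d ∈ N.divisors, ENNReal.ofReal (c d) *
        (ENNReal.ofReal (PMai_c s N d) * (m * ENNReal.ofReal (1 / (σ - 1)) +
          PMai_E u N d σ)) ≠ ∞ := fun c d hd =>
      ENNReal.mul_ne_top ENNReal.ofReal_ne_top (ENNReal.mul_ne_top ENNReal.ofReal_ne_top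
        (ENNReal.add_ne_top.2 ⟨hI1, hE d hd σ (by linarith)⟩))
    have hc : (if N = 1 then (1 : ℝ≥0∞) else 0) ≠ ∞ := by
      split_ifs
      · exact ENNReal.one_ne_top
      · exact ENNReal.zero_ne_top
    have hS1 := ENNReal.sum_ne_top.2 (hB fun d => max (-(ArithmeticFunction.moebius d : ℝ)) 0)
    have hS2 := ENNReal.sum_ne_top.2 (hB fun d => max (ArithmeticFunction.moebius d : ℝ) 0)
    have hA : ∫⁻ g in {g : X (s + 2) | |dt g| ≤ 1}, u g *
        (ENNReal.ofReal (|dt g| ^ (σ - (s + 2))) * thN s N g) ≠ ∞ := by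
      refine ne_top_of_le_ne_top hS2 ?_
      rw [← hid]
      exact le_self_add
    refine ⟨hA, ?_⟩
    have hr := congrArg ENNReal.toReal hid
    have hx : (if N = 1 then (1 : ℝ≥0∞) else 0) * (m * ENNReal.ofReal (1 / σ)) ≠ ∞ :=
      ENNReal.mul_ne_top hc hI0
    rw [ENNReal.toReal_add hA (ENNReal.add_ne_top.2 ⟨hS1, hx⟩), ENNReal.toReal_add hS1 hx,
      ENNReal.toReal_sum (hB fun d => max (-(ArithmeticFunction.moebius d : ℝ)) 0),
      ENNReal.toReal_sum (hB fun d => max (ArithmeticFunction.moebius d : ℝ) 0)] at hr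
    have hterm : ∀ (c : ℕ → ℝ), (∀ d, 0 ≤ c d) → ∑ d ∈ N.divisors, (ENNReal.ofReal (c d) *
        (ENNReal.ofReal (PMai_c s N d) * (m * ENNReal.ofReal (1 / (σ - 1)) +
          PMai_E u N d σ))).toReal = ∑ d ∈ N.divisors, c d * (PMai_c s N d *
        (m.toReal * (1 / (σ - 1)) + (PMai_E u N d σ).toReal)) := by
      intro c hc0
      refine Finset.sum_congr rfl fun d hd => ?_
      rw [ENNReal.toReal_mul, ENNReal.toReal_mul, ENNReal.toReal_add hI1
        (hE d hd σ (by linarith)), ENNReal.toReal_mul, ENNReal.toReal_ofReal (hc0 d),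
        ENNReal.toReal_ofReal (PMai_c_nonneg s N d),
        ENNReal.toReal_ofReal (by
          have : 0 < σ - 1 := by linarith
          positivity)]
    rw [hterm _ fun d => le_max_right _ _, hterm _ fun d => le_max_right _ _] at hr
    have hite : (((if N = 1 then (1 : ℝ≥0∞) else 0) * (m * ENNReal.ofReal (1 / σ)))).toReal =
        (if N = 1 then 1 else 0) * (m.toReal * (1 / σ)) := by
      rw [ENNReal.toReal_mul, ENNReal.toReal_mul, ENNReal.toReal_ofReal (by positivity)]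
      congr 1
      split_ifs
      · exact ENNReal.toReal_one
      · exact ENNReal.toReal_zero
    rw [hite] at hr
    have hmax : ∀ d : ℕ, max (ArithmeticFunction.moebius d : ℝ) 0 =
        (ArithmeticFunction.moebius d : ℝ) + max (-(ArithmeticFunction.moebius d : ℝ)) 0 := by
      intro d
      rcases le_total (ArithmeticFunction.moebius d : ℝ) 0 with h | h
      · rw [max_eq_right h, max_eq_left (by linarith)]
        ring
      · rw [max_eq_left h, max_eq_right (by linarith)]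
        ring
    have hsplit : ∑ d ∈ N.divisors, max (ArithmeticFunction.moebius d : ℝ) 0 * (PMai_c s N d *
        (m.toReal * (1 / (σ - 1)) + (PMai_E u N d σ).toReal)) =
        (∑ d ∈ N.divisors, (ArithmeticFunction.moebius d : ℝ) * PMai_c s N d) *
          (m.toReal * (1 / (σ - 1))) + (∑ d ∈ N.divisors,
            (ArithmeticFunction.moebius d : ℝ) * PMai_c s N d * (PMai_E u N d σ).toReal) +
        ∑ d ∈ N.divisors, max (-(ArithmeticFunction.moebius d : ℝ)) 0 * (PMai_c s N d *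
        (m.toReal * (1 / (σ - 1)) + (PMai_E u N d σ).toReal)) := by
      rw [Finset.sum_mul, ← Finset.sum_add_distrib, ← Finset.sum_add_distrib]
      refine Finset.sum_congr rfl fun d _ => ?_
      rw [hmax d]
      ring
    rw [hsplit] at hr
    have hA' : (∫⁻ g in {g : X (s + 2) | |dt g| ≤ 1}, u g *
        (ENNReal.ofReal (|dt g| ^ (σ - (s + 2))) * thN s N g)).toReal =
        (∑ d ∈ N.divisors, (ArithmeticFunction.moebius d : ℝ) * PMai_c s N d) *
          (m.toReal * (1 / (σ - 1))) + (∑ d ∈ N.divisors,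
            (ArithmeticFunction.moebius d : ℝ) * PMai_c s N d * (PMai_E u N d σ).toReal) -
        (if N = 1 then 1 else 0) * (m.toReal * (1 / σ)) := by
      linarith
    rw [hA']
    have hσ1 : σ - 1 ≠ 0 := by
      have : 0 < σ - 1 := by linarith
      exact this.ne'
    field_simp

end Pool.Agent.GL74
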