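import Pool.Agent.W_7742x_h74.LSca
import Pool.Agent.W_7742x_h74.HPie
import Pool.Agent.W_7742x_h74.FUnf

/-! # The integrals `JJ` and the local step

`JJ φ σ m = ∫ ‖Wh φ m t‖² gs (t 0) |dt t|^{σ - n} dt`, `n = r + 1`, over upper triangular `t`.

`JJ_pow`: `p ∤ m i` for all `i`, `a : Fin r → ℕ`, `l = lam a` (antitone, last entry `0`,
`l_i - l_{i+1} = a_i`).  Substitute `t ↦ D t` (`fl_scale`) with `D_j = p^{l_j - l_0}`
(so `D_0 = 1`, the first row is unchanged):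
`JJ φ σ (m p^a) = ∏ D_j^{2n-1-2j} ∫ ‖Wh φ (m p^a) (D t)‖² gs (t 0) |∏ D_j|^{σ-n} |dt t|^{σ-n}`.
By scale invariance (`Wh_smul`, factor `p^{l_0}`) `Wh φ (m p^a) (D t) = Wh φ (mnu p m l)
(tnu p t l)` (the parameters agree for `i < r`, the others are irrelevant: `Wh_congr`), whose
square is `‖sch ev l‖² p^{-∑ l_j (r-2j)} ‖Wh φ m t‖²` (`norm_whit`).  The exponent of `p` is
`∑ (l_j - l_0)(2n-1-2j) + (σ-n) ∑ (l_j - l_0) - ∑ l_j (r-2j) = σ ∑ (l_j - l_0) = -σ wexp a`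
(`∑_j (r - 2j) = 0`, `2n-1-2j-n-(r-2j) = 0`, `∑_j (l_0 - l_j) = wexp a`). -/

set_option autoImplicit false

noncomputable section

namespace Pool.Agent.GL74

open MeasureTheory
open scoped ENNReal

/-- The Whittaker integrals. -/
def JJ {r : ℕ} (φ : X (r + 1) → ℂ) (σ : ℝ) (m : Fin r → ℤ) : ℝ≥0∞ :=
  ∫⁻ t, ‖Wh (r + 1) φ (ext m) t‖ₑ ^ 2 *
    (ENNReal.ofReal (gs (t 0)) * ENNReal.ofReal (|dt t| ^ (σ - (r + 1)))) ∂(fl (r + 1))

/-- Only the parameters `m 0, ..., m (s - 2)` matter. -/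
theorem Wh_congr {s : ℕ} (φ : X s → ℂ) {m m' : ℕ → ℤ} (h : ∀ i, i + 1 < s → m i = m' i)
    (t : X s) : Wh s φ m t = Wh s φ m' t := by
  induction s generalizing m m' with
  | zero => rfl
  | succ s ih =>
    show Wh s (coef (E s (m 0)) φ (t 0)) (fun i => m (i + 1)) (lr t) =
      Wh s (coef (E s (m' 0)) φ (t 0)) (fun i => m' (i + 1)) (lr t)
    have h1 : E s (m 0) = E s (m' 0) := by
      funext i
      rw [h 0 (by have := i.isLt; omega)]
    rw [h1]
    exact ih _ (fun i hi => h (i + 1) (by omega)) _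

theorem LLoc_Wh_zero {s : ℕ} (m : ℕ → ℤ) (t : X s) : Wh s (fun _ => (0 : ℂ)) m t = 0 := by
  have h := Wh_const_mul (0 : ℂ) (fun _ : X s => (0 : ℂ)) m t
  simpa using h

theorem LLoc_zero {r : ℕ} {φ : X (r + 1) → ℂ} (hc : Cusp r φ) {m : ℕ → ℤ} {i : ℕ} (hi : i < r)
    (hm : m i = 0) {t : X (r + 1)} (ht : ∀ j, t j j ≠ 0) : Wh (r + 1) φ m t = 0 := by
  induction r generalizing m i with
  | zero => omega
  | succ r ih =>
    show Wh (r + 1) (coef (E (r + 1) (m 0)) φ (t 0)) (fun i => m (i + 1)) (lr t) = 0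
    rcases Nat.eq_zero_or_pos i with h0 | h0
    · subst h0
      have h1 : E (r + 1) (m 0) = 0 := by
        funext k
        show (if (k : ℕ) = 0 then m 0 else 0) = 0
        rw [hm, ite_self]
      have h2 : coef (E (r + 1) (m 0)) φ (t 0) = fun _ => (0 : ℂ) := by
        funext h
        rw [h1]
        exact hc.1 _ _ (ht 0)
      rw [h2]
      exact LLoc_Wh_zero _ _
    · refine ih (hc.2 (m 0) _ (ht 0)) (i := i - 1) (by omega) ?_ ?_
      · show m (i - 1 + 1) = 0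
        rw [Nat.sub_add_cancel h0]
        exact hm
      · intro j
        exact ht j.succ

theorem LLoc_lam_succ {r : ℕ} (a : Fin r → ℕ) (i : Fin r) :
    lam a i.castSucc = lam a i.succ + a i := by
  unfold lam
  have h1 : Finset.univ.filter (fun k : Fin r => ((i.castSucc : Fin (r + 1)) : ℕ) ≤ (k : ℕ)) =
      insert i (Finset.univ.filter (fun k : Fin r => ((i.succ : Fin (r + 1)) : ℕ) ≤ (k : ℕ))) := by
    ext k
    simp only [Finset.mem_filter, Finset.mem_univ, true_and, Finset.mem_insert, Fin.ext_iff,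
      Fin.val_castSucc, Fin.val_succ]
    omega
  rw [h1, Finset.sum_insert, add_comm]
  simp only [Finset.mem_filter, Finset.mem_univ, true_and, Fin.val_succ]
  omega

theorem LLoc_anti {r : ℕ} (a : Fin r → ℕ) : Antitone (lam a) := by
  intro i j hij
  unfold lam
  refine Finset.sum_le_sum_of_subset fun m hm => ?_
  simp only [Finset.mem_filter, Finset.mem_univ, true_and] at hm ⊢
  have := Fin.le_def.1 hij
  omega

/-- `∑_j (l_0 - l_j) = wexp a`. -/
theorem LLoc_wexp {r : ℕ} (a : Fin r → ℕ) :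
    ∑ j : Fin (r + 1), (lam a 0 - lam a j) = wexp a := by
  rw [← SLoc_M_sum, ← Equiv.sum_comp Fin.revPerm]
  refine Finset.sum_congr rfl fun j _ => ?_
  rw [Fin.revPerm_apply]
  exact SLoc_M_lam a j

theorem LLoc_sum_r (r : ℕ) : ∑ j : Fin (r + 1), ((r : ℤ) - 2 * (j : ℕ)) = 0 := by
  rw [Finset.sum_sub_distrib, ← Finset.mul_sum, Finset.sum_const, Finset.card_univ,
    Fintype.card_fin, nsmul_eq_mul]
  have h1 : ∑ i : Fin (r + 1), ((i : ℕ) : ℤ) = ((∑ i ∈ Finset.range (r + 1), i : ℕ) : ℤ) := by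
    rw [Fin.sum_univ_eq_sum_range (fun i => ((i : ℕ) : ℤ)) (r + 1)]
    push_cast
    rfl
  have h2 := Finset.sum_range_id_mul_two (r + 1)
  rw [h1, mul_comm (2 : ℤ)]
  have h3 : ((∑ i ∈ Finset.range (r + 1), i : ℕ) : ℤ) * 2 = ((r : ℤ) + 1) * r := by
    rw [Nat.add_sub_cancel] at h2
    exact_mod_cast h2
  rw [h3]
  push_cast
  ring

/-- The exponents of `p`. -/
theorem LLoc_exp {r : ℕ} {p : ℕ} (hp : p.Prime) (a : Fin r → ℕ) (σ : ℝ) :
    (∏ j : Fin (r + 1), |((p : ℝ) ^ (lam a 0 - lam a j))⁻¹| ^ (2 * (r + 1) - 1 - 2 * (j : ℕ))) *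
      ((p : ℝ) ^ (-∑ j : Fin (r + 1), (lam a j : ℤ) * ((r : ℤ) - 2 * (j : ℕ))) *
      |∏ j : Fin (r + 1), ((p : ℝ) ^ (lam a 0 - lam a j))⁻¹| ^ (σ - (r + 1))) =
      ((p : ℝ) ^ (-σ)) ^ wexp a := by
  have hp0 : (0 : ℝ) < p := by exact_mod_cast hp.pos
  set d : Fin (r + 1) → ℕ := fun j => lam a 0 - lam a j with hd
  have e1 : ∏ j : Fin (r + 1), |((p : ℝ) ^ d j)⁻¹| ^ (2 * (r + 1) - 1 - 2 * (j : ℕ)) =
      (p : ℝ) ^ (-∑ j : Fin (r + 1), (d j : ℝ) * (2 * r + 1 - 2 * (j : ℕ))) := by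
    rw [← Finset.sum_neg_distrib, Real.rpow_sum_of_pos hp0]
    refine Finset.prod_congr rfl fun j _ => ?_
    rw [abs_of_pos (by positivity), ← Real.rpow_natCast (p : ℝ) (d j), ← Real.rpow_neg hp0.le,
      ← Real.rpow_natCast, ← Real.rpow_mul hp0.le]
    congr 1
    have hj := j.isLt
    have h1 : ((2 * (r + 1) - 1 - 2 * (j : ℕ) : ℕ) : ℝ) = 2 * r + 1 - 2 * (j : ℕ) := by
      rw [Nat.cast_sub (by omega), Nat.cast_sub (by omega)]
      push_cast
      ring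
    rw [h1]
    ring
  have e2 : |∏ j : Fin (r + 1), ((p : ℝ) ^ d j)⁻¹| ^ (σ - (r + 1)) =
      (p : ℝ) ^ (-((σ - (r + 1)) * ∑ j : Fin (r + 1), (d j : ℝ))) := by
    have h1 : ∏ j : Fin (r + 1), ((p : ℝ) ^ d j)⁻¹ = (p : ℝ) ^ (-∑ j : Fin (r + 1), (d j : ℝ)) := by
      rw [← Finset.sum_neg_distrib, Real.rpow_sum_of_pos hp0]
      refine Finset.prod_congr rfl fun j _ => ?_
      rw [← Real.rpow_natCast (p : ℝ) (d j), ← Real.rpow_neg hp0.le]
    rw [h1, abs_of_pos (Real.rpow_pos_of_pos hp0 _), ← Real.rpow_mul hp0.le]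
    congr 1
    ring
  have e3 : (p : ℝ) ^ (-∑ j : Fin (r + 1), (lam a j : ℤ) * ((r : ℤ) - 2 * (j : ℕ))) =
      (p : ℝ) ^ (∑ j : Fin (r + 1), (d j : ℝ) * (r - 2 * (j : ℕ))) := by
    rw [← Real.rpow_intCast]
    congr 1
    have h1 : -∑ j : Fin (r + 1), (lam a j : ℤ) * ((r : ℤ) - 2 * (j : ℕ)) =
        ∑ j : Fin (r + 1), (d j : ℤ) * ((r : ℤ) - 2 * (j : ℕ)) := by
      have h2 := LLoc_sum_r r
      have h3 : ∀ j : Fin (r + 1), (d j : ℤ) = (lam a 0 : ℤ) - lam a j := by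
        intro j
        have h4 : lam a j ≤ lam a 0 := LLoc_anti a (Fin.zero_le j)
        rw [hd]
        push_cast [Nat.cast_sub h4]
        ring
      calc -∑ j : Fin (r + 1), (lam a j : ℤ) * ((r : ℤ) - 2 * (j : ℕ)) =
          (lam a 0 : ℤ) * ∑ j : Fin (r + 1), ((r : ℤ) - 2 * (j : ℕ)) -
            ∑ j : Fin (r + 1), (lam a j : ℤ) * ((r : ℤ) - 2 * (j : ℕ)) := by rw [h2]; ring
        _ = _ := by
          rw [Finset.mul_sum, ← Finset.sum_sub_distrib]
          refine Finset.sum_congr rfl fun j _ => ?_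
          rw [h3]
          ring
    rw [h1]
    push_cast
    rfl
  have e4 : ((p : ℝ) ^ (-σ)) ^ wexp a = (p : ℝ) ^ (-σ * ∑ j : Fin (r + 1), (d j : ℝ)) := by
    rw [← Real.rpow_natCast, ← Real.rpow_mul hp0.le, ← LLoc_wexp]
    push_cast
    rfl
  rw [e1, e2, e3, e4, ← Real.rpow_add hp0, ← Real.rpow_add hp0]
  congr 1
  rw [Finset.mul_sum, Finset.mul_sum, ← Finset.sum_neg_distrib, ← Finset.sum_neg_distrib,
    ← Finset.sum_add_distrib, ← Finset.sum_add_distrib]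
  refine Finset.sum_congr rfl fun j _ => ?_
  ring

theorem LLoc_meas {r : ℕ} {φ : X (r + 1) → ℂ} (hφ : Measurable φ) (σ : ℝ) (m : ℕ → ℤ) :
    Measurable fun t : X (r + 1) => ‖Wh (r + 1) φ m t‖ₑ ^ 2 *
      (ENNReal.ofReal (gs (t 0)) * ENNReal.ofReal (|dt t| ^ (σ - (r + 1)))) := by
  have h1 : Measurable fun t : X (r + 1) => Wh (r + 1) φ m t := by
    have h2 := measurable_Wh (s := r + 1) (A := Unit) (φ := fun _ => φ)
      (hφ.comp measurable_snd) m
    exact h2.comp (f := fun t : X (r + 1) => ((), t)) (measurable_const.prodMk measurable_id)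
  have h3 : Measurable fun t : X (r + 1) => gs (t 0) := by
    unfold gs
    fun_prop
  have h4 : Measurable fun t : X (r + 1) => |dt t| ^ (σ - (r + 1)) := by
    have h5 : Measurable fun t : X (r + 1) => |dt t| := measurable_dt.abs
    exact h5.pow_const _
  exact (h1.enorm.pow_const 2).mul (h3.ennreal_ofReal.mul h4.ennreal_ofReal)

theorem JJ_pow {r : ℕ} {φ : X (r + 1) → ℂ} (hφ : IsP φ)
    (hs : ∀ t : ℝ, 0 < t → ∀ g, φ (t • g) = φ g) {p : ℕ} (hp : p.Prime) {ξ : ℂ} (hξ : ‖ξ‖ = 1)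
    {ev : Fin (r + 1) → ℂ} (hE : IsEig φ p ξ ev) (σ : ℝ) {m : Fin r → ℤ}
    (hm : ∀ i, ¬ (p : ℤ) ∣ m i) (a : Fin r → ℕ) :
    JJ φ σ (fun i => m i * (p : ℤ) ^ a i) =
      ENNReal.ofReal (‖sch ev (lam a)‖ ^ 2 * ((p : ℝ) ^ (-σ)) ^ wexp a) * JJ φ σ m := by
  have hp0 : (0 : ℝ) < p := by exact_mod_cast hp.pos
  set D : Fin (r + 1) → ℝ := fun j => ((p : ℝ) ^ (lam a 0 - lam a j))⁻¹ with hDdef
  have hD : ∀ j, D j ≠ 0 := fun j => by
    rw [hDdef]
    positivity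
  have hD0 : D 0 = 1 := by
    rw [hDdef]
    simp
  unfold JJ
  rw [fl_scale D hD (LLoc_meas hφ.meas σ _), ← lintegral_const_mul _ (LLoc_meas hφ.meas σ _),
    ← lintegral_const_mul _ ?_]
  · refine lintegral_congr_ae ?_
    filter_upwards [ae_diag (r + 1)] with t ht
    have h1 : Wh (r + 1) φ (ext fun i => m i * (p : ℤ) ^ a i) (fun i j => D i * t i j) =
        Wh (r + 1) φ (mnu p (ext m) (lam a)) (tnu p t (lam a)) := by
      rw [← Wh_smul hs (t := (p : ℝ) ^ lam a 0) (by positivity)]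
      congr 1
      · funext i
        unfold mnu ext
        by_cases hi : i < r
        · rw [dif_pos hi, dif_pos hi, dif_pos hi]
          show m ⟨i, hi⟩ * (p : ℤ) ^ a ⟨i, hi⟩ = m ⟨i, hi⟩ * (p : ℤ) ^
            (lam a (⟨i, hi⟩ : Fin r).castSucc - lam a (⟨i, hi⟩ : Fin r).succ)
          rw [LLoc_lam_succ, Nat.add_sub_cancel_left]
        · rw [dif_neg hi, dif_neg hi, dif_neg hi]
      · funext i j
        show (p : ℝ) ^ lam a 0 * (((p : ℝ) ^ (lam a 0 - lam a i))⁻¹ * t i j) =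
          (p : ℝ) ^ lam a i * t i j
        have h2 : lam a i ≤ lam a 0 := LLoc_anti a (Fin.zero_le i)
        have h3 : (p : ℝ) ^ lam a 0 = (p : ℝ) ^ lam a i * (p : ℝ) ^ (lam a 0 - lam a i) := by
          rw [← pow_add]
          congr 1
          omega
        rw [h3]
        have h4 : (p : ℝ) ^ (lam a 0 - lam a i) ≠ 0 := by positivity
        field_simp
    have h2 := norm_whit hφ hp hξ hE (m := ext m) (fun i hi => by
      unfold ext
      rw [dif_pos hi]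
      exact hm _) ht (LLoc_anti a)
    have h3 : (fun j => D 0 * t 0 j) = t 0 := by
      funext j
      rw [hD0, one_mul]
    have h4 : ∀ z : ℂ, ‖z‖ₑ ^ 2 = ENNReal.ofReal (‖z‖ ^ 2) := by
      intro z
      rw [ENNReal.ofReal_pow (norm_nonneg _), ofReal_norm]
    have h5 : |dt (fun i j => D i * t i j)| ^ (σ - (r + 1)) =
        |∏ i, D i| ^ (σ - (r + 1)) * |dt t| ^ (σ - (r + 1)) := by
      rw [dt_rows, abs_mul, Real.mul_rpow (abs_nonneg _) (abs_nonneg _)]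
    have hgs : (0 : ℝ) ≤ gs (t 0) := (Real.exp_pos _).le
    rw [h1, h3, h4, h4, h2, h5, ← ENNReal.ofReal_mul (by positivity),
      ← ENNReal.ofReal_mul (by positivity), ← ENNReal.ofReal_mul (by positivity),
      ← ENNReal.ofReal_mul (by positivity), ← ENNReal.ofReal_mul (by positivity),
      ← ENNReal.ofReal_mul (by positivity)]
    congr 1
    rw [← LLoc_exp hp a σ]
    ring
  · have h6 : Measurable fun t : X (r + 1) => (fun i j => D i * t i j : X (r + 1)) := by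
      refine measurable_pi_iff.2 fun i => measurable_pi_iff.2 fun j => ?_
      fun_prop
    exact (LLoc_meas hφ.meas σ _).comp h6

/-- The integrals with a vanishing parameter are zero. -/
theorem JJ_zero {r : ℕ} {φ : X (r + 1) → ℂ} (hφ : IsP φ) (hc : Cusp r φ) (σ : ℝ) {m : Fin r → ℤ}
    {i : Fin r} (hm : m i = 0) : JJ φ σ m = 0 := by
  unfold JJ
  have h1 : (fun t : X (r + 1) => ‖Wh (r + 1) φ (ext m) t‖ₑ ^ 2 *
      (ENNReal.ofReal (gs (t 0)) * ENNReal.ofReal (|dt t| ^ (σ - (r + 1))))) =ᵐ[fl (r + 1)]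
      fun _ => 0 := by
    filter_upwards [ae_diag (r + 1)] with t ht
    have h2 : ext m (i : ℕ) = 0 := by
      unfold ext
      rw [dif_pos i.isLt]
      exact hm
    rw [LLoc_zero hc i.isLt h2 ht]
    simp
  rw [lintegral_congr_ae h1, lintegral_zero]

end Pool.Agent.GL74
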