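import Pool.Agent.W_7742x_h74.LLoc

/-! # Splitting off finitely many primes

`MZ Q`: the `m : Fin r → ℤ` with nonzero entries not divisible by the primes in `Q`.

* `sum_split`: for a prime `p ∉ Q` the map `(m, a) ↦ m p^a` is a bijection
  `MZ (Q ∪ {p}) × (Fin r → ℕ) ≃ MZ Q` (`p`-adic valuation), so by `JJ_pow`
  `∑_{MZ Q} JJ = locF B (p^{-σ}) ∑_{MZ (Q ∪ {p})} JJ` if `ev = emx B`.
* `sum_prod`: induction on the finite set `Q`; for `Q = ∅` the condition is that all entries are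
  nonzero, and the other `m` do not contribute (`JJ_zero`). -/

set_option autoImplicit false

noncomputable section

namespace Pool.Agent.GL74

open MeasureTheory
open scoped ENNReal

/-- Parameters prime to the primes in `Q`. -/
abbrev MZ (r : ℕ) (Q : Set ℕ) : Type :=
  {m : Fin r → ℤ // ∀ i, m i ≠ 0 ∧ ∀ p ∈ Q, ¬ (p : ℤ) ∣ m i}

/-- The data of a Hecke eigenform: for the primes `p` outside a set of bad primes the Satake
matrix `B p`. -/
structure IsHeckeForm {r : ℕ} (φ : X (r + 1) → ℂ) (good : ℕ → Prop) (ξ : ℕ → ℂ)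
    (B : ℕ → Matrix (Fin (r + 1)) (Fin (r + 1)) ℂ) : Prop where
  isP : IsP φ
  scale : ∀ t : ℝ, 0 < t → ∀ g, φ (t • g) = φ g
  cusp : Cusp r φ
  prime : ∀ p, good p → p.Prime
  norm_xi : ∀ p, good p → ‖ξ p‖ = 1
  eig : ∀ p, good p → IsEig φ p (ξ p) (emx (B p))

/-- `m p^a` is an element of `MZ Q`. -/
def LPrd_f {r : ℕ} {Q : Set ℕ} {p : ℕ} (hp : p.Prime) (hpQ : p ∉ Q) (hQ : ∀ q ∈ Q, q.Prime)
    (x : MZ r (insert p Q) × (Fin r → ℕ)) : MZ r Q :=
  ⟨fun i => x.1.1 i * (p : ℤ) ^ x.2 i, fun i => ⟨mul_ne_zero (x.1.2 i).1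
    (pow_ne_zero _ (by exact_mod_cast hp.ne_zero)), fun q hq h => by
      rcases Int.Prime.dvd_mul' (hQ q hq) h with h1 | h1
      · exact (x.1.2 i).2 q (Set.mem_insert_of_mem _ hq) h1
      · have h2 := Prime.dvd_of_dvd_pow (Nat.prime_iff_prime_int.1 (hQ q hq)) h1
        have h3 : q ∣ p := by exact_mod_cast h2
        rw [Nat.prime_dvd_prime_iff_eq (hQ q hq) hp] at h3
        exact hpQ (h3 ▸ hq)⟩⟩

theorem LPrd_inj1 {p : ℕ} (hp : p.Prime) {m m' : ℤ} (hm : ¬ (p : ℤ) ∣ m) {a a' : ℕ}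
    (h : m * (p : ℤ) ^ a = m' * (p : ℤ) ^ a') : a' ≤ a := by
  by_contra hcon
  push Not at hcon
  obtain ⟨k, rfl⟩ := Nat.exists_eq_add_of_lt hcon
  have hp0 : (p : ℤ) ^ a ≠ 0 := pow_ne_zero _ (by exact_mod_cast hp.ne_zero)
  apply hm
  refine ⟨m' * (p : ℤ) ^ k, ?_⟩
  apply mul_right_cancel₀ hp0
  rw [h]
  ring

theorem LPrd_bij {r : ℕ} {Q : Set ℕ} {p : ℕ} (hp : p.Prime) (hpQ : p ∉ Q)
    (hQ : ∀ q ∈ Q, q.Prime) : Function.Bijective (LPrd_f (r := r) hp hpQ hQ) := by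
  have hp0 : (p : ℤ) ≠ 0 := by exact_mod_cast hp.ne_zero
  constructor
  · rintro ⟨⟨m, hm⟩, a⟩ ⟨⟨m', hm'⟩, a'⟩ h
    have h1 : ∀ i, m i * (p : ℤ) ^ a i = m' i * (p : ℤ) ^ a' i := fun i =>
      congrFun (congrArg Subtype.val h) i
    have ha : a = a' := by
      funext i
      exact le_antisymm
        (LPrd_inj1 hp ((hm' i).2 p (Set.mem_insert _ _)) (h1 i).symm)
        (LPrd_inj1 hp ((hm i).2 p (Set.mem_insert _ _)) (h1 i))
    subst ha
    have hmm : m = m' := by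
      funext i
      exact mul_right_cancel₀ (pow_ne_zero _ hp0) (h1 i)
    subst hmm
    rfl
  · rintro ⟨m, hm⟩
    have h1 : ∀ i, ∃ c : ℤ, m i = (p : ℤ) ^ multiplicity (p : ℤ) (m i) * c ∧ ¬ (p : ℤ) ∣ c := by
      intro i
      refine FiniteMultiplicity.exists_eq_pow_mul_and_not_dvd ?_
      rw [Int.finiteMultiplicity_iff]
      refine ⟨?_, (hm i).1⟩
      rw [Int.natAbs_natCast]
      exact hp.one_lt.ne'
    choose c hc hc' using h1
    refine ⟨⟨⟨c, fun i => ⟨fun h => ?_, fun q hq h => ?_⟩⟩,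
      fun i => multiplicity (p : ℤ) (m i)⟩, ?_⟩
    · apply hc' i
      rw [h]
      exact dvd_zero _
    · rcases hq with rfl | hq
      · exact hc' i h
      · apply (hm i).2 q hq
        rw [hc i]
        exact Dvd.dvd.mul_left h _
    · apply Subtype.ext
      funext i
      show c i * (p : ℤ) ^ multiplicity (p : ℤ) (m i) = m i
      rw [mul_comm]
      exact (hc i).symm

theorem sum_split {r : ℕ} {φ : X (r + 1) → ℂ} {good : ℕ → Prop} {ξ : ℕ → ℂ}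
    {B : ℕ → Matrix (Fin (r + 1)) (Fin (r + 1)) ℂ} (h : IsHeckeForm φ good ξ B) (σ : ℝ)
    {Q : Set ℕ} {p : ℕ} (hp : good p) (hpQ : p ∉ Q) (hQ : ∀ q ∈ Q, good q) :
    ∑' m : MZ r Q, JJ φ σ m.1 =
      locF (B p) ((p : ℝ) ^ (-σ)) * ∑' m : MZ r (insert p Q), JJ φ σ m.1 := by
  have hpp := h.prime p hp
  have hQp : ∀ q ∈ Q, q.Prime := fun q hq => h.prime q (hQ q hq)
  rw [← (Equiv.ofBijective _ (LPrd_bij (r := r) hpp hpQ hQp)).tsum_eq
    (fun m : MZ r Q => JJ φ σ m.1)]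
  have h1 : ∀ x : MZ r (insert p Q) × (Fin r → ℕ),
      JJ φ σ (Equiv.ofBijective _ (LPrd_bij (r := r) hpp hpQ hQp) x).1 =
      ENNReal.ofReal (‖sch (emx (B p)) (lam x.2)‖ ^ 2 * ((p : ℝ) ^ (-σ)) ^ wexp x.2) *
        JJ φ σ x.1.1 := fun x =>
    JJ_pow h.isP h.scale hpp (h.norm_xi p hp) (h.eig p hp) σ
      (fun i => (x.1.2 i).2 p (Set.mem_insert _ _)) x.2
  rw [tsum_congr h1, ENNReal.tsum_prod (f := fun (m : MZ r (insert p Q)) (a : Fin r → ℕ) =>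
    ENNReal.ofReal (‖sch (emx (B p)) (lam a)‖ ^ 2 * ((p : ℝ) ^ (-σ)) ^ wexp a) * JJ φ σ m.1),
    ← ENNReal.tsum_mul_left]
  refine tsum_congr fun m => ?_
  rw [ENNReal.tsum_mul_right]
  rfl

theorem sum_prod {r : ℕ} {φ : X (r + 1) → ℂ} {good : ℕ → Prop} {ξ : ℕ → ℂ}
    {B : ℕ → Matrix (Fin (r + 1)) (Fin (r + 1)) ℂ} (h : IsHeckeForm φ good ξ B) (σ : ℝ)
    (Q : Finset ℕ) (hQ : ∀ q ∈ Q, good q) :
    ∑' m : Fin r → ℤ, JJ φ σ m =
      (∏ p ∈ Q, locF (B p) ((p : ℝ) ^ (-σ))) * ∑' m : MZ r (Q : Set ℕ), JJ φ σ m.1 := by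
  classical
  induction Q using Finset.induction_on with
  | empty =>
    rw [Finset.prod_empty, one_mul]
    symm
    refine Subtype.val_injective.tsum_eq (f := fun m : Fin r → ℤ => JJ φ σ m) ?_
    intro m hm
    rw [Subtype.range_val]
    intro i
    refine ⟨fun hi => hm (JJ_zero h.isP h.cusp σ hi), fun p hp => ?_⟩
    simp at hp
  | insert p Q hpQ ih =>
    rw [ih fun q hq => hQ q (Finset.mem_insert_of_mem hq), Finset.prod_insert hpQ,
      sum_split h σ (hQ p (Finset.mem_insert_self _ _)) (by exact_mod_cast hpQ)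
        (fun q hq => hQ q (Finset.mem_insert_of_mem (by exact_mod_cast hq)))]
    have h1 : ∀ Q' : Set ℕ, Q' = insert p (Q : Set ℕ) →
        ∑' m : MZ r Q', JJ φ σ m.1 = ∑' m : MZ r (insert p (Q : Set ℕ)), JJ φ σ m.1 := by
      rintro _ rfl
      rfl
    rw [h1 _ (Finset.coe_insert p Q)]
    ring

end Pool.Agent.GL74
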