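import Pool.Agent.W_7742x_h74.XGlu

/-! # Lebesgue measure on matrices

* `lintegral_lm`: `g ↦ A g` acts on each column by `A`; the Jacobian is `|det A| ^ n`
  (e.g. `MeasureTheory.Measure.addHaar_preimage_linearMap` / `lintegral` change of variables for
  the linear map, `LinearMap.det` of a direct sum of `n` copies; or: transpose coordinates by a
  measurable equivalence which preserves the measure and use
  `Real.map_matrix_volume_pi_eq_smul_volume_pi` for each column).
* `ae_dt_ne_zero`: the zero set of a nonzero polynomial; e.g. by induction on `n` with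
  `dt (glue h c v) = v 0 * dt h` and `lintegral_glue`; for `n = 0` the determinant is `1`.
* `lintegral_glue`: `Fin.cons` coordinates preserve the measure
  (`MeasureTheory.volume_preserving_piFinSuccAbove`), and for fixed `v`, `c` the map
  `h ↦ h + c v' / v 0` is a translation.
* `lintegral_glue'`: substitute `c = v 0 • θ` (`v 0 ≠ 0` almost everywhere). -/

set_option autoImplicit false

noncomputable section

namespace Pool.Agent.GL74

open MeasureTheory
open scoped ENNReal MatrixGroups

theorem measurable_dt {n : ℕ} : Measurable (dt : X n → ℝ) := by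
  have h : Continuous (dt : X n → ℝ) := by
    unfold dt
    exact Continuous.matrix_det continuous_id
  exact h.measurable

theorem measurable_lm {n : ℕ} (A : Matrix (Fin n) (Fin n) ℝ) : Measurable (lm A : X n → X n) := by
  refine measurable_pi_iff.2 fun i => measurable_pi_iff.2 fun j => ?_
  unfold lm
  fun_prop

theorem measurable_glue {s : ℕ} :
    Measurable fun q : (X s × (Fin s → ℝ)) × (Fin (s + 1) → ℝ) => glue q.1.1 q.1.2 q.2 := by
  refine measurable_pi_iff.2 fun i => ?_
  refine Fin.cases ?_ (fun i => ?_) i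
  · exact measurable_snd
  · refine measurable_pi_iff.2 fun j => ?_
    refine Fin.cases ?_ (fun j => ?_) j
    · exact (measurable_pi_apply i).comp (measurable_snd.comp measurable_fst)
    · show Measurable fun q : (X s × (Fin s → ℝ)) × (Fin (s + 1) → ℝ) =>
        q.1.1 i j + q.1.2 i * q.2 j.succ / q.2 0
      fun_prop

theorem measurable_hp {s : ℕ} : Measurable (hp : X (s + 1) → X s) := by
  refine measurable_pi_iff.2 fun i => measurable_pi_iff.2 fun j => ?_
  unfold hp
  fun_prop

instance isAddHaarMeasure_X (n : ℕ) : (volume : Measure (X n)).IsAddHaarMeasure := by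
  have h1 : IsFiniteMeasureOnCompacts (volume : Measure (X n)) := inferInstance
  have h2 : (volume : Measure (X n)).IsOpenPosMeasure := inferInstance
  have h3 : (volume : Measure (X n)).IsAddLeftInvariant := inferInstance
  exact { }

/-- `lm A` as a linear map. -/
def lmL {n : ℕ} (A : Matrix (Fin n) (Fin n) ℝ) : X n →ₗ[ℝ] X n where
  toFun := lm A
  map_add' g h := by
    funext i j
    simp only [lm, Pi.add_apply, mul_add, Finset.sum_add_distrib]
  map_smul' t g := by
    funext i j
    simp only [lm, Pi.smul_apply, smul_eq_mul, RingHom.id_apply, Finset.mul_sum]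
    exact Finset.sum_congr rfl fun k _ => by ring

/-- The transposition. -/
def trL (n : ℕ) : X n ≃ₗ[ℝ] X n where
  toFun g i j := g j i
  invFun g i j := g j i
  left_inv _ := rfl
  right_inv _ := rfl
  map_add' _ _ := rfl
  map_smul' _ _ := rfl

theorem det_lmL {n : ℕ} (A : Matrix (Fin n) (Fin n) ℝ) : LinearMap.det (lmL A) = A.det ^ n := by
  have h : lmL A = ((trL n : X n ≃ₗ[ℝ] X n) : X n →ₗ[ℝ] X n) ∘ₗ
      (LinearMap.pi fun i : Fin n => (Matrix.toLin' A) ∘ₗ
        (LinearMap.proj i : (Fin n → Fin n → ℝ) →ₗ[ℝ] (Fin n → ℝ))) ∘ₗ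
      ((trL n).symm : X n →ₗ[ℝ] X n) := by
    apply LinearMap.ext
    intro g
    funext i j
    rfl
  rw [h, LinearMap.det_conj, LinearMap.det_pi]
  simp [LinearMap.det_toLin']

theorem map_lm {n : ℕ} {A : Matrix (Fin n) (Fin n) ℝ} (hA : A.det ≠ 0) :
    Measure.map (lm A) (volume : Measure (X n))
      = ENNReal.ofReal (|A.det|⁻¹ ^ n) • (volume : Measure (X n)) := by
  have h0 : LinearMap.det (lmL A) ≠ 0 := by
    rw [det_lmL]
    exact pow_ne_zero _ hA
  have h := Measure.map_linearMap_addHaar_eq_smul_addHaar (volume : Measure (X n)) h0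
  have e : (⇑(lmL A) : X n → X n) = lm A := rfl
  rw [e, det_lmL] at h
  rw [h]
  congr 2
  rw [abs_inv, abs_pow, inv_pow]

theorem lintegral_lm {n : ℕ} {A : Matrix (Fin n) (Fin n) ℝ} (hA : A.det ≠ 0) {F : X n → ℝ≥0∞}
    (hF : Measurable F) :
    ∫⁻ g, F (lm A g) = ENNReal.ofReal (|A.det|⁻¹ ^ n) * ∫⁻ g, F g := by
  rw [← lintegral_map hF (measurable_lm A), map_lm hA, lintegral_smul_measure, smul_eq_mul]

theorem measurePreserving_lm {n : ℕ} {A : Matrix (Fin n) (Fin n) ℝ} (hA : |A.det| = 1) :
    MeasurePreserving (lm A) (volume : Measure (X n)) volume := by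
  refine ⟨measurable_lm A, ?_⟩
  have h0 : A.det ≠ 0 := by
    intro h
    rw [h, abs_zero] at hA
    exact zero_ne_one hA
  rw [map_lm h0, hA]
  simp

theorem measurePreserving_sl {n : ℕ} (γ : SL(n, ℤ)) :
    MeasurePreserving (sl γ) (volume : Measure (X n)) volume := by
  have h : ((γ.1.map fun a : ℤ => (a : ℝ))).det = 1 := by
    have e : (γ.1.map fun a : ℤ => (a : ℝ)) = (Int.castRingHom ℝ).mapMatrix γ.1 := rfl
    rw [e, ← RingHom.map_det, γ.2]
    simp
  exact measurePreserving_lm (by rw [h, abs_one])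

theorem lintegral_smul_X {n : ℕ} {t : ℝ} (ht : 0 < t) {F : X n → ℝ≥0∞} (hF : Measurable F) :
    ∫⁻ g : X n, F (t • g) = ENNReal.ofReal (t⁻¹ ^ (n * n)) * ∫⁻ g, F g := by
  have e : ∀ g : X n, t • g = lm (t • (1 : Matrix (Fin n) (Fin n) ℝ)) g := by
    intro g
    funext i j
    simp [lm, Matrix.one_apply]
  have hd : (t • (1 : Matrix (Fin n) (Fin n) ℝ)).det = t ^ n := by
    rw [Matrix.det_smul, Matrix.det_one, Fintype.card_fin, mul_one]
  simp_rw [e]
  rw [lintegral_lm (by rw [hd]; exact pow_ne_zero _ ht.ne') hF, hd, abs_pow, abs_of_pos ht,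
    pow_mul, inv_pow, inv_pow, inv_pow]

/-- The measurable equivalence splitting off the first row and the first column. -/
theorem lintegral_cons {s : ℕ} {α : Type} [MeasureSpace α] [SigmaFinite (volume : Measure α)]
    {F : (Fin (s + 1) → α) → ℝ≥0∞} (hF : Measurable F) :
    ∫⁻ g, F g = ∫⁻ v : α, ∫⁻ w : Fin s → α, F (Fin.cons v w) := by
  have h := (volume_preserving_piFinSuccAbove (fun _ : Fin (s + 1) => α) 0)
  have hs := h.symm
  have h1 : ∫⁻ g, F g = ∫⁻ q : α × (Fin s → α),
      F ((MeasurableEquiv.piFinSuccAbove (fun _ : Fin (s + 1) => α) 0).symm q) := by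
    exact (hs.lintegral_comp hF).symm
  rw [h1, Measure.volume_eq_prod, lintegral_prod _ ?_]
  · apply lintegral_congr
    intro v
    apply lintegral_congr
    intro w
    congr 1
    simp only [MeasurableEquiv.piFinSuccAbove_symm_apply, Fin.insertNthEquiv_zero]
    rfl
  · exact (hF.comp (MeasurableEquiv.measurable _)).aemeasurable

theorem lintegral_glue {s : ℕ} {F : X (s + 1) → ℝ≥0∞} (hF : Measurable F) :
    ∫⁻ g, F g = ∫⁻ v : Fin (s + 1) → ℝ, ∫⁻ c : Fin s → ℝ, ∫⁻ h : X s, F (glue h c v) := by
  rw [lintegral_cons hF]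
  apply lintegral_congr
  intro v
  -- split off the first column
  have hF1 : Measurable fun w : Fin s → (Fin (s + 1) → ℝ) => F (Fin.cons v w) := by
    apply hF.comp
    refine measurable_pi_iff.2 fun i => ?_
    refine Fin.cases ?_ (fun i => ?_) i
    · exact measurable_const
    · exact measurable_pi_apply i
  have m1 : MeasurePreserving
      (fun (w : Fin s → (ℝ × (Fin s → ℝ))) (i : Fin s) =>
        (MeasurableEquiv.piFinSuccAbove (fun _ : Fin (s + 1) => ℝ) 0).symm (w i))
      volume volume := by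
    exact measurePreserving_pi (fun _ => volume) (fun _ => volume) fun i =>
      (volume_preserving_piFinSuccAbove (fun _ : Fin (s + 1) => ℝ) 0).symm
  have m2 := (volume_measurePreserving_arrowProdEquivProdArrow ℝ (Fin s → ℝ) (Fin s)).symm
  have m3 := m1.comp m2
  rw [← m3.lintegral_comp hF1, Measure.volume_eq_prod, lintegral_prod _ ?_]
  · apply lintegral_congr
    intro c
    rw [← lintegral_add_right_eq_self (μ := (volume : Measure (X s))) _
      (fun i j => c i * v j.succ / v 0)]
    apply lintegral_congr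
    intro h
    congr 1
    funext i
    refine Fin.cases ?_ (fun i => ?_) i
    · rfl
    · funext j
      refine Fin.cases ?_ (fun j => ?_) j
      · rfl
      · rfl
  · exact (hF1.comp m3.measurable).aemeasurable

theorem ae_ne_zero (s : ℕ) : ∀ᵐ v : Fin (s + 1) → ℝ, v 0 ≠ 0 := by
  have h : Measure.QuasiMeasurePreserving (fun v : Fin (s + 1) → ℝ => v 0) volume volume := by
    rw [volume_pi]
    exact Measure.quasiMeasurePreserving_eval _ 0
  have h0 : ∀ᵐ x : ℝ, x ≠ 0 := by
    rw [ae_iff]
    simp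
  exact h.ae h0

theorem ae_dt_ne_zero {n : ℕ} : ∀ᵐ g : X n, dt g ≠ 0 := by
  induction n with
  | zero =>
    refine Filter.Eventually.of_forall fun g => ?_
    unfold dt
    rw [Matrix.det_isEmpty]
    exact one_ne_zero
  | succ s ih =>
    have hm : MeasurableSet {g : X (s + 1) | dt g = 0} :=
      measurable_dt (measurableSet_singleton 0)
    rw [ae_iff]
    have hs : {g : X (s + 1) | ¬ dt g ≠ 0} = {g : X (s + 1) | dt g = 0} := by
      ext g
      simp
    rw [hs, ← lintegral_indicator_one hm, lintegral_glue (measurable_one.indicator hm)]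
    have h0 : ∀ᵐ v : Fin (s + 1) → ℝ, ∫⁻ c : Fin s → ℝ, ∫⁻ h : X s,
        ({g : X (s + 1) | dt g = 0}.indicator 1 (glue h c v) : ℝ≥0∞) = 0 := by
      filter_upwards [ae_ne_zero s] with v hv
      have h1 : ∀ c : Fin s → ℝ, ∫⁻ h : X s,
          ({g : X (s + 1) | dt g = 0}.indicator 1 (glue h c v) : ℝ≥0∞) = 0 := by
        intro c
        rw [← lintegral_zero (μ := (volume : Measure (X s)))]
        apply lintegral_congr_ae
        filter_upwards [ih] with h hh
        rw [Set.indicator_of_notMem]
        show ¬ dt (glue h c v) = 0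
        rw [dt_glue h c hv]
        exact mul_ne_zero hv hh
      simp_rw [h1]
      simp
    rw [lintegral_congr_ae h0]
    simp

theorem lintegral_glue' {s : ℕ} {F : X (s + 1) → ℝ≥0∞} (hF : Measurable F) :
    ∫⁻ g, F g = ∫⁻ v : Fin (s + 1) → ℝ, ENNReal.ofReal (|v 0| ^ s) *
      ∫⁻ h : X s, ∫⁻ θ : Fin s → ℝ, F (glue h (v 0 • θ) v) := by
  rw [lintegral_glue hF]
  apply lintegral_congr_ae
  filter_upwards [ae_ne_zero s] with v hv
  have hg : Measurable fun q : (Fin s → ℝ) × X s => F (glue q.2 q.1 v) := by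
    refine hF.comp (measurable_glue.comp (g := fun q : (X s × (Fin s → ℝ)) × (Fin (s + 1) → ℝ) =>
      glue q.1.1 q.1.2 q.2) (f := fun q : (Fin s → ℝ) × X s => ((q.2, q.1), v)) ?_)
    fun_prop
  rw [lintegral_lintegral_swap (by exact hg.aemeasurable)]
  rw [← lintegral_const_mul _ ?_]
  · apply lintegral_congr
    intro h
    have hc : Measurable fun c : Fin s → ℝ => F (glue h c v) :=
      hg.comp (measurable_id.prodMk measurable_const)
    have hsm : Measurable fun c : Fin s → ℝ => v 0 • c := measurable_const_smul _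
    have e1 : ∫⁻ θ : Fin s → ℝ, F (glue h (v 0 • θ) v)
        = ∫⁻ c, F (glue h c v) ∂(Measure.map (fun c : Fin s → ℝ => v 0 • c) volume) :=
      (lintegral_map hc hsm).symm
    rw [e1, Measure.map_addHaar_smul _ hv, lintegral_smul_measure, smul_eq_mul, ← mul_assoc,
      ← ENNReal.ofReal_mul (by positivity)]
    have e2 : |v 0| ^ s * |(v 0 ^ Module.finrank ℝ (Fin s → ℝ))⁻¹| = 1 := by
      rw [Module.finrank_fin_fun, abs_inv, abs_pow]
      exact mul_inv_cancel₀ (pow_ne_zero _ (abs_ne_zero.2 hv))
    rw [e2, ENNReal.ofReal_one, one_mul]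
  · have hg2 : Measurable fun q : X s × (Fin s → ℝ) => F (glue q.1 (v 0 • q.2) v) := by
      refine hg.comp (g := fun q : (Fin s → ℝ) × X s => F (glue q.2 q.1 v))
        (f := fun q : X s × (Fin s → ℝ) => (v 0 • q.2, q.1)) ?_
      fun_prop
    exact hg2.lintegral_prod_right'

instance sFinite_fl (s : ℕ) : SFinite (fl s) := by
  induction s with
  | zero =>
    show SFinite (Measure.dirac (0 : X 0))
    infer_instance
  | succ s ih =>
    show SFinite ((((volume : Measure (Fin (s + 1) → ℝ)).withDensity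
      fun v => ENNReal.ofReal (|v 0| ^ s)).prod (fl s)).map fun q => glue q.2 0 q.1)
    infer_instance

theorem FUnf_meas_glue {s : ℕ} :
    Measurable fun q : (Fin (s + 1) → ℝ) × X s => glue q.2 0 q.1 := by
  refine measurable_glue.comp (g := fun q : (X s × (Fin s → ℝ)) × (Fin (s + 1) → ℝ) =>
      glue q.1.1 q.1.2 q.2) (f := fun q : (Fin (s + 1) → ℝ) × X s => ((q.2, 0), q.1)) ?_
  fun_prop

theorem lintegral_fl_succ {s : ℕ} {F : X (s + 1) → ℝ≥0∞} (hF : Measurable F) :
    ∫⁻ t, F t ∂(fl (s + 1)) = ∫⁻ v : Fin (s + 1) → ℝ, ENNReal.ofReal (|v 0| ^ s) *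
      ∫⁻ t, F (glue t 0 v) ∂(fl s) := by
  have h1 : fl (s + 1) = (((volume : Measure (Fin (s + 1) → ℝ)).withDensity
      fun v => ENNReal.ofReal (|v 0| ^ s)).prod (fl s)).map fun q => glue q.2 0 q.1 := rfl
  have hd : Measurable fun v : Fin (s + 1) → ℝ => ENNReal.ofReal (|v 0| ^ s) := by
    fun_prop
  have hm : Measurable fun q : (Fin (s + 1) → ℝ) × X s => F (glue q.2 0 q.1) :=
    hF.comp FUnf_meas_glue
  rw [h1, lintegral_map hF FUnf_meas_glue, lintegral_prod _ hm.aemeasurable,
    lintegral_withDensity_eq_lintegral_mul _ hd hm.lintegral_prod_right']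
  rfl

end Pool.Agent.GL74
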