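import Pool.Agent.W_7742x_h74.TTor
import Pool.Agent.W_7742x_h74.XMea

/-! # The Fourier coefficients `coef`

* `isPer_glue`: `IsP.inv` with `γ = 1`.
* `measurable_coef`: joint measurability of parameter integrals
  (`MeasureTheory.StronglyMeasurable.integral_prod_right`), `measurable_glue`.
* `norm_coef_le`: the cube has volume one, `‖e x‖ = 1`.
* `coef_sl`: substitute `θ = γ θ'` (`int_lin` with `M = γ`) and use `IsP.inv` with `ℓ = 0`:
  `w · (γ θ') = (w γ) · θ'`, `cv γ (v 0 • θ') = v 0 • γ θ'`.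
* `isP_coef`: the product `sl (pm ℓ γ) (glue h c v')` is `glue (sl γ h) (cv γ c + v' 0 • ℓ) v'`
  (`sl_pm_glue`) and `rw' (E (s+1) m) (pm ℓ γ) = E (s+1) m` (the first row of `pm ℓ γ` is `e_0`).
* `coef_smul`: `glue (t • h) (t v 0 θ) (t • v) = t • glue h (v 0 θ) v` (`smul_glue`). -/

set_option autoImplicit false

noncomputable section

namespace Pool.Agent.GL74

open MeasureTheory
open scoped ENNReal MatrixGroups

theorem FCoe_e_meas : Measurable e := by
  unfold e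
  fun_prop

theorem FCoe_norm_e (x : ℝ) : ‖e x‖ = 1 := by
  unfold e
  have h : (2 * Real.pi * Complex.I * x : ℂ) = ((2 * Real.pi * x : ℝ) : ℂ) * Complex.I := by
    push_cast
    ring
  rw [h, Complex.norm_exp_ofReal_mul_I]

theorem FCoe_cv_one {s : ℕ} (c : Fin s → ℝ) : cv (1 : SL(s, ℤ)) c = c := by
  funext i
  unfold cv
  have : ∀ j, (((1 : SL(s, ℤ)).1 i j : ℤ) : ℝ) * c j = if i = j then c j else 0 := by
    intro j
    rw [Matrix.SpecialLinearGroup.coe_one, Matrix.one_apply]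
    split_ifs <;> simp
  simp only [this]
  rw [Finset.sum_ite_eq]
  simp

theorem FCoe_meas {s : ℕ} {A : Type} [MeasurableSpace A] {φ : A → X (s + 1) → ℂ}
    (hφ : Measurable fun q : A × X (s + 1) => φ q.1 q.2) (w : Fin s → ℤ) :
    Measurable fun q : (A × (Fin (s + 1) → ℝ)) × X s => coef w (φ q.1.1) q.1.2 q.2 := by
  unfold coef
  have h1 : Measurable fun p : ((A × (Fin (s + 1) → ℝ)) × X s) × (Fin s → ℝ) =>
      (((p.1.2, p.1.1.2 0 • p.2), p.1.1.2) :
        (X s × (Fin s → ℝ)) × (Fin (s + 1) → ℝ)) := by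
    fun_prop
  have h2 : Measurable fun p : ((A × (Fin (s + 1) → ℝ)) × X s) × (Fin s → ℝ) =>
      glue p.1.2 (p.1.1.2 0 • p.2) p.1.1.2 := measurable_glue.comp h1
  have h3 : Measurable fun p : ((A × (Fin (s + 1) → ℝ)) × X s) × (Fin s → ℝ) =>
      ((p.1.1.1, glue p.1.2 (p.1.1.2 0 • p.2) p.1.1.2) : A × X (s + 1)) :=
    (measurable_fst.comp (measurable_fst.comp measurable_fst)).prodMk h2
  have h4 : Measurable fun p : ((A × (Fin (s + 1) → ℝ)) × X s) × (Fin s → ℝ) =>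
      φ p.1.1.1 (glue p.1.2 (p.1.1.2 0 • p.2) p.1.1.2) := hφ.comp h3
  have h5 : Measurable fun p : ((A × (Fin (s + 1) → ℝ)) × X s) × (Fin s → ℝ) =>
      e (-(∑ i, (w i : ℝ) * p.2 i)) := FCoe_e_meas.comp (by fun_prop)
  have h6 := (h5.mul h4).stronglyMeasurable
  exact (MeasureTheory.StronglyMeasurable.integral_prod_right
    (ν := (volume : Measure (Fin s → ℝ)).restrict (Set.Icc (0 : Fin s → ℝ) 1))
    (f := fun (q : (A × (Fin (s + 1) → ℝ)) × X s) (θ : Fin s → ℝ) =>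
      e (-(∑ i, (w i : ℝ) * θ i)) * φ q.1.1 (glue q.2 (q.1.2 0 • θ) q.1.2)) h6).measurable

theorem FCoe_coef_smul {s : ℕ} {φ φ' : X (s + 1) → ℂ} {t : ℝ} (ht : 0 < t)
    (hφ : ∀ g, φ' (t • g) = φ g) (w : Fin s → ℤ) (v : Fin (s + 1) → ℝ) (h : X s) :
    coef w φ' (t • v) (t • h) = coef w φ v h := by
  unfold coef
  congr 1
  funext θ
  have h1 : glue (t • h) ((t • v) 0 • θ) (t • v) = t • glue h (v 0 • θ) v := by
    rw [smul_glue t ht.ne']
    congr 1
    rw [Pi.smul_apply, smul_eq_mul, mul_smul]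
  rw [h1, hφ]

theorem FCoe_Wh_smul {t : ℝ} (ht : 0 < t) : ∀ (s : ℕ) (φ φ' : X s → ℂ)
    (_ : ∀ g, φ' (t • g) = φ g) (m : ℕ → ℤ) (g : X s), Wh s φ' m (t • g) = Wh s φ m g := by
  intro s
  induction s with
  | zero =>
    intro φ φ' hφ m g
    exact hφ g
  | succ s ih =>
    intro φ φ' hφ m g
    show Wh s (coef (E s (m 0)) φ' (t • g 0)) (fun i => m (i + 1)) (t • lr g) =
      Wh s (coef (E s (m 0)) φ (g 0)) (fun i => m (i + 1)) (lr g)
    exact ih _ _ (fun h => FCoe_coef_smul ht hφ _ _ _) _ _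

theorem FCoe_meas_Wh : ∀ (s : ℕ) (A : Type) (_ : MeasurableSpace A) (m : ℕ → ℤ)
    (φ : A → X s → ℂ) (_ : Measurable fun q : A × X s => φ q.1 q.2),
    Measurable fun q : A × X s => Wh s (φ q.1) m q.2 := by
  intro s
  induction s with
  | zero =>
    intro A _ m φ hφ
    exact hφ
  | succ s ih =>
    intro A hA m φ hφ
    have h1 := ih (A × (Fin (s + 1) → ℝ)) inferInstance (fun i => m (i + 1))
      (fun a => coef (E s (m 0)) (φ a.1) a.2) (FCoe_meas hφ _)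
    have h2 : Measurable fun q : A × X (s + 1) =>
        (((q.1, q.2 0), lr q.2) : (A × (Fin (s + 1) → ℝ)) × X s) := by
      refine (measurable_fst.prodMk ?_).prodMk ?_
      · exact (measurable_pi_apply 0).comp measurable_snd
      · refine measurable_pi_iff.2 fun i => measurable_pi_iff.2 fun j => ?_
        unfold lr
        fun_prop
    exact h1.comp h2

theorem isPer_glue {s : ℕ} {φ : X (s + 1) → ℂ} (hφ : IsP φ) (h : X s) {v : Fin (s + 1) → ℝ}
    (hv : v 0 ≠ 0) : IsPer fun θ : Fin s → ℝ => φ (glue h (v 0 • θ) v) := by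
  refine ⟨?_, ?_, ?_⟩
  · exact hφ.meas.comp (measurable_glue.comp (g := fun q : (X s × (Fin s → ℝ)) × (Fin (s + 1) → ℝ) =>
      glue q.1.1 q.1.2 q.2) (f := fun θ : Fin s → ℝ => ((h, v 0 • θ), v)) (by fun_prop))
  · obtain ⟨C, hC⟩ := hφ.bdd
    exact ⟨C, fun θ => hC _⟩
  · intro ℓ θ
    have h1 := hφ.inv 1 ℓ h (v 0 • θ) v hv
    rw [sl_one, FCoe_cv_one, ← smul_add] at h1
    exact h1

theorem measurable_coef {s : ℕ} {φ : X (s + 1) → ℂ} (hφ : Measurable φ) (w : Fin s → ℤ) :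
    Measurable fun q : (Fin (s + 1) → ℝ) × X s => coef w φ q.1 q.2 := by
  have h := FCoe_meas (A := Unit) (φ := fun _ => φ) (hφ.comp measurable_snd) w
  exact h.comp (g := fun q : (Unit × (Fin (s + 1) → ℝ)) × X s => coef w φ q.1.2 q.2)
    (f := fun q : (Fin (s + 1) → ℝ) × X s => ((((), q.1), q.2) :
      (Unit × (Fin (s + 1) → ℝ)) × X s)) (by fun_prop)

theorem norm_coef_le {s : ℕ} {φ : X (s + 1) → ℂ} {C : ℝ} (hC : 0 ≤ C) (hφ : ∀ g, ‖φ g‖ ≤ C)
    (w : Fin s → ℤ) (v : Fin (s + 1) → ℝ) (h : X s) : ‖coef w φ v h‖ ≤ C := by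
  unfold coef
  have hvol : (volume : Measure (Fin s → ℝ)) (Set.Icc 0 1) = 1 := by
    rw [Real.volume_Icc_pi]
    simp
  have h := norm_setIntegral_le_of_norm_le_const (μ := (volume : Measure (Fin s → ℝ)))
    (s := Set.Icc (0 : Fin s → ℝ) 1) (C := C)
    (f := fun θ => e (-(∑ i, (w i : ℝ) * θ i)) * φ (glue h (v 0 • θ) v))
    (by rw [hvol]; exact ENNReal.one_lt_top) (fun θ _ => by
      rw [norm_mul, FCoe_norm_e, one_mul]
      exact hφ _)
  refine h.trans (le_of_eq ?_)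
  rw [Measure.real, hvol]
  simp

theorem coef_sl {s : ℕ} {φ : X (s + 1) → ℂ} (hφ : IsP φ) (w : Fin s → ℤ)
    {v : Fin (s + 1) → ℝ} (hv : v 0 ≠ 0) (γ : SL(s, ℤ)) (h : X s) :
    coef w φ v (sl γ h) = coef (rw' w γ) φ v h := by
  have hper := isPer_mul (isPer_glue hφ (sl γ h) hv) w
  have hdet : γ.1.det ≠ 0 := by
    rw [γ.2]
    exact one_ne_zero
  have h1 := int_lin hper γ.1 hdet
  unfold coef
  rw [← h1]
  congr 1
  funext θ
  have h2 : v 0 • (γ.1.map fun a : ℤ => (a : ℝ)).mulVec θ = cv γ (v 0 • θ) + v 0 • zr 0 := by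
    funext i
    simp only [Pi.smul_apply, Pi.add_apply, cv, zr, Matrix.mulVec, dotProduct, Matrix.map_apply,
      smul_eq_mul, Pi.zero_apply, Int.cast_zero, mul_zero, add_zero, Finset.mul_sum]
    refine Finset.sum_congr rfl fun j _ => ?_
    ring
  rw [h2, hφ.inv γ 0 h (v 0 • θ) v hv]
  congr 3
  simp only [rw', Matrix.mulVec, dotProduct, Matrix.map_apply, Finset.mul_sum, Int.cast_sum,
    Int.cast_mul, Finset.sum_mul]
  rw [Finset.sum_comm]
  refine Finset.sum_congr rfl fun i _ => Finset.sum_congr rfl fun j _ => ?_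
  ring

theorem isP_coef {s : ℕ} {φ : X (s + 2) → ℂ} (hφ : IsP φ) (m : ℤ) {v : Fin (s + 2) → ℝ}
    (hv : v 0 ≠ 0) : IsP (coef (E (s + 1) m) φ v) := by
  obtain ⟨C, hC⟩ := hφ.bdd
  refine ⟨?_, ⟨max C 0, fun g => ?_⟩, ?_⟩
  · exact (measurable_coef hφ.meas (E (s + 1) m)).comp (measurable_const.prodMk measurable_id)
  · exact norm_coef_le (le_max_right _ _) (fun g => (hC g).trans (le_max_left _ _)) _ _ _
  · intro γ ℓ h c v' hv'
    rw [← sl_pm_glue ℓ γ h c hv', coef_sl hφ _ hv]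
    congr 1
    funext j
    unfold rw'
    rw [Fin.sum_univ_succ]
    have h1 : ∀ i : Fin s, E (s + 1) m i.succ * (pm ℓ γ).1 i.succ j = 0 := by
      intro i
      unfold E
      simp
    rw [Finset.sum_eq_zero fun i _ => h1 i, add_zero]
    unfold E pm pmM
    refine Fin.cases ?_ (fun j => ?_) j
    · simp
    · simp

theorem parseval_coef {s : ℕ} {φ : X (s + 1) → ℂ} (hφ : IsP φ) {v : Fin (s + 1) → ℝ}
    (hv : v 0 ≠ 0) (h : X s) :
    ∫⁻ θ in Set.Icc (0 : Fin s → ℝ) 1, ‖φ (glue h (v 0 • θ) v)‖ₑ ^ 2 =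
      ∑' w : Fin s → ℤ, ‖coef w φ v h‖ₑ ^ 2 :=
  parseval (isPer_glue hφ h hv)

theorem coef_smul {s : ℕ} {φ : X (s + 1) → ℂ} (hφ : ∀ t : ℝ, 0 < t → ∀ g, φ (t • g) = φ g)
    {t : ℝ} (ht : 0 < t) (w : Fin s → ℤ) (v : Fin (s + 1) → ℝ) (h : X s) :
    coef w φ (t • v) (t • h) = coef w φ v h := by
  exact FCoe_coef_smul ht (hφ t ht) w v h

/-- Scale invariance of the Whittaker functions. -/
theorem Wh_smul {s : ℕ} {φ : X s → ℂ} (hφ : ∀ t : ℝ, 0 < t → ∀ g, φ (t • g) = φ g)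
    {t : ℝ} (ht : 0 < t) (m : ℕ → ℤ) (g : X s) : Wh s φ m (t • g) = Wh s φ m g := by
  exact FCoe_Wh_smul ht s φ φ (hφ t ht) m g

/-- Measurability of the Whittaker functions with a parameter. -/
theorem measurable_Wh {s : ℕ} {A : Type} [MeasurableSpace A] {φ : A → X s → ℂ}
    (hφ : Measurable fun q : A × X s => φ q.1 q.2) (m : ℕ → ℤ) :
    Measurable fun q : A × X s => Wh s (φ q.1) m q.2 := by
  exact FCoe_meas_Wh s A inferInstance m φ hφ

end Pool.Agent.GL74
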