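import Pool.Agent.W_7742x_h74.HOne

/-! # Whittaker functions of Hecke operators

Induction on the size.  Size `1`: `Hk p ∅ φ = φ`, `Hk p {0} φ g = φ (p g)`, `Wh 1 φ m t = φ t`.
Size `s + 2`: `Wh (s+2) (Hk p S φ) m t = Wh (s+1) (coef (E (m 0)) (Hk p S φ) (t 0)) (m (· + 1))
(lr t)`; by the four cases of `HOne` the function `coef (E (m 0)) (Hk p S φ) (t 0)` is `0` or
`p^c * Hk p (tl S) (coef (E m') φ (v'))`, and the induction hypothesis applies to
`coef (E m') φ v'` (`isP_coef`).  Use linearity of `Wh` (`Wh_const_mul`, `Wh_zero`),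
`shm p S m (i + 1) = shm p (tl S) (m (· + 1)) i`, `cS S = [0 ∈ S] (s + 1 - |tl S|) + cS (tl S)`,
`dg p S t 0 = t 0` or `p • t 0`, `lr (dg p S t) = dg p (tl S) (lr t)`, and
`okm p S m ↔ (0 ∉ S → 0 ∈ tl S → p ∣ m 0) ∧ okm p (tl S) (m (· + 1))`. -/

set_option autoImplicit false

noncomputable section

namespace Pool.Agent.GL74

open MeasureTheory
open scoped ENNReal MatrixGroups

/-- Divisibility condition. -/
def okm {n : ℕ} (p : ℕ) (S : Finset (Fin n)) (m : ℕ → ℤ) : Prop :=
  ∀ i j : Fin n, (j : ℕ) = (i : ℕ) + 1 → i ∉ S → j ∈ S → (p : ℤ) ∣ m i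

open Classical in
/-- The shifted parameters. -/
def shm {n : ℕ} (p : ℕ) (S : Finset (Fin n)) (m : ℕ → ℤ) : ℕ → ℤ := fun i =>
  if h : i + 1 < n then
    (if (⟨i, by omega⟩ : Fin n) ∈ S then (if (⟨i + 1, h⟩ : Fin n) ∈ S then m i else p * m i)
    else (if (⟨i + 1, h⟩ : Fin n) ∈ S then m i / p else m i))
  else m i

/-- The exponent. -/
def cS {n : ℕ} (S : Finset (Fin n)) : ℕ :=
  ((Finset.univ : Finset (Fin n × Fin n)).filter fun q => q.2 < q.1 ∧ q.2 ∈ S ∧ q.1 ∉ S).card

/-- Multiplication of the rows in `S` by `p`. -/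
def dg {n : ℕ} (p : ℕ) (S : Finset (Fin n)) (t : X n) : X n :=
  fun i j => if i ∈ S then (p : ℝ) * t i j else t i j

theorem HInd_coef_mul {s : ℕ} (c : ℂ) (φ : X (s + 1) → ℂ) (w : Fin s → ℤ) (v : Fin (s + 1) → ℝ) :
    coef w (fun g => c * φ g) v = fun h => c * coef w φ v h := by
  funext h
  unfold coef
  rw [← integral_const_mul]
  congr 1
  funext θ
  ring

theorem HInd_fin (i j : Fin (0 + 1)) : i = j := by
  apply Fin.ext
  have h1 := i.isLt
  have h2 := j.isLt
  omega

theorem HInd_succ {s : ℕ} (φ : X (s + 1) → ℂ) (m : ℕ → ℤ) (t : X (s + 1)) :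
    Wh (s + 1) φ m t = Wh s (coef (E s (m 0)) φ (t 0)) (fun i => m (i + 1)) (lr t) := rfl

theorem Wh_const_mul {s : ℕ} (c : ℂ) (φ : X s → ℂ) (m : ℕ → ℤ) (t : X s) :
    Wh s (fun g => c * φ g) m t = c * Wh s φ m t := by
  induction s generalizing m with
  | zero => rfl
  | succ s ih =>
    rw [HInd_succ, HInd_succ, HInd_coef_mul, ih]

theorem HInd_zero_fun {s : ℕ} (m : ℕ → ℤ) (t : X s) : Wh s (fun _ => 0) m t = 0 := by
  have h := Wh_const_mul 0 (fun _ : X s => (0 : ℂ)) m t
  simpa using h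

theorem HInd_one (φ : X 1 → ℂ) (m : ℕ → ℤ) (t : X 1) : Wh 1 φ m t = φ t := by
  show coef (E 0 (m 0)) φ (t 0) (lr t) = φ t
  unfold coef
  rw [integral_unique]
  have h1 : (Measure.restrict (volume : Measure (Fin 0 → ℝ))
      (Set.Icc (0 : Fin 0 → ℝ) 1)).real Set.univ = 1 := by
    rw [measureReal_restrict_apply MeasurableSet.univ, Set.univ_inter, Measure.real,
      Real.volume_Icc_pi]
    simp
  have h2 : ∀ d : Fin 0 → ℝ, glue (lr t) (t 0 0 • d) (t 0) = t := by
    intro d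
    funext i j
    have hi : i = 0 := HInd_fin _ _
    subst hi
    rfl
  rw [h1, h2]
  simp [e]

theorem HInd_Hk_one (φ : X 1 → ℂ) (p : ℕ) (S : Finset (Fin 1)) (t : X 1) :
    Hk p S φ t = φ (dg p S t) := by
  unfold Hk
  have h1 : ∀ b ∈ bs p S, φ (lm (dl p S b) t) = φ (dg p S t) := by
    intro b _
    congr 1
    funext i j
    have hi : i = 0 := HInd_fin _ _
    subst hi
    unfold lm dl dg
    simp only [Fin.sum_univ_one, Matrix.of_apply, if_true]
    split_ifs
    · rfl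
    · rw [one_mul]
  rw [Finset.sum_congr rfl h1, Finset.sum_const]
  have h2 : (bs p S).card = 1 := by
    unfold bs
    rw [Fintype.card_piFinset]
    apply Finset.prod_eq_one
    intro i _
    rw [Fintype.card_piFinset]
    apply Finset.prod_eq_one
    intro j _
    have hij : ¬ j < i := by
      have : i = j := HInd_fin _ _
      rw [this]
      exact lt_irrefl _
    rw [if_neg (fun h => hij h.1), Finset.card_singleton]
  rw [h2, one_smul]

theorem HInd_okm {s : ℕ} (p : ℕ) (S : Finset (Fin (s + 2))) (m : ℕ → ℤ) :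
    okm p S m ↔ ((0 : Fin (s + 2)) ∉ S → (0 : Fin (s + 1)) ∈ tl S → (p : ℤ) ∣ m 0) ∧
      okm p (tl S) (fun i => m (i + 1)) := by
  constructor
  · intro h
    refine ⟨fun h0 h1 => ?_, fun i j hij hi hj => ?_⟩
    · exact h 0 (Fin.succ 0) (by simp) h0 (XDl_mem_tl.1 h1)
    · have := h i.succ j.succ (by simp [hij]) (mt XDl_mem_tl.2 hi) (XDl_mem_tl.1 hj)
      simpa using this
  · rintro ⟨h1, h2⟩ i j hij hi hj
    revert hij hi
    refine Fin.cases (fun hij hi => ?_) (fun i hij hi => ?_) i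
    · have hj1 : j = Fin.succ 0 := by
        apply Fin.ext
        simpa using hij
      rw [hj1] at hj
      exact h1 hi (XDl_mem_tl.2 hj)
    · revert hj hij
      refine Fin.cases (fun hj hij => ?_) (fun j hj hij => ?_) j
      · simp at hij
      · have h3 := h2 i j (by simpa using hij) (mt XDl_mem_tl.1 hi) (XDl_mem_tl.2 hj)
        simpa using h3

theorem HInd_shm {s : ℕ} (p : ℕ) (S : Finset (Fin (s + 2))) (m : ℕ → ℤ) :
    (fun i => shm p S m (i + 1)) = shm p (tl S) (fun i => m (i + 1)) := by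
  funext i
  unfold shm
  by_cases h : i + 1 < s + 1
  · have h' : i + 1 + 1 < s + 2 := by omega
    rw [dif_pos h, dif_pos h']
    have e1 : (⟨i, by omega⟩ : Fin (s + 1)) ∈ tl S ↔ (⟨i + 1, by omega⟩ : Fin (s + 2)) ∈ S :=
      XDl_mem_tl
    have e2 : (⟨i + 1, h⟩ : Fin (s + 1)) ∈ tl S ↔ (⟨i + 1 + 1, h'⟩ : Fin (s + 2)) ∈ S :=
      XDl_mem_tl
    simp only [e1, e2]
  · have h' : ¬ i + 1 + 1 < s + 2 := by omega
    rw [dif_neg h, dif_neg h']

theorem HInd_shm0 {s : ℕ} (p : ℕ) (S : Finset (Fin (s + 2))) (m : ℕ → ℤ) :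
    shm p S m 0 = if (0 : Fin (s + 2)) ∈ S then
      (if (0 : Fin (s + 1)) ∈ tl S then m 0 else p * m 0)
      else (if (0 : Fin (s + 1)) ∈ tl S then m 0 / p else m 0) := by
  unfold shm
  have h : 0 + 1 < s + 2 := by omega
  rw [dif_pos h]
  have e1 : (⟨0, by omega⟩ : Fin (s + 2)) ∈ S ↔ (0 : Fin (s + 2)) ∈ S := Iff.rfl
  have e2 : (⟨0 + 1, h⟩ : Fin (s + 2)) ∈ S ↔ (0 : Fin (s + 1)) ∈ tl S :=
    (XDl_mem_tl (S := S) (i := (0 : Fin (s + 1)))).symm
  simp only [e1, e2]

theorem HInd_dg0 {s : ℕ} (p : ℕ) (S : Finset (Fin (s + 1))) (t : X (s + 1)) :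
    dg p S t 0 = if (0 : Fin (s + 1)) ∈ S then (p : ℝ) • t 0 else t 0 := by
  funext j
  unfold dg
  split_ifs <;> rfl

theorem HInd_lr {s : ℕ} (p : ℕ) (S : Finset (Fin (s + 1))) (t : X (s + 1)) :
    lr (dg p S t) = dg p (tl S) (lr t) := by
  funext i j
  unfold lr dg
  simp only [XDl_mem_tl]

theorem HInd_cS {s : ℕ} (S : Finset (Fin (s + 1))) :
    cS S = (if (0 : Fin (s + 1)) ∈ S then s - (tl S).card else 0) + cS (tl S) := by
  classical
  unfold cS
  rw [Finset.card_filter, Finset.card_filter, Fintype.sum_prod_type, Fintype.sum_prod_type,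
    Fin.sum_univ_succ]
  have h0 : ∑ y : Fin (s + 1), (if y < (0 : Fin (s + 1)) ∧ y ∈ S ∧ (0 : Fin (s + 1)) ∉ S
      then 1 else 0) = 0 := by
    apply Finset.sum_eq_zero
    intro y _
    rw [if_neg (fun h => absurd h.1 (Fin.not_lt_zero y))]
  rw [h0, zero_add]
  have h1 : ∀ i : Fin s, ∑ y : Fin (s + 1), (if y < i.succ ∧ y ∈ S ∧ i.succ ∉ S then 1 else 0) =
      (if (0 : Fin (s + 1)) ∈ S ∧ i ∉ tl S then 1 else 0) +
        ∑ y : Fin s, (if y < i ∧ y ∈ tl S ∧ i ∉ tl S then 1 else 0) := by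
    intro i
    rw [Fin.sum_univ_succ]
    simp only [XDl_mem_tl, Fin.succ_pos, true_and, Fin.succ_lt_succ_iff]
  rw [Finset.sum_congr rfl fun i _ => h1 i, Finset.sum_add_distrib]
  congr 1
  split_ifs with h
  · simp only [h, true_and]
    rw [← Finset.card_filter, Finset.filter_not, Finset.filter_mem_eq_inter, Finset.univ_inter,
      ← Finset.compl_eq_univ_sdiff, Finset.card_compl, Fintype.card_fin]
  · simp [h]

open Classical in
theorem Wh_Hk {s : ℕ} {φ : X (s + 1) → ℂ} (hφ : IsP φ) {p : ℕ} (hp : p.Prime)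
    (S : Finset (Fin (s + 1))) (m : ℕ → ℤ) {t : X (s + 1)} (ht : ∀ i, t i i ≠ 0) :
    Wh (s + 1) (Hk p S φ) m t =
      if okm p S m then (p : ℂ) ^ cS S * Wh (s + 1) φ (shm p S m) (dg p S t) else 0 := by
  induction s generalizing m with
  | zero =>
    have h1 : okm p S m := by
      intro i j hij
      have hi : i = 0 := HInd_fin _ _
      have hj : j = 0 := HInd_fin _ _
      rw [hi, hj] at hij
      exact absurd hij (by simp)
    have h2 : cS S = 0 := by
      unfold cS
      rw [Finset.card_eq_zero, Finset.filter_eq_empty_iff]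
      rintro ⟨i, j⟩ _ ⟨h3, _⟩
      have : i = j := HInd_fin _ _
      rw [this] at h3
      exact lt_irrefl _ h3
    rw [if_pos h1, h2, pow_zero, one_mul, HInd_one, HInd_one, HInd_Hk_one]
  | succ s ih =>
    have hv : t 0 0 ≠ 0 := ht 0
    have hp0 : (p : ℝ) ≠ 0 := by exact_mod_cast hp.ne_zero
    have hpv : ((p : ℝ) • t 0) 0 ≠ 0 := by
      rw [Pi.smul_apply, smul_eq_mul]
      exact mul_ne_zero hp0 hv
    have htl : ∀ i, lr t i i ≠ 0 := fun i => ht i.succ
    rw [HInd_succ (Hk p S φ) m t, HInd_succ φ (shm p S m) (dg p S t), HInd_shm, HInd_lr,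
      HInd_shm0, HInd_dg0, HInd_cS]
    by_cases h0 : (0 : Fin (s + 2)) ∈ S
    · by_cases h1 : (0 : Fin (s + 1)) ∈ tl S
      · have e1 : coef (E (s + 1) (m 0)) (Hk p S φ) (t 0) = fun h =>
            (p : ℂ) ^ (s + 1 - (tl S).card) *
              Hk p (tl S) (coef (E (s + 1) (m 0)) φ ((p : ℝ) • t 0)) h := by
          funext h
          exact coef_Hk_mm hφ hp h0 h1 (m 0) hv h
        have e2 : okm p S m ↔ okm p (tl S) (fun i => m (i + 1)) := by
          rw [HInd_okm]
          exact ⟨fun h => h.2, fun h => ⟨fun h' => absurd h0 h', h⟩⟩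
        rw [e1, Wh_const_mul, ih (isP_coef hφ (m 0) hpv) (tl S) _ htl, if_pos h0, if_pos h0,
          if_pos h0, if_pos h1]
        by_cases h2 : okm p (tl S) (fun i => m (i + 1))
        · rw [if_pos h2, if_pos (e2.2 h2), pow_add]
          ring
        · rw [if_neg h2, if_neg (fun h => h2 (e2.1 h)), mul_zero]
      · have e1 : coef (E (s + 1) (m 0)) (Hk p S φ) (t 0) = fun h =>
            (p : ℂ) ^ (s + 1 - (tl S).card) *
              Hk p (tl S) (coef (E (s + 1) (p * m 0)) φ ((p : ℝ) • t 0)) h := by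
          funext h
          exact coef_Hk_mn hφ hp h0 h1 (m 0) hv h
        have e2 : okm p S m ↔ okm p (tl S) (fun i => m (i + 1)) := by
          rw [HInd_okm]
          exact ⟨fun h => h.2, fun h => ⟨fun h' => absurd h0 h', h⟩⟩
        rw [e1, Wh_const_mul, ih (isP_coef hφ (p * m 0) hpv) (tl S) _ htl, if_pos h0, if_pos h0,
          if_pos h0, if_neg h1]
        by_cases h2 : okm p (tl S) (fun i => m (i + 1))
        · rw [if_pos h2, if_pos (e2.2 h2), pow_add]
          ring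
        · rw [if_neg h2, if_neg (fun h => h2 (e2.1 h)), mul_zero]
    · by_cases h1 : (0 : Fin (s + 1)) ∈ tl S
      · by_cases h3 : (p : ℤ) ∣ m 0
        · have e1 : coef (E (s + 1) (m 0)) (Hk p S φ) (t 0) =
              Hk p (tl S) (coef (E (s + 1) (m 0 / p)) φ (t 0)) := by
            funext h
            rw [coef_Hk_nm hφ hp h0 h1 (m 0) hv h, if_pos h3]
          have e2 : okm p S m ↔ okm p (tl S) (fun i => m (i + 1)) := by
            rw [HInd_okm]
            exact ⟨fun h => h.2, fun h => ⟨fun _ _ => h3, h⟩⟩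
          rw [e1, ih (isP_coef hφ (m 0 / p) hv) (tl S) _ htl, if_neg h0, if_neg h0,
            if_neg h0, if_pos h1, zero_add]
          by_cases h2 : okm p (tl S) (fun i => m (i + 1))
          · rw [if_pos h2, if_pos (e2.2 h2)]
          · rw [if_neg h2, if_neg (fun h => h2 (e2.1 h))]
        · have e1 : coef (E (s + 1) (m 0)) (Hk p S φ) (t 0) = fun _ => 0 := by
            funext h
            rw [coef_Hk_nm hφ hp h0 h1 (m 0) hv h, if_neg h3]
          have e2 : ¬ okm p S m := by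
            rw [HInd_okm]
            exact fun h => h3 (h.1 h0 h1)
          rw [e1, HInd_zero_fun, if_neg e2]
      · have e1 : coef (E (s + 1) (m 0)) (Hk p S φ) (t 0) =
            Hk p (tl S) (coef (E (s + 1) (m 0)) φ (t 0)) := by
          funext h
          exact coef_Hk_nn hφ hp h0 h1 (m 0) hv h
        have e2 : okm p S m ↔ okm p (tl S) (fun i => m (i + 1)) := by
          rw [HInd_okm]
          exact ⟨fun h => h.2, fun h => ⟨fun _ h' => absurd h' h1, h⟩⟩
        rw [e1, ih (isP_coef hφ (m 0) hv) (tl S) _ htl, if_neg h0, if_neg h0,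
          if_neg h0, if_neg h1, zero_add]
        by_cases h2 : okm p (tl S) (fun i => m (i + 1))
        · rw [if_pos h2, if_pos (e2.2 h2)]
        · rw [if_neg h2, if_neg (fun h => h2 (e2.1 h))]

end Pool.Agent.GL74
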