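import Pool.Agent.W_7742x_h74.XGlu

/-! # The Hecke matrices and `glue`

`bs p S` for `S ⊆ Fin (s+1)`: an element `b` is determined by its first column `b (i+1) 0`
(in `[0,p)` if `0 ∈ S` and `i ∉ tl S`, otherwise `0`) and its lower right part, an element of
`bs p (tl S)`; the first row is `0`.

* `sum_bs_notMem` (`0 ∉ S`): the first column is `0` too, so `bs p S ≃ bs p (tl S)`, and
  `dl p S b = (1 0; 0 δ')`, `δ' = dl p (tl S) b'`, acts by
  `lm (dl p S b) (glue h c v) = glue (lm δ' h) (δ' c) v`.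
* `sum_bs_mem` (`0 ∈ S`): `bs p S ≃ (columns) × bs p (tl S)`, `dl p S b = (p 0; b₁ δ')` acts by
  `glue h c v ↦ glue (lm δ' h) (v 0 • b₁ + δ' c) (p • v)` (the lower right block of the product is
  `b₁ i v (j+1) + (δ' h) i j + (δ' c) i v (j+1)/v 0 =
  (δ' h) i j + (v 0 b₁ i + (δ' c) i) (p v (j+1)) / (p v 0)`). -/

set_option autoImplicit false

noncomputable section

namespace Pool.Agent.GL74

open MeasureTheory
open scoped ENNReal MatrixGroups

/-- The columns `b` with entries in `[0,p)` outside `S` and `0` on `S`. -/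
def cols {s : ℕ} (p : ℕ) (S : Finset (Fin s)) : Finset (Fin s → ℕ) :=
  Fintype.piFinset fun i => if i ∉ S then Finset.range p else {0}

theorem XDl_mem_bs {n : ℕ} {p : ℕ} {S : Finset (Fin n)} {b : Fin n → Fin n → ℕ} :
    b ∈ bs p S ↔ ∀ i j, b i j ∈ (if j < i ∧ j ∈ S ∧ i ∉ S then Finset.range p else {0}) := by
  unfold bs
  simp only [Fintype.mem_piFinset]

theorem XDl_mem_cols {s : ℕ} {p : ℕ} {S : Finset (Fin s)} {b : Fin s → ℕ} :
    b ∈ cols p S ↔ ∀ i, b i ∈ (if i ∉ S then Finset.range p else {0}) := by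
  unfold cols
  simp only [Fintype.mem_piFinset]

/-- put the first column and the lower right block together -/
def XDl_mk {s : ℕ} (b₁ : Fin s → ℕ) (b' : Fin s → Fin s → ℕ) : Fin (s + 1) → Fin (s + 1) → ℕ :=
  Fin.cons 0 fun i => Fin.cons (b₁ i) (b' i)

theorem XDl_mem_tl {s : ℕ} {S : Finset (Fin (s + 1))} {i : Fin s} : i ∈ tl S ↔ i.succ ∈ S := by
  unfold tl
  simp

theorem XDl_mk_mem {s : ℕ} {p : ℕ} {S : Finset (Fin (s + 1))} {b₁ : Fin s → ℕ}
    {b' : Fin s → Fin s → ℕ}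
    (h1 : ∀ i : Fin s, b₁ i ∈ (if (0 : Fin (s + 1)) ∈ S ∧ i ∉ tl S then Finset.range p else {0}))
    (h2 : b' ∈ bs p (tl S)) : XDl_mk b₁ b' ∈ bs p S := by
  rw [XDl_mem_bs] at h2 ⊢
  intro i j
  refine Fin.cases ?_ (fun i => ?_) i
  · rw [if_neg (fun h => absurd h.1 (Fin.not_lt_zero j))]
    simp [XDl_mk]
  · refine Fin.cases ?_ (fun j => ?_) j
    · have := h1 i
      simp only [XDl_mem_tl] at this
      simpa only [XDl_mk, Fin.cons_succ, Fin.cons_zero, Fin.succ_pos, true_and] using this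
    · have := h2 i j
      simp only [XDl_mem_tl] at this
      simpa only [XDl_mk, Fin.cons_succ, Fin.succ_lt_succ_iff] using this

theorem XDl_left {s : ℕ} {p : ℕ} {S : Finset (Fin (s + 1))} {b : Fin (s + 1) → Fin (s + 1) → ℕ}
    (hb : b ∈ bs p S) : XDl_mk (fun i => b i.succ 0) (fun i j => b i.succ j.succ) = b := by
  rw [XDl_mem_bs] at hb
  funext i j
  refine Fin.cases ?_ (fun i => ?_) i
  · have := hb 0 j
    rw [if_neg (fun h => absurd h.1 (Fin.not_lt_zero j)), Finset.mem_singleton] at this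
    rw [this]
    simp [XDl_mk]
  · refine Fin.cases ?_ (fun j => ?_) j
    · simp [XDl_mk]
    · simp [XDl_mk]

theorem XDl_col {s : ℕ} {p : ℕ} {S : Finset (Fin (s + 1))} {b : Fin (s + 1) → Fin (s + 1) → ℕ}
    (hb : b ∈ bs p S) (i : Fin s) :
    b i.succ 0 ∈ (if (0 : Fin (s + 1)) ∈ S ∧ i ∉ tl S then Finset.range p else {0}) := by
  rw [XDl_mem_bs] at hb
  have := hb i.succ 0
  simp only [XDl_mem_tl]
  simpa only [Fin.succ_pos, true_and] using this

theorem XDl_lr {s : ℕ} {p : ℕ} {S : Finset (Fin (s + 1))} {b : Fin (s + 1) → Fin (s + 1) → ℕ}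
    (hb : b ∈ bs p S) : (fun i j => b i.succ j.succ : Fin s → Fin s → ℕ) ∈ bs p (tl S) := by
  rw [XDl_mem_bs] at hb ⊢
  intro i j
  have := hb i.succ j.succ
  simp only [XDl_mem_tl]
  simpa only [Fin.succ_lt_succ_iff] using this

theorem XDl_dl {s : ℕ} (p : ℕ) (S : Finset (Fin (s + 1))) (b₁ : Fin s → ℕ)
    (b' : Fin s → Fin s → ℕ) (d : ℝ) (hd : d = if (0 : Fin (s + 1)) ∈ S then (p : ℝ) else 1) :
    dl p S (XDl_mk b₁ b') = Matrix.of (Fin.cons (Fin.cons d 0)
      fun i => Fin.cons (b₁ i : ℝ) (dl p (tl S) b' i)) := by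
  ext i j
  refine Fin.cases ?_ (fun i => ?_) i
  · refine Fin.cases ?_ (fun j => ?_) j
    · simp [dl, hd]
    · simp [dl, XDl_mk, (Fin.succ_ne_zero j).symm]
  · refine Fin.cases ?_ (fun j => ?_) j
    · simp [dl, XDl_mk, Fin.succ_ne_zero i]
    · simp [dl, XDl_mk, XDl_mem_tl]

theorem sum_bs_notMem {s : ℕ} {M : Type} [AddCommMonoid M] (p : ℕ) {S : Finset (Fin (s + 1))}
    (h0 : (0 : Fin (s + 1)) ∉ S) (F : Matrix (Fin (s + 1)) (Fin (s + 1)) ℝ → M)
    (F' : Matrix (Fin s) (Fin s) ℝ → M)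
    (hF : ∀ A : Matrix (Fin s) (Fin s) ℝ, F (Matrix.of (Fin.cons (Fin.cons 1 0)
      fun i => Fin.cons 0 (A i))) = F' A) :
    ∑ b ∈ bs p S, F (dl p S b) = ∑ b ∈ bs p (tl S), F' (dl p (tl S) b) := by
  refine Finset.sum_nbij' (fun b i j => b i.succ j.succ) (fun b' => XDl_mk 0 b') ?_ ?_ ?_ ?_ ?_
  · intro b hb
    exact XDl_lr hb
  · intro b' hb'
    apply XDl_mk_mem _ hb'
    intro i
    rw [if_neg (fun h => h0 h.1)]
    simp
  · intro b hb
    have h1 : (fun i => b i.succ 0 : Fin s → ℕ) = 0 := by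
      funext i
      have := XDl_col hb i
      rw [if_neg (fun h => h0 h.1), Finset.mem_singleton] at this
      exact this
    have h2 := XDl_left hb
    rw [h1] at h2
    exact h2
  · intro b' hb'
    funext i j
    simp [XDl_mk]
  · intro b hb
    have h1 : (fun i => b i.succ 0 : Fin s → ℕ) = 0 := by
      funext i
      have := XDl_col hb i
      rw [if_neg (fun h => h0 h.1), Finset.mem_singleton] at this
      exact this
    have h2 := XDl_left hb
    rw [h1] at h2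
    rw [← hF]
    conv_lhs => rw [← h2]
    rw [XDl_dl p S 0 _ 1 (by rw [if_neg h0])]
    simp

theorem sum_bs_mem {s : ℕ} {M : Type} [AddCommMonoid M] (p : ℕ) {S : Finset (Fin (s + 1))}
    (h0 : (0 : Fin (s + 1)) ∈ S) (F : Matrix (Fin (s + 1)) (Fin (s + 1)) ℝ → M)
    (F' : (Fin s → ℕ) → Matrix (Fin s) (Fin s) ℝ → M)
    (hF : ∀ (b₁ : Fin s → ℕ) (A : Matrix (Fin s) (Fin s) ℝ),
      F (Matrix.of (Fin.cons (Fin.cons (p : ℝ) 0) fun i => Fin.cons (b₁ i : ℝ) (A i))) = F' b₁ A) :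
    ∑ b ∈ bs p S, F (dl p S b) =
      ∑ b₁ ∈ cols p (tl S), ∑ b ∈ bs p (tl S), F' b₁ (dl p (tl S) b) := by
  rw [← Finset.sum_product']
  refine Finset.sum_nbij' (fun b => (fun i => b i.succ 0, fun i j => b i.succ j.succ))
    (fun q => XDl_mk q.1 q.2) ?_ ?_ ?_ ?_ ?_
  · intro b hb
    rw [Finset.mem_product]
    refine ⟨?_, XDl_lr hb⟩
    rw [XDl_mem_cols]
    intro i
    have := XDl_col hb i
    simpa only [h0, true_and] using this
  · intro q hq
    rw [Finset.mem_product, XDl_mem_cols] at hq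
    apply XDl_mk_mem _ hq.2
    intro i
    have := hq.1 i
    simpa only [h0, true_and] using this
  · intro b hb
    exact XDl_left hb
  · intro q hq
    refine Prod.ext ?_ ?_
    · funext i
      simp [XDl_mk]
    · funext i j
      simp [XDl_mk]
  · intro b hb
    have h2 := XDl_left hb
    rw [← hF]
    conv_lhs => rw [← h2]
    rw [XDl_dl p S _ _ (p : ℝ) (by rw [if_pos h0])]

theorem lm_diag_glue {s : ℕ} (A : Matrix (Fin s) (Fin s) ℝ) (h : X s) (c : Fin s → ℝ)
    {v : Fin (s + 1) → ℝ} (hv : v 0 ≠ 0) :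
    lm (Matrix.of (Fin.cons (Fin.cons 1 0) fun i => Fin.cons 0 (A i))) (glue h c v) =
      glue (lm A h) (A.mulVec c) v := by
  funext i j
  refine Fin.cases ?_ (fun i => ?_) i
  · simp [lm, glue, Fin.sum_univ_succ]
  · refine Fin.cases ?_ (fun j => ?_) j
    · simp [lm, glue, Fin.sum_univ_succ, Matrix.mulVec, dotProduct]
    · simp only [lm, glue, Fin.sum_univ_succ, Matrix.mulVec, dotProduct, Matrix.of_apply,
        Fin.cons_succ, Fin.cons_zero, zero_mul, zero_add]
      rw [Finset.sum_mul, Finset.sum_div, ← Finset.sum_add_distrib]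
      refine Finset.sum_congr rfl fun k _ => ?_
      ring

theorem lm_p_glue {s : ℕ} (p : ℝ) (hp : p ≠ 0) (b₁ : Fin s → ℝ) (A : Matrix (Fin s) (Fin s) ℝ)
    (h : X s) (c : Fin s → ℝ) {v : Fin (s + 1) → ℝ} (hv : v 0 ≠ 0) :
    lm (Matrix.of (Fin.cons (Fin.cons p 0) fun i => Fin.cons (b₁ i) (A i))) (glue h c v) =
      glue (lm A h) (v 0 • b₁ + A.mulVec c) (p • v) := by
  funext i j
  refine Fin.cases ?_ (fun i => ?_) i
  · simp [lm, glue, Fin.sum_univ_succ]
  · refine Fin.cases ?_ (fun j => ?_) j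
    · simp [lm, glue, Fin.sum_univ_succ, Matrix.mulVec, dotProduct]
      ring
    · simp only [lm, glue, Fin.sum_univ_succ, Matrix.mulVec, dotProduct, Matrix.of_apply,
        Fin.cons_succ, Fin.cons_zero, Pi.add_apply, Pi.smul_apply, smul_eq_mul]
      have h1 : ∑ k, A i k * (h k j + c k * v j.succ / v 0) =
          (∑ k, A i k * h k j) + (∑ k, A i k * c k) * (v j.succ / v 0) := by
        rw [Finset.sum_mul, ← Finset.sum_add_distrib]
        refine Finset.sum_congr rfl fun k _ => ?_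
        ring
      rw [h1]
      field_simp
      ring

/-- The Hecke matrices are integral, lower triangular, with determinant `p ^ |S|`. -/
theorem dl_lower {n : ℕ} (p : ℕ) (S : Finset (Fin n)) {b : Fin n → Fin n → ℕ} (hb : b ∈ bs p S)
    {i j : Fin n} (hij : i < j) : dl p S b i j = 0 := by
  rw [XDl_mem_bs] at hb
  have := hb i j
  rw [if_neg (fun h => absurd h.1 (not_lt.mpr hij.le)), Finset.mem_singleton] at this
  simp [dl, hij.ne, this]

theorem det_dl {n : ℕ} (p : ℕ) (S : Finset (Fin n)) {b : Fin n → Fin n → ℕ} (hb : b ∈ bs p S) :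
    (dl p S b).det = (p : ℝ) ^ S.card := by
  rw [Matrix.det_of_lowerTriangular _ (fun i j hij => dl_lower p S hb hij)]
  simp [dl]

end Pool.Agent.GL74
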