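import Pool.Agent.W_7742x_h74.FCoe
import Pool.Agent.W_7742x_h74.XDl

/-! # Fourier coefficients of Hecke operators: one step

Let `v 0 ≠ 0`, `F(θ) = φ (glue h' (v 0 θ) v)` etc. (periodic), `δ' = dl p (tl S) b'` (integral,
lower triangular, `det ≠ 0`; the entry `δ'_00` is `p` if `0 ∈ tl S` and `1` otherwise, and
`(δ' θ)_0 = δ'_00 θ_0`).

`coef_diag`: for `ψ(g) = φ (lm (1 0; 0 δ') g)`,
`coef (E m) ψ v h = ∫_θ e (-m θ_0) φ (glue (lm δ' h) (v 0 δ' θ) v)` (`lm_diag_glue`).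
If `δ'_00 = 1` the integrand is `G (δ' θ)`, `G θ = e (-m θ_0) F θ`, so by `int_lin` it is
`coef (E m) φ v (lm δ' h)`.  If `δ'_00 = p` and `p ∣ m` it is `G (δ' θ)` with
`G θ = e (-(m/p) θ_0) F θ`.  If `δ'_00 = p` and `p ∤ m`, translate `θ` by `x = δ'⁻¹ e_0` (real
vector with `x_0 = 1/p`, `δ' x = e_0` integral): the integral is multiplied by `e (-m/p) ≠ 1`
(`int_shift` for the periodic function `θ ↦ e (-m θ_0) F (δ' θ)`), so it is `0`.

* `0 ∉ S`: sum over `b` (`sum_bs_notMem`).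
* `0 ∈ S`: by `sum_bs_mem` and `lm_p_glue`, `Hk p S φ` is the sum over `b'` and the columns
  `b₁ ∈ cols p (tl S)` of `φ (glue (lm δ' h) (v 0 • b₁ + δ' c) (p • v))`.  Modulo integral columns
  times `p v 0` (`IsP.inv` with `γ = 1`) this sum over `b₁` is `p ^ (-|tl S|)` times the sum over
  all `b ∈ [0,p)^{s+1}` of `φ (glue (lm δ' h) (v 0 • δ' b + δ' c) (p • v))`: `b ↦ δ' b mod p` maps
  `[0,p)^{s+1}` onto `cols p (tl S)` with fibres of `p ^ |tl S|` elements (for `i ∈ tl S`,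
  `(δ' b)_i = p b_i`; for `i ∉ tl S`, `(δ' b)_i = b_i + ∑_{j ∈ tl S} δ'_ij b_j`).  So with
  `ψ(g) = φ (lm (1 0; 0 δ') g)` (periodic in the first column),
  `coef (E m) (...) v h = p ^ (-|tl S|) ∑_b ∫_θ e (-m θ_0) ψ (glue h (v 0 (b + θ)) (p v))
   = p ^ (-|tl S|) p^{s+1} coef (E (p m)) ψ (p v) h` (`int_mul` for
  `G θ = e (-p m θ_0) ψ (glue h (p v 0 θ) (p v))`, `e (m b_0) = 1`), and `coef_diag`. -/

set_option autoImplicit false

noncomputable section

namespace Pool.Agent.GL74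

open MeasureTheory
open scoped ENNReal MatrixGroups

/-- The block matrix `(1 0; 0 A)`. -/
def dgM {s : ℕ} (A : Matrix (Fin s) (Fin s) ℝ) : Matrix (Fin (s + 1)) (Fin (s + 1)) ℝ :=
  Matrix.of (Fin.cons (Fin.cons 1 0) fun i => Fin.cons 0 (A i))

theorem HOne_e_add (x y : ℝ) : e (x + y) = e x * e y := by
  unfold e
  rw [← Complex.exp_add]
  congr 1
  push_cast
  ring

theorem HOne_e_int (n : ℤ) : e (n : ℝ) = 1 := by
  unfold e
  rw [Complex.exp_eq_one_iff]
  refine ⟨n, ?_⟩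
  push_cast
  ring

theorem HOne_e_norm (x : ℝ) : ‖e x‖ = 1 := by
  unfold e
  rw [Complex.norm_exp]
  simp

theorem HOne_e_ne {p : ℕ} (hp : p.Prime) {m : ℤ} (hm : ¬ (p : ℤ) ∣ m) :
    e (-((m : ℝ) * (1 / p))) ≠ 1 := by
  unfold e
  rw [Ne, Complex.exp_eq_one_iff]
  rintro ⟨n, hn⟩
  apply hm
  have hp0 : (p : ℂ) ≠ 0 := by exact_mod_cast hp.ne_zero
  have hpi : (2 * Real.pi * Complex.I : ℂ) ≠ 0 := Complex.two_pi_I_ne_zero
  have h1 : ((m : ℤ) : ℂ) = (((-n) * p : ℤ) : ℂ) := by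
    push_cast at hn ⊢
    have h2 : (2 * Real.pi * Complex.I : ℂ) * (-(m * (1 / p))) =
        (2 * Real.pi * Complex.I : ℂ) * n := by
      rw [hn]; ring
    have h3 := mul_left_cancel₀ hpi h2
    have h4 : (m : ℂ) = -(-(m * (1 / p))) * p := by
      field_simp
    rw [h4, h3]
  have h2 : m = (-n) * p := by exact_mod_cast h1
  exact ⟨-n, by rw [h2]; ring⟩

theorem HOne_E_sum {s : ℕ} (m : ℤ) (θ : Fin (s + 1) → ℝ) :
    ∑ i, (E (s + 1) m i : ℝ) * θ i = m * θ 0 := by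
  rw [Fin.sum_univ_succ]
  unfold E
  simp

/-- the integral Hecke matrix -/
def HOne_dlZ {n : ℕ} (p : ℕ) (S : Finset (Fin n)) (b : Fin n → Fin n → ℕ) :
    Matrix (Fin n) (Fin n) ℤ :=
  Matrix.of fun i j => if i = j then (if i ∈ S then (p : ℤ) else 1) else (b i j : ℤ)

theorem HOne_map {n : ℕ} (p : ℕ) (S : Finset (Fin n)) (b : Fin n → Fin n → ℕ) :
    (HOne_dlZ p S b).map (fun a : ℤ => (a : ℝ)) = dl p S b := by
  ext i j
  simp only [HOne_dlZ, dl, Matrix.map_apply, Matrix.of_apply]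
  split_ifs <;> simp

theorem HOne_det {n : ℕ} {p : ℕ} (hp : p.Prime) (S : Finset (Fin n)) {b : Fin n → Fin n → ℕ}
    (hb : b ∈ bs p S) : (HOne_dlZ p S b).det ≠ 0 := by
  intro h0
  have h1 : ((HOne_dlZ p S b).map (fun a : ℤ => (a : ℝ))).det = 0 := by
    have h2 := (RingHom.map_det (Int.castRingHom ℝ) (HOne_dlZ p S b)).symm
    rw [h0, map_zero] at h2
    exact h2
  rw [HOne_map, det_dl p S hb] at h1
  have : (p : ℝ) ≠ 0 := by exact_mod_cast hp.ne_zero
  exact pow_ne_zero _ this h1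

theorem HOne_row0 {s : ℕ} (p : ℕ) (S : Finset (Fin (s + 1)))
    {b : Fin (s + 1) → Fin (s + 1) → ℕ} (hb : b ∈ bs p S) (θ : Fin (s + 1) → ℝ) :
    (dl p S b).mulVec θ 0 = (if (0 : Fin (s + 1)) ∈ S then (p : ℝ) else 1) * θ 0 := by
  rw [Matrix.mulVec, dotProduct, Fin.sum_univ_succ, Finset.sum_eq_zero, add_zero]
  · simp [dl]
  · intro i _
    rw [dl_lower p S hb (Fin.succ_pos i), zero_mul]

theorem HOne_zr {n : ℕ} (A : Matrix (Fin n) (Fin n) ℤ) (ℓ : Fin n → ℤ) :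
    (A.map (fun a : ℤ => (a : ℝ))).mulVec (zr ℓ) = zr (A.mulVec ℓ) := by
  funext i
  simp [Matrix.mulVec, dotProduct, zr]

theorem HOne_per_comp {n : ℕ} {F : (Fin n → ℝ) → ℂ} (hF : IsPer F)
    (A : Matrix (Fin n) (Fin n) ℤ) :
    IsPer fun θ => F ((A.map (fun a : ℤ => (a : ℝ))).mulVec θ) where
  meas := by
    have h1 : Measurable fun θ : Fin n → ℝ => (A.map (fun a : ℤ => (a : ℝ))).mulVec θ := by
      refine measurable_pi_iff.2 fun i => ?_
      unfold Matrix.mulVec dotProduct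
      fun_prop
    exact hF.meas.comp h1
  bdd := by
    obtain ⟨C, hC⟩ := hF.bdd
    exact ⟨C, fun θ => hC _⟩
  per := by
    intro ℓ θ
    rw [Matrix.mulVec_add, HOne_zr, hF.per]

theorem HOne_int {n : ℕ} {F : (Fin n → ℝ) → ℂ} (hF : IsPer F) :
    Integrable F (volume.restrict (Set.Icc (0 : Fin n → ℝ) 1)) := by
  obtain ⟨C, hC⟩ := hF.bdd
  have : IsFiniteMeasure (volume.restrict (Set.Icc (0 : Fin n → ℝ) 1)) :=
    ⟨by rw [Measure.restrict_apply_univ]; exact isCompact_Icc.measure_lt_top⟩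
  exact Integrable.of_bound hF.meas.aestronglyMeasurable C (Filter.Eventually.of_forall hC)

theorem coef_diag {s : ℕ} {φ : X (s + 2) → ℂ} (hφ : IsP φ) {p : ℕ} (hp : p.Prime)
    (S' : Finset (Fin (s + 1))) {b : Fin (s + 1) → Fin (s + 1) → ℕ} (hb : b ∈ bs p S') (m : ℤ)
    {v : Fin (s + 2) → ℝ} (hv : v 0 ≠ 0) (h : X (s + 1)) :
    coef (E (s + 1) m) (fun g => φ (lm (dgM (dl p S' b)) g)) v h =
      if (0 : Fin (s + 1)) ∈ S' then
        (if (p : ℤ) ∣ m then coef (E (s + 1) (m / p)) φ v (lm (dl p S' b) h) else 0)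
      else coef (E (s + 1) m) φ v (lm (dl p S' b) h) := by
  set A := dl p S' b with hA
  set H : (Fin (s + 1) → ℝ) → ℂ := fun θ => φ (glue (lm A h) (v 0 • θ) v) with hH
  have hHper : IsPer H := isPer_glue hφ (lm A h) hv
  have hrow : ∀ θ, A.mulVec θ 0 = (if (0 : Fin (s + 1)) ∈ S' then (p : ℝ) else 1) * θ 0 :=
    fun θ => HOne_row0 p S' hb θ
  have h1 : coef (E (s + 1) m) (fun g => φ (lm (dgM A) g)) v h =
      ∫ θ in Set.Icc (0 : Fin (s + 1) → ℝ) 1, e (-((m : ℝ) * θ 0)) * H (A.mulVec θ) := by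
    unfold coef
    congr 1
    funext θ
    rw [HOne_E_sum]
    congr 1
    show φ (lm (dgM A) (glue h (v 0 • θ) v)) = φ (glue (lm A h) (v 0 • A.mulVec θ) v)
    rw [show lm (dgM A) (glue h (v 0 • θ) v) = glue (lm A h) (A.mulVec (v 0 • θ)) v from
      lm_diag_glue A h (v 0 • θ) hv, Matrix.mulVec_smul]
  have h2 : ∀ k : ℤ, ∫ θ in Set.Icc (0 : Fin (s + 1) → ℝ) 1,
      e (-((k : ℝ) * A.mulVec θ 0)) * H (A.mulVec θ) = coef (E (s + 1) k) φ v (lm A h) := by
    intro k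
    have h3 := int_lin (isPer_mul hHper (E (s + 1) k)) (HOne_dlZ p S' b) (HOne_det hp S' hb)
    rw [HOne_map] at h3
    simp only [HOne_E_sum] at h3
    rw [h3]
    unfold coef
    simp only [HOne_E_sum, hH]
  rw [h1]
  by_cases h0 : (0 : Fin (s + 1)) ∈ S'
  · rw [if_pos h0]
    by_cases hm : (p : ℤ) ∣ m
    · rw [if_pos hm]
      obtain ⟨k, rfl⟩ := hm
      have hp0 : (p : ℤ) ≠ 0 := by exact_mod_cast hp.ne_zero
      rw [Int.mul_ediv_cancel_left _ hp0, ← h2 k]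
      congr 1
      funext θ
      rw [hrow, if_pos h0]
      congr 2
      push_cast
      ring
    · rw [if_neg hm]
      have hpR : (p : ℝ) ≠ 0 := by exact_mod_cast hp.ne_zero
      have hdet : IsUnit A.det := by
        rw [hA, det_dl p S' hb]
        exact (pow_ne_zero _ hpR).isUnit
      obtain ⟨x, hx⟩ : ∃ x : Fin (s + 1) → ℝ, A.mulVec x = zr (Pi.single 0 1) :=
        ⟨A⁻¹.mulVec (zr (Pi.single 0 1)), by
          rw [Matrix.mulVec_mulVec, Matrix.mul_nonsing_inv _ hdet, Matrix.one_mulVec]⟩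
      have hx0 : x 0 = 1 / p := by
        have h4 := hrow x
        rw [hx, if_pos h0] at h4
        have h5 : zr (Pi.single (0 : Fin (s + 1)) (1 : ℤ)) 0 = 1 := by simp [zr]
        rw [h5] at h4
        field_simp
        linarith
      have hK : IsPer fun θ : Fin (s + 1) → ℝ => e (-((m : ℝ) * θ 0)) * H (A.mulVec θ) := by
        have h6 := isPer_mul (HOne_per_comp hHper (HOne_dlZ p S' b)) (E (s + 1) m)
        rw [HOne_map] at h6
        simpa only [HOne_E_sum] using h6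
      have h7 := int_shift hK x
      have h8 : ∀ θ : Fin (s + 1) → ℝ, e (-((m : ℝ) * (θ + x) 0)) * H (A.mulVec (θ + x)) =
          e (-((m : ℝ) * (1 / p))) * (e (-((m : ℝ) * θ 0)) * H (A.mulVec θ)) := by
        intro θ
        rw [Matrix.mulVec_add, hx, hHper.per, Pi.add_apply, hx0]
        have h9 : -((m : ℝ) * (θ 0 + 1 / p)) = -((m : ℝ) * (1 / p)) + -((m : ℝ) * θ 0) := by ring
        rw [h9, HOne_e_add, mul_assoc]
      simp only [h8] at h7
      rw [integral_const_mul] at h7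
      have h10 := HOne_e_ne hp hm
      generalize e (-((m : ℝ) * (1 / p))) = z at h7 h10
      generalize (∫ θ in Set.Icc (0 : Fin (s + 1) → ℝ) 1,
        e (-((m : ℝ) * θ 0)) * H (A.mulVec θ)) = I at h7 ⊢
      have h11 : (z - 1) * I = 0 := by linear_combination h7
      rcases mul_eq_zero.mp h11 with h12 | h12
      · exact absurd (sub_eq_zero.mp h12) h10
      · exact h12
  · rw [if_neg h0, ← h2 m]
    congr 1
    funext θ
    rw [hrow, if_neg h0, one_mul]

theorem HOne_mulVec {n : ℕ} (p : ℕ) (S : Finset (Fin n)) {b' : Fin n → Fin n → ℕ}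
    (hb' : b' ∈ bs p S) (b : Fin n → ℕ) (i : Fin n) :
    (dl p S b').mulVec (fun i => (b i : ℝ)) i =
      (if i ∈ S then (p : ℝ) else 1) * b i + ((∑ j, b' i j * b j : ℕ) : ℝ) := by
  rw [XDl_mem_bs] at hb'
  have hz1 : b' i i = 0 := by
    have := hb' i i
    rw [if_neg (fun h => lt_irrefl _ h.1), Finset.mem_singleton] at this
    exact this
  unfold Matrix.mulVec dotProduct
  have h1 : ∀ j, dl p S b' i j * (b j : ℝ) =
      (if i = j then (if i ∈ S then (p : ℝ) else 1) * b j else 0) + ((b' i j * b j : ℕ) : ℝ) := by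
    intro j
    unfold dl
    rw [Matrix.of_apply]
    by_cases hij : i = j
    · subst hij
      rw [if_pos rfl, if_pos rfl, hz1]
      simp
    · rw [if_neg hij, if_neg hij]
      push_cast
      ring
  simp only [h1]
  rw [Finset.sum_add_distrib, Finset.sum_ite_eq, if_pos (Finset.mem_univ i)]
  push_cast
  ring

theorem HOne_comb {n : ℕ} {p : ℕ} (hp : 0 < p) (S : Finset (Fin n)) {b' : Fin n → Fin n → ℕ}
    (hb' : b' ∈ bs p S) (K : (Fin n → ℝ) → ℂ)
    (hK : ∀ (ℓ : Fin n → ℤ) x, K (x + (p : ℝ) • zr ℓ) = K x) :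
    ∑ b ∈ Fintype.piFinset (fun _ : Fin n => Finset.range p),
        K ((dl p S b').mulVec fun i => (b i : ℝ)) =
      (p : ℂ) ^ S.card * ∑ c ∈ cols p S, K fun i => (c i : ℝ) := by
  classical
  have hb := hb'
  rw [XDl_mem_bs] at hb
  have hz2 : ∀ i ∈ S, ∀ j, b' i j = 0 := by
    intro i hi j
    have := hb i j
    rw [if_neg (fun h => h.2.2 hi), Finset.mem_singleton] at this
    exact this
  have hz3 : ∀ i j, j ∉ S → b' i j = 0 := by
    intro i j hj
    have := hb i j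
    rw [if_neg (fun h => hj h.2.1), Finset.mem_singleton] at this
    exact this
  have hcong : ∀ u w : Fin n → ℕ, (∀ j ∈ S, u j = w j) → ∀ i,
      ∑ j, b' i j * u j = ∑ j, b' i j * w j := by
    intro u w huw i
    refine Finset.sum_congr rfl fun j _ => ?_
    by_cases hj : j ∈ S
    · rw [huw j hj]
    · rw [hz3 i j hj, zero_mul, zero_mul]
  set U : Finset (Fin n → ℕ) := Fintype.piFinset fun i => if i ∈ S then Finset.range p else {0}
    with hU
  have hcard : (U.card : ℂ) = (p : ℂ) ^ S.card := by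
    rw [hU, Fintype.card_piFinset]
    have h1 : ∀ i : Fin n, (if i ∈ S then Finset.range p else {0}).card =
        if i ∈ S then p else 1 := by
      intro i
      split_ifs
      · exact Finset.card_range p
      · rfl
    simp only [h1]
    rw [Finset.prod_ite_mem, Finset.univ_inter, Finset.prod_const]
    push_cast
    rfl
  have hR : (p : ℂ) ^ S.card * ∑ c ∈ cols p S, K (fun i => (c i : ℝ)) =
      ∑ q ∈ U ×ˢ cols p S, K (fun i => (q.2 i : ℝ)) := by
    rw [Finset.sum_product]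
    dsimp only
    rw [Finset.sum_const, nsmul_eq_mul, hcard]
  rw [hR]
  have hmod : ∀ x y : ℕ, ((x + y) % p + (p - 1) * y) % p = x % p := by
    intro x y
    rw [Nat.mod_add_mod, add_assoc]
    have : y + (p - 1) * y = p * y := by
      obtain ⟨k, rfl⟩ : ∃ k, p = k + 1 := ⟨p - 1, by omega⟩
      rw [Nat.add_sub_cancel]
      ring
    rw [this, Nat.add_mul_mod_self_left]
  have hmod' : ∀ x y : ℕ, ((x + (p - 1) * y) % p + y) % p = x % p := by
    intro x y
    rw [Nat.mod_add_mod, add_assoc]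
    have : (p - 1) * y + y = p * y := by
      obtain ⟨k, rfl⟩ : ∃ k, p = k + 1 := ⟨p - 1, by omega⟩
      rw [Nat.add_sub_cancel]
      ring
    rw [this, Nat.add_mul_mod_self_left]
  refine Finset.sum_nbij'
    (fun b => (fun i => if i ∈ S then b i else 0,
      fun i => if i ∈ S then 0 else (b i + ∑ j, b' i j * b j) % p))
    (fun q i => if i ∈ S then q.1 i else (q.2 i + (p - 1) * ∑ j, b' i j * q.1 j) % p)
    ?_ ?_ ?_ ?_ ?_
  · intro b hb1
    rw [Fintype.mem_piFinset] at hb1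
    rw [Finset.mem_product, hU, Fintype.mem_piFinset, XDl_mem_cols]
    constructor
    · intro i
      dsimp only
      by_cases hi : i ∈ S
      · rw [if_pos hi, if_pos hi]
        exact hb1 i
      · rw [if_neg hi, if_neg hi]
        exact Finset.mem_singleton_self 0
    · intro i
      dsimp only
      by_cases hi : i ∈ S
      · rw [if_pos hi, if_neg (fun h => h hi)]
        exact Finset.mem_singleton_self 0
      · rw [if_neg hi, if_pos hi]
        exact Finset.mem_range.mpr (Nat.mod_lt _ hp)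
  · intro q hq
    rw [Finset.mem_product, hU, Fintype.mem_piFinset, XDl_mem_cols] at hq
    rw [Fintype.mem_piFinset]
    intro i
    by_cases hi : i ∈ S
    · rw [if_pos hi]
      have := hq.1 i
      rw [if_pos hi] at this
      exact this
    · rw [if_neg hi]
      exact Finset.mem_range.mpr (Nat.mod_lt _ hp)
  · intro b hb1
    rw [Fintype.mem_piFinset] at hb1
    funext i
    dsimp only
    by_cases hi : i ∈ S
    · rw [if_pos hi, if_pos hi]
    · rw [if_neg hi, if_neg hi,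
        hcong (fun i => if i ∈ S then b i else 0) b (fun j hj => if_pos hj) i, hmod,
        Nat.mod_eq_of_lt (Finset.mem_range.mp (hb1 i))]
  · intro q hq
    rw [Finset.mem_product, hU, Fintype.mem_piFinset, XDl_mem_cols] at hq
    refine Prod.ext ?_ ?_
    · funext i
      dsimp only
      by_cases hi : i ∈ S
      · rw [if_pos hi, if_pos hi]
      · rw [if_neg hi]
        have := hq.1 i
        rw [if_neg hi, Finset.mem_singleton] at this
        exact this.symm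
    · funext i
      dsimp only
      by_cases hi : i ∈ S
      · rw [if_pos hi]
        have := hq.2 i
        rw [if_neg (fun h => h hi), Finset.mem_singleton] at this
        exact this.symm
      · rw [if_neg hi, if_neg hi,
          hcong _ q.1 (fun j hj => if_pos hj) i, hmod']
        have := hq.2 i
        rw [if_pos hi, Finset.mem_range] at this
        exact Nat.mod_eq_of_lt this
  · intro b hb1
    dsimp only
    conv_rhs =>
      rw [← hK (fun i => if i ∈ S then (b i : ℤ) else (((b i + ∑ j, b' i j * b j) / p : ℕ) : ℤ))]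
    congr 1
    funext i
    rw [HOne_mulVec p S hb']
    simp only [Pi.add_apply, Pi.smul_apply, smul_eq_mul, zr]
    by_cases hi : i ∈ S
    · rw [if_pos hi, if_pos hi, if_pos hi]
      have h1 : ∑ j, b' i j * b j = 0 := Finset.sum_eq_zero fun j _ => by
        rw [hz2 i hi j, zero_mul]
      rw [h1]
      push_cast
      ring
    · rw [if_neg hi, if_neg hi, if_neg hi, one_mul]
      have h1 := Nat.mod_add_div (b i + ∑ j, b' i j * b j) p
      have h2 : ((b i : ℝ) + ((∑ j, b' i j * b j : ℕ) : ℝ)) =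
          ((b i + ∑ j, b' i j * b j : ℕ) : ℝ) := by push_cast; rfl
      rw [h2]
      rw [Int.cast_natCast, ← Nat.cast_mul, ← Nat.cast_add, h1]

theorem HOne_intg {s : ℕ} {φ : X (s + 2) → ℂ} (hφ : IsP φ) (m : ℤ)
    (f : (Fin (s + 1) → ℝ) → X (s + 2)) (hf : Measurable f) :
    Integrable (fun θ : Fin (s + 1) → ℝ => e (-((m : ℝ) * θ 0)) * φ (f θ))
      (volume.restrict (Set.Icc (0 : Fin (s + 1) → ℝ) 1)) := by
  obtain ⟨C, hC⟩ := hφ.bdd
  have : IsFiniteMeasure (volume.restrict (Set.Icc (0 : Fin (s + 1) → ℝ) 1)) :=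
    ⟨by rw [Measure.restrict_apply_univ]; exact isCompact_Icc.measure_lt_top⟩
  have he : Measurable e := by
    unfold e
    fun_prop
  have h1 : Measurable fun θ : Fin (s + 1) → ℝ => e (-((m : ℝ) * θ 0)) * φ (f θ) := by
    refine Measurable.mul (he.comp ?_) (hφ.meas.comp hf)
    fun_prop
  refine Integrable.of_bound h1.aestronglyMeasurable C (Filter.Eventually.of_forall fun θ => ?_)
  rw [norm_mul, HOne_e_norm, one_mul]
  exact hC _

theorem HOne_meas_glue {s : ℕ} (h : X (s + 1)) (v : Fin (s + 2) → ℝ)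
    {c : (Fin (s + 1) → ℝ) → (Fin (s + 1) → ℝ)} (hc : Measurable c) :
    Measurable fun θ : Fin (s + 1) → ℝ => glue h (c θ) v :=
  measurable_glue.comp ((measurable_const.prodMk hc).prodMk measurable_const)

theorem HOne_meas_mulVec {n : ℕ} (A : Matrix (Fin n) (Fin n) ℝ) :
    Measurable fun θ : Fin n → ℝ => A.mulVec θ := by
  refine measurable_pi_iff.2 fun i => ?_
  unfold Matrix.mulVec dotProduct
  fun_prop

theorem HOne_diag {s : ℕ} (φ : X (s + 2) → ℂ) (A : Matrix (Fin (s + 1)) (Fin (s + 1)) ℝ) (m : ℤ)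
    {v : Fin (s + 2) → ℝ} (hv : v 0 ≠ 0) (h : X (s + 1)) :
    coef (E (s + 1) m) (fun g => φ (lm (dgM A) g)) v h =
      ∫ θ in Set.Icc (0 : Fin (s + 1) → ℝ) 1,
        e (-((m : ℝ) * θ 0)) * φ (glue (lm A h) (v 0 • A.mulVec θ) v) := by
  unfold coef
  congr 1
  funext θ
  rw [HOne_E_sum]
  congr 1
  show φ (lm (dgM A) (glue h (v 0 • θ) v)) = φ (glue (lm A h) (v 0 • A.mulVec θ) v)
  rw [show lm (dgM A) (glue h (v 0 • θ) v) = glue (lm A h) (A.mulVec (v 0 • θ)) v from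
    lm_diag_glue A h (v 0 • θ) hv, Matrix.mulVec_smul]

theorem HOne_notMem {s : ℕ} {φ : X (s + 2) → ℂ} (hφ : IsP φ) (p : ℕ)
    {S : Finset (Fin (s + 2))} (h0 : (0 : Fin (s + 2)) ∉ S) (m : ℤ)
    {v : Fin (s + 2) → ℝ} (h : X (s + 1)) :
    coef (E (s + 1) m) (Hk p S φ) v h =
      ∑ b ∈ bs p (tl S), coef (E (s + 1) m) (fun g => φ (lm (dgM (dl p (tl S) b)) g)) v h := by
  have h1 : Hk p S φ = fun g => ∑ b ∈ bs p (tl S), φ (lm (dgM (dl p (tl S) b)) g) := by
    funext g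
    exact sum_bs_notMem p h0 (fun B => φ (lm B g)) (fun A => φ (lm (dgM A) g)) (fun A => rfl)
  rw [h1]
  unfold coef
  simp only [HOne_E_sum, Finset.mul_sum]
  rw [integral_finsetSum]
  intro b _
  exact HOne_intg hφ m (fun θ => lm (dgM (dl p (tl S) b)) (glue h (v 0 • θ) v))
    ((measurable_lm _).comp (HOne_meas_glue h v (by fun_prop)))

theorem HOne_mem {s : ℕ} {φ : X (s + 2) → ℂ} (hφ : IsP φ) {p : ℕ} (hp : p.Prime)
    {S : Finset (Fin (s + 2))} (h0 : (0 : Fin (s + 2)) ∈ S) (m : ℤ)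
    {v : Fin (s + 2) → ℝ} (hv : v 0 ≠ 0) (h : X (s + 1)) :
    coef (E (s + 1) m) (Hk p S φ) v h = (p : ℂ) ^ (s + 1 - (tl S).card) *
      ∑ b ∈ bs p (tl S), coef (E (s + 1) (p * m))
        (fun g => φ (lm (dgM (dl p (tl S) b)) g)) ((p : ℝ) • v) h := by
  have hpR : (p : ℝ) ≠ 0 := by exact_mod_cast hp.ne_zero
  have hpC : (p : ℂ) ≠ 0 := by exact_mod_cast hp.ne_zero
  set v' : Fin (s + 2) → ℝ := (p : ℝ) • v with hv'
  have hv0 : v' 0 = p * v 0 := rfl
  have hv'0 : v' 0 ≠ 0 := by rw [hv0]; exact mul_ne_zero hpR hv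
  set H : (Fin (s + 1) → Fin (s + 1) → ℕ) → (Fin (s + 1) → ℝ) → ℂ :=
    fun b θ => φ (glue (lm (dl p (tl S) b) h) (v' 0 • θ) v') with hH
  have hHper : ∀ b, IsPer (H b) := fun b => isPer_glue hφ _ hv'0
  -- the integrand
  have h1 : ∀ θ : Fin (s + 1) → ℝ, Hk p S φ (glue h (v 0 • θ) v) =
      ∑ c ∈ cols p (tl S), ∑ b ∈ bs p (tl S),
        H b ((p : ℝ)⁻¹ • ((fun i => (c i : ℝ)) + (dl p (tl S) b).mulVec θ)) := by
    intro θ
    have h2 := sum_bs_mem p h0 (fun B => φ (lm B (glue h (v 0 • θ) v)))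
      (fun c A => φ (glue (lm A h) (v 0 • (fun i => (c i : ℝ)) + A.mulVec (v 0 • θ)) v'))
      (fun c A => by
        have h3 := lm_p_glue (p : ℝ) hpR (fun i => (c i : ℝ)) A h (v 0 • θ) hv
        beta_reduce at h3 ⊢
        rw [h3])
    refine Eq.trans h2 (Finset.sum_congr rfl fun c _ => Finset.sum_congr rfl fun b _ => ?_)
    rw [hH]
    beta_reduce
    congr 2
    rw [Matrix.mulVec_smul, ← smul_add, smul_smul, hv0]
    congr 1
    field_simp
  have hmeas : ∀ b (y : Fin (s + 1) → ℝ), Integrable (fun θ : Fin (s + 1) → ℝ =>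
      e (-((m : ℝ) * θ 0)) * H b ((p : ℝ)⁻¹ • (y + (dl p (tl S) b).mulVec θ)))
      (volume.restrict (Set.Icc (0 : Fin (s + 1) → ℝ) 1)) := by
    intro b y
    refine HOne_intg hφ m (fun θ => glue (lm (dl p (tl S) b) h)
      (v' 0 • ((p : ℝ)⁻¹ • (y + (dl p (tl S) b).mulVec θ))) v') (HOne_meas_glue _ _ ?_)
    have h4 := HOne_meas_mulVec (dl p (tl S) b)
    fun_prop
  set K : (Fin (s + 1) → Fin (s + 1) → ℕ) → (Fin (s + 1) → ℝ) → ℂ := fun b y =>
    ∫ θ in Set.Icc (0 : Fin (s + 1) → ℝ) 1,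
      e (-((m : ℝ) * θ 0)) * H b ((p : ℝ)⁻¹ • (y + (dl p (tl S) b).mulVec θ)) with hK
  have h5 : coef (E (s + 1) m) (Hk p S φ) v h =
      ∑ b ∈ bs p (tl S), ∑ c ∈ cols p (tl S), K b (fun i => (c i : ℝ)) := by
    unfold coef
    simp only [HOne_E_sum, h1, Finset.mul_sum]
    rw [integral_finsetSum]
    · rw [Finset.sum_comm]
      refine Finset.sum_congr rfl fun c _ => ?_
      rw [integral_finsetSum]
      intro b _
      exact hmeas b _
    · intro c _
      exact integrable_finsetSum _ fun b _ => hmeas b _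
  have hKper : ∀ b (ℓ : Fin (s + 1) → ℤ) x, K b (x + (p : ℝ) • zr ℓ) = K b x := by
    intro b ℓ x
    rw [hK]
    beta_reduce
    congr 1
    funext θ
    congr 1
    have : x + (p : ℝ) • zr ℓ + (dl p (tl S) b).mulVec θ =
        (x + (dl p (tl S) b).mulVec θ) + (p : ℝ) • zr ℓ := by abel
    rw [this, smul_add _ (x + (dl p (tl S) b).mulVec θ), smul_smul, inv_mul_cancel₀ hpR, one_smul,
      (hHper b).per]
  rw [h5, Finset.mul_sum]
  refine Finset.sum_congr rfl fun b hb => ?_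
  rw [HOne_diag φ (dl p (tl S) b) (p * m) hv'0 h]
  have h6 := HOne_comb hp.pos (tl S) hb (K b) (hKper b)
  have hG : IsPer fun θ : Fin (s + 1) → ℝ =>
      e (-(((p * m : ℤ) : ℝ) * θ 0)) * H b ((dl p (tl S) b).mulVec θ) := by
    have h7 := isPer_mul (HOne_per_comp (hHper b) (HOne_dlZ p (tl S) b)) (E (s + 1) (p * m))
    rw [HOne_map] at h7
    simpa only [HOne_E_sum] using h7
  have h8 := int_mul hG hp.pos
  have h9 : ∀ c : Fin (s + 1) → ℕ, K b ((dl p (tl S) b).mulVec fun i => (c i : ℝ)) =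
      ∫ θ in Set.Icc (0 : Fin (s + 1) → ℝ) 1,
        (fun θ : Fin (s + 1) → ℝ => e (-(((p * m : ℤ) : ℝ) * θ 0)) *
          H b ((dl p (tl S) b).mulVec θ)) (fun i => ((c i : ℝ) + θ i) / p) := by
    intro c
    rw [hK]
    beta_reduce
    congr 1
    funext θ
    have h10 : (fun i => ((c i : ℝ) + θ i) / p) = (p : ℝ)⁻¹ • ((fun i => (c i : ℝ)) + θ) := by
      funext i
      simp only [Pi.smul_apply, Pi.add_apply, smul_eq_mul]
      field_simp
    rw [h10, Matrix.mulVec_smul, Matrix.mulVec_add]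
    congr 1
    have h11 : -(((p * m : ℤ) : ℝ) * (((c 0 : ℝ) + θ 0) / p)) =
        -((m : ℝ) * θ 0) + ((-(m * (c 0 : ℤ)) : ℤ) : ℝ) := by
      push_cast
      field_simp
      ring
    rw [h11, HOne_e_add, HOne_e_int, mul_one]
  rw [Finset.sum_congr rfl fun c _ => h9 c, h8] at h6
  have h12 : (p : ℂ) ^ (s + 1) = (p : ℂ) ^ (tl S).card * (p : ℂ) ^ (s + 1 - (tl S).card) := by
    rw [← pow_add]
    congr 1
    have : (tl S).card ≤ s + 1 := by
      have := Finset.card_le_univ (tl S)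
      rwa [Fintype.card_fin] at this
    omega
  rw [h12, mul_assoc] at h6
  have h13 := mul_left_cancel₀ (pow_ne_zero _ hpC) h6
  rw [← h13]

theorem coef_Hk_nn {s : ℕ} {φ : X (s + 2) → ℂ} (hφ : IsP φ) {p : ℕ} (hp : p.Prime)
    {S : Finset (Fin (s + 2))} (h0 : (0 : Fin (s + 2)) ∉ S) (h1 : (0 : Fin (s + 1)) ∉ tl S) (m : ℤ)
    {v : Fin (s + 2) → ℝ} (hv : v 0 ≠ 0) (h : X (s + 1)) :
    coef (E (s + 1) m) (Hk p S φ) v h = Hk p (tl S) (coef (E (s + 1) m) φ v) h := by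
  rw [HOne_notMem hφ p h0 m h]
  unfold Hk
  refine Finset.sum_congr rfl fun b hb => ?_
  rw [coef_diag hφ hp (tl S) hb m hv h, if_neg h1]

theorem coef_Hk_nm {s : ℕ} {φ : X (s + 2) → ℂ} (hφ : IsP φ) {p : ℕ} (hp : p.Prime)
    {S : Finset (Fin (s + 2))} (h0 : (0 : Fin (s + 2)) ∉ S) (h1 : (0 : Fin (s + 1)) ∈ tl S) (m : ℤ)
    {v : Fin (s + 2) → ℝ} (hv : v 0 ≠ 0) (h : X (s + 1)) :
    coef (E (s + 1) m) (Hk p S φ) v h =
      if (p : ℤ) ∣ m then Hk p (tl S) (coef (E (s + 1) (m / p)) φ v) h else 0 := by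
  rw [HOne_notMem hφ p h0 m h]
  by_cases hm : (p : ℤ) ∣ m
  · rw [if_pos hm]
    unfold Hk
    refine Finset.sum_congr rfl fun b hb => ?_
    rw [coef_diag hφ hp (tl S) hb m hv h, if_pos h1, if_pos hm]
  · rw [if_neg hm]
    refine Finset.sum_eq_zero fun b hb => ?_
    rw [coef_diag hφ hp (tl S) hb m hv h, if_pos h1, if_neg hm]

theorem coef_Hk_mn {s : ℕ} {φ : X (s + 2) → ℂ} (hφ : IsP φ) {p : ℕ} (hp : p.Prime)
    {S : Finset (Fin (s + 2))} (h0 : (0 : Fin (s + 2)) ∈ S) (h1 : (0 : Fin (s + 1)) ∉ tl S) (m : ℤ)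
    {v : Fin (s + 2) → ℝ} (hv : v 0 ≠ 0) (h : X (s + 1)) :
    coef (E (s + 1) m) (Hk p S φ) v h = (p : ℂ) ^ (s + 1 - (tl S).card) *
      Hk p (tl S) (coef (E (s + 1) (p * m)) φ ((p : ℝ) • v)) h := by
  have hpR : (p : ℝ) ≠ 0 := by exact_mod_cast hp.ne_zero
  have hv' : ((p : ℝ) • v) 0 ≠ 0 := mul_ne_zero hpR hv
  rw [HOne_mem hφ hp h0 m hv h]
  congr 1
  unfold Hk
  refine Finset.sum_congr rfl fun b hb => ?_
  rw [coef_diag hφ hp (tl S) hb (p * m) hv' h, if_neg h1]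

theorem coef_Hk_mm {s : ℕ} {φ : X (s + 2) → ℂ} (hφ : IsP φ) {p : ℕ} (hp : p.Prime)
    {S : Finset (Fin (s + 2))} (h0 : (0 : Fin (s + 2)) ∈ S) (h1 : (0 : Fin (s + 1)) ∈ tl S) (m : ℤ)
    {v : Fin (s + 2) → ℝ} (hv : v 0 ≠ 0) (h : X (s + 1)) :
    coef (E (s + 1) m) (Hk p S φ) v h = (p : ℂ) ^ (s + 1 - (tl S).card) *
      Hk p (tl S) (coef (E (s + 1) m) φ ((p : ℝ) • v)) h := by
  have hpR : (p : ℝ) ≠ 0 := by exact_mod_cast hp.ne_zero
  have hpZ : (p : ℤ) ≠ 0 := by exact_mod_cast hp.ne_zero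
  have hv' : ((p : ℝ) • v) 0 ≠ 0 := mul_ne_zero hpR hv
  rw [HOne_mem hφ hp h0 m hv h]
  congr 1
  unfold Hk
  refine Finset.sum_congr rfl fun b hb => ?_
  rw [coef_diag hφ hp (tl S) hb (p * m) hv' h, if_pos h1, if_pos (dvd_mul_right _ _),
    Int.mul_ediv_cancel_left _ hpZ]

end Pool.Agent.GL74
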