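import Pool.Agent.W_MP_3283e1_nt.Landau

/-! # Landau's lemma for two-sided Laplace transforms

Let `M s = ∫ exp (s x) dμ` be finite for `a < s < b` and equal there to `E`, which is analytic on
`(σ0, b)`, `σ0 ≤ a`.  Split `μ` into its restrictions `μ₊` to `x > 0` and `μ₋` to `x ≤ 0`.  The
transform `M₊` is finite for all `s < b` (compare with a point of `(a,b)` to the right of `s`), so
it is analytic on `(-∞, b)` (`analyticAt_mgf`), `M₋` is finite for all `s > a`, and
`M₋ = E - M₊` on `(a, b)`.  Choose `a' ∈ (a, b)` and let `F s = E s - M₊ s` for `s < a'`,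
`F s = M₋ s` for `s ≥ a'`; `F` is analytic on `(σ0, ∞)` and equal to `M₋` on `(a, ∞)`.  Landau's
lemma for nonpositive variables (`W3283e1.landau_mgf` with `X = id`, measure `μ₋`) gives that
`M₋` is finite on `(σ0, ∞)` and equal to `F`.  So `M = M₊ + M₋` is finite on `(σ0, b)`, and equal
to `E` (for `s ≥ a'` by assumption). -/

set_option autoImplicit false

noncomputable section

namespace Pool.Agent.GL74

open MeasureTheory ProbabilityTheory Set Filter
open scoped Topology ENNReal

theorem landau_two (μ : Measure ℝ) {σ0 a b : ℝ} (h0 : σ0 ≤ a) (hab : a < b) (E : ℝ → ℝ)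
    (hE : ∀ s ∈ Ioo σ0 b, AnalyticAt ℝ E s)
    (hint : ∀ s ∈ Ioo a b, Integrable (fun x => Real.exp (s * x)) μ)
    (heq : ∀ s ∈ Ioo a b, E s = ∫ x, Real.exp (s * x) ∂μ) :
    ∀ s ∈ Ioo σ0 b, Integrable (fun x => Real.exp (s * x)) μ ∧
      E s = ∫ x, Real.exp (s * x) ∂μ := by
  classical
  set X : ℝ → ℝ := fun x => x with hXdef
  set μp : Measure ℝ := μ.restrict (Ioi 0) with hμp
  set μm : Measure ℝ := μ.restrict (Iic 0) with hμm
  have hμ : μm + μp = μ := by
    have h := Measure.restrict_add_restrict_compl (μ := μ) (s := Iic (0 : ℝ)) measurableSet_Iic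
    rwa [compl_Iic] at h
  have hmeas : ∀ (s : ℝ) (ν : Measure ℝ), AEStronglyMeasurable (fun x : ℝ => Real.exp (s * x)) ν :=
    fun s ν => (by fun_prop : Measurable fun x : ℝ => Real.exp (s * x)).aestronglyMeasurable
  have hintp : ∀ s, s < b → Integrable (fun x => Real.exp (s * x)) μp := by
    intro s hs
    have ht : max s ((a + b) / 2) ∈ Ioo a b :=
      ⟨lt_of_lt_of_le (by linarith) (le_max_right _ _), max_lt hs (by linarith)⟩
    have h1 : Integrable (fun x => Real.exp (max s ((a + b) / 2) * x)) μp := (hint _ ht).restrict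
    refine h1.mono' (hmeas s _) ?_
    filter_upwards [ae_restrict_mem (μ := μ) measurableSet_Ioi] with x hx
    rw [Real.norm_eq_abs, abs_of_pos (Real.exp_pos _)]
    exact Real.exp_le_exp.2 (mul_le_mul_of_nonneg_right (le_max_left _ _) (le_of_lt hx))
  have hintm : ∀ s, a < s → Integrable (fun x => Real.exp (s * x)) μm := by
    intro s hs
    have ht : min s ((a + b) / 2) ∈ Ioo a b :=
      ⟨lt_min hs (by linarith), lt_of_le_of_lt (min_le_right _ _) (by linarith)⟩
    have h1 : Integrable (fun x => Real.exp (min s ((a + b) / 2) * x)) μm := (hint _ ht).restrict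
    refine h1.mono' (hmeas s _) ?_
    filter_upwards [ae_restrict_mem (μ := μ) measurableSet_Iic] with x hx
    rw [Real.norm_eq_abs, abs_of_pos (Real.exp_pos _)]
    exact Real.exp_le_exp.2 (mul_le_mul_of_nonpos_right (min_le_left _ _) hx)
  have hsplit : ∀ s, Integrable (fun x => Real.exp (s * x)) μm →
      Integrable (fun x => Real.exp (s * x)) μp →
      ∫ x, Real.exp (s * x) ∂μ = mgf X μm s + mgf X μp s := by
    intro s hm hp
    have h := integral_add_measure hm hp
    rw [hμ] at h
    exact h
  have hanp : ∀ s, s < b → AnalyticAt ℝ (mgf X μp) s := by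
    intro s hs
    refine analyticAt_mgf ?_
    rw [mem_interior]
    exact ⟨Iio b, fun t ht => hintp t ht, isOpen_Iio, hs⟩
  have hanm : ∀ s, a < s → AnalyticAt ℝ (mgf X μm) s := by
    intro s hs
    refine analyticAt_mgf ?_
    rw [mem_interior]
    exact ⟨Ioi a, fun t ht => hintm t ht, isOpen_Ioi, hs⟩
  set c : ℝ := (a + b) / 2 with hc
  have hac : a < c := by rw [hc]; linarith
  have hcb : c < b := by rw [hc]; linarith
  set F : ℝ → ℝ := fun s => if s < c then E s - mgf X μp s else mgf X μm s with hF
  have hFm : ∀ s, a < s → F s = mgf X μm s := by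
    intro s hs
    rw [hF]
    simp only
    split_ifs with h
    · rw [heq s ⟨hs, h.trans hcb⟩, hsplit s (hintm s hs) (hintp s (h.trans hcb)),
        add_sub_cancel_right]
    · rfl
  have hFan : ∀ s, σ0 < s → AnalyticAt ℝ F s := by
    intro s hs
    rcases lt_or_ge s c with h | h
    · refine ((hE s ⟨hs, h.trans hcb⟩).sub (hanp s (h.trans hcb))).congr ?_
      filter_upwards [Iio_mem_nhds h] with t ht
      rw [hF]
      exact (if_pos ht).symm
    · have h' : a < s := hac.trans_le h
      refine (hanm s h').congr ?_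
      filter_upwards [Ioi_mem_nhds h'] with t ht
      exact (hFm t ht).symm
  have key := W3283e1.landau_mgf (μ := μm) (X := X) measurable_id
    (ae_restrict_mem measurableSet_Iic) F σ0 a hFan (fun s hs => hintm s hs)
    (fun s hs => hFm s hs)
  intro s hs
  obtain ⟨k1, k2⟩ := key s hs.1
  have k3 := hintp s hs.2
  refine ⟨?_, ?_⟩
  · rw [← hμ]
    exact k1.add_measure k3
  · rcases lt_or_ge s c with h | h
    · have e : F s = E s - mgf X μp s := if_pos h
      rw [hsplit s k1 k3, ← k2, e, sub_add_cancel]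
    · exact heq s ⟨hac.trans_le h, hs.2⟩

end Pool.Agent.GL74
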