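import Pool.Agent.W_7742x_h74.WAbs
import Pool.Agent.W_7742x_h74.WPro
import Pool.Agent.W_7742x_h74.WSca
import Pool.Agent.W_7742x_h74.WExi

/-! # Siegel's mean value formula

* `unfold_prim`: `unfold_abstract` for `G = SL_{s+2} (ℤ)`, `H = (Fin (s+1) → ℤ) × SL_{s+1} (ℤ)`
  acting by `pm`, `C` the primitive vectors, `r = rowOf`, `E` from `bij_pm`.
* `siegelP`: `lintegral_wP`, the integrand does not depend on `θ`; for fixed `v` (`v 0 ≠ 0`)
  `∫ ω1(h) H(|v 0| |dt h|) dh = (s+1) mass ω1 ∫ H(|v 0| x) x^s dx =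
  |v 0|^{-(s+1)} (s+1) mass ω1 ∫ H(x) x^s dx` (`lintegral_wt_dt` with `n = s+1`).
* `siegel`: write the sum over nonzero `v` as a sum over `m ≥ 1` and primitive `v`
  (`prim_decomp`), `rv (zr (m v)) g = m • (rowOf v g) 0`; by `unfold_prim` the integral is
  `∑_m ∫ wP ω1(g) H(|dt g|) Ψ (m • g 0)`, which by `siegelP` is
  `∑_m (s+1) mass ω1 (∫ H x^s) ∫ Ψ (m • v) dv = ∑_m m^{-(s+2)} ...`. -/

set_option autoImplicit false

noncomputable section

namespace Pool.Agent.GL74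

open MeasureTheory
open scoped ENNReal MatrixGroups

/-- Scaling on the positive half line. -/
theorem WSie_scale {a : ℝ} (ha : 0 < a) {f : ℝ → ℝ≥0∞} (hf : Measurable f) :
    ∫⁻ x in Set.Ioi (0 : ℝ), f (a * x) = ENNReal.ofReal a⁻¹ * ∫⁻ x in Set.Ioi (0 : ℝ), f x := by
  have hm : Measurable ((Set.Ioi (0 : ℝ)).indicator f) := hf.indicator measurableSet_Ioi
  have h1 : ∀ x : ℝ, (Set.Ioi (0 : ℝ)).indicator (fun x => f (a * x)) x =
      (Set.Ioi (0 : ℝ)).indicator f (a * x) := by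
    intro x
    by_cases hx : 0 < x
    · rw [Set.indicator_of_mem (Set.mem_Ioi.2 hx),
        Set.indicator_of_mem (Set.mem_Ioi.2 (mul_pos ha hx))]
    · rw [Set.indicator_of_notMem (fun h => hx (Set.mem_Ioi.1 h)),
        Set.indicator_of_notMem (fun h => hx ((mul_pos_iff_of_pos_left ha).1 (Set.mem_Ioi.1 h)))]
  rw [← lintegral_indicator measurableSet_Ioi, ← lintegral_indicator measurableSet_Ioi]
  simp_rw [h1]
  have h2 : ∫⁻ x : ℝ, (Set.Ioi (0 : ℝ)).indicator f (a * x) =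
      ∫⁻ y, (Set.Ioi (0 : ℝ)).indicator f y ∂(Measure.map (fun x : ℝ => a * x) volume) :=
    (lintegral_map hm (measurable_const_mul a)).symm
  rw [h2, Real.map_volume_mul_left ha.ne', lintegral_smul_measure, smul_eq_mul,
    abs_of_pos (inv_pos.2 ha)]

/-- Scaling on the space of row vectors. -/
theorem WSie_scale' {n : ℕ} {a : ℝ} (ha : 0 < a) {f : (Fin n → ℝ) → ℝ≥0∞} (hf : Measurable f) :
    ∫⁻ v, f (a • v) = ENNReal.ofReal (a⁻¹ ^ n) * ∫⁻ v, f v := by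
  have hsm : Measurable fun c : Fin n → ℝ => a • c := measurable_const_smul _
  have e1 : ∫⁻ v : Fin n → ℝ, f (a • v) =
      ∫⁻ c, f c ∂(Measure.map (fun c : Fin n → ℝ => a • c) volume) :=
    (lintegral_map hf hsm).symm
  rw [e1, Measure.map_addHaar_smul _ ha.ne', lintegral_smul_measure, smul_eq_mul,
    Module.finrank_fin_fun, abs_of_pos (inv_pos.2 (pow_pos ha n)), inv_pow]

theorem siegelP {s : ℕ} {ω1 : X (s + 1) → ℝ≥0∞} (hω1 : IsWt ω1) {H : ℝ → ℝ≥0∞}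
    (hH : Measurable H) {Ψ : (Fin (s + 2) → ℝ) → ℝ≥0∞} (hΨ : Measurable Ψ) :
    ∫⁻ g : X (s + 2), wP ω1 g * (H |dt g| * Ψ (g 0)) =
      (s + 1) * mass ω1 * (∫⁻ x in Set.Ioi (0 : ℝ), H x * ENNReal.ofReal (x ^ s)) *
        ∫⁻ v, Ψ v := by
  have hF : Measurable fun g : X (s + 2) => H |dt g| * Ψ (g 0) :=
    (hH.comp measurable_dt.abs).mul (hΨ.comp (measurable_pi_apply 0))
  rw [lintegral_wP hω1.meas hF, ← lintegral_const_mul _ hΨ]
  apply lintegral_congr_ae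
  filter_upwards [ae_ne_zero (s + 1)] with v hv
  have ha : 0 < |v 0| := abs_pos.2 hv
  have h1 : ∀ h : X (s + 1), ∫⁻ θ in Set.Icc (0 : Fin (s + 1) → ℝ) 1,
      H |dt (glue h (v 0 • θ) v)| * Ψ (glue h (v 0 • θ) v 0) = H (|v 0| * |dt h|) * Ψ v := by
    intro h
    have h2 : ∀ θ : Fin (s + 1) → ℝ, H |dt (glue h (v 0 • θ) v)| * Ψ (glue h (v 0 • θ) v 0) =
        H (|v 0| * |dt h|) * Ψ v := by
      intro θ
      rw [dt_glue h _ hv, glue_row, abs_mul]
    simp_rw [h2]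
    rw [lintegral_const, Measure.restrict_apply MeasurableSet.univ, Set.univ_inter,
      Real.volume_Icc_pi]
    simp
  simp_rw [h1]
  have hH' : Measurable fun x : ℝ => H (|v 0| * x) := hH.comp (measurable_const_mul _)
  have h3 : ∫⁻ h : X (s + 1), ω1 h * (H (|v 0| * |dt h|) * Ψ v) =
      (∫⁻ h : X (s + 1), ω1 h * H (|v 0| * |dt h|)) * Ψ v := by
    have hm : Measurable fun h : X (s + 1) => ω1 h * H (|v 0| * |dt h|) :=
      hω1.meas.mul (hH'.comp measurable_dt.abs)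
    rw [← lintegral_mul_const _ hm]
    exact lintegral_congr fun h => (mul_assoc _ _ _).symm
  rw [h3, lintegral_wt_dt (Nat.succ_pos s) hω1 hH', Nat.succ_sub_one]
  have h4 : ∫⁻ x in Set.Ioi (0 : ℝ), H (|v 0| * x) * ENNReal.ofReal (x ^ s) =
      ENNReal.ofReal (|v 0|⁻¹ ^ (s + 1)) *
        ∫⁻ x in Set.Ioi (0 : ℝ), H x * ENNReal.ofReal (x ^ s) := by
    have hf : Measurable fun y : ℝ => H y * ENNReal.ofReal ((|v 0|⁻¹ * y) ^ s) :=
      hH.mul (((measurable_const_mul _).pow_const s).ennreal_ofReal)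
    have h5 := WSie_scale ha hf
    have h6 : ∀ x : ℝ, |v 0|⁻¹ * (|v 0| * x) = x := fun x => by
      rw [← mul_assoc, inv_mul_cancel₀ ha.ne', one_mul]
    simp_rw [h6] at h5
    rw [h5]
    have hf2 : Measurable fun y : ℝ => H y * ENNReal.ofReal (y ^ s) :=
      hH.mul ((measurable_id.pow_const s).ennreal_ofReal)
    have h7 : ∫⁻ x in Set.Ioi (0 : ℝ), H x * ENNReal.ofReal ((|v 0|⁻¹ * x) ^ s) =
        ENNReal.ofReal (|v 0|⁻¹ ^ s) * ∫⁻ x in Set.Ioi (0 : ℝ), H x * ENNReal.ofReal (x ^ s) := by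
      rw [← lintegral_const_mul _ hf2]
      apply lintegral_congr
      intro x
      rw [mul_pow, ENNReal.ofReal_mul (by positivity)]
      ring
    rw [h7, ← mul_assoc, ← ENNReal.ofReal_mul (by positivity), pow_succ']
  rw [h4]
  have h5 : ENNReal.ofReal (|v 0| ^ (s + 1)) * ENNReal.ofReal (|v 0|⁻¹ ^ (s + 1)) = 1 := by
    rw [← ENNReal.ofReal_mul (by positivity), ← mul_pow, mul_inv_cancel₀ ha.ne', one_pow,
      ENNReal.ofReal_one]
  set I := ∫⁻ x in Set.Ioi (0 : ℝ), H x * ENNReal.ofReal (x ^ s) with hI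
  calc ENNReal.ofReal (|v 0| ^ (s + 1)) * (((s + 1 : ℕ) : ℝ≥0∞) * mass ω1 *
        (ENNReal.ofReal (|v 0|⁻¹ ^ (s + 1)) * I) * Ψ v) =
      (ENNReal.ofReal (|v 0| ^ (s + 1)) * ENNReal.ofReal (|v 0|⁻¹ ^ (s + 1))) *
        (((s + 1 : ℕ) : ℝ≥0∞) * mass ω1 * I * Ψ v) := by ring
    _ = (s + 1) * mass ω1 * I * Ψ v := by rw [h5, one_mul]; push_cast; rfl

theorem WSie_row {s : ℕ} (ℓ : Fin s → ℤ) (γ : SL(s, ℤ)) (g : X (s + 1)) :
    sl (pm ℓ γ) g 0 = g 0 := by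
  rw [sl_row_zero]
  funext j
  unfold rv zr
  rw [Fin.sum_univ_succ]
  have h0 : (pm ℓ γ).1 0 0 = 1 := rfl
  have h1 : ∀ i : Fin s, (pm ℓ γ).1 0 i.succ = 0 := fun i => rfl
  simp only [h0, h1]
  simp

theorem siegel {s : ℕ} {ω : X (s + 2) → ℝ≥0∞} (hω : IsWt ω) : ∃ c : ℝ≥0∞, c ≠ ∞ ∧
    ∀ (H : ℝ → ℝ≥0∞) (Ψ : (Fin (s + 2) → ℝ) → ℝ≥0∞), Measurable H → Measurable Ψ →
    ∫⁻ g, ω g * (H |dt g| * ∑' v : {v : Fin (s + 2) → ℤ // v ≠ 0}, Ψ (rv (zr v.1) g)) =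
      c * (∫⁻ x in Set.Ioi (0 : ℝ), H x * ENNReal.ofReal (x ^ s)) * ∫⁻ v, Ψ v := by
  set ω1 := wt (s + 1) with hω1d
  have hω1 : IsWt ω1 := isWt_wt (s + 1)
  have : Countable SL(s + 2, ℤ) := countable_sl _
  refine ⟨(∑' m : ℕ+, ENNReal.ofReal (((m : ℕ) : ℝ)⁻¹ ^ (s + 2))) * ((s + 1) * mass ω1),
    ?_, fun H Ψ hH hΨ => ?_⟩
  · refine ENNReal.mul_ne_top ?_ (ENNReal.mul_ne_top (by finiteness) hω1.fin)
    have h1 : Summable fun n : ℕ => ((n : ℝ) ^ (s + 2))⁻¹ :=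
      Real.summable_nat_pow_inv.2 (by omega)
    have h2 : Summable fun m : ℕ+ => ((((m : ℕ) : ℝ)) ^ (s + 2))⁻¹ :=
      h1.comp_injective PNat.coe_injective
    have h3 : Summable fun m : ℕ+ => (((m : ℕ) : ℝ))⁻¹ ^ (s + 2) := by
      refine h2.congr fun m => ?_
      rw [inv_pow]
    exact h3.tsum_ofReal_ne_top
  · -- the functions
    set G : ℕ+ → X (s + 2) → ℝ≥0∞ := fun m g => H |dt g| * Ψ (((m : ℕ) : ℝ) • g 0) with hG
    have hGm : ∀ m, Measurable (G m) := fun m =>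
      (hH.comp measurable_dt.abs).mul (hΨ.comp
        ((measurable_const_smul (((m : ℕ) : ℝ))).comp (measurable_pi_apply 0)))
    have h1 : ∀ g : X (s + 2), H |dt g| * ∑' v : {v : Fin (s + 2) → ℤ // v ≠ 0},
        Ψ (rv (zr v.1) g) = ∑' m : ℕ+, ∑' v : {v : Fin (s + 2) → ℤ // IsPrim v},
          G m (sl (rowOf v) g) := by
      intro g
      rw [← (Equiv.ofBijective _ (prim_decomp (n := s + 2))).tsum_eq, ENNReal.tsum_prod',
        ← ENNReal.tsum_mul_left]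
      apply tsum_congr
      intro m
      rw [← ENNReal.tsum_mul_left]
      apply tsum_congr
      intro v
      show H |dt g| * Ψ (rv (zr fun i => (m : ℤ) * v.1 i) g) =
        H |dt (sl (rowOf v) g)| * Ψ (((m : ℕ) : ℝ) • sl (rowOf v) g 0)
      rw [dt_sl, sl_row_zero]
      congr 2
      funext j
      unfold rv zr
      rw [Pi.smul_apply, smul_eq_mul, Finset.mul_sum]
      refine Finset.sum_congr rfl fun i _ => ?_
      have h2 : (rowOf v).1 0 i = v.1 i := rowOf_spec v i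
      show ((((m : ℕ) : ℤ) * v.1 i : ℤ) : ℝ) * g i j =
        ((m : ℕ) : ℝ) * (((rowOf v).1 0 i : ℤ) * g i j)
      rw [h2]
      push_cast
      ring
    simp_rw [h1, ← ENNReal.tsum_mul_left]
    rw [lintegral_tsum fun m => ?_]
    · have h2 : ∀ m : ℕ+, ∫⁻ g, ∑' v : {v : Fin (s + 2) → ℤ // IsPrim v},
          ω g * G m (sl (rowOf v) g) =
          ((s + 1) * mass ω1 * (∫⁻ x in Set.Ioi (0 : ℝ), H x * ENNReal.ofReal (x ^ s)) *
            ∫⁻ v, Ψ v) * ENNReal.ofReal (((m : ℕ) : ℝ)⁻¹ ^ (s + 2)) := by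
        intro m
        simp_rw [ENNReal.tsum_mul_left]
        rw [← unfold_prim hω hω1 (hGm m) fun ℓ γ => ?_]
        · have hm0 : (0 : ℝ) < ((m : ℕ) : ℝ) := by exact_mod_cast m.pos
          have hΨ' : Measurable fun v : Fin (s + 2) → ℝ => Ψ (((m : ℕ) : ℝ) • v) :=
            hΨ.comp (measurable_const_smul _)
          have h3 := siegelP hω1 hH hΨ'
          rw [WSie_scale' hm0 hΨ] at h3
          rw [show (∫⁻ g, wP ω1 g * G m g) =
            ∫⁻ g : X (s + 2), wP ω1 g * (H |dt g| * Ψ (((m : ℕ) : ℝ) • g 0)) from rfl, h3]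
          ring
        · refine Filter.Eventually.of_forall fun g => ?_
          show H |dt (sl (pm ℓ γ) g)| * Ψ (((m : ℕ) : ℝ) • sl (pm ℓ γ) g 0) = _
          rw [dt_sl, WSie_row]
      simp_rw [h2]
      rw [ENNReal.tsum_mul_left]
      ring
    · refine Measurable.aemeasurable (Measurable.ennreal_tsum fun v => ?_)
      exact hω.meas.mul ((hGm m).comp (measurePreserving_sl (rowOf v)).measurable)

end Pool.Agent.GL74
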