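import Pool.Agent.W_7742x_h74.PPoi
import Pool.Agent.W_7742x_h74.WSie
import Pool.Agent.W_7742x_h74.WExi

/-! # Siegel's formula for the dual lattice

`Sd g = ∑_{ξ ≠ 0} gs (ξ gd g)`; by `poisson`, for `dt g ≠ 0`,
`1 + Sd g = |dt g| (1 + ∑_{v ≠ 0} gs (v g))`.  Let `n = s + 2`, `V = mass ω`, `c` the constant of
`siegel`.  For measurable `H ≥ 0`:
`∫ ω H(|dt g|) + ∫ ω H(|dt g|) Sd g = ∫ ω H |dt g| + ∫ ω H |dt g| ∑_{v ≠ 0} gs (v g)`, i.e. with
`lintegral_wt_dt`, `siegel`, `integral_gs`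
(*)  `n V ∫ H x^{n-1} + ∫ ω H Sd = n V ∫ H x^n + c ∫ H x · x^{n-2}`.

Claim `c = n V`.  Let `K(ε) = ∫_{ε < |dt g| ≤ 2ε} ω(g) |dt g|^{-n} Sd g dg`, `0 < ε ≤ 1`.  By (*)
with `H x = x^{-n}` on `(ε, 2ε]`: `n V log 2 + K(ε) = n V ε + c log 2` (so `K(ε) < ∞`).  Substitute
`g = ε^{1/n} g'` (`lintegral_smul_X`; `ω` is scale invariant):
`K(ε) = ∫_{1 < |dt g'| ≤ 2} ω(g') |dt g'|^{-n} Sd (ε^{1/n} g') dg'`, and
`Sd (ε^{1/n} g') = ∑_{ξ ≠ 0} gs (ε^{-1/n} ξ gd g')` (`gd_smul`) decreases to `0` as `ε → 0`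
(dominated convergence for the sum, the terms decrease to `0`), and it is at most `Sd g'`; by
dominated convergence `K(ε) → 0`, so `n V log 2 = c log 2`.

`dual_mean`: if `∫ H x^{n-1} < ∞` cancel in (*); in general approximate `H` by
`min (H, k) 1_{(1/k, k)}` (monotone convergence). -/

set_option autoImplicit false

noncomputable section

namespace Pool.Agent.GL74

open MeasureTheory
open scoped ENNReal

/-- The dual theta sum without its constant term. -/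
def Sd {n : ℕ} (g : X n) : ℝ≥0∞ :=
  ∑' ξ : {ξ : Fin n → ℤ // ξ ≠ 0}, ENNReal.ofReal (gs (rv (zr ξ.1) (gd g)))

/-- The theta sum without its constant term. -/
def PDua_T {n : ℕ} (g : X n) : ℝ≥0∞ :=
  ∑' v : {v : Fin n → ℤ // v ≠ 0}, ENNReal.ofReal (gs (rv (zr v.1) g))

theorem PDua_gs_nonneg {n : ℕ} (v : Fin n → ℝ) : 0 ≤ gs v := (Real.exp_pos _).le

theorem PDua_meas_gs {n : ℕ} (v : Fin n → ℝ) : Measurable fun g : X n => gs (rv v g) := by
  unfold gs rv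
  fun_prop

theorem PDua_gs_zero {n : ℕ} (g : X n) : gs (rv (zr (0 : Fin n → ℤ)) g) = 1 := by
  have h : rv (zr (0 : Fin n → ℤ)) g = 0 := by
    funext j
    simp [rv, zr]
  rw [h]
  simp [gs]

theorem PDua_split {n : ℕ} (f : (Fin n → ℤ) → ℝ≥0∞) :
    ∑' v, f v = f 0 + ∑' v : {v : Fin n → ℤ // v ≠ 0}, f v.1 := by
  classical
  rw [ENNReal.tsum_eq_add_tsum_ite (0 : Fin n → ℤ)]
  congr 1
  rw [← Subtype.val_injective.tsum_eq (g := fun v : {v : Fin n → ℤ // v ≠ 0} => v.1)]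
  · exact tsum_congr fun v => if_neg v.2
  · intro v hv
    refine ⟨⟨v, fun h => hv ?_⟩, rfl⟩
    simp [h]

theorem PDua_poisson {n : ℕ} {g : X n} (hg : dt g ≠ 0) :
    1 + Sd g = ENNReal.ofReal |dt g| * (1 + PDua_T g) := by
  have hd : dt (gd g) ≠ 0 := by
    rw [dt_gd hg]
    exact inv_ne_zero hg
  have h1 : ENNReal.ofReal (∑' v : Fin n → ℤ, gs (rv (zr v) g)) = 1 + PDua_T g := by
    rw [ENNReal.ofReal_tsum_of_nonneg (fun v => PDua_gs_nonneg _) (summable_gs hg), PDua_split,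
      PDua_gs_zero, ENNReal.ofReal_one]
    rfl
  have h2 : ENNReal.ofReal (∑' v : Fin n → ℤ, gs (rv (zr v) (gd g))) = 1 + Sd g := by
    rw [ENNReal.ofReal_tsum_of_nonneg (fun v => PDua_gs_nonneg _) (summable_gs hd), PDua_split,
      PDua_gs_zero, ENNReal.ofReal_one]
    rfl
  rw [← h1, ← h2, ← ENNReal.ofReal_mul (abs_nonneg _), poisson hg, ← mul_assoc,
    mul_inv_cancel₀ (abs_ne_zero.2 hg), one_mul]

theorem PDua_meas_abs {n : ℕ} : Measurable fun g : X n => |dt g| :=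
  _root_.continuous_abs.measurable.comp measurable_dt

theorem measurable_Sd {n : ℕ} : Measurable (Sd : X n → ℝ≥0∞) := by
  unfold Sd
  exact Measurable.tsum fun v => ((PDua_meas_gs _).comp measurable_gd).ennreal_ofReal

theorem PDua_meas_T {n : ℕ} : Measurable (PDua_T : X n → ℝ≥0∞) := by
  unfold PDua_T
  exact Measurable.tsum fun v => (PDua_meas_gs _).ennreal_ofReal

theorem PDua_wt {s : ℕ} {ω : X (s + 2) → ℝ≥0∞} (hω : IsWt ω) {H : ℝ → ℝ≥0∞}
    (hH : Measurable H) : ∫⁻ g, ω g * H |dt g| =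
      (s + 2) * mass ω * ∫⁻ x in Set.Ioi (0 : ℝ), H x * ENNReal.ofReal (x ^ (s + 1)) := by
  have h := lintegral_wt_dt (n := s + 2) (by omega) hω hH
  rw [h]
  push_cast
  rfl

/-- The identity (*). -/
theorem PDua_star {s : ℕ} {ω : X (s + 2) → ℝ≥0∞} (hω : IsWt ω) {c : ℝ≥0∞}
    (hc : ∀ (H : ℝ → ℝ≥0∞) (Ψ : (Fin (s + 2) → ℝ) → ℝ≥0∞), Measurable H → Measurable Ψ →
      ∫⁻ g, ω g * (H |dt g| * ∑' v : {v : Fin (s + 2) → ℤ // v ≠ 0}, Ψ (rv (zr v.1) g)) =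
        c * (∫⁻ x in Set.Ioi (0 : ℝ), H x * ENNReal.ofReal (x ^ s)) * ∫⁻ v, Ψ v)
    {H : ℝ → ℝ≥0∞} (hH : Measurable H) :
    (s + 2) * mass ω * (∫⁻ x in Set.Ioi (0 : ℝ), H x * ENNReal.ofReal (x ^ (s + 1))) +
      ∫⁻ g, ω g * (H |dt g| * Sd g) =
    (s + 2) * mass ω * (∫⁻ x in Set.Ioi (0 : ℝ), H x * ENNReal.ofReal (x ^ (s + 2))) +
      c * ∫⁻ x in Set.Ioi (0 : ℝ), H x * ENNReal.ofReal (x ^ (s + 1)) := by
  have hHd : Measurable fun g : X (s + 2) => H |dt g| := hH.comp PDua_meas_abs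
  have hH' : Measurable fun x : ℝ => H x * ENNReal.ofReal x :=
    hH.mul measurable_id.ennreal_ofReal
  have hpow : ∀ (k : ℕ) (x : ℝ), 0 ≤ x →
      H x * ENNReal.ofReal x * ENNReal.ofReal (x ^ k) = H x * ENNReal.ofReal (x ^ (k + 1)) := by
    intro k x hx
    rw [mul_assoc, ← ENNReal.ofReal_mul hx, pow_succ' x k]
  have e1 : ∫⁻ g, ω g * (H |dt g| * (1 + Sd g)) =
      (s + 2) * mass ω * (∫⁻ x in Set.Ioi (0 : ℝ), H x * ENNReal.ofReal (x ^ (s + 1))) +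
      ∫⁻ g, ω g * (H |dt g| * Sd g) := by
    have hm : Measurable fun g => ω g * H |dt g| := hω.meas.mul hHd
    rw [← PDua_wt hω hH, ← lintegral_add_left hm]
    exact lintegral_congr fun g => by ring
  have e2 : ∫⁻ g, ω g * (H |dt g| * (1 + Sd g)) =
      ∫⁻ g, ω g * ((H |dt g| * ENNReal.ofReal |dt g|) * (1 + PDua_T g)) := by
    refine lintegral_congr_ae ?_
    filter_upwards [ae_dt_ne_zero] with g hg
    rw [PDua_poisson hg, ← mul_assoc (H |dt g|)]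
  have e3 : ∫⁻ g, ω g * ((H |dt g| * ENNReal.ofReal |dt g|) * (1 + PDua_T g)) =
      (∫⁻ g, ω g * (H |dt g| * ENNReal.ofReal |dt g|)) +
        ∫⁻ g, ω g * ((H |dt g| * ENNReal.ofReal |dt g|) * PDua_T g) := by
    have hm : Measurable fun g => ω g * (H |dt g| * ENNReal.ofReal |dt g|) :=
      hω.meas.mul (hHd.mul PDua_meas_abs.ennreal_ofReal)
    rw [← lintegral_add_left hm]
    exact lintegral_congr fun g => by ring
  have e4 := PDua_wt hω hH'
  beta_reduce at e4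
  have e5 := hc (fun x => H x * ENNReal.ofReal x) (fun v => ENNReal.ofReal (gs v)) hH'
    (by unfold gs; fun_prop)
  rw [integral_gs, mul_one] at e5
  have e6 : ∀ k : ℕ, ∫⁻ x in Set.Ioi (0 : ℝ), H x * ENNReal.ofReal x * ENNReal.ofReal (x ^ k) =
      ∫⁻ x in Set.Ioi (0 : ℝ), H x * ENNReal.ofReal (x ^ (k + 1)) := fun k =>
    setLIntegral_congr_fun measurableSet_Ioi fun x hx => hpow k x (le_of_lt hx)
  rw [← e1, e2, e3, e4, e6]
  congr 1
  exact e5.trans (by rw [e6])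

theorem PDua_rv_smul {n : ℕ} (v : Fin n → ℝ) (t : ℝ) (g : X n) : rv v (t • g) = t • rv v g := by
  funext j
  simp only [rv, Pi.smul_apply, smul_eq_mul, Finset.mul_sum]
  exact Finset.sum_congr rfl fun k _ => by ring

theorem PDua_gs_smul {n : ℕ} (t : ℝ) (v : Fin n → ℝ) :
    gs (t • v) = Real.exp (-(t ^ 2 * (Real.pi * ∑ i, v i ^ 2))) := by
  unfold gs
  congr 2
  simp only [Pi.smul_apply, smul_eq_mul, mul_pow, ← Finset.mul_sum]
  ring

theorem PDua_pos {n : ℕ} {g : X n} (hg : dt g ≠ 0) {ξ : Fin n → ℤ} (hξ : ξ ≠ 0) :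
    0 < Real.pi * ∑ i, rv (zr ξ) g i ^ 2 := by
  refine mul_pos Real.pi_pos (lt_of_le_of_ne (Finset.sum_nonneg fun i _ => sq_nonneg _) ?_)
  intro h
  apply hξ
  have h1 : ∀ j, rv (zr ξ) g j = 0 := by
    intro j
    have h2 := (Finset.sum_eq_zero_iff_of_nonneg (fun i _ => sq_nonneg (rv (zr ξ) g i))).1 h.symm
      j (Finset.mem_univ j)
    exact pow_eq_zero_iff (by norm_num) |>.1 h2
  funext i
  have h3 : (ξ i : ℝ) = ∑ j, rv (zr ξ) g j * (Matrix.of g)⁻¹ j i := WMin_inv hg (zr ξ) i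
  simp only [h1, zero_mul, Finset.sum_const_zero] at h3
  exact_mod_cast h3

/-- `t_k = 1 / (k + 1)`. -/
def PDua_t (k : ℕ) : ℝ := ((k : ℝ) + 1)⁻¹

theorem PDua_t_pos (k : ℕ) : 0 < PDua_t k := by
  unfold PDua_t
  positivity

theorem PDua_Sd_t {n : ℕ} {g : X n} (hg : dt g ≠ 0) (k : ℕ) :
    Sd (PDua_t k • g) = ∑' ξ : {ξ : Fin n → ℤ // ξ ≠ 0},
      ENNReal.ofReal (Real.exp (-(((k : ℝ) + 1) ^ 2 * (Real.pi * ∑ i, rv (zr ξ.1) (gd g) i ^ 2)))) := by
  unfold Sd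
  refine tsum_congr fun ξ => ?_
  rw [gd_smul (PDua_t_pos k).ne' hg, PDua_rv_smul, PDua_gs_smul, PDua_t, inv_inv]

theorem PDua_Sd_le {n : ℕ} {g : X n} (hg : dt g ≠ 0) (k : ℕ) : Sd (PDua_t k • g) ≤ Sd g := by
  rw [PDua_Sd_t hg]
  unfold Sd
  refine ENNReal.tsum_le_tsum fun ξ => ENNReal.ofReal_le_ofReal ?_
  unfold gs
  refine Real.exp_le_exp.2 (neg_le_neg ?_)
  have h1 : 0 ≤ Real.pi * ∑ i, rv (zr ξ.1) (gd g) i ^ 2 := by positivity
  have h2 : (1 : ℝ) ≤ ((k : ℝ) + 1) ^ 2 := by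
    have : (0 : ℝ) ≤ k := Nat.cast_nonneg k
    nlinarith
  nlinarith

theorem PDua_Sd_lim {n : ℕ} {g : X n} (hg : dt g ≠ 0) :
    Filter.Tendsto (fun k => Sd (PDua_t k • g)) Filter.atTop (nhds 0) := by
  have hd : dt (gd g) ≠ 0 := by
    rw [dt_gd hg]
    exact inv_ne_zero hg
  have hsum : Summable fun ξ : {ξ : Fin n → ℤ // ξ ≠ 0} => gs (rv (zr ξ.1) (gd g)) :=
    (summable_gs hd).comp_injective Subtype.val_injective
  have hb : ∀ (k : ℕ) (ξ : {ξ : Fin n → ℤ // ξ ≠ 0}),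
      Real.exp (-(((k : ℝ) + 1) ^ 2 * (Real.pi * ∑ i, rv (zr ξ.1) (gd g) i ^ 2))) ≤
        gs (rv (zr ξ.1) (gd g)) := by
    intro k ξ
    unfold gs
    refine Real.exp_le_exp.2 (neg_le_neg ?_)
    have h1 : 0 ≤ Real.pi * ∑ i, rv (zr ξ.1) (gd g) i ^ 2 := by positivity
    have h2 : (1 : ℝ) ≤ ((k : ℝ) + 1) ^ 2 := by
      have : (0 : ℝ) ≤ k := Nat.cast_nonneg k
      nlinarith
    nlinarith
  have h1 : Filter.Tendsto (fun k : ℕ => ∑' ξ : {ξ : Fin n → ℤ // ξ ≠ 0},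
      Real.exp (-(((k : ℝ) + 1) ^ 2 * (Real.pi * ∑ i, rv (zr ξ.1) (gd g) i ^ 2)))) Filter.atTop
      (nhds (∑' _ : {ξ : Fin n → ℤ // ξ ≠ 0}, (0 : ℝ))) := by
    refine tendsto_tsum_of_dominated_convergence hsum ?_ ?_
    · intro ξ
      have hp := PDua_pos hd ξ.2
      have h2 : Filter.Tendsto (fun k : ℕ => ((k : ℝ) + 1) ^ 2 *
          (Real.pi * ∑ i, rv (zr ξ.1) (gd g) i ^ 2)) Filter.atTop Filter.atTop := by
        refine Filter.Tendsto.atTop_mul_const hp ?_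
        exact (Filter.tendsto_pow_atTop two_ne_zero).comp
          (Filter.tendsto_atTop_add_const_right _ _ tendsto_natCast_atTop_atTop)
      exact Real.tendsto_exp_neg_atTop_nhds_zero.comp h2
    · refine Filter.Eventually.of_forall fun k ξ => ?_
      rw [Real.norm_eq_abs, abs_of_pos (Real.exp_pos _)]
      exact hb k ξ
  rw [tsum_zero] at h1
  have h2 := ENNReal.tendsto_ofReal h1
  rw [ENNReal.ofReal_zero] at h2
  refine h2.congr fun k => ?_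
  rw [PDua_Sd_t hg, ENNReal.ofReal_tsum_of_nonneg (fun ξ => (Real.exp_pos _).le)]
  exact Summable.of_nonneg_of_le (fun ξ => (Real.exp_pos _).le) (hb k) hsum

open Classical in
/-- Indicator of `x ≤ β`. -/
def PDua_I (β x : ℝ) : ℝ≥0∞ := if x ≤ β then 1 else 0

theorem PDua_meas_I (β : ℝ) : Measurable (PDua_I β) := by
  classical
  unfold PDua_I
  exact Measurable.ite measurableSet_Iic measurable_const measurable_const

theorem PDua_I_le (β x : ℝ) : PDua_I β x ≤ 1 := by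
  unfold PDua_I
  split_ifs <;> simp

theorem PDua_pow (k : ℕ) {β : ℝ} (hβ : 0 < β) :
    ((k : ℝ≥0∞) + 1) * ∫⁻ x in Set.Ioi (0 : ℝ), PDua_I β x * ENNReal.ofReal (x ^ k) =
      ENNReal.ofReal (β ^ (k + 1)) := by
  have h := WSca_pow (n := k + 1) (by omega) hβ
  rw [← h]
  push_cast
  congr 1
  rw [← lintegral_indicator measurableSet_Ioi, ← lintegral_indicator measurableSet_Ioc]
  refine lintegral_congr fun x => ?_
  unfold PDua_I
  by_cases h1 : 0 < x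
  · by_cases h2 : x ≤ β
    · rw [Set.indicator_of_mem (Set.mem_Ioi.2 h1), Set.indicator_of_mem (Set.mem_Ioc.2 ⟨h1, h2⟩),
        if_pos h2, one_mul]
    · rw [Set.indicator_of_mem (Set.mem_Ioi.2 h1),
        Set.indicator_of_notMem (fun h => h2 (Set.mem_Ioc.1 h).2), if_neg h2, zero_mul]
  · rw [Set.indicator_of_notMem (fun h => h1 (Set.mem_Ioi.1 h)),
      Set.indicator_of_notMem (fun h => h1 (Set.mem_Ioc.1 h).1)]

/-- The dual mean over `|dt g| ≤ 1`, of the scaled sum. -/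
def PDua_J {n : ℕ} (ω : X n → ℝ≥0∞) (t : ℝ) : ℝ≥0∞ :=
  ∫⁻ g, ω g * (PDua_I 1 |dt g| * Sd (t • g))

theorem PDua_K {n : ℕ} {ω : X n → ℝ≥0∞} (hω : IsWt ω) {t : ℝ} (ht : 0 < t) :
    ∫⁻ g, ω g * (PDua_I (t ^ n) |dt g| * Sd g) = ENNReal.ofReal (t ^ (n * n)) * PDua_J ω t := by
  have hF : Measurable fun g : X n => ω g * (PDua_I (t ^ n) |dt g| * Sd g) :=
    hω.meas.mul (((PDua_meas_I _).comp PDua_meas_abs).mul measurable_Sd)
  have h1 := lintegral_smul_X ht hF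
  have h2 : ∫⁻ g : X n, ω (t • g) * (PDua_I (t ^ n) |dt (t • g)| * Sd (t • g)) = PDua_J ω t := by
    refine lintegral_congr fun g => ?_
    have h3 : PDua_I (t ^ n) |dt (t • g)| = PDua_I 1 |dt g| := by
      unfold PDua_I
      have h4 : |dt (t • g)| ≤ t ^ n ↔ |dt g| ≤ 1 := by
        rw [dt_smul, abs_mul, abs_of_pos (pow_pos ht n)]
        constructor
        · intro h
          by_contra h5
          push Not at h5
          nlinarith [pow_pos ht n]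
        · intro h
          nlinarith [pow_pos ht n]
      simp only [h4]
    rw [hω.scale t ht, h3]
  rw [h2] at h1
  rw [h1, ← mul_assoc, ← ENNReal.ofReal_mul (by positivity), inv_pow, mul_inv_cancel₀
    (pow_pos ht _).ne', ENNReal.ofReal_one, one_mul]

theorem PDua_J_lim {n : ℕ} {ω : X n → ℝ≥0∞} (hω : IsWt ω) (h1 : PDua_J ω 1 ≠ ∞) :
    Filter.Tendsto (fun k => PDua_J ω (PDua_t k)) Filter.atTop (nhds 0) := by
  have hm : ∀ t : ℝ, Measurable fun g : X n => ω g * (PDua_I 1 |dt g| * Sd (t • g)) := fun t =>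
    hω.meas.mul (((PDua_meas_I _).comp PDua_meas_abs).mul
      (measurable_Sd.comp (measurable_const_smul t)))
  have h2 := tendsto_lintegral_of_dominated_convergence
    (F := fun k (g : X n) => ω g * (PDua_I 1 |dt g| * Sd (PDua_t k • g))) (f := fun _ => 0)
    (fun g => ω g * (PDua_I 1 |dt g| * Sd ((1 : ℝ) • g))) (μ := volume) (fun k => hm _) ?_ h1 ?_
  · rw [lintegral_zero] at h2
    exact h2
  · intro k
    filter_upwards [ae_dt_ne_zero] with g hg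
    rw [one_smul]
    have := PDua_Sd_le hg k
    gcongr
  · filter_upwards [ae_dt_ne_zero, hω.sum] with g hg hs
    have hω1 : ω g ≤ 1 := by
      rw [← hs]
      have := ENNReal.le_tsum (f := fun γ => ω (sl γ g)) (1 : Matrix.SpecialLinearGroup (Fin n) ℤ)
      rwa [sl_one] at this
    have h3 := PDua_Sd_lim hg
    have h4 : ∀ k, ω g * (PDua_I 1 |dt g| * Sd (PDua_t k • g)) ≤ Sd (PDua_t k • g) := by
      intro k
      calc ω g * (PDua_I 1 |dt g| * Sd (PDua_t k • g)) ≤ 1 * (1 * Sd (PDua_t k • g)) := by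
            gcongr
            exact PDua_I_le _ _
        _ = Sd (PDua_t k • g) := by rw [one_mul, one_mul]
    exact tendsto_of_tendsto_of_tendsto_of_le_of_le tendsto_const_nhds h3 (fun _ => zero_le)
      h4

/-- The constant. -/
theorem PDua_const {s : ℕ} {ω : X (s + 2) → ℝ≥0∞} (hω : IsWt ω) {c : ℝ≥0∞} (hc1 : c ≠ ∞)
    (hc : ∀ (H : ℝ → ℝ≥0∞) (Ψ : (Fin (s + 2) → ℝ) → ℝ≥0∞), Measurable H → Measurable Ψ →
      ∫⁻ g, ω g * (H |dt g| * ∑' v : {v : Fin (s + 2) → ℤ // v ≠ 0}, Ψ (rv (zr v.1) g)) =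
        c * (∫⁻ x in Set.Ioi (0 : ℝ), H x * ENNReal.ofReal (x ^ s)) * ∫⁻ v, Ψ v) :
    c = (s + 2) * mass ω := by
  have hV : mass ω ≠ ∞ := hω.fin
  -- the scaled identity
  have key : ∀ t : ℝ, 0 < t →
      ((s : ℝ≥0∞) + 3) * ((s + 2) * mass ω) + (s + 2) * (s + 3) * PDua_J ω t =
        (s + 2) * ((s + 2) * mass ω) * ENNReal.ofReal (t ^ (s + 2)) + (s + 3) * c := by
    intro t ht
    have hβ : 0 < t ^ (s + 2) := pow_pos ht _
    have h1 := PDua_star hω hc (PDua_meas_I (t ^ (s + 2)))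
    have h2 := PDua_pow (s + 1) hβ
    have h3 := PDua_pow (s + 2) hβ
    have h4 := PDua_K hω ht
    rw [h4] at h1
    set a := ∫⁻ x in Set.Ioi (0 : ℝ), PDua_I (t ^ (s + 2)) x * ENNReal.ofReal (x ^ (s + 1)) with ha
    set b := ∫⁻ x in Set.Ioi (0 : ℝ), PDua_I (t ^ (s + 2)) x * ENNReal.ofReal (x ^ (s + 2)) with hb
    have h5 : ((s + 1 : ℕ) : ℝ≥0∞) + 1 = s + 2 := by
      push_cast
      ring
    have h6 : ((s + 2 : ℕ) : ℝ≥0∞) + 1 = s + 3 := by
      push_cast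
      ring
    rw [h5] at h2
    rw [h6] at h3
    have e1 : ENNReal.ofReal ((t ^ (s + 2)) ^ (s + 1 + 1)) = ENNReal.ofReal (t ^ ((s + 2) * (s + 2))) := by
      rw [← pow_mul]
    have e2 : ENNReal.ofReal ((t ^ (s + 2)) ^ (s + 2 + 1)) =
        ENNReal.ofReal (t ^ ((s + 2) * (s + 2))) * ENNReal.ofReal (t ^ (s + 2)) := by
      rw [← ENNReal.ofReal_mul (by positivity), ← pow_mul, ← pow_add]
      ring_nf
    rw [e1] at h2
    rw [e2] at h3
    have hD0 : ENNReal.ofReal (t ^ ((s + 2) * (s + 2))) ≠ 0 := by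
      rw [ne_eq, ENNReal.ofReal_eq_zero, not_le]
      positivity
    have hDt : ENNReal.ofReal (t ^ ((s + 2) * (s + 2))) ≠ ∞ := ENNReal.ofReal_ne_top
    refine (ENNReal.mul_right_inj hD0 hDt).1 ?_
    have e3 := congrArg (fun y => ((s : ℝ≥0∞) + 2) * ((s : ℝ≥0∞) + 3) * y) h1
    beta_reduce at e3
    calc ENNReal.ofReal (t ^ ((s + 2) * (s + 2))) *
          (((s : ℝ≥0∞) + 3) * ((s + 2) * mass ω) + (s + 2) * (s + 3) * PDua_J ω t)
        = ((s : ℝ≥0∞) + 2) * (s + 3) * ((s + 2) * mass ω * a +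
            ENNReal.ofReal (t ^ ((s + 2) * (s + 2))) * PDua_J ω t) := by
          rw [← h2]
          ring
      _ = ((s : ℝ≥0∞) + 2) * (s + 3) * ((s + 2) * mass ω * b + c * a) := e3
      _ = (s + 2) * ((s + 2) * mass ω) * ((s + 3) * b) + (s + 3) * c * ((s + 2) * a) := by ring
      _ = _ := by
          rw [h3, h2]
          ring
  have hJ1 : PDua_J ω 1 ≠ ∞ := by
    intro h
    have h1 := key 1 one_pos
    rw [h] at h1
    have h2 : ((s : ℝ≥0∞) + 2) * (s + 3) * ∞ = ∞ := by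
      rw [ENNReal.mul_top]
      refine mul_ne_zero ?_ ?_
      · simp
      · simp
    rw [h2, add_top] at h1
    have h3 : ((s : ℝ≥0∞) + 2) * ((s + 2) * mass ω) * ENNReal.ofReal (1 ^ (s + 2)) + (s + 3) * c ≠ ∞ := by
      have hs2 : (s : ℝ≥0∞) + 2 ≠ ∞ := ENNReal.add_ne_top.2 ⟨ENNReal.natCast_ne_top s, by norm_num⟩
      have hs3 : (s : ℝ≥0∞) + 3 ≠ ∞ := ENNReal.add_ne_top.2 ⟨ENNReal.natCast_ne_top s, by norm_num⟩
      refine ENNReal.add_ne_top.2 ⟨?_, ENNReal.mul_ne_top hs3 hc1⟩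
      exact ENNReal.mul_ne_top (ENNReal.mul_ne_top hs2 (ENNReal.mul_ne_top hs2 hV)) ENNReal.ofReal_ne_top
    exact h3 h1.symm
  have hlim := PDua_J_lim hω hJ1
  have hs2 : (s : ℝ≥0∞) + 2 ≠ ∞ := ENNReal.add_ne_top.2 ⟨ENNReal.natCast_ne_top s, by norm_num⟩
  have hs3 : (s : ℝ≥0∞) + 3 ≠ ∞ := ENNReal.add_ne_top.2 ⟨ENNReal.natCast_ne_top s, by norm_num⟩
  have ht : Filter.Tendsto (fun k => ENNReal.ofReal (PDua_t k ^ (s + 2))) Filter.atTop (nhds 0) := by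
    have h1 : Filter.Tendsto (fun k => PDua_t k ^ (s + 2)) Filter.atTop (nhds (0 ^ (s + 2))) := by
      refine Filter.Tendsto.pow ?_ _
      unfold PDua_t
      exact tendsto_inv_atTop_zero.comp
        (Filter.tendsto_atTop_add_const_right _ _ tendsto_natCast_atTop_atTop)
    rw [zero_pow (by omega)] at h1
    have h2 := ENNReal.tendsto_ofReal h1
    rwa [ENNReal.ofReal_zero] at h2
  have hL : Filter.Tendsto (fun k => ((s : ℝ≥0∞) + 3) * ((s + 2) * mass ω) +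
      (s + 2) * (s + 3) * PDua_J ω (PDua_t k)) Filter.atTop
      (nhds (((s : ℝ≥0∞) + 3) * ((s + 2) * mass ω) + (s + 2) * (s + 3) * 0)) :=
    tendsto_const_nhds.add (ENNReal.Tendsto.const_mul hlim (Or.inr (ENNReal.mul_ne_top hs2 hs3)))
  have hR : Filter.Tendsto (fun k => (s + 2) * ((s + 2) * mass ω) *
      ENNReal.ofReal (PDua_t k ^ (s + 2)) + (s + 3) * c) Filter.atTop
      (nhds ((s + 2) * ((s + 2) * mass ω) * 0 + (s + 3) * c)) :=
    (ENNReal.Tendsto.const_mul ht (Or.inr (ENNReal.mul_ne_top hs2 (ENNReal.mul_ne_top hs2 hV)))).add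
      tendsto_const_nhds
  have hE := tendsto_nhds_unique (hL.congr fun k => key _ (PDua_t_pos k)) hR
  rw [mul_zero, mul_zero, add_zero, zero_add] at hE
  have h30 : (s : ℝ≥0∞) + 3 ≠ 0 := by simp
  exact ((ENNReal.mul_right_inj h30 hs3).1 hE).symm

/-- Truncation. -/
def PDua_H (H : ℝ → ℝ≥0∞) (k : ℕ) (x : ℝ) : ℝ≥0∞ := PDua_I k x * min (H x) k

theorem PDua_meas_H {H : ℝ → ℝ≥0∞} (hH : Measurable H) (k : ℕ) : Measurable (PDua_H H k) :=
  (PDua_meas_I _).mul (hH.min measurable_const)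

theorem PDua_mono_H (H : ℝ → ℝ≥0∞) (x : ℝ) : Monotone fun k => PDua_H H k x := by
  intro j k hjk
  have hjk' : (j : ℝ) ≤ k := by exact_mod_cast hjk
  have h1 : PDua_I j x ≤ PDua_I k x := by
    unfold PDua_I
    by_cases h : x ≤ j
    · rw [if_pos h, if_pos (h.trans hjk')]
    · rw [if_neg h]
      exact zero_le
  have h2 : (j : ℝ≥0∞) ≤ k := by exact_mod_cast hjk
  have h3 : min (H x) (j : ℝ≥0∞) ≤ min (H x) k := min_le_min le_rfl h2
  exact mul_le_mul' h1 h3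

theorem PDua_iSup_H (H : ℝ → ℝ≥0∞) (x : ℝ) : ⨆ k, PDua_H H k x = H x := by
  refine iSup_eq_of_tendsto (PDua_mono_H H x) ?_
  have h1 : Filter.Tendsto (fun k : ℕ => min (H x) (k : ℝ≥0∞)) Filter.atTop (nhds (min (H x) ∞)) :=
    tendsto_const_nhds.min ENNReal.tendsto_nat_nhds_top
  rw [min_eq_left le_top] at h1
  refine h1.congr' ?_
  obtain ⟨m, hm⟩ := exists_nat_ge x
  filter_upwards [Filter.eventually_ge_atTop m] with k hk
  have h2 : x ≤ k := hm.trans (by exact_mod_cast hk)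
  unfold PDua_H PDua_I
  rw [if_pos h2, one_mul]

theorem PDua_sup1 {n : ℕ} {ω : X n → ℝ≥0∞} (hω : Measurable ω) {H : ℝ → ℝ≥0∞} (hH : Measurable H) :
    ∫⁻ g, ω g * (H |dt g| * Sd g) = ⨆ k, ∫⁻ g, ω g * (PDua_H H k |dt g| * Sd g) := by
  have hm : ∀ k, Measurable fun g => ω g * (PDua_H H k |dt g| * Sd g) := fun k =>
    hω.mul (((PDua_meas_H hH k).comp PDua_meas_abs).mul measurable_Sd)
  rw [← lintegral_iSup hm
    (fun j k hjk g => mul_le_mul' le_rfl (mul_le_mul' (PDua_mono_H H _ hjk) le_rfl))]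
  refine lintegral_congr fun g => ?_
  rw [← ENNReal.mul_iSup, ← ENNReal.iSup_mul, PDua_iSup_H]

theorem PDua_sup2 (m : ℕ) {H : ℝ → ℝ≥0∞} (hH : Measurable H) :
    ∫⁻ x in Set.Ioi (0 : ℝ), H x * ENNReal.ofReal (x ^ m) =
      ⨆ k, ∫⁻ x in Set.Ioi (0 : ℝ), PDua_H H k x * ENNReal.ofReal (x ^ m) := by
  have hm : ∀ k, Measurable fun x : ℝ => PDua_H H k x * ENNReal.ofReal (x ^ m) := fun k =>
    (PDua_meas_H hH k).mul (measurable_id.pow_const _).ennreal_ofReal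
  rw [← lintegral_iSup hm (fun j k hjk x => mul_le_mul' (PDua_mono_H H _ hjk) le_rfl)]
  refine lintegral_congr fun x => ?_
  rw [← ENNReal.iSup_mul, PDua_iSup_H]

theorem PDua_fin (m : ℕ) (H : ℝ → ℝ≥0∞) (k : ℕ) :
    ∫⁻ x in Set.Ioi (0 : ℝ), PDua_H H k x * ENNReal.ofReal (x ^ m) ≠ ∞ := by
  have hk : (0 : ℝ) < (k : ℝ) + 1 := by positivity
  have h1 := PDua_pow m hk
  have h2 : ∫⁻ x in Set.Ioi (0 : ℝ), PDua_I ((k : ℝ) + 1) x * ENNReal.ofReal (x ^ m) ≠ ∞ := by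
    intro h
    rw [h, ENNReal.mul_top (by simp)] at h1
    exact ENNReal.ofReal_ne_top h1.symm
  have h3 : ∫⁻ x in Set.Ioi (0 : ℝ), PDua_H H k x * ENNReal.ofReal (x ^ m) ≤
      k * ∫⁻ x in Set.Ioi (0 : ℝ), PDua_I ((k : ℝ) + 1) x * ENNReal.ofReal (x ^ m) := by
    have hm : Measurable fun x : ℝ => PDua_I ((k : ℝ) + 1) x * ENNReal.ofReal (x ^ m) :=
      (PDua_meas_I _).mul (measurable_id.pow_const _).ennreal_ofReal
    rw [← lintegral_const_mul _ hm]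
    refine lintegral_mono fun x => ?_
    have h4 : PDua_I k x ≤ PDua_I ((k : ℝ) + 1) x := by
      unfold PDua_I
      by_cases h : x ≤ k
      · rw [if_pos h, if_pos (by linarith)]
      · rw [if_neg h]
        exact zero_le
    calc PDua_H H k x * ENNReal.ofReal (x ^ m)
        ≤ (PDua_I ((k : ℝ) + 1) x * k) * ENNReal.ofReal (x ^ m) :=
          mul_le_mul' (mul_le_mul' h4 (min_le_right _ _)) le_rfl
      _ = k * (PDua_I ((k : ℝ) + 1) x * ENNReal.ofReal (x ^ m)) := by ring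
  exact ne_top_of_le_ne_top (ENNReal.mul_ne_top (ENNReal.natCast_ne_top k) h2) h3

theorem dual_mean {s : ℕ} {ω : X (s + 2) → ℝ≥0∞} (hω : IsWt ω) {H : ℝ → ℝ≥0∞}
    (hH : Measurable H) :
    ∫⁻ g, ω g * (H |dt g| * Sd g) =
      (s + 2) * mass ω * ∫⁻ x in Set.Ioi (0 : ℝ), H x * ENNReal.ofReal (x ^ (s + 2)) := by
  obtain ⟨c, hc1, hc⟩ := siegel hω
  have hcV := PDua_const hω hc1 hc
  have hs2 : (s : ℝ≥0∞) + 2 ≠ ∞ := ENNReal.add_ne_top.2 ⟨ENNReal.natCast_ne_top s, by norm_num⟩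
  have hV : mass ω ≠ ∞ := hω.fin
  rw [PDua_sup1 hω.meas hH, PDua_sup2 (s + 2) hH, ENNReal.mul_iSup]
  congr 1
  funext k
  have h1 := PDua_star hω hc (PDua_meas_H hH k)
  rw [hcV, add_comm] at h1
  refine (ENNReal.add_left_inj ?_).1 h1
  exact ENNReal.mul_ne_top (ENNReal.mul_ne_top hs2 hV) (PDua_fin _ H k)

end Pool.Agent.GL74
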