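import Pool.Agent.W_7742x_h74.WSie
import Pool.Agent.W_7742x_h74.WExi

/-! # Short vectors: an integral bound

`Lam h = sup_{w ≠ 0} ‖w h‖^{-1/2}` (sup norm).

`lam_fin`: `Lam h ≤ 1 + ∑_{w ≠ 0} Ψ (w h)`, `Ψ x = ‖x‖^{-1/2}` for `‖x‖ ≤ 1`, `0` otherwise.  For
size `s + 1 ≥ 2` the integral over `|dt h| ≤ 1` is finite by `siegel`
(`∫_0^1 x^{s-1} dx < ∞`, `∫ Ψ < ∞`: in dimension `≥ 1` the function `‖x‖^{-1/2}` is locally
integrable, e.g. `‖x‖^{-1/2} ≤ |x_0|^{-1/2}` (`x_0 ≠ 0`)).  For size `1`: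
`wt 1 = 1` almost everywhere, `‖w h‖ ≥ |h|`, `Lam h = |h|^{-1/2}`, integrable on `|h| ≤ 1`.
`Lam_smul`: homogeneity. -/

set_option autoImplicit false

noncomputable section

namespace Pool.Agent.GL74

open MeasureTheory
open scoped ENNReal MatrixGroups

/-- The supremum of `‖w h‖^{-1/2}` over the nonzero integral vectors. -/
def Lam {n : ℕ} (h : X n) : ℝ≥0∞ :=
  ⨆ w : {w : Fin n → ℤ // w ≠ 0}, ENNReal.ofReal (‖rv (zr w.1) h‖ ^ (-(1 / 2) : ℝ))

theorem PLam_rv {n : ℕ} (v : Fin n → ℝ) : Measurable (rv v : X n → (Fin n → ℝ)) := by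
  refine measurable_pi_iff.2 fun j => ?_
  unfold rv
  fun_prop

theorem measurable_Lam {n : ℕ} : Measurable (Lam : X n → ℝ≥0∞) := by
  unfold Lam
  refine Measurable.iSup fun w => ?_
  exact (((PLam_rv (zr w.1)).norm).pow_const _).ennreal_ofReal

theorem PLam_rv_smul {n : ℕ} (v : Fin n → ℝ) (t : ℝ) (h : X n) : rv v (t • h) = t • rv v h := by
  funext j
  unfold rv
  rw [Pi.smul_apply, smul_eq_mul, Finset.mul_sum]
  refine Finset.sum_congr rfl fun i _ => ?_
  rw [Pi.smul_apply, Pi.smul_apply, smul_eq_mul]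
  ring

theorem Lam_smul {n : ℕ} {t : ℝ} (ht : 0 < t) (h : X n) :
    Lam (t • h) = ENNReal.ofReal (t ^ (-(1 / 2) : ℝ)) * Lam h := by
  unfold Lam
  rw [ENNReal.mul_iSup]
  refine iSup_congr fun w => ?_
  rw [PLam_rv_smul, norm_smul, Real.norm_eq_abs, abs_of_pos ht,
    Real.mul_rpow ht.le (norm_nonneg _), ENNReal.ofReal_mul (Real.rpow_nonneg ht.le _)]

/-- `|x|^{-1/2}` on `[-1, 1]`. -/
def PLam_f (x : ℝ) : ℝ≥0∞ := if |x| ≤ 1 then ENNReal.ofReal (|x| ^ (-(1 / 2) : ℝ)) else 0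

theorem PLam_f_meas : Measurable PLam_f := by
  refine Measurable.ite (measurableSet_le measurable_id.abs measurable_const) ?_ measurable_const
  exact (measurable_id.abs.pow_const _).ennreal_ofReal

theorem PLam_f_fin : ∫⁻ x, PLam_f x ≠ ∞ := by
  set k : ℝ → ℝ≥0∞ := (Set.Ioc (0 : ℝ) 1).indicator fun x => ENNReal.ofReal (x ^ (-(1 / 2) : ℝ))
    with hk
  have hkm : Measurable k :=
    ((measurable_id.pow_const _).ennreal_ofReal).indicator measurableSet_Ioc
  have hki : ∫⁻ x, k x ≠ ∞ := by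
    rw [hk, lintegral_indicator measurableSet_Ioc]
    have h1 : IntervalIntegrable (fun x : ℝ => x ^ (-(1 / 2) : ℝ)) volume 0 1 :=
      intervalIntegral.intervalIntegrable_rpow' (by norm_num)
    rw [intervalIntegrable_iff_integrableOn_Ioc_of_le zero_le_one] at h1
    exact (Integrable.lintegral_lt_top h1).ne
  have h2 : ∀ x, PLam_f x ≤ k x + k (-x) := by
    intro x
    unfold PLam_f
    by_cases h1 : |x| ≤ 1
    · rw [if_pos h1]
      rcases lt_trichotomy x 0 with hx | hx | hx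
      · have h3 : k (-x) = ENNReal.ofReal (|x| ^ (-(1 / 2) : ℝ)) := by
          rw [abs_of_neg hx] at h1 ⊢
          rw [hk]
          exact Set.indicator_of_mem (Set.mem_Ioc.2 ⟨by linarith, h1⟩) _
        rw [h3]
        exact le_add_self
      · rw [hx, abs_zero, Real.zero_rpow (by norm_num), ENNReal.ofReal_zero]
        exact zero_le
      · have h3 : k x = ENNReal.ofReal (|x| ^ (-(1 / 2) : ℝ)) := by
          rw [abs_of_pos hx] at h1 ⊢
          rw [hk]
          exact Set.indicator_of_mem (Set.mem_Ioc.2 ⟨hx, h1⟩) _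
        rw [h3]
        exact le_self_add
    · rw [if_neg h1]
      exact zero_le
  have h3 : ∫⁻ x, k (-x) = ∫⁻ x, k x := (Measure.measurePreserving_neg volume).lintegral_comp hkm
  refine ne_top_of_le_ne_top ?_ (lintegral_mono h2)
  rw [lintegral_add_left hkm, h3]
  exact ENNReal.add_ne_top.2 ⟨hki, hki⟩

/-- The function `‖x‖^{-1/2}` on the unit cube. -/
def PLam_Ψ {n : ℕ} (x : Fin n → ℝ) : ℝ≥0∞ :=
  if ‖x‖ ≤ 1 then ENNReal.ofReal (‖x‖ ^ (-(1 / 2) : ℝ)) else 0

theorem PLam_Ψ_meas {n : ℕ} : Measurable (PLam_Ψ : (Fin n → ℝ) → ℝ≥0∞) := by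
  refine Measurable.ite (measurableSet_le measurable_norm measurable_const) ?_ measurable_const
  exact (measurable_norm.pow_const _).ennreal_ofReal

theorem PLam_Ψ_fin {n : ℕ} : ∫⁻ x : Fin (n + 1) → ℝ, PLam_Ψ x ≠ ∞ := by
  have h0 : Measurable fun x : Fin (n + 1) → ℝ => PLam_f (x 0) *
      (Set.Icc (-1 : Fin n → ℝ) 1).indicator 1 (fun i => x i.succ) := by
    refine (PLam_f_meas.comp (measurable_pi_apply 0)).mul ?_
    refine (measurable_one.indicator measurableSet_Icc).comp ?_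
    exact measurable_pi_iff.2 fun i => measurable_pi_apply _
  have h1 : ∀ᵐ x : Fin (n + 1) → ℝ, PLam_Ψ x ≤ PLam_f (x 0) *
      (Set.Icc (-1 : Fin n → ℝ) 1).indicator 1 (fun i => x i.succ) := by
    filter_upwards [ae_ne_zero n] with x hx
    unfold PLam_Ψ
    by_cases h : ‖x‖ ≤ 1
    · rw [if_pos h]
      have h2 : ∀ i, |x i| ≤ 1 := fun i => (norm_le_pi_norm x i).trans h
      have h3 : (fun i : Fin n => x i.succ) ∈ Set.Icc (-1 : Fin n → ℝ) 1 := by
        rw [Set.mem_Icc, Pi.le_def, Pi.le_def]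
        exact ⟨fun i => (abs_le.1 (h2 i.succ)).1, fun i => (abs_le.1 (h2 i.succ)).2⟩
      rw [Set.indicator_of_mem h3, Pi.one_apply, mul_one]
      unfold PLam_f
      rw [if_pos (h2 0)]
      apply ENNReal.ofReal_le_ofReal
      exact Real.rpow_le_rpow_of_nonpos (abs_pos.2 hx) (norm_le_pi_norm x 0) (by norm_num)
    · rw [if_neg h]
      exact zero_le
  refine ne_top_of_le_ne_top ?_ (lintegral_mono_ae h1)
  rw [lintegral_cons h0]
  have h2 : ∀ v : ℝ, ∫⁻ w : Fin n → ℝ, PLam_f ((Fin.cons v w : Fin (n + 1) → ℝ) 0) *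
      (Set.Icc (-1 : Fin n → ℝ) 1).indicator 1
        (fun i => (Fin.cons v w : Fin (n + 1) → ℝ) i.succ) =
      PLam_f v * volume (Set.Icc (-1 : Fin n → ℝ) 1) := by
    intro v
    simp only [Fin.cons_zero, Fin.cons_succ]
    rw [lintegral_const_mul _ (measurable_one.indicator measurableSet_Icc),
      lintegral_indicator_one measurableSet_Icc]
  simp_rw [h2]
  rw [lintegral_mul_const _ PLam_f_meas]
  refine ENNReal.mul_ne_top PLam_f_fin ?_
  exact (isCompact_Icc.measure_lt_top).ne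

theorem PLam_le {n : ℕ} (h : X n) :
    Lam h ≤ 1 + ∑' w : {w : Fin n → ℤ // w ≠ 0}, PLam_Ψ (rv (zr w.1) h) := by
  unfold Lam
  refine iSup_le fun w => ?_
  by_cases h1 : ‖rv (zr w.1) h‖ ≤ 1
  · have h2 : ENNReal.ofReal (‖rv (zr w.1) h‖ ^ (-(1 / 2) : ℝ)) = PLam_Ψ (rv (zr w.1) h) := by
      unfold PLam_Ψ
      rw [if_pos h1]
    rw [h2]
    exact (ENNReal.le_tsum (f := fun w : {w : Fin n → ℤ // w ≠ 0} => PLam_Ψ (rv (zr w.1) h)) w).trans
      le_add_self
  · refine le_trans ?_ le_self_add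
    have h2 : ‖rv (zr w.1) h‖ ^ (-(1 / 2) : ℝ) ≤ 1 :=
      Real.rpow_le_one_of_one_le_of_nonpos (not_le.1 h1).le (by norm_num)
    calc ENNReal.ofReal (‖rv (zr w.1) h‖ ^ (-(1 / 2) : ℝ)) ≤ ENNReal.ofReal 1 :=
          ENNReal.ofReal_le_ofReal h2
      _ = 1 := ENNReal.ofReal_one

theorem PLam_succ (s : ℕ) :
    ∫⁻ h in {h : X (s + 2) | |dt h| ≤ 1}, wt (s + 2) h * Lam h ≠ ∞ := by
  have hω := isWt_wt (s + 2)
  obtain ⟨c, hc, hs⟩ := siegel hω
  have hS : MeasurableSet {h : X (s + 2) | |dt h| ≤ 1} :=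
    measurableSet_le measurable_dt.abs measurable_const
  set H : ℝ → ℝ≥0∞ := (Set.Iic (1 : ℝ)).indicator 1 with hH
  have hHm : Measurable H := measurable_one.indicator measurableSet_Iic
  have h1 := hs H PLam_Ψ hHm PLam_Ψ_meas
  have h2 : ∫⁻ h in {h : X (s + 2) | |dt h| ≤ 1}, wt (s + 2) h * Lam h ≤
      (∫⁻ h in {h : X (s + 2) | |dt h| ≤ 1}, wt (s + 2) h) +
      ∫⁻ g, wt (s + 2) g * (H |dt g| * ∑' v : {v : Fin (s + 2) → ℤ // v ≠ 0},
        PLam_Ψ (rv (zr v.1) g)) := by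
    rw [← lintegral_indicator hS, ← lintegral_indicator hS,
      ← lintegral_add_left (hω.meas.indicator hS)]
    refine lintegral_mono fun g => ?_
    by_cases hg : g ∈ {h : X (s + 2) | |dt h| ≤ 1}
    · rw [Set.indicator_of_mem hg, Set.indicator_of_mem hg]
      have h3 : H |dt g| = 1 := by
        rw [hH]
        exact Set.indicator_of_mem (Set.mem_Iic.2 hg) _
      rw [h3, one_mul]
      calc wt (s + 2) g * Lam g ≤ wt (s + 2) g *
            (1 + ∑' w : {w : Fin (s + 2) → ℤ // w ≠ 0}, PLam_Ψ (rv (zr w.1) g)) := by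
            gcongr
            exact PLam_le g
        _ = _ := by rw [mul_add, mul_one]
    · rw [Set.indicator_of_notMem hg]
      exact zero_le
  refine ne_top_of_le_ne_top ?_ h2
  rw [h1]
  refine ENNReal.add_ne_top.2 ⟨hω.fin, ENNReal.mul_ne_top (ENNReal.mul_ne_top hc ?_) PLam_Ψ_fin⟩
  have h3 : ∫⁻ x in Set.Ioi (0 : ℝ), H x * ENNReal.ofReal (x ^ s) ≤
      ∫⁻ x, (Set.Ioc (0 : ℝ) 1).indicator 1 x := by
    rw [← lintegral_indicator measurableSet_Ioi]
    refine lintegral_mono fun x => ?_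
    by_cases hx : x ∈ Set.Ioi (0 : ℝ)
    · rw [Set.indicator_of_mem hx]
      by_cases hx1 : x ≤ 1
      · have h4 : H x = 1 := by
          rw [hH]
          exact Set.indicator_of_mem (Set.mem_Iic.2 hx1) _
        rw [h4, one_mul, Set.indicator_of_mem (Set.mem_Ioc.2 ⟨hx, hx1⟩), Pi.one_apply]
        calc ENNReal.ofReal (x ^ s) ≤ ENNReal.ofReal 1 :=
              ENNReal.ofReal_le_ofReal (pow_le_one₀ (le_of_lt hx) hx1)
          _ = 1 := ENNReal.ofReal_one
      · have h4 : H x = 0 := by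
          rw [hH]
          exact Set.indicator_of_notMem (fun h => hx1 (Set.mem_Iic.1 h)) _
        rw [h4, zero_mul]
        exact zero_le
    · rw [Set.indicator_of_notMem hx]
      exact zero_le
  refine ne_top_of_le_ne_top ?_ h3
  rw [lintegral_indicator_one measurableSet_Ioc, Real.volume_Ioc]
  exact ENNReal.ofReal_ne_top

theorem PLam_wt_one : ∀ᵐ g : X 1, wt 1 g = 1 := by
  filter_upwards [(isWt_wt 1).sum] with g hg
  have h1 : ∀ γ : SL(1, ℤ), γ = 1 := by
    intro γ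
    have h2 := γ.2
    rw [Matrix.det_unique] at h2
    ext i j
    have hi : i = default := Subsingleton.elim _ _
    have hj : j = default := Subsingleton.elim _ _
    subst hi hj
    rw [h2]
    simp
  have h3 : ∑' γ : SL(1, ℤ), wt 1 (sl γ g) = wt 1 (sl 1 g) :=
    tsum_eq_single 1 fun γ hγ => absurd (h1 γ) hγ
  rw [h3, sl_one] at hg
  exact hg

theorem PLam_one :
    ∫⁻ h in {h : X 1 | |dt h| ≤ 1}, wt 1 h * Lam h ≠ ∞ := by
  have hS : MeasurableSet {h : X 1 | |dt h| ≤ 1} :=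
    measurableSet_le measurable_dt.abs measurable_const
  have hd : ∀ h : X 1, dt h = h 0 0 := by
    intro h
    unfold dt
    rw [Matrix.det_unique]
    rfl
  have h1 : ∀ᵐ h : X 1, {h : X 1 | |dt h| ≤ 1}.indicator (fun h => wt 1 h * Lam h) h ≤
      PLam_f (h 0 0) := by
    filter_upwards [PLam_wt_one] with h hw
    by_cases hh : h ∈ {h : X 1 | |dt h| ≤ 1}
    · rw [Set.indicator_of_mem hh, hw, one_mul]
      have hh' : |h 0 0| ≤ 1 := by
        rw [← hd h]
        exact hh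
      unfold PLam_f
      rw [if_pos hh']
      unfold Lam
      refine iSup_le fun w => ?_
      apply ENNReal.ofReal_le_ofReal
      have hw0 : w.1 0 ≠ 0 := by
        intro h0
        apply w.2
        funext i
        have hi : i = 0 := Subsingleton.elim _ _
        rw [hi, h0]
        rfl
      have hn : ‖rv (zr w.1) h‖ = |(w.1 0 : ℝ)| * |h 0 0| := by
        have h2 : rv (zr w.1) h = fun _ => (w.1 0 : ℝ) * h 0 0 := by
          funext j
          have hj : j = 0 := Subsingleton.elim _ _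
          rw [hj]
          unfold rv zr
          simp
        rw [h2, pi_norm_const, Real.norm_eq_abs, abs_mul]
      rw [hn]
      have hw1 : (1 : ℝ) ≤ |(w.1 0 : ℝ)| := by
        have h3 : (1 : ℤ) ≤ |w.1 0| := Int.one_le_abs hw0
        exact_mod_cast h3
      rcases eq_or_ne (h 0 0) 0 with h0 | h0
      · rw [h0, abs_zero, mul_zero]
      · refine Real.rpow_le_rpow_of_nonpos (abs_pos.2 h0) ?_ (by norm_num)
        nlinarith [abs_nonneg (h 0 0)]
    · rw [Set.indicator_of_notMem hh]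
      exact zero_le
  rw [← lintegral_indicator hS]
  refine ne_top_of_le_ne_top ?_ (lintegral_mono_ae h1)
  have hm1 : Measurable fun h : Fin 1 → (Fin 1 → ℝ) => PLam_f (h 0 0) :=
    PLam_f_meas.comp ((measurable_pi_apply 0).comp (measurable_pi_apply 0))
  have hm2 : Measurable fun h : Fin 1 → ℝ => PLam_f (h 0) :=
    PLam_f_meas.comp (measurable_pi_apply 0)
  have e1 : ∫⁻ h : X 1, PLam_f (h 0 0) = ∫⁻ v : Fin 1 → ℝ, PLam_f (v 0) := by
    rw [lintegral_cons hm1]
    refine lintegral_congr fun v => ?_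
    show ∫⁻ _w : Fin 0 → (Fin 1 → ℝ), PLam_f (v 0) = PLam_f (v 0)
    rw [lintegral_const, volume_pi, Measure.pi_univ, Finset.univ_eq_empty, Finset.prod_empty,
      mul_one]
  have e2 : ∫⁻ v : Fin 1 → ℝ, PLam_f (v 0) = ∫⁻ x : ℝ, PLam_f x := by
    rw [lintegral_cons hm2]
    refine lintegral_congr fun v => ?_
    show ∫⁻ _w : Fin 0 → ℝ, PLam_f v = PLam_f v
    rw [lintegral_const, volume_pi, Measure.pi_univ, Finset.univ_eq_empty, Finset.prod_empty,
      mul_one]
  rw [e1, e2]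
  exact PLam_f_fin

theorem lam_fin (s : ℕ) :
    ∫⁻ h in {h : X (s + 1) | |dt h| ≤ 1}, wt (s + 1) h * Lam h ≠ ∞ := by
  cases s with
  | zero => exact PLam_one
  | succ s => exact PLam_succ s

end Pool.Agent.GL74
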