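import Pool.Agent.W_7742x_h74.PLam
import Pool.Agent.W_7742x_h74.FCoe

/-! # Decay from the Lipschitz condition

Let `v 0 ≠ 0`, `dt h ≠ 0` (size `n = s + 2`, `h` of size `s + 1`), `|v|₁ = ∑ |v i|`.  For
`y' ∈ ℝ^{s+1}` let `y = (y_0, y')`, `y_0 = -(∑ v_{i+1} y'_i)/v_0`, so that `∑ v_i y_i = 0`, and
`x = 1 + y ⊗ v` (entries `δ_ij + y_i v_j`), `det x = 1`.  Then
`rm (glue h (v 0 θ) v) x = glue h (v 0 (θ + h y')) v` (the row `r` becomes `r + (r·y) v`; the first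
row is `v`, and `(row i+1)·y = (h y')_i`), and
`∑_{ij} |x_ij - δ_ij| = |y|₁ |v|₁ ≤ |y'|₁ |v|₁² / |v 0|`.

By Parseval for the periodic function `θ ↦ F(θ + h y') - F(θ)`, `F θ = φ (glue h (v 0 θ) v)`
(Fourier coefficients `(e(w·h y') - 1) coef w φ v h`),
`∑_w |e (w h · y') - 1|² ‖coef w‖² ≤ (C |y'|₁ |v|₁²/|v 0|)²`.  Integrate over `y' ∈ [0,ρ]^{s+1}`,
`ρ = 1/λ`, `λ = min_{w ≠ 0} ‖w h‖` (attained, `finite_short`): for `w ≠ 0`, some coordinate
`x_j = (w h)_j` has `|x_j| ρ ≥ 1`, so the mean of `|e (x·y') - 1|² = 2 - 2 Re ∏_j mean e(x_j y'_j)`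
is at least `2 - 2/π ≥ 1` (`|mean_{[0,ρ]} e (x y)| ≤ 1/(π |x| ρ)`).  As `coef 0 = 0`,
`A := ∫_θ ‖F θ‖² = ∑_{w ≠ 0} ‖coef w‖² ≤ (C (s+1) ρ |v|₁²/|v 0|)²`.  Also `A ≤ C₀²`.  Hence
`A ≤ C₁ (ρ |v|₁²/|v 0|)^{1/2}`, `C₁ = max (C₀, C (s+1))²` (`min (1, x²) ≤ x^{1/2}`), and
`ρ^{1/2} = Lam h`. -/

set_option autoImplicit false

noncomputable section

namespace Pool.Agent.GL74

open MeasureTheory
open scoped ENNReal MatrixGroups

theorem PLip_coef {s : ℕ} {F : (Fin s → ℝ) → ℂ} (hF : IsPer F) (x : Fin s → ℝ)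
    (w : Fin s → ℤ) :
    ∫ θ in Set.Icc (0 : Fin s → ℝ) 1, e (-(∑ i, (w i : ℝ) * θ i)) * (F (θ + x) - F θ) =
      (e (∑ i, (w i : ℝ) * x i) - 1) *
        ∫ θ in Set.Icc (0 : Fin s → ℝ) 1, e (-(∑ i, (w i : ℝ) * θ i)) * F θ := by
  have hG := isPer_mul hF w
  have h1 := int_shift hG x
  have hsplit : ∀ θ : Fin s → ℝ, e (-(∑ i, (w i : ℝ) * θ i)) * (F (θ + x) - F θ) =
      e (∑ i, (w i : ℝ) * x i) * (e (-(∑ i, (w i : ℝ) * (θ + x) i)) * F (θ + x)) -
        e (-(∑ i, (w i : ℝ) * θ i)) * F θ := by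
    intro θ
    have h2 : e (-(∑ i, (w i : ℝ) * θ i)) =
        e (∑ i, (w i : ℝ) * x i) * e (-(∑ i, (w i : ℝ) * (θ + x) i)) := by
      unfold e
      rw [← Complex.exp_add]
      congr 1
      rw [← mul_add]
      congr 1
      rw [← Complex.ofReal_add]
      congr 1
      simp only [Pi.add_apply, mul_add, Finset.sum_add_distrib]
      ring
    rw [mul_sub]
    congr 1
    rw [h2]
    ring
  simp only [hsplit]
  have hvol : (volume : Measure (Fin s → ℝ)) (Set.Icc 0 1) = 1 := by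
    rw [Real.volume_Icc_pi]
    simp
  have hfin : IsFiniteMeasure ((volume : Measure (Fin s → ℝ)).restrict (Set.Icc 0 1)) :=
    ⟨by rw [Measure.restrict_apply_univ, hvol]; exact ENNReal.one_lt_top⟩
  obtain ⟨B, hB⟩ := hG.bdd
  have hi1 : Integrable (fun θ : Fin s → ℝ => e (-(∑ i, (w i : ℝ) * θ i)) * F θ)
      ((volume : Measure (Fin s → ℝ)).restrict (Set.Icc 0 1)) :=
    Integrable.of_bound hG.meas.aestronglyMeasurable B (Filter.Eventually.of_forall hB)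
  have hi2 : Integrable (fun θ : Fin s → ℝ =>
        e (-(∑ i, (w i : ℝ) * (θ + x) i)) * F (θ + x))
      ((volume : Measure (Fin s → ℝ)).restrict (Set.Icc 0 1)) :=
    Integrable.of_bound (hG.meas.comp (measurable_id.add_const x)).aestronglyMeasurable B
      (Filter.Eventually.of_forall fun θ => hB _)
  rw [integral_sub (hi2.const_mul _) hi1, integral_const_mul, h1]
  ring

theorem PLip_norm_e_sub_one (y : ℝ) : ‖e y - 1‖ ^ 2 = 2 - 2 * Real.cos (2 * Real.pi * y) := by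
  have h : e y = ⟨Real.cos (2 * Real.pi * y), Real.sin (2 * Real.pi * y)⟩ := by
    unfold e
    have h : (2 * Real.pi * Complex.I * y : ℂ) = ((2 * Real.pi * y : ℝ) : ℂ) * Complex.I := by
      push_cast
      ring
    rw [h]
    apply Complex.ext
    · rw [Complex.exp_ofReal_mul_I_re]
    · rw [Complex.exp_ofReal_mul_I_im]
  rw [h, ← Complex.normSq_eq_norm_sq, Complex.normSq_apply]
  simp only [Complex.sub_re, Complex.sub_im, Complex.one_re, Complex.one_im]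
  have := Real.sin_sq_add_cos_sq (2 * Real.pi * y)
  nlinarith

theorem PLip_int (x : ℝ) (hx : x ≠ 0) (ρ : ℝ) :
    ∫ t in (0 : ℝ)..ρ, (2 - 2 * Real.cos (2 * Real.pi * (x * t))) =
      2 * ρ - Real.sin (2 * Real.pi * (x * ρ)) / (Real.pi * x) := by
  have hd : ∀ t ∈ Set.uIcc (0 : ℝ) ρ, HasDerivAt
      (fun t : ℝ => 2 * t - Real.sin (2 * Real.pi * (x * t)) / (Real.pi * x))
      (2 - 2 * Real.cos (2 * Real.pi * (x * t))) t := by
    intro t _
    have h1 : HasDerivAt (fun t : ℝ => 2 * Real.pi * (x * t)) (2 * Real.pi * x) t := by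
      have := ((hasDerivAt_id t).const_mul x).const_mul (2 * Real.pi)
      simpa using this
    have h2 := (h1.sin).div_const (Real.pi * x)
    have h3 := ((hasDerivAt_id t).const_mul (2 : ℝ)).sub h2
    have hpi := Real.pi_ne_zero
    have h4 : (2 : ℝ) * 1 - Real.cos (2 * Real.pi * (x * t)) * (2 * Real.pi * x) / (Real.pi * x) =
        2 - 2 * Real.cos (2 * Real.pi * (x * t)) := by
      field_simp
    rw [h4] at h3
    exact h3
  rw [intervalIntegral.integral_eq_sub_of_hasDerivAt hd]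
  · simp
  · apply Continuous.intervalIntegrable
    fun_prop

theorem PLip_mean {x ρ : ℝ} (hρ : 0 < ρ) (h : 1 ≤ |x| * ρ) :
    ENNReal.ofReal ρ ≤ ∫⁻ t in Set.Ioc 0 ρ, ‖e (x * t) - 1‖ₑ ^ 2 := by
  have hx : x ≠ 0 := by
    rintro rfl
    simp at h
    linarith
  have h1 : ∀ t : ℝ, ‖e (x * t) - 1‖ₑ ^ 2 =
      ENNReal.ofReal (2 - 2 * Real.cos (2 * Real.pi * (x * t))) := by
    intro t
    rw [← PLip_norm_e_sub_one, ← ofReal_norm, ENNReal.ofReal_pow (norm_nonneg _)]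
  simp only [h1]
  rw [← ofReal_integral_eq_lintegral_ofReal]
  · apply ENNReal.ofReal_le_ofReal
    rw [← intervalIntegral.integral_of_le hρ.le, PLip_int x hx ρ]
    have hpi := Real.pi_gt_three
    have hax : 0 < |x| := abs_pos.2 hx
    have h2 : Real.sin (2 * Real.pi * (x * ρ)) / (Real.pi * x) ≤ ρ := by
      refine (le_abs_self _).trans ?_
      rw [abs_div, abs_mul, abs_of_pos Real.pi_pos, div_le_iff₀ (by positivity)]
      refine (Real.abs_sin_le_one _).trans ?_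
      nlinarith
    linarith
  · have : Continuous fun t : ℝ => 2 - 2 * Real.cos (2 * Real.pi * (x * t)) := by fun_prop
    exact (this.intervalIntegrable 0 ρ).1
  · refine Filter.Eventually.of_forall fun t => ?_
    have := Real.cos_le_one (2 * Real.pi * (x * t))
    show (0 : ℝ) ≤ 2 - 2 * Real.cos (2 * Real.pi * (x * t))
    linarith

/-- The vector `y`. -/
def PLip_y {s : ℕ} (v : Fin (s + 2) → ℝ) (j : Fin (s + 1)) (t : ℝ) : Fin (s + 2) → ℝ :=
  Fin.cons (-(v j.succ * t) / v 0) fun k => if k = j then t else 0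

/-- The matrix `1 + y ⊗ v`. -/
def PLip_x {s : ℕ} (v : Fin (s + 2) → ℝ) (j : Fin (s + 1)) (t : ℝ) :
    Matrix (Fin (s + 2)) (Fin (s + 2)) ℝ :=
  Matrix.of fun i k => (1 : Matrix (Fin (s + 2)) (Fin (s + 2)) ℝ) i k + PLip_y v j t i * v k

theorem PLip_dot {s : ℕ} {v : Fin (s + 2) → ℝ} (hv : v 0 ≠ 0) (j : Fin (s + 1)) (t : ℝ) :
    ∑ i, v i * PLip_y v j t i = 0 := by
  rw [Fin.sum_univ_succ]
  have h1 : ∀ i : Fin (s + 1), v i.succ * PLip_y v j t i.succ =
      if i = j then v i.succ * t else 0 := by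
    intro i
    show v i.succ * (if i = j then t else 0) = _
    split_ifs <;> simp
  simp only [h1]
  rw [Finset.sum_ite_eq']
  rw [if_pos (Finset.mem_univ _)]
  show v 0 * (-(v j.succ * t) / v 0) + v j.succ * t = 0
  field_simp
  ring

theorem PLip_det {s : ℕ} {v : Fin (s + 2) → ℝ} (hv : v 0 ≠ 0) (j : Fin (s + 1)) (t : ℝ) :
    (PLip_x v j t).det = 1 := by
  have h1 : PLip_x v j t = 1 + Matrix.replicateCol (Fin 1) (PLip_y v j t) *
      Matrix.replicateRow (Fin 1) v := by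
    ext i k
    rw [Matrix.add_apply, Matrix.mul_apply]
    simp [PLip_x]
  rw [h1, Matrix.det_one_add_mul_comm]
  rw [Matrix.det_unique]
  simp only [Matrix.add_apply, Matrix.one_apply_eq, Matrix.mul_apply, Matrix.replicateRow_apply,
    Matrix.replicateCol_apply]
  rw [PLip_dot hv]
  ring

theorem PLip_norm {s : ℕ} {v : Fin (s + 2) → ℝ} (hv : v 0 ≠ 0) (j : Fin (s + 1)) {t : ℝ}
    (ht : 0 ≤ t) :
    ∑ i, ∑ k, |PLip_x v j t i k - (1 : Matrix (Fin (s + 2)) (Fin (s + 2)) ℝ) i k| ≤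
      t * ((∑ i, |v i|) ^ 2 / |v 0|) := by
  have h1 : ∀ i k, |PLip_x v j t i k - (1 : Matrix (Fin (s + 2)) (Fin (s + 2)) ℝ) i k| =
      |PLip_y v j t i| * |v k| := by
    intro i k
    rw [← abs_mul]
    congr 1
    show (1 : Matrix (Fin (s + 2)) (Fin (s + 2)) ℝ) i k + PLip_y v j t i * v k - _ = _
    ring
  simp only [h1]
  simp only [← Finset.mul_sum]
  rw [← Finset.sum_mul]
  have hv0 : 0 < |v 0| := abs_pos.2 hv
  have h2 : ∑ i, |PLip_y v j t i| ≤ t * ((∑ i, |v i|) / |v 0|) := by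
    rw [Fin.sum_univ_succ]
    have h3 : ∀ i : Fin (s + 1), |PLip_y v j t i.succ| = if i = j then t else 0 := by
      intro i
      show |(if i = j then t else 0 : ℝ)| = _
      split_ifs
      · exact abs_of_nonneg ht
      · exact abs_zero
    simp only [h3]
    rw [Finset.sum_ite_eq', if_pos (Finset.mem_univ _)]
    have h4 : |PLip_y v j t 0| = |v j.succ| * t / |v 0| := by
      show |-(v j.succ * t) / v 0| = _
      rw [abs_div, abs_neg, abs_mul, abs_of_nonneg ht]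
    rw [h4]
    have h5 : |v 0| + |v j.succ| ≤ ∑ i, |v i| := by
      rw [Fin.sum_univ_succ]
      have := Finset.single_le_sum (f := fun i : Fin (s + 1) => |v i.succ|)
        (fun i _ => abs_nonneg _) (Finset.mem_univ j)
      linarith
    have h6 : |v j.succ| * t / |v 0| + t = t * ((|v 0| + |v j.succ|) / |v 0|) := by
      field_simp
      ring
    rw [h6]
    exact mul_le_mul_of_nonneg_left (div_le_div_of_nonneg_right h5 hv0.le) ht
  have h7 : 0 ≤ ∑ i, |v i| := Finset.sum_nonneg fun i _ => abs_nonneg _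
  calc (∑ i, |PLip_y v j t i|) * ∑ i, |v i| ≤ (t * ((∑ i, |v i|) / |v 0|)) * ∑ i, |v i| :=
        mul_le_mul_of_nonneg_right h2 h7
    _ = t * ((∑ i, |v i|) ^ 2 / |v 0|) := by
        ring

theorem PLip_rm {s : ℕ} {v : Fin (s + 2) → ℝ} (hv : v 0 ≠ 0) (h : X (s + 1))
    (θ : Fin (s + 1) → ℝ) (j : Fin (s + 1)) (t : ℝ) :
    rm (glue h (v 0 • θ) v) (PLip_x v j t) =
      glue h (v 0 • (θ + fun i => h i j * t)) v := by
  have h1 : ∀ i k, rm (glue h (v 0 • θ) v) (PLip_x v j t) i k = glue h (v 0 • θ) v i k +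
      (∑ l, glue h (v 0 • θ) v i l * PLip_y v j t l) * v k := by
    intro i k
    show ∑ l, glue h (v 0 • θ) v i l * ((1 : Matrix (Fin (s + 2)) (Fin (s + 2)) ℝ) l k +
      PLip_y v j t l * v k) = _
    simp only [mul_add, Finset.sum_add_distrib]
    congr 1
    · simp [Matrix.one_apply]
    · rw [Finset.sum_mul]
      exact Finset.sum_congr rfl fun l _ => by ring
  have h2 : ∑ l, v l * PLip_y v j t l = 0 := PLip_dot hv j t
  have h3 : ∀ i : Fin (s + 1), ∑ l, glue h (v 0 • θ) v i.succ l * PLip_y v j t l =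
      h i j * t := by
    intro i
    have h4 : ∀ l, glue h (v 0 • θ) v i.succ l = (Fin.cons 0 (h i) : Fin (s + 2) → ℝ) l +
        θ i * v l := by
      intro l
      refine Fin.cases ?_ (fun l => ?_) l
      · show v 0 * θ i = 0 + θ i * v 0
        ring
      · show h i l + v 0 * θ i * v l.succ / v 0 = h i l + θ i * v l.succ
        field_simp
    simp only [h4, add_mul, Finset.sum_add_distrib]
    have h5 : ∑ l, θ i * v l * PLip_y v j t l = 0 := by
      simp only [mul_assoc, ← Finset.mul_sum]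
      rw [h2, mul_zero]
    rw [h5, add_zero, Fin.sum_univ_succ]
    have h6 : ∀ l : Fin (s + 1), (Fin.cons 0 (h i) : Fin (s + 2) → ℝ) l.succ *
        PLip_y v j t l.succ = if l = j then h i l * t else 0 := by
      intro l
      show h i l * (if l = j then t else 0) = _
      split_ifs <;> simp
    simp only [h6]
    rw [Finset.sum_ite_eq', if_pos (Finset.mem_univ _)]
    simp
  funext i k
  rw [h1]
  refine Fin.cases ?_ (fun i => ?_) i
  · show v k + (∑ l, v l * PLip_y v j t l) * v k = v k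
    rw [h2]
    ring
  · rw [h3]
    refine Fin.cases ?_ (fun k => ?_) k
    · show v 0 * θ i + h i j * t * v 0 = v 0 * (θ i + h i j * t)
      ring
    · show h i k + v 0 * θ i * v k.succ / v 0 + h i j * t * v k.succ =
        h i k + v 0 * (θ i + h i j * t) * v k.succ / v 0
      field_simp
      ring

theorem PLip_pars {s : ℕ} {φ : X (s + 2) → ℂ} (hφ : IsP φ) {C : ℝ} (hL : IsLip C φ)
    {v : Fin (s + 2) → ℝ} (hv : v 0 ≠ 0) (h : X (s + 1)) (j : Fin (s + 1)) {t ρ : ℝ}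
    (ht : 0 ≤ t) (htρ : t ≤ ρ) :
    ∑' w : Fin (s + 1) → ℤ, ‖e (rv (zr w) h j * t) - 1‖ₑ ^ 2 * ‖coef w φ v h‖ₑ ^ 2 ≤
      ENNReal.ofReal ((|C| * (ρ * ((∑ i, |v i|) ^ 2 / |v 0|))) ^ 2) := by
  have hF := isPer_glue hφ h hv
  set F : (Fin (s + 1) → ℝ) → ℂ := fun θ => φ (glue h (v 0 • θ) v) with hFdef
  set x : Fin (s + 1) → ℝ := fun i => h i j * t with hx
  have hG : IsPer fun θ => F (θ + x) - F θ := by
    refine ⟨(hF.meas.comp (measurable_id.add_const x)).sub hF.meas, ?_, ?_⟩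
    · obtain ⟨B, hB⟩ := hF.bdd
      exact ⟨B + B, fun θ => (norm_sub_le _ _).trans (add_le_add (hB _) (hB _))⟩
    · intro ℓ θ
      have h1 : θ + zr ℓ + x = θ + x + zr ℓ := by abel
      show F (θ + zr ℓ + x) - F (θ + zr ℓ) = F (θ + x) - F θ
      rw [h1, hF.per, hF.per]
  have h1 := parseval hG
  have h2 : ∀ w : Fin (s + 1) → ℤ,
      ‖∫ θ in Set.Icc (0 : Fin (s + 1) → ℝ) 1, e (-(∑ i, (w i : ℝ) * θ i)) *
        (F (θ + x) - F θ)‖ₑ ^ 2 =
      ‖e (rv (zr w) h j * t) - 1‖ₑ ^ 2 * ‖coef w φ v h‖ₑ ^ 2 := by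
    intro w
    rw [PLip_coef hF x w, enorm_mul, mul_pow]
    have h3 : ∑ i, (w i : ℝ) * x i = rv (zr w) h j * t := by
      show ∑ i, (w i : ℝ) * (h i j * t) = (∑ i, (w i : ℝ) * h i j) * t
      rw [Finset.sum_mul]
      exact Finset.sum_congr rfl fun i _ => by ring
    rw [h3]
    rfl
  simp only [h2] at h1
  rw [← h1]
  have hvol : (volume : Measure (Fin (s + 1) → ℝ)) (Set.Icc 0 1) = 1 := by
    rw [Real.volume_Icc_pi]
    simp
  calc ∫⁻ θ in Set.Icc (0 : Fin (s + 1) → ℝ) 1, ‖F (θ + x) - F θ‖ₑ ^ 2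
      ≤ ∫⁻ _ in Set.Icc (0 : Fin (s + 1) → ℝ) 1,
        ENNReal.ofReal ((|C| * (ρ * ((∑ i, |v i|) ^ 2 / |v 0|))) ^ 2) := by
        refine lintegral_mono fun θ => ?_
        rw [← ofReal_norm, ← ENNReal.ofReal_pow (norm_nonneg _)]
        apply ENNReal.ofReal_le_ofReal
        have h4 := hL (glue h (v 0 • θ) v) (PLip_x v j t) (by rw [PLip_det hv]; exact one_pos)
        rw [PLip_rm hv] at h4
        have h5 := PLip_norm hv j ht
        have h6 : 0 ≤ (∑ i, |v i|) ^ 2 / |v 0| := by positivity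
        have h7 : ‖F (θ + x) - F θ‖ ≤ |C| * (ρ * ((∑ i, |v i|) ^ 2 / |v 0|)) := by
          refine h4.trans ?_
          have h8 : 0 ≤ ∑ i, ∑ k, |PLip_x v j t i k -
              (1 : Matrix (Fin (s + 2)) (Fin (s + 2)) ℝ) i k| :=
            Finset.sum_nonneg fun i _ => Finset.sum_nonneg fun k _ => abs_nonneg _
          refine (mul_le_mul_of_nonneg_right (le_abs_self C) h8).trans ?_
          refine mul_le_mul_of_nonneg_left (h5.trans ?_) (abs_nonneg _)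
          exact mul_le_mul_of_nonneg_right htρ h6
        exact pow_le_pow_left₀ (norm_nonneg _) h7 2
    _ = ENNReal.ofReal ((|C| * (ρ * ((∑ i, |v i|) ^ 2 / |v 0|))) ^ 2) := by
        rw [setLIntegral_const, hvol, mul_one]

theorem PLip_min {s : ℕ} {h : X (s + 1)} (hh : dt h ≠ 0) :
    ∃ w0 : Fin (s + 1) → ℤ, w0 ≠ 0 ∧ 0 < ‖rv (zr w0) h‖ ∧
      ∀ w : Fin (s + 1) → ℤ, w ≠ 0 → ‖rv (zr w0) h‖ ≤ ‖rv (zr w) h‖ := by
  set u : Fin (s + 1) → ℤ := Pi.single 0 1 with hu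
  have hu0 : u ≠ 0 := by
    intro hc
    have := congrFun hc 0
    rw [hu, Pi.single_eq_same] at this
    exact one_ne_zero this
  have hfin : {w : Fin (s + 1) → ℤ | w ≠ 0 ∧ ‖rv (zr w) h‖ ≤ ‖rv (zr u) h‖}.Finite := by
    refine (finite_short hh ‖rv (zr u) h‖).subset fun w hw j => ?_
    have h1 := norm_le_pi_norm (rv (zr w) h) j
    rw [Real.norm_eq_abs] at h1
    exact h1.trans hw.2
  obtain ⟨w0, hw0, hmin⟩ := Set.exists_min_image _ (fun w => ‖rv (zr w) h‖) hfin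
    ⟨u, hu0, le_refl _⟩
  refine ⟨w0, hw0.1, ?_, ?_⟩
  · rw [norm_pos_iff]
    intro hc
    apply hw0.1
    funext i
    have h1 := WMin_inv hh (zr w0) i
    rw [hc] at h1
    simp only [Pi.zero_apply, zero_mul, Finset.sum_const_zero] at h1
    have h2 : (w0 i : ℝ) = 0 := h1
    exact_mod_cast h2
  · intro w hw
    by_cases hle : ‖rv (zr w) h‖ ≤ ‖rv (zr u) h‖
    · exact hmin w ⟨hw, hle⟩
    · exact hw0.2.trans (not_le.1 hle).le

theorem PLip_main {s : ℕ} {φ : X (s + 2) → ℂ} (hφ : IsP φ)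
    (h0 : ∀ v h, v 0 ≠ 0 → coef 0 φ v h = 0) {C : ℝ} (hL : IsLip C φ)
    {v : Fin (s + 2) → ℝ} (hv : v 0 ≠ 0) (h : X (s + 1)) {ρ : ℝ} (hρ : 0 < ρ)
    (hmin : ∀ w : Fin (s + 1) → ℤ, w ≠ 0 → ρ⁻¹ ≤ ‖rv (zr w) h‖) :
    ∫⁻ θ in Set.Icc (0 : Fin (s + 1) → ℝ) 1, ‖φ (glue h (v 0 • θ) v)‖ₑ ^ 2 ≤
      (s + 1 : ℝ≥0∞) * ENNReal.ofReal ((|C| * (ρ * ((∑ i, |v i|) ^ 2 / |v 0|))) ^ 2) := by
  set K : ℝ≥0∞ := ENNReal.ofReal ((|C| * (ρ * ((∑ i, |v i|) ^ 2 / |v 0|))) ^ 2) with hK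
  rw [parseval_coef hφ hv h]
  have hρ0 : ENNReal.ofReal ρ ≠ 0 := by
    rw [Ne, ENNReal.ofReal_eq_zero, not_le]
    exact hρ
  have key : ENNReal.ofReal ρ * ∑' w : Fin (s + 1) → ℤ, ‖coef w φ v h‖ₑ ^ 2 ≤
      ENNReal.ofReal ρ * ((s + 1 : ℝ≥0∞) * K) := by
    have hm : ∀ (j : Fin (s + 1)) (w : Fin (s + 1) → ℤ),
        Measurable fun t : ℝ => ‖e (rv (zr w) h j * t) - 1‖ₑ ^ 2 := fun j w =>
      ((FCoe_e_meas.comp (measurable_id.const_mul _)).sub_const 1).enorm.pow_const 2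
    calc ENNReal.ofReal ρ * ∑' w : Fin (s + 1) → ℤ, ‖coef w φ v h‖ₑ ^ 2
        = ∑' w : Fin (s + 1) → ℤ, ENNReal.ofReal ρ * ‖coef w φ v h‖ₑ ^ 2 :=
          ENNReal.tsum_mul_left.symm
      _ ≤ ∑' w : Fin (s + 1) → ℤ, ∑ j, ∫⁻ t in Set.Ioc 0 ρ,
            ‖e (rv (zr w) h j * t) - 1‖ₑ ^ 2 * ‖coef w φ v h‖ₑ ^ 2 := by
          refine ENNReal.tsum_le_tsum fun w => ?_
          by_cases hw : w = 0
          · subst hw
            rw [h0 v h hv]
            simp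
          · obtain ⟨j, hj⟩ : ∃ j, ‖rv (zr w) h‖ ≤ |rv (zr w) h j| := by
              by_contra hcon
              push Not at hcon
              have hpos : 0 < ‖rv (zr w) h‖ := lt_of_lt_of_le (inv_pos.2 hρ) (hmin w hw)
              have := (pi_norm_lt_iff hpos).2 fun j => by
                rw [Real.norm_eq_abs]
                exact hcon j
              exact lt_irrefl _ this
            have h1 : 1 ≤ |rv (zr w) h j| * ρ := by
              have h2 := (hmin w hw).trans hj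
              rw [inv_le_iff_one_le_mul₀ hρ] at h2
              exact h2
            calc ENNReal.ofReal ρ * ‖coef w φ v h‖ₑ ^ 2
                ≤ (∫⁻ t in Set.Ioc 0 ρ, ‖e (rv (zr w) h j * t) - 1‖ₑ ^ 2) *
                    ‖coef w φ v h‖ₑ ^ 2 := mul_le_mul_left (PLip_mean hρ h1) _
              _ = ∫⁻ t in Set.Ioc 0 ρ,
                    ‖e (rv (zr w) h j * t) - 1‖ₑ ^ 2 * ‖coef w φ v h‖ₑ ^ 2 := by
                  rw [lintegral_mul_const _ (hm j w)]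
              _ ≤ _ := Finset.single_le_sum (f := fun j => ∫⁻ t in Set.Ioc 0 ρ,
                    ‖e (rv (zr w) h j * t) - 1‖ₑ ^ 2 * ‖coef w φ v h‖ₑ ^ 2)
                  (fun _ _ => zero_le) (Finset.mem_univ j)
      _ = ∑ j, ∑' w : Fin (s + 1) → ℤ, ∫⁻ t in Set.Ioc 0 ρ,
            ‖e (rv (zr w) h j * t) - 1‖ₑ ^ 2 * ‖coef w φ v h‖ₑ ^ 2 :=
          Summable.tsum_finsetSum fun _ _ => ENNReal.summable
      _ = ∑ j, ∫⁻ t in Set.Ioc 0 ρ, ∑' w : Fin (s + 1) → ℤ,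
            ‖e (rv (zr w) h j * t) - 1‖ₑ ^ 2 * ‖coef w φ v h‖ₑ ^ 2 := by
          refine Finset.sum_congr rfl fun j _ => ?_
          rw [lintegral_tsum fun w => ((hm j w).mul_const _).aemeasurable]
      _ ≤ ∑ _j : Fin (s + 1), ENNReal.ofReal ρ * K := by
          refine Finset.sum_le_sum fun j _ => ?_
          calc ∫⁻ t in Set.Ioc 0 ρ, ∑' w : Fin (s + 1) → ℤ,
                ‖e (rv (zr w) h j * t) - 1‖ₑ ^ 2 * ‖coef w φ v h‖ₑ ^ 2
              ≤ ∫⁻ _ in Set.Ioc 0 ρ, K := by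
                refine setLIntegral_mono measurable_const fun t ht => ?_
                exact PLip_pars hφ hL hv h j ht.1.le ht.2
            _ = ENNReal.ofReal ρ * K := by
                rw [setLIntegral_const, Real.volume_Ioc, sub_zero, mul_comm]
      _ = ENNReal.ofReal ρ * ((s + 1 : ℝ≥0∞) * K) := by
          rw [Finset.sum_const, Finset.card_univ, Fintype.card_fin, nsmul_eq_mul]
          push_cast
          ring
  exact (ENNReal.mul_le_mul_iff_right hρ0 ENNReal.ofReal_ne_top).1 key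

theorem lip_bound {s : ℕ} {φ : X (s + 2) → ℂ} (hφ : IsP φ)
    (h0 : ∀ v h, v 0 ≠ 0 → coef 0 φ v h = 0) {C : ℝ} (hL : IsLip C φ) :
    ∃ C1 : ℝ, 0 < C1 ∧ ∀ (v : Fin (s + 2) → ℝ) (h : X (s + 1)), v 0 ≠ 0 → dt h ≠ 0 →
      ∫⁻ θ in Set.Icc (0 : Fin (s + 1) → ℝ) 1, ‖φ (glue h (v 0 • θ) v)‖ₑ ^ 2 ≤
        ENNReal.ofReal (C1 * (∑ i, |v i|) * |v 0| ^ (-(1 / 2) : ℝ)) * Lam h := by
  obtain ⟨C0, hC0⟩ := hφ.bdd
  have hC0' : 0 ≤ C0 := (norm_nonneg _).trans (hC0 0)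
  set D : ℝ := C0 ^ 2 + (s + 1) * |C| ^ 2 + 1 with hD
  have hDpos : 0 < D := by positivity
  refine ⟨D, hDpos, fun v h hv hh => ?_⟩
  obtain ⟨w0, hw0, hpos, hmin⟩ := PLip_min hh
  set lam : ℝ := ‖rv (zr w0) h‖ with hlam
  set V : ℝ := ∑ i, |v i| with hV
  have hv0 : 0 < |v 0| := abs_pos.2 hv
  have hVpos : 0 < V := by
    have := Finset.single_le_sum (f := fun i : Fin (s + 2) => |v i|)
      (fun i _ => abs_nonneg _) (Finset.mem_univ 0)
    exact lt_of_lt_of_le hv0 this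
  set r : ℝ := lam⁻¹ * (V ^ 2 / |v 0|) with hr
  have hrpos : 0 < r := by positivity
  have hrr : r ^ ((1 / 2) : ℝ) = V * |v 0| ^ (-(1 / 2) : ℝ) * lam ^ (-(1 / 2) : ℝ) := by
    rw [hr, div_eq_mul_inv, Real.mul_rpow (by positivity) (by positivity),
      Real.mul_rpow (by positivity) (by positivity), Real.inv_rpow hpos.le,
      Real.inv_rpow hv0.le, ← Real.rpow_neg hpos.le, ← Real.rpow_neg hv0.le,
      ← Real.sqrt_eq_rpow, Real.sqrt_sq hVpos.le]
    ring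
  have hLam : ENNReal.ofReal (lam ^ (-(1 / 2) : ℝ)) ≤ Lam h :=
    le_iSup (fun w : {w : Fin (s + 1) → ℤ // w ≠ 0} =>
      ENNReal.ofReal (‖rv (zr w.1) h‖ ^ (-(1 / 2) : ℝ))) ⟨w0, hw0⟩
  have hA : ∫⁻ θ in Set.Icc (0 : Fin (s + 1) → ℝ) 1, ‖φ (glue h (v 0 • θ) v)‖ₑ ^ 2 ≤
      ENNReal.ofReal (D * r ^ ((1 / 2) : ℝ)) := by
    rcases le_or_gt r 1 with h1 | h1
    · have h2 := PLip_main hφ h0 hL hv h (inv_pos.2 hpos) fun w hw => by
        rw [inv_inv]
        exact hmin w hw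
      refine h2.trans ?_
      have h3 : (s + 1 : ℝ≥0∞) = ENNReal.ofReal (s + 1) := by
        rw [ENNReal.ofReal_add (by positivity) zero_le_one, ENNReal.ofReal_natCast,
          ENNReal.ofReal_one]
      rw [h3, ← ENNReal.ofReal_mul (by positivity)]
      apply ENNReal.ofReal_le_ofReal
      show ((s : ℝ) + 1) * (|C| * r) ^ 2 ≤ D * r ^ ((1 / 2) : ℝ)
      have h4 : r ^ 2 ≤ r ^ ((1 / 2) : ℝ) := by
        rw [← Real.rpow_two]
        exact Real.rpow_le_rpow_of_exponent_ge hrpos h1 (by norm_num)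
      have h5 : ((s : ℝ) + 1) * |C| ^ 2 ≤ D := by
        rw [hD]
        nlinarith [sq_nonneg C0]
      calc ((s : ℝ) + 1) * (|C| * r) ^ 2 = (((s : ℝ) + 1) * |C| ^ 2) * r ^ 2 := by ring
        _ ≤ D * r ^ ((1 / 2) : ℝ) := mul_le_mul h5 h4 (by positivity) hDpos.le
    · have hvol : (volume : Measure (Fin (s + 1) → ℝ)) (Set.Icc 0 1) = 1 := by
        rw [Real.volume_Icc_pi]
        simp
      calc ∫⁻ θ in Set.Icc (0 : Fin (s + 1) → ℝ) 1, ‖φ (glue h (v 0 • θ) v)‖ₑ ^ 2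
          ≤ ∫⁻ _ in Set.Icc (0 : Fin (s + 1) → ℝ) 1, ENNReal.ofReal (C0 ^ 2) := by
            refine lintegral_mono fun θ => ?_
            rw [← ofReal_norm, ← ENNReal.ofReal_pow (norm_nonneg _)]
            exact ENNReal.ofReal_le_ofReal (pow_le_pow_left₀ (norm_nonneg _) (hC0 _) 2)
        _ = ENNReal.ofReal (C0 ^ 2) := by
            rw [setLIntegral_const, hvol, mul_one]
        _ ≤ ENNReal.ofReal (D * r ^ ((1 / 2) : ℝ)) := by
            apply ENNReal.ofReal_le_ofReal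
            have h2 : 1 ≤ r ^ ((1 / 2) : ℝ) := Real.one_le_rpow h1.le (by norm_num)
            have h3 : C0 ^ 2 ≤ D := by
              rw [hD]
              have : 0 ≤ ((s : ℝ) + 1) * |C| ^ 2 := by positivity
              linarith
            nlinarith
  refine hA.trans ?_
  have h6 : D * r ^ ((1 / 2) : ℝ) = (D * V * |v 0| ^ (-(1 / 2) : ℝ)) * lam ^ (-(1 / 2) : ℝ) := by
    rw [hrr]
    ring
  rw [h6, ENNReal.ofReal_mul (by positivity)]
  exact mul_le_mul_right hLam _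

end Pool.Agent.GL74
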