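import Pool.Agent.W_7742x_h74.PLip
import Pool.Agent.W_7742x_h74.PMai
import Pool.Agent.W_7742x_h74.LSca

/-! # The part of the integral with large determinant, and the unfolding at level `N`

Let `n = s + 2`, `wT T` a weight for `G0 (s+1) N` (hypothesis `hT`), `‖φ‖` invariant under this
group.

* `unfoldN`: for `F ≥ 0` measurable with `F (sl (pm ℓ γ) g) = F g` a.e.,
  `∫ wP (wt (s+1)) F = ∫ wT T(g) ∑_{v ∈ PrimN} F (sl (rowOf v) g)` (`unfold_abstract` for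
  `G = G0 (s+1) N`, `bij_pmN`, `sum_wP`).
* `unfold_theta`: for `K : ℝ → ℝ≥0∞` measurable,
  `∫ wT T ‖φ‖² K(|dt g|) thN s N g = ∑_{t prime to N} ∫ wP (wt (s+1)) ‖φ‖² K(|dt g|) gs (t g 0)`
  (`primN_decomp`: the elements of `MN` are `t v`, and `rv (zr (t v)) g = t • (rowOf v g) 0`).
* `large_det` (`b = 1 + η`, `η = 1/(2(s+1))`): with `K x = x^{σ-n}` for `x > 1`, by
  `lintegral_wP`, `lip_bound` each term is at most
  `∫_v |v 0|^{s+1} gs (t v) C₁ |v|₁ |v 0|^{-1/2} ∫_h wt(h) Lam h K(|v 0 dt h|)`; the function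
  `wt(h) Lam h |dt h|^{η}` is scale invariant (`Lam_smul`, `dt_smul`), so by `lintegral_sc` (size
  `s+1`, `lam_fin`) the inner integral is `M ∫_0^∞ K(|v 0| x) x^{-η} x^s dx =
  M |v 0|^{η-s-1} ∫_1^∞ y^{σ-n+s-η} dy`, finite for `σ < 1 + η`.  The remaining integral
  `∫ gs (t v) |v|₁ |v 0|^{η-1/2} dv = t^{-n-1/2-η} ∫ gs(v) |v|₁ |v 0|^{η-1/2} dv` is finite and the
  sum over `t` converges.
* `integral_eq`: all together, with `K x = x^{σ-n}` and the substitution `g ↦ t⁻¹ g`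
  (`lintegral_smul_X`, `wP_smul`; total factor `t^{-nσ}`), and `unfold`:
  `IA σ = Zgood (prime to N) (n σ) * kap (s+1) * ∑_m JJ φ σ m`. -/

set_option autoImplicit false

noncomputable section

namespace Pool.Agent.GL74

open MeasureTheory Set
open scoped ENNReal MatrixGroups

/-- Level `N` functions. -/
structure IsLvl {s : ℕ} (N : ℕ) (T : Finset SL(s + 2, ℤ)) (φ : X (s + 2) → ℂ) : Prop where
  pos : 0 < N
  isP : IsP φ
  scale : ∀ t : ℝ, 0 < t → ∀ g, φ (t • g) = φ g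
  cusp : Cusp (s + 1) φ
  inv : ∀ γ ∈ G0 (s + 1) N, ∀ g, ‖φ (sl γ g)‖ = ‖φ g‖
  lip : ∃ C, IsLip C φ
  sum : ∀ᵐ g : X (s + 2), ∑' γ : G0 (s + 1) N, wT T (sl γ.1 g) = 1

/-- The full integral. -/
def IA {s : ℕ} (N : ℕ) (T : Finset SL(s + 2, ℤ)) (φ : X (s + 2) → ℂ) (σ : ℝ) : ℝ≥0∞ :=
  ∫⁻ g, wT T g * (‖φ g‖ₑ ^ 2 * (ENNReal.ofReal (|dt g| ^ (σ - (s + 2))) * thN s N g))

theorem PLrg_gs {n : ℕ} : Measurable (gs : (Fin n → ℝ) → ℝ) := by
  unfold gs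
  fun_prop

theorem PLrg_wT {n : ℕ} (T : Finset SL(n, ℤ)) : Measurable (wT T : X n → ℝ≥0∞) := by
  unfold wT
  exact Finset.measurable_fun_sum T fun δ _ => (isWt_wt n).meas.comp (measurable_lm _)

/-- The function to be unfolded. -/
def PLrg_F {s : ℕ} (φ : X (s + 2) → ℂ) (K : ℝ → ℝ≥0∞) (t : ℝ) (g : X (s + 2)) : ℝ≥0∞ :=
  ‖φ g‖ₑ ^ 2 * (K |dt g| * ENNReal.ofReal (gs (t • g 0)))

theorem PLrg_F_meas {s : ℕ} {φ : X (s + 2) → ℂ} (hφ : Measurable φ) {K : ℝ → ℝ≥0∞}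
    (hK : Measurable K) (t : ℝ) : Measurable (PLrg_F φ K t) := by
  unfold PLrg_F
  refine (hφ.enorm.pow_const 2).mul ((hK.comp measurable_dt.abs).mul ?_)
  refine ENNReal.measurable_ofReal.comp (PLrg_gs.comp ?_)
  exact (measurable_pi_apply 0).const_smul t

theorem PLrg_th {s N : ℕ} (hN : 0 < N) (g : X (s + 2)) :
    thN s N g = ∑' t : {t : ℕ // 0 < t ∧ t.Coprime N}, ∑' v : PrimN s N,
      ENNReal.ofReal (gs ((t.1 : ℝ) • sl (rowOf ⟨v.1, v.2.1⟩) g 0)) := by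
  unfold thN
  rw [← (Equiv.ofBijective _ (primN_decomp (s := s) hN)).tsum_eq, ENNReal.tsum_prod']
  refine tsum_congr fun t => tsum_congr fun v => ?_
  have h1 : rv (zr (fun i => (t.1 : ℤ) * v.1 i)) g =
      (t.1 : ℝ) • sl (rowOf ⟨v.1, v.2.1⟩) g 0 := by
    rw [sl_row_zero]
    funext j
    show ∑ i, (((t.1 : ℤ) * v.1 i : ℤ) : ℝ) * g i j =
      (t.1 : ℝ) * ∑ i, (((rowOf ⟨v.1, v.2.1⟩).1 0 i : ℤ) : ℝ) * g i j
    rw [Finset.mul_sum]
    refine Finset.sum_congr rfl fun i _ => ?_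
    rw [rowOf_spec]
    push_cast
    ring
  show ENNReal.ofReal (gs (rv (zr (fun i => (t.1 : ℤ) * v.1 i)) g)) = _
  rw [h1]

theorem PLrg_mem {s N : ℕ} (v : PrimN s N) : rowOf ⟨v.1, v.2.1⟩ ∈ G0 (s + 1) N := by
  intro j hj
  rw [rowOf_spec]
  exact v.2.2 j hj

theorem PLrg_inv {s N : ℕ} {T : Finset SL(s + 2, ℤ)} {φ : X (s + 2) → ℂ}
    (h : IsLvl N T φ) {γ : SL(s + 2, ℤ)} (hγ : γ ∈ G0 (s + 1) N) (g : X (s + 2)) :
    ‖φ (sl γ g)‖ₑ = ‖φ g‖ₑ := by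
  rw [← ofReal_norm, ← ofReal_norm, h.inv γ hγ]

theorem PLrg_pm_row {s : ℕ} (ℓ : Fin (s + 1) → ℤ) (γ : SL(s + 1, ℤ)) (g : X (s + 2)) :
    sl (pm ℓ γ) g 0 = g 0 := by
  rw [sl_row_zero]
  funext j
  show ∑ i, ((pmM ℓ γ 0 i : ℤ) : ℝ) * g i j = g 0 j
  rw [Fin.sum_univ_succ]
  have h0 : pmM ℓ γ 0 0 = 1 := rfl
  have h1 : ∀ i : Fin (s + 1), pmM ℓ γ 0 i.succ = 0 := fun i => rfl
  rw [h0, Finset.sum_eq_zero fun i _ => by rw [h1 i, Int.cast_zero, zero_mul], Int.cast_one,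
    one_mul, add_zero]

theorem PLrg_unf {s N : ℕ} {T : Finset SL(s + 2, ℤ)} {φ : X (s + 2) → ℂ}
    (h : IsLvl N T φ) {K : ℝ → ℝ≥0∞} (hK : Measurable K) (t : ℝ) :
    ∫⁻ x, wP (wt (s + 1)) x * PLrg_F φ K t x =
      ∫⁻ x, wT T x * ∑' v : PrimN s N, PLrg_F φ K t (sl (rowOf ⟨v.1, v.2.1⟩) x) := by
  have hc2 := countable_sl (s + 2)
  have hc1 := countable_sl (s + 1)
  have hcG : Countable (G0 (s + 1) N) := inferInstance
  refine unfold_abstract (G := G0 (s + 1) N) (H := (Fin (s + 1) → ℤ) × SL(s + 1, ℤ))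
    (C := PrimN s N) volume (fun γ => sl γ.1) (fun x => sl_one x) (fun g h x => sl_mul _ _ x)
    (fun γ => measurePreserving_sl γ.1) (fun q => sl (pm q.1 q.2))
    (fun v => ⟨rowOf ⟨v.1, v.2.1⟩, PLrg_mem v⟩) (Equiv.ofBijective _ bij_pmN)
    (fun h c x => sl_mul _ _ _) (wT T) (wP (wt (s + 1))) (PLrg_F φ K t) (PLrg_wT T)
    (measurable_wP (isWt_wt (s + 1)).meas) (PLrg_F_meas h.isP.meas hK t) h.sum
    (sum_wP (isWt_wt (s + 1))) ?_
  intro q
  refine Filter.Eventually.of_forall fun x => ?_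
  unfold PLrg_F
  rw [PLrg_inv h (pm_mem_G0 q.1 q.2), dt_sl, PLrg_pm_row]

theorem unfold_theta {s N : ℕ} {T : Finset SL(s + 2, ℤ)} {φ : X (s + 2) → ℂ}
    (h : IsLvl N T φ) {K : ℝ → ℝ≥0∞} (hK : Measurable K) :
    ∫⁻ g, wT T g * (‖φ g‖ₑ ^ 2 * (K |dt g| * thN s N g)) =
      ∑' t : {t : ℕ // 0 < t ∧ t.Coprime N}, ∫⁻ g, wP (wt (s + 1)) g * (‖φ g‖ₑ ^ 2 *
        (K |dt g| * ENNReal.ofReal (gs ((t.1 : ℝ) • g 0)))) := by
  have e1 : ∀ t : {t : ℕ // 0 < t ∧ t.Coprime N}, ∫⁻ g, wP (wt (s + 1)) g * (‖φ g‖ₑ ^ 2 *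
        (K |dt g| * ENNReal.ofReal (gs ((t.1 : ℝ) • g 0)))) =
      ∫⁻ x, wT T x * ∑' v : PrimN s N, PLrg_F φ K t.1 (sl (rowOf ⟨v.1, v.2.1⟩) x) :=
    fun t => PLrg_unf h hK t.1
  rw [tsum_congr e1, ← lintegral_tsum]
  · apply lintegral_congr
    intro g
    rw [PLrg_th h.pos g, ENNReal.tsum_mul_left]
    congr 1
    rw [← ENNReal.tsum_mul_left, ← ENNReal.tsum_mul_left]
    refine tsum_congr fun t => ?_
    rw [← ENNReal.tsum_mul_left, ← ENNReal.tsum_mul_left]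
    refine tsum_congr fun v => ?_
    unfold PLrg_F
    rw [PLrg_inv h (PLrg_mem v), dt_sl]
  · intro t
    refine (Measurable.mul (PLrg_wT T) (Measurable.tsum fun v => ?_)).aemeasurable
    exact (PLrg_F_meas h.isP.meas hK _).comp (measurable_lm _)

theorem PLrg_dt_smul {n : ℕ} {t : ℝ} (ht : 0 < t) (g : X n) : |dt (t • g)| = t ^ n * |dt g| := by
  rw [dt_smul, abs_mul, abs_of_pos (pow_pos ht n)]

theorem PLrg_scale {s N : ℕ} {T : Finset SL(s + 2, ℤ)} {φ : X (s + 2) → ℂ}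
    (h : IsLvl N T φ) (σ : ℝ) {t : ℝ} (ht : 0 < t) :
    ∫⁻ g, wP (wt (s + 1)) g * (‖φ g‖ₑ ^ 2 *
        (ENNReal.ofReal (|dt g| ^ (σ - (s + 2))) * ENNReal.ofReal (gs (t • g 0)))) =
      ENNReal.ofReal (t ^ (-(((s + 2 : ℕ) : ℝ) * σ))) *
        ∫⁻ g, wP (wt (s + 1)) g * (‖φ g‖ₑ ^ 2 *
          (ENNReal.ofReal (gs (g 0)) * ENNReal.ofReal (|dt g| ^ (σ - (s + 2))))) := by
  set Φ : X (s + 2) → ℝ≥0∞ := fun g => wP (wt (s + 1)) g * (‖φ g‖ₑ ^ 2 *
          (ENNReal.ofReal (gs (g 0)) * ENNReal.ofReal (|dt g| ^ (σ - (s + 2))))) with hΦ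
  have hm : Measurable Φ := by
    refine (measurable_wP (isWt_wt (s + 1)).meas).mul ((h.isP.meas.enorm.pow_const 2).mul ?_)
    refine (ENNReal.measurable_ofReal.comp (PLrg_gs.comp (measurable_pi_apply 0))).mul ?_
    exact ENNReal.measurable_ofReal.comp (measurable_dt.abs.pow_const _)
  have e1 : ∀ g : X (s + 2), wP (wt (s + 1)) g * (‖φ g‖ₑ ^ 2 *
        (ENNReal.ofReal (|dt g| ^ (σ - (s + 2))) * ENNReal.ofReal (gs (t • g 0)))) =
      ENNReal.ofReal ((t ^ (s + 2)) ^ (-(σ - (s + 2)))) * Φ (t • g) := by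
    intro g
    have h1 : (0 : ℝ) < t ^ (s + 2) := pow_pos ht _
    have h2 : |dt (t • g)| ^ (σ - (s + 2)) = (t ^ (s + 2)) ^ (σ - (s + 2)) *
        |dt g| ^ (σ - (s + 2)) := by
      rw [PLrg_dt_smul ht, Real.mul_rpow h1.le (abs_nonneg _)]
    have h3 : (t ^ (s + 2)) ^ (-(σ - (s + 2))) * (t ^ (s + 2)) ^ (σ - (s + 2)) = 1 := by
      rw [← Real.rpow_add h1, neg_add_cancel, Real.rpow_zero]
    have h4 : (t • g) 0 = t • g 0 := rfl
    simp only [hΦ]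
    rw [wP_smul (isWt_wt (s + 1)).scale ht, h.scale t ht, h4, h2,
      ENNReal.ofReal_mul (Real.rpow_nonneg h1.le _)]
    have h5 : ENNReal.ofReal ((t ^ (s + 2)) ^ (-(σ - (s + 2)))) *
        ENNReal.ofReal ((t ^ (s + 2)) ^ (σ - (s + 2))) = 1 := by
      rw [← ENNReal.ofReal_mul (Real.rpow_nonneg h1.le _), h3, ENNReal.ofReal_one]
    calc _ = 1 * (wP (wt (s + 1)) g * (‖φ g‖ₑ ^ 2 *
          (ENNReal.ofReal (|dt g| ^ (σ - (s + 2))) * ENNReal.ofReal (gs (t • g 0))))) := by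
            rw [one_mul]
      _ = _ := by
            rw [← h5]
            ring
  have e2 : Measurable fun g : X (s + 2) => Φ (t • g) := hm.comp (measurable_const_smul t)
  rw [lintegral_congr e1, lintegral_const_mul _ e2,
    lintegral_smul_X ht hm, ← mul_assoc, ← ENNReal.ofReal_mul (by positivity)]
  congr 2
  have h6 : (t ^ (s + 2) : ℝ) = t ^ ((s : ℝ) + 2) := by
    rw [← Real.rpow_natCast]
    push_cast
    rfl
  have h7 : (t⁻¹ ^ ((s + 2) * (s + 2)) : ℝ) = t ^ (-(((s : ℝ) + 2) * ((s : ℝ) + 2))) := by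
    rw [Real.rpow_neg ht.le, inv_pow, ← Real.rpow_natCast]
    push_cast
    rfl
  rw [h6, h7, ← Real.rpow_mul ht.le, ← Real.rpow_add ht]
  congr 1
  push_cast
  ring

/-- The power function, cut off. -/
def PLrg_K (α : ℝ) : ℝ → ℝ≥0∞ := (Ioi (1 : ℝ)).indicator fun x => ENNReal.ofReal (x ^ α)

theorem PLrg_K_meas (α : ℝ) : Measurable (PLrg_K α) :=
  Measurable.indicator (ENNReal.measurable_ofReal.comp (measurable_id.pow_const α))
    measurableSet_Ioi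

theorem PLrg_sub {G : ℝ → ℝ≥0∞} (hG : Measurable G) {c : ℝ} (hc : 0 < c) :
    ∫⁻ x in Ioi (0 : ℝ), G (c * x) = ENNReal.ofReal c⁻¹ * ∫⁻ x in Ioi (0 : ℝ), G x := by
  have h1 : ∫⁻ x in Ioi (0 : ℝ), G (c * x) = ∫⁻ x, (Ioi (0 : ℝ)).indicator G (c * x) := by
    rw [← lintegral_indicator measurableSet_Ioi]
    apply lintegral_congr
    intro x
    by_cases hx : 0 < x
    · rw [indicator_of_mem (by exact hx), indicator_of_mem (by exact mul_pos hc hx)]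
    · rw [indicator_of_notMem (by exact hx), indicator_of_notMem]
      intro h
      exact hx ((mul_pos_iff_of_pos_left hc).1 h)
  have hm : Measurable ((Ioi (0 : ℝ)).indicator G) := hG.indicator measurableSet_Ioi
  rw [h1, ← lintegral_map hm (measurable_const_mul c), Real.map_volume_mul_left hc.ne',
    lintegral_smul_measure, smul_eq_mul, lintegral_indicator measurableSet_Ioi,
    abs_of_pos (inv_pos.2 hc)]

theorem PLrg_J {α η : ℝ} {s : ℕ} (h : α - η + s < -1) :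
    ∫⁻ x in Ioi (0 : ℝ), PLrg_K α x * (ENNReal.ofReal (x ^ (-η)) * ENNReal.ofReal (x ^ s)) ≠ ∞ := by
  have h1 := (integrableOn_Ioi_rpow_of_lt h one_pos)
  have h2 : ∫⁻ x in Ioi (1 : ℝ), ENNReal.ofReal (x ^ (α - η + s)) ≠ ∞ := by
    have h3 := h1.2
    rw [hasFiniteIntegral_iff_ofReal] at h3
    · exact h3.ne
    · filter_upwards [ae_restrict_mem measurableSet_Ioi] with x hx
      exact Real.rpow_nonneg (zero_le_one.trans (le_of_lt hx)) _
  refine ne_top_of_le_ne_top h2 ?_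
  rw [← lintegral_indicator measurableSet_Ioi, ← lintegral_indicator measurableSet_Ioi]
  apply lintegral_mono
  intro x
  show (Ioi (0 : ℝ)).indicator _ x ≤ (Ioi (1 : ℝ)).indicator _ x
  by_cases hx : 1 < x
  · have hx0 : 0 < x := zero_lt_one.trans hx
    rw [indicator_of_mem (by exact hx0), indicator_of_mem (by exact hx)]
    unfold PLrg_K
    rw [indicator_of_mem (by exact hx), ← ENNReal.ofReal_mul (Real.rpow_nonneg hx0.le _),
      ← ENNReal.ofReal_mul (Real.rpow_nonneg hx0.le _), ← Real.rpow_natCast,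
      ← Real.rpow_add hx0, ← Real.rpow_add hx0]
    have e : α + (-η + (s : ℝ)) = α - η + s := by ring
    rw [e]
  · by_cases hx0 : 0 < x
    · rw [indicator_of_mem (by exact hx0)]
      unfold PLrg_K
      rw [indicator_of_notMem (by exact hx), zero_mul]
      exact zero_le
    · rw [indicator_of_notMem (by exact hx0)]
      exact zero_le

/-- The scale invariant function. -/
def PLrg_u (s : ℕ) (h : X (s + 1)) : ℝ≥0∞ :=
  wt (s + 1) h * (Lam h * ENNReal.ofReal (|dt h| ^ (1 / (2 * ((s : ℝ) + 1)))))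

theorem PLrg_u_meas (s : ℕ) : Measurable (PLrg_u s) := by
  unfold PLrg_u
  refine (isWt_wt (s + 1)).meas.mul (measurable_Lam.mul ?_)
  exact ENNReal.measurable_ofReal.comp (measurable_dt.abs.pow_const _)

theorem PLrg_u_scale (s : ℕ) (t : ℝ) (ht : 0 < t) (h : X (s + 1)) :
    PLrg_u s (t • h) = PLrg_u s h := by
  unfold PLrg_u
  have hs : (0 : ℝ) < (s : ℝ) + 1 := by positivity
  have h1 : |dt (t • h)| ^ (1 / (2 * ((s : ℝ) + 1))) =
      t ^ ((1 / 2) : ℝ) * |dt h| ^ (1 / (2 * ((s : ℝ) + 1))) := by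
    rw [dt_smul, abs_mul, abs_of_pos (pow_pos ht _), Real.mul_rpow (pow_pos ht _).le (abs_nonneg _),
      ← Real.rpow_natCast, ← Real.rpow_mul ht.le]
    congr 2
    push_cast
    field_simp
  rw [(isWt_wt (s + 1)).scale t ht, Lam_smul ht, h1, ENNReal.ofReal_mul (Real.rpow_nonneg ht.le _)]
  have h2 : ENNReal.ofReal (t ^ (-(1 / 2) : ℝ)) * ENNReal.ofReal (t ^ ((1 / 2) : ℝ)) = 1 := by
    rw [← ENNReal.ofReal_mul (Real.rpow_nonneg ht.le _), ← Real.rpow_add ht, neg_add_cancel,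
      Real.rpow_zero, ENNReal.ofReal_one]
  congr 1
  calc _ = (ENNReal.ofReal (t ^ (-(1 / 2) : ℝ)) * ENNReal.ofReal (t ^ ((1 / 2) : ℝ))) *
        (Lam h * ENNReal.ofReal (|dt h| ^ (1 / (2 * ((s : ℝ) + 1))))) := by ring
    _ = _ := by rw [h2, one_mul]

theorem PLrg_u_fin (s : ℕ) : ∫⁻ h in {h : X (s + 1) | |dt h| ≤ 1}, PLrg_u s h ≠ ∞ := by
  refine ne_top_of_le_ne_top (lam_fin s) ?_
  have hm : MeasurableSet {h : X (s + 1) | |dt h| ≤ 1} :=
    measurable_dt.abs measurableSet_Iic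
  apply setLIntegral_mono_ae' hm
  refine Filter.Eventually.of_forall fun h hh => ?_
  unfold PLrg_u
  have hh' : |dt h| ≤ 1 := hh
  have h1 : |dt h| ^ (1 / (2 * ((s : ℝ) + 1))) ≤ 1 :=
    Real.rpow_le_one (abs_nonneg _) hh' (by positivity)
  have h2 : ENNReal.ofReal (|dt h| ^ (1 / (2 * ((s : ℝ) + 1)))) ≤ 1 := by
    rw [← ENNReal.ofReal_one]
    exact ENNReal.ofReal_le_ofReal h1
  calc _ ≤ wt (s + 1) h * (Lam h * 1) := by gcongr
    _ = _ := by rw [mul_one]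

theorem PLrg_inner (s : ℕ) {α : ℝ} (hα : α - 1 / (2 * ((s : ℝ) + 1)) + s < -1) :
    ∃ M : ℝ≥0∞, M ≠ ∞ ∧ ∀ r : ℝ, r ≠ 0 →
      ∫⁻ h : X (s + 1), wt (s + 1) h * (Lam h * PLrg_K α (|r| * |dt h|)) =
        M * ENNReal.ofReal (|r| ^ (1 / (2 * ((s : ℝ) + 1)) - (s + 1))) := by
  set η : ℝ := 1 / (2 * ((s : ℝ) + 1)) with hη
  refine ⟨((s + 1 : ℕ) * ∫⁻ h in {h : X (s + 1) | |dt h| ≤ 1}, PLrg_u s h) *
    ∫⁻ x in Ioi (0 : ℝ), PLrg_K α x * (ENNReal.ofReal (x ^ (-η)) * ENNReal.ofReal (x ^ s)),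
    ENNReal.mul_ne_top (ENNReal.mul_ne_top (ENNReal.natCast_ne_top _) (PLrg_u_fin s)) (PLrg_J hα),
    fun r hr => ?_⟩
  have hr0 : 0 < |r| := abs_pos.2 hr
  have hH : Measurable fun x : ℝ => PLrg_K α (|r| * x) * ENNReal.ofReal (x ^ (-η)) :=
    ((PLrg_K_meas α).comp (measurable_const_mul _)).mul
      (ENNReal.measurable_ofReal.comp (measurable_id.pow_const _))
  have e1 : ∫⁻ h : X (s + 1), wt (s + 1) h * (Lam h * PLrg_K α (|r| * |dt h|)) =
      ∫⁻ h : X (s + 1), PLrg_u s h * (PLrg_K α (|r| * |dt h|) * ENNReal.ofReal (|dt h| ^ (-η))) := by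
    apply lintegral_congr_ae
    filter_upwards [ae_dt_ne_zero] with h hh
    have h1 : 0 < |dt h| := abs_pos.2 hh
    have h2 : ENNReal.ofReal (|dt h| ^ η) * ENNReal.ofReal (|dt h| ^ (-η)) = 1 := by
      rw [← ENNReal.ofReal_mul (Real.rpow_nonneg h1.le _), ← Real.rpow_add h1, add_neg_cancel,
        Real.rpow_zero, ENNReal.ofReal_one]
    unfold PLrg_u
    rw [← hη]
    calc _ = (ENNReal.ofReal (|dt h| ^ η) * ENNReal.ofReal (|dt h| ^ (-η))) *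
          (wt (s + 1) h * (Lam h * PLrg_K α (|r| * |dt h|))) := by rw [h2, one_mul]
      _ = _ := by ring
  rw [e1, lintegral_sc (Nat.succ_pos s) (PLrg_u_meas s) (PLrg_u_scale s) (PLrg_u_fin s) hH,
    mul_assoc (((s + 1 : ℕ) : ℝ≥0∞) * _)]
  congr 1
  have hG : Measurable fun x : ℝ => PLrg_K α x *
      (ENNReal.ofReal (x ^ (-η)) * ENNReal.ofReal (x ^ s)) :=
    (PLrg_K_meas α).mul ((ENNReal.measurable_ofReal.comp (measurable_id.pow_const _)).mul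
      (ENNReal.measurable_ofReal.comp (measurable_id.pow_const _)))
  have e2 : ∫⁻ x in Ioi (0 : ℝ), (PLrg_K α (|r| * x) * ENNReal.ofReal (x ^ (-η))) *
      ENNReal.ofReal (x ^ (s + 1 - 1)) =
      ∫⁻ x in Ioi (0 : ℝ), ENNReal.ofReal (|r| ^ (η - s)) * (fun x : ℝ => PLrg_K α x *
        (ENNReal.ofReal (x ^ (-η)) * ENNReal.ofReal (x ^ s))) (|r| * x) := by
    apply setLIntegral_congr_fun measurableSet_Ioi
    intro x hx
    have hx0 : 0 < x := hx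
    show (PLrg_K α (|r| * x) * ENNReal.ofReal (x ^ (-η))) * ENNReal.ofReal (x ^ (s + 1 - 1)) =
      ENNReal.ofReal (|r| ^ (η - s)) * (PLrg_K α (|r| * x) *
        (ENNReal.ofReal ((|r| * x) ^ (-η)) * ENNReal.ofReal ((|r| * x) ^ s)))
    rw [Nat.add_sub_cancel, Real.mul_rpow hr0.le hx0.le, mul_pow,
      ENNReal.ofReal_mul (Real.rpow_nonneg hr0.le _), ENNReal.ofReal_mul (pow_nonneg hr0.le _)]
    have h3 : ENNReal.ofReal (|r| ^ (η - s)) * (ENNReal.ofReal (|r| ^ (-η)) *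
        ENNReal.ofReal (|r| ^ s)) = 1 := by
      rw [← ENNReal.ofReal_mul (Real.rpow_nonneg hr0.le _),
        ← ENNReal.ofReal_mul (Real.rpow_nonneg hr0.le _), ← Real.rpow_natCast,
        ← Real.rpow_add hr0, ← Real.rpow_add hr0]
      have e : η - s + (-η + (s : ℝ)) = 0 := by ring
      rw [e, Real.rpow_zero, ENNReal.ofReal_one]
    calc _ = (ENNReal.ofReal (|r| ^ (η - s)) * (ENNReal.ofReal (|r| ^ (-η)) *
        ENNReal.ofReal (|r| ^ s))) * (PLrg_K α (|r| * x) * ENNReal.ofReal (x ^ (-η)) *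
          ENNReal.ofReal (x ^ s)) := by rw [h3, one_mul]
      _ = _ := by ring
  have hG' : Measurable fun x : ℝ => (fun x : ℝ => PLrg_K α x *
        (ENNReal.ofReal (x ^ (-η)) * ENNReal.ofReal (x ^ s))) (|r| * x) :=
    hG.comp (measurable_const_mul _)
  rw [e2, lintegral_const_mul _ hG', PLrg_sub hG hr0, mul_comm, mul_assoc,
    mul_comm (∫⁻ x in Ioi (0 : ℝ), _), ← mul_assoc, mul_comm]
  congr 1
  rw [← ENNReal.ofReal_mul (by positivity)]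
  congr 1
  rw [← Real.rpow_neg_one, ← Real.rpow_add hr0]
  congr 1
  ring

theorem PLrg_gauss1 {β b : ℝ} (hβ : -1 < β) (hb : 0 < b) :
    Integrable fun x : ℝ => |x| ^ β * Real.exp (-b * x ^ 2) := by
  have h0 : IntegrableOn (fun x : ℝ => |x| ^ β * Real.exp (-b * x ^ 2)) (Ioi 0) := by
    refine (integrableOn_rpow_mul_exp_neg_mul_sq hb hβ).congr_fun ?_ measurableSet_Ioi
    intro x hx
    have hx0 : 0 < x := hx
    show x ^ β * Real.exp (-b * x ^ 2) = |x| ^ β * Real.exp (-b * x ^ 2)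
    rw [abs_of_pos hx0]
  rw [← integrableOn_univ, ← @Iio_union_Ici _ _ (0 : ℝ), integrableOn_union,
    integrableOn_Ici_iff_integrableOn_Ioi]
  refine ⟨?_, h0⟩
  rw [← (Measure.measurePreserving_neg (volume : Measure ℝ)).integrableOn_comp_preimage
      (Homeomorph.neg ℝ).measurableEmbedding]
  simp only [Function.comp_def, neg_sq, neg_preimage, neg_Iio, neg_zero, abs_neg]
  exact h0

theorem PLrg_exp (x : ℝ) : |x| * Real.exp (-(Real.pi / 2) * x ^ 2) ≤ 1 := by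
  have h1 : |x| ≤ Real.exp ((Real.pi / 2) * x ^ 2) := by
    have h2 := Real.add_one_le_exp ((Real.pi / 2) * x ^ 2)
    have h3 : (1 : ℝ) ≤ Real.pi / 2 := by
      have := Real.pi_gt_three
      linarith
    have h4 : x ^ 2 ≤ (Real.pi / 2) * x ^ 2 := le_mul_of_one_le_left (sq_nonneg x) h3
    have h5 : |x| ≤ x ^ 2 + 1 := by
      have h6 : |x| ^ 2 = x ^ 2 := sq_abs x
      have h7 : 0 ≤ (|x| - 1) ^ 2 + |x| ^ 2 + 1 := by positivity
      have h8 : (|x| - 1) ^ 2 = |x| ^ 2 - 2 * |x| + 1 := by ring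
      linarith
    linarith
  have h2 : Real.exp (-(Real.pi / 2) * x ^ 2) = (Real.exp ((Real.pi / 2) * x ^ 2))⁻¹ := by
    rw [← Real.exp_neg]
    congr 1
    ring
  rw [h2]
  exact mul_inv_le_one_of_le₀ h1 (Real.exp_pos _).le

theorem PLrg_gauss (s : ℕ) {β : ℝ} (hβ : -1 < β) :
    ∫⁻ v : Fin (s + 2) → ℝ, ENNReal.ofReal (gs v) *
      ENNReal.ofReal ((∑ i, |v i|) * |v 0| ^ β) ≠ ∞ := by
  have hpi : 0 < Real.pi / 2 := by positivity
  have h1 : Integrable fun v : Fin (s + 2) → ℝ =>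
      ∏ i, (if i = 0 then |v i| ^ β else 1) * Real.exp (-(Real.pi / 2) * v i ^ 2) := by
    have h2 : ∀ i : Fin (s + 2), Integrable fun x : ℝ =>
        (if i = 0 then |x| ^ β else 1) * Real.exp (-(Real.pi / 2) * x ^ 2) := by
      intro i
      by_cases hi : i = 0
      · simp only [if_pos hi]
        exact PLrg_gauss1 hβ hpi
      · simp only [if_neg hi, one_mul]
        exact integrable_exp_neg_mul_sq hpi
    exact Integrable.fintype_prod h2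
  have h3 : ∀ v : Fin (s + 2) → ℝ,
      ∏ i, (if i = 0 then |v i| ^ β else 1) * Real.exp (-(Real.pi / 2) * v i ^ 2) =
        |v 0| ^ β * Real.exp (-(Real.pi / 2) * ∑ i, v i ^ 2) := by
    intro v
    rw [Finset.prod_mul_distrib, ← Real.exp_sum, ← Finset.mul_sum]
    congr 1
    rw [Finset.prod_ite_eq' Finset.univ (0 : Fin (s + 2)) (fun i => |v i| ^ β),
      if_pos (Finset.mem_univ _)]
  simp only [h3] at h1
  have h4 := (h1.const_mul ((s : ℝ) + 2)).lintegral_lt_top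
  refine ne_top_of_le_ne_top h4.ne (lintegral_mono fun v => ?_)
  have hg : 0 ≤ gs v := (Real.exp_pos _).le
  show ENNReal.ofReal (gs v) * ENNReal.ofReal ((∑ i, |v i|) * |v 0| ^ β) ≤
    ENNReal.ofReal (((s : ℝ) + 2) * (|v 0| ^ β * Real.exp (-(Real.pi / 2) * ∑ i, v i ^ 2)))
  rw [← ENNReal.ofReal_mul hg]
  apply ENNReal.ofReal_le_ofReal
  have h5 : gs v = Real.exp (-(Real.pi / 2) * ∑ i, v i ^ 2) *
      Real.exp (-(Real.pi / 2) * ∑ i, v i ^ 2) := by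
    rw [← Real.exp_add]
    unfold gs
    congr 1
    ring
  have h6 : ∀ i, |v i| * Real.exp (-(Real.pi / 2) * ∑ i, v i ^ 2) ≤ 1 := by
    intro i
    refine le_trans ?_ (PLrg_exp (v i))
    refine mul_le_mul_of_nonneg_left (Real.exp_le_exp.2 ?_) (abs_nonneg _)
    have h7 : v i ^ 2 ≤ ∑ i, v i ^ 2 :=
      Finset.single_le_sum (f := fun i => v i ^ 2) (fun j _ => sq_nonneg (v j))
        (Finset.mem_univ i)
    have h8 := mul_le_mul_of_nonneg_left h7 hpi.le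
    linarith
  have h9 : (∑ i, |v i|) * Real.exp (-(Real.pi / 2) * ∑ i, v i ^ 2) ≤ (s : ℝ) + 2 := by
    rw [Finset.sum_mul]
    refine (Finset.sum_le_sum fun i _ => h6 i).trans ?_
    rw [Finset.sum_const, Finset.card_univ, Fintype.card_fin, nsmul_eq_mul, mul_one]
    push_cast
    linarith
  have h10 : 0 ≤ |v 0| ^ β * Real.exp (-(Real.pi / 2) * ∑ i, v i ^ 2) :=
    mul_nonneg (Real.rpow_nonneg (abs_nonneg _) _) (Real.exp_pos _).le
  calc gs v * ((∑ i, |v i|) * |v 0| ^ β) =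
      ((∑ i, |v i|) * Real.exp (-(Real.pi / 2) * ∑ i, v i ^ 2)) *
        (|v 0| ^ β * Real.exp (-(Real.pi / 2) * ∑ i, v i ^ 2)) := by
          rw [h5]
          ring
    _ ≤ _ := mul_le_mul_of_nonneg_right h9 h10

theorem PLrg_Gmeas (s : ℕ) (β t : ℝ) : Measurable fun v : Fin (s + 2) → ℝ =>
    ENNReal.ofReal (gs (t • v)) * ENNReal.ofReal ((∑ i, |v i|) * |v 0| ^ β) := by
  refine (ENNReal.measurable_ofReal.comp (PLrg_gs.comp (measurable_const_smul t))).mul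
    (ENNReal.measurable_ofReal.comp ?_)
  refine Measurable.mul ?_ ((measurable_pi_apply 0).abs.pow_const β)
  exact Finset.measurable_fun_sum _ fun i _ => (measurable_pi_apply i).abs

theorem PLrg_gaussT (s : ℕ) (β : ℝ) {t : ℝ} (ht : 0 < t) :
    ∫⁻ v : Fin (s + 2) → ℝ, ENNReal.ofReal (gs (t • v)) *
      ENNReal.ofReal ((∑ i, |v i|) * |v 0| ^ β) =
    ENNReal.ofReal (t ^ (-((s : ℝ) + 3 + β))) * ∫⁻ v : Fin (s + 2) → ℝ, ENNReal.ofReal (gs v) *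
      ENNReal.ofReal ((∑ i, |v i|) * |v 0| ^ β) := by
  have hm := PLrg_Gmeas s β 1
  simp only [one_smul] at hm
  rw [LSca_smul (m := s + 2) ht.ne' hm, abs_of_pos ht]
  have e1 : ∀ v : Fin (s + 2) → ℝ, ENNReal.ofReal (gs (t • v)) *
      ENNReal.ofReal ((∑ i, |(t • v) i|) * |(t • v) 0| ^ β) =
      ENNReal.ofReal (t ^ (1 + β)) * (ENNReal.ofReal (gs (t • v)) *
      ENNReal.ofReal ((∑ i, |v i|) * |v 0| ^ β)) := by
    intro v
    have h1 : (∑ i, |(t • v) i|) * |(t • v) 0| ^ β =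
        t ^ (1 + β) * ((∑ i, |v i|) * |v 0| ^ β) := by
      simp only [Pi.smul_apply, smul_eq_mul, abs_mul, abs_of_pos ht]
      rw [← Finset.mul_sum, Real.mul_rpow ht.le (abs_nonneg _), Real.rpow_add ht, Real.rpow_one]
      ring
    rw [h1, ENNReal.ofReal_mul (Real.rpow_nonneg ht.le _)]
    ring
  rw [lintegral_congr e1, lintegral_const_mul _ (PLrg_Gmeas s β t), ← mul_assoc, ← mul_assoc,
    ← ENNReal.ofReal_mul (Real.rpow_nonneg ht.le _),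
    ← ENNReal.ofReal_mul (by positivity), ← Real.rpow_natCast, ← Real.rpow_add ht,
    ← Real.rpow_add ht]
  have e2 : -((s : ℝ) + 3 + β) + ((s + 2 : ℕ) : ℝ) + (1 + β) = 0 := by
    push_cast
    ring
  rw [e2, Real.rpow_zero, ENNReal.ofReal_one, one_mul]

theorem PLrg_sum {γ : ℝ} (hγ : 1 < γ) (N : ℕ) :
    ∑' t : {t : ℕ // 0 < t ∧ t.Coprime N}, ENNReal.ofReal ((t.1 : ℝ) ^ (-γ)) ≠ ∞ := by
  have h1 : Summable fun t : ℕ => (t : ℝ) ^ (-γ) := Real.summable_nat_rpow.2 (by linarith)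
  have h2 : Summable fun t : {t : ℕ // 0 < t ∧ t.Coprime N} => (t.1 : ℝ) ^ (-γ) :=
    h1.comp_injective Subtype.val_injective
  exact h2.tsum_ofReal_ne_top

theorem PLrg_K_top (α x : ℝ) : PLrg_K α x ≠ ∞ := by
  unfold PLrg_K
  by_cases hx : x ∈ Ioi (1 : ℝ)
  · rw [indicator_of_mem hx]
    exact ENNReal.ofReal_ne_top
  · rw [indicator_of_notMem hx]
    exact ENNReal.zero_ne_top

theorem PLrg_term {s N : ℕ} {T : Finset SL(s + 2, ℤ)} {φ : X (s + 2) → ℂ}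
    (h : IsLvl N T φ) {σ : ℝ} (hσ : σ < 1 + 1 / (2 * ((s : ℝ) + 1))) :
    ∃ M : ℝ≥0∞, M ≠ ∞ ∧ ∀ t : ℝ, 0 < t →
      ∫⁻ g, wP (wt (s + 1)) g * PLrg_F φ (PLrg_K (σ - (s + 2))) t g ≤
        M * ∫⁻ v : Fin (s + 2) → ℝ, ENNReal.ofReal (gs (t • v)) *
          ENNReal.ofReal ((∑ i, |v i|) * |v 0| ^ (1 / (2 * ((s : ℝ) + 1)) - 1 / 2)) := by
  set η : ℝ := 1 / (2 * ((s : ℝ) + 1)) with hη
  obtain ⟨C, hC⟩ := h.lip
  obtain ⟨C1, hC1, hb⟩ := lip_bound h.isP h.cusp.1 hC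
  obtain ⟨M, hM, hMr⟩ := PLrg_inner s (α := σ - (s + 2)) (by rw [← hη]; linarith)
  rw [← hη] at hMr
  refine ⟨ENNReal.ofReal C1 * M, ENNReal.mul_ne_top ENNReal.ofReal_ne_top hM, fun t ht => ?_⟩
  have hKm := PLrg_K_meas (σ - (s + 2))
  rw [lintegral_wP (isWt_wt (s + 1)).meas (PLrg_F_meas h.isP.meas hKm t),
    ← lintegral_const_mul _ (PLrg_Gmeas s (η - 1 / 2) t)]
  apply lintegral_mono_ae
  filter_upwards [ae_ne_zero (s + 1)] with v hv
  have hv0 : 0 < |v 0| := abs_pos.2 hv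
  have hS : 0 ≤ ∑ i, |v i| := Finset.sum_nonneg fun i _ => abs_nonneg _
  set A : ℝ≥0∞ := ENNReal.ofReal (C1 * (∑ i, |v i|) * |v 0| ^ (-(1 / 2) : ℝ)) with hA
  set B : ℝ≥0∞ := ENNReal.ofReal (gs (t • v)) with hB
  have e1 : ∫⁻ h' : X (s + 1), wt (s + 1) h' * ∫⁻ θ in Icc (0 : Fin (s + 1) → ℝ) 1,
      PLrg_F φ (PLrg_K (σ - (s + 2))) t (glue h' (v 0 • θ) v) ≤
      ∫⁻ h' : X (s + 1), (A * B) *
        (wt (s + 1) h' * (Lam h' * PLrg_K (σ - (s + 2)) (|v 0| * |dt h'|))) := by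
    apply lintegral_mono_ae
    filter_upwards [ae_dt_ne_zero] with h' hh'
    have e2 : ∀ θ : Fin (s + 1) → ℝ,
        PLrg_F φ (PLrg_K (σ - (s + 2))) t (glue h' (v 0 • θ) v) =
        ‖φ (glue h' (v 0 • θ) v)‖ₑ ^ 2 * (PLrg_K (σ - (s + 2)) (|v 0| * |dt h'|) * B) := by
      intro θ
      unfold PLrg_F
      rw [dt_glue _ _ hv, abs_mul, glue_row]
    rw [lintegral_congr e2, lintegral_mul_const' _ _
      (ENNReal.mul_ne_top (PLrg_K_top _ _) ENNReal.ofReal_ne_top)]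
    calc _ ≤ wt (s + 1) h' * ((A * Lam h') * (PLrg_K (σ - (s + 2)) (|v 0| * |dt h'|) * B)) := by
          gcongr
          exact hb v h' hv hh'
      _ = _ := by ring
  have hm2 : Measurable fun h' : X (s + 1) =>
      wt (s + 1) h' * (Lam h' * PLrg_K (σ - (s + 2)) (|v 0| * |dt h'|)) :=
    (isWt_wt (s + 1)).meas.mul (measurable_Lam.mul
      (hKm.comp ((measurable_const_mul _).comp measurable_dt.abs)))
  rw [lintegral_const_mul _ hm2, hMr (v 0) hv] at e1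
  refine (mul_le_mul' le_rfl e1).trans (le_of_eq ?_)
  have e3 : ENNReal.ofReal (|v 0| ^ (s + 1)) * (ENNReal.ofReal (|v 0| ^ (-(1 / 2) : ℝ)) *
      ENNReal.ofReal (|v 0| ^ (η - (s + 1)))) = ENNReal.ofReal (|v 0| ^ (η - 1 / 2)) := by
    rw [← ENNReal.ofReal_mul (by positivity), ← ENNReal.ofReal_mul (by positivity),
      ← Real.rpow_natCast, ← Real.rpow_add hv0, ← Real.rpow_add hv0]
    congr 2
    push_cast
    ring
  rw [hA, ENNReal.ofReal_mul (by positivity), ENNReal.ofReal_mul hC1.le,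
    ENNReal.ofReal_mul hS, ← e3]
  ring

theorem large_det {s N : ℕ} {T : Finset SL(s + 2, ℤ)} {φ : X (s + 2) → ℂ}
    (h : IsLvl N T φ) : ∃ b : ℝ, 1 < b ∧ ∀ σ, σ < b →
      ∫⁻ g in {g : X (s + 2) | 1 < |dt g|}, wT T g * (‖φ g‖ₑ ^ 2 *
        (ENNReal.ofReal (|dt g| ^ (σ - (s + 2))) * thN s N g)) ≠ ∞ := by
  have hs : (0 : ℝ) < 1 / (2 * ((s : ℝ) + 1)) := by positivity
  refine ⟨1 + 1 / (2 * ((s : ℝ) + 1)), by linarith, fun σ hσ => ?_⟩
  have hmS : MeasurableSet {g : X (s + 2) | 1 < |dt g|} := measurable_dt.abs measurableSet_Ioi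
  have e1 : ∫⁻ g in {g : X (s + 2) | 1 < |dt g|}, wT T g * (‖φ g‖ₑ ^ 2 *
        (ENNReal.ofReal (|dt g| ^ (σ - (s + 2))) * thN s N g)) =
      ∫⁻ g, wT T g * (‖φ g‖ₑ ^ 2 * (PLrg_K (σ - (s + 2)) |dt g| * thN s N g)) := by
    rw [← lintegral_indicator hmS]
    apply lintegral_congr
    intro g
    by_cases hg : 1 < |dt g|
    · rw [indicator_of_mem (by exact hg)]
      unfold PLrg_K
      rw [indicator_of_mem (by exact hg)]
    · rw [indicator_of_notMem (by exact hg)]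
      unfold PLrg_K
      rw [indicator_of_notMem (by exact hg), zero_mul, mul_zero, mul_zero]
  rw [e1, unfold_theta h (PLrg_K_meas _)]
  obtain ⟨M, hM, hMt⟩ := PLrg_term h hσ
  set β : ℝ := 1 / (2 * ((s : ℝ) + 1)) - 1 / 2 with hβ
  set I0 : ℝ≥0∞ := ∫⁻ v : Fin (s + 2) → ℝ, ENNReal.ofReal (gs v) *
      ENNReal.ofReal ((∑ i, |v i|) * |v 0| ^ β) with hI0
  have hI : I0 ≠ ∞ := PLrg_gauss s (by linarith)
  have e2 : ∀ t : {t : ℕ // 0 < t ∧ t.Coprime N}, ∫⁻ g, wP (wt (s + 1)) g * (‖φ g‖ₑ ^ 2 *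
        (PLrg_K (σ - (s + 2)) |dt g| * ENNReal.ofReal (gs ((t.1 : ℝ) • g 0)))) ≤
      ENNReal.ofReal ((t.1 : ℝ) ^ (-((s : ℝ) + 3 + β))) * (M * I0) := by
    intro t
    have ht : (0 : ℝ) < (t.1 : ℝ) := by exact_mod_cast t.2.1
    refine (hMt t.1 ht).trans (le_of_eq ?_)
    rw [PLrg_gaussT s β ht]
    ring
  refine ne_top_of_le_ne_top ?_ (ENNReal.tsum_le_tsum e2)
  rw [ENNReal.tsum_mul_right]
  refine ENNReal.mul_ne_top (PLrg_sum ?_ N) (ENNReal.mul_ne_top hM hI)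
  have : (0 : ℝ) ≤ s := Nat.cast_nonneg s
  linarith

end Pool.Agent.GL74
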