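import Pool.Agent.W_7742x_h74.PDua
import Pool.Agent.W_7742x_h74.WSub
import Mathlib.NumberTheory.ArithmeticFunction.Moebius

/-! # Theta sums over the vectors of level `N`

`dN N d g`: the first row of `g` multiplied by `d`, the others by `N`.

* `sum_MN`: `v ∈ MN` are the nonzero `(v_0, N v')` with `gcd (v_0, N) = 1`;
  `∑_{d ∣ gcd (v_0, N)} μ(d) = [gcd (v_0, N) = 1]`, and the sum over the `v = (d u_0, N u')` is the
  sum over `u ∈ ℤ^n` of `gs (u (dN N d g))`.  The zero vector contributes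
  `∑_{d ∣ N} μ(d) = [N = 1]` to the right hand side and is not in `MN`.
* `Sd_dN_le`: `gd (dN N d g)` has the rows of `gd g` divided by `d` resp. `N`, so
  `ξ gd (dN N d g) = N⁻¹ ζ gd g`, `ζ = (ξ_0 N / d, ξ')`, nonzero integral, injective in `ξ`;
  `gd (N g) = N⁻¹ gd g`. -/

set_option autoImplicit false

noncomputable section

namespace Pool.Agent.GL74

open MeasureTheory
open scoped ENNReal

/-- First row times `d`, other rows times `N`. -/
def dN {s : ℕ} (N d : ℕ) (g : X (s + 1)) : X (s + 1) :=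
  fun i j => (if i = 0 then (d : ℝ) else (N : ℝ)) * g i j

theorem dt_dN {s : ℕ} (N d : ℕ) (g : X (s + 1)) : dt (dN N d g) = (d * (N : ℝ) ^ s) * dt g := by
  have h1 : dt (dN N d g) = (∏ i : Fin (s + 1), (if i = 0 then (d : ℝ) else (N : ℝ))) * dt g :=
    Matrix.det_mul_column (fun i : Fin (s + 1) => (if i = 0 then (d : ℝ) else (N : ℝ)))
      (Matrix.of g)
  rw [h1, Fin.prod_univ_succ, if_pos rfl]
  congr 2
  rw [Finset.prod_congr rfl fun i _ => if_neg (Fin.succ_ne_zero i), Finset.prod_const,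
    Finset.card_univ, Fintype.card_fin]

theorem PMob_moeb {N : ℕ} (hN : 0 < N) (a : ℤ) :
    ∑ d ∈ N.divisors, (if (d : ℤ) ∣ a then (ArithmeticFunction.moebius d : ℝ) else 0) =
      if IsCoprime a (N : ℤ) then 1 else 0 := by
  have h1 : N.divisors.filter (fun d : ℕ => (d : ℤ) ∣ a) = (Nat.gcd a.natAbs N).divisors := by
    ext d
    rw [Finset.mem_filter, Nat.mem_divisors, Nat.mem_divisors, Nat.dvd_gcd_iff,
      Int.natCast_dvd]
    have h0 : Nat.gcd a.natAbs N ≠ 0 := (Nat.gcd_pos_of_pos_right _ hN).ne'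
    constructor
    · rintro ⟨⟨h2, h3⟩, h4⟩
      exact ⟨⟨h4, h2⟩, h0⟩
    · rintro ⟨⟨h2, h3⟩, h4⟩
      exact ⟨⟨h3, hN.ne'⟩, h2⟩
  have h2 : ∀ m : ℕ, ∑ d ∈ m.divisors, (ArithmeticFunction.moebius d : ℝ) =
      if m = 1 then 1 else 0 := by
    intro m
    have h3 : ∑ d ∈ m.divisors, ArithmeticFunction.moebius d = if m = 1 then 1 else 0 := by
      rw [← ArithmeticFunction.coe_mul_zeta_apply, ArithmeticFunction.moebius_mul_coe_zeta,
        ArithmeticFunction.one_apply]
    rw [← Int.cast_sum, h3]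
    split_ifs <;> simp
  rw [← Finset.sum_filter, h1, h2]
  have h3 : IsCoprime a (N : ℤ) ↔ Nat.gcd a.natAbs N = 1 := by
    rw [Int.isCoprime_iff_gcd_eq_one, Int.gcd_eq_natAbs_gcd_natAbs, Int.natAbs_natCast]
  simp only [h3]

/-- `(v_0, v') ↦ (d v_0, N v')` -/
def PMob_io {s : ℕ} (N d : ℕ) (v : Fin (s + 2) → ℤ) : Fin (s + 2) → ℤ :=
  fun i => (if i = 0 then (d : ℤ) else (N : ℤ)) * v i

theorem PMob_inj {s N d : ℕ} (hN : 0 < N) (hd : 0 < d) :
    Function.Injective (PMob_io (s := s) N d) := by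
  intro v w h
  funext i
  have h1 := congrFun h i
  unfold PMob_io at h1
  have h2 : (if i = 0 then (d : ℤ) else (N : ℤ)) ≠ 0 := by
    split_ifs
    · exact_mod_cast hd.ne'
    · exact_mod_cast hN.ne'
  exact mul_left_cancel₀ h2 h1

theorem PMob_range {s N d : ℕ} (w : Fin (s + 2) → ℤ) :
    w ∈ Set.range (PMob_io (s := s) N d) ↔ (d : ℤ) ∣ w 0 ∧ ∀ j, j ≠ 0 → (N : ℤ) ∣ w j := by
  constructor
  · rintro ⟨v, rfl⟩
    refine ⟨?_, fun j hj => ?_⟩
    · unfold PMob_io
      rw [if_pos rfl]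
      exact dvd_mul_right _ _
    · unfold PMob_io
      rw [if_neg hj]
      exact dvd_mul_right _ _
  · rintro ⟨⟨a, ha⟩, h⟩
    choose! b hb using h
    refine ⟨fun i => if i = 0 then a else b i, ?_⟩
    funext i
    unfold PMob_io
    by_cases hi : i = 0
    · simp only [if_pos hi]
      rw [hi, ha]
    · simp only [if_neg hi]
      rw [hb i hi]

theorem PMob_rv {s : ℕ} (N d : ℕ) (v : Fin (s + 2) → ℤ) (g : X (s + 2)) :
    rv (zr v) (dN N d g) = rv (zr (PMob_io N d v)) g := by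
  funext j
  unfold rv zr dN PMob_io
  refine Finset.sum_congr rfl fun i _ => ?_
  split_ifs <;> push_cast <;> ring

theorem PMob_zero {s : ℕ} (g : X (s + 2)) : gs (rv (zr 0) g) = 1 := by
  have h1 : rv (zr 0) g = 0 := by
    funext j
    unfold rv zr
    simp
  rw [h1]
  unfold gs
  simp

theorem sum_MN {s N : ℕ} (hN : 0 < N) {g : X (s + 2)} (hg : dt g ≠ 0) :
    ∑' v : MN s N, gs (rv (zr v.1) g) =
      ∑ d ∈ N.divisors, (ArithmeticFunction.moebius d : ℝ) *
        ∑' v : Fin (s + 2) → ℤ, gs (rv (zr v) (dN N d g)) - (if N = 1 then 1 else 0) := by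
  classical
  set f : (Fin (s + 2) → ℤ) → ℝ := fun v => gs (rv (zr v) g) with hf
  have hfs : Summable f := summable_gs hg
  set F : ℕ → (Fin (s + 2) → ℤ) → ℝ := fun d w =>
    if (d : ℤ) ∣ w 0 ∧ ∀ j, j ≠ 0 → (N : ℤ) ∣ w j then f w else 0 with hF
  have hFd : ∀ d ∈ N.divisors, HasSum (F d)
      (∑' v : Fin (s + 2) → ℤ, gs (rv (zr v) (dN N d g))) := by
    intro d hd
    have hd0 : 0 < d := Nat.pos_of_mem_divisors hd
    have hi := PMob_inj (s := s) hN hd0
    rw [← hi.hasSum_iff (f := F d) fun w hw => if_neg fun h => hw ((PMob_range w).2 h)]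
    have h1 : F d ∘ PMob_io N d = fun v => gs (rv (zr v) (dN N d g)) := by
      funext v
      show F d (PMob_io N d v) = _
      rw [PMob_rv]
      exact if_pos ((PMob_range _).1 ⟨v, rfl⟩)
    rw [h1]
    refine Summable.hasSum ?_
    have h2 : (fun v : Fin (s + 2) → ℤ => gs (rv (zr v) (dN N d g))) = f ∘ PMob_io N d := by
      funext v
      show _ = f (PMob_io N d v)
      rw [PMob_rv]
    rw [h2]
    exact hfs.comp_injective hi
  have hsum : HasSum (fun w => ∑ d ∈ N.divisors, (ArithmeticFunction.moebius d : ℝ) * F d w -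
      (if w = 0 then (if N = 1 then (1 : ℝ) else 0) else 0))
      (∑ d ∈ N.divisors, (ArithmeticFunction.moebius d : ℝ) *
        ∑' v : Fin (s + 2) → ℤ, gs (rv (zr v) (dN N d g)) - (if N = 1 then 1 else 0)) :=
    (hasSum_sum fun d hd => (hFd d hd).mul_left _).sub (hasSum_ite_eq 0 _)
  have hpt : (fun w => ∑ d ∈ N.divisors, (ArithmeticFunction.moebius d : ℝ) * F d w -
      (if w = 0 then (if N = 1 then (1 : ℝ) else 0) else 0)) =
      Set.indicator {v : Fin (s + 2) → ℤ | v ≠ 0 ∧ IsCoprime (v 0) (N : ℤ) ∧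
        ∀ j, j ≠ 0 → (N : ℤ) ∣ v j} f := by
    funext w
    by_cases hw : ∀ j, j ≠ 0 → (N : ℤ) ∣ w j
    · have h1 : ∑ d ∈ N.divisors, (ArithmeticFunction.moebius d : ℝ) * F d w =
          (if IsCoprime (w 0) (N : ℤ) then 1 else 0) * f w := by
        rw [← PMob_moeb hN (w 0), Finset.sum_mul]
        refine Finset.sum_congr rfl fun d _ => ?_
        show (ArithmeticFunction.moebius d : ℝ) *
          (if (d : ℤ) ∣ w 0 ∧ ∀ j, j ≠ 0 → (N : ℤ) ∣ w j then f w else 0) = _
        by_cases h2 : (d : ℤ) ∣ w 0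
        · rw [if_pos ⟨h2, hw⟩, if_pos h2]
        · rw [if_neg fun h => h2 h.1, if_neg h2]
          ring
      rw [h1]
      by_cases hw0 : w = 0
      · rw [if_pos hw0, Set.indicator_of_notMem fun h => h.1 hw0, hw0]
        have h2 : f 0 = 1 := PMob_zero g
        have h3 : IsCoprime ((0 : Fin (s + 2) → ℤ) 0) (N : ℤ) ↔ N = 1 := by
          rw [Pi.zero_apply, isCoprime_zero_left, Int.isUnit_iff]
          constructor
          · rintro (h | h)
            · exact_mod_cast h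
            · omega
          · intro h
            left
            exact_mod_cast h
        rw [h2]
        simp only [h3]
        ring
      · rw [if_neg hw0, sub_zero]
        by_cases hc : IsCoprime (w 0) (N : ℤ)
        · rw [if_pos hc, Set.indicator_of_mem (show w ∈ {v : Fin (s + 2) → ℤ | v ≠ 0 ∧
            IsCoprime (v 0) (N : ℤ) ∧ ∀ j, j ≠ 0 → (N : ℤ) ∣ v j} from ⟨hw0, hc, hw⟩), one_mul]
        · rw [if_neg hc, Set.indicator_of_notMem fun h => hc h.2.1, zero_mul]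
    · have hw0 : w ≠ 0 := by
        rintro rfl
        exact hw fun j _ => dvd_zero _
      rw [if_neg hw0, sub_zero, Set.indicator_of_notMem fun h => hw h.2.2]
      refine Finset.sum_eq_zero fun d _ => ?_
      show (ArithmeticFunction.moebius d : ℝ) *
          (if (d : ℤ) ∣ w 0 ∧ ∀ j, j ≠ 0 → (N : ℤ) ∣ w j then f w else 0) = _
      rw [if_neg fun h => hw h.2, mul_zero]
  rw [hpt] at hsum
  have h3 := hasSum_subtype_iff_indicator.2 hsum
  exact h3.tsum_eq

theorem PMob_gd {s N d : ℕ} (hN : 0 < N) (hd : 0 < d) {g : X (s + 2)} (hg : dt g ≠ 0) :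
    gd (dN N d g) = fun i j => (if i = 0 then (d : ℝ) else (N : ℝ))⁻¹ * gd g i j := by
  have hD : ∀ i : Fin (s + 2), (if i = 0 then (d : ℝ) else (N : ℝ)) ≠ 0 := by
    intro i
    split_ifs
    · exact_mod_cast hd.ne'
    · exact_mod_cast hN.ne'
  have hu : IsUnit (Matrix.of g).det := isUnit_iff_ne_zero.2 hg
  have h1 : (Matrix.of (dN N d g))⁻¹ = Matrix.of fun j i =>
      (if i = 0 then (d : ℝ) else (N : ℝ))⁻¹ * (Matrix.of g)⁻¹ j i := by
    apply Matrix.inv_eq_right_inv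
    ext i k
    rw [Matrix.mul_apply]
    have h2 : ∑ j, (Matrix.of (dN N d g)) i j * (Matrix.of fun j i =>
        (if i = 0 then (d : ℝ) else (N : ℝ))⁻¹ * (Matrix.of g)⁻¹ j i) j k =
        (if i = 0 then (d : ℝ) else (N : ℝ)) * (if k = 0 then (d : ℝ) else (N : ℝ))⁻¹ *
          (Matrix.of g * (Matrix.of g)⁻¹) i k := by
      rw [Matrix.mul_apply, Finset.mul_sum]
      refine Finset.sum_congr rfl fun j _ => ?_
      rw [Matrix.of_apply, Matrix.of_apply, Matrix.of_apply]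
      unfold dN
      ring
    rw [h2, Matrix.mul_nonsing_inv _ hu]
    by_cases hik : i = k
    · rw [hik, Matrix.one_apply_eq, mul_one, mul_inv_cancel₀ (hD k)]
    · rw [Matrix.one_apply_ne hik, mul_zero]
  funext i j
  unfold gd
  rw [h1, Matrix.of_apply]

theorem Sd_dN_le {s N d : ℕ} (hN : 0 < N) (hd : d ∣ N) {g : X (s + 2)} (hg : dt g ≠ 0) :
    Sd (dN N d g) ≤ Sd ((N : ℝ) • g) := by
  obtain ⟨e, he⟩ := hd
  have hd0 : 0 < d := by
    rcases Nat.eq_zero_or_pos d with h | h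
    · rw [h, zero_mul] at he
      omega
    · exact h
  have he0 : 0 < e := by
    rcases Nat.eq_zero_or_pos e with h | h
    · rw [h, mul_zero] at he
      omega
    · exact h
  have hNR : (N : ℝ) ≠ 0 := by exact_mod_cast hN.ne'
  have hdR : (d : ℝ) ≠ 0 := by exact_mod_cast hd0.ne'
  let ζ : {ξ : Fin (s + 2) → ℤ // ξ ≠ 0} → {ξ : Fin (s + 2) → ℤ // ξ ≠ 0} := fun ξ =>
    ⟨fun i => (if i = 0 then (e : ℤ) else 1) * ξ.1 i, fun h => ξ.2 (by
      funext i
      have h1 := congrFun h i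
      have h2 : (if i = 0 then (e : ℤ) else 1) ≠ 0 := by
        split_ifs
        · exact_mod_cast he0.ne'
        · exact one_ne_zero
      exact (mul_eq_zero.1 h1).resolve_left h2)⟩
  have hζ : Function.Injective ζ := by
    intro ξ η h
    apply Subtype.ext
    funext i
    have h1 := congrFun (congrArg Subtype.val h) i
    have h2 : (if i = 0 then (e : ℤ) else 1) ≠ 0 := by
      split_ifs
      · exact_mod_cast he0.ne'
      · exact one_ne_zero
    exact mul_left_cancel₀ h2 h1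
  have key : ∀ ξ : {ξ : Fin (s + 2) → ℤ // ξ ≠ 0},
      rv (zr ξ.1) (gd (dN N d g)) = rv (zr (ζ ξ).1) (gd ((N : ℝ) • g)) := by
    intro ξ
    rw [PMob_gd hN hd0 hg, gd_smul hNR hg]
    funext j
    unfold rv zr
    refine Finset.sum_congr rfl fun i _ => ?_
    show (ξ.1 i : ℝ) * ((if i = 0 then (d : ℝ) else (N : ℝ))⁻¹ * gd g i j) =
      (((if i = 0 then (e : ℤ) else 1) * ξ.1 i : ℤ) : ℝ) * ((N : ℝ)⁻¹ * gd g i j)
    by_cases hi : i = 0
    · rw [if_pos hi, if_pos hi]
      have h1 : (N : ℝ) = d * e := by exact_mod_cast he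
      have heR : (e : ℝ) ≠ 0 := by exact_mod_cast he0.ne'
      rw [h1]
      push_cast
      field_simp
    · rw [if_neg hi, if_neg hi]
      push_cast
      ring
  unfold Sd
  have h1 : ∑' ξ : {ξ : Fin (s + 2) → ℤ // ξ ≠ 0},
      ENNReal.ofReal (gs (rv (zr ξ.1) (gd (dN N d g)))) =
      ∑' ξ : {ξ : Fin (s + 2) → ℤ // ξ ≠ 0},
        ENNReal.ofReal (gs (rv (zr (ζ ξ).1) (gd ((N : ℝ) • g)))) :=
    tsum_congr fun ξ => by rw [key ξ]
  rw [h1]
  exact ENNReal.tsum_comp_le_tsum_of_injective hζ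
    (fun ξ => ENNReal.ofReal (gs (rv (zr ξ.1) (gd ((N : ℝ) • g)))))

end Pool.Agent.GL74
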