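import Pool.Agent.W_7742x_h74.SDef

/-! # Alternants satisfy the Pieri relations

1. `es_mul_alt`: expand the determinant,
   `e_k(β) det (β_i^{l_j}) = ∑_π sgn π ∑_{|S| = k} ∏_{i ∈ S} β_i ∏_j β_{π j}^{l_j}`, and replace `S`
   by `π (S)` (a bijection of the sets with `k` elements): the inner product becomes
   `∏_j β_{π j}^{l_j + 1_S(j)}`.
2. `alt_eq_zero`: two equal columns.
3. `isPieri_alt`: if `β` is injective, `alt β (stair n) ≠ 0` (Vandermonde up to sign / reversal of
   columns), and `w ν = alt β (ν + stair) / alt β stair` for antitone `ν`, `0` otherwise, is a Pieri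
   system for `e_k(β)`: if `ν` is antitone and `ν + 1_S` is not, there is `j` with `ν_j = ν_{j+1}`,
   `j ∉ S`, `j + 1 ∈ S`, and then `ν + 1_S + stair` takes the same value at `j` and `j + 1`. -/

set_option autoImplicit false

noncomputable section

namespace Pool.Agent.GL74

theorem es_mul_alt {n : ℕ} (β : Fin n → ℂ) (l : Fin n → ℕ) (k : ℕ) :
    es β k * alt β l = ∑ S ∈ Finset.powersetCard k Finset.univ, alt β (l + ind S) := by
  have h1 : ∀ l : Fin n → ℕ, alt β l = ∑ σ : Equiv.Perm (Fin n),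
      ((Equiv.Perm.sign σ : ℤ) : ℂ) * ∏ j, β (σ j) ^ l j := by
    intro l
    unfold alt
    rw [Matrix.det_apply']
    rfl
  rw [h1, Finset.mul_sum]
  simp_rw [h1]
  rw [Finset.sum_comm]
  refine Finset.sum_congr rfl fun σ _ => ?_
  have h2 : es β k = ∑ S ∈ Finset.powersetCard k (Finset.univ : Finset (Fin n)),
      ∏ j ∈ S, β (σ j) := by
    unfold es
    symm
    refine Finset.sum_equiv (Equiv.finsetCongr σ) (fun S => ?_) (fun S _ => ?_)
    · rw [Finset.mem_powersetCard, Finset.mem_powersetCard, Equiv.finsetCongr_apply,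
        Finset.card_map]
      exact ⟨fun h => ⟨Finset.subset_univ _, h.2⟩, fun h => ⟨Finset.subset_univ _, h.2⟩⟩
    · rw [Equiv.finsetCongr_apply, Finset.prod_map]
      rfl
  rw [h2, Finset.sum_mul]
  refine Finset.sum_congr rfl fun S _ => ?_
  have h3 : ∏ j ∈ S, β (σ j) = ∏ j, β (σ j) ^ ind S j := by
    unfold ind
    simp only [pow_ite, pow_one, pow_zero]
    rw [Finset.prod_ite_mem, Finset.univ_inter]
  have h4 : ∏ j, β (σ j) ^ (l + ind S) j = (∏ j, β (σ j) ^ l j) * ∏ j, β (σ j) ^ ind S j := by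
    rw [← Finset.prod_mul_distrib]
    refine Finset.prod_congr rfl fun j _ => ?_
    rw [Pi.add_apply, pow_add]
  rw [h3, h4]
  ring

theorem alt_eq_zero {n : ℕ} (β : Fin n → ℂ) (l : Fin n → ℕ) {i j : Fin n} (hij : i ≠ j)
    (h : l i = l j) : alt β l = 0 := by
  unfold alt
  refine Matrix.det_zero_of_column_eq hij fun m => ?_
  rw [Matrix.of_apply, Matrix.of_apply, h]

theorem alt_stair_ne_zero {n : ℕ} {β : Fin n → ℂ} (hβ : Function.Injective β) :
    alt β (stair n) ≠ 0 := by
  have h1 : (Matrix.of fun i j => β i ^ stair n j) =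
      (Matrix.vandermonde β).submatrix id (Fin.revPerm : Equiv.Perm (Fin n)) := by
    ext i j
    rw [Matrix.of_apply, Matrix.submatrix_apply, Matrix.vandermonde_apply, id]
    congr 1
    rw [Fin.revPerm_apply, Fin.val_rev]
    unfold stair
    omega
  unfold alt
  rw [h1, Matrix.det_permute']
  refine mul_ne_zero ?_ (Matrix.det_vandermonde_ne_zero_iff.2 hβ)
  exact_mod_cast (Equiv.Perm.sign (Fin.revPerm : Equiv.Perm (Fin n))).ne_zero

open Classical in
/-- The Schur polynomials as quotients of alternants. -/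
def wAlt {n : ℕ} (β : Fin n → ℂ) (ν : Fin n → ℕ) : ℂ :=
  if Antitone ν then alt β (ν + stair n) / alt β (stair n) else 0

theorem alt_eq_zero_of_not_antitone {n : ℕ} (β : Fin n → ℂ) {ν : Fin n → ℕ} (hν : Antitone ν)
    (S : Finset (Fin n)) (hS : ¬ Antitone (ν + ind S)) : alt β (ν + stair n + ind S) = 0 := by
  cases n with
  | zero => exact absurd (fun i => i.elim0) hS
  | succ n =>
    rw [Fin.antitone_iff_succ_le] at hS
    push Not at hS
    obtain ⟨c, hc⟩ := hS
    have h1 : ν c.succ ≤ ν c.castSucc := hν (Fin.castSucc_lt_succ).le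
    have h2 : ind S c.succ ≤ 1 := by unfold ind; split_ifs <;> omega
    rw [Pi.add_apply, Pi.add_apply] at hc
    refine alt_eq_zero β _ (i := c.castSucc) (j := c.succ) (Fin.castSucc_lt_succ).ne ?_
    rw [Pi.add_apply, Pi.add_apply, Pi.add_apply, Pi.add_apply]
    unfold stair
    rw [Fin.val_castSucc, Fin.val_succ]
    have h3 := c.2
    omega

theorem isPieri_alt {n : ℕ} {β : Fin n → ℂ} (hβ : Function.Injective β) :
    IsPieri (esv β) (wAlt β) := by
  refine ⟨fun ν hν => if_neg hν, fun ν hν k => ?_⟩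
  have h1 : wAlt β ν = alt β (ν + stair n) / alt β (stair n) := if_pos hν
  rw [h1]
  unfold esv
  rw [← mul_div_assoc, es_mul_alt, Finset.sum_div]
  refine Finset.sum_congr rfl fun S _ => ?_
  by_cases hS : Antitone (ν + ind S)
  · have h2 : wAlt β (ν + ind S) = alt β (ν + ind S + stair n) / alt β (stair n) := if_pos hS
    rw [h2, add_right_comm]
  · have h2 : wAlt β (ν + ind S) = 0 := if_neg hS
    rw [h2, alt_eq_zero_of_not_antitone β hν S hS, zero_div]

theorem wAlt_zero {n : ℕ} {β : Fin n → ℂ} (hβ : Function.Injective β) : wAlt β 0 = 1 := by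
  have h1 : wAlt β 0 = alt β (0 + stair n) / alt β (stair n) := if_pos fun _ _ _ => le_rfl
  rw [h1, zero_add, div_self (alt_stair_ne_zero hβ)]

end Pool.Agent.GL74
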