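import Pool.Agent.W_7742x_h74.SDef

/-! # The Cauchy determinant and the Cauchy-Binet sum

1. `det_cauchy`: `det (1 / (1 - β_i γ_j)) ∏_{i,j} (1 - β_i γ_j) = alt β stair * alt γ stair`
   (Cauchy's determinant; e.g. by induction on `n`: subtract the last row from the others:
   `1/(1 - β_i γ_j) - 1/(1 - β_n γ_j) = (β_i - β_n) γ_j / ((1 - β_i γ_j)(1 - β_n γ_j))`, take out
   factors, then subtract the last column from the others in the same way; or by the classical
   form `det (1/(x_i + y_j))`.  The signs: `alt β stair = ∏_{i<j} (β_i - β_j)`).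
2. `hasSum_alt`: if `‖β_i γ_j‖ < 1` for all `i`, `j`, then
   `∑_{l strictly antitone} alt β l * alt γ l = det (1 / (1 - β_i γ_j))`.
   Expand the right hand side: `∑_π sgn π ∏_i 1/(1 - β_i γ_{π i}) =
   ∑_π sgn π ∑_{l : Fin n → ℕ} ∏_i (β_i γ_{π i})^{l_i} = ∑_l (∏_i β_i^{l_i}) alt γ l` (up to
   transposition); `alt γ l = 0` unless `l` is injective, and an injective `l` is uniquely
   `l' ∘ τ` with `l'` strictly antitone and a permutation `τ`: `alt γ (l' ∘ τ) = sgn τ alt γ l'`.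
   All series are absolutely convergent: `∑_l ∏_i ‖β_i γ_{π i}‖^{l_i} < ∞`. -/

set_option autoImplicit false

noncomputable section

namespace Pool.Agent.GL74

theorem SCau_id1 (b b0 g : ℂ) (h1 : 1 - b * g ≠ 0) (h0 : 1 - b0 * g ≠ 0) :
    (1 - b * g)⁻¹ = (b - b0) * ((1 - b0 * g)⁻¹ * (g * (1 - b * g)⁻¹)) +
      1 * (1 * ((1 - b0 * g)⁻¹ * 1)) := by
  have e1 : (1 - b * g)⁻¹ * (1 - b * g) = 1 := inv_mul_cancel₀ h1
  have e2 : (1 - b0 * g)⁻¹ * (1 - b0 * g) = 1 := inv_mul_cancel₀ h0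
  generalize (1 - b * g)⁻¹ = x at *
  generalize (1 - b0 * g)⁻¹ = y at *
  linear_combination y * e1 - x * e2

theorem SCau_id2 (b g g' : ℂ) (h1 : 1 - b * g ≠ 0) (h0 : 1 - b * g' ≠ 0) :
    g' * (1 - b * g')⁻¹ - g * (1 - b * g)⁻¹ = (g' - g) * ((1 - b * g)⁻¹ * (1 - b * g')⁻¹) := by
  have e1 : (1 - b * g)⁻¹ * (1 - b * g) = 1 := inv_mul_cancel₀ h1
  have e2 : (1 - b * g')⁻¹ * (1 - b * g') = 1 := inv_mul_cancel₀ h0
  generalize (1 - b * g)⁻¹ = x at *
  generalize (1 - b * g')⁻¹ = y at *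
  linear_combination (-(g' * y)) * e1 + g * x * e2

/-- row operations -/
theorem SCau_rows {n : ℕ} (β γ : Fin (n + 1) → ℂ) (h : ∀ i j, β i * γ j ≠ 1) :
    (Matrix.of fun i j => (1 - β i * γ j)⁻¹).det =
      (∏ i : Fin n, (β i.succ - β 0)) * ((∏ j, (1 - β 0 * γ j)⁻¹) *
        (Matrix.of (Fin.cons (fun _ => 1) (fun (i : Fin n) j => γ j * (1 - β i.succ * γ j)⁻¹) :
          Fin (n + 1) → Fin (n + 1) → ℂ)).det) := by
  have h1 : ∀ i j, 1 - β i * γ j ≠ 0 := fun i j h0 => h i j (sub_eq_zero.1 h0).symm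
  set N : Matrix (Fin (n + 1)) (Fin (n + 1)) ℂ :=
    Matrix.of (Fin.cons (fun _ => 1) (fun (i : Fin n) j => γ j * (1 - β i.succ * γ j)⁻¹)) with hN
  set r : Fin (n + 1) → ℂ := Fin.cons 1 (fun i : Fin n => β i.succ - β 0) with hr
  have hrp : ∏ i, r i = ∏ i : Fin n, (β i.succ - β 0) := by
    rw [Fin.prod_univ_succ]
    simp only [hr, Fin.cons_zero, Fin.cons_succ, one_mul]
  have h2 : (Matrix.of fun i j => (1 - β i * γ j)⁻¹ : Matrix (Fin (n + 1)) (Fin (n + 1)) ℂ).det =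
      (Matrix.of fun i j => r i * (Matrix.of fun i j => (1 - β 0 * γ j)⁻¹ * N i j) i j).det := by
    refine Matrix.det_eq_of_forall_row_eq_smul_add_const
      (Fin.cons 0 (fun _ : Fin n => 1)) 0 rfl ?_
    intro i j
    refine Fin.cases ?_ (fun i => ?_) i
    · simp only [Matrix.of_apply, hr, hN, Fin.cons_zero]
      ring
    · simp only [Matrix.of_apply, hr, hN, Fin.cons_zero, Fin.cons_succ]
      exact SCau_id1 _ _ _ (h1 i.succ j) (h1 0 j)
  rw [h2, Matrix.det_mul_column, Matrix.det_mul_row, hrp]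

/-- column operations -/
theorem SCau_cols {n : ℕ} (β γ : Fin (n + 1) → ℂ) (h : ∀ i j, β i * γ j ≠ 1) :
    (Matrix.of (Fin.cons (fun _ => 1) (fun (i : Fin n) j => γ j * (1 - β i.succ * γ j)⁻¹) :
          Fin (n + 1) → Fin (n + 1) → ℂ)).det =
      (∏ j : Fin n, (γ j.succ - γ 0)) * ((∏ i : Fin n, (1 - β i.succ * γ 0)⁻¹) *
        (Matrix.of fun i j : Fin n => (1 - β i.succ * γ j.succ)⁻¹).det) := by
  have h1 : ∀ i j, 1 - β i * γ j ≠ 0 := fun i j h0 => h i j (sub_eq_zero.1 h0).symm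
  set N : Matrix (Fin (n + 1)) (Fin (n + 1)) ℂ :=
    Matrix.of (Fin.cons (fun _ => 1) (fun (i : Fin n) j => γ j * (1 - β i.succ * γ j)⁻¹)) with hN
  set M : Matrix (Fin (n + 1)) (Fin (n + 1)) ℂ :=
    Matrix.of (fun i => Fin.cons (N i 0) (fun j : Fin n => N i j.succ - N i 0)) with hM
  have h2 : N.det = M.det := by
    rw [← Matrix.det_transpose N, ← Matrix.det_transpose M]
    refine Matrix.det_eq_of_forall_row_eq_smul_add_const
      (Fin.cons 0 (fun _ : Fin n => 1)) 0 rfl ?_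
    intro j i
    refine Fin.cases ?_ (fun j => ?_) j
    · simp only [Matrix.transpose_apply, hM, Matrix.of_apply, Fin.cons_zero]
      ring
    · simp only [Matrix.transpose_apply, hM, Matrix.of_apply, Fin.cons_zero, Fin.cons_succ]
      ring
  have h3 : ∀ j : Fin n, M 0 j.succ = 0 := by
    intro j
    simp only [hM, hN, Matrix.of_apply, Fin.cons_succ, Fin.cons_zero, sub_self]
  have h4 : M 0 0 = 1 := by
    simp only [hM, hN, Matrix.of_apply, Fin.cons_zero]
  have h5 : M.submatrix Fin.succ Fin.succ = Matrix.of fun i j : Fin n => (γ j.succ - γ 0) *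
      (Matrix.of fun i j : Fin n => (1 - β i.succ * γ 0)⁻¹ *
        (Matrix.of fun i j : Fin n => (1 - β i.succ * γ j.succ)⁻¹) i j) i j := by
    ext i j
    simp only [Matrix.submatrix_apply, hM, hN, Matrix.of_apply, Fin.cons_succ, Fin.cons_zero]
    exact SCau_id2 _ _ _ (h1 i.succ 0) (h1 i.succ j.succ)
  rw [h2, Matrix.det_succ_row_zero, Fin.sum_univ_succ]
  have h6 : ∑ j : Fin n, (-1 : ℂ) ^ ((j.succ : Fin (n + 1)) : ℕ) * M 0 j.succ *
      (M.submatrix Fin.succ (j.succ).succAbove).det = 0 := by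
    refine Finset.sum_eq_zero fun j _ => ?_
    rw [h3, mul_zero, zero_mul]
  rw [h6, add_zero, h4]
  have h7 : (M.submatrix Fin.succ (0 : Fin (n + 1)).succAbove) = M.submatrix Fin.succ Fin.succ := by
    ext i j
    rw [Matrix.submatrix_apply, Matrix.submatrix_apply, Fin.zero_succAbove]
  rw [h7, h5, Matrix.det_mul_row, Matrix.det_mul_column]
  simp

/-- the Vandermonde product -/
def SCau_W {n : ℕ} (β : Fin n → ℂ) : ℂ := ∏ i : Fin n, ∏ j ∈ Finset.Ioi i, (β j - β i)

theorem SCau_W_succ {n : ℕ} (β : Fin (n + 1) → ℂ) :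
    SCau_W β = (∏ j : Fin n, (β j.succ - β 0)) * SCau_W (fun i : Fin n => β i.succ) := by
  unfold SCau_W
  rw [Fin.prod_univ_succ, Fin.prod_Ioi_zero (fun j => β j - β 0)]
  congr 1
  refine Finset.prod_congr rfl fun i _ => ?_
  exact Fin.prod_Ioi_succ (fun j => β j - β i.succ) i

theorem SCau_main (n : ℕ) : ∀ (β γ : Fin n → ℂ), (∀ i j, β i * γ j ≠ 1) →
    (Matrix.of fun i j => (1 - β i * γ j)⁻¹).det * ∏ i, ∏ j, (1 - β i * γ j) =
      SCau_W β * SCau_W γ := by
  induction n with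
  | zero =>
    intro β γ _
    simp [SCau_W]
  | succ n ih =>
    intro β γ h
    have h1 : ∀ i j, 1 - β i * γ j ≠ 0 := fun i j h0 => h i j (sub_eq_zero.1 h0).symm
    have h2 := ih (fun i => β i.succ) (fun i => γ i.succ) (fun i j => h i.succ j.succ)
    have h30 : ∏ i, ∏ j, (1 - β i * γ j) = (∏ j, (1 - β 0 * γ j)) *
        ∏ i : Fin n, ∏ j, (1 - β i.succ * γ j) := Fin.prod_univ_succ _
    rw [SCau_rows β γ h, SCau_cols β γ h, SCau_W_succ β, SCau_W_succ γ, h30]
    have h3 : ∏ i : Fin n, ∏ j : Fin (n + 1), (1 - β i.succ * γ j) =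
        (∏ i : Fin n, (1 - β i.succ * γ 0)) * ∏ i : Fin n, ∏ j : Fin n,
          (1 - β i.succ * γ j.succ) := by
      rw [← Finset.prod_mul_distrib]
      refine Finset.prod_congr rfl fun i _ => ?_
      rw [Fin.prod_univ_succ]
    rw [h3, Finset.prod_inv_distrib, Finset.prod_inv_distrib]
    have h4 : ∏ j : Fin (n + 1), (1 - β 0 * γ j) ≠ 0 :=
      Finset.prod_ne_zero_iff.2 fun j _ => h1 0 j
    have h5 : ∏ i : Fin n, (1 - β i.succ * γ 0) ≠ 0 :=
      Finset.prod_ne_zero_iff.2 fun i _ => h1 i.succ 0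
    have h6 : ∀ a b c d x y z w : ℂ, c ≠ 0 → d ≠ 0 → x * y = z * w →
        a * (c⁻¹ * (b * (d⁻¹ * x))) * (c * (d * y)) = a * z * (b * w) := by
      intro a b c d x y z w hc hd hxy
      calc a * (c⁻¹ * (b * (d⁻¹ * x))) * (c * (d * y)) =
          a * b * (x * y) * (c⁻¹ * c) * (d⁻¹ * d) := by ring
        _ = a * z * (b * w) := by
          rw [inv_mul_cancel₀ hc, inv_mul_cancel₀ hd, hxy]
          ring
    exact h6 _ _ _ _ _ _ _ _ h4 h5 h2

theorem SCau_alt {n : ℕ} (β : Fin n → ℂ) : alt β (stair n) =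
    ((Equiv.Perm.sign (Fin.revPerm : Equiv.Perm (Fin n)) : ℤˣ) : ℤ) * SCau_W β := by
  have h1 : (Matrix.of fun i j => β i ^ stair n j : Matrix (Fin n) (Fin n) ℂ) =
      (Matrix.vandermonde β).submatrix id (Fin.revPerm : Equiv.Perm (Fin n)) := by
    ext i j
    rw [Matrix.submatrix_apply, Matrix.vandermonde_apply, Matrix.of_apply]
    congr 1
    unfold stair
    rw [Fin.revPerm_apply, Fin.val_rev]
    omega
  unfold alt
  rw [h1, Matrix.det_permute', Matrix.det_vandermonde]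
  rfl

theorem det_cauchy {n : ℕ} (β γ : Fin n → ℂ) (h : ∀ i j, β i * γ j ≠ 1) :
    (Matrix.of fun i j => (1 - β i * γ j)⁻¹).det * ∏ i, ∏ j, (1 - β i * γ j) =
      alt β (stair n) * alt γ (stair n) := by
  rw [SCau_main n β γ h, SCau_alt, SCau_alt]
  rcases Int.units_eq_one_or (Equiv.Perm.sign (Fin.revPerm : Equiv.Perm (Fin n))) with hs | hs
  · rw [hs]
    simp
  · rw [hs]
    simp

/-- products of absolutely convergent series -/
theorem SCau_pi (n : ℕ) : ∀ (f : Fin n → ℕ → ℂ) (s : Fin n → ℂ), (∀ i, HasSum (f i) (s i)) →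
    (∀ i, Summable fun k => ‖f i k‖) →
      HasSum (fun l : Fin n → ℕ => ∏ i, f i (l i)) (∏ i, s i) ∧
        Summable (fun l : Fin n → ℕ => ‖∏ i, f i (l i)‖) := by
  induction n with
  | zero =>
    intro f s _ _
    refine ⟨?_, ?_⟩
    · have h := hasSum_unique (fun l : Fin 0 → ℕ => ∏ i, f i (l i))
      simpa using h
    · exact (hasSum_unique (fun l : Fin 0 → ℕ => ‖∏ i, f i (l i)‖)).summable
  | succ n ih =>
    intro f s h hn
    obtain ⟨h1, h2⟩ := ih (fun i => f i.succ) (fun i => s i.succ) (fun i => h i.succ)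
      (fun i => hn i.succ)
    have h3 : ∀ q : ℕ × (Fin n → ℕ),
        ∏ i, f i ((Fin.consEquiv (fun _ : Fin (n + 1) => ℕ)) q i) =
          f 0 q.1 * ∏ i : Fin n, f i.succ (q.2 i) := by
      intro q
      rw [Fin.prod_univ_succ]
      rfl
    have h5 : (fun l : Fin (n + 1) → ℕ => ∏ i, f i (l i)) ∘
        (Fin.consEquiv (fun _ : Fin (n + 1) => ℕ)) =
        fun q : ℕ × (Fin n → ℕ) => f 0 q.1 * ∏ i : Fin n, f i.succ (q.2 i) := funext h3
    have h6 : (fun l : Fin (n + 1) → ℕ => ‖∏ i, f i (l i)‖) ∘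
        (Fin.consEquiv (fun _ : Fin (n + 1) => ℕ)) =
        fun q : ℕ × (Fin n → ℕ) => ‖f 0 q.1 * ∏ i : Fin n, f i.succ (q.2 i)‖ :=
      funext fun q => congrArg norm (h3 q)
    refine ⟨?_, ?_⟩
    · refine ((Fin.consEquiv (fun _ : Fin (n + 1) => ℕ)).hasSum_iff
        (f := fun l : Fin (n + 1) → ℕ => ∏ i, f i (l i))).1 ?_
      rw [h5, Fin.prod_univ_succ]
      exact HasSum.mul (f := f 0) (g := fun l : Fin n → ℕ => ∏ i : Fin n, f i.succ (l i))
        (h 0) h1 (summable_mul_of_summable_norm (f := f 0)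
          (g := fun l : Fin n → ℕ => ∏ i : Fin n, f i.succ (l i)) (hn 0) h2)
    · refine ((Fin.consEquiv (fun _ : Fin (n + 1) => ℕ)).summable_iff
        (f := fun l : Fin (n + 1) → ℕ => ‖∏ i, f i (l i)‖)).1 ?_
      rw [h6]
      exact Summable.mul_norm (f := f 0) (g := fun l : Fin n → ℕ => ∏ i : Fin n, f i.succ (l i))
        (hn 0) h2

/-- strictly decreasing exponents and permutations -/
def SCau_map (n : ℕ) (q : {l : Fin n → ℕ // StrictAnti l} × Equiv.Perm (Fin n)) :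
    {l : Fin n → ℕ // Function.Injective l} :=
  ⟨q.1.1 ∘ q.2, q.1.2.injective.comp q.2.injective⟩

theorem SCau_bij (n : ℕ) : Function.Bijective (SCau_map n) := by
  constructor
  · rintro ⟨⟨l, hl⟩, σ⟩ ⟨⟨m, hm⟩, τ⟩ h
    have h0 : l ∘ σ = m ∘ τ := congrArg Subtype.val h
    have e1 : (fun i => OrderDual.toDual ((l ∘ σ) i)) ∘ (σ⁻¹ : Equiv.Perm (Fin n)) =
        fun i => OrderDual.toDual (l i) := by
      funext i
      simp
    have e2 : (fun i => OrderDual.toDual ((l ∘ σ) i)) ∘ (τ⁻¹ : Equiv.Perm (Fin n)) =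
        fun i => OrderDual.toDual (m i) := by
      funext i
      rw [h0]
      simp
    have h1 : Monotone ((fun i => OrderDual.toDual ((l ∘ σ) i)) ∘ (σ⁻¹ : Equiv.Perm (Fin n))) := by
      rw [e1]
      exact fun a b hab => hl.antitone hab
    have h2 : Monotone ((fun i => OrderDual.toDual ((l ∘ σ) i)) ∘ (τ⁻¹ : Equiv.Perm (Fin n))) := by
      rw [e2]
      exact fun a b hab => hm.antitone hab
    have h3 := Tuple.unique_monotone h1 h2
    rw [e1, e2] at h3
    have h4 : l = m := by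
      funext i
      exact OrderDual.toDual.injective (congrFun h3 i)
    subst h4
    have h5 : σ = τ := by
      ext i
      exact congrArg _ (hl.injective (congrFun h0 i))
    rw [h5]
  · rintro ⟨l, hl⟩
    let f : Fin n → ℕᵒᵈ := fun i => OrderDual.toDual (l i)
    have h1 : Monotone (f ∘ Tuple.sort f) := Tuple.monotone_sort f
    have h2 : StrictAnti (l ∘ Tuple.sort f) := by
      have h3 : Antitone (l ∘ Tuple.sort f) := fun a b hab => h1 hab
      exact h3.strictAnti_of_injective (hl.comp (Tuple.sort f).injective)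
    refine ⟨(⟨l ∘ Tuple.sort f, h2⟩, (Tuple.sort f)⁻¹), ?_⟩
    apply Subtype.ext
    funext i
    simp [SCau_map]

theorem SCau_alt_perm {n : ℕ} (β : Fin n → ℂ) (l : Fin n → ℕ) (σ : Equiv.Perm (Fin n)) :
    alt β (l ∘ σ) = ((Equiv.Perm.sign σ : ℤˣ) : ℤ) * alt β l := by
  have h1 : (Matrix.of fun i j => β i ^ (l ∘ σ) j : Matrix (Fin n) (Fin n) ℂ) =
      (Matrix.of fun i j => β i ^ l j).submatrix id σ := by
    ext i j
    rfl
  unfold alt
  rw [h1, Matrix.det_permute']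

theorem SCau_alt_zero {n : ℕ} (β : Fin n → ℂ) (l : Fin n → ℕ) (hl : ¬ Function.Injective l) :
    alt β l = 0 := by
  rw [Function.Injective] at hl
  push Not at hl
  obtain ⟨i, j, hij, hne⟩ := hl
  unfold alt
  refine Matrix.det_zero_of_column_eq hne fun k => ?_
  simp only [Matrix.of_apply]
  rw [hij]

theorem SCau_alt_sum {n : ℕ} (γ : Fin n → ℂ) (l : Fin n → ℕ) :
    ∑ σ : Equiv.Perm (Fin n), (((Equiv.Perm.sign σ : ℤˣ) : ℤ) : ℂ) * ∏ i, γ i ^ l (σ i) =
      alt γ l := by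
  unfold alt
  rw [← Matrix.det_transpose, Matrix.det_apply']
  rfl

theorem hasSum_alt {n : ℕ} (β γ : Fin n → ℂ) (h : ∀ i j, ‖β i * γ j‖ < 1) :
    HasSum (fun l : {l : Fin n → ℕ // StrictAnti l} => alt β l * alt γ l)
      (Matrix.of fun i j => (1 - β i * γ j)⁻¹).det := by
  -- the sum over all exponents
  have h1 : HasSum (fun l : Fin n → ℕ => (∏ i, γ i ^ l i) * alt β l)
      (Matrix.of fun i j => (1 - β i * γ j)⁻¹).det := by
    rw [Matrix.det_apply']
    have h2 : ∀ σ : Equiv.Perm (Fin n), HasSum (fun l : Fin n → ℕ =>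
        (((Equiv.Perm.sign σ : ℤˣ) : ℤ) : ℂ) * ∏ i, (β (σ i) * γ i) ^ l i)
        ((((Equiv.Perm.sign σ : ℤˣ) : ℤ) : ℂ) * ∏ i, (1 - β (σ i) * γ i)⁻¹) := by
      intro σ
      refine HasSum.mul_left _ ?_
      refine (SCau_pi n (fun i k => (β (σ i) * γ i) ^ k) _ (fun i =>
        hasSum_geometric_of_norm_lt_one (h (σ i) i)) (fun i => ?_)).1
      refine (summable_geometric_of_lt_one (norm_nonneg _) (h (σ i) i)).congr fun k => ?_
      rw [norm_pow]
    have h3 := hasSum_sum (s := (Finset.univ : Finset (Equiv.Perm (Fin n))))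
      (fun σ _ => h2 σ)
    refine h3.congr_fun ?_
    intro l
    unfold alt
    rw [Matrix.det_apply', Finset.mul_sum]
    refine Finset.sum_congr rfl fun σ _ => ?_
    simp only [Matrix.of_apply, mul_pow, Finset.prod_mul_distrib]
    ring
  -- restriction to injective exponents
  have h40 : Function.support (fun l : Fin n → ℕ => (∏ i, γ i ^ l i) * alt β l) ⊆
      {l : Fin n → ℕ | Function.Injective l} := by
    intro l hl
    by_contra hinj
    apply hl
    change (∏ i, γ i ^ l i) * alt β l = 0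
    rw [SCau_alt_zero β l hinj, mul_zero]
  have h41 := (hasSum_subtype_iff_of_support_subset
    (f := fun l : Fin n → ℕ => (∏ i, γ i ^ l i) * alt β l) h40).2 h1
  have h4 : HasSum (fun l : {l : Fin n → ℕ // Function.Injective l} =>
      (∏ i, γ i ^ l.1 i) * alt β l.1) (Matrix.of fun i j => (1 - β i * γ j)⁻¹).det := h41
  let e := Equiv.ofBijective (SCau_map n) (SCau_bij n)
  have h5 := (e.hasSum_iff (f := fun l : {l : Fin n → ℕ // Function.Injective l} =>
      (∏ i, γ i ^ l.1 i) * alt β l.1)).2 h4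
  have h6 : ∀ l : {l : Fin n → ℕ // StrictAnti l},
      alt β l * alt γ l = ∑ σ : Equiv.Perm (Fin n),
      ((fun l : {l : Fin n → ℕ // Function.Injective l} =>
        (∏ i, γ i ^ l.1 i) * alt β l.1) ∘ e) (l, σ) := by
    intro l
    rw [← SCau_alt_sum γ l, Finset.mul_sum]
    refine Finset.sum_congr rfl fun σ _ => ?_
    change alt β l.1 * ((((Equiv.Perm.sign σ : ℤˣ) : ℤ) : ℂ) * ∏ i, γ i ^ l.1 (σ i)) =
      (∏ i, γ i ^ l.1 (σ i)) * alt β (l.1 ∘ σ)
    rw [SCau_alt_perm]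
    ring
  refine HasSum.prod_fiberwise h5 fun l => ?_
  have h7 := hasSum_fintype (fun σ : Equiv.Perm (Fin n) =>
      ((fun l : {l : Fin n → ℕ // Function.Injective l} =>
        (∏ i, γ i ^ l.1 i) * alt β l.1) ∘ e) (l, σ))
  rw [← h6 l] at h7
  exact h7

end Pool.Agent.GL74
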