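import Pool.Agent.W_7742x_h74.SPol
import Pool.Agent.W_7742x_h74.SAlt
import Pool.Agent.W_7742x_h74.SCau

/-! # The Cauchy identity for the polynomials `sch`, coefficient by coefficient

1. `hasSum_hs`: `∑_d hs z d x^d = ∏_i (1 - z_i x)⁻¹` if `‖z_i x‖ < 1` for all `i` (product of
   geometric series; induction over the finite index type, or
   `∏_i ∑_k (z_i x)^k = ∑_{k : ι → ℕ} ∏ (z_i x)^{k_i}` grouped by `∑ k_i = d`).
2. `cauchy_inj`: `β`, `γ` injective: for small `x > 0` (with `‖β_i γ_j x‖ < 1`) apply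
   `hasSum_alt` and `det_cauchy` to `β` and `x γ`:
   strictly antitone `l` are the `ν + stair`, `ν` antitone, and
   `alt (x γ) (ν + stair) = x^{|ν| + |stair|} alt γ (ν + stair)`, `alt (x γ) stair =
   x^{|stair|} alt γ stair`, so `∑_ν wAlt β ν wAlt γ ν x^{|ν|} = ∏ (1 - β_i γ_j x)⁻¹`, absolutely
   convergent.  Group by `|ν| = d` and compare the coefficients of two power series which agree for
   all small `x` (`HasFPowerSeriesAt.eq_formalMultilinearSeries` or repeated division).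
   `wAlt β ν = sch (esv β) ν` by `eq_sch` and `wAlt_zero`.
3. `cauchy`: both sides are continuous in `(β, γ)` (`continuous_sch`, `es` is a polynomial), and
   the pairs of injective functions are dense (the complement of finitely many proper
   subspaces: e.g. `β + t (1, 2, ..., n)` is injective for all but finitely many `t`). -/

set_option autoImplicit false

noncomputable section

namespace Pool.Agent.GL74

open Filter Topology in
theorem SCoe_unique {a b : ℕ → ℂ} {F : ℂ → ℂ}
    (ha : ∀ᶠ x in 𝓝 (0 : ℂ), HasSum (fun d => a d * x ^ d) (F x))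
    (hb : ∀ᶠ x in 𝓝 (0 : ℂ), HasSum (fun d => b d * x ^ d) (F x)) : a = b := by
  have key : ∀ c : ℕ → ℂ, (∀ᶠ x in 𝓝 (0 : ℂ), HasSum (fun d => c d * x ^ d) (F x)) →
      HasFPowerSeriesAt F
        (fun d => ContinuousMultilinearMap.mkPiRing ℂ (Fin d) (c d) :
          FormalMultilinearSeries ℂ ℂ ℂ) 0 := by
    intro c hc
    rw [hasFPowerSeriesAt_iff]
    refine hc.mono fun x hx => ?_
    rw [zero_add]
    have e : (fun d : ℕ => x ^ d • FormalMultilinearSeries.coeff
        (fun d => ContinuousMultilinearMap.mkPiRing ℂ (Fin d) (c d) :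
          FormalMultilinearSeries ℂ ℂ ℂ) d) = fun d => c d * x ^ d := by
      funext d
      have : FormalMultilinearSeries.coeff
        (fun d => ContinuousMultilinearMap.mkPiRing ℂ (Fin d) (c d) :
          FormalMultilinearSeries ℂ ℂ ℂ) d = c d := by
        rw [FormalMultilinearSeries.coeff, ContinuousMultilinearMap.mkPiRing_apply]
        simp
      rw [this, smul_eq_mul, mul_comm]
    rw [e]
    exact hx
  have h := (key a ha).eq_formalMultilinearSeries (key b hb)
  funext d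
  have h1 := congrFun h d
  exact ContinuousMultilinearMap.mkPiRing_eq_iff.1 h1

theorem SCoe_cons {ι : Type} [DecidableEq ι] (z : ι → ℂ) {i : ι} {s : Finset ι} (hi : i ∉ s)
    (d : ℕ) :
    ∑ k ∈ Finset.piAntidiag (Finset.cons i s hi) d, ∏ j ∈ Finset.cons i s hi, z j ^ k j =
      ∑ p ∈ Finset.HasAntidiagonal.antidiagonal d,
        z i ^ p.1 * ∑ k ∈ Finset.piAntidiag s p.2, ∏ j ∈ s, z j ^ k j := by
  rw [Finset.piAntidiag_cons, Finset.sum_disjiUnion]
  apply Finset.sum_congr rfl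
  rintro ⟨a, b⟩ _
  rw [Finset.sum_map, Finset.mul_sum]
  apply Finset.sum_congr rfl
  intro k hk
  have hki : k i = 0 := by
    by_contra h
    exact hi ((Finset.mem_piAntidiag.1 hk).2 i h)
  rw [Finset.prod_cons]
  simp only [addRightEmbedding_apply, Pi.add_apply, if_true, hki, zero_add]
  congr 1
  apply Finset.prod_congr rfl
  intro j hj
  rw [if_neg (by rintro rfl; exact hi hj), add_zero]

theorem SCoe_step (f g c : ℕ → ℂ) (F G : ℂ) (hf : Summable fun d => ‖f d‖)
    (hg : Summable fun d => ‖g d‖) (hF : ∑' d, f d = F) (hG : ∑' d, g d = G)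
    (hc : ∀ d, c d = ∑ p ∈ Finset.HasAntidiagonal.antidiagonal d, f p.1 * g p.2) :
    (Summable fun d => ‖c d‖) ∧ ∑' d, c d = F * G := by
  have e : c = fun d => ∑ p ∈ Finset.HasAntidiagonal.antidiagonal d, f p.1 * g p.2 := funext hc
  subst e
  refine ⟨summable_norm_sum_mul_antidiagonal_of_summable_norm hf hg, ?_⟩
  rw [← hF, ← hG]
  exact (tsum_mul_tsum_eq_tsum_sum_antidiagonal_of_summable_norm hf hg).symm

theorem SCoe_hs {ι : Type} [DecidableEq ι] (z : ι → ℂ) (x : ℂ) (s : Finset ι)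
    (h : ∀ i ∈ s, ‖z i * x‖ < 1) :
    (Summable fun d : ℕ => ‖(∑ k ∈ Finset.piAntidiag s d, ∏ j ∈ s, z j ^ k j) * x ^ d‖) ∧
    ∑' d : ℕ, (∑ k ∈ Finset.piAntidiag s d, ∏ j ∈ s, z j ^ k j) * x ^ d =
      ∏ i ∈ s, (1 - z i * x)⁻¹ := by
  induction s using Finset.cons_induction with
  | empty =>
    have e : ∀ d : ℕ, (∑ k ∈ Finset.piAntidiag (∅ : Finset ι) d, ∏ j ∈ (∅ : Finset ι), z j ^ k j) *
        x ^ d = if d = 0 then 1 else 0 := by
      intro d
      by_cases hd : d = 0
      · subst hd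
        simp
      · simp [hd, Finset.piAntidiag_empty_of_ne_zero]
    simp only [e]
    constructor
    · apply summable_of_ne_finset_zero (s := {0})
      intro d hd
      rw [Finset.mem_singleton] at hd
      rw [if_neg hd, norm_zero]
    · rw [tsum_ite_eq, Finset.prod_empty]
  | cons i s hi ih =>
    obtain ⟨h1, h2⟩ := ih (fun j hj => h j (Finset.mem_cons_of_mem hj))
    have hi1 := h i (Finset.mem_cons_self i s)
    have g1 : Summable fun d : ℕ => ‖(z i * x) ^ d‖ := by
      simp only [norm_pow]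
      exact summable_geometric_of_lt_one (norm_nonneg _) hi1
    have e : ∀ d : ℕ, (∑ k ∈ Finset.piAntidiag (Finset.cons i s hi) d,
        ∏ j ∈ Finset.cons i s hi, z j ^ k j) * x ^ d =
        ∑ p ∈ Finset.HasAntidiagonal.antidiagonal d, (z i * x) ^ p.1 *
          ((∑ k ∈ Finset.piAntidiag s p.2, ∏ j ∈ s, z j ^ k j) * x ^ p.2) := by
      intro d
      rw [SCoe_cons, Finset.sum_mul]
      apply Finset.sum_congr rfl
      intro p hp
      rw [Finset.HasAntidiagonal.mem_antidiagonal] at hp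
      rw [← hp, pow_add, mul_pow]
      ring
    rw [Finset.prod_cons]
    exact SCoe_step (fun d => (z i * x) ^ d)
      (fun d => (∑ k ∈ Finset.piAntidiag s d, ∏ j ∈ s, z j ^ k j) * x ^ d) _ _ _ g1 h1
      (tsum_geometric_of_norm_lt_one hi1) h2 e

theorem hasSum_hs {ι : Type} [Fintype ι] [DecidableEq ι] (z : ι → ℂ) (x : ℂ)
    (h : ∀ i, ‖z i * x‖ < 1) : HasSum (fun d => hs z d * x ^ d) (∏ i, (1 - z i * x)⁻¹) := by
  obtain ⟨h1, h2⟩ := SCoe_hs z x Finset.univ (fun i _ => h i)
  have h3 := h1.of_norm.hasSum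
  rw [h2] at h3
  exact h3

theorem SCoe_gap {n : ℕ} {l : Fin n → ℕ} (hl : StrictAnti l) (k : ℕ) :
    ∀ i j : Fin n, (j : ℕ) = i + k → l j + k ≤ l i := by
  induction k with
  | zero =>
    intro i j h
    have : i = j := Fin.ext (by omega)
    rw [this]
    omega
  | succ k ih =>
    intro i j h
    have hj := j.isLt
    have h1 := ih i ⟨i + k, by omega⟩ rfl
    have h2 : l j < l ⟨i + k, by omega⟩ := hl (by rw [Fin.lt_def]; simp only; omega)
    omega

theorem SCoe_ge {n : ℕ} {l : Fin n → ℕ} (hl : StrictAnti l) (j : Fin n) : stair n j ≤ l j := by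
  have hj := j.isLt
  have h1 := SCoe_gap hl (n - 1 - j) j ⟨n - 1, by omega⟩ (by simp only; omega)
  unfold stair
  omega

/-- dominant weights and strictly decreasing exponents -/
def SCoe_e (n : ℕ) : {ν : Fin n → ℕ // Antitone ν} ≃ {l : Fin n → ℕ // StrictAnti l} where
  toFun ν := ⟨(ν : Fin n → ℕ) + stair n, by
    intro i j hij
    have h1 := ν.2 hij.le
    have h2 := Fin.lt_def.1 hij
    have h3 := j.isLt
    simp only [Pi.add_apply, stair]
    omega⟩
  invFun l := ⟨fun j => (l : Fin n → ℕ) j - stair n j, by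
    intro i j hij
    have h0 := Fin.le_def.1 hij
    have h1 := SCoe_gap l.2 (j - i) i j (by omega)
    have h2 := SCoe_ge l.2 i
    have h3 := SCoe_ge l.2 j
    have h4 := j.isLt
    simp only [stair] at h2 h3 ⊢
    omega⟩
  left_inv ν := by
    apply Subtype.ext
    funext j
    simp only [Pi.add_apply, Nat.add_sub_cancel]
  right_inv l := by
    apply Subtype.ext
    funext j
    simp only [Pi.add_apply]
    exact Nat.sub_add_cancel (SCoe_ge l.2 j)

theorem SCoe_alt_scale {n : ℕ} (γ : Fin n → ℂ) (x : ℂ) (l : Fin n → ℕ) :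
    alt (fun j => γ j * x) l = x ^ (∑ j, l j) * alt γ l := by
  unfold alt
  rw [← Finset.prod_pow_eq_pow_sum, ← Matrix.det_mul_row]
  congr 1
  ext i j
  simp only [Matrix.of_apply, mul_pow]
  ring

theorem SCoe_cong {n : ℕ} {β γ : Fin n → ℂ} (hA : alt β (stair n) ≠ 0)
    (hG : alt γ (stair n) ≠ 0) (x : ℂ) (hx : x ≠ 0) (ν : Fin n → ℕ) (hν : Antitone ν) :
    wAlt β ν * wAlt γ ν * x ^ (∑ j, ν j) =
      (alt β (stair n) * alt γ (stair n) * x ^ (∑ j, stair n j))⁻¹ *
        (alt β (ν + stair n) * alt (fun j => γ j * x) (ν + stair n)) := by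
  have e1 : wAlt β ν = alt β (ν + stair n) / alt β (stair n) := if_pos hν
  have e2 : wAlt γ ν = alt γ (ν + stair n) / alt γ (stair n) := if_pos hν
  have e4 : ∑ j, (ν + stair n) j = ∑ j, ν j + ∑ j, stair n j := by
    simp only [Pi.add_apply]
    exact Finset.sum_add_distrib
  have hxs : x ^ (∑ j, stair n j) ≠ 0 := pow_ne_zero _ hx
  rw [e1, e2, SCoe_alt_scale, e4, pow_add]
  field_simp

theorem SCoe_main {n : ℕ} {β γ : Fin n → ℂ} (hβ : Function.Injective β)
    (hγ : Function.Injective γ) (x : ℂ) (hx : x ≠ 0) (h : ∀ i j, ‖β i * γ j * x‖ < 1) :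
    HasSum (fun ν : Fin n → ℕ => wAlt β ν * wAlt γ ν * x ^ (∑ j, ν j))
      (∏ q : Fin n × Fin n, (1 - β q.1 * γ q.2 * x)⁻¹) := by
  classical
  have hA := alt_stair_ne_zero hβ
  have hG := alt_stair_ne_zero hγ
  have h' : ∀ i j, ‖β i * (γ j * x)‖ < 1 := fun i j => by
    rw [← mul_assoc]
    exact h i j
  have h1 := hasSum_alt β (fun j => γ j * x) h'
  have h2 := det_cauchy β (fun j => γ j * x) (fun i j hij => by
    have := h' i j
    rw [hij, norm_one] at this
    exact lt_irrefl _ this)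
  have hne : ∀ i j, 1 - β i * (γ j * x) ≠ 0 := by
    intro i j hij
    have h3 := h' i j
    have : β i * (γ j * x) = 1 := by linear_combination -hij
    rw [this, norm_one] at h3
    exact lt_irrefl _ h3
  have hP : ∏ i, ∏ j, (1 - β i * (γ j * x)) ≠ 0 :=
    Finset.prod_ne_zero_iff.2 fun i _ => Finset.prod_ne_zero_iff.2 fun j _ => hne i j
  have hprod : (∏ q : Fin n × Fin n, (1 - β q.1 * γ q.2 * x)⁻¹) =
      (∏ i, ∏ j, (1 - β i * (γ j * x)))⁻¹ := by
    rw [Fintype.prod_prod_type, ← Finset.prod_inv_distrib]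
    apply Finset.prod_congr rfl
    intro i _
    rw [← Finset.prod_inv_distrib]
    apply Finset.prod_congr rfl
    intro j _
    rw [mul_assoc]
  have hxs : x ^ (∑ j, stair n j) ≠ 0 := pow_ne_zero _ hx
  have hdet : (Matrix.of fun i j => (1 - β i * (γ j * x))⁻¹).det =
      (alt β (stair n) * alt γ (stair n) * x ^ (∑ j, stair n j)) *
        (∏ q : Fin n × Fin n, (1 - β q.1 * γ q.2 * x)⁻¹) := by
    rw [SCoe_alt_scale] at h2
    rw [hprod, eq_mul_inv_iff_mul_eq₀ hP, h2]
    ring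
  rw [hdet] at h1
  have h3 := h1.mul_left (alt β (stair n) * alt γ (stair n) * x ^ (∑ j, stair n j))⁻¹
  rw [inv_mul_cancel_left₀ (mul_ne_zero (mul_ne_zero hA hG) hxs)] at h3
  rw [← (SCoe_e n).hasSum_iff] at h3
  rw [← hasSum_subtype_iff_of_support_subset (s := {ν : Fin n → ℕ | Antitone ν})]
  · have hcongr : (fun ν : Fin n → ℕ => wAlt β ν * wAlt γ ν * x ^ (∑ j, ν j)) ∘
        (fun ν : {ν : Fin n → ℕ // Antitone ν} => (ν : Fin n → ℕ)) =
        (fun l : {l : Fin n → ℕ // StrictAnti l} =>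
          (alt β (stair n) * alt γ (stair n) * x ^ (∑ j, stair n j))⁻¹ *
          (alt β (l : Fin n → ℕ) * alt (fun j => γ j * x) (l : Fin n → ℕ))) ∘ (SCoe_e n) := by
      funext ν
      exact SCoe_cong hA hG x hx ν.1 ν.2
    rw [← hcongr] at h3
    exact h3
  · intro ν hν
    by_contra hc
    apply hν
    have : wAlt β ν = 0 := if_neg hc
    simp only [this, zero_mul]

theorem SCoe_congr {f g : ℕ → ℂ} {a : ℂ} (h : ∀ d, f d = g d) : HasSum f a ↔ HasSum g a := by
  rw [funext h]

theorem cauchy_inj {n : ℕ} {β γ : Fin n → ℂ} (hβ : Function.Injective β)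
    (hγ : Function.Injective γ) (d : ℕ) :
    ∑ ν ∈ Finset.piAntidiag (Finset.univ : Finset (Fin n)) d, wAlt β ν * wAlt γ ν =
      hs (fun q : Fin n × Fin n => β q.1 * γ q.2) d := by
  classical
  have hF : ∀ᶠ x in nhds (0 : ℂ), ∀ i j, ‖β i * γ j * x‖ < 1 := by
    rw [Filter.eventually_all]
    intro i
    rw [Filter.eventually_all]
    intro j
    have h1 : Filter.Tendsto (fun x : ℂ => ‖β i * γ j * x‖) (nhds 0) (nhds ‖β i * γ j * 0‖) :=
      (by fun_prop : Continuous fun x : ℂ => ‖β i * γ j * x‖).tendsto 0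
    rw [mul_zero, norm_zero] at h1
    exact h1.eventually_lt_const one_pos
  have ha : ∀ᶠ x in nhds (0 : ℂ), HasSum (fun d : ℕ =>
      (∑ ν ∈ Finset.piAntidiag (Finset.univ : Finset (Fin n)) d, wAlt β ν * wAlt γ ν) * x ^ d)
      (∏ q : Fin n × Fin n, (1 - β q.1 * γ q.2 * x)⁻¹) := by
    refine hF.mono fun x hx => ?_
    by_cases hx0 : x = 0
    · subst hx0
      have h1 := hasSum_single (f := fun d : ℕ =>
        (∑ ν ∈ Finset.piAntidiag (Finset.univ : Finset (Fin n)) d, wAlt β ν * wAlt γ ν) *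
          (0 : ℂ) ^ d) 0 (fun d hd => by rw [zero_pow hd, mul_zero])
      have h2 : (∏ q : Fin n × Fin n, (1 - β q.1 * γ q.2 * (0 : ℂ))⁻¹) = 1 := by
        simp
      have h3 : (∑ ν ∈ Finset.piAntidiag (Finset.univ : Finset (Fin n)) 0,
          wAlt β ν * wAlt γ ν) * (0 : ℂ) ^ 0 = 1 := by
        rw [Finset.piAntidiag_zero, Finset.sum_singleton, wAlt_zero hβ, wAlt_zero hγ]
        simp
      rw [h2]
      rw [h3] at h1
      exact h1
    · have h1 := (SCoe_main hβ hγ x hx0 hx).tsum_fiberwise (fun ν : Fin n → ℕ => ∑ j, ν j)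
      refine (SCoe_congr ?_).mp h1
      intro d
      have hset : (fun ν : Fin n → ℕ => ∑ j, ν j) ⁻¹' {d} =
          ((Finset.piAntidiag (Finset.univ : Finset (Fin n)) d : Finset (Fin n → ℕ)) :
            Set (Fin n → ℕ)) := by
        ext ν
        simp
      rw [hset, Finset.tsum_subtype' (Finset.piAntidiag (Finset.univ : Finset (Fin n)) d)
        (fun ν : Fin n → ℕ => wAlt β ν * wAlt γ ν * x ^ (∑ j, ν j)), Finset.sum_mul]
      apply Finset.sum_congr rfl
      intro ν hν
      have h2 : ∑ j, ν j = d := (Finset.mem_piAntidiag.1 hν).1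
      rw [h2]
  have hb : ∀ᶠ x in nhds (0 : ℂ), HasSum (fun d : ℕ =>
      hs (fun q : Fin n × Fin n => β q.1 * γ q.2) d * x ^ d)
      (∏ q : Fin n × Fin n, (1 - β q.1 * γ q.2 * x)⁻¹) :=
    hF.mono fun x hx => hasSum_hs (fun q : Fin n × Fin n => β q.1 * γ q.2) x
      (fun q => hx q.1 q.2)
  exact congrFun (SCoe_unique ha hb) d

/-- injective for small `t ≠ 0` -/
theorem SCoe_inj {n : ℕ} (β : Fin n → ℂ) :
    ∀ᶠ t in nhdsWithin (0 : ℂ) {0}ᶜ,
      Function.Injective (fun i : Fin n => β i + t * ((i : ℕ) : ℂ)) := by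
  have h1 : ∀ᶠ t in nhdsWithin (0 : ℂ) {0}ᶜ, ∀ i j : Fin n, i ≠ j →
      β i + t * ((i : ℕ) : ℂ) ≠ β j + t * ((j : ℕ) : ℂ) := by
    rw [Filter.eventually_all]
    intro i
    rw [Filter.eventually_all]
    intro j
    by_cases hij : i = j
    · exact Filter.Eventually.of_forall fun t h => absurd hij h
    · have hne : ((j : ℕ) : ℂ) - ((i : ℕ) : ℂ) ≠ 0 := by
        rw [sub_ne_zero]
        intro h
        exact hij (Fin.ext (Nat.cast_injective h)).symm
      by_cases hc : (β i - β j) / (((j : ℕ) : ℂ) - ((i : ℕ) : ℂ)) = 0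
      · have h2 : β i - β j = 0 := by
          rcases div_eq_zero_iff.1 hc with h | h
          · exact h
          · exact absurd h hne
        filter_upwards [self_mem_nhdsWithin] with t ht _ h3
        apply ht
        have h4 : t * (((j : ℕ) : ℂ) - ((i : ℕ) : ℂ)) = 0 := by linear_combination h2 - h3
        rcases mul_eq_zero.1 h4 with h | h
        · exact h
        · exact absurd h hne
      · have h2 : ∀ᶠ t in nhds (0 : ℂ), t ≠ (β i - β j) / (((j : ℕ) : ℂ) - ((i : ℕ) : ℂ)) :=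
          eventually_ne_nhds (Ne.symm hc)
        filter_upwards [nhdsWithin_le_nhds h2] with t ht _ h3
        apply ht
        rw [eq_div_iff hne]
        linear_combination -h3
  refine h1.mono fun t ht i j hij => ?_
  by_contra hne
  exact ht i j hne hij

theorem SCoe_cont {n : ℕ} (β : Fin n → ℂ) :
    Continuous fun t : ℂ => esv (fun i : Fin n => β i + t * ((i : ℕ) : ℂ)) := by
  apply continuous_pi
  intro k
  unfold esv es
  fun_prop

/-- **Cauchy's identity**. -/
theorem cauchy {n : ℕ} (β γ : Fin n → ℂ) (d : ℕ) :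
    ∑ ν ∈ Finset.piAntidiag (Finset.univ : Finset (Fin n)) d, sch (esv β) ν * sch (esv γ) ν =
      hs (fun q : Fin n × Fin n => β q.1 * γ q.2) d := by
  have h1 : ∀ᶠ t in nhdsWithin (0 : ℂ) {0}ᶜ,
      ∑ ν ∈ Finset.piAntidiag (Finset.univ : Finset (Fin n)) d,
        sch (esv (fun i : Fin n => β i + t * ((i : ℕ) : ℂ))) ν *
        sch (esv (fun i : Fin n => γ i + t * ((i : ℕ) : ℂ))) ν =
      hs (fun q : Fin n × Fin n => (β q.1 + t * ((q.1 : ℕ) : ℂ)) *
        (γ q.2 + t * ((q.2 : ℕ) : ℂ))) d := by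
    filter_upwards [SCoe_inj β, SCoe_inj γ] with t hβ hγ
    rw [← cauchy_inj hβ hγ d]
    apply Finset.sum_congr rfl
    intro ν _
    rw [eq_sch (isPieri_alt hβ) ν, eq_sch (isPieri_alt hγ) ν, wAlt_zero hβ, wAlt_zero hγ,
      mul_one, mul_one]
  have c1 : Continuous fun t : ℂ => ∑ ν ∈ Finset.piAntidiag (Finset.univ : Finset (Fin n)) d,
        sch (esv (fun i : Fin n => β i + t * ((i : ℕ) : ℂ))) ν *
        sch (esv (fun i : Fin n => γ i + t * ((i : ℕ) : ℂ))) ν :=
    continuous_finset_sum _ fun ν _ => ((continuous_sch ν).comp (SCoe_cont β)).mul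
      ((continuous_sch ν).comp (SCoe_cont γ))
  have c2 : Continuous fun t : ℂ => hs (fun q : Fin n × Fin n =>
      (β q.1 + t * ((q.1 : ℕ) : ℂ)) * (γ q.2 + t * ((q.2 : ℕ) : ℂ))) d := by
    unfold hs
    fun_prop
  have h2 := tendsto_nhds_unique_of_eventuallyEq ((c1.tendsto 0).mono_left nhdsWithin_le_nhds)
    ((c2.tendsto 0).mono_left nhdsWithin_le_nhds) h1
  simpa only [zero_mul, add_zero] using h2

end Pool.Agent.GL74
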