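import Mathlib

/-! # Pieri systems, alternants (definitions)

`IsPieri e w`: the function `w` on `Fin n → ℕ` vanishes outside the dominant (antitone) weights and
satisfies the Pieri relations `e_k w(ν) = ∑_{|S| = k} w(ν + 1_S)`, `1 ≤ k ≤ n` (`e k` is `e_{k+1}`). -/

set_option autoImplicit false

noncomputable section

namespace Pool.Agent.GL74

/-- The indicator function of a finite set. -/
def ind {n : ℕ} (S : Finset (Fin n)) : Fin n → ℕ := fun i => if i ∈ S then 1 else 0

/-- Pieri systems. -/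
structure IsPieri {n : ℕ} (e : Fin n → ℂ) (w : (Fin n → ℕ) → ℂ) : Prop where
  zero : ∀ ν, ¬ Antitone ν → w ν = 0
  rel : ∀ ν, Antitone ν → ∀ k : Fin n,
    e k * w ν = ∑ S ∈ Finset.powersetCard ((k : ℕ) + 1) Finset.univ, w (ν + ind S)

/-- The elementary symmetric functions of `β_1, ..., β_n`. -/
def es {n : ℕ} (β : Fin n → ℂ) (k : ℕ) : ℂ :=
  ∑ S ∈ Finset.powersetCard k Finset.univ, ∏ i ∈ S, β i

/-- The elementary symmetric functions `e_1, ..., e_n`. -/
def esv {n : ℕ} (β : Fin n → ℂ) : Fin n → ℂ := fun k => es β ((k : ℕ) + 1)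

/-- The alternant `det (β_i ^ {l_j})`. -/
def alt {n : ℕ} (β : Fin n → ℂ) (l : Fin n → ℕ) : ℂ := (Matrix.of fun i j => β i ^ l j).det

/-- The staircase `(n - 1, ..., 1, 0)`. -/
def stair (n : ℕ) : Fin n → ℕ := fun j => n - 1 - j

/-- The complete homogeneous symmetric function of degree `d` of the numbers `z i`. -/
def hs {ι : Type*} [Fintype ι] [DecidableEq ι] (z : ι → ℂ) (d : ℕ) : ℂ :=
  ∑ k ∈ Finset.piAntidiag (Finset.univ : Finset ι) d, ∏ i, z i ^ k i

end Pool.Agent.GL74
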