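import Pool.Agent.W_7742x_h74.SMat

/-! # The Rankin-Selberg sum of a matrix

Let `β` be the eigenvalues of `B` (`exists_roots`), `z_{ij} = β_i conj β_j`.  By `cauchy` (with
`γ = conj β`, `conj_sch`) `∑_{|ν| = d} ‖sch (emx B) ν‖ ^ 2 = hs z d`, so `hs z d ≥ 0` is real and
`S := ∑_ν ‖sch ν‖² x^{|ν|} = ∑_d hs z d x^d` (group by `|ν|`; nonnegative terms).  Suppose
`S < ∞`.

* As a formal identity `(∑_d hs z d X^d) ∏ (1 - z_{ij} X) = 1` (compare coefficients of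
  `hasSum_hs`, or directly), and the series converges absolutely for `‖y‖ ≤ x`; so
  `∏ (1 - z_{ij} y) ≠ 0` for `‖y‖ ≤ x`, hence `‖z_{ij}‖ x < 1` (otherwise take `y = 1/z_{ij}`).
* `S = ∏ (1 - z_{ij} x)⁻¹` (`hasSum_hs`) `= exp (∑_{ij} ∑_k (z_{ij} x)^{k+1}/(k+1))`
  (`Complex.hasSum_taylorSeries_neg_log` or so) and
  `∑_{ij} z_{ij}^{k+1} = (∑ β_i^{k+1}) conj (∑ β_j^{k+1}) = ‖tr B^{k+1}‖ ^ 2`.
* Summability: `‖tr B^{k+1}‖² x^{k+1} ≤ n² (max ‖z_{ij}‖ x)^{k+1}`. -/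

set_option autoImplicit false

noncomputable section

namespace Pool.Agent.GL74

open scoped ENNReal

theorem SExp_esv_conj {n : ℕ} (β : Fin n → ℂ) (k : Fin n) :
    starRingEnd ℂ (esv β k) = esv (fun i => starRingEnd ℂ (β i)) k := by
  unfold esv es
  rw [map_sum]
  refine Finset.sum_congr rfl fun S _ => ?_
  rw [map_prod]

theorem SExp_sum {n : ℕ} (β : Fin n → ℂ) (d : ℕ) :
    ((∑ ν ∈ Finset.piAntidiag (Finset.univ : Finset (Fin n)) d, ‖sch (esv β) ν‖ ^ 2 : ℝ) : ℂ) =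
      hs (fun q : Fin n × Fin n => β q.1 * starRingEnd ℂ (β q.2)) d := by
  rw [← cauchy β (fun i => starRingEnd ℂ (β i)) d]
  push_cast
  refine Finset.sum_congr rfl fun ν _ => ?_
  have h1 : sch (esv fun i => starRingEnd ℂ (β i)) ν = starRingEnd ℂ (sch (esv β) ν) := by
    rw [conj_sch]
    congr 1
    funext k
    exact (SExp_esv_conj β k).symm
  rw [h1, Complex.mul_conj, Complex.normSq_eq_norm_sq]
  push_cast
  rfl

theorem SExp_group {n : ℕ} (f : (Fin n → ℕ) → ℝ) (hf : ∀ ν, 0 ≤ f ν) {x : ℝ} (hx : 0 < x) :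
    ∑' ν : Fin n → ℕ, ENNReal.ofReal (f ν * x ^ (∑ j, ν j)) =
      ∑' d : ℕ, ENNReal.ofReal
        ((∑ ν ∈ Finset.piAntidiag (Finset.univ : Finset (Fin n)) d, f ν) * x ^ d) := by
  rw [← ENNReal.tsum_fiberwise _ (fun ν : Fin n → ℕ => ∑ j, ν j)]
  refine tsum_congr fun d => ?_
  have h1 : (fun ν : Fin n → ℕ => ∑ j, ν j) ⁻¹' {d} =
      ↑(Finset.piAntidiag (Finset.univ : Finset (Fin n)) d) := by
    ext ν
    simp
  rw [h1]
  have h2 := Finset.tsum_subtype (Finset.piAntidiag (Finset.univ : Finset (Fin n)) d)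
    (fun ν => ENNReal.ofReal (f ν * x ^ (∑ j, ν j)))
  refine h2.trans ?_
  rw [Finset.sum_mul, ENNReal.ofReal_sum_of_nonneg fun ν _ => mul_nonneg (hf ν) (by positivity)]
  refine Finset.sum_congr rfl fun ν hν => ?_
  rw [(Finset.mem_piAntidiag.1 hν).1]

/-- If the series with nonnegative coefficients converges at `x`, then all `‖z x‖ < 1`. -/
theorem SExp_lt {n : ℕ} (β : Fin n → ℂ) {a : ℕ → ℝ} (ha : ∀ d, 0 ≤ a d)
    (hz : ∀ d, ((a d : ℝ) : ℂ) =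
      hs (fun q : Fin n × Fin n => β q.1 * starRingEnd ℂ (β q.2)) d) {x : ℝ} (hx : 0 < x)
    (hs' : Summable fun d => a d * x ^ d) (q : Fin n × Fin n) :
    ‖β q.1 * starRingEnd ℂ (β q.2)‖ * x < 1 := by
  by_contra hcon
  push Not at hcon
  have hne : (Finset.univ : Finset (Fin n)).Nonempty := ⟨q.1, Finset.mem_univ _⟩
  obtain ⟨i, -, hi⟩ := Finset.exists_max_image Finset.univ (fun j => ‖β j‖) hne
  have hi' : ∀ j, ‖β j‖ ≤ ‖β i‖ := fun j => hi j (Finset.mem_univ _)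
  obtain ⟨r, hr⟩ : ∃ r : ℝ, r = ‖β i‖ ^ 2 := ⟨_, rfl⟩
  have hnorm : ∀ p : Fin n × Fin n, ‖β p.1 * starRingEnd ℂ (β p.2)‖ ≤ r := by
    intro p
    rw [norm_mul, RCLike.norm_conj, hr, sq]
    exact mul_le_mul (hi' _) (hi' _) (norm_nonneg _) (norm_nonneg _)
  have hrx : 1 ≤ r * x := hcon.trans (mul_le_mul_of_nonneg_right (hnorm q) hx.le)
  have hr0 : 0 < r := by
    by_contra h
    push Not at h
    nlinarith
  have hxr : 1 / r ≤ x := by
    rw [div_le_iff₀ hr0]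
    linarith
  obtain ⟨z, hzdef⟩ : ∃ z : Fin n × Fin n → ℂ, z = fun p => β p.1 * starRingEnd ℂ (β p.2) :=
    ⟨_, rfl⟩
  rw [← hzdef] at hz
  have hzn : ∀ p, ‖z p‖ ≤ r := by
    intro p
    rw [hzdef]
    exact hnorm p
  have hzi : z (i, i) = (r : ℂ) := by
    rw [hzdef, hr]
    show β i * starRingEnd ℂ (β i) = _
    rw [Complex.mul_conj, Complex.normSq_eq_norm_sq]
  obtain ⟨S, hS⟩ : ∃ S : ℝ, S = ∑' d, a d * x ^ d := ⟨_, rfl⟩
  have key : ∀ y : ℝ, 0 < y → y < 1 / r → 1 ≤ S * ‖∏ p, (1 - z p * (y : ℂ))‖ := by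
    intro y hy0 hy1
    have hry : r * y < 1 := by
      rw [lt_div_iff₀ hr0] at hy1
      linarith
    have hlt : ∀ p, ‖z p * (y : ℂ)‖ < 1 := by
      intro p
      rw [norm_mul, Complex.norm_real, Real.norm_eq_abs, abs_of_pos hy0]
      exact lt_of_le_of_lt (mul_le_mul_of_nonneg_right (hzn p) hy0.le) hry
    have h1 := hasSum_hs z (y : ℂ) hlt
    have hyx : y ≤ x := hy1.le.trans hxr
    have hb : ∀ d, ‖hs z d * (y : ℂ) ^ d‖ ≤ a d * x ^ d := by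
      intro d
      rw [← hz d, norm_mul, Complex.norm_real, norm_pow, Complex.norm_real, Real.norm_eq_abs,
        Real.norm_eq_abs, abs_of_nonneg (ha d), abs_of_pos hy0]
      exact mul_le_mul_of_nonneg_left (pow_le_pow_left₀ hy0.le hyx d) (ha d)
    have h2 : ‖∏ p, (1 - z p * (y : ℂ))⁻¹‖ ≤ S := by
      rw [← h1.tsum_eq, hS]
      exact tsum_of_norm_bounded hs'.hasSum hb
    have h3 : ∏ p, (1 - z p * (y : ℂ)) ≠ 0 := by
      rw [Finset.prod_ne_zero_iff]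
      intro p _ h0
      have h4 : z p * (y : ℂ) = 1 := (sub_eq_zero.1 h0).symm
      have h5 := hlt p
      rw [h4, norm_one] at h5
      exact lt_irrefl _ h5
    rw [Finset.prod_inv_distrib, norm_inv] at h2
    have h6 : 0 < ‖∏ p, (1 - z p * (y : ℂ))‖ := norm_pos_iff.2 h3
    calc (1 : ℝ) = ‖∏ p, (1 - z p * (y : ℂ))‖⁻¹ * ‖∏ p, (1 - z p * (y : ℂ))‖ :=
          (inv_mul_cancel₀ h6.ne').symm
      _ ≤ S * ‖∏ p, (1 - z p * (y : ℂ))‖ := mul_le_mul_of_nonneg_right h2 h6.le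
  have hcont : Filter.Tendsto (fun y : ℝ => S * ‖∏ p, (1 - z p * (y : ℂ))‖)
      (nhdsWithin (1 / r) (Set.Iio (1 / r)))
      (nhds (S * ‖∏ p, (1 - z p * ((1 / r : ℝ) : ℂ))‖)) := by
    apply tendsto_nhdsWithin_of_tendsto_nhds
    have hc : Continuous fun y : ℝ => S * ‖∏ p, (1 - z p * (y : ℂ))‖ := by
      fun_prop
    exact hc.tendsto _
  have h0 : S * ‖∏ p, (1 - z p * ((1 / r : ℝ) : ℂ))‖ = 0 := by
    have h7 : ∏ p, (1 - z p * ((1 / r : ℝ) : ℂ)) = 0 := by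
      refine Finset.prod_eq_zero (Finset.mem_univ (i, i)) ?_
      rw [hzi]
      have hrc : (r : ℂ) ≠ 0 := by exact_mod_cast hr0.ne'
      push_cast
      field_simp
      simp
    rw [h7, norm_zero, mul_zero]
  rw [h0] at hcont
  have h1r : 0 < 1 / r := by positivity
  have hle : (1 : ℝ) ≤ 0 := by
    refine ge_of_tendsto hcont ?_
    have : Set.Ioo 0 (1 / r) ∈ nhdsWithin (1 / r) (Set.Iio (1 / r)) := Ioo_mem_nhdsLT h1r
    filter_upwards [this] with y hy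
    exact key y hy.1 hy.2
  linarith

theorem sum_sch {n : ℕ} (B : Matrix (Fin n) (Fin n) ℂ) {x : ℝ} (hx : 0 < x)
    (hfin : ∑' ν : Fin n → ℕ, ENNReal.ofReal (‖sch (emx B) ν‖ ^ 2 * x ^ (∑ j, ν j)) ≠ ∞) :
    (Summable fun k : ℕ => ‖(B ^ (k + 1)).trace‖ ^ 2 * x ^ (k + 1) / ((k : ℝ) + 1)) ∧
    ∑' ν : Fin n → ℕ, ENNReal.ofReal (‖sch (emx B) ν‖ ^ 2 * x ^ (∑ j, ν j)) =
      ENNReal.ofReal (Real.exp (∑' k : ℕ, ‖(B ^ (k + 1)).trace‖ ^ 2 * x ^ (k + 1) / ((k : ℝ) + 1))) := by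
  obtain ⟨β, hβ, htr⟩ := exists_roots B
  rw [hβ] at hfin ⊢
  obtain ⟨a, ha⟩ : ∃ a : ℕ → ℝ, a = fun d =>
    ∑ ν ∈ Finset.piAntidiag (Finset.univ : Finset (Fin n)) d, ‖sch (esv β) ν‖ ^ 2 := ⟨_, rfl⟩
  have ha0 : ∀ d, 0 ≤ a d := by
    intro d
    rw [ha]
    exact Finset.sum_nonneg fun ν _ => sq_nonneg _
  have hgr : ∑' ν : Fin n → ℕ, ENNReal.ofReal (‖sch (esv β) ν‖ ^ 2 * x ^ (∑ j, ν j)) =
      ∑' d : ℕ, ENNReal.ofReal (a d * x ^ d) := by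
    rw [SExp_group (fun ν => ‖sch (esv β) ν‖ ^ 2) (fun ν => sq_nonneg _) hx, ha]
  rw [hgr] at hfin ⊢
  have hb0 : ∀ d, 0 ≤ a d * x ^ d := fun d => mul_nonneg (ha0 d) (by positivity)
  have hsum : Summable fun d => a d * x ^ d := by
    have := ENNReal.summable_toReal hfin
    simpa only [ENNReal.toReal_ofReal (hb0 _)] using this
  rw [← ENNReal.ofReal_tsum_of_nonneg hb0 hsum]
  obtain ⟨z, hzdef⟩ : ∃ z : Fin n × Fin n → ℂ, z = fun p => β p.1 * starRingEnd ℂ (β p.2) :=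
    ⟨_, rfl⟩
  have haz : ∀ d, ((a d : ℝ) : ℂ) = hs z d := by
    intro d
    rw [ha, hzdef]
    exact SExp_sum β d
  have hlt : ∀ q, ‖z q * (x : ℂ)‖ < 1 := by
    intro q
    have := SExp_lt β ha0 (by rw [← hzdef]; exact haz) hx hsum q
    rw [norm_mul, Complex.norm_real, Real.norm_eq_abs, abs_of_pos hx, hzdef]
    exact this
  have h1 := hasSum_hs z (x : ℂ) hlt
  have h2 : HasSum (fun d => ((a d * x ^ d : ℝ) : ℂ)) (∏ q, (1 - z q * (x : ℂ))⁻¹) := by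
    refine h1.congr_fun ?_
    intro d
    rw [← haz d]
    push_cast
    rfl
  -- the logarithm
  obtain ⟨t, ht⟩ : ∃ t : ℕ → ℝ, t = fun k : ℕ =>
    ‖(B ^ (k + 1)).trace‖ ^ 2 * x ^ (k + 1) / ((k : ℝ) + 1) := ⟨_, rfl⟩
  have h3 : HasSum (fun k : ℕ => ∑ q, (z q * (x : ℂ)) ^ (k + 1) / ((k : ℂ) + 1))
      (∑ q, -Complex.log (1 - z q * (x : ℂ))) :=
    hasSum_sum fun q _ => Complex.hasSum_taylorSeries_neg_log' (hlt q)
  have h4 : ∀ k : ℕ, ∑ q, (z q * (x : ℂ)) ^ (k + 1) / ((k : ℂ) + 1) = ((t k : ℝ) : ℂ) := by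
    intro k
    have h5 : ∑ q, z q ^ (k + 1) = ((‖(B ^ (k + 1)).trace‖ ^ 2 : ℝ) : ℂ) := by
      rw [htr (k + 1), ← Complex.normSq_eq_norm_sq, ← Complex.mul_conj, map_sum,
        Finset.sum_mul_sum, Fintype.sum_prod_type, hzdef]
      refine Finset.sum_congr rfl fun i _ => Finset.sum_congr rfl fun j _ => ?_
      rw [mul_pow, map_pow]
    rw [ht, ← Finset.sum_div]
    simp only [mul_pow]
    rw [← Finset.sum_mul, h5]
    push_cast
    rfl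
  simp only [h4] at h3
  have h6 : Summable t := by
    have := (Complex.hasSum_re h3).summable
    simpa using this
  have h7 : ((∑' k, t k : ℝ) : ℂ) = ∑ q, -Complex.log (1 - z q * (x : ℂ)) := by
    rw [Complex.ofReal_tsum]
    exact h3.tsum_eq
  have hne : ∀ q, 1 - z q * (x : ℂ) ≠ 0 := by
    intro q h0
    have h8 : z q * (x : ℂ) = 1 := (sub_eq_zero.1 h0).symm
    have h9 := hlt q
    rw [h8, norm_one] at h9
    exact lt_irrefl _ h9
  have h8 : ((∑' d, a d * x ^ d : ℝ) : ℂ) = ((Real.exp (∑' k, t k) : ℝ) : ℂ) := by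
    rw [Complex.ofReal_tsum, h2.tsum_eq, Complex.ofReal_exp, h7, Complex.exp_sum]
    refine Finset.prod_congr rfl fun q _ => ?_
    rw [Complex.exp_neg, Complex.exp_log (hne q)]
  have h9 : ∑' d, a d * x ^ d = Real.exp (∑' k, t k) := by exact_mod_cast h8
  rw [h9, ht]
  rw [ht] at h6
  exact ⟨h6, rfl⟩

end Pool.Agent.GL74
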