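import Pool.Agent.W_7742x_h74.SCoe

/-! # Schur polynomials of a complex matrix

1. `exists_roots`: the characteristic polynomial of `B` splits over `ℂ`:
   `charpoly B = ∏ (X - β_i)`; the coefficients are the elementary symmetric functions (Vieta,
   `Multiset.prod_X_sub_C_coeff` / `Finset.prod_X_sub_C_coeff`-type lemmas), and
   `tr (B ^ k) = ∑ β_i ^ k` (`Matrix.trace_eq_sum_roots_charpoly` for `B ^ k`,
   `Matrix.charpoly`/eigenvalues of powers: `Matrix.aroots_charpoly_pow`-type lemma, or
   triangularisation, or Newton's identities).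
2. `exists_esv`: every `e : Fin n → ℂ` is `esv β` (roots of a monic polynomial).
3. `isPieri_sch`: `sch e` is a Pieri system for every `e`: for `e = esv β` with `β` injective it is
   `wAlt β` (`eq_sch`, `wAlt_zero`); in general by continuity and density (as for `cauchy`). -/

set_option autoImplicit false

noncomputable section

namespace Pool.Agent.GL74

/-- The elementary symmetric functions of the eigenvalues: `e_{k+1} = ± coeff`. -/
def emx {n : ℕ} (B : Matrix (Fin n) (Fin n) ℂ) : Fin n → ℂ :=
  fun k => (-1) ^ ((k : ℕ) + 1) * B.charpoly.coeff (n - ((k : ℕ) + 1))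

open Polynomial in
/-- A monic polynomial of degree `n` over `ℂ` is `∏ (X - β_i)`. -/
theorem exists_prod_roots {n : ℕ} (q : ℂ[X]) (hq : q.Monic) (hn : q.natDegree = n) :
    ∃ β : Fin n → ℂ, q = ∏ i, (X - C (β i)) := by
  have h1 : q.Splits := IsAlgClosed.splits q
  have h2 : q = (q.roots.map fun a => X - C a).prod := by
    have := h1.eq_prod_roots
    rwa [hq.leadingCoeff, C_1, one_mul] at this
  have h3 : Multiset.card q.roots = n := by
    rw [← hn]
    exact h1.natDegree_eq_card_roots.symm
  have h4 : q.roots.toList.length = n := by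
    rw [Multiset.length_toList, h3]
  refine ⟨fun i => q.roots.toList.get (i.cast h4.symm), ?_⟩
  have h5 : q.roots = Multiset.map (fun i : Fin n => q.roots.toList.get (i.cast h4.symm))
      (Finset.univ : Finset (Fin n)).val := by
    have h6 : (List.ofFn fun i : Fin n => q.roots.toList.get (i.cast h4.symm)) =
        q.roots.toList := by
      refine List.ext_get ?_ ?_
      · rw [List.length_ofFn, h4]
      · intro m h7 h8
        simp
    conv_lhs => rw [← Multiset.coe_toList q.roots, ← h6]
    rw [List.ofFn_eq_map]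
    rw [← Multiset.map_coe]
    congr 1
  have h7 : ∀ (s : Multiset ℂ) (f : Fin n → ℂ),
      s = Multiset.map f (Finset.univ : Finset (Fin n)).val →
      (s.map fun a => X - C a).prod = ∏ i, (X - C (f i)) := by
    rintro s f rfl
    rw [Multiset.map_map]
    rfl
  exact h2.trans (h7 _ _ h5)

open Polynomial in
/-- Vieta. -/
theorem coeff_prod_roots {n : ℕ} (β : Fin n → ℂ) (k : Fin n) :
    (-1) ^ ((k : ℕ) + 1) * (∏ i, (X - C (β i)) : ℂ[X]).coeff (n - ((k : ℕ) + 1)) =
      esv β k := by
  have h1 : (∏ i, (X - C (β i)) : ℂ[X]) =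
      (((Finset.univ : Finset (Fin n)).val.map β).map fun r => X - C r).prod := by
    rw [Multiset.map_map]
    rfl
  have h2 : Multiset.card ((Finset.univ : Finset (Fin n)).val.map β) = n := by
    rw [Multiset.card_map]
    exact Finset.card_fin n
  have hk := k.2
  rw [h1, Multiset.prod_X_sub_C_coeff _ (by rw [h2]; omega), h2]
  have h3 : n - (n - ((k : ℕ) + 1)) = (k : ℕ) + 1 := by omega
  rw [h3, Finset.esymm_map_val, ← mul_assoc, ← mul_pow]
  norm_num
  rfl

open Polynomial in
/-- The determinant of a polynomial in `B`. -/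
theorem det_aeval {n : ℕ} (B : Matrix (Fin n) (Fin n) ℂ) (β : Fin n → ℂ)
    (h : B.charpoly = ∏ i, (X - C (β i))) (p : ℂ[X]) :
    (aeval B p).det = ∏ i, p.eval (β i) := by
  have h1 : p.Splits := IsAlgClosed.splits p
  have h2 := h1.eq_prod_roots
  have h3 : ∀ s : Multiset ℂ, (aeval B (s.map fun a => X - C a).prod).det =
      ∏ i, ((s.map fun a => X - C a).prod : ℂ[X]).eval (β i) := by
    intro s
    induction s using Multiset.induction with
    | empty => simp
    | cons r s ih =>
      rw [Multiset.map_cons, Multiset.prod_cons, map_mul, Matrix.det_mul, ih]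
      have h4 : (aeval B (X - C r)).det = ∏ i, (X - C r : ℂ[X]).eval (β i) := by
        have h5 : aeval B (X - C r) = -(Matrix.scalar (Fin n) r - B) := by
          rw [map_sub, aeval_X, aeval_C, neg_sub]
          rfl
        rw [h5, Matrix.det_neg, ← Matrix.eval_charpoly, h, eval_prod, Fintype.card_fin]
        have h6 : ((-1 : ℂ)) ^ n = ∏ _i : Fin n, (-1 : ℂ) := by
          rw [Finset.prod_const, Finset.card_univ, Fintype.card_fin]
        rw [h6, ← Finset.prod_mul_distrib]
        refine Finset.prod_congr rfl fun i _ => ?_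
        simp
      rw [h4, ← Finset.prod_mul_distrib]
      refine Finset.prod_congr rfl fun i _ => ?_
      rw [eval_mul]
  rw [h2, map_mul, Matrix.det_mul, h3, aeval_C]
  have h7 : (algebraMap ℂ (Matrix (Fin n) (Fin n) ℂ) p.leadingCoeff).det =
      ∏ _i : Fin n, p.leadingCoeff := by
    rw [Finset.prod_const, Finset.card_univ, Fintype.card_fin, Algebra.algebraMap_eq_smul_one,
      Matrix.det_smul, Matrix.det_one, mul_one, Fintype.card_fin]
  rw [h7, ← Finset.prod_mul_distrib]
  refine Finset.prod_congr rfl fun i _ => ?_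
  rw [eval_mul, eval_C]

open Polynomial in
theorem exists_roots {n : ℕ} (B : Matrix (Fin n) (Fin n) ℂ) : ∃ β : Fin n → ℂ,
    emx B = esv β ∧ ∀ k : ℕ, (B ^ k).trace = ∑ i, β i ^ k := by
  obtain ⟨β, hβ⟩ := exists_prod_roots B.charpoly B.charpoly_monic
    (by rw [B.charpoly_natDegree_eq_dim, Fintype.card_fin])
  refine ⟨β, ?_, fun k => ?_⟩
  · funext k
    unfold emx
    rw [hβ]
    exact coeff_prod_roots β k
  · have h1 : (B ^ k).charpoly = ∏ i, (X - C (β i ^ k)) := by
      refine Polynomial.funext fun t => ?_
      rw [Matrix.eval_charpoly, eval_prod]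
      have h2 : Matrix.scalar (Fin n) t - B ^ k = aeval B (C t - X ^ k) := by
        rw [map_sub, aeval_C, map_pow, aeval_X]
        rfl
      rw [h2, det_aeval B β hβ]
      refine Finset.prod_congr rfl fun i _ => ?_
      simp
    have h3 : (∏ i, (X - C (β i ^ k)) : ℂ[X]) =
        (((Finset.univ : Finset (Fin n)).val.map fun i => β i ^ k).map fun r => X - C r).prod := by
      rw [Multiset.map_map]
      rfl
    rw [Matrix.trace_eq_sum_roots_charpoly, h1, h3, Polynomial.roots_multiset_prod_X_sub_C]
    rfl

open Polynomial in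
theorem exists_esv {n : ℕ} (e : Fin n → ℂ) : ∃ β : Fin n → ℂ, e = esv β := by
  set r : ℂ[X] := ∑ k : Fin n, C ((-1) ^ ((k : ℕ) + 1) * e k) * X ^ (n - ((k : ℕ) + 1)) with hr
  have h1 : r.degree < n := by
    rw [hr]
    refine (Polynomial.degree_sum_le _ _).trans_lt ?_
    rw [Finset.sup_lt_iff (by exact WithBot.bot_lt_coe n)]
    intro k _
    refine (Polynomial.degree_C_mul_X_pow_le _ _).trans_lt ?_
    have := k.2
    exact_mod_cast (by omega : n - ((k : ℕ) + 1) < n)
  have h2 : (X ^ n + r).Monic := Polynomial.monic_X_pow_add h1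
  have h3 : (X ^ n + r).natDegree = n := by
    refine Polynomial.natDegree_eq_of_degree_eq_some ?_
    rw [Polynomial.degree_add_eq_left_of_degree_lt (by rwa [Polynomial.degree_X_pow])]
    exact Polynomial.degree_X_pow n
  obtain ⟨β, hβ⟩ := exists_prod_roots (X ^ n + r) h2 h3
  refine ⟨β, ?_⟩
  funext k
  rw [← coeff_prod_roots β k, ← hβ, coeff_add, coeff_X_pow]
  have hk := k.2
  rw [if_neg (by omega), zero_add, hr, finsetSum_coeff]
  rw [Finset.sum_eq_single k]
  · rw [coeff_C_mul, coeff_X_pow, if_pos rfl, mul_one, ← mul_assoc, ← mul_pow]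
    norm_num
  · intro j _ hj
    rw [coeff_C_mul, coeff_X_pow, if_neg, mul_zero]
    intro h4
    have := j.2
    exact hj (Fin.ext (by omega))
  · intro h4
    exact absurd (Finset.mem_univ k) h4

theorem isPieri_sch {n : ℕ} (e : Fin n → ℂ) : IsPieri e (sch e) := by
  obtain ⟨β, rfl⟩ := exists_esv e
  refine ⟨fun ν hν => sch_eq_zero _ hν, fun ν hν k => ?_⟩
  have hes : ∀ k : ℕ, Continuous fun β : Fin n → ℂ => es β k := by
    intro k
    unfold es
    fun_prop
  have hesv : Continuous fun β : Fin n → ℂ => esv β := by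
    refine continuous_pi fun k => ?_
    exact hes _
  set g : ℂ → Fin n → ℂ := fun t i => β i + t * (i : ℕ) with hg
  have hgc : Continuous g := by
    refine continuous_pi fun i => ?_
    simp only [hg]
    fun_prop
  set T : Set ℂ := {t | ¬ Function.Injective (g t)} with hT
  have hTf : T.Finite := by
    have h1 : T ⊆ ⋃ q : Fin n × Fin n, {(β q.1 - β q.2) / (((q.2 : ℕ) : ℂ) - ((q.1 : ℕ) : ℂ))} := by
      intro t ht
      have ht : ¬ Function.Injective (g t) := ht
      unfold Function.Injective at ht
      push Not at ht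
      obtain ⟨i, j, hij, hne⟩ := ht
      rw [Set.mem_iUnion]
      refine ⟨(i, j), ?_⟩
      rw [Set.mem_singleton_iff]
      simp only [hg] at hij
      have h2 : ((j : ℕ) : ℂ) - ((i : ℕ) : ℂ) ≠ 0 := by
        rw [sub_ne_zero]
        intro h3
        exact hne (Fin.ext (by exact_mod_cast h3.symm))
      rw [eq_div_iff h2]
      linear_combination -hij
    exact (Set.finite_iUnion fun q => Set.finite_singleton _).subset h1
  have hd : Dense Tᶜ := hTf.countable.dense_compl ℝ
  have key : (fun t => esv (g t) k * sch (esv (g t)) ν) =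
      fun t => ∑ S ∈ Finset.powersetCard ((k : ℕ) + 1) Finset.univ,
        sch (esv (g t)) (ν + ind S) := by
    refine Continuous.ext_on hd ?_ ?_ ?_
    · exact ((continuous_apply k).comp (hesv.comp hgc)).mul
        ((continuous_sch ν).comp (hesv.comp hgc))
    · refine continuous_finsetSum _ fun S _ => ?_
      exact (continuous_sch _).comp (hesv.comp hgc)
    · intro t ht
      have hinj : Function.Injective (g t) := by
        by_contra h
        exact ht h
      have h1 := isPieri_alt hinj
      have h2 : ∀ μ, wAlt (g t) μ = sch (esv (g t)) μ := by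
        intro μ
        rw [eq_sch h1 μ, wAlt_zero hinj, mul_one]
      have h3 := h1.rel ν hν k
      simp only [h2] at h3
      exact h3
  have h0 : g 0 = β := by
    funext i
    simp [hg]
  have := congrFun key 0
  simp only [h0] at this
  exact this

end Pool.Agent.GL74
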