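import Pool.Agent.W_7742x_h74.SDef

/-! # Pieri systems are determined by their value at `0`

`ell ν = ∑_j (n - j) ν_j`.  Let `ν ≠ 0` be antitone and let `k` be the number of `j` with
`ν j ≠ 0` (so `1 ≤ k ≤ n`, `ν_{k-1} > 0 = ν_k`), and let `μ = ν - 1_{[0,k)}` (antitone again).  The
Pieri relation for `μ` and `k` reads `e_k w(μ) = w(ν) + ∑_{S ≠ [0,k), |S| = k} w(μ + 1_S)`, and
`ell μ < ell ν`, `ell (μ + 1_S) < ell ν` for `|S| = k`, `S ≠ [0,k)` (the sum of `n - j` over a set
with `k` elements is maximal exactly for `[0,k)`).  So by strong induction on `ell ν` one gets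
polynomials `P ν` with integral coefficients in `e_1, ..., e_n` with `w ν = P ν (e) w(0)`:
`P 0 = 1`, `P ν = 0` if `ν` is not antitone, and
`P ν = X_k P μ - ∑_{S ≠ [0,k)} P (μ + 1_S)`. -/

set_option autoImplicit false

noncomputable section

namespace Pool.Agent.GL74

/-- The weight for the induction. -/
def ell {n : ℕ} (ν : Fin n → ℕ) : ℕ := ∑ j : Fin n, (n - (j : ℕ)) * ν j

theorem SPol_ell_ind {n : ℕ} (S : Finset (Fin n)) : ell (ind S) = ∑ j ∈ S, (n - (j : ℕ)) := by
  simp [ell, ind]

theorem SPol_ell_add {n : ℕ} (μ ν : Fin n → ℕ) : ell (μ + ν) = ell μ + ell ν := by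
  simp [ell, mul_add, Finset.sum_add_distrib]

theorem SPol_card {n k : ℕ} (hk : k ≤ n) :
    (Finset.univ.filter fun j : Fin n => (j : ℕ) < k).card = k := by
  have h : (Finset.univ.filter fun j : Fin n => (j : ℕ) < k) =
      (Finset.univ : Finset (Fin k)).map (Fin.castLEEmb hk) := by
    ext j
    simp only [Finset.mem_filter, Finset.mem_univ, true_and, Finset.mem_map]
    constructor
    · intro hj
      exact ⟨⟨j, hj⟩, rfl⟩
    · rintro ⟨i, rfl⟩
      exact i.2
  rw [h, Finset.card_map, Finset.card_univ, Fintype.card_fin]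

/-- The sum of `n - j` over a `k`-element set different from `[0,k)` is smaller than over `[0,k)`. -/
theorem ell_ind_lt {n k : ℕ} (hk : k ≤ n) (S : Finset (Fin n)) (hS : S.card = k)
    (hne : S ≠ Finset.univ.filter fun j : Fin n => (j : ℕ) < k) :
    ell (ind S) < ell (ind (Finset.univ.filter fun j : Fin n => (j : ℕ) < k)) := by
  set I : Finset (Fin n) := Finset.univ.filter fun j : Fin n => (j : ℕ) < k with hI
  have hIc : I.card = k := SPol_card hk
  have hc : (S \ I).card = (I \ S).card := Finset.card_sdiff_comm (hS.trans hIc.symm)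
  have hpos : 0 < (I \ S).card := by
    rw [Finset.card_pos]
    by_contra h
    rw [Finset.not_nonempty_iff_eq_empty, Finset.sdiff_eq_empty_iff_subset] at h
    exact hne (Finset.eq_of_subset_of_card_le h (by omega)).symm
  rw [SPol_ell_ind, SPol_ell_ind]
  have h1 : ∑ j ∈ S, (n - (j : ℕ)) = ∑ j ∈ S \ I, (n - (j : ℕ)) + ∑ j ∈ S ∩ I, (n - (j : ℕ)) := by
    rw [← Finset.sum_union (Finset.disjoint_sdiff_inter S I), Finset.sdiff_union_inter]
  have h2 : ∑ j ∈ I, (n - (j : ℕ)) = ∑ j ∈ I \ S, (n - (j : ℕ)) + ∑ j ∈ S ∩ I, (n - (j : ℕ)) := by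
    rw [Finset.inter_comm, ← Finset.sum_union (Finset.disjoint_sdiff_inter I S),
      Finset.sdiff_union_inter]
  have h3 : ∑ j ∈ S \ I, (n - (j : ℕ)) ≤ (S \ I).card * (n - k) := by
    rw [← smul_eq_mul]
    refine Finset.sum_le_card_nsmul _ _ _ fun j hj => ?_
    have hj' := (Finset.mem_sdiff.1 hj).2
    rw [hI, Finset.mem_filter] at hj'
    have : ¬ (j : ℕ) < k := fun h => hj' ⟨Finset.mem_univ _, h⟩
    omega
  have h4 : (I \ S).card * (n - k + 1) ≤ ∑ j ∈ I \ S, (n - (j : ℕ)) := by
    rw [← smul_eq_mul]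
    refine Finset.card_nsmul_le_sum _ _ _ fun j hj => ?_
    have hj' := (Finset.mem_sdiff.1 hj).1
    rw [hI, Finset.mem_filter] at hj'
    have := hj'.2
    omega
  rw [h1, h2]
  rw [hc] at h3
  have h5 : (I \ S).card * (n - k) < (I \ S).card * (n - k + 1) :=
    Nat.mul_lt_mul_of_pos_left (Nat.lt_succ_self _) hpos
  omega

/-- The reduction of a nonzero antitone weight. -/
theorem exists_red {n : ℕ} (ν : Fin n → ℕ) (h : Antitone ν) (h0 : ν ≠ 0) :
    ∃ (k : Fin n) (μ : Fin n → ℕ), Antitone μ ∧
      ν = μ + ind (Finset.univ.filter fun j : Fin n => (j : ℕ) < (k : ℕ) + 1) := by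
  have hne : (Finset.univ.filter fun j : Fin n => ν j ≠ 0).Nonempty := by
    by_contra hc
    rw [Finset.not_nonempty_iff_eq_empty, Finset.filter_eq_empty_iff] at hc
    refine h0 (funext fun j => ?_)
    have := hc (Finset.mem_univ j)
    simpa using this
  set k := (Finset.univ.filter fun j : Fin n => ν j ≠ 0).max' hne with hk
  have hkm : ν k ≠ 0 := (Finset.mem_filter.1 (Finset.max'_mem _ hne)).2
  have hmax : ∀ j, ν j ≠ 0 → j ≤ k := fun j hj =>
    Finset.le_max' (Finset.univ.filter fun j : Fin n => ν j ≠ 0) j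
      (Finset.mem_filter.2 ⟨Finset.mem_univ _, hj⟩)
  refine ⟨k, fun j => ν j - 1, fun i j hij => Nat.sub_le_sub_right (h hij) 1, funext fun j => ?_⟩
  simp only [Pi.add_apply, ind, Finset.mem_filter, Finset.mem_univ, true_and]
  by_cases hj : ν j = 0
  · have h1 : ¬ (j : ℕ) < (k : ℕ) + 1 := by
      intro h2
      have h3 : j ≤ k := by
        rw [Fin.le_def]
        omega
      have h4 := h h3
      omega
    rw [if_neg h1, hj]
  · have h1 : (j : ℕ) < (k : ℕ) + 1 := by
      have := hmax j hj
      rw [Fin.le_def] at this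
      omega
    rw [if_pos h1]
    omega

/-- The polynomials. -/
theorem exists_pol (n : ℕ) : ∃ P : (Fin n → ℕ) → MvPolynomial (Fin n) ℤ,
    (∀ ν, ¬ Antitone ν → P ν = 0) ∧ P 0 = 1 ∧
    ∀ (e : Fin n → ℂ) (w : (Fin n → ℕ) → ℂ), IsPieri e w →
      ∀ ν, w ν = MvPolynomial.aeval e (P ν) * w 0 := by
  have key : ∀ ν : Fin n → ℕ, ∃ p : MvPolynomial (Fin n) ℤ, (¬ Antitone ν → p = 0) ∧
      (ν = 0 → p = 1) ∧ ∀ (e : Fin n → ℂ) (w : (Fin n → ℕ) → ℂ), IsPieri e w →
        w ν = MvPolynomial.aeval e p * w 0 := by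
    intro ν
    induction hN : ell ν using Nat.strong_induction_on generalizing ν with
    | _ N ih =>
      by_cases ha : Antitone ν
      · by_cases h0 : ν = 0
        · refine ⟨1, fun h => absurd ha h, fun _ => rfl, fun e w _ => ?_⟩
          rw [map_one, one_mul, h0]
        · obtain ⟨k, μ, hμ, hν⟩ := exists_red ν ha h0
          have ih' : ∀ ν' : Fin n → ℕ, ∃ p : MvPolynomial (Fin n) ℤ, ell ν' < N →
              ∀ (e : Fin n → ℂ) (w : (Fin n → ℕ) → ℂ), IsPieri e w →
                w ν' = MvPolynomial.aeval e p * w 0 := by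
            intro ν'
            by_cases hl : ell ν' < N
            · obtain ⟨p, _, _, hp⟩ := ih (ell ν') hl ν' rfl
              exact ⟨p, fun _ => hp⟩
            · exact ⟨0, fun h => absurd h hl⟩
          choose g hg using ih'
          set I : Finset (Fin n) := Finset.univ.filter fun j : Fin n => (j : ℕ) < (k : ℕ) + 1
            with hI
          have hk : (k : ℕ) + 1 ≤ n := k.2
          have hIc : I.card = (k : ℕ) + 1 := SPol_card hk
          have hIm : I ∈ Finset.powersetCard ((k : ℕ) + 1) (Finset.univ : Finset (Fin n)) :=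
            Finset.mem_powersetCard.2 ⟨Finset.subset_univ _, hIc⟩
          have hNe : N = ell μ + ell (ind I) := by
            rw [← hN, hν, SPol_ell_add]
          have hIpos : 0 < ell (ind I) := by
            rw [SPol_ell_ind]
            refine Finset.sum_pos (fun j _ => ?_) (Finset.card_pos.1 (by omega))
            have := j.2
            omega
          refine ⟨MvPolynomial.X k * g μ -
            ∑ S ∈ (Finset.powersetCard ((k : ℕ) + 1) (Finset.univ : Finset (Fin n))).erase I,
              g (μ + ind S), fun h => absurd ha h, fun h => absurd h h0, fun e w hw => ?_⟩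
          have h1 := hw.rel μ hμ k
          rw [← Finset.add_sum_erase _ _ hIm, ← hν, hg μ (by omega) e w hw] at h1
          have h2 : ∑ S ∈ (Finset.powersetCard ((k : ℕ) + 1) (Finset.univ : Finset (Fin n))).erase I,
              w (μ + ind S) =
              ∑ S ∈ (Finset.powersetCard ((k : ℕ) + 1) (Finset.univ : Finset (Fin n))).erase I,
                MvPolynomial.aeval e (g (μ + ind S)) * w 0 := by
            refine Finset.sum_congr rfl fun S hS => ?_
            obtain ⟨hSne, hS2⟩ := Finset.mem_erase.1 hS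
            have hSc := (Finset.mem_powersetCard.1 hS2).2
            refine hg _ ?_ e w hw
            rw [SPol_ell_add, hNe]
            exact Nat.add_lt_add_left (ell_ind_lt hk S hSc hSne) _
          rw [h2, ← Finset.sum_mul] at h1
          rw [map_sub, map_mul, MvPolynomial.aeval_X, map_sum, sub_mul, mul_assoc, h1]
          ring
      · refine ⟨0, fun _ => rfl, fun h => ?_, fun e w hw => ?_⟩
        · refine absurd ?_ ha
          rw [h]
          exact antitone_const
        · rw [map_zero, zero_mul, hw.zero ν ha]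
  choose P hP using key
  exact ⟨P, fun ν => (hP ν).1, (hP 0).2.1 rfl, fun e w hw ν => (hP ν).2.2 e w hw⟩

/-- The Schur polynomials in terms of the elementary symmetric functions. -/
def sch {n : ℕ} (e : Fin n → ℂ) (ν : Fin n → ℕ) : ℂ :=
  MvPolynomial.aeval e ((exists_pol n).choose ν)

theorem eq_sch {n : ℕ} {e : Fin n → ℂ} {w : (Fin n → ℕ) → ℂ} (h : IsPieri e w) (ν : Fin n → ℕ) :
    w ν = sch e ν * w 0 :=
  (exists_pol n).choose_spec.2.2 e w h ν

theorem sch_eq_zero {n : ℕ} (e : Fin n → ℂ) {ν : Fin n → ℕ} (h : ¬ Antitone ν) : sch e ν = 0 := by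
  rw [sch, (exists_pol n).choose_spec.1 ν h, map_zero]

theorem sch_zero {n : ℕ} (e : Fin n → ℂ) : sch e 0 = 1 := by
  rw [sch, (exists_pol n).choose_spec.2.1, map_one]

theorem continuous_sch {n : ℕ} (ν : Fin n → ℕ) : Continuous fun e : Fin n → ℂ => sch e ν := by
  unfold sch
  generalize (exists_pol n).choose ν = p
  induction p using MvPolynomial.induction_on with
  | C a => simpa using (continuous_const : Continuous fun _ : Fin n → ℂ => ((a : ℤ) : ℂ))
  | add p q hp hq =>
    simp only [map_add]
    exact hp.add hq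
  | mul_X p i hp =>
    simp only [map_mul, MvPolynomial.aeval_X]
    exact hp.mul (continuous_apply i)

theorem conj_sch {n : ℕ} (e : Fin n → ℂ) (ν : Fin n → ℕ) :
    starRingEnd ℂ (sch e ν) = sch (fun k => starRingEnd ℂ (e k)) ν := by
  unfold sch
  generalize (exists_pol n).choose ν = p
  induction p using MvPolynomial.induction_on with
  | C a => simp
  | add p q hp hq => rw [map_add, map_add, map_add, hp, hq]
  | mul_X p i hp =>
    rw [map_mul, map_mul, map_mul, hp, MvPolynomial.aeval_X, MvPolynomial.aeval_X]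

end Pool.Agent.GL74
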