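import Pool.Agent.W_7742x_h74.XDef

/-! # Periodic functions on `ℝ^s`

A bounded measurable function `F` on `ℝ^s` with period `ℤ^s` is a function on `UnitAddTorus (Fin s)`
(use `UnitAddTorus.integral_preimage`, `lintegral_preimage`, `mFourierCoeff_eq_integral`; the
cubes `[0,1]^s` and `(0,1]^s` differ by a null set).
* `int_shift`: translation invariance of Haar measure on the torus.
* `int_lin`: for an integral matrix `M` with `det M ≠ 0` the endomorphism `θ ↦ M θ` of the torus is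
  continuous and surjective (`M` is invertible over `ℝ`), so it preserves the Haar probability
  measure (`MonoidHom.measurePreserving` / `AddMonoidHom`-version for compact groups).
* `int_mul`: the cube `[0,p]^s` is the union of the cubes `b + [0,1]^s` and `θ = p x`; or: the
  average over the translates by `b / p` is a function of `p x`.
* `parseval`: `F` is in `L²` of the torus, `hasSum_sq_mFourierCoeff`,
  `mFourierCoeff_eq_integral`. -/

set_option autoImplicit false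

noncomputable section

namespace Pool.Agent.GL74

open MeasureTheory
open scoped ENNReal

/-- Bounded measurable periodic functions. -/
structure IsPer {s : ℕ} (F : (Fin s → ℝ) → ℂ) : Prop where
  meas : Measurable F
  bdd : ∃ C : ℝ, ∀ θ, ‖F θ‖ ≤ C
  per : ∀ (ℓ : Fin s → ℤ) θ, F (θ + zr ℓ) = F θ

/-! ### The torus -/

/-- The Haar probability measure on the circle. -/
local instance TTor_ms : MeasureSpace UnitAddCircle := ⟨AddCircle.haarAddCircle⟩

local instance TTor_haar : Measure.IsAddHaarMeasure (volume : Measure UnitAddCircle) :=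
  inferInstanceAs (Measure.IsAddHaarMeasure AddCircle.haarAddCircle)

local instance TTor_prob : IsProbabilityMeasure (volume : Measure UnitAddCircle) :=
  inferInstanceAs (IsProbabilityMeasure AddCircle.haarAddCircle)

theorem TTor_coe_eq {x y : ℝ} (h : (x : UnitAddCircle) = (y : UnitAddCircle)) :
    ∃ n : ℤ, x = y + n := by
  have h1 : ((x - y : ℝ) : UnitAddCircle) = 0 := by
    rw [AddCircle.coe_sub, h, sub_self]
  obtain ⟨n, hn⟩ := (AddCircle.coe_eq_zero_iff (1 : ℝ)).mp h1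
  refine ⟨n, ?_⟩
  rw [zsmul_eq_mul, mul_one] at hn
  linarith

/-- The coordinates in `(0,1]` of a point of the torus. -/
def TTor_c {s : ℕ} (x : UnitAddTorus (Fin s)) : Fin s → ℝ :=
  fun i => (UnitAddTorus.measurableEquivPiIoc (fun _ : Fin s => (0 : ℝ)) x).1 i

theorem TTor_c_coe {s : ℕ} (x : UnitAddTorus (Fin s)) (i : Fin s) :
    ((TTor_c x i : ℝ) : UnitAddCircle) = x i := by
  unfold TTor_c
  rw [UnitAddTorus.coe_measurableEquivPiIoc_apply]
  exact AddCircle.coe_equivIoc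

theorem TTor_measurable_c {s : ℕ} : Measurable (TTor_c : UnitAddTorus (Fin s) → Fin s → ℝ) :=
  measurable_subtype_coe.comp
    (UnitAddTorus.measurableEquivPiIoc (fun _ : Fin s => (0 : ℝ))).measurable

/-- The function on the torus. -/
def TTor_G {s : ℕ} (F : (Fin s → ℝ) → ℂ) (x : UnitAddTorus (Fin s)) : ℂ := F (TTor_c x)

theorem TTor_G_meas {s : ℕ} {F : (Fin s → ℝ) → ℂ} (hF : IsPer F) : Measurable (TTor_G F) :=
  hF.meas.comp TTor_measurable_c

theorem TTor_G_coe {s : ℕ} {F : (Fin s → ℝ) → ℂ} (hF : IsPer F) (θ : Fin s → ℝ) :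
    TTor_G F (fun i => ((θ i : ℝ) : UnitAddCircle)) = F θ := by
  have h1 : ∀ i, ∃ n : ℤ, TTor_c (fun i => ((θ i : ℝ) : UnitAddCircle)) i = θ i + n :=
    fun i => TTor_coe_eq (TTor_c_coe (fun i => ((θ i : ℝ) : UnitAddCircle)) i)
  choose n hn using h1
  have h2 : TTor_c (fun i => ((θ i : ℝ) : UnitAddCircle)) = θ + zr n := by
    funext i
    rw [hn i]
    rfl
  unfold TTor_G
  rw [h2, hF.per]

theorem TTor_set {s : ℕ} :
    {x : Fin s → ℝ | ∀ i, x i ∈ Set.Ioc ((0 : Fin s → ℝ) i) ((0 : Fin s → ℝ) i + 1)} =ᵐ[volume]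
      Set.Icc (0 : Fin s → ℝ) 1 := by
  have h1 : (Set.pi Set.univ fun i : Fin s => Set.Ioc ((0 : Fin s → ℝ) i) ((1 : Fin s → ℝ) i))
      =ᵐ[volume] Set.Icc (0 : Fin s → ℝ) 1 := by
    rw [volume_pi]
    exact Measure.univ_pi_Ioc_ae_eq_Icc
  refine Filter.EventuallyEq.trans ?_ h1
  apply Filter.EventuallyEq.of_eq
  ext x
  show (∀ i, x i ∈ Set.Ioc ((0 : Fin s → ℝ) i) ((0 : Fin s → ℝ) i + 1)) ↔
    ∀ i, i ∈ Set.univ → x i ∈ Set.Ioc ((0 : Fin s → ℝ) i) ((1 : Fin s → ℝ) i)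
  simp

theorem TTor_int {s : ℕ} (F : (Fin s → ℝ) → ℂ) (G : UnitAddTorus (Fin s) → ℂ)
    (hG : ∀ θ : Fin s → ℝ, G (fun i => ((θ i : ℝ) : UnitAddCircle)) = F θ) :
    ∫ θ in Set.Icc (0 : Fin s → ℝ) 1, F θ = ∫ x, G x := by
  rw [UnitAddTorus.integral_preimage G 0, ← setIntegral_congr_set TTor_set]
  congr 1
  funext θ
  exact (hG θ).symm

theorem TTor_lint {s : ℕ} (F : (Fin s → ℝ) → ℂ) (G : UnitAddTorus (Fin s) → ℂ)
    (hG : ∀ θ : Fin s → ℝ, G (fun i => ((θ i : ℝ) : UnitAddCircle)) = F θ) :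
    ∫⁻ θ in Set.Icc (0 : Fin s → ℝ) 1, ‖F θ‖ₑ ^ 2 = ∫⁻ x, ‖G x‖ₑ ^ 2 := by
  rw [UnitAddTorus.lintegral_preimage (fun x => ‖G x‖ₑ ^ 2) 0, ← setLIntegral_congr TTor_set]
  congr 1
  funext θ
  rw [hG θ]

/-- The endomorphism of the torus given by an integral matrix. -/
def TTor_hom {s : ℕ} (M : Matrix (Fin s) (Fin s) ℤ) :
    UnitAddTorus (Fin s) →+ UnitAddTorus (Fin s) where
  toFun x := fun i => ∑ j, M i j • x j
  map_zero' := by
    funext i
    simp
  map_add' x y := by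
    funext i
    simp [smul_add, Finset.sum_add_distrib]

theorem TTor_hom_coe {s : ℕ} (M : Matrix (Fin s) (Fin s) ℤ) (θ : Fin s → ℝ) :
    TTor_hom M (fun i => ((θ i : ℝ) : UnitAddCircle)) =
      fun i => (((M.map fun a : ℤ => (a : ℝ)).mulVec θ i : ℝ) : UnitAddCircle) := by
  funext i
  show ∑ j, M i j • ((θ j : ℝ) : UnitAddCircle) = _
  have h1 : (M.map fun a : ℤ => (a : ℝ)).mulVec θ i = ∑ j, M i j • θ j := by
    simp [Matrix.mulVec, dotProduct]
  rw [h1]
  have h2 : ((∑ j, M i j • θ j : ℝ) : UnitAddCircle) =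
      ∑ j, ((M i j • θ j : ℝ) : UnitAddCircle) :=
    map_sum (QuotientAddGroup.mk' (AddSubgroup.zmultiples (1 : ℝ))) _ _
  rw [h2]
  refine Finset.sum_congr rfl fun j _ => ?_
  exact (AddCircle.coe_zsmul (1 : ℝ)).symm

theorem TTor_hom_pres {s : ℕ} (M : Matrix (Fin s) (Fin s) ℤ) (hM : M.det ≠ 0) :
    MeasurePreserving (TTor_hom M) volume volume := by
  have : Measure.IsAddHaarMeasure (volume : Measure (UnitAddTorus (Fin s))) :=
    inferInstanceAs (Measure.IsAddHaarMeasure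
      (Measure.pi fun _ : Fin s => (volume : Measure UnitAddCircle)))
  refine AddMonoidHom.measurePreserving ?_ ?_ rfl
  · refine continuous_pi fun i => ?_
    show Continuous fun x : UnitAddTorus (Fin s) => ∑ j, M i j • x j
    exact continuous_finset_sum _ fun j _ => (continuous_apply j).zsmul (M i j)
  · intro y
    have hM' : (M.map fun a : ℤ => (a : ℝ)).det ≠ 0 := by
      have h1 : (M.map fun a : ℤ => (a : ℝ)).det = ((M.det : ℤ) : ℝ) :=
        ((Int.castRingHom ℝ).map_det M).symm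
      rw [h1]
      exact_mod_cast hM
    have hu : IsUnit (M.map fun a : ℤ => (a : ℝ)).det := isUnit_iff_ne_zero.mpr hM'
    refine ⟨fun i => ((((M.map fun a : ℤ => (a : ℝ))⁻¹.mulVec (TTor_c y)) i : ℝ) :
      UnitAddCircle), ?_⟩
    rw [TTor_hom_coe]
    funext i
    rw [Matrix.mulVec_mulVec, Matrix.mul_nonsing_inv _ hu, Matrix.one_mulVec]
    exact TTor_c_coe y i

theorem int_shift {s : ℕ} {F : (Fin s → ℝ) → ℂ} (hF : IsPer F) (x : Fin s → ℝ) :
    ∫ θ in Set.Icc (0 : Fin s → ℝ) 1, F (θ + x) = ∫ θ in Set.Icc (0 : Fin s → ℝ) 1, F θ := by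
  have hH : IsPer fun θ => F (θ + x) := by
    refine ⟨hF.meas.comp (measurable_id.add_const x), ?_, ?_⟩
    · obtain ⟨C, hC⟩ := hF.bdd
      exact ⟨C, fun θ => hC _⟩
    · intro ℓ θ
      have h1 : θ + zr ℓ + x = θ + x + zr ℓ := by abel
      show F (θ + zr ℓ + x) = F (θ + x)
      rw [h1, hF.per]
  have : Measure.IsAddHaarMeasure (volume : Measure (UnitAddTorus (Fin s))) :=
    inferInstanceAs (Measure.IsAddHaarMeasure
      (Measure.pi fun _ : Fin s => (volume : Measure UnitAddCircle)))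
  rw [TTor_int F (TTor_G F) (TTor_G_coe hF),
    TTor_int (fun θ => F (θ + x))
      (fun y => TTor_G F (y + fun i => ((x i : ℝ) : UnitAddCircle))) ?_]
  · exact integral_add_right_eq_self (TTor_G F) (fun i => ((x i : ℝ) : UnitAddCircle))
  · intro θ
    have h1 : ((fun i => ((θ i : ℝ) : UnitAddCircle)) + fun i => ((x i : ℝ) : UnitAddCircle)) =
        fun i => (((θ + x) i : ℝ) : UnitAddCircle) := by
      funext i
      rfl
    rw [h1, TTor_G_coe hF]

theorem int_lin {s : ℕ} {F : (Fin s → ℝ) → ℂ} (hF : IsPer F) (M : Matrix (Fin s) (Fin s) ℤ)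
    (hM : M.det ≠ 0) :
    ∫ θ in Set.Icc (0 : Fin s → ℝ) 1, F ((M.map fun a : ℤ => (a : ℝ)).mulVec θ) =
      ∫ θ in Set.Icc (0 : Fin s → ℝ) 1, F θ := by
  rw [TTor_int F (TTor_G F) (TTor_G_coe hF),
    TTor_int (fun θ => F ((M.map fun a : ℤ => (a : ℝ)).mulVec θ))
      (fun y => TTor_G F (TTor_hom M y)) ?_]
  · have h1 := TTor_hom_pres M hM
    have h2 := integral_map (μ := volume) (φ := TTor_hom M) h1.measurable.aemeasurable
      (f := TTor_G F) (TTor_G_meas hF).aestronglyMeasurable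
    rw [h1.map_eq] at h2
    exact h2.symm
  · intro θ
    rw [TTor_hom_coe, TTor_G_coe hF]

theorem int_mul {s : ℕ} {F : (Fin s → ℝ) → ℂ} (hF : IsPer F) {p : ℕ} (hp : 0 < p) :
    ∑ b ∈ Fintype.piFinset (fun _ : Fin s => Finset.range p),
        ∫ θ in Set.Icc (0 : Fin s → ℝ) 1, F (fun i => ((b i : ℝ) + θ i) / p) =
      (p : ℂ) ^ s * ∫ θ in Set.Icc (0 : Fin s → ℝ) 1, F θ := by
  have hp0 : (p : ℝ) ≠ 0 := by positivity
  have hpz : (p : ℤ) ≠ 0 := by exact_mod_cast hp.ne'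
  have hpz' : (0 : ℤ) < p := by exact_mod_cast hp
  have hb : ∀ b : Fin s → ℕ, Measurable fun θ : Fin s → ℝ => F (fun i => ((b i : ℝ) + θ i) / p) :=
    fun b => hF.meas.comp (by fun_prop)
  obtain ⟨C, hC⟩ := hF.bdd
  have hfin : IsFiniteMeasure (volume.restrict (Set.Icc (0 : Fin s → ℝ) 1)) :=
    ⟨by rw [Measure.restrict_apply_univ]; exact isCompact_Icc.measure_lt_top⟩
  have hi : ∀ b : Fin s → ℕ, Integrable (fun θ : Fin s → ℝ => F (fun i => ((b i : ℝ) + θ i) / p))
      (volume.restrict (Set.Icc (0 : Fin s → ℝ) 1)) := fun b =>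
    Integrable.of_bound (hb b).aestronglyMeasurable C (Filter.Eventually.of_forall fun θ => hC _)
  rw [← integral_finset_sum _ fun b _ => hi b]
  have hH : IsPer fun θ : Fin s → ℝ => ∑ b ∈ Fintype.piFinset (fun _ : Fin s => Finset.range p),
      F (fun i => ((b i : ℝ) + θ i) / p) := by
    refine ⟨Finset.measurable_fun_sum _ fun b _ => hb b, ⟨∑ b ∈ Fintype.piFinset
      (fun _ : Fin s => Finset.range p), C, fun θ =>
      (norm_sum_le _ _).trans (Finset.sum_le_sum fun b _ => hC _)⟩, ?_⟩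
    intro ℓ θ
    refine Finset.sum_nbij' (fun b i => (((b i : ℤ) + ℓ i) % p).toNat)
      (fun b i => (((b i : ℤ) - ℓ i) % p).toNat) ?_ ?_ ?_ ?_ ?_
    · intro b _
      rw [Fintype.mem_piFinset]
      intro i
      rw [Finset.mem_range]
      have h1 := Int.emod_lt_of_pos ((b i : ℤ) + ℓ i) hpz'
      have h2 := Int.emod_nonneg ((b i : ℤ) + ℓ i) hpz
      omega
    · intro b _
      rw [Fintype.mem_piFinset]
      intro i
      rw [Finset.mem_range]
      have h1 := Int.emod_lt_of_pos ((b i : ℤ) - ℓ i) hpz'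
      have h2 := Int.emod_nonneg ((b i : ℤ) - ℓ i) hpz
      omega
    · intro b hb
      rw [Fintype.mem_piFinset] at hb
      funext i
      have h0 := Finset.mem_range.mp (hb i)
      have h2 := Int.emod_nonneg ((b i : ℤ) + ℓ i) hpz
      show ((((((b i : ℤ) + ℓ i) % p).toNat : ℤ) - ℓ i) % p).toNat = b i
      rw [Int.toNat_of_nonneg h2, Int.emod_sub_emod, add_sub_cancel_right,
        Int.emod_eq_of_lt (by positivity) (by exact_mod_cast h0)]
      simp
    · intro b hb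
      rw [Fintype.mem_piFinset] at hb
      funext i
      have h0 := Finset.mem_range.mp (hb i)
      have h2 := Int.emod_nonneg ((b i : ℤ) - ℓ i) hpz
      show ((((((b i : ℤ) - ℓ i) % p).toNat : ℤ) + ℓ i) % p).toNat = b i
      rw [Int.toNat_of_nonneg h2, Int.emod_add_emod, sub_add_cancel,
        Int.emod_eq_of_lt (by positivity) (by exact_mod_cast h0)]
      simp
    · intro b _
      have h1 : (fun i => ((b i : ℝ) + (θ + zr ℓ) i) / p) =
          (fun i => (((((b i : ℤ) + ℓ i) % p).toNat : ℝ) + θ i) / p) +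
            zr fun i => ((b i : ℤ) + ℓ i) / p := by
        funext i
        have h2 := Int.emod_nonneg ((b i : ℤ) + ℓ i) hpz
        have h3 : (((((b i : ℤ) + ℓ i) % p).toNat : ℕ) : ℝ) = ((((b i : ℤ) + ℓ i) % p : ℤ) : ℝ) := by
          exact_mod_cast congrArg (fun z : ℤ => (z : ℝ)) (Int.toNat_of_nonneg h2)
        have h4 : ((((b i : ℤ) + ℓ i) % p : ℤ) : ℝ) + p * ((((b i : ℤ) + ℓ i) / p : ℤ) : ℝ) =
            (b i : ℝ) + ℓ i := by
          exact_mod_cast congrArg (fun z : ℤ => (z : ℝ)) (Int.emod_add_mul_ediv ((b i : ℤ) + ℓ i) p)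
        show ((b i : ℝ) + (θ i + (ℓ i : ℝ))) / p = (((((b i : ℤ) + ℓ i) % p).toNat : ℝ) + θ i) / p +
          ((((b i : ℤ) + ℓ i) / p : ℤ) : ℝ)
        rw [h3]
        field_simp
        linarith
      show F (fun i => ((b i : ℝ) + (θ + zr ℓ) i) / p) = _
      rw [h1, hF.per]
  have hdet : (Matrix.diagonal fun _ : Fin s => (p : ℤ)).det ≠ 0 := by
    rw [Matrix.det_diagonal]
    exact Finset.prod_ne_zero_iff.mpr fun _ _ => hpz
  rw [← int_lin hH _ hdet]
  have h5 : ∀ θ : Fin s → ℝ, (∑ b ∈ Fintype.piFinset (fun _ : Fin s => Finset.range p),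
      F (fun i => ((b i : ℝ) + (((Matrix.diagonal fun _ : Fin s => (p : ℤ)).map
        fun a : ℤ => (a : ℝ)).mulVec θ) i) / p)) =
      ∑ b ∈ Fintype.piFinset (fun _ : Fin s => Finset.range p),
        F (θ + fun i => (b i : ℝ) / p) := by
    intro θ
    refine Finset.sum_congr rfl fun b _ => ?_
    congr 1
    funext i
    have h6 : (((Matrix.diagonal fun _ : Fin s => (p : ℤ)).map fun a : ℤ => (a : ℝ)).mulVec θ) i =
        (p : ℝ) * θ i := by
      rw [Matrix.diagonal_map (by simp), Matrix.mulVec_diagonal]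
      simp
    show ((b i : ℝ) + _) / p = θ i + (b i : ℝ) / p
    rw [h6]
    field_simp
    ring
  simp only [h5]
  have hi2 : ∀ b : Fin s → ℕ, Integrable (fun θ : Fin s → ℝ => F (θ + fun i => (b i : ℝ) / p))
      (volume.restrict (Set.Icc (0 : Fin s → ℝ) 1)) := fun b =>
    Integrable.of_bound (hF.meas.comp (measurable_id.add_const _)).aestronglyMeasurable C
      (Filter.Eventually.of_forall fun θ => hC _)
  rw [integral_finset_sum _ fun b _ => hi2 b]
  rw [Finset.sum_congr rfl fun b _ => int_shift hF (fun i => (b i : ℝ) / p)]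
  rw [Finset.sum_const, Fintype.card_piFinset]
  simp

theorem parseval {s : ℕ} {F : (Fin s → ℝ) → ℂ} (hF : IsPer F) :
    ∫⁻ θ in Set.Icc (0 : Fin s → ℝ) 1, ‖F θ‖ₑ ^ 2 =
      ∑' w : Fin s → ℤ,
        ‖∫ θ in Set.Icc (0 : Fin s → ℝ) 1, e (-(∑ i, (w i : ℝ) * θ i)) * F θ‖ₑ ^ 2 := by
  obtain ⟨C, hC⟩ := hF.bdd
  have hmem : MemLp (TTor_G F) 2 (volume : Measure (UnitAddTorus (Fin s))) :=
    MemLp.of_bound (TTor_G_meas hF).aestronglyMeasurable C
      (Filter.Eventually.of_forall fun x => hC _)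
  have hae := hmem.coeFn_toLp
  have h1 := UnitAddTorus.hasSum_sq_mFourierCoeff (hmem.toLp (TTor_G F))
  have hco : ∀ n : Fin s → ℤ, UnitAddTorus.mFourierCoeff (hmem.toLp (TTor_G F)) n =
      ∫ θ in Set.Icc (0 : Fin s → ℝ) 1, e (-(∑ i, (n i : ℝ) * θ i)) * F θ := by
    intro n
    have h2 : UnitAddTorus.mFourierCoeff (hmem.toLp (TTor_G F)) n =
        ∫ x : UnitAddTorus (Fin s), UnitAddTorus.mFourier (-n) x • TTor_G F x := by
      unfold UnitAddTorus.mFourierCoeff
      apply integral_congr_ae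
      filter_upwards [hae] with x hx
      rw [hx]
    rw [h2]
    symm
    apply TTor_int
    intro θ
    rw [TTor_G_coe hF, smul_eq_mul]
    congr 1
    show ∏ i : Fin s, fourier ((-n) i) ((θ i : ℝ) : UnitAddCircle) = _
    have h3 : ∀ i : Fin s, fourier ((-n) i) ((θ i : ℝ) : UnitAddCircle) =
        Complex.exp (2 * Real.pi * Complex.I * (-((n i : ℝ) * θ i) : ℝ)) := by
      intro i
      rw [fourier_coe_apply]
      congr 1
      push_cast [Pi.neg_apply]
      ring
    rw [Finset.prod_congr rfl fun i _ => h3 i, ← Complex.exp_sum]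
    unfold e
    congr 1
    rw [← Finset.mul_sum, ← Complex.ofReal_sum, Finset.sum_neg_distrib]
  have h4 : ∫⁻ x : UnitAddTorus (Fin s), ‖TTor_G F x‖ₑ ^ 2 =
      ENNReal.ofReal (∫ x : UnitAddTorus (Fin s), ‖TTor_G F x‖ ^ 2) := by
    rw [ofReal_integral_eq_lintegral_ofReal]
    · apply lintegral_congr
      intro x
      rw [ENNReal.ofReal_pow (norm_nonneg _), ofReal_norm_eq_enorm]
    · have h5 := hmem.integrable_norm_rpow (by norm_num) (by norm_num)
      simpa using h5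
    · exact Filter.Eventually.of_forall fun x => by positivity
  have h6 : ∫ x : UnitAddTorus (Fin s), ‖(hmem.toLp (TTor_G F)) x‖ ^ 2 =
      ∫ x : UnitAddTorus (Fin s), ‖TTor_G F x‖ ^ 2 := by
    apply integral_congr_ae
    filter_upwards [hae] with x hx
    rw [hx]
  rw [h6] at h1
  rw [TTor_lint F (TTor_G F) (TTor_G_coe hF), h4, ← h1.tsum_eq,
    ENNReal.ofReal_tsum_of_nonneg (fun n => by positivity) h1.summable]
  refine tsum_congr fun n => ?_
  rw [hco n, ENNReal.ofReal_pow (norm_nonneg _), ofReal_norm_eq_enorm]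

/-- The characters are periodic. -/
theorem e_per {s : ℕ} (w ℓ : Fin s → ℤ) (θ : Fin s → ℝ) :
    e (-(∑ i, (w i : ℝ) * (θ + zr ℓ) i)) = e (-(∑ i, (w i : ℝ) * θ i)) := by
  have h1 : -(∑ i, (w i : ℝ) * (θ + zr ℓ) i) =
      -(∑ i, (w i : ℝ) * θ i) + ((-(∑ i, w i * ℓ i) : ℤ) : ℝ) := by
    push_cast
    rw [← neg_add, ← Finset.sum_add_distrib]
    congr 1
    refine Finset.sum_congr rfl fun i _ => ?_
    show (w i : ℝ) * (θ i + (ℓ i : ℝ)) = _
    ring
  rw [h1]
  unfold e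
  rw [Complex.ofReal_add, mul_add, Complex.exp_add]
  have h2 : Complex.exp (2 * Real.pi * Complex.I * (((-(∑ i, w i * ℓ i) : ℤ) : ℝ) : ℂ)) = 1 := by
    have h3 := Complex.exp_int_mul_two_pi_mul_I (-(∑ i, w i * ℓ i))
    rw [← h3]
    congr 1
    push_cast
    ring
  rw [h2, mul_one]

theorem isPer_mul {s : ℕ} {F : (Fin s → ℝ) → ℂ} (hF : IsPer F) (w : Fin s → ℤ) :
    IsPer fun θ => e (-(∑ i, (w i : ℝ) * θ i)) * F θ := by
  obtain ⟨C, hC⟩ := hF.bdd
  have hen : ∀ x : ℝ, ‖e x‖ = 1 := by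
    intro x
    unfold e
    have h1 : (2 * Real.pi * Complex.I * (x : ℂ)) = ((2 * Real.pi * x : ℝ) : ℂ) * Complex.I := by
      push_cast
      ring
    rw [h1, Complex.norm_exp_ofReal_mul_I]
  refine ⟨?_, ⟨C, fun θ => ?_⟩, fun ℓ θ => ?_⟩
  · apply Measurable.mul _ hF.meas
    unfold e
    fun_prop
  · rw [norm_mul, hen, one_mul]
    exact hC θ
  · show e (-(∑ i, (w i : ℝ) * (θ + zr ℓ) i)) * F (θ + zr ℓ) = _
    rw [e_per, hF.per]

end Pool.Agent.GL74
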