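import Pool.Agent.W_7742x_h74.URep
import Pool.Agent.W_7742x_h74.XMea

/-! # The Hecke matrices of level `N` and their action

`HM s N p`: integral `δ` of size `n = s + 1` with `δ δ' = p` for an integral `δ'`, `det δ > 0` and
first row `≡ (*, 0, ..., 0) mod N` (`p ∤ N`).
* `inv`: `δ ↦ δ' = p δ⁻¹`: `δ' δ = p`, `det δ det δ' = p^n`; the first row of `δ'`: modulo `N`,
  `δ_00 (first row of δ')= first row of δ δ' = p e_0`, and `δ_00` is a unit modulo `N`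
  (`δ_00 δ'_00 ≡ p`).
* `gm γ δ = γ δ` for `γ ∈ G0 s N`.
* `act δ g = (det δ)^{-1/n} δ g` preserves the determinant and Lebesgue measure
  (`measurePreserving_lm`), hence the restriction of Lebesgue measure to `1 ≤ dt g ≤ 2`.
* `bij`: for `γ ∈ G0 s N` and `b ∈ bs p S` the product `γ dlz p S b` has the right first row (the
  first row of `dlz` is a multiple of `e_0`), `exists_hnf`, `unique_hnf`; and if the first row of
  `γ dlz p S b` is `≡ (*, 0, ..., 0)`, then so is that of `γ` (`dlz` is lower triangular and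
  invertible modulo `N`: solve from the last column on, or multiply by `δ'` of `dlz`, lower
  triangular, and divide by `p`). -/

set_option autoImplicit false

noncomputable section

namespace Pool.Agent.GL74

open MeasureTheory
open scoped ENNReal MatrixGroups

/-- The Hecke matrices at `p` of level `N` with determinant `p ^ k` or `p ^ (n - k)`. -/
def HM (s N p k : ℕ) : Type :=
  {δ : Matrix (Fin (s + 1)) (Fin (s + 1)) ℤ //
    (∃ δ' : Matrix (Fin (s + 1)) (Fin (s + 1)) ℤ, δ * δ' = (p : ℤ) • 1) ∧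
    (δ.det = (p : ℤ) ^ k ∨ δ.det = (p : ℤ) ^ (s + 1 - k)) ∧
    ∀ j : Fin (s + 1), j ≠ 0 → (N : ℤ) ∣ δ 0 j}

variable {s N p k : ℕ}

theorem UAct_smul_one {n : ℕ} (p : ℤ) (A : Matrix (Fin n) (Fin n) ℤ) :
    A * (p • (1 : Matrix (Fin n) (Fin n) ℤ)) = p • A := by
  rw [Matrix.mul_smul, Matrix.mul_one]

/-- a right quotient is a left quotient -/
theorem UAct_comm {n : ℕ} {p : ℤ} {δ δ' : Matrix (Fin n) (Fin n) ℤ}
    (h : δ * δ' = p • (1 : Matrix (Fin n) (Fin n) ℤ)) (hd : δ.det ≠ 0) :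
    δ' * δ = p • (1 : Matrix (Fin n) (Fin n) ℤ) := by
  have h1 : δ * (δ' * δ) = δ * (p • (1 : Matrix (Fin n) (Fin n) ℤ)) := by
    rw [← Matrix.mul_assoc, h, UAct_smul_one, Matrix.smul_mul, Matrix.one_mul]
  have h2 : δ.det • (δ' * δ) = δ.det • (p • (1 : Matrix (Fin n) (Fin n) ℤ)) := by
    have h3 := congrArg (fun A => δ.adjugate * A) h1
    simp only [← Matrix.mul_assoc, Matrix.adjugate_mul] at h3
    rw [Matrix.smul_mul, Matrix.smul_mul, Matrix.smul_mul, Matrix.one_mul, Matrix.one_mul] at h3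
    exact h3
  ext i j
  have h4 := congrFun (congrFun h2 i) j
  rw [Matrix.smul_apply, Matrix.smul_apply, smul_eq_mul, smul_eq_mul] at h4
  exact mul_left_cancel₀ hd h4

theorem UAct_row {s N p : ℕ} (hp : p.Prime) (hN : ¬ p ∣ N)
    {δ δ' : Matrix (Fin (s + 1)) (Fin (s + 1)) ℤ} (h : δ * δ' = (p : ℤ) • 1)
    (hr : ∀ j : Fin (s + 1), j ≠ 0 → (N : ℤ) ∣ δ 0 j) (j : Fin (s + 1)) (hj : j ≠ 0) :
    (N : ℤ) ∣ δ' 0 j := by
  have h1 : ∀ i, (N : ℤ) ∣ ((p : ℤ) • (1 : Matrix (Fin (s + 1)) (Fin (s + 1)) ℤ)) 0 i -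
      δ 0 0 * δ' 0 i := by
    intro i
    rw [← h, Matrix.mul_apply, Fin.sum_univ_succ, add_sub_cancel_left]
    apply Finset.dvd_sum
    intro k _
    exact Dvd.dvd.mul_right (hr k.succ (Fin.succ_ne_zero k)) _
  have hpN : IsCoprime (p : ℤ) (N : ℤ) :=
    Nat.isCoprime_iff_coprime.mpr ((Nat.Prime.coprime_iff_not_dvd hp).2 hN)
  have h2 : IsCoprime (δ 0 0) (N : ℤ) := by
    obtain ⟨c, hc⟩ := h1 0
    rw [Matrix.smul_apply, Matrix.one_apply_eq, smul_eq_mul, mul_one] at hc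
    have h3 : (p : ℤ) = δ 0 0 * δ' 0 0 + N * c := by linarith
    rw [h3] at hpN
    exact (hpN.of_add_mul_left_left).of_mul_left_left
  have h4 := h1 j
  rw [Matrix.smul_apply, Matrix.one_apply_ne hj.symm, smul_zero, zero_sub, dvd_neg] at h4
  exact h2.symm.dvd_of_dvd_mul_left h4

theorem UAct_det_pos {s N p k : ℕ} (hp : p.Prime) (δ : HM s N p k) : 0 < δ.1.det := by
  have hp0 : (0 : ℤ) < p := by exact_mod_cast hp.pos
  rcases δ.2.2.1 with h | h <;> rw [h] <;> positivity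

theorem HM.countable : Countable (HM s N p k) := by
  have h1 : Countable (Matrix (Fin (s + 1)) (Fin (s + 1)) ℤ) :=
    inferInstanceAs (Countable (Fin (s + 1) → Fin (s + 1) → ℤ))
  exact Subtype.countable

/-- The involution `δ ↦ p δ⁻¹`. -/
theorem HM.exists_inv (hp : p.Prime) (hN : ¬ p ∣ N) (hk : k ≤ s + 1) (δ : HM s N p k) :
    ∃ δ' : HM s N p k, δ.1 * δ'.1 = (p : ℤ) • 1 ∧ δ'.1 * δ.1 = (p : ℤ) • 1 := by
  obtain ⟨δ', hδ'⟩ := δ.2.1
  have hd := UAct_det_pos hp δ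
  have hc := UAct_comm hδ' hd.ne'
  have hp0 : (p : ℤ) ≠ 0 := by exact_mod_cast hp.ne_zero
  have hdet : δ.1.det * δ'.det = (p : ℤ) ^ (s + 1) := by
    rw [← Matrix.det_mul, hδ', Matrix.det_smul, Matrix.det_one, Fintype.card_fin, mul_one]
  have hpk : (p : ℤ) ^ (s + 1) = (p : ℤ) ^ k * (p : ℤ) ^ (s + 1 - k) := by
    rw [← pow_add]
    congr 1
    omega
  refine ⟨⟨δ', ⟨δ.1, hc⟩, ?_, UAct_row hp hN hδ' δ.2.2.2⟩, hδ', hc⟩
  rcases δ.2.2.1 with h | h
  · right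
    rw [h, hpk] at hdet
    exact mul_left_cancel₀ (pow_ne_zero _ hp0) hdet
  · left
    rw [h, hpk, mul_comm] at hdet
    have h5 : δ'.det * (p : ℤ) ^ (s + 1 - k) = (p : ℤ) ^ k * (p : ℤ) ^ (s + 1 - k) := hdet
    exact mul_right_cancel₀ (pow_ne_zero _ hp0) h5

/-- Left multiplication by `G0`. -/
def HM.gm (γ : G0 s N) (δ : HM s N p k) : HM s N p k :=
  ⟨γ.1.1 * δ.1, by
    refine ⟨?_, ?_, ?_⟩
    · obtain ⟨δ', hδ'⟩ := δ.2.1
      refine ⟨δ' * (γ.1⁻¹).1, ?_⟩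
      have h1 : γ.1.1 * (γ.1⁻¹).1 = 1 := by
        have h2 : (γ.1 * γ.1⁻¹).1 = 1 := by rw [mul_inv_cancel]; rfl
        exact h2
      calc γ.1.1 * δ.1 * (δ' * (γ.1⁻¹).1) = γ.1.1 * (δ.1 * δ') * (γ.1⁻¹).1 := by
            simp only [Matrix.mul_assoc]
        _ = (p : ℤ) • 1 := by
            rw [hδ', UAct_smul_one, Matrix.smul_mul, h1]
    · rw [Matrix.det_mul, γ.1.2, one_mul]
      exact δ.2.2.1
    · intro j hj
      rw [Matrix.mul_apply, Fin.sum_univ_succ]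
      refine dvd_add (Dvd.dvd.mul_left (δ.2.2.2 j hj) _) ?_
      apply Finset.dvd_sum
      intro k _
      exact Dvd.dvd.mul_right (γ.2 k.succ (Fin.succ_ne_zero k)) _⟩

theorem HM.gm_zero (γ : G0 s N) (δ : HM s N p k) :
    (((HM.gm γ δ).1 0 0 : ℤ) : ZMod N) = ((γ.1.1 0 0 : ℤ) : ZMod N) * ((δ.1 0 0 : ℤ) : ZMod N) := by
  have h1 : (HM.gm γ δ).1 0 0 = γ.1.1 0 0 * δ.1 0 0 +
      ∑ k : Fin s, γ.1.1 0 k.succ * δ.1 k.succ 0 := by
    show (γ.1.1 * δ.1) 0 0 = _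
    rw [Matrix.mul_apply, Fin.sum_univ_succ]
  have h2 : (N : ℤ) ∣ ∑ k : Fin s, γ.1.1 0 k.succ * δ.1 k.succ 0 := by
    apply Finset.dvd_sum
    intro k _
    exact Dvd.dvd.mul_right (γ.2 k.succ (Fin.succ_ne_zero k)) _
  rw [← Int.cast_mul, ZMod.intCast_eq_intCast_iff_dvd_sub, h1]
  rw [sub_add_cancel_left, dvd_neg]
  exact h2

/-- The normalised action. -/
def HM.act (δ : HM s N p k) (g : X (s + 1)) : X (s + 1) :=
  (((δ.1.det : ℤ) : ℝ) ^ (-(1 / ((s : ℝ) + 1)))) • lm (δ.1.map fun a : ℤ => (a : ℝ)) g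

theorem UAct_act_eq (δ : HM s N p k) (g : X (s + 1)) :
    δ.act g = lm ((((δ.1.det : ℤ) : ℝ) ^ (-(1 / ((s : ℝ) + 1)))) •
      (δ.1.map fun a : ℤ => (a : ℝ))) g := by
  funext i j
  show (((δ.1.det : ℤ) : ℝ) ^ (-(1 / ((s : ℝ) + 1)))) *
      ∑ k : Fin (s + 1), (δ.1.map fun a : ℤ => (a : ℝ)) i k * g k j =
    ∑ k : Fin (s + 1), ((((δ.1.det : ℤ) : ℝ) ^ (-(1 / ((s : ℝ) + 1)))) *
      (δ.1.map fun a : ℤ => (a : ℝ)) i k) * g k j
  rw [Finset.mul_sum]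
  exact Finset.sum_congr rfl fun k _ => by ring

theorem UAct_det_map {n : ℕ} (A : Matrix (Fin n) (Fin n) ℤ) :
    (A.map fun a : ℤ => (a : ℝ)).det = ((A.det : ℤ) : ℝ) := by
  have e : (A.map fun a : ℤ => (a : ℝ)) = (Int.castRingHom ℝ).mapMatrix A := rfl
  rw [e, ← RingHom.map_det]
  rfl

theorem UAct_root {D : ℝ} (hD : 0 < D) (s : ℕ) :
    (D ^ (-(1 / ((s : ℝ) + 1)))) ^ (s + 1) = D⁻¹ := by
  rw [← Real.rpow_natCast, ← Real.rpow_mul hD.le]
  have h0 : (s : ℝ) + 1 ≠ 0 := by positivity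
  have h1 : -(1 / ((s : ℝ) + 1)) * ((s + 1 : ℕ) : ℝ) = -1 := by
    push_cast
    field_simp
  rw [h1, Real.rpow_neg_one]

theorem UAct_det_act (hp : p.Prime) (δ : HM s N p k) :
    ((((δ.1.det : ℤ) : ℝ) ^ (-(1 / ((s : ℝ) + 1)))) •
      (δ.1.map fun a : ℤ => (a : ℝ))).det = 1 := by
  have hd : (0 : ℝ) < ((δ.1.det : ℤ) : ℝ) := by exact_mod_cast UAct_det_pos hp δ
  rw [Matrix.det_smul, Fintype.card_fin, UAct_det_map, UAct_root hd, inv_mul_cancel₀ hd.ne']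

theorem HM.measurePreserving_act (hp : p.Prime) (δ : HM s N p k) :
    MeasurePreserving δ.act ((volume : Measure (X (s + 1))).restrict {g | 1 ≤ dt g ∧ dt g ≤ 2})
      ((volume : Measure (X (s + 1))).restrict {g | 1 ≤ dt g ∧ dt g ≤ 2}) := by
  have h1 : δ.act = lm ((((δ.1.det : ℤ) : ℝ) ^ (-(1 / ((s : ℝ) + 1)))) •
      (δ.1.map fun a : ℤ => (a : ℝ))) := by
    funext g
    exact UAct_act_eq δ g
  have h2 := UAct_det_act hp δ
  have hA : MeasurableSet {g : X (s + 1) | 1 ≤ dt g ∧ dt g ≤ 2} :=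
    (measurableSet_le measurable_const measurable_dt).inter
      (measurableSet_le measurable_dt measurable_const)
  rw [h1]
  have h3 := measurePreserving_lm (A := (((δ.1.det : ℤ) : ℝ) ^ (-(1 / ((s : ℝ) + 1)))) •
      (δ.1.map fun a : ℤ => (a : ℝ))) (by rw [h2, abs_one])
  have h4 := h3.restrict_preimage hA
  have h5 : lm ((((δ.1.det : ℤ) : ℝ) ^ (-(1 / ((s : ℝ) + 1)))) •
      (δ.1.map fun a : ℤ => (a : ℝ))) ⁻¹' {g : X (s + 1) | 1 ≤ dt g ∧ dt g ≤ 2} =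
      {g : X (s + 1) | 1 ≤ dt g ∧ dt g ≤ 2} := by
    ext g
    simp only [Set.mem_preimage, Set.mem_setOf_eq]
    rw [dt_lm, h2, one_mul]
  rw [h5] at h4
  exact h4

theorem HM.act_gm (γ : G0 s N) (δ : HM s N p k) (g : X (s + 1)) :
    (HM.gm γ δ).act g = sl γ.1 (δ.act g) := by
  have h1 : (HM.gm γ δ).1 = γ.1.1 * δ.1 := rfl
  have h2 : (γ.1.1 * δ.1).det = δ.1.det := by rw [Matrix.det_mul, γ.1.2, one_mul]
  unfold HM.act
  rw [sl_smul, h1, h2]
  congr 1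
  unfold sl
  rw [lm_lm]
  congr 1
  show (γ.1.1 * δ.1).map (Int.castRingHom ℝ) =
    γ.1.1.map (Int.castRingHom ℝ) * δ.1.map (Int.castRingHom ℝ)
  rw [Matrix.map_mul]

theorem HM.act_inv (hp : p.Prime) {δ δ' : HM s N p k} (h : δ'.1 * δ.1 = (p : ℤ) • 1)
    (g : X (s + 1)) : δ'.act (δ.act g) = g := by
  have hd : (0 : ℝ) < ((δ.1.det : ℤ) : ℝ) := by exact_mod_cast UAct_det_pos hp δ
  have hd' : (0 : ℝ) < ((δ'.1.det : ℤ) : ℝ) := by exact_mod_cast UAct_det_pos hp δ'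
  have hp0 : (0 : ℝ) < p := by exact_mod_cast hp.pos
  have hdet : ((δ'.1.det : ℤ) : ℝ) * ((δ.1.det : ℤ) : ℝ) = (p : ℝ) ^ (s + 1) := by
    have h1 : δ'.1.det * δ.1.det = (p : ℤ) ^ (s + 1) := by
      rw [← Matrix.det_mul, h, Matrix.det_smul, Matrix.det_one, Fintype.card_fin, mul_one]
    exact_mod_cast h1
  have hroot : ((δ'.1.det : ℤ) : ℝ) ^ (-(1 / ((s : ℝ) + 1))) *
      ((δ.1.det : ℤ) : ℝ) ^ (-(1 / ((s : ℝ) + 1))) = (p : ℝ)⁻¹ := by
    rw [← Real.mul_rpow hd'.le hd.le, hdet, ← Real.rpow_natCast, ← Real.rpow_mul hp0.le]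
    have h0 : (s : ℝ) + 1 ≠ 0 := by positivity
    have h1 : ((s + 1 : ℕ) : ℝ) * -(1 / ((s : ℝ) + 1)) = -1 := by
      push_cast
      field_simp
    rw [h1, Real.rpow_neg_one]
  have hmat : (δ'.1.map fun a : ℤ => (a : ℝ)) * (δ.1.map fun a : ℤ => (a : ℝ)) =
      (p : ℝ) • (1 : Matrix (Fin (s + 1)) (Fin (s + 1)) ℝ) := by
    have h1 : (δ'.1 * δ.1).map (Int.castRingHom ℝ) =
        δ'.1.map (Int.castRingHom ℝ) * δ.1.map (Int.castRingHom ℝ) := Matrix.map_mul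
    have h2 : δ'.1.map (Int.castRingHom ℝ) * δ.1.map (Int.castRingHom ℝ) =
        (p : ℝ) • (1 : Matrix (Fin (s + 1)) (Fin (s + 1)) ℝ) := by
      rw [← h1, h]
      ext i j
      rw [Matrix.map_apply, Matrix.smul_apply, Matrix.smul_apply]
      by_cases hij : i = j
      · subst hij
        rw [Matrix.one_apply_eq, Matrix.one_apply_eq]
        simp
      · rw [Matrix.one_apply_ne hij, Matrix.one_apply_ne hij]
        simp
    exact h2
  unfold HM.act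
  rw [lm_smul, lm_lm, hmat, smul_smul, hroot]
  funext i j
  show (p : ℝ)⁻¹ * ∑ k, ((p : ℝ) • (1 : Matrix (Fin (s + 1)) (Fin (s + 1)) ℝ)) i k * g k j = g i j
  rw [Finset.sum_eq_single i]
  · rw [Matrix.smul_apply, Matrix.one_apply_eq, smul_eq_mul, mul_one, ← mul_assoc,
      inv_mul_cancel₀ hp0.ne', one_mul]
  · intro k _ hk
    rw [Matrix.smul_apply, Matrix.one_apply_ne hk.symm, smul_zero, zero_mul]
  · intro hi
    exact absurd (Finset.mem_univ i) hi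

/-- The representatives. -/
abbrev RepT (s p k : ℕ) : Type :=
  {q : (S : Finset (Fin (s + 1))) × (bs p S : Finset (Fin (s + 1) → Fin (s + 1) → ℕ)) //
    q.1.card = k ∨ q.1.card = s + 1 - k}

theorem UAct_dlz_row (N : ℕ) {p : ℕ} {S : Finset (Fin (s + 1))}
    {b : Fin (s + 1) → Fin (s + 1) → ℕ} (hb : b ∈ bs p S) (j : Fin (s + 1)) (hj : j ≠ 0) :
    (N : ℤ) ∣ dlz p S b 0 j := by
  have h1 : b 0 j = 0 := by
    have h2 := XDl_mem_bs.1 hb 0 j
    rw [if_neg (fun h => absurd h.1 (Fin.not_lt_zero j)), Finset.mem_singleton] at h2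
    exact h2
  have h3 : dlz p S b 0 j = 0 := by
    unfold dlz
    rw [Matrix.of_apply, if_neg hj.symm, h1]
    rfl
  rw [h3]
  exact dvd_zero _

/-- The representative as an element of `HM`. -/
def HM.rep (N : ℕ) (q : RepT s p k) : HM s N p k :=
  ⟨dlz p q.1.1 q.1.2.1, by
    refine ⟨exists_dlz' p q.1.1 q.1.2.2, ?_, UAct_dlz_row N q.1.2.2⟩
    rw [det_dlz p q.1.1 q.1.2.2]
    rcases q.2 with h | h
    · left
      rw [h]
    · right
      rw [h]⟩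

theorem HM.bijective_rep (hp : p.Prime) (hN : ¬ p ∣ N) :
    Function.Bijective fun q : G0 s N × RepT s p k => HM.gm q.1 (HM.rep N q.2) := by
  constructor
  · rintro ⟨γ, ⟨⟨S, b⟩, hS⟩⟩ ⟨γ', ⟨⟨S', b'⟩, hS'⟩⟩ h
    have h1 : γ.1.1 * dlz p S b.1 = γ'.1.1 * dlz p S' b'.1 := congrArg Subtype.val h
    obtain ⟨h2, h3, h4⟩ := unique_hnf hp b.2 b'.2 h1
    subst h3
    have h5 : γ = γ' := Subtype.ext h2
    have h6 : b = b' := Subtype.ext h4
    subst h5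
    subst h6
    rfl
  · intro δ
    obtain ⟨δ', hδ'⟩ := δ.2.1
    have hd := UAct_det_pos hp δ
    obtain ⟨γ, S, b, hb, hδ⟩ := exists_hnf hp δ.1 δ' hδ' hd
    obtain ⟨D', hD'⟩ := exists_dlz' p S hb
    have hpN : IsCoprime (p : ℤ) (N : ℤ) :=
      Nat.isCoprime_iff_coprime.mpr ((Nat.Prime.coprime_iff_not_dvd hp).2 hN)
    have hγ : γ ∈ G0 s N := by
      intro j hj
      have h1 : (N : ℤ) ∣ D' 0 j := UAct_row hp hN hD' (UAct_dlz_row N hb) j hj
      have h2 : δ.1 * D' = (p : ℤ) • γ.1 := by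
        rw [hδ, Matrix.mul_assoc, hD', UAct_smul_one]
      have h3 : (p : ℤ) * γ.1 0 j = ∑ k, δ.1 0 k * D' k j := by
        rw [← Matrix.mul_apply, h2, Matrix.smul_apply, smul_eq_mul]
      have h4 : (N : ℤ) ∣ (p : ℤ) * γ.1 0 j := by
        rw [h3, Fin.sum_univ_succ]
        refine dvd_add (Dvd.dvd.mul_left h1 _) ?_
        apply Finset.dvd_sum
        intro k _
        exact Dvd.dvd.mul_right (δ.2.2.2 k.succ (Fin.succ_ne_zero k)) _
      exact hpN.symm.dvd_of_dvd_mul_left h4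
    have hcard : S.card = k ∨ S.card = s + 1 - k := by
      have h1 : δ.1.det = (p : ℤ) ^ S.card := by
        rw [hδ, Matrix.det_mul, γ.2, one_mul, det_dlz p S hb]
      have hinj : Function.Injective fun m : ℕ => (p : ℤ) ^ m := by
        intro a b hab
        have hab' : (p : ℤ) ^ a = (p : ℤ) ^ b := hab
        have h2 : p ^ a = p ^ b := by exact_mod_cast hab'
        exact Nat.pow_right_injective hp.two_le h2
      rcases δ.2.2.1 with h | h
      · left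
        apply hinj
        show (p : ℤ) ^ S.card = (p : ℤ) ^ k
        rw [← h1, h]
      · right
        apply hinj
        show (p : ℤ) ^ S.card = (p : ℤ) ^ (s + 1 - k)
        rw [← h1, h]
    refine ⟨(⟨γ, hγ⟩, ⟨⟨S, ⟨b, hb⟩⟩, hcard⟩), ?_⟩
    apply Subtype.ext
    exact hδ.symm

end Pool.Agent.GL74
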