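import Pool.Agent.W_7742x_h74.UAct
import Pool.Agent.W_7742x_h74.QExt
import Pool.Agent.W_7742x_h74.PMai
import Pool.Agent.W_7742m_h74.AdjA

/-! # Adjoint Hecke operators: `e_k = conj χ(p) conj e_{n-k}`

Let `n = s + 2`, `φ = tof f`, `1 ≤ k < n`, `lam_k = √p^{k(n-k)} e_k` the eigenvalue of `T_{p,k}`,
`ω' = wT T` the weight of `exists_isLvl`, `μ` the restriction of Lebesgue measure to
`1 ≤ dt g ≤ 2`, `M = HM (s+1) N p k`.  For complex numbers `a`, `b` put (if `2 k ≠ n`)
`H δ g = c(δ) conj χ(δ_00) φ (δ.act g) conj (φ g)`, `c(δ) = a` if `det δ = p^k` and `b` if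
`det δ = p^{n-k}`.  Then `H (gm γ δ) = H δ` (`sl_tof`, `HM.gm_zero`, `‖χ (γ_00)‖ = 1`), and for
`δ' δ = p`: `H δ' (δ.act g) = c(δ') conj χ(δ'_00) φ g conj (φ (δ.act g))`, where
`χ(δ'_00) χ(δ_00) = χ(p)`; this is `κ conj (H δ g)` with `κ = conj χ(p)` if `b = conj a`
(`(a, b) = (1, 1)` and `(a, b) = (i, -i)`).  `adjoint_abstract` (with `w = wT T`,
`∫ wT T dμ < ∞`, boundedness) says for the sum over the representatives
`∑_q ∫ w H (rep q) = (a lam_k + b lam_{n-k}) ∫ w ‖φ‖² dμ`
(sum over `S`, `|S| = k` resp. `n - k`, `conj χ(δ_00) = conj χ(p)` if `0 ∈ S`, else `1`, scale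
invariance, the eigenvalue equation; `∫ w ‖φ‖² > 0`), so
`a lam_k + b lam_{n-k} = conj χ(p) conj (a lam_k + b lam_{n-k})`; from the two choices
`lam_k = conj χ(p) conj lam_{n-k}`, hence `e_k = conj χ(p) conj e_{n-k}`.  If `2 k = n` take
`c = 1` only.  For `k = n`: `e_n = conj χ(p)` (`norm_det` in `LBad`: `Hk p univ φ g = φ (p g)`). -/

set_option autoImplicit false

noncomputable section

namespace Pool.Agent.GL74

open MeasureTheory ComplexConjugate
open scoped ENNReal MatrixGroups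
open Pool.Agent.GLForm74

theorem UAdj_bs {n : ℕ} (p : ℕ) : bs p (Finset.univ : Finset (Fin n)) = {0} := by
  unfold bs
  ext b
  rw [Fintype.mem_piFinset, Finset.mem_singleton]
  constructor
  · intro hb
    funext i j
    have h1 := Fintype.mem_piFinset.1 (hb i) j
    rw [if_neg (by simp), Finset.mem_singleton] at h1
    exact h1
  · rintro rfl i
    rw [Fintype.mem_piFinset]
    intro j
    rw [if_neg (by simp), Finset.mem_singleton]
    rfl

theorem UAdj_lm {n : ℕ} (p : ℕ) (g : X n) : lm (dl p Finset.univ 0) g = (p : ℝ) • g := by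
  funext i j
  show ∑ k, (Matrix.of fun i j => if i = j then (if i ∈ Finset.univ then (p : ℝ) else 1)
    else (((0 : Fin n → Fin n → ℕ) i j : ℕ) : ℝ)) i k * g k j = p * g i j
  rw [Finset.sum_eq_single i]
  · simp
  · intro k _ hk
    rw [Matrix.of_apply, if_neg (Ne.symm hk)]
    simp
  · intro h
    exact absurd (Finset.mem_univ _) h

/-- The set of determinants between `1` and `2`. -/
def UAdj_A (n : ℕ) : Set (X n) := {g | 1 ≤ dt g ∧ dt g ≤ 2}

theorem UAdj_meas_A (n : ℕ) : MeasurableSet (UAdj_A n) := by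
  have h1 : MeasurableSet {g : X n | 1 ≤ dt g} := measurableSet_le measurable_const measurable_dt
  have h2 : MeasurableSet {g : X n | dt g ≤ 2} := measurableSet_le measurable_dt measurable_const
  exact h1.inter h2

theorem UAdj_sl_A {n : ℕ} (γ : SL(n, ℤ)) (g : X n) : sl γ g ∈ UAdj_A n ↔ g ∈ UAdj_A n := by
  show (1 ≤ dt (sl γ g) ∧ dt (sl γ g) ≤ 2) ↔ (1 ≤ dt g ∧ dt g ≤ 2)
  rw [dt_sl]

theorem UAdj_mp {n : ℕ} (γ : SL(n, ℤ)) :
    MeasurePreserving (sl γ) ((volume : Measure (X n)).restrict (UAdj_A n))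
      ((volume : Measure (X n)).restrict (UAdj_A n)) := by
  have h1 := (measurePreserving_sl γ).restrict_preimage (UAdj_meas_A n)
  have h2 : sl γ ⁻¹' UAdj_A n = UAdj_A n := by
    ext g
    exact UAdj_sl_A γ g
  rwa [h2] at h1

/-- An `n`-th root. -/
theorem UAdj_root {n : ℕ} (hn : 0 < n) {x : ℝ} (hx : 0 < x) : ∃ t : ℝ, 0 < t ∧ t ^ n = x := by
  refine ⟨x ^ ((n : ℝ)⁻¹), Real.rpow_pos_of_pos hx _, ?_⟩
  exact Real.rpow_inv_natCast_pow hx.le hn.ne'

/-- The weight has finite mass for `1 ≤ dt g ≤ 2`. -/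
theorem UAdj_wt_fin {n : ℕ} (hn : 0 < n) :
    ∫⁻ g in UAdj_A n, wt n g ≠ ∞ := by
  have hw := isWt_wt n
  obtain ⟨t, ht, htn⟩ := UAdj_root hn (x := 2) (by norm_num)
  have hF : Measurable ((UAdj_A n).indicator (wt n)) := hw.meas.indicator (UAdj_meas_A n)
  have h1 := lintegral_smul_X (n := n) ht hF
  have h2 : ∫⁻ g : X n, (UAdj_A n).indicator (wt n) (t • g) ≠ ∞ := by
    refine ne_top_of_le_ne_top hw.fin ?_
    rw [← lintegral_indicator (measurableSet_le (measurable_dt.abs) measurable_const)]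
    refine lintegral_mono fun g => ?_
    by_cases h3 : t • g ∈ UAdj_A n
    · rw [Set.indicator_of_mem h3, hw.scale t ht]
      have h4 : 1 ≤ dt (t • g) ∧ dt (t • g) ≤ 2 := h3
      rw [dt_smul, htn] at h4
      rw [Set.indicator_of_mem]
      show |dt g| ≤ 1
      rw [abs_le]
      constructor <;> linarith [h4.1, h4.2]
    · rw [Set.indicator_of_notMem h3]
      exact bot_le
  intro h3
  rw [← lintegral_indicator (UAdj_meas_A n)] at h3
  rw [h3, ENNReal.mul_top] at h1
  · exact h2 h1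
  · rw [Ne, ENNReal.ofReal_eq_zero, not_le]
    positivity

theorem UAdj_meas_wT {n : ℕ} (T : Finset SL(n, ℤ)) : Measurable (wT T) := by
  unfold wT
  exact Finset.measurable_sum _ fun δ _ => (isWt_wt n).meas.comp (measurable_lm _)

theorem UAdj_wT_fin {n : ℕ} (hn : 0 < n) (T : Finset SL(n, ℤ)) :
    ∫⁻ g in UAdj_A n, wT T g < ∞ := by
  unfold wT
  rw [lintegral_finsetSum (f := fun δ g => wt n (sl δ g)) T fun δ _ =>
    (isWt_wt n).meas.comp (measurable_lm _)]
  refine ENNReal.sum_lt_top.2 fun δ _ => ?_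
  have h1 := (UAdj_mp δ).lintegral_comp (isWt_wt n).meas
  rw [h1]
  exact lt_top_iff_ne_top.2 (UAdj_wt_fin hn)

/-- The form does not vanish on `1 ≤ dt g ≤ 2`. -/
theorem UAdj_vol {s N : ℕ} {χ : DirichletCharacter ℂ N}
    {f : Matrix (Fin (s + 2)) (Fin (s + 2)) ℝ → ℂ} (hf : IsCuspForm N χ f)
    (hne : ∃ g, 0 < g.det ∧ f g ≠ 0) :
    ¬ ∀ᵐ g ∂((volume : Measure (X (s + 2))).restrict (UAdj_A (s + 2))), tof f g = 0 := by
  intro h
  rw [ae_restrict_iff' (UAdj_meas_A _)] at h
  refine volume_tof hf hne ?_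
  have h1 : ∀ m : ℤ, ∃ t : ℝ, 0 < t ∧ t ^ (s + 2) = ((2 : ℝ) ^ m)⁻¹ := fun m =>
    UAdj_root (Nat.succ_pos _) (inv_pos.2 (zpow_pos (by norm_num) m))
  choose t ht htn using h1
  have hZ : (volume : Measure (X (s + 2))) {g | ¬ (g ∈ UAdj_A (s + 2) → tof f g = 0)} = 0 := h
  have h2 : {g : X (s + 2) | tof f g ≠ 0} ⊆
      ⋃ m : ℤ, (fun g : X (s + 2) => t m • g) ⁻¹' {g | ¬ (g ∈ UAdj_A (s + 2) → tof f g = 0)} := by
    intro g hg
    have hg1 : tof f g ≠ 0 := hg
    have h3 : 0 < dt g := by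
      by_contra h4
      apply hg1
      unfold tof
      rw [if_neg h4]
    obtain ⟨m, hm1, hm2⟩ := exists_mem_Ico_zpow h3 (one_lt_two : (1 : ℝ) < 2)
    refine Set.mem_iUnion.2 ⟨m, ?_⟩
    show ¬ (t m • g ∈ UAdj_A (s + 2) → tof f (t m • g) = 0)
    rw [scale_tof hf (ht m)]
    intro h4
    refine hg1 (h4 ?_)
    show 1 ≤ dt (t m • g) ∧ dt (t m • g) ≤ 2
    rw [dt_smul, htn]
    have h5 : (0 : ℝ) < 2 ^ m := zpow_pos (by norm_num) m
    rw [zpow_add₀ (by norm_num), zpow_one] at hm2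
    constructor
    · rw [inv_mul_eq_div, le_div_iff₀ h5, one_mul]
      exact hm1
    · rw [inv_mul_eq_div, div_le_iff₀ h5]
      linarith
  refine measure_mono_null h2 ?_
  rw [measure_iUnion_null_iff]
  intro m
  have h3 := Measure.addHaar_preimage_smul (volume : Measure (X (s + 2))) (ht m).ne'
    {g | ¬ (g ∈ UAdj_A (s + 2) → tof f g = 0)}
  rw [hZ, mul_zero] at h3
  exact h3

/-- The norm is positive. -/
theorem UAdj_pos {s N : ℕ} {χ : DirichletCharacter ℂ N}
    {f : Matrix (Fin (s + 2)) (Fin (s + 2)) ℝ → ℂ} (hf : IsCuspForm N χ f)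
    (hne : ∃ g, 0 < g.det ∧ f g ≠ 0) {T : Finset SL(s + 2, ℤ)}
    (hT : ∀ᵐ g : X (s + 2), ∑' γ : G0 (s + 1) N, wT T (sl γ.1 g) = 1) {C : ℝ}
    (hC : ∀ g, ‖tof f g‖ ≤ C) :
    0 < ∫ g in UAdj_A (s + 2), (wT T g).toReal * ‖tof f g‖ ^ 2 := by
  have hcs : Countable SL(s + 2, ℤ) := countable_sl _
  have hcg : Countable (G0 (s + 1) N) := Subtype.countable
  have hw := UAdj_meas_wT T
  have hwi := UAdj_wT_fin (Nat.succ_pos (s + 1)) T
  have hnn : ∀ g, 0 ≤ (wT T g).toReal * ‖tof f g‖ ^ 2 := fun g => by positivity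
  have hint : Integrable (fun g => (wT T g).toReal * ‖tof f g‖ ^ 2)
      ((volume : Measure (X (s + 2))).restrict (UAdj_A (s + 2))) := by
    have h1 : Integrable (fun g => (wT T g).toReal)
        ((volume : Measure (X (s + 2))).restrict (UAdj_A (s + 2))) :=
      integrable_toReal_of_lintegral_ne_top hw.aemeasurable hwi.ne
    refine h1.mul_bdd (c := C ^ 2) (g := fun g => ‖tof f g‖ ^ 2)
      ((measurable_tof hf).norm.pow_const 2).aestronglyMeasurable
      (Filter.Eventually.of_forall fun g => ?_)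
    rw [norm_pow, norm_norm]
    exact pow_le_pow_left₀ (norm_nonneg _) (hC g) 2
  rcases (integral_nonneg (μ := (volume : Measure (X (s + 2))).restrict (UAdj_A (s + 2)))
    (f := fun g => (wT T g).toReal * ‖tof f g‖ ^ 2) hnn).lt_or_eq with h | h
  · exact h
  exfalso
  have hz := (integral_eq_zero_iff_of_nonneg hnn hint).1 h.symm
  have hfin : ∀ᵐ g ∂((volume : Measure (X (s + 2))).restrict (UAdj_A (s + 2))), wT T g < ∞ :=
    ae_lt_top hw hwi.ne
  have h3 : ∀ᵐ g ∂((volume : Measure (X (s + 2))).restrict (UAdj_A (s + 2))),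
      wT T g = 0 ∨ tof f g = 0 := by
    filter_upwards [hz, hfin] with g hz1 hz2
    have hz3 : (wT T g).toReal * ‖tof f g‖ ^ 2 = 0 := hz1
    rcases mul_eq_zero.1 hz3 with h4 | h4
    · left
      rcases (ENNReal.toReal_eq_zero_iff _).1 h4 with h5 | h5
      · exact h5
      · exact absurd h5 hz2.ne
    · right
      exact norm_eq_zero.1 ((pow_eq_zero_iff two_ne_zero).1 h4)
  have h4 : ∀ᵐ g ∂((volume : Measure (X (s + 2))).restrict (UAdj_A (s + 2))),
      ∀ γ : G0 (s + 1) N, wT T (sl γ.1 g) = 0 ∨ tof f (sl γ.1 g) = 0 := by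
    rw [ae_all_iff]
    intro γ
    exact (UAdj_mp γ.1).quasiMeasurePreserving.ae h3
  refine UAdj_vol hf hne ?_
  filter_upwards [h4, ae_restrict_of_ae hT] with g hg1 hg2
  by_contra hne2
  have h6 : ∀ γ : G0 (s + 1) N, wT T (sl γ.1 g) = 0 := by
    intro γ
    rcases hg1 γ with h7 | h7
    · exact h7
    · exfalso
      rw [sl_tof hf γ.2] at h7
      rcases mul_eq_zero.1 h7 with h8 | h8
      · have h9 := norm_chi χ γ.2
        rw [h8, norm_zero] at h9
        exact zero_ne_one h9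
      · exact hne2 h8
  simp only [h6, tsum_zero] at hg2
  exact zero_ne_one hg2

/-- The partial Hecke operator with the value of the character. -/
def UAdj_K {s N : ℕ} (χ : DirichletCharacter ℂ N) (p : ℕ) (φ : X (s + 2) → ℂ)
    (S : Finset (Fin (s + 2))) (g : X (s + 2)) : ℂ :=
  (if (0 : Fin (s + 2)) ∈ S then conj (χ p) else 1) * Hk p S φ g

theorem UAdj_eig {s N : ℕ} {χ : DirichletCharacter ℂ N}
    {f : Matrix (Fin (s + 2)) (Fin (s + 2)) ℝ → ℂ} {p : ℕ} (hp : p.Prime) {k : ℕ} {c : ℂ}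
    (he : ∀ g, 0 < g.det → hecke χ p k f g = c * f g) (g : X (s + 2)) :
    ∑ S ∈ Finset.powersetCard k Finset.univ, UAdj_K χ p (tof f) S g = c * tof f g := by
  classical
  have hpp : (0 : ℝ) < p := by exact_mod_cast hp.pos
  by_cases hg : 0 < dt g
  · have h1 : tof f g = f (Matrix.of g) := by
      unfold tof
      rw [if_pos hg]
    rw [h1, ← he (Matrix.of g) hg]
    unfold hecke UAdj_K
    refine Finset.sum_congr rfl fun S _ => ?_
    have h2 : (∃ i ∈ S, (i : ℕ) = 0) ↔ (0 : Fin (s + 2)) ∈ S := by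
      constructor
      · rintro ⟨i, hi, hi0⟩
        have : i = 0 := Fin.ext hi0
        rwa [this] at hi
      · intro h
        exact ⟨0, h, rfl⟩
    have h3 : (if ∃ i ∈ S, (i : ℕ) = 0 then conj (χ p) else (1 : ℂ)) =
        if (0 : Fin (s + 2)) ∈ S then conj (χ p) else 1 := by
      simp only [h2]
    rw [h3]
    congr 1
    unfold Hk
    show ∑ b ∈ bs p S, tof f (lm (dl p S b) g) = ∑ b ∈ bs p S, f (dl p S b * Matrix.of g)
    refine Finset.sum_congr rfl fun b hb => ?_
    have h4 : 0 < dt (lm (dl p S b) g) := by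
      rw [dt_lm, det_dl p S hb]
      positivity
    unfold tof
    rw [if_pos h4, lm_eq]
  · have h1 : tof f g = 0 := by
      unfold tof
      rw [if_neg hg]
    rw [h1, mul_zero]
    refine Finset.sum_eq_zero fun S _ => ?_
    unfold UAdj_K Hk
    rw [Finset.sum_eq_zero, mul_zero]
    intro b hb
    have h4 : ¬ 0 < dt (lm (dl p S b) g) := by
      rw [dt_lm, det_dl p S hb]
      intro h5
      exact hg ((mul_pos_iff_of_pos_left (by positivity)).1 h5)
    unfold tof
    rw [if_neg h4]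

theorem UAdj_last {s N : ℕ} {χ : DirichletCharacter ℂ N}
    {f : Matrix (Fin (s + 2)) (Fin (s + 2)) ℝ → ℂ} (hf : IsCuspForm N χ f)
    (hne : ∃ g, 0 < g.det ∧ f g ≠ 0) {p : ℕ} (hp : p.Prime) {c : ℂ}
    (he : ∀ g, 0 < g.det → hecke χ p (s + 2) f g = c * f g) : c = conj (χ p) := by
  classical
  obtain ⟨g, hg, hfg⟩ := hne
  have hpp : (0 : ℝ) < p := by exact_mod_cast hp.pos
  have h1 := UAdj_eig hp he (g : X (s + 2))
  have h2 : Finset.powersetCard (s + 2) (Finset.univ : Finset (Fin (s + 2))) =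
      {Finset.univ} := by
    have h2 := Finset.powersetCard_self (Finset.univ : Finset (Fin (s + 2)))
    rwa [Finset.card_univ, Fintype.card_fin] at h2
  rw [h2, Finset.sum_singleton] at h1
  unfold UAdj_K Hk at h1
  rw [if_pos (Finset.mem_univ _), UAdj_bs, Finset.sum_singleton, UAdj_lm,
    scale_tof hf hpp] at h1
  have h3 : tof f (g : X (s + 2)) ≠ 0 := by
    have h4 : tof f (g : X (s + 2)) = f g := by
      unfold tof
      exact if_pos hg
    rw [h4]
    exact hfg
  exact (mul_right_cancel₀ h3 h1).symm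

/-- The kernel. -/
def UAdj_H {s N p k : ℕ} (χ : DirichletCharacter ℂ N) (a b : ℂ) (φ : X (s + 2) → ℂ)
    (δ : HM (s + 1) N p k) (g : X (s + 2)) : ℂ :=
  (if δ.1.det = (p : ℤ) ^ k then a else b) * conj (χ ((δ.1 0 0 : ℤ) : ZMod N)) *
    φ (δ.act g) * conj (φ g)

theorem UAdj_gm {s N p k : ℕ} {χ : DirichletCharacter ℂ N} (a b : ℂ)
    {f : Matrix (Fin (s + 2)) (Fin (s + 2)) ℝ → ℂ} (hf : IsCuspForm N χ f)
    (γ : G0 (s + 1) N) (δ : HM (s + 1) N p k) (g : X (s + 2)) :
    UAdj_H χ a b (tof f) (HM.gm γ δ) g = UAdj_H χ a b (tof f) δ g := by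
  unfold UAdj_H
  have h1 : (HM.gm γ δ).1.det = δ.1.det := by
    show (γ.1.1 * δ.1).det = _
    rw [Matrix.det_mul, γ.1.2, one_mul]
  have h2 : conj (χ ((γ.1.1 0 0 : ℤ) : ZMod N)) * χ ((γ.1.1 0 0 : ℤ) : ZMod N) = 1 := by
    rw [Complex.conj_mul', norm_chi χ γ.2]
    norm_num
  rw [h1, HM.gm_zero, HM.act_gm, sl_tof hf γ.2, map_mul, map_mul]
  linear_combination ((if δ.1.det = (p : ℤ) ^ k then a else b) *
    conj (χ ((δ.1 0 0 : ℤ) : ZMod N)) * tof f (δ.act g) * conj (tof f g)) * h2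

theorem UAdj_inv {s N p k : ℕ} {χ : DirichletCharacter ℂ N} {a b : ℂ} (hab : b = conj a)
    (haa : 2 * k = s + 2 → conj a = a) (hk : k ≤ s + 2) (φ : X (s + 2) → ℂ)
    (hp : p.Prime) (hpN : ¬ p ∣ N) {δ δ' : HM (s + 1) N p k} (h1 : δ'.1 * δ.1 = (p : ℤ) • 1)
    (g : X (s + 2)) :
    UAdj_H χ a b φ δ' (δ.act g) = conj (χ p) * conj (UAdj_H χ a b φ δ g) := by
  unfold UAdj_H
  rw [HM.act_inv hp h1]
  have hpz : (p : ℤ) ≠ 0 := by exact_mod_cast hp.ne_zero
  have hpinj : Function.Injective fun i : ℕ => (p : ℤ) ^ i := by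
    intro i j hij
    have h9 : (p : ℤ) ^ i = (p : ℤ) ^ j := hij
    exact Nat.pow_right_injective hp.two_le (by exact_mod_cast h9)
  -- the determinants
  have h2 : δ'.1.det * δ.1.det = (p : ℤ) ^ (s + 2) := by
    rw [← Matrix.det_mul, h1, Matrix.det_smul, Matrix.det_one, mul_one, Fintype.card_fin]
  have h3 : (if δ'.1.det = (p : ℤ) ^ k then a else b) =
      conj (if δ.1.det = (p : ℤ) ^ k then a else b) := by
    by_cases h4 : 2 * k = s + 2
    · have h5 : b = a := by rw [hab, haa h4]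
      rw [h5, ite_self, ite_self, haa h4]
    · by_cases h5 : δ.1.det = (p : ℤ) ^ k
      · rw [if_pos h5]
        have h6 : δ'.1.det ≠ (p : ℤ) ^ k := by
          intro h6
          rw [h5, h6, ← pow_add] at h2
          have := hpinj h2
          omega
        rw [if_neg h6, hab]
      · rw [if_neg h5]
        have h6 : δ.1.det = (p : ℤ) ^ (s + 1 + 1 - k) := δ.2.2.1.resolve_left h5
        have h7 : δ'.1.det = (p : ℤ) ^ k := by
          rw [h6] at h2
          have h8 : (p : ℤ) ^ (s + 2) = (p : ℤ) ^ k * (p : ℤ) ^ (s + 1 + 1 - k) := by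
            rw [← pow_add]
            congr 1
            omega
          rw [h8] at h2
          exact mul_right_cancel₀ (pow_ne_zero _ hpz) h2
        rw [if_pos h7, hab, Complex.conj_conj]
  -- the upper left entries
  have h4 : ((δ'.1 0 0 : ℤ) : ZMod N) * ((δ.1 0 0 : ℤ) : ZMod N) = p := by
    have h5 : (δ'.1 * δ.1) 0 0 = (p : ℤ) := by
      rw [h1]
      simp
    rw [Matrix.mul_apply, Fin.sum_univ_succ] at h5
    have h6 := congrArg (Int.cast : ℤ → ZMod N) h5
    push_cast at h6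
    rw [Finset.sum_eq_zero, add_zero] at h6
    · exact h6
    · intro i _
      have h7 := δ'.2.2.2 i.succ (Fin.succ_ne_zero i)
      rw [← ZMod.intCast_zmod_eq_zero_iff_dvd] at h7
      rw [h7, zero_mul]
  have hpu : IsUnit ((p : ℕ) : ZMod N) := by
    rw [ZMod.isUnit_iff_coprime]
    exact (Nat.Prime.coprime_iff_not_dvd hp).2 hpN
  have hau : IsUnit ((δ.1 0 0 : ℤ) : ZMod N) := isUnit_of_mul_isUnit_right (h4 ▸ hpu)
  have h7 : conj (χ ((δ.1 0 0 : ℤ) : ZMod N)) * χ ((δ.1 0 0 : ℤ) : ZMod N) = 1 := by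
    obtain ⟨u, hu⟩ := hau
    rw [← hu, Complex.conj_mul', DirichletCharacter.unit_norm_eq_one]
    norm_num
  have h8 : χ ((p : ℕ) : ZMod N) = χ ((δ'.1 0 0 : ℤ) : ZMod N) * χ ((δ.1 0 0 : ℤ) : ZMod N) := by
    rw [← map_mul, h4]
  rw [h3, h8]
  simp only [map_mul, Complex.conj_conj]
  linear_combination (-(conj (if δ.1.det = (p : ℤ) ^ k then a else b) *
    conj (χ ((δ'.1 0 0 : ℤ) : ZMod N)) * φ g * conj (φ (δ.act g)))) * h7

/-- The sum over the representatives. -/
theorem UAdj_sum_rep {s p k : ℕ} (G : (S : Finset (Fin (s + 2))) →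
    (Fin (s + 2) → Fin (s + 2) → ℕ) → ℂ) [Fintype (RepT (s + 1) p k)] :
    ∑ q : RepT (s + 1) p k, G q.1.1 q.1.2.1 =
      ∑ S ∈ (Finset.univ : Finset (Finset (Fin (s + 2)))).filter
        (fun S => S.card = k ∨ S.card = s + 2 - k), ∑ b ∈ bs p S, G S b := by
  classical
  have h1 : ∑ q ∈ (Finset.univ : Finset ((S : Finset (Fin (s + 2))) ×
      (bs p S : Finset (Fin (s + 2) → Fin (s + 2) → ℕ)))).filter
        (fun q => q.1.card = k ∨ q.1.card = s + 1 + 1 - k), G q.1 q.2.1 =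
      ∑ q : RepT (s + 1) p k, G q.1.1 q.1.2.1 :=
    Finset.sum_subtype (s := (Finset.univ : Finset ((S : Finset (Fin (s + 2))) ×
      (bs p S : Finset (Fin (s + 2) → Fin (s + 2) → ℕ)))).filter
        (fun q => q.1.card = k ∨ q.1.card = s + 1 + 1 - k))
      (p := fun q => q.1.card = k ∨ q.1.card = s + 1 + 1 - k) (fun x => by simp)
      (fun q => G q.1 q.2.1)
  rw [← h1, Finset.sum_filter, Fintype.sum_sigma, Finset.sum_filter]
  refine Finset.sum_congr rfl fun S _ => ?_
  by_cases h2 : S.card = k ∨ S.card = s + 2 - k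
  · rw [if_pos h2]
    rw [← Finset.sum_coe_sort (bs p S) (fun b => G S b)]
    refine Finset.sum_congr rfl fun b _ => ?_
    exact if_pos h2
  · rw [if_neg h2]
    refine Finset.sum_eq_zero fun b _ => ?_
    exact if_neg h2

theorem UAdj_rep_val {s N p k : ℕ} {χ : DirichletCharacter ℂ N} (a b : ℂ)
    {f : Matrix (Fin (s + 2)) (Fin (s + 2)) ℝ → ℂ} (hf : IsCuspForm N χ f) (hp : p.Prime)
    (q : RepT (s + 1) p k) (g : X (s + 2)) :
    UAdj_H χ a b (tof f) (HM.rep N q) g =
      (if q.1.1.card = k then a else b) *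
        ((if (0 : Fin (s + 2)) ∈ q.1.1 then conj (χ p) else 1) *
          tof f (lm (dl p q.1.1 q.1.2.1) g)) * conj (tof f g) := by
  unfold UAdj_H
  have hb : (q.1.2.1 : Fin (s + 2) → Fin (s + 2) → ℕ) ∈ bs p q.1.1 := q.1.2.2
  have h1 : (HM.rep N q).1 = dlz p q.1.1 q.1.2.1 := rfl
  have h2 : (HM.rep N q).1.det = (p : ℤ) ^ q.1.1.card := by
    rw [h1]
    exact det_dlz p _ hb
  have hpz : (0 : ℤ) < p := by exact_mod_cast hp.pos
  have h3 : ((HM.rep N q).1.det = (p : ℤ) ^ k) ↔ q.1.1.card = k := by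
    rw [h2]
    constructor
    · intro h
      exact Nat.pow_right_injective hp.two_le (by exact_mod_cast h)
    · intro h
      rw [h]
  have h4 : (if (HM.rep N q).1.det = (p : ℤ) ^ k then a else b) =
      if q.1.1.card = k then a else b := by
    simp only [h3]
  have h5 : conj (χ (((HM.rep N q).1 0 0 : ℤ) : ZMod N)) =
      if (0 : Fin (s + 2)) ∈ q.1.1 then conj (χ p) else 1 := by
    rw [h1]
    have h6 : dlz p q.1.1 q.1.2.1 0 0 = if (0 : Fin (s + 2)) ∈ q.1.1 then (p : ℤ) else 1 := by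
      unfold dlz
      simp
    rw [h6]
    by_cases h7 : (0 : Fin (s + 2)) ∈ q.1.1
    · rw [if_pos h7, if_pos h7]
      push_cast
      rfl
    · rw [if_neg h7, if_neg h7]
      simp
  have h6 : tof f ((HM.rep N q).act g) = tof f (lm (dl p q.1.1 q.1.2.1) g) := by
    unfold HM.act
    rw [h2, h1, map_dlz]
    refine scale_tof hf ?_ _
    exact Real.rpow_pos_of_pos (by exact_mod_cast pow_pos hpz _) _
  rw [h4, h5, h6]
  ring

theorem UAdj_sum_val {s N p k : ℕ} {χ : DirichletCharacter ℂ N} (a b : ℂ)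
    {f : Matrix (Fin (s + 2)) (Fin (s + 2)) ℝ → ℂ} (hf : IsCuspForm N χ f) (hp : p.Prime)
    (hk : k ≤ s + 2) {l1 l2 : ℂ} (h1 : ∀ g, 0 < g.det → hecke χ p k f g = l1 * f g)
    (h2 : ∀ g, 0 < g.det → hecke χ p (s + 2 - k) f g = l2 * f g)
    [Fintype (RepT (s + 1) p k)] (g : X (s + 2)) :
    ∑ q : RepT (s + 1) p k, UAdj_H χ a b (tof f) (HM.rep N q) g =
      (if 2 * k = s + 2 then a * l1 else a * l1 + b * l2) * (((‖tof f g‖ ^ 2 : ℝ)) : ℂ) := by
  classical
  simp only [UAdj_rep_val a b hf hp]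
  rw [UAdj_sum_rep (fun S b' => (if S.card = k then a else b) *
        ((if (0 : Fin (s + 2)) ∈ S then conj (χ p) else 1) *
          tof f (lm (dl p S b') g)) * conj (tof f g))]
  have h3 : ∀ S : Finset (Fin (s + 2)), ∑ b' ∈ bs p S, (if S.card = k then a else b) *
        ((if (0 : Fin (s + 2)) ∈ S then conj (χ p) else 1) *
          tof f (lm (dl p S b') g)) * conj (tof f g) =
      (if S.card = k then a else b) * UAdj_K χ p (tof f) S g * conj (tof f g) := by
    intro S
    unfold UAdj_K Hk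
    rw [← Finset.sum_mul, ← Finset.mul_sum, ← Finset.mul_sum]
  simp only [h3]
  rw [← Finset.sum_mul]
  have h5 : ((‖tof f g‖ ^ 2 : ℝ) : ℂ) = tof f g * conj (tof f g) := by
    rw [Complex.mul_conj']
    push_cast
    rfl
  rw [h5]
  have ha : ∑ S ∈ Finset.powersetCard k Finset.univ,
      (if S.card = k then a else b) * UAdj_K χ p (tof f) S g = a * l1 * tof f g := by
    rw [mul_assoc, ← UAdj_eig hp h1 g, Finset.mul_sum]
    refine Finset.sum_congr rfl fun S hS => ?_
    rw [if_pos (Finset.mem_powersetCard.1 hS).2]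
  by_cases h4 : 2 * k = s + 2
  · rw [if_pos h4]
    have h6 : (Finset.univ : Finset (Finset (Fin (s + 2)))).filter
        (fun S => S.card = k ∨ S.card = s + 2 - k) = Finset.powersetCard k Finset.univ := by
      ext S
      rw [Finset.mem_filter, Finset.mem_powersetCard]
      constructor
      · rintro ⟨_, h⟩
        exact ⟨Finset.subset_univ _, by omega⟩
      · rintro ⟨_, h⟩
        exact ⟨Finset.mem_univ _, Or.inl h⟩
    rw [h6, ha]
    ring
  · rw [if_neg h4]
    have h6 : (Finset.univ : Finset (Finset (Fin (s + 2)))).filter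
        (fun S => S.card = k ∨ S.card = s + 2 - k) =
        Finset.powersetCard k Finset.univ ∪ Finset.powersetCard (s + 2 - k) Finset.univ := by
      ext S
      rw [Finset.mem_filter, Finset.mem_union, Finset.mem_powersetCard, Finset.mem_powersetCard]
      simp [Finset.subset_univ]
    have h7 : Disjoint (Finset.powersetCard k (Finset.univ : Finset (Fin (s + 2))))
        (Finset.powersetCard (s + 2 - k) Finset.univ) := by
      rw [Finset.disjoint_left]
      intro S hS hS'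
      rw [Finset.mem_powersetCard] at hS hS'
      omega
    have hb : ∑ S ∈ Finset.powersetCard (s + 2 - k) Finset.univ,
        (if S.card = k then a else b) * UAdj_K χ p (tof f) S g = b * l2 * tof f g := by
      rw [mul_assoc, ← UAdj_eig hp h2 g, Finset.mul_sum]
      refine Finset.sum_congr rfl fun S hS => ?_
      rw [if_neg]
      rw [(Finset.mem_powersetCard.1 hS).2]
      omega
    rw [h6, Finset.sum_union h7, ha, hb]
    ring

/-- The action of the group. -/
@[reducible] def UAdj_action (s N : ℕ) : MulAction (G0 (s + 1) N) (X (s + 2)) where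
  smul γ g := sl γ.1 g
  one_smul g := sl_one g
  mul_smul γ δ g := sl_mul γ.1 δ.1 g

theorem UAdj_core {s N : ℕ} (hN : 0 < N) {χ : DirichletCharacter ℂ N}
    {f : Matrix (Fin (s + 2)) (Fin (s + 2)) ℝ → ℂ} (hf : IsCuspForm N χ f)
    (hne : ∃ g, 0 < g.det ∧ f g ≠ 0) {p : ℕ} (hp : p.Prime) (hpN : ¬ p ∣ N) {k : ℕ}
    (hk : k ≤ s + 2) {l1 l2 : ℂ} (h1 : ∀ g, 0 < g.det → hecke χ p k f g = l1 * f g)
    (h2 : ∀ g, 0 < g.det → hecke χ p (s + 2 - k) f g = l2 * f g) {a b : ℂ} (hab : b = conj a)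
    (haa : 2 * k = s + 2 → conj a = a) :
    (if 2 * k = s + 2 then a * l1 else a * l1 + b * l2) =
      conj (χ p) * conj (if 2 * k = s + 2 then a * l1 else a * l1 + b * l2) := by
  classical
  obtain ⟨T, hT⟩ := exists_wtN (s := s + 1) hN (isWt_wt (s + 2))
  have hT' : ∀ᵐ g : X (s + 2), ∑' γ : G0 (s + 1) N, wT T (sl γ.1 g) = 1 := hT
  obtain ⟨C, hC⟩ := (isP_tof hf).bdd
  have hC0 : 0 ≤ C := (norm_nonneg _).trans (hC 0)
  have hcs : Countable SL(s + 2, ℤ) := countable_sl _
  have hcg : Countable (G0 (s + 1) N) := Subtype.countable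
  have hcM : Countable (HM (s + 1) N p k) := HM.countable
  let inst : MulAction (G0 (s + 1) N) (X (s + 2)) := UAdj_action s N
  have hinv := fun δ : HM (s + 1) N p k => HM.exists_inv hp hpN hk δ
  choose ι hι1 hι2 using hinv
  have hpz : (p : ℤ) ≠ 0 := by exact_mod_cast hp.ne_zero
  have hιι : ∀ δ, ι (ι δ) = δ := by
    intro δ
    have e1 : δ.1 * ((ι δ).1 * (ι (ι δ)).1) = δ.1 * ((ι δ).1 * δ.1) := by
      rw [hι1 (ι δ), hι2 δ]
    rw [← mul_assoc, ← mul_assoc, hι1 δ, smul_mul_assoc, one_mul, smul_mul_assoc, one_mul] at e1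
    apply Subtype.ext
    exact smul_right_injective _ hpz e1
  have hfinR : Finite (RepT (s + 1) p k) := inferInstance
  let hftR : Fintype (RepT (s + 1) p k) := Fintype.ofFinite _
  have hact : ∀ δ : HM (s + 1) N p k, MeasurePreserving δ.act
      ((volume : Measure (X (s + 2))).restrict (UAdj_A (s + 2)))
      ((volume : Measure (X (s + 2))).restrict (UAdj_A (s + 2))) := fun δ =>
    HM.measurePreserving_act hp δ
  have hHm : ∀ δ : HM (s + 1) N p k, Measurable (UAdj_H χ a b (tof f) δ) := by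
    intro δ
    unfold UAdj_H
    exact (measurable_const.mul ((measurable_tof hf).comp (hact δ).measurable)).mul
      (Complex.continuous_conj.measurable.comp (measurable_tof hf))
  have hHb : ∀ (δ : HM (s + 1) N p k) (g : X (s + 2)),
      ‖UAdj_H χ a b (tof f) δ g‖ ≤ (‖a‖ + ‖b‖) * 1 * C * C := by
    intro δ g
    unfold UAdj_H
    rw [norm_mul, norm_mul, norm_mul, Complex.norm_conj, Complex.norm_conj]
    have e1 : ‖(if δ.1.det = (p : ℤ) ^ k then a else b)‖ ≤ ‖a‖ + ‖b‖ := by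
      split_ifs
      · linarith [norm_nonneg b]
      · linarith [norm_nonneg a]
    have e2 : ‖χ ((δ.1 0 0 : ℤ) : ZMod N)‖ ≤ 1 := DirichletCharacter.norm_le_one χ _
    have e3 := hC (δ.act g)
    have e4 := hC g
    gcongr
  have hw := UAdj_meas_wT T
  have hwi := UAdj_wT_fin (Nat.succ_pos (s + 1)) T
  have key := Pool.Agent.Maass74.adjoint_abstract
    ((volume : Measure (X (s + 2))).restrict (UAdj_A (s + 2))) (G := G0 (s + 1) N)
    (fun γ => UAdj_mp γ.1) (M := HM (s + 1) N p k) HM.act hact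
    HM.gm (fun γ δ x => HM.act_gm γ δ x) ι hιι (fun δ x => HM.act_inv hp (hι2 δ) x)
    (UAdj_H χ a b (tof f)) hHm (UAdj_gm a b hf)
    (conj (χ p)) (fun δ x => UAdj_inv hab haa hk (tof f) hp hpN (hι2 δ) x) hHb (wT T) hw
    (ae_restrict_of_ae hT') hwi (HM.rep N) (HM.bijective_rep hp hpN)
  set I : ℝ := ∫ g in UAdj_A (s + 2), (wT T g).toReal * ‖tof f g‖ ^ 2 with hI
  have hIpos : 0 < I := UAdj_pos hf hne hT' hC
  set L : ℂ := (if 2 * k = s + 2 then a * l1 else a * l1 + b * l2) with hL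
  have hsum : ∑ q : RepT (s + 1) p k, ∫ x in UAdj_A (s + 2), ((wT T x).toReal : ℂ) *
      UAdj_H χ a b (tof f) (HM.rep N q) x = L * (I : ℂ) := by
    rw [← integral_finsetSum]
    · have h3 : ∀ x : X (s + 2), ∑ q : RepT (s + 1) p k, ((wT T x).toReal : ℂ) *
          UAdj_H χ a b (tof f) (HM.rep (k := k) N q) x =
          L * ((((wT T x).toReal * ‖tof f x‖ ^ 2 : ℝ)) : ℂ) := by
        intro x
        rw [← Finset.mul_sum, UAdj_sum_val a b hf hp hk h1 h2]
        push_cast
        ring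
      simp only [h3]
      rw [integral_const_mul, integral_complex_ofReal]
    · intro q _
      have h3 : Integrable (fun x => (wT T x).toReal)
          ((volume : Measure (X (s + 2))).restrict (UAdj_A (s + 2))) :=
        integrable_toReal_of_lintegral_ne_top hw.aemeasurable hwi.ne
      have h4 : Integrable (fun x => ((wT T x).toReal : ℂ))
          ((volume : Measure (X (s + 2))).restrict (UAdj_A (s + 2))) := h3.ofReal
      exact h4.mul_bdd (hHm _).aestronglyMeasurable (Filter.Eventually.of_forall (hHb _))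
  rw [hsum] at key
  have hI0 : (I : ℂ) ≠ 0 := by exact_mod_cast hIpos.ne'
  rw [map_mul, Complex.conj_ofReal, ← mul_assoc] at key
  exact mul_right_cancel₀ hI0 key

theorem adj_rel {s N : ℕ} (hN : 0 < N) {χ : DirichletCharacter ℂ N}
    {f : Matrix (Fin (s + 2)) (Fin (s + 2)) ℝ → ℂ} (hf : IsCuspForm N χ f)
    (hne : ∃ g, 0 < g.det ∧ f g ≠ 0) {p : ℕ} (hp : p.Prime) (hpN : ¬ p ∣ N) (e : ℕ → ℂ)
    (he : ∀ k : ℕ, 1 ≤ k → k ≤ s + 2 → ∀ g, 0 < g.det → hecke χ p k f g =
      (Real.sqrt p : ℂ) ^ (k * (s + 2 - k)) * e k * f g) :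
    e (s + 2) = conj (χ p) ∧ ∀ k : ℕ, 1 ≤ k → k < s + 2 →
      e k = conj (χ p) * conj (e (s + 2 - k)) := by
  have hs : (Real.sqrt p : ℂ) ≠ 0 := by
    have : (0 : ℝ) < p := by exact_mod_cast hp.pos
    exact_mod_cast (Real.sqrt_pos.2 this).ne'
  refine ⟨?_, fun k hk1 hk2 => ?_⟩
  · have h1 := UAdj_last (c := (Real.sqrt p : ℂ) ^ ((s + 2) * (s + 2 - (s + 2))) * e (s + 2))
      hf hne hp (fun g hg => he (s + 2) (by omega) le_rfl g hg)
    rw [Nat.sub_self, mul_zero, pow_zero, one_mul] at h1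
    exact h1
  · have h1 := fun g hg => he k hk1 hk2.le g hg
    have h2 := fun g hg => he (s + 2 - k) (by omega) (by omega) g hg
    have h3 : (s + 2 - k) * (s + 2 - (s + 2 - k)) = k * (s + 2 - k) := by
      have : s + 2 - (s + 2 - k) = k := by omega
      rw [this, mul_comm]
    rw [h3] at h2
    have hsk : (Real.sqrt p : ℂ) ^ (k * (s + 2 - k)) ≠ 0 := pow_ne_zero _ hs
    have hcs : conj ((Real.sqrt p : ℂ) ^ (k * (s + 2 - k))) =
        (Real.sqrt p : ℂ) ^ (k * (s + 2 - k)) := by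
      rw [map_pow, Complex.conj_ofReal]
    have k1 := UAdj_core hN hf hne hp hpN hk2.le h1 h2 (a := 1) (b := 1) (by simp) (by simp)
    by_cases h4 : 2 * k = s + 2
    · have h5 : s + 2 - k = k := by omega
      rw [if_pos h4] at k1
      rw [one_mul, map_mul, hcs] at k1
      rw [h5] at k1 hsk ⊢
      apply mul_left_cancel₀ hsk
      linear_combination k1
    · have k2 := UAdj_core hN hf hne hp hpN hk2.le h1 h2 (a := Complex.I) (b := -Complex.I)
        (by simp) (fun h => absurd h h4)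
      rw [if_neg h4] at k1 k2
      simp only [map_add, map_mul, hcs, map_one, map_neg, Complex.conj_I] at k1 k2
      have h6 : (2 : ℂ) * (Real.sqrt p : ℂ) ^ (k * (s + 2 - k)) ≠ 0 :=
        mul_ne_zero two_ne_zero hsk
      apply mul_left_cancel₀ h6
      linear_combination k1 - Complex.I * k2 -
        (-((Real.sqrt p : ℂ) ^ (k * (s + 2 - k)) * e k) +
          (Real.sqrt p : ℂ) ^ (k * (s + 2 - k)) * e (s + 2 - k) -
          conj (χ p) * (Real.sqrt p : ℂ) ^ (k * (s + 2 - k)) * conj (e k) +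
          conj (χ p) * (Real.sqrt p : ℂ) ^ (k * (s + 2 - k)) * conj (e (s + 2 - k))) *
          Complex.I_mul_I

/-- The polynomial with given elementary symmetric functions. -/
theorem UAdj_prod_eq {n : ℕ} {β β' : Fin n → ℂ} (h : esv β = esv β') :
    (∏ i, (Polynomial.X - Polynomial.C (β i)) : Polynomial ℂ) =
      ∏ i, (Polynomial.X - Polynomial.C (β' i)) := by
  have hm : ∀ γ : Fin n → ℂ,
      (∏ i, (Polynomial.X - Polynomial.C (γ i)) : Polynomial ℂ).Monic := fun γ =>
    Polynomial.monic_prod_of_monic _ _ fun i _ => Polynomial.monic_X_sub_C _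
  have hd : ∀ γ : Fin n → ℂ,
      (∏ i, (Polynomial.X - Polynomial.C (γ i)) : Polynomial ℂ).natDegree = n := by
    intro γ
    rw [Polynomial.natDegree_prod_of_monic _ _ (fun i _ => Polynomial.monic_X_sub_C _)]
    simp
  ext j
  rcases lt_trichotomy j n with hj | hj | hj
  · have h1 := coeff_prod_roots β ⟨n - (j + 1), by omega⟩
    have h2 := coeff_prod_roots β' ⟨n - (j + 1), by omega⟩
    rw [h, ← h2] at h1
    have h3 : n - ((n - (j + 1)) + 1) = j := by omega
    simp only [h3] at h1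
    exact mul_left_cancel₀ (pow_ne_zero _ (by norm_num)) h1
  · subst hj
    have h1 := (hm β).coeff_natDegree
    have h2 := (hm β').coeff_natDegree
    rw [hd] at h1 h2
    rw [h1, h2]
  · rw [Polynomial.coeff_eq_zero_of_natDegree_lt (by rw [hd]; exact hj),
      Polynomial.coeff_eq_zero_of_natDegree_lt (by rw [hd]; exact hj)]

theorem UAdj_pow_sum {n : ℕ} {β β' : Fin n → ℂ} (h : esv β = esv β') (k : ℕ) :
    ∑ i, β i ^ k = ∑ i, β' i ^ k := by
  have h1 := UAdj_prod_eq h
  have h2 : ∀ γ : Fin n → ℂ, (∏ i, (Polynomial.X - Polynomial.C (γ i)) : Polynomial ℂ).roots =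
      (Finset.univ : Finset (Fin n)).val.map γ := by
    intro γ
    have h3 : (∏ i, (Polynomial.X - Polynomial.C (γ i)) : Polynomial ℂ) =
        (((Finset.univ : Finset (Fin n)).val.map γ).map
          fun r => Polynomial.X - Polynomial.C r).prod := by
      rw [Multiset.map_map]
      rfl
    rw [h3, Polynomial.roots_multiset_prod_X_sub_C]
  have h3 := congrArg (fun q : Polynomial ℂ => (q.roots.map fun z => z ^ k).sum) h1
  simp only [h2, Multiset.map_map] at h3
  exact h3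

/-- Unitarity of the Satake matrix in terms of traces: `e_k (conj B) = e_{n-k}(B)/e_n(B) =
e_k (B⁻¹)` for all `k`, so the matrices `conj B` and `B⁻¹` have the same characteristic polynomial
(`emx_inv`), hence the same traces of powers (`exists_roots`). -/
theorem unitary_trace {s : ℕ} {B : Matrix (Fin (s + 2)) (Fin (s + 2)) ℂ} {ξ : ℂ} (hξ : ‖ξ‖ = 1)
    (h1 : emx B (Fin.last (s + 1)) = ξ)
    (h2 : ∀ i : Fin (s + 1), emx B i.castSucc = ξ * conj (emx B i.rev.castSucc)) (k : ℕ) :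
    conj ((B ^ k).trace) = (B⁻¹ ^ k).trace := by
  have hξc : conj ξ * ξ = 1 := by
    rw [Complex.conj_mul', hξ]
    norm_num
  have hξ0 : ξ ≠ 0 := by
    rintro rfl
    simp at hξ
  obtain ⟨β, h3, h4⟩ := exists_roots B
  obtain ⟨β', h5, h6⟩ := exists_roots B⁻¹
  have hdet : B.det = ξ := by
    rw [← emx_last]
    exact h1
  have hd0 : B.det ≠ 0 := by
    rw [hdet]
    exact hξ0
  have key : esv (fun i => conj (β i)) = esv β' := by
    rw [← h5]
    have h7 : ∀ j, esv (fun i => conj (β i)) j = conj (emx B j) := by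
      intro j
      rw [h3]
      unfold esv es
      rw [map_sum]
      refine Finset.sum_congr rfl fun S _ => ?_
      rw [map_prod]
    funext j
    rw [h7]
    refine Fin.lastCases ?_ (fun i => ?_) j
    · rw [h1, emx_inv_last B hd0, hdet]
      exact eq_inv_of_mul_eq_one_left hξc
    · rw [emx_inv B hd0, hdet, h2, map_mul, Complex.conj_conj, eq_div_iff hξ0]
      linear_combination emx B i.rev.castSucc * hξc
  rw [h4, map_sum]
  simp only [map_pow]
  rw [h6]
  exact UAdj_pow_sum key k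

end Pool.Agent.GL74
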