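import Pool.Agent.W_7742x_h74.WSub
import Pool.Agent.W_7742x_h74.XDl

/-! # Hermite normal forms for the elementary divisors `1, p`

Integral matrices `δ` (size `n = s + 1`) with positive determinant such that `δ δ' = p` for an
integral matrix `δ'`.

* `exists_hnf` (existence of `γ ∈ SL_n (ℤ)`, `S`, `b ∈ bs p S` with `δ = γ · dlz p S b`): induction
  on the size.  Size `1`: `δ = (d)`, `d ∈ {1, p}`.  Size `s + 2`: the row lattice `L = ℤ^n δ`
  contains `p ℤ^n`; `L ∩ ℚ e_0 = ℤ d e_0` with `d ∣ p`, `d > 0`; `d e_0 = u δ` with `u` primitive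
  (`u` is divisible by `m` only if `d e_0 / m ∈ L`); let `γ₁ ∈ SL_n (ℤ)` have first row `u`
  (`exists_row`), then `γ₁ δ = (d 0; * δ₁)`, `det δ₁ > 0`, `δ₁ δ₁' = p` (the inverse of a block
  triangular matrix); by induction `δ₁ = γ₂ · dlz p S₁ b₁`, so
  `(1 0; 0 γ₂)⁻¹ γ₁ δ = (d 0; c dlz p S₁ b₁)`; multiply by `(1 0; ℓ 1)` to get `0 ≤ c_i < d`.  If
  `d = 1`, `c = 0`.  If `d = p` and `i ∈ S₁` then row `i + 1` is `c_i e_0 + p e_{i+1}`, so
  `c_i e_0 ∈ L`, `p ∣ c_i`, `c_i = 0`.
* `unique_hnf`: if `γ dlz p S b = dlz p S' b'`, `γ` is lower triangular (the matrices are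
  invertible and lower triangular) with positive integral diagonal entries of product one, so
  unipotent, `S = S'`; compare the entries below the diagonal (by induction on `i - j`, or: the
  difference of rows `i` of `dlz p S b'` and `dlz p S b` is a combination of the rows `j < i`; look
  at the last nonzero coefficient `x` of the combination, at position `j`: the difference at
  column `j` is `x δ_jj`; if `j ∉ S` both entries are `0`, and if `j ∈ S` the difference is less
  than `p` in absolute value).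
* `det_dlz`. -/

set_option autoImplicit false

noncomputable section

namespace Pool.Agent.GL74

open scoped MatrixGroups

/-- The integral matrix `dl`. -/
def dlz {n : ℕ} (p : ℕ) (S : Finset (Fin n)) (b : Fin n → Fin n → ℕ) :
    Matrix (Fin n) (Fin n) ℤ :=
  Matrix.of fun i j => if i = j then (if i ∈ S then (p : ℤ) else 1) else (b i j : ℤ)

theorem URep_lower {n : ℕ} (p : ℕ) (S : Finset (Fin n)) {b : Fin n → Fin n → ℕ} (hb : b ∈ bs p S)
    {i j : Fin n} (hij : i < j) : dlz p S b i j = 0 := by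
  rw [XDl_mem_bs] at hb
  have := hb i j
  rw [if_neg (fun h => absurd h.1 (not_lt.mpr hij.le)), Finset.mem_singleton] at this
  simp [dlz, hij.ne, this]

/-- The block matrix `(d 0; c A)`. -/
def URep_bl {s : ℕ} (d : ℤ) (c : Fin s → ℤ) (A : Matrix (Fin s) (Fin s) ℤ) :
    Matrix (Fin (s + 1)) (Fin (s + 1)) ℤ :=
  Matrix.of (Fin.cons (Fin.cons d 0) fun i => Fin.cons (c i) (A i))

theorem URep_bl_eq {s : ℕ} (M : Matrix (Fin (s + 1)) (Fin (s + 1)) ℤ)
    (hM : ∀ j : Fin s, M 0 j.succ = 0) :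
    M = URep_bl (M 0 0) (fun i => M i.succ 0) (M.submatrix Fin.succ Fin.succ) := by
  ext i j
  refine Fin.cases ?_ (fun i => ?_) i
  · refine Fin.cases rfl (fun j => ?_) j
    exact hM j
  · refine Fin.cases rfl (fun j => ?_) j
    rfl

theorem URep_bl_inj {s : ℕ} {d d' : ℤ} {c c' : Fin s → ℤ} {A A' : Matrix (Fin s) (Fin s) ℤ}
    (h : URep_bl d c A = URep_bl d' c' A') : d = d' ∧ c = c' ∧ A = A' := by
  refine ⟨congrFun (congrFun h 0) 0, funext fun i => congrFun (congrFun h i.succ) 0, ?_⟩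
  ext i j
  exact congrFun (congrFun h i.succ) j.succ

theorem URep_det_bl {s : ℕ} (d : ℤ) (c : Fin s → ℤ) (A : Matrix (Fin s) (Fin s) ℤ) :
    (URep_bl d c A).det = d * A.det := by
  rw [XGlu_row _ fun i => rfl]
  rfl

theorem URep_pm_bl {s : ℕ} (ℓ : Fin s → ℤ) (γ : SL(s, ℤ)) (d : ℤ) (c : Fin s → ℤ)
    (A : Matrix (Fin s) (Fin s) ℤ) :
    (pm ℓ γ).1 * URep_bl d c A = URep_bl d (fun i => ℓ i * d + ∑ k, γ.1 i k * c k) (γ.1 * A) := by
  ext i j
  rw [Matrix.mul_apply, Fin.sum_univ_succ]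
  refine Fin.cases ?_ (fun i => ?_) i
  · refine Fin.cases ?_ (fun j => ?_) j
    · show (1 : ℤ) * d + ∑ k : Fin s, (0 : ℤ) * c k = d
      simp
    · show (1 : ℤ) * 0 + ∑ k : Fin s, (0 : ℤ) * A k j = 0
      simp
  · refine Fin.cases ?_ (fun j => ?_) j
    · rfl
    · show ℓ i * 0 + ∑ k : Fin s, γ.1 i k * A k j = (γ.1 * A) i j
      rw [mul_zero, zero_add, Matrix.mul_apply]

theorem URep_dlz {s : ℕ} (p : ℕ) (S : Finset (Fin (s + 1))) (b₁ : Fin s → ℕ)
    (b' : Fin s → Fin s → ℕ) :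
    dlz p S (XDl_mk b₁ b') = URep_bl (if (0 : Fin (s + 1)) ∈ S then (p : ℤ) else 1)
      (fun i => (b₁ i : ℤ)) (dlz p (tl S) b') := by
  ext i j
  refine Fin.cases ?_ (fun i => ?_) i
  · refine Fin.cases ?_ (fun j => ?_) j
    · simp [dlz, URep_bl]
    · have h : (0 : Fin (s + 1)) ≠ j.succ := (Fin.succ_ne_zero j).symm
      simp [dlz, URep_bl, XDl_mk, h]
  · refine Fin.cases ?_ (fun j => ?_) j
    · simp [dlz, URep_bl, XDl_mk]
    · simp [dlz, URep_bl, XDl_mk, XDl_mem_tl]

theorem URep_comm {n : ℕ} {δ δ' : Matrix (Fin n) (Fin n) ℤ} {p : ℤ} (h : δ * δ' = p • 1)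
    (hdet : δ.det ≠ 0) : δ' * δ = p • 1 := by
  have h1 : δ * (δ' * δ - p • 1) = 0 := by
    rw [mul_sub, ← mul_assoc, h, smul_mul_assoc, one_mul, mul_smul_comm, mul_one, sub_self]
  have h2 : δ.adjugate * (δ * (δ' * δ - p • 1)) = δ.det • (δ' * δ - p • 1) := by
    rw [← mul_assoc, Matrix.adjugate_mul]
    simp
  rw [h1, mul_zero] at h2
  have h3 := (smul_eq_zero.1 h2.symm).resolve_left hdet
  exact sub_eq_zero.1 h3

/-- One step. -/
theorem URep_step {s p : ℕ} (hp : p.Prime)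
    (ih : ∀ δ δ' : Matrix (Fin s) (Fin s) ℤ, δ * δ' = (p : ℤ) • 1 → 0 < δ.det →
      ∃ (γ : SL(s, ℤ)) (S : Finset (Fin s)) (b : Fin s → Fin s → ℕ),
      b ∈ bs p S ∧ δ = γ.1 * dlz p S b)
    (M M' : Matrix (Fin (s + 1)) (Fin (s + 1)) ℤ) (h : M * M' = (p : ℤ) • 1)
    (hdet : 0 < M.det) (hM : ∀ j : Fin s, M 0 j.succ = 0) (hM0 : 0 < M 0 0) :
    ∃ (γ : SL(s + 1, ℤ)) (S : Finset (Fin (s + 1))) (b : Fin (s + 1) → Fin (s + 1) → ℕ),
      b ∈ bs p S ∧ M = γ.1 * dlz p S b := by
  have hp0 : (0 : ℤ) < p := by exact_mod_cast hp.pos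
  set d := M 0 0 with hd
  set c : Fin s → ℤ := fun i => M i.succ 0 with hc
  set A := M.submatrix Fin.succ Fin.succ with hA
  have hMb : M = URep_bl d c A := URep_bl_eq M hM
  have hdetA : 0 < A.det := by
    rw [hMb, URep_det_bl] at hdet
    exact (mul_pos_iff_of_pos_left hM0).1 hdet
  have hrow0 : ∀ j, d * M' 0 j = (p : ℤ) * (1 : Matrix (Fin (s + 1)) (Fin (s + 1)) ℤ) 0 j := by
    intro j
    have h1 := congrFun (congrFun h 0) j
    rw [Matrix.mul_apply, Fin.sum_univ_succ, Finset.sum_eq_zero fun k _ => by rw [hM k, zero_mul],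
      add_zero] at h1
    exact h1
  have hy : ∀ j : Fin s, M' 0 j.succ = 0 := by
    intro j
    have h1 := hrow0 j.succ
    rw [Matrix.one_apply_ne (Fin.succ_ne_zero j).symm, mul_zero] at h1
    exact (mul_eq_zero.1 h1).resolve_left hM0.ne'
  have hdp : d * M' 0 0 = p := by
    have h1 := hrow0 0
    rwa [Matrix.one_apply_eq, mul_one] at h1
  have hAA : A * (M'.submatrix Fin.succ Fin.succ) = (p : ℤ) • 1 := by
    ext i j
    have h1 := congrFun (congrFun h i.succ) j.succ
    rw [Matrix.mul_apply, Fin.sum_univ_succ, hy j, mul_zero, zero_add] at h1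
    rw [Matrix.mul_apply]
    refine Eq.trans h1 ?_
    simp [Matrix.one_apply]
  obtain ⟨γ₂, S₁, b₁, hb₁, hA'⟩ := ih A _ hAA hdetA
  -- `d = 1` or `d = p`
  have hd1 : d = 1 ∨ d = p := by
    obtain ⟨a, ha⟩ := Int.eq_ofNat_of_zero_le hM0.le
    have h1 : (a : ℤ) ∣ p := ⟨M' 0 0, by rw [← ha]; exact hdp.symm⟩
    have h2 : a ∣ p := by exact_mod_cast h1
    rcases (Nat.dvd_prime hp).1 h2 with h3 | h3
    · left
      rw [ha, h3]
      rfl
    · right
      rw [ha, h3]
  -- the first column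
  set c' : Fin s → ℤ := fun i => ∑ k, (γ₂⁻¹).1 i k * c k with hc'
  have hcc' : ∀ i, ∑ k, γ₂.1 i k * c' k = c i := by
    intro i
    have h1 : γ₂.1 * (γ₂⁻¹).1 = 1 := by
      have h2 : (γ₂ * γ₂⁻¹).1 = 1 := by rw [mul_inv_cancel]; rfl
      exact h2
    have h2 : γ₂.1.mulVec ((γ₂⁻¹).1.mulVec c) = c := by
      rw [Matrix.mulVec_mulVec, h1, Matrix.one_mulVec]
    exact congrFun h2 i
  set q : Fin s → ℤ := fun i => c' i / d with hq
  set c'' : Fin s → ℤ := fun i => c' i % d with hc''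
  set ℓ : Fin s → ℤ := fun i => ∑ k, γ₂.1 i k * q k with hℓ
  have hM1 : M = (pm ℓ γ₂).1 * URep_bl d c'' (dlz p S₁ b₁) := by
    rw [URep_pm_bl, ← hA', hMb]
    congr 1
    funext i
    rw [← hcc' i, hℓ]
    simp only
    rw [Finset.sum_mul, ← Finset.sum_add_distrib]
    refine Finset.sum_congr rfl fun k _ => ?_
    have h1 : c' k = d * q k + c'' k := (Int.mul_ediv_add_emod (c' k) d).symm
    rw [h1]
    ring
  have hc0 : ∀ i, 0 ≤ c'' i := fun i => Int.emod_nonneg _ hM0.ne'
  have hcd : ∀ i, c'' i < d := fun i => Int.emod_lt_of_pos _ hM0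
  -- the matrix without the unit factor divides `p`
  have hD : URep_bl d c'' (dlz p S₁ b₁) * (M' * (pm ℓ γ₂).1) = (p : ℤ) • 1 := by
    have h1 : ((pm ℓ γ₂)⁻¹).1 * (pm ℓ γ₂).1 = 1 := by
      have h2 : ((pm ℓ γ₂)⁻¹ * (pm ℓ γ₂)).1 = 1 := by rw [inv_mul_cancel]; rfl
      exact h2
    have h3 : URep_bl d c'' (dlz p S₁ b₁) = ((pm ℓ γ₂)⁻¹).1 * M := by
      rw [hM1, ← mul_assoc, h1, one_mul]
    rw [h3, mul_assoc, ← mul_assoc M, h, smul_mul_assoc, one_mul, mul_smul_comm, h1]
  have hcol : ∀ i ∈ S₁, d = p → c'' i = 0 := by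
    intro i hi hdp'
    set N := M' * (pm ℓ γ₂).1 with hN
    have h00 : N 0 0 = 1 := by
      have h1 := congrFun (congrFun hD 0) 0
      rw [Matrix.mul_apply, Fin.sum_univ_succ] at h1
      have h2 : ∀ k : Fin s, URep_bl d c'' (dlz p S₁ b₁) 0 k.succ = 0 := fun k => rfl
      rw [Finset.sum_eq_zero fun k _ => by rw [h2 k, zero_mul], add_zero] at h1
      have h3 : URep_bl d c'' (dlz p S₁ b₁) 0 0 = p := hdp'
      rw [h3] at h1
      have h4 : ((p : ℤ) • (1 : Matrix (Fin (s + 1)) (Fin (s + 1)) ℤ)) 0 0 = p := by simp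
      rw [h4] at h1
      exact mul_left_cancel₀ hp0.ne' (h1.trans (mul_one _).symm)
    have h1 := congrFun (congrFun hD i.succ) 0
    rw [Matrix.mul_apply, Fin.sum_univ_succ, h00] at h1
    have h2 : ∀ k : Fin s, URep_bl d c'' (dlz p S₁ b₁) i.succ k.succ = dlz p S₁ b₁ i k :=
      fun k => rfl
    have h3 : URep_bl d c'' (dlz p S₁ b₁) i.succ 0 = c'' i := rfl
    have h4 : ((p : ℤ) • (1 : Matrix (Fin (s + 1)) (Fin (s + 1)) ℤ)) i.succ 0 = 0 := by
      simp
    rw [h3, h4, mul_one] at h1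
    have h5 : ∀ k, k ≠ i → dlz p S₁ b₁ i k = 0 := by
      intro k hk
      rw [XDl_mem_bs] at hb₁
      have := hb₁ i k
      rw [if_neg (fun h => h.2.2 hi), Finset.mem_singleton] at this
      simp [dlz, hk.symm, this]
    have h6 : dlz p S₁ b₁ i i = p := by simp [dlz, hi]
    have h7 : ∑ k : Fin s, URep_bl d c'' (dlz p S₁ b₁) i.succ k.succ * N k.succ 0 =
        (p : ℤ) * N i.succ 0 := by
      rw [Finset.sum_eq_single i]
      · rw [h2, h6]
      · intro k _ hk
        rw [h2, h5 k hk, zero_mul]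
      · intro hh
        exact absurd (Finset.mem_univ i) hh
    rw [h7] at h1
    have h8 : (p : ℤ) ∣ c'' i := ⟨-N i.succ 0, by linear_combination h1⟩
    have h9 := hcd i
    rw [hdp'] at h9
    exact Int.eq_zero_of_dvd_of_nonneg_of_lt (hc0 i) h9 h8
  -- assembly
  obtain ⟨S, hS0, hS1⟩ : ∃ S : Finset (Fin (s + 1)), ((0 : Fin (s + 1)) ∈ S ↔ d = p) ∧
      tl S = S₁ := by
    by_cases hdp' : d = p
    · refine ⟨insert 0 (S₁.map (Fin.succEmb s)), by simp [hdp'], ?_⟩
      ext i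
      rw [XDl_mem_tl]
      simp
    · refine ⟨S₁.map (Fin.succEmb s), by simp [hdp'], ?_⟩
      ext i
      rw [XDl_mem_tl]
      simp
  refine ⟨pm ℓ γ₂, S, XDl_mk (fun i => (c'' i).toNat) b₁, XDl_mk_mem (fun i => ?_) (by rw [hS1]; exact hb₁), ?_⟩
  · rw [hS1]
    split_ifs with hcond
    · rw [Finset.mem_range]
      have h1 := hcd i
      have h2 := hc0 i
      rw [hS0.1 hcond.1] at h1
      omega
    · rw [Finset.mem_singleton]
      have h1 : c'' i = 0 := by
        rcases hd1 with h2 | h2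
        · have h3 := hcd i
          have h4 := hc0 i
          omega
        · refine hcol i ?_ h2
          by_contra hi
          exact hcond ⟨hS0.2 h2, hi⟩
      rw [h1]
      rfl
  · rw [URep_dlz, hS1]
    have h1 : (if (0 : Fin (s + 1)) ∈ S then (p : ℤ) else 1) = d := by
      rcases hd1 with h2 | h2
      · rw [if_neg, h2]
        rw [hS0, h2]
        intro h3
        have := hp.one_lt
        omega
      · rw [if_pos (hS0.2 h2), h2]
    have h2 : (fun i => (((c'' i).toNat : ℕ) : ℤ)) = c'' := by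
      funext i
      exact Int.toNat_of_nonneg (hc0 i)
    rw [h1, h2]
    exact hM1

theorem map_dlz {n : ℕ} (p : ℕ) (S : Finset (Fin n)) (b : Fin n → Fin n → ℕ) :
    (dlz p S b).map (fun a : ℤ => (a : ℝ)) = dl p S b := by
  ext i j
  rw [Matrix.map_apply]
  unfold dlz dl
  rw [Matrix.of_apply, Matrix.of_apply]
  split_ifs <;> simp

theorem det_dlz {n : ℕ} (p : ℕ) (S : Finset (Fin n)) {b : Fin n → Fin n → ℕ} (hb : b ∈ bs p S) :
    (dlz p S b).det = (p : ℤ) ^ S.card := by
  rw [Matrix.det_of_isLowerTriangular _ (fun i j hij => URep_lower p S hb hij)]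
  simp [dlz]

/-- The matrices `dlz` divide `p`. -/
theorem exists_dlz' {n : ℕ} (p : ℕ) (S : Finset (Fin n)) {b : Fin n → Fin n → ℕ}
    (hb : b ∈ bs p S) : ∃ δ' : Matrix (Fin n) (Fin n) ℤ, dlz p S b * δ' = (p : ℤ) • 1 := by
  refine ⟨Matrix.of fun i j => if i = j then (if i ∈ S then (1 : ℤ) else p) else -(b i j : ℤ), ?_⟩
  rw [XDl_mem_bs] at hb
  have hb1 : ∀ i j, i ∈ S → b i j = 0 := by
    intro i j hi
    have := hb i j
    rwa [if_neg (fun h => h.2.2 hi), Finset.mem_singleton] at this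
  have hb2 : ∀ i j, j ∉ S → b i j = 0 := by
    intro i j hj
    have := hb i j
    rwa [if_neg (fun h => hj h.2.1), Finset.mem_singleton] at this
  have hb3 : ∀ i, b i i = 0 := by
    intro i
    have := hb i i
    rwa [if_neg (fun h => lt_irrefl _ h.1), Finset.mem_singleton] at this
  have hD : dlz p S b = Matrix.diagonal (fun i => if i ∈ S then (p : ℤ) else 1) +
      Matrix.of fun i j => (b i j : ℤ) := by
    ext i j
    rw [Matrix.add_apply, Matrix.diagonal_apply]
    unfold dlz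
    rw [Matrix.of_apply, Matrix.of_apply]
    split_ifs with h1 h2
    · rw [← h1, hb3]
      simp
    · rw [← h1, hb3]
      simp
    · simp
  have hD' : (Matrix.of fun i j => if i = j then (if i ∈ S then (1 : ℤ) else p) else
      -(b i j : ℤ)) = Matrix.diagonal (fun i => if i ∈ S then (1 : ℤ) else p) -
      Matrix.of fun i j => (b i j : ℤ) := by
    ext i j
    rw [Matrix.sub_apply, Matrix.diagonal_apply]
    rw [Matrix.of_apply, Matrix.of_apply]
    split_ifs with h1 h2
    · rw [← h1, hb3]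
      simp
    · rw [← h1, hb3]
      simp
    · simp
  rw [hD, hD', add_mul, mul_sub, mul_sub, Matrix.diagonal_mul_diagonal]
  have h1 : (Matrix.of fun i j => (b i j : ℤ)) * (Matrix.of fun i j => (b i j : ℤ)) =
      (0 : Matrix (Fin n) (Fin n) ℤ) := by
    ext i j
    rw [Matrix.mul_apply, Matrix.zero_apply]
    refine Finset.sum_eq_zero fun k _ => ?_
    rw [Matrix.of_apply, Matrix.of_apply]
    by_cases hk : k ∈ S
    · rw [hb1 k j hk]
      simp
    · rw [hb2 i k hk]
      simp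
  have h2 : Matrix.diagonal (fun i => if i ∈ S then (p : ℤ) else 1) *
      (Matrix.of fun i j => (b i j : ℤ)) = Matrix.of fun i j => (b i j : ℤ) := by
    ext i j
    rw [Matrix.diagonal_mul, Matrix.of_apply]
    split_ifs with h
    · rw [hb1 i j h]
      simp
    · rw [one_mul]
  have h3 : (Matrix.of fun i j => (b i j : ℤ)) *
      Matrix.diagonal (fun i => if i ∈ S then (1 : ℤ) else p) =
      Matrix.of fun i j => (b i j : ℤ) := by
    ext i j
    rw [Matrix.mul_diagonal, Matrix.of_apply]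
    split_ifs with h
    · rw [mul_one]
    · rw [hb2 i j h]
      simp
  rw [h1, h2, h3]
  have h4 : (fun i => (if i ∈ S then (p : ℤ) else 1) * (if i ∈ S then (1 : ℤ) else p)) =
      fun _ => (p : ℤ) := by
    funext i
    split_ifs <;> ring
  rw [h4, sub_zero, sub_add_cancel, Matrix.smul_one_eq_diagonal]

theorem exists_hnf {s p : ℕ} (hp : p.Prime) (δ δ' : Matrix (Fin (s + 1)) (Fin (s + 1)) ℤ)
    (h : δ * δ' = (p : ℤ) • 1) (hdet : 0 < δ.det) :
    ∃ (γ : SL(s + 1, ℤ)) (S : Finset (Fin (s + 1))) (b : Fin (s + 1) → Fin (s + 1) → ℕ),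
      b ∈ bs p S ∧ δ = γ.1 * dlz p S b := by
  induction s with
  | zero =>
    have hd : δ.det = δ 0 0 := Matrix.det_fin_one _
    have h1 := congrFun (congrFun h 0) 0
    rw [Matrix.mul_apply, Fin.sum_univ_one] at h1
    have h2 : ((p : ℤ) • (1 : Matrix (Fin (0 + 1)) (Fin (0 + 1)) ℤ)) 0 0 = p := by simp
    rw [h2] at h1
    rw [hd] at hdet
    exact URep_step hp (fun δ _ _ _ => ⟨1, ∅, fun i => i.elim0, by
      rw [XDl_mem_bs]
      intro i
      exact i.elim0, by
      ext i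
      exact i.elim0⟩) δ δ' h (by rw [hd]; exact hdet) (fun j => j.elim0) hdet
  | succ s ih =>
    have hdet0 : δ.det ≠ 0 := hdet.ne'
    have hcomm := URep_comm h hdet0
    have hp0 : (0 : ℤ) < p := by exact_mod_cast hp.pos
    -- the first row of `δ'`
    have hw : ∀ j, ∑ k, δ' 0 k * δ k j =
        (p : ℤ) * (1 : Matrix (Fin (s + 2)) (Fin (s + 2)) ℤ) 0 j := by
      intro j
      have h1 := congrFun (congrFun hcomm 0) j
      rw [Matrix.mul_apply] at h1
      exact h1
    have hw0 : (fun k => δ' 0 k) ≠ 0 := by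
      intro h0
      have h1 := hw 0
      have h2 : ∀ k, δ' 0 k = 0 := fun k => congrFun h0 k
      simp only [h2, zero_mul, Finset.sum_const_zero, Matrix.one_apply_eq, mul_one] at h1
      omega
    obtain ⟨d₀, u, hd₀, hu, hwu⟩ := WPrm_gcd hw0
    have hu1 : ∀ j, d₀ * ∑ k, u k * δ k j =
        (p : ℤ) * (1 : Matrix (Fin (s + 2)) (Fin (s + 2)) ℤ) 0 j := by
      intro j
      rw [← hw j, Finset.mul_sum]
      refine Finset.sum_congr rfl fun k _ => ?_
      have h1 : δ' 0 k = d₀ * u k := hwu k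
      rw [h1]
      ring
    obtain ⟨γ₁, hγ₁⟩ := exists_row hu
    have hrow : ∀ j, (γ₁.1 * δ) 0 j = ∑ k, u k * δ k j := by
      intro j
      rw [Matrix.mul_apply]
      exact Finset.sum_congr rfl fun k _ => by rw [hγ₁ k]
    have hprod : (γ₁.1 * δ) * (δ' * (γ₁⁻¹).1) = (p : ℤ) • 1 := by
      have h1 : γ₁.1 * (γ₁⁻¹).1 = 1 := by
        have h2 : (γ₁ * γ₁⁻¹).1 = 1 := by rw [mul_inv_cancel]; rfl
        exact h2
      rw [mul_assoc, ← mul_assoc δ, h, smul_mul_assoc, one_mul, mul_smul_comm, h1]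
    obtain ⟨γ, S, b, hb, hM⟩ := URep_step hp (fun δ δ' h hdet => ih δ δ' h hdet) (γ₁.1 * δ)
      (δ' * (γ₁⁻¹).1) hprod (by rw [Matrix.det_mul, γ₁.2, one_mul]; exact hdet)
      (fun j => by
        rw [hrow]
        have h1 := hu1 j.succ
        rw [Matrix.one_apply_ne (Fin.succ_ne_zero j).symm, mul_zero] at h1
        exact (mul_eq_zero.1 h1).resolve_left hd₀.ne')
      (by
        rw [hrow]
        have h1 := hu1 0
        rw [Matrix.one_apply_eq, mul_one] at h1
        exact (mul_pos_iff_of_pos_left hd₀).1 (by rw [h1]; exact hp0))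
    refine ⟨γ₁⁻¹ * γ, S, b, hb, ?_⟩
    have h1 : (γ₁⁻¹).1 * γ₁.1 = 1 := by
      have h2 : (γ₁⁻¹ * γ₁).1 = 1 := by rw [inv_mul_cancel]; rfl
      exact h2
    have h2 : (γ₁⁻¹ * γ).1 = (γ₁⁻¹).1 * γ.1 := rfl
    rw [h2, mul_assoc, ← hM, ← mul_assoc, h1, one_mul]

theorem URep_unique {p : ℕ} (hp : p.Prime) : ∀ (n : ℕ) (ρ : SL(n, ℤ))
    (S S' : Finset (Fin n)) (b b' : Fin n → Fin n → ℕ), b ∈ bs p S → b' ∈ bs p S' →
    ρ.1 * dlz p S b = dlz p S' b' → ρ = 1 ∧ S = S' ∧ b = b' := by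
  intro n
  induction n with
  | zero =>
    intro ρ S S' b b' _ _ _
    refine ⟨?_, ?_, ?_⟩
    · apply Subtype.ext
      ext i
      exact i.elim0
    · ext i
      exact i.elim0
    · funext i
      exact i.elim0
  | succ s ih =>
    intro ρ S S' b b' hb hb' h
    have hp0 : (0 : ℤ) < p := by exact_mod_cast hp.pos
    have hp1 : (1 : ℤ) < p := by exact_mod_cast hp.one_lt
    have hb1 := XDl_left hb
    have hb1' := XDl_left hb'
    have hlr := XDl_lr hb
    have hlr' := XDl_lr hb'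
    set d : ℤ := if (0 : Fin (s + 1)) ∈ S then (p : ℤ) else 1 with hd
    set d' : ℤ := if (0 : Fin (s + 1)) ∈ S' then (p : ℤ) else 1 with hd'
    have hd0 : 0 < d := by rw [hd]; split_ifs <;> omega
    have hd0' : 0 < d' := by rw [hd']; split_ifs <;> omega
    rw [← hb1, ← hb1', URep_dlz, URep_dlz, ← hd, ← hd'] at h
    set A := dlz p (tl S) fun i j => b i.succ j.succ with hA
    set A' := dlz p (tl S') fun i j => b' i.succ j.succ with hA'
    have hAdet : A.det ≠ 0 := by
      rw [hA, det_dlz p _ hlr]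
      exact pow_ne_zero _ hp0.ne'
    -- the first row of `ρ`
    have hr : ∀ j : Fin s, ∑ k : Fin s, ρ.1 0 k.succ * A k j = 0 := by
      intro j
      have h1 := congrFun (congrFun h 0) j.succ
      rw [Matrix.mul_apply, Fin.sum_univ_succ] at h1
      have h2 : URep_bl d (fun i => (b i.succ 0 : ℤ)) A 0 j.succ = 0 := rfl
      rw [h2, mul_zero, zero_add] at h1
      exact h1
    have hr' : ∀ j : Fin s, ρ.1 0 j.succ = 0 := by
      have h1 : Matrix.vecMul (fun k : Fin s => ρ.1 0 k.succ) A = 0 := funext hr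
      have h2 : Matrix.vecMul (Matrix.vecMul (fun k : Fin s => ρ.1 0 k.succ) A) A.adjugate = 0 := by
        rw [h1, Matrix.zero_vecMul]
      rw [Matrix.vecMul_vecMul, Matrix.mul_adjugate] at h2
      intro j
      have h3 := congrFun h2 j
      rw [Matrix.vecMul_smul, Matrix.vecMul_one] at h3
      exact (mul_eq_zero.1 h3).resolve_left hAdet
    have h00 : ρ.1 0 0 * d = d' := by
      have h1 := congrFun (congrFun h 0) 0
      rw [Matrix.mul_apply, Fin.sum_univ_succ,
        Finset.sum_eq_zero fun k _ => by rw [hr' k, zero_mul], add_zero] at h1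
      exact h1
    have hρ0 : 0 < ρ.1 0 0 := (mul_pos_iff_of_pos_right hd0).1 (by rw [h00]; exact hd0')
    have hdet := XGlu_row ρ.1 hr'
    rw [ρ.2] at hdet
    have hρ1 : ρ.1 0 0 = 1 := by
      have h1 : IsUnit (ρ.1 0 0) := IsUnit.of_mul_eq_one _ hdet.symm
      rcases Int.isUnit_iff.1 h1 with h2 | h2
      · exact h2
      · omega
    have hdd : d = d' := by
      rw [hρ1, one_mul] at h00
      exact h00
    obtain ⟨ℓ, ρ₁, hρ⟩ := exists_pm ρ (by
      intro j
      refine Fin.cases ?_ (fun j => ?_) j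
      · rw [if_pos rfl]
        exact hρ1
      · rw [if_neg (Fin.succ_ne_zero j)]
        exact hr' j)
    rw [hρ, URep_pm_bl] at h
    obtain ⟨-, hcc, hAA⟩ := URep_bl_inj h
    obtain ⟨hρ₁, hSS, hbb⟩ := ih ρ₁ _ _ _ _ hlr hlr' hAA
    have h0iff : (0 : Fin (s + 1)) ∈ S ↔ (0 : Fin (s + 1)) ∈ S' := by
      rw [hd, hd'] at hdd
      split_ifs at hdd with h1 h2 h2
      · exact ⟨fun _ => h2, fun _ => h1⟩
      · omega
      · omega
      · exact ⟨fun h => absurd h h1, fun h => absurd h h2⟩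
    have hSS' : S = S' := by
      ext i
      refine Fin.cases h0iff (fun i => ?_) i
      rw [← XDl_mem_tl, ← XDl_mem_tl, hSS]
    have hcol : ∀ i : Fin s, ℓ i = 0 ∧ b i.succ 0 = b' i.succ 0 := by
      intro i
      have h1 := congrFun hcc i
      simp only [hρ₁] at h1
      have h2 : ∑ k : Fin s, (1 : SL(s, ℤ)).1 i k * (b k.succ 0 : ℤ) = b i.succ 0 := by
        have h3 : ((1 : SL(s, ℤ)).1 : Matrix (Fin s) (Fin s) ℤ) = 1 := rfl
        rw [h3]
        simp [Matrix.one_apply]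
      rw [h2] at h1
      have h3 := XDl_col hb i
      have h4 := XDl_col hb' i
      rw [← hSS'] at h4
      by_cases h0 : (0 : Fin (s + 1)) ∈ S
      · have hdp : d = p := by rw [hd, if_pos h0]
        have h5 : b i.succ 0 < p := by
          split_ifs at h3
          · exact Finset.mem_range.1 h3
          · rw [Finset.mem_singleton.1 h3]
            exact hp.pos
        have h6 : b' i.succ 0 < p := by
          split_ifs at h4
          · exact Finset.mem_range.1 h4
          · rw [Finset.mem_singleton.1 h4]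
            exact hp.pos
        rw [hdp] at h1
        have h7 : ℓ i = 0 := by
          by_contra hne
          rcases lt_or_gt_of_ne hne with h8 | h8
          · have : ℓ i * p ≤ -1 * p := mul_le_mul_of_nonneg_right (by omega) hp0.le
            omega
          · have : 1 * p ≤ ℓ i * p := mul_le_mul_of_nonneg_right (by omega) hp0.le
            omega
        rw [h7, zero_mul, zero_add] at h1
        exact ⟨h7, by exact_mod_cast h1⟩
      · rw [if_neg (fun h => h0 h.1), Finset.mem_singleton] at h3 h4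
        have hdp : d = 1 := by rw [hd, if_neg h0]
        rw [h3, h4, hdp] at h1
        refine ⟨?_, by rw [h3, h4]⟩
        simpa using h1
    refine ⟨?_, hSS', ?_⟩
    · rw [hρ, hρ₁]
      have h1 : ℓ = 0 := funext fun i => (hcol i).1
      rw [h1]
      apply Subtype.ext
      show pmM 0 1 = 1
      ext i j
      refine Fin.cases ?_ (fun i => ?_) i
      · refine Fin.cases ?_ (fun j => ?_) j
        · rfl
        · rw [Matrix.one_apply_ne (Fin.succ_ne_zero j).symm]
          rfl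
      · refine Fin.cases ?_ (fun j => ?_) j
        · rw [Matrix.one_apply_ne (Fin.succ_ne_zero i)]
          rfl
        · show (1 : Matrix (Fin s) (Fin s) ℤ) i j = _
          simp [Matrix.one_apply]
    · rw [← hb1, ← hb1']
      have h1 : (fun i : Fin s => b i.succ 0) = fun i => b' i.succ 0 :=
        funext fun i => (hcol i).2
      rw [h1, hbb]

theorem unique_hnf {s p : ℕ} (hp : p.Prime) {γ γ' : SL(s + 1, ℤ)}
    {S S' : Finset (Fin (s + 1))} {b b' : Fin (s + 1) → Fin (s + 1) → ℕ} (hb : b ∈ bs p S)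
    (hb' : b' ∈ bs p S') (h : γ.1 * dlz p S b = γ'.1 * dlz p S' b') :
    γ = γ' ∧ S = S' ∧ b = b' := by
  have h1 : (γ'⁻¹).1 * γ'.1 = 1 := by
    have h2 : (γ'⁻¹ * γ').1 = 1 := by rw [inv_mul_cancel]; rfl
    exact h2
  have h2 : (γ'⁻¹ * γ).1 = (γ'⁻¹).1 * γ.1 := rfl
  have h3 : (γ'⁻¹ * γ).1 * dlz p S b = dlz p S' b' := by
    rw [h2, mul_assoc, h, ← mul_assoc, h1, one_mul]
  obtain ⟨h4, h5, h6⟩ := URep_unique hp _ _ _ _ _ _ hb hb' h3
  refine ⟨?_, h5, h6⟩
  rw [inv_mul_eq_one] at h4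
  exact h4.symm

end Pool.Agent.GL74
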