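import Mathlib

/-! # Matrices, Fourier coefficients, Whittaker functions (definitions)

Conventions: `X n` is the space of real `n × n` matrices as functions, with Lebesgue measure.
Groups act from the left; everything is mirrored: the mirabolic group `P (ℤ)` consists of the
matrices with first row `(1, 0, ..., 0)`, i.e. `(1 0; ℓ γ)`. -/

set_option autoImplicit false

noncomputable section

namespace Pool.Agent.GL74

open MeasureTheory
open scoped ENNReal MatrixGroups

/-- Real `n × n` matrices. -/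
abbrev X (n : ℕ) : Type := Fin n → Fin n → ℝ

/-- The determinant. -/
def dt {n : ℕ} (g : X n) : ℝ := (Matrix.of g).det

/-- Left multiplication by a matrix. -/
def lm {n : ℕ} (A : Matrix (Fin n) (Fin n) ℝ) (g : X n) : X n := fun i j => ∑ k, A i k * g k j

/-- A row vector times a matrix. -/
def rv {n : ℕ} (v : Fin n → ℝ) (g : X n) : Fin n → ℝ := fun j => ∑ i, v i * g i j

/-- An integral row vector as a real row vector. -/
def zr {n : ℕ} (v : Fin n → ℤ) : Fin n → ℝ := fun i => (v i : ℝ)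

/-- The action of `SL_n (ℤ)` by left multiplication. -/
def sl {n : ℕ} (γ : SL(n, ℤ)) (g : X n) : X n := lm (γ.1.map fun a : ℤ => (a : ℝ)) g

/-- `SL_n (ℤ)` acting on columns. -/
def cv {n : ℕ} (γ : SL(n, ℤ)) (c : Fin n → ℝ) : Fin n → ℝ := fun i => ∑ j, (γ.1 i j : ℝ) * c j

/-- `SL_n (ℤ)` acting on integral rows from the right. -/
def rw' {n : ℕ} (w : Fin n → ℤ) (γ : SL(n, ℤ)) : Fin n → ℤ := fun j => ∑ i, w i * γ.1 i j

/-- The matrix with first row `v`, first column `(v 0, c)` and lower right block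
`h + c v' / v 0`. -/
def glue {s : ℕ} (h : X s) (c : Fin s → ℝ) (v : Fin (s + 1) → ℝ) : X (s + 1) :=
  Fin.cons v fun i => Fin.cons (c i) fun j => h i j + c i * v j.succ / v 0

/-- The inverse of `glue`: the block `h`. -/
def hp {s : ℕ} (g : X (s + 1)) : X s :=
  fun i j => g i.succ j.succ - g i.succ 0 * g 0 j.succ / g 0 0

/-- The inverse of `glue`: the column `c`. -/
def cp {s : ℕ} (g : X (s + 1)) : Fin s → ℝ := fun i => g i.succ 0

/-- The lower right block. -/
def lr {s : ℕ} (g : X (s + 1)) : X s := fun i j => g i.succ j.succ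

/-- `e (x) = exp (2 π i x)`. -/
def e (x : ℝ) : ℂ := Complex.exp (2 * Real.pi * Complex.I * x)

/-- The vector `(m, 0, ..., 0)`. -/
def E (s : ℕ) (m : ℤ) : Fin s → ℤ := fun i => if (i : ℕ) = 0 then m else 0

/-- The Fourier coefficients with respect to the first column. -/
def coef {s : ℕ} (w : Fin s → ℤ) (φ : X (s + 1) → ℂ) (v : Fin (s + 1) → ℝ) (h : X s) : ℂ :=
  ∫ θ in Set.Icc (0 : Fin s → ℝ) 1, e (-(∑ i, (w i : ℝ) * θ i)) * φ (glue h (v 0 • θ) v)

/-- The iterated Fourier coefficient (Whittaker function) with the parameters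
`m 0, ..., m (s - 2)`, at an upper triangular matrix `t`. -/
def Wh : (s : ℕ) → (X s → ℂ) → (ℕ → ℤ) → X s → ℂ
  | 0, φ, _, t => φ t
  | s + 1, φ, m, t => Wh s (coef (E s (m 0)) φ (t 0)) (fun i => m (i + 1)) (lr t)

/-- The measure on upper triangular matrices (the quotient of Lebesgue measure by the lower
unipotent group). -/
def fl : (s : ℕ) → Measure (X s)
  | 0 => Measure.dirac 0
  | s + 1 => (((volume : Measure (Fin (s + 1) → ℝ)).withDensity
      fun v => ENNReal.ofReal (|v 0| ^ s)).prod (fl s)).map fun q => glue q.2 0 q.1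

/-- Bounded measurable functions, left invariant under `P (ℤ)`. -/
structure IsP {s : ℕ} (φ : X (s + 1) → ℂ) : Prop where
  meas : Measurable φ
  bdd : ∃ C : ℝ, ∀ g, ‖φ g‖ ≤ C
  inv : ∀ (γ : SL(s, ℤ)) (ℓ : Fin s → ℤ) (h : X s) (c : Fin s → ℝ) (v : Fin (s + 1) → ℝ),
    v 0 ≠ 0 → φ (glue (sl γ h) (cv γ c + v 0 • zr ℓ) v) = φ (glue h c v)

/-- The vanishing of the constant terms. -/
def Cusp : (s : ℕ) → (X (s + 1) → ℂ) → Prop
  | 0, _ => True
  | s + 1, φ => (∀ v h, v 0 ≠ 0 → coef 0 φ v h = 0) ∧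
      ∀ (m : ℤ) v, v 0 ≠ 0 → Cusp s (coef (E (s + 1) m) φ v)

/-- Extension of a finite sequence by zero. -/
def ext {s : ℕ} (m : Fin s → ℤ) : ℕ → ℤ := fun i => if h : i < s then m ⟨i, h⟩ else 0

/-- Weights for `SL_n (ℤ)`: scale invariant functions whose sum over the orbits is `1`, of finite
mass for bounded determinants. -/
structure IsWt {n : ℕ} (ω : X n → ℝ≥0∞) : Prop where
  meas : Measurable ω
  scale : ∀ t : ℝ, 0 < t → ∀ g, ω (t • g) = ω g
  sum : ∀ᵐ g : X n, ∑' γ : SL(n, ℤ), ω (sl γ g) = 1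
  fin : ∫⁻ g in {g : X n | |dt g| ≤ 1}, ω g ≠ ∞

open Classical in
/-- The product weight for the mirabolic group. -/
def wP {s : ℕ} (ω : X s → ℝ≥0∞) (g : X (s + 1)) : ℝ≥0∞ :=
  if ∀ i, cp g i / g 0 0 ∈ Set.Ico (0 : ℝ) 1 then ω (hp g) else 0

/-- The element `(1 0; ℓ γ)` of the mirabolic group. -/
def pmM {s : ℕ} (ℓ : Fin s → ℤ) (γ : SL(s, ℤ)) : Matrix (Fin (s + 1)) (Fin (s + 1)) ℤ :=
  Matrix.of (Fin.cons (Fin.cons 1 0) fun i => Fin.cons (ℓ i) (γ.1 i))

/-- Primitive integral vectors. -/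
def IsPrim {n : ℕ} (v : Fin n → ℤ) : Prop := ∃ u : Fin n → ℤ, ∑ i, u i * v i = 1

/-- The Gaussian. -/
def gs {n : ℕ} (v : Fin n → ℝ) : ℝ := Real.exp (-(Real.pi * ∑ i, v i ^ 2))

/-- The matrices of the Hecke operators: lower triangular, diagonal entries `p` for the indices
in `S` and `1` otherwise, and the entries of `b` below the diagonal. -/
def dl {n : ℕ} (p : ℕ) (S : Finset (Fin n)) (b : Fin n → Fin n → ℕ) :
    Matrix (Fin n) (Fin n) ℝ :=
  Matrix.of fun i j => if i = j then (if i ∈ S then (p : ℝ) else 1) else (b i j : ℝ)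

/-- The off-diagonal entries: `0 ≤ b i j < p` if `j < i`, `j ∈ S`, `i ∉ S`, otherwise `0`. -/
def bs {n : ℕ} (p : ℕ) (S : Finset (Fin n)) : Finset (Fin n → Fin n → ℕ) :=
  Fintype.piFinset fun i => Fintype.piFinset fun j =>
    if j < i ∧ j ∈ S ∧ i ∉ S then Finset.range p else {0}

/-- The partial Hecke operator. -/
def Hk {n : ℕ} (p : ℕ) (S : Finset (Fin n)) (φ : X n → ℂ) (g : X n) : ℂ :=
  ∑ b ∈ bs p S, φ (lm (dl p S b) g)

/-- The set `{i | i + 1 ∈ S}`. -/
def tl {s : ℕ} (S : Finset (Fin (s + 1))) : Finset (Fin s) :=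
  Finset.univ.filter fun i => i.succ ∈ S

/-- Right multiplication. -/
def rm {n : ℕ} (g : X n) (x : Matrix (Fin n) (Fin n) ℝ) : X n := fun i j => ∑ k, g i k * x k j

/-- Lipschitz functions on the group. -/
def IsLip {n : ℕ} (C : ℝ) (φ : X n → ℂ) : Prop :=
  ∀ (g : X n) (x : Matrix (Fin n) (Fin n) ℝ), 0 < x.det →
    ‖φ (rm g x) - φ g‖ ≤ C * ∑ i, ∑ j, |x i j - (1 : Matrix (Fin n) (Fin n) ℝ) i j|

end Pool.Agent.GL74
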