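import Pool.Agent.W_7742x_h74.XDef

/-! # Algebra of `glue`, `sl`, `lm`

All entries are explicit; `glue h c v` has first row `v`, first column `(v 0, c)` and the entries
`h i j + c i * v (j+1) / v 0` (`i, j ≥ 0`) in the lower right block.

* `dt_glue`: subtract `c i / v 0` times the first row from the other rows: block triangular with
  blocks `v 0` and `h` (or: `Matrix.of (glue h c v) = (1 0; c/v0 1) * (v0 v'; 0 h)`).
* `sl_pm_glue`: row 0 stays, row `i+1` of the product is `ℓ i * row 0 + ∑ γ i j * row (j+1)`.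
* `dl_glue_zero_notMem`: for `0 ∉ S` the matrix `dl p S b` is `(1 0; 0 δ')` because the entries
  `b i 0` are `0` (`b ∈ bs p S`); `δ' = dl p (tl S) (lower right part of b)`.
* `dl_glue_zero_mem`: for `0 ∈ S` it is `(p 0; b δ')`, `b_i = b (i+1) 0`. -/

set_option autoImplicit false

noncomputable section

namespace Pool.Agent.GL74

open MeasureTheory
open scoped ENNReal MatrixGroups

theorem glue_row {s : ℕ} (h : X s) (c : Fin s → ℝ) (v : Fin (s + 1) → ℝ) :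
    glue h c v 0 = v := rfl

theorem cp_glue {s : ℕ} (h : X s) (c : Fin s → ℝ) (v : Fin (s + 1) → ℝ) :
    cp (glue h c v) = c := rfl

theorem hp_glue {s : ℕ} (h : X s) (c : Fin s → ℝ) (v : Fin (s + 1) → ℝ) :
    hp (glue h c v) = h := by
  funext i j
  show (h i j + c i * v j.succ / v 0) - c i * v j.succ / v 0 = h i j
  ring

theorem lr_glue_zero {s : ℕ} (h : X s) (v : Fin (s + 1) → ℝ) : lr (glue h 0 v) = h := by
  funext i j
  show h i j + (0 : ℝ) * v j.succ / v 0 = h i j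
  ring

theorem glue_hp {s : ℕ} (g : X (s + 1)) : glue (hp g) (cp g) (g 0) = g := by
  funext i j
  refine Fin.cases rfl (fun i => ?_) i
  refine Fin.cases rfl (fun j => ?_) j
  show (g i.succ j.succ - g i.succ 0 * g 0 j.succ / g 0 0) + g i.succ 0 * g 0 j.succ / g 0 0 =
    g i.succ j.succ
  ring

theorem XGlu_col {R : Type*} [CommRing R] {s : ℕ} (B : Matrix (Fin (s + 1)) (Fin (s + 1)) R)
    (hB : ∀ i : Fin s, B i.succ 0 = 0) :
    B.det = B 0 0 * (B.submatrix Fin.succ Fin.succ).det := by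
  rw [Matrix.det_succ_column_zero, Fin.sum_univ_succ, Finset.sum_eq_zero, add_zero]
  · simp
  · intro i _
    rw [hB i]
    ring

theorem XGlu_row {R : Type*} [CommRing R] {s : ℕ} (B : Matrix (Fin (s + 1)) (Fin (s + 1)) R)
    (hB : ∀ i : Fin s, B 0 i.succ = 0) :
    B.det = B 0 0 * (B.submatrix Fin.succ Fin.succ).det := by
  rw [← Matrix.det_transpose, XGlu_col B.transpose hB, ← Matrix.det_transpose]
  rfl

theorem dt_glue {s : ℕ} (h : X s) (c : Fin s → ℝ) {v : Fin (s + 1) → ℝ} (hv : v 0 ≠ 0) :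
    dt (glue h c v) = v 0 * dt h := by
  have h1 : dt (glue h c v) = (Matrix.of (Fin.cons v fun i => Fin.cons 0 (h i) : X (s + 1))).det := by
    unfold dt
    refine Matrix.det_eq_of_forall_row_eq_smul_add_const
      (Fin.cons 0 fun i => c i / v 0 : Fin (s + 1) → ℝ) 0 rfl fun i j => ?_
    refine Fin.cases ?_ (fun i => ?_) i
    · show v j = v j + 0 * v j
      ring
    · refine Fin.cases ?_ (fun j => ?_) j
      · show c i = 0 + c i / v 0 * v 0
        field_simp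
        ring
      · show h i j + c i * v j.succ / v 0 = h i j + c i / v 0 * v j.succ
        ring
  rw [h1, XGlu_col _ fun i => rfl]
  rfl

theorem smul_glue {s : ℕ} (t : ℝ) (ht : t ≠ 0) (h : X s) (c : Fin s → ℝ) (v : Fin (s + 1) → ℝ) :
    t • glue h c v = glue (t • h) (t • c) (t • v) := by
  funext i j
  refine Fin.cases rfl (fun i => ?_) i
  refine Fin.cases rfl (fun j => ?_) j
  show t * (h i j + c i * v j.succ / v 0) = t * h i j + t * c i * (t * v j.succ) / (t * v 0)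
  have h1 : t * c i * (t * v j.succ) / (t * v 0) = t * (c i * v j.succ / v 0) := by
    rw [mul_assoc, mul_div_mul_left _ _ ht]
    ring
  rw [h1]
  ring

theorem lm_eq {n : ℕ} (A : Matrix (Fin n) (Fin n) ℝ) (g : X n) :
    Matrix.of (lm A g) = A * Matrix.of g := by
  ext i j
  rw [Matrix.mul_apply]
  rfl

theorem lm_lm {n : ℕ} (A B : Matrix (Fin n) (Fin n) ℝ) (g : X n) :
    lm A (lm B g) = lm (A * B) g := by
  apply (Matrix.of (m := Fin n) (n := Fin n) (α := ℝ)).injective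
  rw [lm_eq, lm_eq, lm_eq, Matrix.mul_assoc]

theorem lm_one {n : ℕ} (g : X n) : lm (1 : Matrix (Fin n) (Fin n) ℝ) g = g := by
  apply (Matrix.of (m := Fin n) (n := Fin n) (α := ℝ)).injective
  rw [lm_eq, Matrix.one_mul]

theorem lm_smul {n : ℕ} (A : Matrix (Fin n) (Fin n) ℝ) (t : ℝ) (g : X n) :
    lm A (t • g) = t • lm A g := by
  funext i j
  show ∑ k, A i k * (t * g k j) = t * ∑ k, A i k * g k j
  rw [Finset.mul_sum]
  exact Finset.sum_congr rfl fun k _ => by ring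

theorem dt_lm {n : ℕ} (A : Matrix (Fin n) (Fin n) ℝ) (g : X n) : dt (lm A g) = A.det * dt g := by
  unfold dt
  rw [lm_eq, Matrix.det_mul]

theorem dt_smul {n : ℕ} (t : ℝ) (g : X n) : dt (t • g) = t ^ n * dt g := by
  unfold dt
  have h1 : Matrix.of (t • g) = t • Matrix.of g := rfl
  rw [h1, Matrix.det_smul, Fintype.card_fin]

theorem sl_one {n : ℕ} (g : X n) : sl (1 : SL(n, ℤ)) g = g := by
  unfold sl
  have h1 : ((1 : SL(n, ℤ)).1.map fun a : ℤ => (a : ℝ)) = 1 := by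
    show (1 : Matrix (Fin n) (Fin n) ℤ).map (fun a : ℤ => (a : ℝ)) = 1
    exact Matrix.map_one _ Int.cast_zero Int.cast_one
  rw [h1, lm_one]

theorem sl_mul {n : ℕ} (γ δ : SL(n, ℤ)) (g : X n) : sl (γ * δ) g = sl γ (sl δ g) := by
  unfold sl
  rw [lm_lm]
  congr 1
  show (γ.1 * δ.1).map (Int.castRingHom ℝ) =
    γ.1.map (Int.castRingHom ℝ) * δ.1.map (Int.castRingHom ℝ)
  rw [Matrix.map_mul]

theorem dt_sl {n : ℕ} (γ : SL(n, ℤ)) (g : X n) : dt (sl γ g) = dt g := by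
  unfold sl
  rw [dt_lm]
  have h1 : (γ.1.map fun a : ℤ => (a : ℝ)).det = 1 := by
    show ((Int.castRingHom ℝ).mapMatrix γ.1).det = 1
    rw [← RingHom.map_det, γ.2, map_one]
  rw [h1, one_mul]

theorem sl_smul {n : ℕ} (γ : SL(n, ℤ)) (t : ℝ) (g : X n) : sl γ (t • g) = t • sl γ g :=
  lm_smul _ t g

/-- Row vectors. -/
theorem rv_sl {n : ℕ} (v : Fin n → ℤ) (γ : SL(n, ℤ)) (g : X n) :
    rv (zr v) (sl γ g) = rv (zr (rw' v γ)) g := by
  funext j
  show ∑ i, (v i : ℝ) * ∑ k, (γ.1 i k : ℝ) * g k j = ∑ k, ((∑ i, v i * γ.1 i k : ℤ) : ℝ) * g k j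
  simp only [Finset.mul_sum]
  rw [Finset.sum_comm]
  refine Finset.sum_congr rfl fun k _ => ?_
  push_cast
  rw [Finset.sum_mul]
  exact Finset.sum_congr rfl fun i _ => by ring

theorem sl_row_zero {n : ℕ} (γ : SL(n + 1, ℤ)) (g : X (n + 1)) :
    sl γ g 0 = rv (zr fun j => γ.1 0 j) g := rfl

theorem det_pmM {s : ℕ} (ℓ : Fin s → ℤ) (γ : SL(s, ℤ)) : (pmM ℓ γ).det = 1 := by
  rw [XGlu_row _ fun i => rfl]
  have h1 : (pmM ℓ γ).submatrix Fin.succ Fin.succ = γ.1 := rfl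
  have h2 : pmM ℓ γ 0 0 = 1 := rfl
  rw [h1, h2, γ.2, one_mul]

/-- The element `(1 0; ℓ γ)` of `SL_{s+1} (ℤ)`. -/
def pm {s : ℕ} (ℓ : Fin s → ℤ) (γ : SL(s, ℤ)) : SL(s + 1, ℤ) := ⟨pmM ℓ γ, det_pmM ℓ γ⟩

theorem sl_pm_glue {s : ℕ} (ℓ : Fin s → ℤ) (γ : SL(s, ℤ)) (h : X s) (c : Fin s → ℝ)
    {v : Fin (s + 1) → ℝ} (hv : v 0 ≠ 0) :
    sl (pm ℓ γ) (glue h c v) = glue (sl γ h) (cv γ c + v 0 • zr ℓ) v := by
  funext i j
  show ∑ k, ((pmM ℓ γ i k : ℤ) : ℝ) * glue h c v k j = _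
  rw [Fin.sum_univ_succ]
  refine Fin.cases ?_ (fun i => ?_) i
  · show ((1 : ℤ) : ℝ) * v j + ∑ k : Fin s, ((0 : ℤ) : ℝ) * glue h c v k.succ j = v j
    simp
  · refine Fin.cases ?_ (fun j => ?_) j
    · show ((ℓ i : ℤ) : ℝ) * v 0 + ∑ k : Fin s, ((γ.1 i k : ℤ) : ℝ) * c k =
        (∑ k, (γ.1 i k : ℝ) * c k) + v 0 * (ℓ i : ℝ)
      ring
    · show ((ℓ i : ℤ) : ℝ) * v j.succ + ∑ k : Fin s, ((γ.1 i k : ℤ) : ℝ) *
          (h k j + c k * v j.succ / v 0) =
        (∑ k, (γ.1 i k : ℝ) * h k j) +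
          ((∑ k, (γ.1 i k : ℝ) * c k) + v 0 * (ℓ i : ℝ)) * v j.succ / v 0
      have h1 : ∑ k : Fin s, ((γ.1 i k : ℤ) : ℝ) * (h k j + c k * v j.succ / v 0) =
          (∑ k, (γ.1 i k : ℝ) * h k j) + (∑ k, (γ.1 i k : ℝ) * c k) * (v j.succ / v 0) := by
        rw [Finset.sum_mul, ← Finset.sum_add_distrib]
        exact Finset.sum_congr rfl fun k _ => by ring
      rw [h1]
      field_simp
      ring

theorem pm_injective {s : ℕ} :
    Function.Injective fun q : (Fin s → ℤ) × SL(s, ℤ) => pm q.1 q.2 := by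
  rintro ⟨ℓ, γ⟩ ⟨ℓ', γ'⟩ h
  have h1 : pmM ℓ γ = pmM ℓ' γ' := congrArg Subtype.val h
  have h2 : ℓ = ℓ' := funext fun i => congrFun (congrFun h1 i.succ) 0
  have h3 : γ = γ' := by
    apply Subtype.ext
    ext i j
    exact congrFun (congrFun h1 i.succ) j.succ
  rw [h2, h3]

/-- The elements with first row `(1, 0, ..., 0)` are the `pm ℓ γ`. -/
theorem exists_pm {s : ℕ} (δ : SL(s + 1, ℤ)) (h : ∀ j, δ.1 0 j = if j = 0 then 1 else 0) :
    ∃ ℓ γ, δ = pm ℓ γ := by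
  have h0 : δ.1 0 0 = 1 := by rw [h 0, if_pos rfl]
  have h1 : ∀ j : Fin s, δ.1 0 j.succ = 0 := fun j => by
    rw [h j.succ, if_neg (Fin.succ_ne_zero j)]
  have h2 := XGlu_row δ.1 h1
  rw [h0, one_mul, δ.2] at h2
  refine ⟨fun i => δ.1 i.succ 0, ⟨δ.1.submatrix Fin.succ Fin.succ, h2.symm⟩, ?_⟩
  apply Subtype.ext
  ext i j
  refine Fin.cases ?_ (fun i => ?_) i
  · refine Fin.cases ?_ (fun j => ?_) j
    · exact h0
    · exact h1 j
  · refine Fin.cases ?_ (fun j => ?_) j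
    · rfl
    · rfl

end Pool.Agent.GL74
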